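import Pool.Agent.P.MP_8be758_nt.Sq.IfaceB

/-! Step AV1. -/

set_option autoImplicit false
set_option linter.unusedSectionVars false

namespace Pool.Agent.P.MP_8be758_nt.Sq

open Finset Real Filter Topology ArithmeticFunction
open Pool.Agent.P.MP_e86632_nt (ee nn)
open Pool.Agent.P.MP_8be758_nt.Avg (gs Rough)

theorem av1_cont {r : ℝ} (hr : 0 < r) (y : ℝ) :
    Continuous fun l => ∑' j : ℤ, gs (r * (j - (y - l))) := by
  refine continuous_iff_continuousAt.2 fun l0 => ContinuousOn.continuousAt
    (continuousOn_tsum (fun j => by unfold gs; fun_prop)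
      ((Avg.gs_summable (half_pos hr) (y - l0)).mul_left (Real.exp (π * r ^ 2)))
      fun j l hl => ?_) (Ioo_mem_nhds (sub_one_lt l0) (lt_add_one l0))
  rw [Real.norm_of_nonneg (Avg.gs_pos _).le, gs, gs, ← Real.exp_add, Real.exp_le_exp]
  have h1 : (l - l0) ^ 2 ≤ 1 := by nlinarith [hl.1, hl.2]
  have h2 : ((j : ℝ) - (y - l0)) ^ 2 / 4 - 1 ≤ (j - (y - l)) ^ 2 := by
    nlinarith [sq_nonneg (3 * (j - (y - l0)) + 4 * (l - l0)), sq_nonneg (l - l0)]
  have h3 := mul_le_mul_of_nonneg_left h2 (show 0 ≤ π * r ^ 2 by positivity)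
  nlinarith

theorem p_AV1 :
    S_AV1 := by
  intro δ y hδ
  have hr : 0 < 1 / δ := one_div_pos.2 hδ
  have hc : Continuous fun l => comb δ l y := continuous_const.mul (av1_cont hr y)
  refine ⟨hc, fun l1 l2 h1 h2 => ?_⟩
  have hi : MeasureTheory.Integrable fun x : ℝ => gs (1 / δ * x) := by
    refine (integrable_exp_neg_mul_sq (b := π * (1 / δ) ^ 2) (by positivity)).congr
      (Eventually.of_forall fun x => ?_)
    unfold gs; ring_nf
  have a1 : HasSum (fun j : ℤ => ∫ l in l1..l1 + 1, gs (1 / δ * (j - (y - l))))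
      (∫ l in l1..l1 + 1, ∑' j : ℤ, gs (1 / δ * (j - (y - l)))) :=
    intervalIntegral.hasSum_integral_of_dominated_convergence
      (fun (j : ℤ) l => gs (1 / δ * (j - (y - l))))
      (fun j => Continuous.aestronglyMeasurable (by unfold gs; fun_prop))
      (fun j => Eventually.of_forall fun l _ => (Real.norm_of_nonneg (Avg.gs_pos _).le).le)
      (Eventually.of_forall fun l _ => Avg.gs_summable hr _)
      ((av1_cont hr y).intervalIntegrable _ _)
      (Eventually.of_forall fun l _ => (Avg.gs_summable hr _).hasSum)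
  have a2 : ∀ j : ℤ, ∫ l in l1..l1 + 1, gs (1 / δ * (j - (y - l))) =
      ∫ x in l1 - y + j..l1 - y + j + 1, gs (1 / δ * x) := fun j => by
    have := intervalIntegral.integral_comp_add_right (a := l1) (b := l1 + 1)
      (fun x => gs (1 / δ * x)) (j - y)
    convert this using 1
    · congr 1; ext l; congr 2; ring
    · congr 1 <;> ring
  simp only [a2] at a1
  calc ∫ l in l1..l2, comb δ l y ≤ ∫ l in l1..l1 + 1, comb δ l y :=
        intervalIntegral.integral_mono_interval le_rfl h1 h2
          (Eventually.of_forall fun l => comb_nonneg hδ l y) (hc.intervalIntegrable _ _)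
    _ = 1 := by
        unfold comb
        rw [intervalIntegral.integral_const_mul, a1.unique (hi.hasSum_intervalIntegral (l1 - y)),
          ← MeasureTheory.integral_const_mul, integral_gs_one hr]

end Pool.Agent.P.MP_8be758_nt.Sq
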