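import Pool.Agent.P.MP_8be758_nt.Sq.IfaceB

/-! Step AV2. -/

set_option autoImplicit false
set_option linter.unusedSectionVars false

namespace Pool.Agent.P.MP_8be758_nt.Sq

open Finset Real Filter Topology ArithmeticFunction
open Pool.Agent.P.MP_e86632_nt (ee nn)
open Pool.Agent.P.MP_8be758_nt.Avg (gs Rough)

theorem av2_int {D : ℝ} (hD : 0 < D) (y : ℝ) :
    MeasureTheory.Integrable (fun c : ℝ => gs ((y - c) / D)) ∧ ∫ c : ℝ, gs ((y - c) / D) = D := by
  constructor
  · refine MeasureTheory.Integrable.comp_sub_left (f := fun x => gs (x / D)) ?_ y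
    refine (integrable_exp_neg_mul_sq (b := π * (1 / D) ^ 2) (by positivity)).congr
      (Eventually.of_forall fun x => ?_)
    unfold gs; ring_nf
  · have h := integral_gs_one (one_div_pos.2 hD)
    rw [MeasureTheory.integral_const_mul] at h
    simp only [one_div_mul_eq_div] at h
    rw [MeasureTheory.integral_sub_left_eq_self (fun x => gs (x / D)) _ y]
    rwa [div_eq_one_iff_eq hD.ne'] at h

theorem p_AV2 :
    S_AV2 := by
  intro Δ y c1 c2 hΔ hc
  obtain ⟨i1, e1⟩ := av2_int hΔ y
  rw [intervalIntegral.integral_of_le hc]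
  refine ⟨(MeasureTheory.setIntegral_le_integral i1
    (Eventually.of_forall fun _ => (Avg.gs_pos _).le)).trans_eq e1, fun T hT h1 h2 => ?_⟩
  obtain ⟨i2, e2⟩ := av2_int (show 0 < Δ * √2 by positivity) y
  have a1 := MeasureTheory.integral_add_compl (measurableSet_Ioc (a := c1) (b := c2)) i1
  have a2 : ∫ c in (Set.Ioc c1 c2)ᶜ, gs ((y - c) / Δ) ≤
      ∫ c in (Set.Ioc c1 c2)ᶜ, gs (T / 2) * gs ((y - c) / (Δ * √2)) := by
    refine MeasureTheory.setIntegral_mono_on i1.integrableOn (i2.const_mul _).integrableOn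
      measurableSet_Ioc.compl fun c hc => ?_
    rw [← div_div]
    refine gs_tail hT ?_
    rw [abs_div, abs_of_pos hΔ, le_div_iff₀ hΔ, le_abs]
    rcases not_and_or.1 hc with h | h
    · left; linarith [not_lt.1 h]
    · right; linarith [not_le.1 h]
  have a3 := MeasureTheory.setIntegral_le_integral (s := (Set.Ioc c1 c2)ᶜ)
    (i2.const_mul (gs (T / 2)))
    (Eventually.of_forall fun _ => (mul_pos (Avg.gs_pos _) (Avg.gs_pos _)).le)
  rw [MeasureTheory.integral_const_mul (gs (T / 2)) (μ := MeasureTheory.volume), e2] at a3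
  have a4 : √2 ≤ 2 := by
    rw [Real.sqrt_le_left (by norm_num)]; norm_num
  have a5 := mul_le_mul_of_nonneg_left a4 (mul_pos (Avg.gs_pos (T / 2)) hΔ).le
  linarith

end Pool.Agent.P.MP_8be758_nt.Sq
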