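import Pool.Agent.P.MP_8be758_nt.Sq.IfaceB

/-! Statements for the sign condition. -/

set_option autoImplicit false

namespace Pool.Agent.P.MP_8be758_nt.Sq

open Finset Real Filter Topology ArithmeticFunction
open Pool.Agent.P.MP_e86632_nt (ee nn)
open Pool.Agent.P.MP_8be758_nt.Avg (gs Rough)

/-- number of small elements -/
noncomputable def Kc {s : ℕ} (x : Fin s → ℝ) (y : ℝ) : ℝ := ∑ i, if x i < 12 - y then 1 else 0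

/-- number of small pairs -/
noncomputable def Jc {s : ℕ} (x : Fin s → ℝ) (y : ℝ) : ℝ :=
  ∑ i, ∑ j, if i < j ∧ x i + x j < 12 - y then 1 else 0

/-- the part of the sieve function that can be positive -/
noncomputable def F0 {s : ℕ} (x : Fin s → ℝ) (y : ℝ) : ℝ :=
  (1 - Kc x y + Jc x y) * (2 + Kc x y + Jc x y - 2 ^ s / 2)

-- deps:
def S_SG0 : Prop := ∀ (s : ℕ) (x : Fin s → ℝ) (y : ℝ), Cf x y →
  Phi (chl y x) = F0 x y - 2 * N2t (chl y x) - 2 * N3t (chl y x) - 8 / 15 * N4t (chl y x) ∧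
    0 ≤ N2t (chl y x) ∧ 0 ≤ N3t (chl y x) ∧ 0 ≤ N4t (chl y x)

-- deps:
def S_SG1 : Prop := ∀ (s : ℕ) (x : Fin s → ℝ) (y : ℝ), Cf x y → s ≤ 6

-- deps:
def S_SG3 : Prop := (∀ (x : Fin 2 → ℝ) (y : ℝ), Cf x y → F0 x y ≤ 0) ∧
  (∀ (x : Fin 3 → ℝ) (y : ℝ), Cf x y → F0 x y ≤ 0) ∧ ∀ (x : Fin 6 → ℝ) (y : ℝ), Cf x y → F0 x y ≤ 0

-- deps:
def S_SG4 : Prop := ∀ (x : Fin 4 → ℝ) (y : ℝ), Cf x y →
  F0 x y ≤ 2 * N2t (chl y x) + 2 * N3t (chl y x)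

-- deps:
def S_SG5 : Prop := ∀ (x : Fin 5 → ℝ) (y : ℝ), Cf x y →
  F0 x y ≤ 2 * N2t (chl y x) + 2 * N3t (chl y x) + 8 / 15 * N4t (chl y x)

-- deps: SG0 SG1 SG3 SG4 SG5
def S_SG : Prop := R_SGN

end Pool.Agent.P.MP_8be758_nt.Sq
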