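import Pool.Agent.P.MP_8be758_nt.Sq.IfaceK
import Pool.Agent.P.MP_8be758_nt.Sq.IfaceE

/-! Step BD1. -/

set_option autoImplicit false
set_option linter.unusedSectionVars false

namespace Pool.Agent.P.MP_8be758_nt.Sq

open Finset Real Filter Topology ArithmeticFunction
open Pool.Agent.P.MP_e86632_nt (ee nn)
open Pool.Agent.P.MP_8be758_nt.Avg (gs Rough)

theorem BD1_rev {n : ℕ} (e : Fin (n + 1) → ℕ × ℕ) :
    (List.ofFn e).reverse = e (Fin.last n) :: (List.ofFn fun i => e i.castSucc).reverse := by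
  rw [List.ofFn_succ', List.concat_eq_append, List.reverse_append]
  rfl

theorem BD1_s1 : ∀ (n : ℕ) (e : Fin n → ℕ × ℕ) (f : ℕ × ℕ → ℕ),
    s1 f (List.ofFn e).reverse = ∑ i, f (e i) := by
  intro n
  induction n with
  | zero => intro e f; simp [s1_nil]
  | succ n ih =>
    intro e f
    rw [BD1_rev, s1_cons, ih, Fin.sum_univ_castSucc, add_comm]

theorem BD1_nl {n : ℕ} (i : Fin (n + 1)) : ¬ Fin.last n < i := not_lt.2 (Fin.le_last i)

theorem BD1_s2 : ∀ (n : ℕ) (e : Fin n → ℕ × ℕ) (f : ℕ × ℕ → ℕ × ℕ → ℕ),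
    s2 f (List.ofFn e).reverse = ∑ i, ∑ j, if i < j then f (e i) (e j) else 0 := by
  intro n
  induction n with
  | zero => intro e f; simp [s2_nil]
  | succ n ih =>
    intro e f
    rw [BD1_rev, s2_cons, ih, BD1_s1]
    simp only [Fin.sum_univ_castSucc, Fin.castSucc_lt_castSucc_iff, Fin.castSucc_lt_last,
      BD1_nl, if_true, if_false, sum_const_zero, add_zero, sum_add_distrib]
    rw [add_comm]

theorem BD1_s3 : ∀ (n : ℕ) (e : Fin n → ℕ × ℕ) (f : ℕ × ℕ → ℕ × ℕ → ℕ × ℕ → ℕ),
    s3 f (List.ofFn e).reverse =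
      ∑ i, ∑ j, ∑ l, if i < j ∧ j < l then f (e i) (e j) (e l) else 0 := by
  intro n
  induction n with
  | zero => intro e f; simp [s3_nil]
  | succ n ih =>
    intro e f
    rw [BD1_rev, s3_cons, ih, BD1_s2]
    simp only [Fin.sum_univ_castSucc, Fin.castSucc_lt_castSucc_iff, Fin.castSucc_lt_last,
      BD1_nl, if_false, sum_const_zero, add_zero, sum_add_distrib, and_true, and_false,
      false_and]
    rw [add_comm]

theorem BD1_app (f : ℕ → ℕ → ℕ) (E : List (ℕ × ℕ)) : ∀ (P : List (ℕ × ℕ)) (a b : ℕ),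
    sS (sS f E) P a b = sS f (P ++ E) a b := by
  intro P
  induction P with
  | nil => intro a b; rfl
  | cons p P ih =>
    intro a b
    rw [List.cons_append, sS_cons, sS_cons, ih, ih]

theorem BD1_sS {ι : Type} [DecidableEq ι] (e : ι → ℕ × ℕ) (f : ℕ → ℕ → ℕ) :
    ∀ (D : List ι), D.Nodup → ∀ a b : ℕ, sS f (D.map e) a b =
      ∑ A ∈ D.toFinset.powerset, f (a + ∑ j ∈ A, (e j).1) (b + ∑ j ∈ A, (e j).2) := by
  intro D
  induction D with
  | nil => intro _ a b; simp [sS_nil]
  | cons d D ih =>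
    intro hD a b
    rw [List.nodup_cons] at hD
    have hd : d ∉ D.toFinset := by simpa using hD.1
    rw [List.map_cons, sS_cons, ih hD.2, ih hD.2, List.toFinset_cons, sum_powerset_insert hd]
    congr 1
    refine sum_congr rfl fun A hA => ?_
    have hA' : d ∉ A := fun h => hd (mem_powerset.1 hA h)
    rw [sum_insert hA', sum_insert hA', add_assoc, add_assoc]

theorem BD1_s4a {ι : Type} [DecidableEq ι] (e : ι → ℕ × ℕ) (U : Finset ι) :
    ∀ (D Q : List ι), (Q ++ D).Nodup → (Q ++ D).toFinset = U →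
      s4 (D.map e) (Q.map e) = ∑ i ∈ D.toFinset, bif Nat.ble 72 (e i).1 then 0 else
        ∑ A ∈ (U.erase i).powerset, c4 (e i) (∑ j ∈ A, (e j).1) (∑ j ∈ A, (e j).2) := by
  intro D
  induction D with
  | nil => intro Q _ _; simp [s4_nil]
  | cons d D ih =>
    intro Q hN hU
    have hp : (Q ++ d :: D).Perm (d :: (Q ++ D)) := List.perm_middle
    have hN' : (d :: (Q ++ D)).Nodup := hp.nodup_iff.1 hN
    have hU' : (d :: (Q ++ D)).toFinset = U := by rw [← hU]; exact (List.toFinset_eq_of_perm _ _ hp).symm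
    have h1 := List.nodup_cons.1 hN'
    have hd : d ∉ D.toFinset := by
      intro h
      exact h1.1 (List.mem_append_right _ (List.mem_toFinset.1 h))
    have he : U.erase d = (Q ++ D).toFinset := by
      rw [← hU', List.toFinset_cons, erase_insert (by simpa using h1.1)]
    rw [List.map_cons, s4_cons, ← List.map_cons, ih (d :: Q) hN' hU', List.toFinset_cons,
      sum_insert hd, BD1_app, ← List.map_append, BD1_sS e _ _ h1.2, he]
    simp only [zero_add]

theorem BD1_s4 (n : ℕ) (e : Fin n → ℕ × ℕ) :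
    s4 (List.ofFn e).reverse [] = ∑ i, ∑ A : Finset (Fin n), if i ∉ A then
      (bif Nat.ble 72 (e i).1 then 0 else c4 (e i) (∑ j ∈ A, (e j).1) (∑ j ∈ A, (e j).2))
      else 0 := by
  have h := BD1_s4a e univ (List.finRange n).reverse [] (by simpa using List.nodup_finRange n)
    (by simp)
  rw [List.ofFn_eq_map, ← List.map_reverse]
  rw [List.map_nil] at h
  rw [h]
  have h2 : (List.finRange n).reverse.toFinset = univ := by simp
  rw [h2]
  refine sum_congr rfl fun i _ => ?_
  rw [← sum_filter]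
  have h3 : (univ.erase i).powerset = univ.filter fun A : Finset (Fin n) => i ∉ A := by
    ext A
    simp [subset_erase]
  rw [h3]
  cases Nat.ble 72 (e i).1 <;> simp

theorem p_BD1 (hSG0 : S_SG0) :
    S_BD1 := by
  intro n x y e hC hy hn H hw
  have hy0 := hC.y0
  -- small sets
  have sm1 : ∀ A : Finset (Fin n), ∑ j ∈ A, x j < 12 + 100 * y → ∑ j ∈ A, (e j).1 ≤ 71 := by
    intro A h
    have h1 := (H A).1
    rcases hC.gap A with h2 | h2
    · have : ((∑ j ∈ A, (e j).1 : ℕ) : ℝ) < (72 : ℕ) := by push_cast at h1 ⊢; linarith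
      have := Nat.cast_lt.1 this
      omega
    · exfalso; linarith
  have sm2 : ∀ A : Finset (Fin n), ∑ j ∈ A, (e j).2 ≤ 95 → ∑ j ∈ A, x j < 12 - y := by
    intro A h
    have h1 := (H A).2
    have h3 : ((∑ j ∈ A, (e j).2 : ℕ) : ℝ) ≤ (95 : ℕ) := Nat.cast_le.2 h
    rcases hC.gap A with h2 | h2
    · exact h2
    · exfalso; push_cast at h1 h3; linarith
  have up : ∀ (A : Finset (Fin n)) (c : ℕ), 6 * ∑ j ∈ A, x j + 6 * y < c + 1 →
      ∑ j ∈ A, (e j).1 ≤ c := by
    intro A c h
    have h1 := (H A).1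
    have : ((∑ j ∈ A, (e j).1 : ℕ) : ℝ) < (c + 1 : ℕ) := by push_cast at h1 ⊢; linarith
    have := Nat.cast_lt.1 this
    omega
  have dn : ∀ (A : Finset (Fin n)) (c : ℕ), (c : ℝ) < 6 * ∑ j ∈ A, x j →
      c + 1 ≤ ∑ j ∈ A, (e j).2 := by
    intro A c h
    have h1 := (H A).2
    have : (c : ℝ) < ((∑ j ∈ A, (e j).2 : ℕ) : ℝ) := by linarith
    have := Nat.cast_lt.1 this
    omega
  have hK : Kc x y = (s1 c1 (List.ofFn e).reverse : ℕ) := by
    rw [BD1_s1, Kc]
    push_cast
    refine sum_congr rfl fun i _ => ?_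
    have a1 := sm1 {i}
    have a2 := sm2 {i}
    have a3 := hw i
    simp only [sum_singleton] at a1 a2
    unfold c1
    by_cases h : x i < 12 - y
    · have : ¬ 72 ≤ (e i).1 := by have := a1 (by linarith); omega
      rw [if_pos h, Bool.eq_false_iff.2 (fun h' => this (Nat.le_of_ble_eq_true h'))]
      simp
    · have : 72 ≤ (e i).1 := by
        by_contra h'
        exact h (a2 (by omega))
      rw [if_neg h, Nat.ble_eq_true_of_le this]
      simp
  have pr1 : ∀ i j : Fin n, i < j → x i + x j < 12 + 100 * y → (e i).1 + (e j).1 ≤ 71 := by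
    intro i j hij h
    have a1 := sm1 {i, j}
    rw [sum_pair hij.ne, sum_pair hij.ne] at a1
    exact a1 h
  have pr2 : ∀ i j : Fin n, i < j → (e i).1 + (e j).1 ≤ 71 → x i + x j < 12 - y := by
    intro i j hij h
    have a1 := sm2 {i, j}
    rw [sum_pair hij.ne, sum_pair hij.ne] at a1
    have a2 := hw i
    have a3 := hw j
    exact a1 (by omega)
  have hJ : Jc x y = (s2 cj (List.ofFn e).reverse : ℕ) := by
    rw [BD1_s2, Jc]
    push_cast
    refine sum_congr rfl fun i _ => sum_congr rfl fun j _ => ?_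
    by_cases hij : i < j
    · unfold cj
      by_cases h : x i + x j < 12 - y
      · have : ¬ 72 ≤ (e i).1 + (e j).1 := by have := pr1 i j hij (by linarith); omega
        rw [if_pos ⟨hij, h⟩, if_pos hij, Bool.eq_false_iff.2 (fun h' => this (Nat.le_of_ble_eq_true h'))]
        simp
      · have : 72 ≤ (e i).1 + (e j).1 := by
          by_contra h'
          exact h (pr2 i j hij (by omega))
        rw [if_neg (fun h' => h h'.2), if_pos hij, Nat.ble_eq_true_of_le this]
        simp
    · rw [if_neg (fun h' => hij h'.1), if_neg hij]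
  have t0 : tl y 0 = 12 + 100 * y := rfl
  have t1 : tl y 1 = 18 - 200 * y := rfl
  have t4 : tl y 4 = 21 + 301 * y := rfl
  have t5 : tl y 5 = 27 - 300 * y := rfl
  have t6 : tl y 6 = 30 + 201 * y := rfl
  have h2 : N2t (chl y x) ≤ (s2 c2 (List.ofFn e).reverse : ℕ) := by
    rw [BD1_s2, N2t]
    push_cast
    refine sum_le_sum fun i _ => sum_le_sum fun j _ => ?_
    split_ifs with h h'
    · obtain ⟨hij, b1, b2⟩ := h
      simp only [chl, decide_eq_true_eq, t0, t1, not_lt] at b1 b2
      have c1 := sm1 {j} b1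
      have c2' := dn {i, j} 107 (by push_cast; linarith)
      rw [sum_singleton] at c1
      rw [sum_pair hij.ne] at c2'
      unfold c2
      rw [Nat.ble_eq_true_of_le c1, Nat.ble_eq_true_of_le c2']
      simp
    · exact absurd h.1 h'
    · positivity
    · exact le_rfl
  have h3 : N3t (chl y x) ≤ (s3 c3 (List.ofFn e).reverse : ℕ) := by
    rw [BD1_s3, N3t]
    push_cast
    refine sum_le_sum fun i _ => sum_le_sum fun j _ => sum_le_sum fun l _ => ?_
    by_cases h : i < j ∧ j < l ∧ chl y x {l} 0 ∧ chl y x {i, j} 1 ∧ ¬ chl y x {i, l} 0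
    · rw [if_pos h, if_pos (show i < j ∧ j < l from ⟨h.1, h.2.1⟩)]
      obtain ⟨hij, hjl, b1, b2, b3⟩ := h
      have hil := hij.trans hjl
      simp only [chl, decide_eq_true_eq, t0, t1, not_lt] at b1 b2 b3 ⊢
      have c1 := sm1 {l} b1
      have c2' := up {i, j} 107 (by push_cast; linarith)
      rw [sum_singleton] at c1
      rw [sum_pair hij.ne] at c2' ⊢
      rw [sum_pair hil.ne] at b3
      have c3' : 72 ≤ (e i).1 + (e l).1 := by
        by_contra h'
        have := pr2 i l hil (by omega)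
        linarith
      unfold c3
      rw [Nat.ble_eq_true_of_le c1, Nat.ble_eq_true_of_le c2', Nat.ble_eq_true_of_le c3']
      by_cases h : x i + x j < 12 + 100 * y
      · have : ¬ 72 ≤ (e i).1 + (e j).1 := by have := pr1 i j hij h; omega
        rw [if_pos h, Bool.eq_false_iff.2 (fun h' => this (Nat.le_of_ble_eq_true h'))]
        simp
      · have : 72 ≤ (e i).1 + (e j).1 := by
          by_contra h'
          have := pr2 i j hij (by omega)
          exact h (by linarith)
        rw [if_neg h, Nat.ble_eq_true_of_le this]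
        simp
    · rw [if_neg h]
      split_ifs
      · positivity
      · exact le_rfl
  have h4 : N4t (chl y x) ≤ (s4 (List.ofFn e).reverse [] : ℕ) := by
    rw [BD1_s4, N4t]
    push_cast
    refine sum_le_sum fun i _ => sum_le_sum fun A _ => ?_
    split_ifs with h h' h'
    · obtain ⟨hi, b1, b2, b3, b4, b5⟩ := h
      exact absurd h' hi
    · obtain ⟨hi, b1, b2, b3, b4, b5⟩ := h
      simp only [chl, decide_eq_true_eq, t0, t1, t4, t5, t6, not_lt] at b1 b2 b3 b4 b5
      have c1 := sm1 {i} b1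
      have c2' := dn A 107 (by push_cast; linarith)
      have c3' := up A 126 (by push_cast; linarith)
      have c4' := dn (insert i A) 161 (by push_cast; linarith)
      have c5 := up (insert i A) 180 (by push_cast; linarith)
      rw [sum_singleton] at c1
      rw [sum_insert hi, add_comm (e i).2] at c4'
      rw [sum_insert hi, add_comm (e i).1] at c5
      have c0 : ¬ 72 ≤ (e i).1 := by omega
      unfold c4
      rw [Bool.eq_false_iff.2 (fun h' => c0 (Nat.le_of_ble_eq_true h')), Nat.ble_eq_true_of_le c2',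
        Nat.ble_eq_true_of_le c3', Nat.ble_eq_true_of_le c4', Nat.ble_eq_true_of_le c5]
      simp
    · exact le_rfl
    · positivity
  obtain ⟨hP, -⟩ := hSG0 n x y hC
  have hlen : (List.ofFn e).reverse.length - 1 + 1 = n := by
    rw [List.length_reverse, List.length_ofFn]; omega
  have hpw : (2 : ℝ) ^ n / 2 = ((2 ^ ((List.ofFn e).reverse.length - 1) : ℕ) : ℝ) := by
    push_cast
    conv_lhs => rw [← hlen, pow_succ]
    ring
  rw [hP, F0, hK, hJ, hpw]
  unfold lf
  rw [frc_eq, frc_eq, frc_eq]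
  generalize s1 c1 (List.ofFn e).reverse = K
  generalize s2 cj (List.ofFn e).reverse = J
  generalize 2 ^ ((List.ofFn e).reverse.length - 1) = P
  generalize s2 c2 (List.ofFn e).reverse = a2 at h2 ⊢
  generalize s3 c3 (List.ofFn e).reverse = a3 at h3 ⊢
  generalize s4 (List.ofFn e).reverse [] = a4 at h4 ⊢
  have hs : ∀ u v : ℕ, (u : ℝ) - v ≤ ((u - v : ℕ) : ℝ) := by
    intro u v
    rcases le_total v u with h | h
    · rw [Nat.cast_sub h]
    · have : (u : ℝ) ≤ v := Nat.cast_le.2 h
      have : (0 : ℝ) ≤ ((u - v : ℕ) : ℝ) := Nat.cast_nonneg _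
      linarith
  have := hs (15 * ((1 + J) * P + K * (2 + K + J)) + (30 * a2 + 30 * a3 + 8 * a4))
    (15 * (K * P + (1 + J) * (2 + K + J)))
  rw [le_div_iff₀ (by norm_num : (0 : ℝ) < 15)]
  refine le_trans ?_ this
  push_cast
  nlinarith

end Pool.Agent.P.MP_8be758_nt.Sq
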