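import Pool.Agent.P.MP_8be758_nt.Sq.IfaceB

/-! Step BR. -/

set_option autoImplicit false
set_option linter.unusedSectionVars false

namespace Pool.Agent.P.MP_8be758_nt.Sq

open Finset Real Filter Topology ArithmeticFunction
open Pool.Agent.P.MP_e86632_nt (ee nn)
open Pool.Agent.P.MP_8be758_nt.Avg (gs Rough)

theorem br_chi (Q Y : ℝ) {s : ℕ} (p : Fin s → ℕ) (A : Finset (Fin s)) (t : Fin 11) :
    chi Q Y p A t = true ↔ (PP p A : ℝ) < th Q Y t := by
  unfold chi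
  exact decide_eq_true_iff

theorem br_nz (hBR0 : S_BR0) (Q Y : ℝ) (s : ℕ) (p : Fin s → ℕ) (hp : Tup p) :
    NZ Q Y (∏ i, p i) = NZt (chi Q Y p) := by
  have h1 := (hBR0 s p hp univ).1 (fun d => if Zn Q Y d then 1 else 0)
  have e : (∏ i, p i) = PP p univ := rfl
  rw [e]
  unfold NZ NZt
  rw [h1, powerset_univ]
  refine sum_congr rfl fun A _ => ?_
  have h7 := (hBR0 s p hp A).2.2.2.2.2.2.1
  have hiff : Zn Q Y (PP p A) ↔ (A ≠ ∅ ∧ (chi Q Y p A 7 = true ∨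
      (¬ chi Q Y p A 8 = true ∧ chi Q Y p A 0 = true) ∨
      (¬ chi Q Y p A 9 = true ∧ chi Q Y p A 10 = true))) := by
    rw [br_chi, br_chi, br_chi, br_chi, br_chi]
    unfold Zn
    rw [h7, not_lt, not_lt]
    exact Iff.rfl
  by_cases hz : Zn Q Y (PP p A)
  · rw [if_pos hz, if_pos (hiff.1 hz)]
  · rw [if_neg hz, if_neg (fun h => hz (hiff.2 h))]

theorem p_BR (hBR0 : S_BR0) (hBR1 : S_BR1) (hBR2 : S_BR2) :
    S_BR := by
  intro Q Y s p hp
  have hz := br_nz hBR0 Q Y s p hp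
  obtain ⟨h1, h2⟩ := hBR1 Q Y s p hp
  obtain ⟨h3, h4, h5⟩ := hBR2 Q Y s p hp
  refine ⟨?_, hz, ?_⟩
  · unfold gg Phi
    rw [h1, h2, h3, h4, h5, hz]
  · have e : (∏ i, p i) = PP p univ := rfl
    rw [e]
    unfold Good
    constructor
    · rintro ⟨d, hd, ha, hb⟩
      obtain ⟨B, -, rfl⟩ := (hBR0 s p hp univ).2.2.2.2.2.2.2 d hd
      refine ⟨B, ?_, ?_⟩
      · rw [← Bool.not_eq_true, br_chi, not_lt]
        exact ha
      · rw [br_chi]
        exact hb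
    · rintro ⟨A, ha, hb⟩
      rw [← Bool.not_eq_true, br_chi, not_lt] at ha
      rw [br_chi] at hb
      refine ⟨PP p A, ?_, ha, hb⟩
      rw [Nat.mem_divisors]
      refine ⟨prod_dvd_prod_of_subset _ _ _ (subset_univ A), ?_⟩
      exact prod_ne_zero_iff.2 fun i _ => (hp.2 i).ne_zero

end Pool.Agent.P.MP_8be758_nt.Sq
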