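import Pool.Agent.P.MP_8be758_nt.Sq.IfaceB

/-! Step BR0. -/

set_option autoImplicit false
set_option linter.unusedSectionVars false

namespace Pool.Agent.P.MP_8be758_nt.Sq

open Finset Real Filter Topology ArithmeticFunction
open Pool.Agent.P.MP_e86632_nt (ee nn)
open Pool.Agent.P.MP_8be758_nt.Avg (gs Rough)

theorem p_BR0 :
    S_BR0 := by
  intro s p hp A
  have hinj : Function.Injective p := hp.1.injective
  have him : ∀ B : Finset (Fin s), PP p B = ∏ q ∈ B.image p, q := fun B =>
    (prod_image (f := fun q => q) fun _ _ _ _ h => hinj h).symm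
  have hPF : ∀ B : Finset (Fin s), (PP p B).primeFactors = B.image p := fun B => by
    rw [him]
    refine Nat.primeFactors_prod fun q hq => ?_
    obtain ⟨i, -, rfl⟩ := mem_image.1 hq
    exact hp.2 i
  have hco : ∀ i j, i ≠ j → (p i).Coprime (p j) := fun i j h =>
    (Nat.coprime_primes (hp.2 i) (hp.2 j)).2 fun e => h (hinj e)
  have hsq : ∀ B : Finset (Fin s), Squarefree (PP p B) := fun B =>
    Finset.squarefree_prod_of_pairwise_isCoprime
      (fun i _ j _ h => Nat.coprime_iff_isRelPrime.1 (hco i j h)) fun i _ => (hp.2 i).squarefree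
  have hdiv : ∀ d ∈ (PP p A).divisors, ∃ B ⊆ A, d = PP p B := fun d hd => by
    have h1 := Nat.dvd_of_mem_divisors hd
    have h2 : d.primeFactors ⊆ A.image p := by
      rw [← hPF]; exact Nat.primeFactors_mono h1 (hsq A).ne_zero
    obtain ⟨B, hB, e⟩ := subset_image_iff.1 h2
    refine ⟨B, hB, ?_⟩
    rw [him, e, Nat.prod_primeFactors_of_squarefree ((hsq A).squarefree_of_dvd h1)]
  refine ⟨fun F => ?_, ?_, hsq A, fun F => ?_, hPF A, fun B hB => ?_, ?_, hdiv⟩
  · have e : (PP p A).divisors = A.powerset.image (PP p) := by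
      ext d
      simp only [mem_image, mem_powerset]
      refine ⟨fun h => ?_, ?_⟩
      · obtain ⟨B, hB, e⟩ := hdiv d h
        exact ⟨B, hB, e.symm⟩
      · rintro ⟨B, hB, rfl⟩
        exact Nat.mem_divisors.2 ⟨prod_dvd_prod_of_subset _ _ _ hB, (hsq A).ne_zero⟩
    rw [e, sum_image]
    intro B _ C _ h
    exact image_injective hinj (by rw [← hPF, ← hPF, h])
  · clear hdiv
    induction A using Finset.induction_on with
    | empty => simp [PP, mu]
    | insert i A hi ih =>
      have e : PP p (insert i A) = p i * PP p A := prod_insert hi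
      have c : (p i).Coprime (PP p A) :=
        Nat.Coprime.prod_right fun j hj => hco i j fun h => hi (h ▸ hj)
      rw [e, mu_mul c, ih,
        mu_prime (hp.2 i), card_insert_of_notMem hi, pow_succ]
      ring
  · rw [hPF, sum_image fun _ _ _ _ h => hinj h]
  · have e : PP p (A \ B) * PP p B = PP p A := prod_sdiff hB
    rw [← e, Nat.mul_div_cancel _ (Nat.pos_of_ne_zero (hsq B).ne_zero)]
  · rw [← Nat.nonempty_primeFactors, hPF, image_nonempty, nonempty_iff_ne_empty]

end Pool.Agent.P.MP_8be758_nt.Sq
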