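import Pool.Agent.P.MP_8be758_nt.Sq.IfaceB

/-! Step BR1. -/

set_option autoImplicit false
set_option linter.unusedSectionVars false

namespace Pool.Agent.P.MP_8be758_nt.Sq

open Finset Real Filter Topology ArithmeticFunction
open Pool.Agent.P.MP_e86632_nt (ee nn)
open Pool.Agent.P.MP_8be758_nt.Avg (gs Rough)

theorem br1_split {s : ℕ} (A : Finset (Fin s)) (F : Finset (Fin s) → ℝ) :
    ∑ B ∈ A.powerset, ∑ C ∈ (univ \ A).powerset, F (B ∪ C) = ∑ D : Finset (Fin s), F D := by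
  rw [← Finset.sum_product']
  refine Finset.sum_nbij' (fun x => x.1 ∪ x.2) (fun D => (D ∩ A, D \ A)) ?_ ?_ ?_ ?_ ?_
  · intro x _
    exact mem_univ _
  · intro D _
    simp only [mem_product, mem_powerset]
    exact ⟨inter_subset_right, sdiff_subset_sdiff (subset_univ _) (Subset.refl _)⟩
  · intro x hx
    simp only [mem_product, mem_powerset] at hx
    obtain ⟨h1, h2⟩ := hx
    have h3 : ∀ i ∈ x.2, i ∉ A := fun i hi => (Finset.mem_sdiff.1 (h2 hi)).2
    refine Prod.ext ?_ ?_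
    · ext i
      simp only [mem_inter, mem_union]
      exact ⟨fun h => h.1.elim id fun h' => absurd h.2 (h3 i h'), fun h => ⟨Or.inl h, h1 h⟩⟩
    · ext i
      simp only [Finset.mem_sdiff, mem_union]
      exact ⟨fun h => h.1.elim (fun h' => absurd (h1 h') h.2) id, fun h => ⟨Or.inr h, h3 i h⟩⟩
  · intro D _
    ext i
    simp only [mem_union, mem_inter, Finset.mem_sdiff]
    tauto
  · intro x _
    rfl

theorem p_BR1 (hBR0 : S_BR0) :
    S_BR1 := by
  intro Q Y s p hp
  have hk : ∏ i, p i = PP p univ := rfl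
  have h0 := hBR0 s p hp
  have c0 : ∀ A, chi Q Y p A 0 = true ↔ (PP p A : ℝ) < pA Q Y := fun A =>
    decide_eq_true_iff
  have c2 : ∀ A, chi Q Y p A 2 = true ↔ (PP p A : ℝ) < Q ^ 14 := fun A =>
    decide_eq_true_iff
  have c3 : ∀ A, chi Q Y p A 3 = true ↔ (PP p A : ℝ) < Q ^ 34 := fun A =>
    decide_eq_true_iff
  constructor
  · rw [hk, M1, (h0 univ).1, powerset_univ, M1t]
    refine sum_congr rfl fun A _ => ?_
    rw [(h0 A).2.1]
    exact if_congr (c0 A).symm rfl rfl
  · rw [hk, MT, Nat.sum_divisorsAntidiagonal (fun a b : ℕ =>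
      if Q ^ 14 ≤ (a : ℝ) ∧ (a : ℝ) < Q ^ 34 then ∑ e ∈ a.divisors, ∑ f ∈ b.divisors,
        (if ((e * f : ℕ) : ℝ) < pA Q Y then mu e * mu f else 0) else 0), (h0 univ).1,
      powerset_univ, TCt, sum_mul]
    refine sum_congr rfl fun A _ => ?_
    have hin : ∑ e ∈ (PP p A).divisors, ∑ f ∈ (PP p univ / PP p A).divisors,
        (if ((e * f : ℕ) : ℝ) < pA Q Y then mu e * mu f else 0) = M1t (chi Q Y p) := by
      rw [(h0 univ).2.2.2.2.2.1 A (subset_univ _), (h0 A).1, M1t, ← br1_split A]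
      refine sum_congr rfl fun B hB => ?_
      rw [(h0 _).1]
      refine sum_congr rfl fun C hC => ?_
      have hd : Disjoint B C := by
        rw [disjoint_left]
        intro i hi hi'
        exact (Finset.mem_sdiff.1 (mem_powerset.1 hC hi')).2 (mem_powerset.1 hB hi)
      have hm : PP p B * PP p C = PP p (B ∪ C) := (prod_union hd).symm
      rw [hm, (h0 B).2.1, (h0 C).2.1, ← pow_add, ← card_union_of_disjoint hd]
      exact if_congr (c0 _).symm rfl rfl
    rw [hin]
    by_cases h : Q ^ 14 ≤ (PP p A : ℝ) ∧ (PP p A : ℝ) < Q ^ 34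
    · rw [if_pos h, if_pos ⟨by rw [c2]; exact not_lt.2 h.1, (c3 A).2 h.2⟩, one_mul]
    · rw [if_neg h, if_neg, zero_mul]
      intro h'
      exact h ⟨not_lt.1 fun h'' => h'.1 ((c2 A).2 h''), (c3 A).1 h'.2⟩

end Pool.Agent.P.MP_8be758_nt.Sq
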