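import Pool.Agent.P.MP_8be758_nt.Sq.IfaceB

/-! Step BR2. -/

set_option autoImplicit false
set_option linter.unusedSectionVars false

namespace Pool.Agent.P.MP_8be758_nt.Sq

open Finset Real Filter Topology ArithmeticFunction
open Pool.Agent.P.MP_e86632_nt (ee nn)
open Pool.Agent.P.MP_8be758_nt.Avg (gs Rough)

theorem br2_sum {s : ℕ} (i : Fin s) (F : Finset (Fin s) → ℝ) :
    ∑ B ∈ (univ \ {i}).powerset, F B = ∑ A : Finset (Fin s), if i ∉ A then F A else 0 := by
  rw [← sum_filter]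
  refine sum_congr ?_ fun _ _ => rfl
  ext A
  simp only [mem_powerset, mem_filter, mem_univ, true_and]
  constructor
  · intro h hi
    exact (Finset.mem_sdiff.1 (h hi)).2 (mem_singleton_self i)
  · intro h j hj
    refine Finset.mem_sdiff.2 ⟨mem_univ _, fun h' => h ?_⟩
    rwa [← mem_singleton.1 h']

theorem p_BR2 (hBR0 : S_BR0) :
    S_BR2 := by
  intro Q Y s p hp
  have hk : ∏ i, p i = PP p univ := rfl
  have h0 := hBR0 s p hp
  have hpf := (h0 univ).2.2.2.1
  have c0 : ∀ A, chi Q Y p A 0 = true ↔ (PP p A : ℝ) < pA Q Y := fun A =>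
    decide_eq_true_iff
  have c1 : ∀ A, chi Q Y p A 1 = true ↔ (PP p A : ℝ) < pW Q Y := fun A =>
    decide_eq_true_iff
  have c4 : ∀ A, chi Q Y p A 4 = true ↔ (PP p A : ℝ) < Q ^ 21 * Y ^ 301 := fun A =>
    decide_eq_true_iff
  have c5 : ∀ A, chi Q Y p A 5 = true ↔ (PP p A : ℝ) < Q ^ 27 / Y ^ 300 := fun A =>
    decide_eq_true_iff
  have c6 : ∀ A, chi Q Y p A 6 = true ↔ (PP p A : ℝ) < Q ^ 30 * Y ^ 201 := fun A =>
    decide_eq_true_iff
  have e1 : ∀ i, PP p {i} = p i := fun i => by simp [PP]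
  have e2 : ∀ i j, i ≠ j → PP p {i, j} = p i * p j := fun i j h => by
    rw [PP, prod_pair h]
  have lt : ∀ i j, p i < p j ↔ i < j := fun i j => hp.1.lt_iff_lt
  refine ⟨?_, ?_, ?_⟩
  · rw [hk, N2, hpf, N2t]
    refine sum_congr rfl fun i _ => ?_
    rw [hpf]
    refine sum_congr rfl fun j _ => ?_
    refine if_congr ?_ rfl rfl
    rw [lt, c0, c1, e1]
    refine and_congr_right fun h => ?_
    rw [e2 i j h.ne, not_lt]
  · rw [hk, N3, hpf, N3t]
    refine sum_congr rfl fun i _ => ?_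
    rw [hpf]
    refine sum_congr rfl fun j _ => ?_
    rw [hpf]
    refine sum_congr rfl fun l _ => ?_
    by_cases h : i < j ∧ j < l
    · have hil : i ≠ l := (h.1.trans h.2).ne
      refine if_congr ?_ (if_congr ?_ rfl rfl) rfl
      · rw [lt, lt, c0, c1, c0, e1, e2 i j h.1.ne, e2 i l hil, not_lt]
      · rw [c0, e2 i j h.1.ne]
    · rw [if_neg, if_neg]
      · exact fun h' => h ⟨h'.1, h'.2.1⟩
      · exact fun h' => h ⟨(lt _ _).1 h'.1, (lt _ _).1 h'.2.1⟩
  · rw [hk, N4, hpf, N4t]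
    refine sum_congr rfl fun i _ => ?_
    have hq : PP p univ / p i = PP p (univ \ {i}) := by
      rw [← (h0 univ).2.2.2.2.2.1 {i} (subset_univ _), e1]
    rw [hq, (h0 _).1, br2_sum]
    refine sum_congr rfl fun A _ => ?_
    by_cases h : i ∉ A
    · have e3 : PP p (insert i A) = p i * PP p A := by rw [PP, prod_insert h]; rfl
      rw [if_pos h]
      refine if_congr ?_ rfl rfl
      rw [c0, c1, c4, c5, c6, e1, e3, not_lt, not_lt]
      exact ⟨fun h' => ⟨h, h'⟩, fun h' => h'.2⟩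
    · rw [if_neg h, if_neg]
      exact fun h' => h h'.1

end Pool.Agent.P.MP_8be758_nt.Sq
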