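import Pool.Agent.P.MP_8be758_nt.Sq.IfaceK

/-! Step BX. -/

set_option autoImplicit false
set_option linter.unusedSectionVars false

namespace Pool.Agent.P.MP_8be758_nt.Sq

open Finset Real Filter Topology ArithmeticFunction
open Pool.Agent.P.MP_e86632_nt (ee nn)
open Pool.Agent.P.MP_8be758_nt.Avg (gs Rough)

theorem bx_lp (f : ℕ → ℕ) (c : ℕ) : ∀ a r, lp f c a r = r + ∑ k ∈ Ico a (a + c), f k := by
  induction c with
  | zero => exact fun _ _ => by simp [lp]
  | succ c ih =>
    intro a r
    change frc (a + 1) (fun a' => frc (r + f a) fun r' => lp f c a' r') = _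
    rw [frc_eq, frc_eq, ih, sum_eq_sum_Ico_succ_bot (by omega : a < a + (c + 1)), add_assoc,
      show a + 1 + c = a + (c + 1) by omega]

theorem bx_nonneg (s : ℕ) : ∀ E b σ lo (i : Fin s → ℕ), 0 ≤ Lf s E b σ lo i := by
  induction s with
  | zero => intro E b σ lo i; unfold Lf; split_ifs <;> positivity
  | succ s ih => intro E b σ lo i; unfold Lf; split_ifs; exacts [ih _ _ _ _ _, le_rfl]

theorem bx_lt (s : ℕ) : ∀ E b σ lo (i : Fin s → ℕ), Lf s E b σ lo i ≠ 0 →
    σ + ∑ j, (i j + 1) < 288 := by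
  induction s with
  | zero => intro E b σ lo i h; unfold Lf at h; split_ifs at h with c; exacts [by simpa, absurd rfl h]
  | succ s ih =>
    intro E b σ lo i h
    unfold Lf at h
    split_ifs at h
    · rw [Fin.sum_univ_succ, ← add_assoc]; exact ih _ _ _ _ _ h
    · exact absurd rfl h

theorem bx_cons {s : ℕ} (P : Finset ℕ) (f : ℕ → (Fin s → ℕ) → ℝ) :
    ∑ p ∈ Fintype.piFinset (fun _ : Fin (s + 1) => P), f (p 0) (fun j => p j.succ) =
      ∑ a ∈ P, ∑ q ∈ Fintype.piFinset (fun _ : Fin s => P), f a q := by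
  rw [← sum_product']
  refine sum_bij' (fun p _ => (p 0, fun j => p j.succ)) (fun x _ => Fin.cons x.1 x.2)
    (fun p hp => ?_) (fun x hx => ?_) (fun p _ => Fin.cons_self_tail p) (fun x _ => rfl)
    fun _ _ => rfl
  · have := Fintype.mem_piFinset.1 hp
    exact mem_product.2 ⟨this _, Fintype.mem_piFinset.2 fun j => this _⟩
  · obtain ⟨h1, h2⟩ := mem_product.1 hx
    exact Fintype.mem_piFinset.2 fun j => Fin.cases h1 (Fintype.mem_piFinset.1 h2) j

theorem bx_div (a : ℕ) {b : ℕ} (hb : 0 < b) : (a : ℝ) / b ≤ (a / b + 1 : ℕ) := by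
  rw [div_le_iff₀ (by exact_mod_cast hb)]
  exact_mod_cast (by rw [mul_comm]; exact (Nat.lt_mul_div_succ a hb).le : a ≤ (a / b + 1) * b)

theorem bx_tot (n : ℕ) : ∀ E b σ lo,
    ∑ s ∈ range n, ∑ i ∈ Fintype.piFinset (fun _ : Fin s => Icc 1 288),
      Lf s E b σ lo i * (∏ j, 1 / (i j : ℝ)) * (288 / (288 - (σ + ∑ j, ((i j : ℝ) + 1)))) ≤
        VV n E b σ lo / 1000000 := by
  induction n with
  | zero => intro E b σ lo; simp only [range_zero, sum_empty]; positivity
  | succ n ih =>
    intro E b σ lo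
    have e : VV (n + 1) E b σ lo = lp (fun a => bif aS okp E a (a + 1) then
        (frc (b + a) fun b' => frc (σ + (a + 1)) fun σ' =>
          VV n ((a, a + 1) :: E) b' σ' a / a + 1) else 0) (((288 - b) / 2 + 1) - lo) lo
      (frc (288 - σ) fun u => frc (288 - b) fun v => lf ((u, v) :: E) * 19200000 / u + 1) := rfl
    simp only [frc_eq] at e
    rw [e, bx_lp, sum_range_succ', Nat.cast_add, add_div, add_comm]
    refine add_le_add ?_ ?_
    · simp only [Fintype.piFinset_of_isEmpty, univ_unique, sum_singleton, Lf, univ_eq_empty,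
        prod_empty, sum_empty, mul_one, add_zero]
      split_ifs with c
      · have := bx_div (lf ((288 - σ, 288 - b) :: E) * 19200000) (Nat.sub_pos_of_lt c)
        rw [Nat.cast_sub c.le] at this
        refine le_trans (le_of_eq ?_) (div_le_div_of_nonneg_right this (by norm_num))
        push_cast
        ring
      · rw [zero_mul]; positivity
    · have e2 : ∀ s, ∑ i ∈ Fintype.piFinset (fun _ : Fin (s + 1) => Icc 1 288),
          Lf (s + 1) E b σ lo i * (∏ j, 1 / (i j : ℝ)) *
            (288 / (288 - (σ + ∑ j, ((i j : ℝ) + 1)))) =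
          ∑ a ∈ Icc 1 288, (if lo ≤ a ∧ b + 2 * a ≤ 288 ∧ aS okp E a (a + 1) = true then
            1 / (a : ℝ) else 0) * ∑ i ∈ Fintype.piFinset (fun _ : Fin s => Icc 1 288),
            Lf s ((a, a + 1) :: E) (b + a) (σ + (a + 1)) a i * (∏ j, 1 / (i j : ℝ)) *
              (288 / (288 - ((σ + (a + 1) : ℕ) + ∑ j, ((i j : ℝ) + 1)))) := fun s => by
        simp only [mul_sum]
        rw [← bx_cons]
        refine sum_congr rfl fun i _ => ?_
        rw [Lf, Fin.prod_univ_succ, Fin.sum_univ_succ]
        push_cast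
        split_ifs
        · simp only [add_assoc]; ring
        · simp
      simp only [e2]
      rw [sum_comm, Nat.cast_sum, sum_div]
      refine (sum_le_sum (g := fun a => if a ∈ Ico lo (lo + ((288 - b) / 2 + 1 - lo)) then
        ((bif aS okp E a (a + 1) then VV n ((a, a + 1) :: E) (b + a) (σ + (a + 1)) a / a + 1
          else 0 : ℕ) : ℝ) / 1000000 else 0) fun a ha => ?_).trans ?_
      · rw [← mul_sum]
        have a1 := (mem_Icc.1 ha).1
        split_ifs with c d d
        · rw [c.2.2, cond_true]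
          refine (mul_le_mul_of_nonneg_left (ih _ _ _ _) (by positivity)).trans ?_
          refine le_trans (le_of_eq ?_) (div_le_div_of_nonneg_right (bx_div _ a1) (by norm_num))
          ring
        · exact absurd (mem_Ico.2 ⟨c.1, by omega⟩) d
        · rw [zero_mul]; positivity
        · rw [zero_mul]
      · rw [sum_ite_mem]
        exact sum_le_sum_of_subset_of_nonneg inter_subset_right fun _ _ _ => by positivity

theorem p_BX (hKER : S_KER) (hBD2 : S_BD2) :
    S_BX := by
  refine ⟨288, fun s i => Lf s [] 0 0 24 i, by norm_num, fun s i => bx_nonneg s _ _ _ _ i,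
    fun s i h => by simpa using bx_lt s _ _ _ _ i h, hBD2, ?_⟩
  have h1 := bx_tot 12 [] 0 0 24
  have h2 : (VV 12 [] 0 0 24 : ℝ) ≤ 870000 := by exact_mod_cast hKER
  simp only [Nat.cast_zero, zero_add] at h1
  push_cast
  linarith

end Pool.Agent.P.MP_8be758_nt.Sq
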