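import Pool.Agent.P.MP_8be758_nt.Sq.IfaceB

/-! Step CRS. -/

set_option autoImplicit false
set_option linter.unusedSectionVars false

namespace Pool.Agent.P.MP_8be758_nt.Sq

open Finset Real Filter Topology ArithmeticFunction
open Pool.Agent.P.MP_e86632_nt (ee nn)
open Pool.Agent.P.MP_8be758_nt.Avg (gs Rough)

theorem crs_fib {ι β : Type} [DecidableEq β] (S : Finset ι) (r : ι → ℕ) (U : Finset (ι × β))
    (f : ℝ) (hU : ∀ u ∈ U, u.1 ∈ S ∧ ((S.filter fun a => r a = r u.1).card : ℝ) ≤ f) :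
    (U.card : ℝ) ≤ (U.image fun u => (r u.1, u.2)).card * f := by
  rw [card_eq_sum_card_image (fun u : ι × β => (r u.1, u.2)) U, Nat.cast_sum, ← nsmul_eq_mul]
  refine sum_le_card_nsmul _ _ _ fun b hb => ?_
  obtain ⟨u, hu, rfl⟩ := mem_image.1 hb
  refine le_trans (Nat.cast_le.2 ?_) (hU u hu).2
  refine card_le_card_of_injOn Prod.fst (fun v hv => ?_) fun v hv v' hv' e => ?_
  · obtain ⟨h1, h2⟩ := mem_filter.1 hv
    exact mem_filter.2 ⟨(hU v h1).1, (Prod.ext_iff.1 h2).1⟩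
  · have h1 := (Prod.ext_iff.1 (mem_filter.1 hv).2).2
    have h2 := (Prod.ext_iff.1 (mem_filter.1 hv').2).2
    exact Prod.ext e (h1.trans h2.symm)

theorem crs_rng {Q Y τ : ℝ} (h : St Q Y τ) {r e p : ℕ} (hc : Crs (pz Q Y) (pA Q Y) r e p) :
    pA Q Y ≤ (r * e * p : ℕ) ∧ ((r * e * p : ℕ) : ℝ) < pB Q Y := by
  obtain ⟨h1, h2, -, -, h5, h6⟩ := hc
  refine ⟨h6, ?_⟩
  rw [← h.pA_pz, Nat.cast_mul]
  exact mul_lt_mul h5 h2 (Nat.cast_pos.2 h1.pos) h.pA_pos.le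

theorem crs_cut (hG2L : S_G2L) {Q Y τ : ℝ} (h : St Q Y τ) :
    G2 (Icc 1 (XN Q)) (Icc 1 (XN Q)) (fun p e => if gp e < p then 1 else 0)
      (500 * Real.log Q) := by
  have h1 := (hG2L ℕ ℕ (Icc 1 (XN Q)) (Icc 1 (XN Q)) (fun p => -(p : ℝ))
    (fun e => -(gp e : ℝ))).congr (κ' := fun p e => if gp e < p then 1 else 0)
    fun a _ b _ => by simp
  refine h1.mono ((h.log2 (k := 49) ?_).trans ?_)
  · have := h.XN_le
    have h2 := pow_pos h.qpos 48
    simp only [Nat.card_Icc, Nat.add_sub_cancel, Nat.cast_add]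
    rw [pow_succ]
    nlinarith [h.q0]
  · have := h.log1
    push_cast
    linarith

theorem p_CRS (hG2L : S_G2L) :
    S_CRS := by
  intro Q Y τ E w h ha ι1 ι2 S1 S2 r m κ B f hB hf hr hm f1 f2 _ _ hκ
  classical
  have t1 := h.t1
  have hl := h.log1
  set X := Icc 1 (XN Q) with hX
  set U := (S1 ×ˢ (X ×ˢ X)).filter fun u => Crs (pz Q Y) (pA Q Y) (r u.1) u.2.1 u.2.2 with hU
  have hsub : ∀ u ∈ U, u ∈ S1 ×ˢ (X ×ˢ X) := fun u hu => (mem_filter.1 hu).1
  have k1 : G2 U (S2 ×ˢ X) κ B := hκ.comp id id hsub fun _ hb => hb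
  have k2 : G2 U (S2 ×ˢ X) (fun u v => if gp v.2 < u.2.2 then 1 else 0) (500 * Real.log Q) :=
    (crs_cut hG2L h).comp (fun u : ι1 × ℕ × ℕ => u.2.2) (fun v : ι2 × ℕ => v.2)
      (fun u hu => (mem_product.1 (mem_product.1 (hsub u hu)).2).2)
      fun v hv => (mem_product.1 hv).2
  have k3 : G2 U (S2 ×ˢ X) (fun u v => mu u.2.1 * mu v.2) 1 :=
    G2.prod _ _ (fun _ _ => abs_mu_le _) fun _ _ => abs_mu_le _
  have key := ha.t3 _ _ U (S2 ×ˢ X) (fun u => r u.1 * u.2.1 * u.2.2) (fun v => m v.1 * v.2) _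
    (B * (500 * Real.log Q * 1)) (f * τ ^ 2) (by positivity) (by positivity)
    (fun u hu => crs_rng h (mem_filter.1 hu).2)
    (fun v hv => Nat.mul_pos (hm _ (mem_product.1 hv).1) (mem_Icc.1 (mem_product.1 hv).2).1)
    (fun n => ?_) (fun n hn => ?_) (k1.mul (k2.mul k3))
  · have e : ∑ a ∈ S1, ∑ x ∈ E1 (pz Q Y) (pA Q Y) (r a) (XN Q), ∑ b ∈ S2, ∑ e ∈ X,
        κ (a, x) (b, e) * ((if gp e < x.2 then mu x.1 * mu e else 0) *
          w (r a * x.1 * x.2 * (m b * e))) =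
        ∑ u ∈ U, ∑ v ∈ S2 ×ˢ X, κ u v * ((if gp v.2 < u.2.2 then 1 else 0) * (mu u.2.1 * mu v.2)) *
          w (r u.1 * u.2.1 * u.2.2 * (m v.1 * v.2)) := by
      rw [hU, sum_filter, sum_product]
      refine sum_congr rfl fun a _ => ?_
      rw [E1, sum_filter]
      refine sum_congr rfl fun x _ => if_congr Iff.rfl ?_ rfl
      rw [sum_product]
      refine sum_congr rfl fun b _ => sum_congr rfl fun e _ => ?_
      split_ifs <;> ring
    rw [e]
    exact key.trans_eq (by ring)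
  · rcases (U.filter fun u => r u.1 * u.2.1 * u.2.2 = n).eq_empty_or_nonempty with h0 | ⟨u, hu⟩
    · rw [h0, card_empty, Nat.cast_zero]; positivity
    obtain ⟨hu1, hu2⟩ := mem_filter.1 hu
    have hn := crs_rng h (mem_filter.1 hu1).2
    rw [hu2] at hn
    have n0 : n ≠ 0 := (Nat.cast_pos.1 (h.pA_pos.trans_le hn.1)).ne'
    have d1 := h.tau n (hn.2.le.trans (h.pB_le.trans (h.qpow (by norm_num))))
    refine (crs_fib S1 r _ f fun v hv =>
      ⟨(mem_product.1 (hsub v (mem_filter.1 hv).1)).1, f1 _⟩).trans ?_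
    rw [mul_comm]
    refine mul_le_mul_of_nonneg_left (le_trans (Nat.cast_le.2 (card_triples_le n0 _ fun x hx => ?_))
      ?_) (by linarith)
    · obtain ⟨v, hv, rfl⟩ := mem_image.1 hx
      exact (mem_filter.1 hv).2
    · rw [Nat.cast_pow]
      exact pow_le_pow_left₀ (Nat.cast_nonneg _) d1 2
  · rcases ((S2 ×ˢ X).filter fun v => ((m v.1 * v.2 : ℕ) : ℝ) = n).eq_empty_or_nonempty with
      h0 | ⟨u, hu⟩
    · rw [h0, card_empty, Nat.cast_zero]; positivity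
    obtain ⟨hu1, rfl⟩ := mem_filter.1 hu
    have n0 : m u.1 * u.2 ≠ 0 :=
      (Nat.mul_pos (hm _ (mem_product.1 hu1).1) (mem_Icc.1 (mem_product.1 hu1).2).1).ne'
    have d1 := h.tau _ (hn.trans (h.qpow (by norm_num)))
    refine (crs_fib S2 m _ f fun v hv => ?_).trans ?_
    · obtain ⟨hv1, hv2⟩ := mem_filter.1 hv
      refine ⟨(mem_product.1 hv1).1, f2 _ (le_trans (Nat.cast_le.2 ?_) hn)⟩
      exact Nat.le_of_dvd (Nat.pos_of_ne_zero n0) (Dvd.intro _ (Nat.cast_injective hv2))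
    rw [mul_comm]
    refine mul_le_mul_of_nonneg_left (le_trans (Nat.cast_le.2 (card_pairs_le n0 _ fun x hx => ?_))
      ?_) (by linarith)
    · obtain ⟨v, hv, rfl⟩ := mem_image.1 hx
      exact Nat.cast_injective (mem_filter.1 hv).2
    · nlinarith

end Pool.Agent.P.MP_8be758_nt.Sq
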