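import Pool.Agent.P.MP_8be758_nt.Sq.IfaceB

/-! Step EV. -/

set_option autoImplicit false
set_option linter.unusedSectionVars false

namespace Pool.Agent.P.MP_8be758_nt.Sq

open Finset Real Filter Topology ArithmeticFunction
open Pool.Agent.P.MP_e86632_nt (ee nn)
open Pool.Agent.P.MP_8be758_nt.Avg (gs Rough)

theorem ev_log (N e : ℕ) : ∀ᶠ Y : ℝ in atTop, Real.log (Y ^ N) ^ e ≤ Y := by
  have h := (isLittleO_pow_log_id_atTop (n := e)).const_mul_left ((N : ℝ) ^ e)
  filter_upwards [h.eventuallyLE, eventually_ge_atTop 0] with Y h1 h0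
  rw [Real.log_pow, mul_pow]
  refine (le_abs_self _).trans (h1.trans (le_of_eq ?_))
  exact Real.norm_of_nonneg h0

theorem ev_gs (M : ℕ) : ∀ᶠ Y : ℝ in atTop, Y ^ M * gs (Y / 20) ≤ 1 := by
  filter_upwards [(isLittleO_pow_exp_atTop (n := M)).eventuallyLE, eventually_ge_atTop 400]
    with Y h1 h0
  have h2 : Y ^ M ≤ Real.exp Y :=
    (le_abs_self _).trans (h1.trans (le_of_eq (Real.norm_of_nonneg (Real.exp_pos _).le)))
  refine (mul_le_mul_of_nonneg_right h2 (Real.exp_pos _).le).trans ?_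
  rw [← Real.exp_add, Real.exp_le_one_iff]
  nlinarith [Real.pi_gt_three, sq_nonneg (Y / 20)]

theorem p_EV :
    S_EV := by
  intro N e Y0 hN
  have hN0 : (0 : ℝ) < N := by exact_mod_cast (by omega : 0 < N)
  obtain ⟨C, hC, hd⟩ := Avg.t_DIV (1 / (60000 * N)) (by positivity)
  filter_upwards [eventually_ge_atTop Y0, eventually_ge_atTop 1000, ev_log N e, ev_log N 100,
    ev_gs (N * 2000), (tendsto_rpow_atTop (by norm_num : (0 : ℝ) < 1 / 200)).eventually_ge_atTop C]
    with Y h1 h2 h3 h4 h5 h6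
  have hY : 0 < Y := by linarith
  refine ⟨h1, h3, Y ^ (1 / 100 : ℝ), h2, pow_le_pow_right₀ (by linarith) hN,
    Real.one_le_rpow (by linarith) (by norm_num), fun m hm => (hd m).trans ?_, le_of_eq ?_, h4,
    by rwa [← pow_mul]⟩
  · have h7 : (m : ℝ) ^ (1 / (60000 * N) : ℝ) ≤ Y ^ (1 / 200 : ℝ) := by
      refine (Real.rpow_le_rpow (Nat.cast_nonneg _) hm (by positivity)).trans (le_of_eq ?_)
      rw [← pow_mul, ← Real.rpow_natCast, ← Real.rpow_mul hY.le]
      congr 1
      push_cast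
      field_simp
      norm_num
    refine (mul_le_mul h6 h7 (by positivity) (by positivity)).trans (le_of_eq ?_)
    rw [← Real.rpow_add hY]
    norm_num
  · rw [← Real.rpow_natCast, ← Real.rpow_mul hY.le]
    norm_num

end Pool.Agent.P.MP_8be758_nt.Sq
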