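import Pool.Agent.P.MP_8be758_nt.Sq.IfaceB

/-! Step EX. -/

set_option autoImplicit false
set_option linter.unusedSectionVars false

namespace Pool.Agent.P.MP_8be758_nt.Sq

open Finset Real Filter Topology ArithmeticFunction
open Pool.Agent.P.MP_e86632_nt (ee nn)
open Pool.Agent.P.MP_8be758_nt.Avg (gs Rough)

theorem p_EX :
    S_EX := by
  intro Q Y τ k h hk hr hQ
  have e := Nat.prod_primeFactors_of_squarefree hk
  have z1 : 1 ≤ pz Q Y := (one_le_pow₀ h.q1').trans h.le_pz
  refine ⟨k.primeFactors.card, ?_, k.primeFactors.orderEmbOfFin rfl,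
    ⟨(k.primeFactors.orderEmbOfFin rfl).strictMono,
      fun i => Nat.prime_of_mem_primeFactors (orderEmbOfFin_mem _ _ i)⟩, ?_⟩
  · by_contra hc
    have h1 := prod_lt_prod_of_nonempty (s := k.primeFactors) (f := fun _ => pz Q Y)
      (g := fun p : ℕ => (p : ℝ)) (fun _ _ => by linarith)
      (fun p hp => hr p (Nat.prime_of_mem_primeFactors hp) (Nat.dvd_of_mem_primeFactors hp))
      (card_pos.1 (by omega))
    rw [prod_const, ← Nat.cast_prod, e] at h1
    have h2 := pow_le_pow_right₀ z1 (show 13 ≤ k.primeFactors.card by omega)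
    linarith [h.pz13]
  · conv_rhs => rw [← e, ← k.primeFactors.image_orderEmbOfFin_univ rfl]
    rw [prod_image fun a _ b _ hab => (k.primeFactors.orderEmbOfFin rfl).injective hab]

end Pool.Agent.P.MP_8be758_nt.Sq
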