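import Pool.Agent.P.MP_8be758_nt.Sq.IfaceB

/-! Step FIN. -/

set_option autoImplicit false
set_option linter.unusedSectionVars false

namespace Pool.Agent.P.MP_8be758_nt.Sq

open Finset Real Filter Topology ArithmeticFunction
open Pool.Agent.P.MP_e86632_nt (ee nn)
open Pool.Agent.P.MP_8be758_nt.Avg (gs Rough)

theorem p_FIN (hMO1 : S_MO1) (hMO2 : S_MO2) :
    S_FIN := by
  obtain ⟨θ, θ0, θ1, c1, c0, h1⟩ := hMO1
  obtain ⟨C, C0, h2⟩ := hMO2 θ θ0
  obtain ⟨n0, hn⟩ := eventually_atTop.1 (h1.and (h2.and (eventually_ge_atTop 2)))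
  refine ⟨θ, θ1, min (c1 / 2) (c1 ^ 2 / (4 * C)), by positivity, n0, fun n hn0 K k1 k2 => ?_⟩
  obtain ⟨h1, h2, h3⟩ := hn n hn0
  replace h1 := h1 K k1 k2
  replace h2 := h2 K k1 k2
  have n2 : (2 : ℝ) ≤ n := by exact_mod_cast h3
  have l0 : 0 < Real.log n := Real.log_pos (by linarith)
  have K0 : (0 : ℝ) < K := lt_of_lt_of_le (by positivity) k1
  have m1 := min_le_left (c1 / 2) (c1 ^ 2 / (4 * C))
  have m2 := min_le_right (c1 / 2) (c1 ^ 2 / (4 * C))
  have m0 : 0 < min (c1 / 2) (c1 ^ 2 / (4 * C)) := by positivity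
  generalize min (c1 / 2) (c1 ^ 2 / (4 * C)) = c at *
  rw [← filter_filter]
  rw [← sum_filter_add_sum_filter_not _ fun A => c * n / Real.log n ≤ (PA A n : ℝ)] at h1
  have s1 : (Icc 3 K).filter Odd ⊆ Icc 1 K :=
    (filter_subset _ _).trans (Icc_subset_Icc_left (by norm_num))
  have h4 : ∑ A ∈ ((Icc 3 K).filter Odd).filter (fun A => ¬ c * n / Real.log n ≤ (PA A n : ℝ)),
      (PA A n : ℝ) ≤ K * (c * n / Real.log n) := by
    refine (sum_le_card_nsmul _ _ _ fun A hA => (not_le.1 (mem_filter.1 hA).2).le).trans ?_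
    rw [nsmul_eq_mul]
    refine mul_le_mul_of_nonneg_right ?_ (by positivity)
    exact_mod_cast (card_le_card ((filter_subset _ _).trans s1)).trans (by simp)
  have s2 := (filter_subset (fun A => c * n / Real.log n ≤ (PA A n : ℝ)) _).trans s1
  generalize ((Icc 3 K).filter Odd).filter (fun A => c * n / Real.log n ≤ (PA A n : ℝ)) = G at *
  have h5 : (∑ A ∈ G, (PA A n : ℝ)) ^ 2 ≤ G.card * (C * ((n : ℝ) ^ 2 * K / Real.log n ^ 2)) :=
    sq_sum_le_card_mul_sum_sq.trans (mul_le_mul_of_nonneg_left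
      ((sum_le_sum_of_subset_of_nonneg s2 fun _ _ _ => sq_nonneg _).trans h2) (Nat.cast_nonneg _))
  have M0 : 0 < n / Real.log n := by positivity
  have e1 : (n : ℝ) * K / Real.log n = K * (n / Real.log n) := by ring
  have e2 : (n : ℝ) ^ 2 * K / Real.log n ^ 2 = K * (n / Real.log n) ^ 2 := by ring
  rw [e1] at h1
  rw [e2] at h5
  simp only [mul_div_assoc c] at h1 h4
  generalize n / Real.log n = M at *
  have h6 : c1 / 2 * (K * M) ≤ ∑ A ∈ G, (PA A n : ℝ) := by
    nlinarith [mul_le_mul_of_nonneg_right m1 (mul_pos K0 M0).le]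
  have h7 := (pow_le_pow_left₀ (by positivity) h6 2).trans h5
  have h8 : c1 ^ 2 / (4 * C) * K ≤ G.card := by
    refine le_of_mul_le_mul_right (a := C * (K * M ^ 2)) (le_trans (le_of_eq ?_) h7) (by positivity)
    field_simp; norm_num
  exact (mul_le_mul_of_nonneg_right m2 K0.le).trans h8

end Pool.Agent.P.MP_8be758_nt.Sq
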