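import Pool.Agent.P.MP_8be758_nt.Sq.IfaceB

/-! Step G2F. -/

set_option autoImplicit false
set_option linter.unusedSectionVars false

namespace Pool.Agent.P.MP_8be758_nt.Sq

open Finset Real Filter Topology ArithmeticFunction
open Pool.Agent.P.MP_e86632_nt (ee nn)
open Pool.Agent.P.MP_8be758_nt.Avg (gs Rough)

theorem p_G2F :
    S_G2F := by
  intro ι1 ι2 α _ _ S1 S2 t Ψ L C hL hC ht hΨ
  have h1 : ∀ (β : α → Bool) (x : α),
      G2 S1 S2 (fun a b => if t x a b = β x then (1 : ℝ) else 0) (2 * L) := fun β x => by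
    cases hb : β x
    · refine ((ht x).compl.mono (by linarith)).congr fun a _ b _ => ?_
      cases t x a b <;> simp
    · exact (ht x).mono (by linarith)
  have h2 : ∀ β : α → Bool, G2 S1 S2
      (fun a b => Ψ β * ∏ x, if t x a b = β x then (1 : ℝ) else 0)
      (C * (2 * L) ^ Fintype.card α) := fun β => by
    refine ((G2.fprod univ _ _ fun x _ => h1 β x).smul (Ψ β)).mono ?_
    rw [prod_const, card_univ]
    exact mul_le_mul_of_nonneg_right (hΨ β) (by positivity)
  refine ((G2.sum univ _ _ fun β _ => h2 β).mono (le_of_eq ?_)).congr fun a _ b _ => ?_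
  · rw [sum_const, card_univ, Fintype.card_fun, Fintype.card_bool, nsmul_eq_mul,
      show 4 * L = 2 * (2 * L) by ring, mul_pow 2 (2 * L)]
    push_cast
    ring
  · rw [sum_eq_single (fun x => t x a b)]
    · simp
    · intro β _ hβ
      obtain ⟨x, hx⟩ := Function.ne_iff.1 hβ
      rw [prod_eq_zero (mem_univ x) (if_neg (Ne.symm hx)), mul_zero]
    · simp

end Pool.Agent.P.MP_8be758_nt.Sq
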