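import Pool.Agent.P.MP_8be758_nt.Sq.IfaceB

/-! Step G2L. -/

set_option autoImplicit false
set_option linter.unusedSectionVars false

namespace Pool.Agent.P.MP_8be758_nt.Sq

open Finset Real Filter Topology ArithmeticFunction
open Pool.Agent.P.MP_e86632_nt (ee nn)
open Pool.Agent.P.MP_8be758_nt.Avg (gs Rough)

theorem g2l_bit (N : ℕ) : G2 (range N) (range N)
    (fun x y => if x / 2 = y / 2 ∧ x % 2 = 0 ∧ y % 2 = 1 then (1 : ℝ) else 0) 1 := by
  have hb : ∀ (r x : ℕ), ∑ t ∈ range N, (if x / 2 = t ∧ x % 2 = r then (1 : ℝ) else 0) ^ 2 ≤ 1 :=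
    fun r x => by
      calc _ ≤ ∑ t ∈ range N, (if x / 2 = t then (1 : ℝ) else 0) := sum_le_sum fun t _ => by
            by_cases h1 : x / 2 = t <;> by_cases h2 : x % 2 = r <;> simp [h1, h2]
        _ ≤ 1 := by rw [sum_ite_eq]; split_ifs <;> norm_num
  refine ⟨ℕ, range N, fun t x => if x / 2 = t ∧ x % 2 = 0 then 1 else 0,
    fun t y => if y / 2 = t ∧ y % 2 = 1 then 1 else 0, fun x hx y _ => ?_,
    fun x _ => hb 0 x, fun y _ => hb 1 y⟩
  rw [sum_eq_single (x / 2) (fun t _ ht => by simp [ht.symm])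
    (fun h => absurd (mem_range.2 (by have := mem_range.1 hx; omega)) h)]
  by_cases h1 : x / 2 = y / 2
  · by_cases h2 : x % 2 = 0 <;> by_cases h3 : y % 2 = 1 <;> simp [h1, h2, h3]
  · simp [h1, Ne.symm h1]

theorem g2l_nat (L : ℕ) : G2 (range (2 ^ L)) (range (2 ^ L))
    (fun x y => if x < y then (1 : ℝ) else 0) (L : ℝ) := by
  induction L with
  | zero =>
    simp only [Nat.cast_zero]
    refine G2.zero.congr fun x hx y hy => ?_
    have := mem_range.1 hx
    have := mem_range.1 hy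
    rw [if_neg (by omega)]
  | succ L ih =>
    have h1 : ∀ x ∈ range (2 ^ (L + 1)), x / 2 ∈ range (2 ^ L) := fun x hx => by
      have := mem_range.1 hx
      rw [pow_succ] at this
      exact mem_range.2 (by omega)
    push_cast
    refine ((ih.comp (fun x => x / 2) (fun x => x / 2) h1 h1).add (g2l_bit _)).congr
      fun x _ y _ => ?_
    by_cases h2 : x / 2 < y / 2
    · rw [if_pos (by omega), if_pos h2, if_neg (by omega), add_zero]
    · by_cases h3 : x / 2 = y / 2 ∧ x % 2 = 0 ∧ y % 2 = 1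
      · rw [if_pos (by omega), if_neg h2, if_pos h3, zero_add]
      · rw [if_neg (by omega), if_neg h2, if_neg h3, add_zero]

theorem p_G2L :
    S_G2L := by
  classical
  intro ι1 ι2 S1 S2 φ ψ
  set V : Finset ℝ := S1.image φ ∪ S2.image ψ with hV
  let rk : ℝ → ℕ := fun x => (V.filter fun v => v < x).card
  have hc : V.card ≤ S1.card + S2.card :=
    (card_union_le _ _).trans (add_le_add card_image_le card_image_le)
  have hr : ∀ x, rk x ∈ range (2 ^ (Nat.log 2 (S1.card + S2.card) + 1)) := fun x =>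
    mem_range.2 (((card_filter_le _ _).trans hc).trans_lt (Nat.lt_pow_succ_log_self one_lt_two _))
  refine ((g2l_nat _).comp (fun a => rk (φ a)) (fun b => rk (ψ b)) (fun a _ => hr _)
    fun b _ => hr _).congr fun a ha b _ => ?_
  have h1 : φ a ∈ V := mem_union_left _ (mem_image_of_mem _ ha)
  by_cases h : φ a < ψ b
  · rw [if_pos h, if_pos]
    refine card_lt_card ⟨fun v hv => ?_, fun h2 => ?_⟩
    · exact mem_filter.2 ⟨(mem_filter.1 hv).1, (mem_filter.1 hv).2.trans h⟩
    · exact lt_irrefl _ (mem_filter.1 (h2 (mem_filter.2 ⟨h1, h⟩))).2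
  · rw [if_neg h, if_neg]
    exact not_lt.2 (card_le_card fun v hv =>
      mem_filter.2 ⟨(mem_filter.1 hv).1, (mem_filter.1 hv).2.trans_le (not_lt.1 h)⟩)

end Pool.Agent.P.MP_8be758_nt.Sq
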