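import Pool.Agent.P.MP_8be758_nt.Sq.IfaceB

/-! Step GAV. -/

set_option autoImplicit false
set_option linter.unusedSectionVars false

namespace Pool.Agent.P.MP_8be758_nt.Sq

open Finset Real Filter Topology ArithmeticFunction
open Pool.Agent.P.MP_e86632_nt (ee nn)
open Pool.Agent.P.MP_8be758_nt.Avg (gs Rough)

theorem gav_exp {q : ℕ} (hq : q.Prime) : Real.exp (2 * (1 / (q : ℝ))) ≤ 1 + 4 / q := by
  have h2 : (2 : ℝ) ≤ q := by exact_mod_cast hq.two_le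
  have h0 : (0 : ℝ) ≤ 2 * (1 / (q : ℝ)) := by positivity
  have h1 : 2 * (1 / (q : ℝ)) ≤ 1 := by
    rw [mul_one_div, div_le_one (by linarith)]; exact h2
  have h := Real.abs_exp_sub_one_le (x := 2 * (1 / (q : ℝ))) (by rwa [abs_of_nonneg h0])
  rw [abs_of_nonneg h0] at h
  have e : (4 : ℝ) / q = 2 * (2 * (1 / (q : ℝ))) := by ring
  linarith [le_abs_self (Real.exp (2 * (1 / (q : ℝ))) - 1)]

theorem gav_pt {M m : ℕ} (hm : m ∈ Icc 1 M) :
    Real.exp (2 * ∑ q ∈ m.primeFactors, 1 / (q : ℝ)) ≤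
      ∑ T ∈ ((Icc 1 M).filter Nat.Prime).powerset,
        ∏ q ∈ T, (if q ∣ m then 4 / (q : ℝ) else 0) := by
  obtain ⟨h1, h2⟩ := mem_Icc.1 hm
  rw [← Finset.prod_one_add, mul_sum, Real.exp_sum]
  have e : m.primeFactors = ((Icc 1 M).filter Nat.Prime).filter (· ∣ m) := by
    ext q
    simp only [Nat.mem_primeFactors, mem_filter, mem_Icc]
    constructor
    · rintro ⟨a, b, -⟩
      exact ⟨⟨⟨a.one_le, (Nat.le_of_dvd h1 b).trans h2⟩, a⟩, b⟩
    · rintro ⟨⟨-, a⟩, b⟩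
      exact ⟨a, b, by omega⟩
  rw [e, prod_filter]
  refine prod_le_prod (fun q _ => by split_ifs <;> positivity) fun q hq => ?_
  split_ifs
  · exact gav_exp (mem_filter.1 hq).2
  · simp

theorem gav_T (M : ℕ) {T : Finset ℕ} (hT : ∀ q ∈ T, q.Prime) :
    ∑ m ∈ Icc 1 M, ∏ q ∈ T, (if q ∣ m then 4 / (q : ℝ) else 0) ≤
      M * ∏ q ∈ T, (4 / (q : ℝ) ^ 2) := by
  have hp : (0 : ℝ) ≤ ∏ q ∈ T, 4 / (q : ℝ) := prod_nonneg fun q _ => by positivity
  have h1 : ∀ m ∈ Icc 1 M, ∏ q ∈ T, (if q ∣ m then 4 / (q : ℝ) else 0) ≤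
      if (∏ q ∈ T, q) ∣ m then ∏ q ∈ T, 4 / (q : ℝ) else 0 := by
    intro m _
    rw [Finset.prod_ite_zero]
    split_ifs with a b
    · exact le_rfl
    · exact absurd (Finset.prod_primes_dvd m (fun q hq => (hT q hq).prime) a) b
    · exact hp
    · exact le_rfl
  refine (sum_le_sum h1).trans ?_
  rw [← sum_filter, sum_const, nsmul_eq_mul, show Icc 1 M = Ioc 0 M from rfl,
    Nat.Ioc_filter_dvd_card_eq_div]
  have e : ∏ q ∈ T, (4 / (q : ℝ) ^ 2) = (∏ q ∈ T, 4 / (q : ℝ)) / ((∏ q ∈ T, q : ℕ) : ℝ) := by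
    rw [Nat.cast_prod, ← prod_div_distrib]
    exact prod_congr rfl fun q _ => by rw [div_div, pow_two]
  rw [e, ← mul_div_assoc, mul_div_right_comm]
  exact mul_le_mul_of_nonneg_right Nat.cast_div_le hp

theorem p_GAV :
    S_GAV := by
  refine ⟨Real.exp 8, Real.exp_pos _, fun M => ?_⟩
  refine (sum_le_sum fun m hm => gav_pt hm).trans ?_
  rw [sum_comm]
  refine (sum_le_sum fun T hT => gav_T M fun q hq =>
    (mem_filter.1 (mem_powerset.1 hT hq)).2).trans ?_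
  rw [← mul_sum, ← Finset.prod_one_add, mul_comm]
  refine mul_le_mul_of_nonneg_right ?_ (Nat.cast_nonneg _)
  have h1 : ∏ q ∈ (Icc 1 M).filter Nat.Prime, (1 + 4 / (q : ℝ) ^ 2) ≤
      ∏ q ∈ (Icc 1 M).filter Nat.Prime, Real.exp (4 / (q : ℝ) ^ 2) :=
    prod_le_prod (fun q _ => by positivity) fun q _ => by
      linarith [Real.add_one_le_exp (4 / (q : ℝ) ^ 2)]
  refine h1.trans ?_
  rw [← Real.exp_sum, Real.exp_le_exp]
  have h2 : ∑ q ∈ (Icc 1 M).filter Nat.Prime, 4 / (q : ℝ) ^ 2 ≤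
      ∑ q ∈ Ioo 0 (M + 1), 4 / (q : ℝ) ^ 2 :=
    sum_le_sum_of_subset_of_nonneg (fun q hq => by
      have := mem_Icc.1 (mem_filter.1 hq).1
      exact mem_Ioo.2 ⟨by omega, by omega⟩) fun q _ _ => by positivity
  have h3 := sum_Ioo_inv_sq_le (α := ℝ) 0 (M + 1)
  simp only [div_eq_mul_inv] at h2 ⊢
  rw [← mul_sum (Ioo 0 (M + 1))] at h2
  norm_num at h3
  linarith

end Pool.Agent.P.MP_8be758_nt.Sq
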