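import Pool.Agent.P.MP_8be758_nt.Sq.IfaceB

/-! Step GGB. -/

set_option autoImplicit false
set_option linter.unusedSectionVars false

namespace Pool.Agent.P.MP_8be758_nt.Sq

open Finset Real Filter Topology ArithmeticFunction
open Pool.Agent.P.MP_e86632_nt (ee nn)
open Pool.Agent.P.MP_8be758_nt.Avg (gs Rough)

theorem ggb_abs {α : Type} {s : Finset α} {f : α → ℝ} {C : ℝ} (hs : s.card ≤ 2 ^ 13) (hC : 0 ≤ C)
    (hf : ∀ x ∈ s, |f x| ≤ C) : |∑ x ∈ s, f x| ≤ 2 ^ 13 * C := by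
  refine (abs_sum_le_sum_abs _ _).trans ((sum_le_card_nsmul _ _ _ hf).trans ?_)
  rw [nsmul_eq_mul]
  exact mul_le_mul_of_nonneg_right (by exact_mod_cast hs) hC

theorem p_GGB :
    S_GGB := by
  intro Q Y τ k h hR hk
  rcases Nat.eq_zero_or_pos k with rfl | k0
  · simp [gg, M1, MT, N2, N3, N4, NZ]
  have hz : 1 < pz Q Y := lt_of_lt_of_le (one_lt_pow₀ (by linarith [h.q0]) (by norm_num)) h.le_pz
  have c0 : k.divisors.card ≤ 2 ^ 13 := Avg.t_TAU _ 13 k hz hR (hk.trans h.pz13)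
  have c1 : ∀ d, d ∣ k → d.divisors.card ≤ 2 ^ 13 := fun d hd =>
    (card_le_card (Nat.divisors_subset_of_dvd k0.ne' hd)).trans c0
  have c2 : k.primeFactors.card ≤ 2 ^ 13 := (card_le_card fun p hp =>
    Nat.mem_divisors.2 ⟨Nat.dvd_of_mem_primeFactors hp, k0.ne'⟩).trans c0
  have c3 : k.divisorsAntidiagonal.card ≤ 2 ^ 13 := by
    rwa [← Nat.map_div_right_divisors, card_map]
  have b1 : |M1 Q Y k| ≤ 2 ^ 13 * 1 := ggb_abs c0 zero_le_one fun r _ => by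
    split_ifs
    · exact abs_mu_le r
    · simp
  have b2 : |MT Q Y k| ≤ 2 ^ 13 * (2 ^ 13 * (2 ^ 13 * 1)) :=
    ggb_abs c3 (by norm_num) fun x hx => by
      have e := (Nat.mem_divisorsAntidiagonal.1 hx).1
      split_ifs
      · refine ggb_abs (c1 _ (Dvd.intro _ e)) (by norm_num) fun a _ =>
          ggb_abs (c1 _ (Dvd.intro_left _ e)) zero_le_one fun b _ => ?_
        split_ifs
        · rw [abs_mul]
          exact mul_le_one₀ (abs_mu_le a) (abs_nonneg _) (abs_mu_le b)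
        · simp
      · simp
  have b3 : |N2 Q Y k| ≤ 2 ^ 13 * (2 ^ 13 * 1) :=
    ggb_abs c2 (by norm_num) fun p _ => ggb_abs c2 zero_le_one fun q _ => by
      split_ifs <;> simp
  have b4 : |N3 Q Y k| ≤ 2 ^ 13 * (2 ^ 13 * (2 ^ 13 * 3)) :=
    ggb_abs c2 (by norm_num) fun p _ => ggb_abs c2 (by norm_num) fun q _ =>
      ggb_abs c2 (by norm_num) fun r _ => by split_ifs <;> norm_num
  have b5 : |N4 Q Y k| ≤ 2 ^ 13 * (2 ^ 13 * 1) :=
    ggb_abs c2 (by norm_num) fun p hp => ggb_abs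
      (c1 _ (Nat.div_dvd_of_dvd (Nat.dvd_of_mem_primeFactors hp))) zero_le_one fun q _ => by
        split_ifs <;> simp
  have b6 : |NZ Q Y k| ≤ 2 ^ 13 * 1 := ggb_abs c0 zero_le_one fun r _ => by split_ifs <;> simp
  rw [abs_le] at b1 b2 b3 b4 b5 b6 ⊢
  rw [gg]
  constructor <;> linarith [b1.1, b1.2, b2.1, b2.2, b3.1, b3.2, b4.1, b4.2, b5.1, b5.2, b6.1, b6.2]

end Pool.Agent.P.MP_8be758_nt.Sq
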