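import Pool.Agent.P.MP_8be758_nt.Sq.IfaceB

/-! Step GOOD. -/

set_option autoImplicit false
set_option linter.unusedSectionVars false

namespace Pool.Agent.P.MP_8be758_nt.Sq

open Finset Real Filter Topology ArithmeticFunction
open Pool.Agent.P.MP_e86632_nt (ee nn)
open Pool.Agent.P.MP_8be758_nt.Avg (gs Rough)

open Classical in
/-- the part of the sieve function attached to a chosen type II factor -/
noncomputable def good_Psi {s : ℕ} (S : Finset (Fin s)) (β : At s → Bool) : ℝ :=
  if ∀ i j : Fin s, i < j → β (Sum.inr (i, j)) = true then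
    (if h : ∃ A, β (Sum.inl (A, 0)) = false ∧ β (Sum.inl (A, 9)) = true then
      (if h.choose = S then Phi (fun A t => β (Sum.inl (A, t))) else 0) else 0) else 0

open Classical in
theorem good_sum (Q Y : ℝ) {s : ℕ} (p : Fin s → ℕ) :
    ∑ S, good_Psi S (atm Q Y p) = if StrictMono p then
      (if ∃ A, chi Q Y p A 0 = false ∧ chi Q Y p A 9 = true then Phi (chi Q Y p) else 0)
      else 0 := by
  have e : (∀ i j : Fin s, i < j → atm Q Y p (Sum.inr (i, j)) = true) ↔ StrictMono p := by
    simp only [atm, Sum.elim_inr, decide_eq_true_eq]; exact Iff.rfl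
  unfold good_Psi
  by_cases h1 : StrictMono p
  · simp only [if_pos h1, if_pos (e.2 h1)]
    by_cases h2 : ∃ A, chi Q Y p A 0 = false ∧ chi Q Y p A 9 = true
    · have h3 : ∃ A, atm Q Y p (Sum.inl (A, 0)) = false ∧ atm Q Y p (Sum.inl (A, 9)) = true := h2
      simp only [if_pos h2, dif_pos h3, sum_ite_eq, mem_univ, if_true]
      rfl
    · have h3 : ¬ ∃ A, atm Q Y p (Sum.inl (A, 0)) = false ∧ atm Q Y p (Sum.inl (A, 9)) = true :=
        h2
      simp only [if_neg h2, dif_neg h3, sum_const_zero]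
  · simp only [if_neg h1, if_neg (fun h => h1 (e.1 h)), sum_const_zero]

theorem good_card : ∃ n : ℕ, ∀ s ≤ 12, Fintype.card (At s) ≤ n :=
  ⟨∑ s ∈ range 13, Fintype.card (At s), fun s hs =>
    single_le_sum (f := fun s => Fintype.card (At s)) (fun _ _ => Nat.zero_le _)
      (mem_range.2 (by omega))⟩

theorem p_GOOD (hGOOD1 : S_GOOD1) (hENUM : S_ENUM) (hBR : S_BR) (hPHB : S_PHB) :
    S_GOOD := by
  classical
  obtain ⟨n, hn⟩ := good_card
  refine ⟨n, 13 * (2 ^ 12 * (2 ^ 41 * 4800 ^ n)), fun Q Y τ E w hY st hl ah => ?_⟩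
  have e0 := ah.e0
  have y0 := st.ypos
  have l1 := st.log1
  have h1 := hENUM Q Y τ (fun k => if Good Q Y k then w k * gg Q Y k else 0) st
    (fun k hk => by simp only [ah.zero hk, zero_mul, ite_self])
  rw [← filter_filter, sum_filter, h1]
  have key : ∀ s ∈ range 13, |∑ p ∈ TU Q Y s, (if Good Q Y (∏ i, p i) then
      w (∏ i, p i) * gg Q Y (∏ i, p i) else 0)| ≤ 2 ^ 12 * (2 ^ 41 * 4800 ^ n) * (Y ^ 2 * E) := by
    intro s hs
    have hs' : s ≤ 12 := by have := mem_range.1 hs; omega
    have e1 : ∑ p ∈ TU Q Y s, (if Good Q Y (∏ i, p i) then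
        w (∏ i, p i) * gg Q Y (∏ i, p i) else 0) =
        ∑ S : Finset (Fin s), ∑ p ∈ TA Q Y s, good_Psi S (atm Q Y p) * w (∏ i, p i) := by
      rw [sum_comm, TU, sum_filter]
      refine sum_congr rfl fun p hp => ?_
      rw [← sum_mul, good_sum]
      by_cases hm : StrictMono p
      · have tp : Tup p := ⟨hm, fun i => (mem_filter.1 (Fintype.mem_piFinset.1 hp i)).2.1⟩
        obtain ⟨b1, -, b3⟩ := hBR Q Y s p tp
        rw [if_pos hm, if_pos hm, b1]
        by_cases hg : Good Q Y (∏ i, p i)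
        · rw [if_pos hg, if_pos (b3.1 hg), mul_comm]
        · rw [if_neg hg, if_neg (fun h => hg (b3.2 h)), zero_mul]
      · rw [if_neg hm, if_neg hm, zero_mul]
    have e2 : ∀ S : Finset (Fin s), |∑ p ∈ TA Q Y s, good_Psi S (atm Q Y p) * w (∏ i, p i)| ≤
        2 ^ 41 * 4800 ^ n * (Y ^ 2 * E) := by
      intro S
      refine (hGOOD1 Q Y τ E w st ah s S (good_Psi S) (2 ^ 41) hs' (by positivity)
        (fun β => ?_) (fun β hβ => ?_)).trans ?_
      · unfold good_Psi
        split_ifs
        · exact (hPHB s _ hs').1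
        all_goals simp
      · unfold good_Psi at hβ
        split_ifs at hβ with a b c
        · exact c ▸ b.choose_spec
        all_goals exact absurd rfl hβ
      · have a1 : (4 * (1200 * Real.log Q)) ^ Fintype.card (At s) ≤ 4800 ^ n * Y :=
          calc _ ≤ (4 * (1200 * Real.log Q)) ^ n := pow_le_pow_right₀ (by linarith) (hn s hs')
            _ = 4800 ^ n * Real.log Q ^ n := by rw [← mul_pow]; ring_nf
            _ ≤ _ := by gcongr
        calc _ ≤ Y * (2 ^ 41 * (4800 ^ n * Y)) * E := by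
              gcongr
              exact st.taupow (by norm_num)
          _ = _ := by ring
    rw [e1]
    refine (abs_sum_le_sum_abs _ _).trans ((sum_le_card_nsmul _ _ _ fun S _ => e2 S).trans ?_)
    rw [card_univ, Fintype.card_finset, Fintype.card_fin, nsmul_eq_mul, mul_assoc (2 ^ 12 : ℝ)]
    push_cast
    gcongr
    norm_num
  refine (abs_sum_le_sum_abs _ _).trans ((sum_le_card_nsmul _ _ _ key).trans ?_)
  rw [card_range, nsmul_eq_mul]
  calc _ = 13 * (2 ^ 12 * (2 ^ 41 * 4800 ^ n)) * (Y ^ 2 * E) := by push_cast; ring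
    _ ≤ Y * (Y ^ 2 * E) := by gcongr
    _ = _ := by ring

end Pool.Agent.P.MP_8be758_nt.Sq
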