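import Pool.Agent.P.MP_8be758_nt.Sq.IfaceB

/-! Step GOOD1. -/

set_option autoImplicit false
set_option linter.unusedSectionVars false

namespace Pool.Agent.P.MP_8be758_nt.Sq

open Finset Real Filter Topology ArithmeticFunction
open Pool.Agent.P.MP_e86632_nt (ee nn)
open Pool.Agent.P.MP_8be758_nt.Avg (gs Rough)

/-- tuples with entries in `P` on `S` and equal to one elsewhere -/
def good1_T {s : ℕ} (P : Finset ℕ) (S : Finset (Fin s)) : Finset (Fin s → ℕ) :=
  Fintype.piFinset fun i => if i ∈ S then P else {1}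

theorem good1_mem {s : ℕ} {P : Finset ℕ} {S : Finset (Fin s)} {a : Fin s → ℕ} :
    a ∈ good1_T P S ↔ (∀ i ∈ S, a i ∈ P) ∧ ∀ i, i ∉ S → a i = 1 := by
  rw [good1_T, Fintype.mem_piFinset]
  refine ⟨fun h => ⟨fun i hi => ?_, fun i hi => ?_⟩, fun h i => ?_⟩
  · simpa [hi] using h i
  · simpa [hi] using h i
  · by_cases hi : i ∈ S
    · simpa [hi] using h.1 i hi
    · simpa [hi] using h.2 i hi

theorem good1_split {s : ℕ} (P : Finset ℕ) (S : Finset (Fin s)) (F : (Fin s → ℕ) → ℝ) :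
    ∑ p ∈ Fintype.piFinset (fun _ : Fin s => P), F p =
      ∑ a ∈ good1_T P S, ∑ b ∈ good1_T P Sᶜ, F (a * b) := by
  rw [← sum_product']
  refine sum_bij' (fun p _ => (fun i => if i ∈ S then p i else 1, fun i => if i ∈ S then 1 else p i))
    (fun x _ => x.1 * x.2) ?_ ?_ ?_ ?_ ?_
  · intro p hp
    rw [Fintype.mem_piFinset] at hp
    refine mem_product.2 ⟨good1_mem.2 ⟨fun i hi => ?_, fun i hi => ?_⟩,
      good1_mem.2 ⟨fun i hi => ?_, fun i hi => ?_⟩⟩
    · simpa [hi] using hp i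
    · simp [hi]
    · simpa [mem_compl.1 hi] using hp i
    · simp [not_not.1 (mt mem_compl.2 hi)]
  · rintro ⟨a, b⟩ hx
    obtain ⟨ha, hb⟩ := mem_product.1 hx
    rw [good1_mem] at ha hb
    dsimp only at ha hb
    refine Fintype.mem_piFinset.2 fun i => ?_
    by_cases hi : i ∈ S
    · simpa [hb.2 i (notMem_compl.2 hi)] using ha.1 i hi
    · simpa [ha.2 i hi] using hb.1 i (mem_compl.2 hi)
  · intro p _
    funext i
    by_cases hi : i ∈ S <;> simp [hi]
  · rintro ⟨a, b⟩ hx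
    obtain ⟨ha, hb⟩ := mem_product.1 hx
    rw [good1_mem] at ha hb
    dsimp only at ha hb
    refine Prod.ext (funext fun i => ?_) (funext fun i => ?_)
    · by_cases hi : i ∈ S
      · simp [hi, hb.2 i (notMem_compl.2 hi)]
      · simp [hi, ha.2 i hi]
    · by_cases hi : i ∈ S
      · simp [hi, hb.2 i (notMem_compl.2 hi)]
      · simp [hi, ha.2 i hi]
  · intro p _
    refine congrArg F (funext fun i => ?_)
    by_cases hi : i ∈ S <;> simp [hi]

theorem good1_pos {Q Y : ℝ} {s : ℕ} {S : Finset (Fin s)} {a : Fin s → ℕ}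
    (ha : a ∈ good1_T (PS Q Y) S) (i : Fin s) : 0 < a i := by
  rw [good1_mem] at ha
  by_cases hi : i ∈ S
  · exact (mem_filter.1 (ha.1 i hi)).2.1.pos
  · rw [ha.2 i hi]; exact Nat.one_pos

theorem good1_card {Q Y τ : ℝ} (h : St Q Y τ) {s : ℕ} (hs : s ≤ 12) (S : Finset (Fin s)) :
    ((good1_T (PS Q Y) S).card : ℝ) ≤ Q ^ 576 := by
  rw [good1_T, Fintype.card_piFinset, Nat.cast_prod]
  have h1 : (1 : ℝ) ≤ Q ^ 48 := one_le_pow₀ h.q1'
  refine (prod_le_prod (g := fun _ => Q ^ 48) (fun _ _ => Nat.cast_nonneg _) fun i _ => ?_).trans ?_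
  · split_ifs
    · refine le_trans ?_ h.XN_le
      exact_mod_cast (card_filter_le _ _).trans (by simp)
    · simpa using h1
  · rw [prod_const, card_univ, Fintype.card_fin, ← pow_mul]
    exact h.qpow (by omega)

theorem good1_fib {Q Y τ : ℝ} (h : St Q Y τ) {s : ℕ} (hs : s ≤ 12) (T : Finset (Fin s → ℕ))
    (hT : ∀ a ∈ T, ∀ i, 0 < a i) (n : ℕ) (hn : ∀ a ∈ T, ∏ i, a i = n → (n : ℝ) ≤ Q ^ 300) :
    ((T.filter fun a => ∏ i, a i = n).card : ℝ) ≤ τ ^ 12 := by
  rcases (T.filter fun a => ∏ i, a i = n).eq_empty_or_nonempty with h0 | ⟨a0, h0⟩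
  · rw [h0, card_empty, Nat.cast_zero]
    exact pow_nonneg (by linarith [h.t1]) _
  obtain ⟨h1, h2⟩ := mem_filter.1 h0
  have n0 : n ≠ 0 := h2 ▸ (prod_pos fun i _ => hT a0 h1 i).ne'
  have h3 : (T.filter fun a => ∏ i, a i = n) ⊆ Fintype.piFinset fun _ : Fin s => n.divisors :=
    fun a ha => Fintype.mem_piFinset.2 fun i => Nat.mem_divisors.2
      ⟨(mem_filter.1 ha).2 ▸ dvd_prod_of_mem a (mem_univ i), n0⟩
  have h4 := card_le_card h3
  rw [Fintype.card_piFinset, prod_const, card_univ, Fintype.card_fin] at h4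
  calc ((T.filter fun a => ∏ i, a i = n).card : ℝ) ≤ (n.divisors.card : ℝ) ^ s := by
        exact_mod_cast h4
    _ ≤ τ ^ s := pow_le_pow_left₀ (Nat.cast_nonneg _) (h.tau n (hn a0 h1 h2)) s
    _ ≤ τ ^ 12 := pow_le_pow_right₀ h.t1 hs

theorem good1_atom (hG2L : S_G2L) (Q Y : ℝ) {s : ℕ} (S1 S2 : Finset (Fin s → ℕ))
    (h1 : ∀ a ∈ S1, ∀ i, 0 < a i) (h2 : ∀ a ∈ S2, ∀ i, 0 < a i) (x : At s) :
    G2 S1 S2 (fun a b => if atm Q Y (a * b) x then 1 else 0)
      ((Nat.log 2 (S1.card + S2.card) + 1 : ℕ) : ℝ) := by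
  rcases x with ⟨A, t⟩ | ⟨i, j⟩
  · refine (hG2L _ _ S1 S2 (fun a => (PP a A : ℝ)) fun b => th Q Y t / PP b A).congr
      fun a _ b hb => ?_
    have p : (0 : ℝ) < PP b A := by exact_mod_cast prod_pos fun i _ => h2 b hb i
    have e : (PP (a * b) A : ℝ) = PP a A * PP b A := by
      rw [← Nat.cast_mul, PP, PP, PP, ← prod_mul_distrib]; rfl
    simp only [atm, chi, Sum.elim_inl, decide_eq_true_eq, e, lt_div_iff₀ p]
  · refine (hG2L _ _ S1 S2 (fun a => (a i : ℝ) / a j) fun b => (b j : ℝ) / b i).congr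
      fun a ha b hb => ?_
    have p : (0 : ℝ) < a j := by exact_mod_cast h1 a ha j
    have q : (0 : ℝ) < b i := by exact_mod_cast h2 b hb i
    have e : (a i : ℝ) * b i < b j * a j ↔ a i * b i < a j * b j := by
      rw [mul_comm (a j)]; exact_mod_cast Iff.rfl
    simp only [atm, Sum.elim_inr, decide_eq_true_eq, div_lt_div_iff₀ p q, e, Pi.mul_apply]

theorem p_GOOD1 (hG2L : S_G2L) (hG2F : S_G2F) :
    S_GOOD1 := by
  intro Q Y τ E w h hA s S Ψ C hs hC hΨ hsup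
  have hl := h.log1
  rw [TA, good1_split (PS Q Y) S]
  set S1 := (good1_T (PS Q Y) S).filter fun a =>
    pA Q Y ≤ ((∏ i, a i : ℕ) : ℝ) ∧ ((∏ i, a i : ℕ) : ℝ) < pB Q Y with hS1
  have p1 : ∀ a ∈ S1, ∀ i, 0 < a i := fun a ha => good1_pos (mem_filter.1 ha).1
  have p2 : ∀ a ∈ good1_T (PS Q Y) Sᶜ, ∀ i, 0 < a i := fun a ha => good1_pos ha
  have e1 : ∑ a ∈ good1_T (PS Q Y) S, ∑ b ∈ good1_T (PS Q Y) Sᶜ,
      Ψ (atm Q Y (a * b)) * w (∏ i, (a * b) i) =
      ∑ a ∈ S1, ∑ b ∈ good1_T (PS Q Y) Sᶜ,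
        Ψ (fun x => atm Q Y (a * b) x) * w ((∏ i, a i) * ∏ i, b i) := by
    rw [hS1, sum_filter]
    refine sum_congr rfl fun a ha => ?_
    split_ifs with hc
    · exact sum_congr rfl fun b _ => by rw [← prod_mul_distrib]; rfl
    · refine sum_eq_zero fun b hb => mul_eq_zero_of_left ?_ _
      by_contra hne
      have e : PP (a * b) S = ∏ i, a i := by
        rw [PP, ← prod_subset (subset_univ S) fun i _ hi => (good1_mem.1 ha).2 i hi]
        exact prod_congr rfl fun i hi => by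
          rw [Pi.mul_apply, (good1_mem.1 hb).2 i (notMem_compl.2 hi), mul_one]
      obtain ⟨k1, k2⟩ := hsup _ hne
      simp only [atm, chi, Sum.elim_inl, e, decide_eq_false_iff_not, decide_eq_true_eq,
        not_lt] at k1 k2
      exact hc ⟨k1, k2⟩
  rw [e1, show τ ^ 24 = (τ ^ 12) ^ 2 by ring]
  have hL : ((Nat.log 2 (S1.card + (good1_T (PS Q Y) Sᶜ).card) + 1 : ℕ) : ℝ) ≤
      1200 * Real.log Q := by
    refine (h.log2 (k := 577) ?_).trans (by push_cast; linarith)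
    have c1 : (S1.card : ℝ) ≤ Q ^ 576 :=
      le_trans (by exact_mod_cast card_filter_le _ _) (good1_card h hs S)
    have c2 := good1_card h hs Sᶜ
    have c3 : Q ^ 576 * 2 ≤ Q ^ 576 * Q :=
      mul_le_mul_of_nonneg_left (by linarith [h.q0]) (pow_pos h.qpos _).le
    rw [Nat.cast_add, pow_succ]
    linarith
  refine hA.t3 _ _ S1 (good1_T (PS Q Y) Sᶜ) (fun a => ∏ i, a i) (fun b => ∏ i, b i)
    (fun a b => Ψ fun x => atm Q Y (a * b) x) _ _ (by positivity)
    (pow_nonneg (by linarith [h.t1]) _) (fun a ha => (mem_filter.1 ha).2)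
    (fun b hb => prod_pos fun i _ => p2 b hb i) (fun n => good1_fib h hs S1 p1 n ?_)
    (fun m hm => ?_) ?_
  · intro a ha e
    rw [← e]
    exact (mem_filter.1 ha).2.2.le.trans (h.pB_le.trans (h.qpow (by norm_num)))
  · have m0 := good1_fib h hs _ p2 ⌊m⌋₊ fun b _ e => by
      rcases le_total m 0 with h0 | h0
      · rw [Nat.floor_of_nonpos h0, Nat.cast_zero]
        exact (pow_pos h.qpos _).le
      · exact (Nat.floor_le h0).trans (hm.trans (h.qpow (by norm_num)))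
    refine le_trans (Nat.cast_le.2 (card_le_card fun b hb => ?_)) m0
    refine mem_filter.2 ⟨(mem_filter.1 hb).1, ?_⟩
    rw [← (mem_filter.1 hb).2, Nat.floor_natCast]
  · exact hG2F _ _ (At s) S1 _ (fun x a b => atm Q Y (a * b) x) Ψ _ C (by linarith) hC
      (fun x => (good1_atom hG2L Q Y S1 _ p1 p2 x).mono hL) hΨ

end Pool.Agent.P.MP_8be758_nt.Sq
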