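import Pool.Agent.P.MP_8be758_nt.Sq.IfaceB

/-! Step H1. -/

set_option autoImplicit false
set_option linter.unusedSectionVars false

namespace Pool.Agent.P.MP_8be758_nt.Sq

open Finset Real Filter Topology ArithmeticFunction
open Pool.Agent.P.MP_e86632_nt (ee nn)
open Pool.Agent.P.MP_8be758_nt.Avg (gs Rough)

theorem h1_card {S : Finset ℕ} {T : ℝ} (hT : 0 ≤ T) (h : ∀ r ∈ S, 1 ≤ r ∧ (r : ℝ) ≤ T) :
    (S.card : ℝ) ≤ T := by
  have h1 : S.card ≤ ⌊T⌋₊ := (card_le_card fun r hr =>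
    mem_Icc.2 ⟨(h r hr).1, Nat.le_floor (h r hr).2⟩).trans_eq (by simp)
  exact (Nat.cast_le.2 h1).trans (Nat.floor_le hT)

theorem h1_one (hI2F : S_I2F) {Q Y τ E : ℝ} {w : ℕ → ℝ} (h : St Q Y τ) (hw : AH Q Y w E)
    {R D : Finset ℕ} {c : ℕ → ℕ → ℝ} (hR : ∀ r ∈ R, 1 ≤ r ∧ (r : ℝ) < pA Q Y)
    (hD : ∀ d ∈ D, 1 ≤ d ∧ (d : ℝ) < pW Q Y) (hc : ∀ r ∈ R, ∀ d ∈ D, |c r d| ≤ 1) :
    |∑ r ∈ R, ∑ d ∈ D, c r d * ∑ e ∈ E0 (pz Q Y) (pA Q Y) r (XN Q),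
      mu e * ∑ j ∈ Icc 1 (XN Q), w (r * d * (e * j))| ≤ τ ^ 2 * E := by
  obtain ⟨S, hS⟩ : ∃ S : Finset (ℕ × ℕ × ℕ), S = (R ×ˢ (D ×ˢ Icc 1 (XN Q))).filter fun s =>
    Smo (pz Q Y) s.2.2 ∧ ((s.1 * s.2.2 : ℕ) : ℝ) < pA Q Y := ⟨_, rfl⟩
  have hm : ∀ s ∈ S, 1 ≤ s.1 * s.2.1 * s.2.2 ∧
      ((s.1 * s.2.1 * s.2.2 : ℕ) : ℝ) ≤ Q ^ 30 / Y ^ 100 := fun s hs => by
    rw [hS] at hs
    simp only [mem_filter, mem_product, mem_Icc] at hs
    obtain ⟨⟨a1, a2, a3, -⟩, -, a4⟩ := hs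
    refine ⟨Nat.mul_pos (Nat.mul_pos (hR _ a1).1 (hD _ a2).1) a3, ?_⟩
    rw [← h.pA_pW, mul_right_comm, Nat.cast_mul]
    exact mul_le_mul a4.le (hD _ a2).2.le (Nat.cast_nonneg _) h.pA_pos.le
  refine le_trans ?_ ((hI2F Q Y E (τ ^ 2) w _ S (fun s => s.1 * s.2.1 * s.2.2) (sq_nonneg _)
    fun n => ?_).1 hw.t1 hm)
  · rw [hS, sum_filter, sum_product]
    refine (abs_sum_le_sum_abs _ _).trans (sum_le_sum fun r hr => ?_)
    rw [sum_product]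
    refine (abs_sum_le_sum_abs _ _).trans (sum_le_sum fun d hd => ?_)
    rw [abs_mul, ← sum_filter]
    refine (mul_le_of_le_one_left (abs_nonneg _) (hc r hr d hd)).trans
      ((abs_sum_le_sum_abs _ _).trans (sum_le_sum fun e _ => ?_))
    rw [abs_mul]
    refine (mul_le_of_le_one_left (abs_nonneg _) (abs_mu_le e)).trans_eq ?_
    simp only [Sj, mul_assoc]
  · rcases (S.filter fun s => s.1 * s.2.1 * s.2.2 = n).eq_empty_or_nonempty with e | ⟨s, hs⟩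
    · rw [e, card_empty, Nat.cast_zero]; exact sq_nonneg _
    obtain ⟨h1, h2⟩ := mem_filter.1 hs
    have h3 := hm s h1
    rw [h2] at h3
    have h4 := h.tau n (h3.2.trans ((div_le_self (pow_pos h.qpos _).le
      (one_le_pow₀ h.y1)).trans (h.qpow (by norm_num))))
    refine le_trans ?_ (pow_le_pow_left₀ (Nat.cast_nonneg _) h4 2)
    exact_mod_cast card_triples_le (by omega) _ fun x hx => (mem_filter.1 hx).2

theorem h1_two (hCRS : S_CRS) {Q Y τ E B : ℝ} {w : ℕ → ℝ} (h : St Q Y τ) (hw : AH Q Y w E)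
    {R D : Finset ℕ} {c : ℕ → ℕ → ℝ} (hB : 1 ≤ B) (hR : ∀ r ∈ R, 1 ≤ r ∧ (r : ℝ) < pA Q Y)
    (hD : ∀ d ∈ D, 1 ≤ d ∧ (d : ℝ) < pW Q Y) (hG : G2 R D c B) :
    |∑ r ∈ R, ∑ d ∈ D, c r d * ∑ x ∈ E1 (pz Q Y) (pA Q Y) r (XN Q), ∑ e ∈ Icc 1 (XN Q),
      ∑ j ∈ Icc 1 (XN Q), (if gp e < x.2 then mu x.1 * mu e else 0) *
        w (r * d * (x.1 * x.2 * e * j))| ≤ τ ^ 2 * τ ^ 4 * B * (500 * Real.log Q) * E := by
  have q0 := h.qpos
  have hp : ∀ b ∈ D ×ˢ Icc 1 (XN Q), 1 ≤ b.1 * b.2 := fun b hb =>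
    Nat.mul_pos (hD _ (mem_product.1 hb).1).1 (mem_Icc.1 (mem_product.1 hb).2).1
  refine le_of_eq_of_le ?_ (hCRS Q Y τ E w h hw ℕ (ℕ × ℕ) R (D ×ˢ Icc 1 (XN Q)) (fun a => a)
    (fun b => b.1 * b.2) (fun a b => c a.1 b.1.1) B τ (by linarith) h.t1 (fun a ha => (hR a ha).1)
    hp (fun n => ?_) (fun n hn => ?_) ?_ ?_ (hG.comp _ _ (fun a ha => (mem_product.1 ha).1)
      fun b hb => (mem_product.1 (mem_product.1 hb).1).1))
  · refine congrArg _ (sum_congr rfl fun r _ => ?_)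
    simp only [mul_sum, sum_product]
    rw [sum_comm]
    refine sum_congr rfl fun x _ => sum_congr rfl fun d _ => ?_
    rw [sum_comm]
    refine sum_congr rfl fun j _ => sum_congr rfl fun e _ => ?_
    rw [show r * d * (x.1 * x.2 * e * j) = r * x.1 * x.2 * (d * j * e) by ring]
  · refine le_trans ?_ h.t1
    have h1 : (R.filter fun a => a = n).card ≤ 1 :=
      card_le_one.2 fun a ha b hb => (mem_filter.1 ha).2.trans (mem_filter.1 hb).2.symm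
    exact_mod_cast h1
  · rcases Nat.eq_zero_or_pos n with rfl | h0
    · rw [filter_eq_empty_iff.2 fun b hb => (Nat.pos_iff_ne_zero.1 (hp b hb)), card_empty,
        Nat.cast_zero]
      linarith [h.t1]
    refine le_trans ?_ (h.tau n (hn.trans (h.qpow (by norm_num))))
    exact_mod_cast card_pairs_le h0.ne' _ fun x hx => (mem_filter.1 hx).2
  · exact h1_card (by positivity) fun r hr =>
      ⟨(hR r hr).1, (hR r hr).2.le.trans (h.pA_le.trans (h.qpow (by norm_num)))⟩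
  · rw [card_product, Nat.card_Icc, Nat.add_sub_cancel, Nat.cast_mul]
    refine (mul_le_mul (h1_card (T := Q ^ 18) (by positivity) fun d hd =>
      ⟨(hD d hd).1, (hD d hd).2.le.trans h.pW_le⟩) h.XN_le (Nat.cast_nonneg _)
      (by positivity)).trans ?_
    rw [← pow_add]; exact h.qpow (by norm_num)

theorem p_H1 (hSPL : S_SPL) (hI2F : S_I2F) (hCRS : S_CRS) :
    S_H1 := by
  refine ⟨501 ^ 2, fun Q Y τ E w hY h hw R D c B hB hR hD hc hG => ?_⟩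
  have e : ∀ r ∈ R, ∀ d ∈ D, c r d * ∑ j ∈ Icc 1 (XN Q), rh (pz Q Y) j * w (r * d * j) =
      c r d * ∑ e ∈ E0 (pz Q Y) (pA Q Y) r (XN Q), mu e * ∑ j ∈ Icc 1 (XN Q), w (r * d * (e * j)) -
      c r d * ∑ x ∈ E1 (pz Q Y) (pA Q Y) r (XN Q), ∑ e ∈ Icc 1 (XN Q), ∑ j ∈ Icc 1 (XN Q),
        (if gp e < x.2 then mu x.1 * mu e else 0) * w (r * d * (x.1 * x.2 * e * j)) :=
    fun r hr d hd => by
      rw [hSPL (pz Q Y) (pA Q Y) r (XN Q) (fun j => w (r * d * j)) (hR r hr).1 (hR r hr).2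
        fun j hj => hw.zero (hj.trans_le
          (Nat.le_mul_of_pos_left j (Nat.mul_pos (hR r hr).1 (hD d hd).1))), mul_sub]
  rw [sum_congr rfl fun r hr => sum_congr rfl (e r hr)]
  simp only [sum_sub_distrib]
  refine (abs_sub _ _).trans ((add_le_add (h1_one hI2F h hw hR hD hc)
    (h1_two hCRS h hw hB hR hD hG)).trans ?_)
  rw [← add_mul]
  refine mul_le_mul_of_nonneg_right ?_ hw.e0
  have h1 := h.mix (C := 501) (a := 6) (b := 1) hY (by norm_num) (by norm_num)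
  have h2 : τ ^ 2 ≤ τ ^ 6 := pow_le_pow_right₀ h.t1 (by norm_num)
  have h3 : 0 ≤ τ ^ 6 := (sq_nonneg τ).trans h2
  have h4 : τ ^ 6 ≤ τ ^ 6 * Real.log Q := le_mul_of_one_le_right h3 h.log1
  have h5 : τ ^ 6 * Real.log Q ≤ B * (τ ^ 6 * Real.log Q) := le_mul_of_one_le_left (h3.trans h4) hB
  have h6 := mul_le_mul_of_nonneg_left h1 (by linarith : 0 ≤ B)
  nlinarith

end Pool.Agent.P.MP_8be758_nt.Sq
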