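import Pool.Agent.P.MP_8be758_nt.Sq.IfaceB

/-! Step H2A. -/

set_option autoImplicit false
set_option linter.unusedSectionVars false

namespace Pool.Agent.P.MP_8be758_nt.Sq

open Finset Real Filter Topology ArithmeticFunction
open Pool.Agent.P.MP_e86632_nt (ee nn)
open Pool.Agent.P.MP_8be758_nt.Avg (gs Rough)

theorem h2a_fib {ι : Type} (S : Finset ι) (r : ι → ℕ) (T : ι → Finset ℕ) {f : ℝ} {n : ℕ}
    (hn : n ≠ 0) (hf : ∀ n, ((S.filter fun s => r s = n).card : ℝ) ≤ f) :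
    (((S.sigma T).filter fun x => r x.1 * x.2 = n).card : ℝ) ≤ f * n.divisors.card := by
  rw [card_eq_sum_card_fiberwise (f := fun x : Σ _ : ι, ℕ => r x.1) (t := n.divisors)
    fun x hx => Nat.mem_divisors.2 ⟨Dvd.intro _ (mem_filter.1 hx).2, hn⟩, Nat.cast_sum, mul_comm,
    ← nsmul_eq_mul]
  refine sum_le_card_nsmul _ _ _ fun d _ => le_trans (Nat.cast_le.2 ?_) (hf d)
  refine card_le_card_of_injOn (fun x => x.1) (fun x hx => ?_) ?_
  · obtain ⟨h1, h2⟩ := mem_filter.1 hx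
    exact mem_coe.2 (mem_filter.2 ⟨(mem_sigma.1 (mem_filter.1 h1).1).1, h2⟩)
  · rintro ⟨s, e⟩ hx ⟨s', e'⟩ hy (rfl : s = s')
    have h1 : r s * e = n := (mem_filter.1 (mem_filter.1 hx).1).2
    have h2 : r s * e' = n := (mem_filter.1 (mem_filter.1 hy).1).2
    rw [Nat.eq_of_mul_eq_mul_left (Nat.pos_of_ne_zero (left_ne_zero_of_mul (h1 ▸ hn)))
      (h1.trans h2.symm)]

theorem p_H2A (hSPL : S_SPL) (hI2F : S_I2F) (hCRS : S_CRS) (hG2L : S_G2L) :
    S_H2A := by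
  refine ⟨(10 ^ 8) ^ 2, fun Q Y τ E w hY h hA ι S r lo hi α f hf hS hfib hc => ?_⟩
  have t1 := h.t1
  have l1 := h.log1
  have e0 := hA.e0
  have hX := h.XN_le
  have f0 : 0 ≤ f * τ := by positivity
  have f1 : f ≤ f * τ := le_mul_of_one_le_right (by linarith) t1
  have f2 : τ ≤ f * τ := le_mul_of_one_le_left (by linarith) hf
  have mE : ∀ x ∈ S.sigma fun s => E0 (pz Q Y) (pA Q Y) (r s) (XN Q), 1 ≤ r x.1 * x.2 ∧
      ((r x.1 * x.2 : ℕ) : ℝ) < pA Q Y ∧ (hi x.1 : ℝ) ≤ Q ^ 34 := fun x hx => by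
    obtain ⟨x1, x2⟩ := mem_sigma.1 hx
    obtain ⟨x2, -, x3⟩ := mem_filter.1 x2
    exact ⟨Nat.mul_pos (hS _ x1).1 (mem_Icc.1 x2).1, x3, (hS _ x1).2.2.1⟩
  have p1 := (hI2F Q Y E (f * τ) w _ (S.sigma fun s => E0 (pz Q Y) (pA Q Y) (r s) (XN Q))
    (fun x => r x.1 * x.2) f0 fun n => by
      rcases (filter (fun x : Σ _ : ι, ℕ => r x.1 * x.2 = n) (S.sigma fun s =>
        E0 (pz Q Y) (pA Q Y) (r s) (XN Q))).eq_empty_or_nonempty with e | ⟨x, hx⟩
      · rwa [e, card_empty, Nat.cast_zero]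
      obtain ⟨x0, rfl⟩ := mem_filter.1 hx
      obtain ⟨x1, x2, -⟩ := mE x x0
      exact (h2a_fib S r _ (by omega) hfib).trans (mul_le_mul_of_nonneg_left
        (h.tau _ (x2.le.trans (h.pA_le.trans (h.qpow (by norm_num))))) (by linarith))).2 hA.t2
    (fun x => lo x.1) (fun x => hi x.1) mE
  have L : ((Nat.log 2 (S.card + (Icc 1 (XN Q)).card) + 1 : ℕ) : ℝ) ≤ 303 * Real.log Q := by
    refine (h.log2 (k := 151) ?_).trans_eq (by norm_num)
    have := hX.trans (h.qpow (show 48 ≤ 150 by norm_num))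
    rw [Nat.card_Icc, Nat.add_sub_cancel, Nat.cast_add, pow_succ]
    nlinarith [h.q0, pow_pos h.qpos 150]
  have g1 := (hG2L _ _ S (Icc 1 (XN Q)) (fun a => (lo a : ℝ)) fun v => (v : ℝ)).mono L
  have g2 := (hG2L _ _ S (Icc 1 (XN Q)) (fun a => -(hi a : ℝ) - 1) fun v => -(v : ℝ)).mono L
  have g := ((G2.prod α (fun _ => 1) (fun a ha => (hS a ha).2.2.2) (by simp)).mul (g1.mul g2)).comp
    (S3 := S ×ˢ (Icc 1 (XN Q) ×ˢ Icc 1 (XN Q)))
    (S4 := (Icc 1 (XN Q) ×ˢ Icc 1 (XN Q)) ×ˢ Icc 1 (XN Q)) (fun a => a.1) (fun b => b.1.1)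
    (fun a ha => (mem_product.1 ha).1) fun b hb => (mem_product.1 (mem_product.1 hb).1).1
  have m1 : ∀ b ∈ Icc 1 (XN Q) ×ˢ Icc 1 (XN Q), 1 ≤ b.1 * b.2 := fun b hb =>
    Nat.mul_pos (mem_Icc.1 (mem_product.1 hb).1).1 (mem_Icc.1 (mem_product.1 hb).2).1
  have m2 : ∀ n : ℕ, (n : ℝ) ≤ Q ^ 48 →
      (((Icc 1 (XN Q) ×ˢ Icc 1 (XN Q)).filter fun b => b.1 * b.2 = n).card : ℝ) ≤ f * τ := by
    intro n hn
    rcases eq_or_ne n 0 with rfl | h0
    · rwa [filter_eq_empty_iff.2 fun b hb => Nat.ne_zero_of_lt (m1 b hb), card_empty, Nat.cast_zero]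
    · exact (Nat.cast_le.2 (card_pairs_le h0 _ fun x hx => (mem_filter.1 hx).2)).trans
        ((h.tau n (hn.trans (h.qpow (by norm_num)))).trans f2)
  have m3 : ((Icc 1 (XN Q) ×ˢ Icc 1 (XN Q)).card : ℝ) ≤ Q ^ 150 := by
    rw [card_product, Nat.card_Icc, Nat.add_sub_cancel, Nat.cast_mul]
    refine (mul_le_mul hX hX (Nat.cast_nonneg _) (pow_pos h.qpos _).le).trans ?_
    rw [← pow_add]
    exact h.qpow (by norm_num)
  have p2 := hCRS Q Y τ E w h hA ι (ℕ × ℕ) S (Icc 1 (XN Q) ×ˢ Icc 1 (XN Q)) r (fun b => b.1 * b.2)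
    (fun a b => α a.1 * 1 * ((if (lo a.1 : ℝ) < b.1.1 then 1 else 0) *
      if -(hi a.1 : ℝ) - 1 < -(b.1.1 : ℝ) then 1 else 0))
    (1 * (303 * Real.log Q * (303 * Real.log Q))) (f * τ) (by positivity) (hf.trans f1)
    (fun a ha => (hS a ha).1) m1 (fun n => (hfib n).trans f1) m2 hc m3 g
  rw [sum_congr rfl fun s hs => congrArg (α s * ·) (sum_congr rfl fun v hv =>
    hSPL _ (pA Q Y) (r s) (XN Q) (fun j => w (r s * v * j)) (hS s hs).1 (hS s hs).2.1 fun j hj =>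
      hA.zero (hj.trans_le (Nat.le_mul_of_pos_left _ (Nat.mul_pos (hS s hs).1
        (Nat.zero_lt_of_lt (mem_Ioc.1 hv).1)))))]
  simp only [sum_sub_distrib, mul_sub]
  refine (abs_sub _ _).trans ((add_le_add (le_trans ?_ p1) (le_trans (le_of_eq ?_) p2)).trans ?_)
  · rw [sum_sigma]
    refine (abs_sum_le_sum_abs _ _).trans (sum_le_sum fun s hs => ?_)
    rw [abs_mul, sum_comm]
    refine (mul_le_of_le_one_left (abs_nonneg _) (hS s hs).2.2.2).trans
      ((abs_sum_le_sum_abs _ _).trans (sum_le_sum fun e _ => ?_))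
    rw [← mul_sum, abs_mul]
    refine (mul_le_of_le_one_left (abs_nonneg _) (abs_mu_le e)).trans_eq ?_
    simp only [Sj, mul_assoc, mul_left_comm e]
  · refine congrArg _ (sum_congr rfl fun s hs => ?_)
    rw [sum_comm, mul_sum]
    refine sum_congr rfl fun x _ => ?_
    have e : Ioc (lo s) (hi s) = (Icc 1 (XN Q)).filter fun v => lo s < v ∧ v ≤ hi s := by
      have := le_XN ((hS s hs).2.2.1.trans (h.qpow (by norm_num)))
      ext v
      simp only [mem_Ioc, mem_filter, mem_Icc]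
      omega
    rw [sum_product, e, sum_filter, mul_sum]
    refine sum_congr rfl fun v _ => ?_
    have e2 : -(hi s : ℝ) - 1 < -v ↔ v ≤ hi s := by
      rw [← Nat.lt_succ_iff, ← Nat.cast_lt (α := ℝ), Nat.cast_succ]
      constructor <;> intro <;> linarith
    simp only [e2, Nat.cast_lt, ← mul_sum]
    rw [sum_comm]
    by_cases k1 : lo s < v <;> by_cases k2 : v ≤ hi s <;> simp only [k1, k2, and_self, and_true,
      and_false, if_true, if_false, mul_one, mul_zero, zero_mul]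
    refine congrArg _ (sum_congr rfl fun e _ => (mul_sum _ _ _).trans
      (sum_congr rfl fun j _ => ?_))
    rw [show r s * v * (x.1 * x.2 * e * j) = r s * x.1 * x.2 * (v * j * e) by ring]
  have m := h.mix (C := 10 ^ 8) (a := 6) (b := 3) hY (by norm_num) (by norm_num)
  have a1 : τ ≤ τ ^ 6 * Real.log Q ^ 3 :=
    (le_self_pow₀ t1 (by norm_num)).trans (le_mul_of_one_le_right (by positivity) (one_le_pow₀ l1))
  have a2 : f * τ ≤ f ^ 2 * (τ ^ 6 * Real.log Q ^ 3) :=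
    mul_le_mul (le_self_pow₀ hf (by norm_num)) a1 (by linarith) (by positivity)
  have a3 := mul_le_mul_of_nonneg_left m (sq_nonneg f)
  have a4 : 0 ≤ f ^ 2 * (τ ^ 6 * Real.log Q ^ 3) := f0.trans a2
  rw [← add_mul]
  refine mul_le_mul_of_nonneg_right ?_ e0
  nlinarith

end Pool.Agent.P.MP_8be758_nt.Sq
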