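import Pool.Agent.P.MP_8be758_nt.Sq.IfaceB

/-! Step I2F. -/

set_option autoImplicit false
set_option linter.unusedSectionVars false

namespace Pool.Agent.P.MP_8be758_nt.Sq

open Finset Real Filter Topology ArithmeticFunction
open Pool.Agent.P.MP_e86632_nt (ee nn)
open Pool.Agent.P.MP_8be758_nt.Avg (gs Rough)

theorem i2f_fib {ι : Type} {S : Finset ι} {r : ι → ℕ} {f E : ℝ} (hf : 0 ≤ f)
    (h : ∀ n, ((S.filter fun s => r s = n).card : ℝ) ≤ f) {T : Finset ℕ} (hT : ∀ s ∈ S, r s ∈ T)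
    {g : ι → ℝ} {G : ℕ → ℝ} (h0 : ∀ n, 0 ≤ G n) (hg : ∀ s ∈ S, g s ≤ G (r s))
    (hE : ∑ n ∈ T, G n ≤ E) : ∑ s ∈ S, g s ≤ f * E := by
  rw [← sum_fiberwise_of_maps_to hT]
  refine le_trans (sum_le_sum fun n _ => ?_)
    ((mul_sum T G f).symm.le.trans (mul_le_mul_of_nonneg_left hE hf))
  refine (sum_le_card_nsmul _ _ (G n) fun s hs => ?_).trans ?_
  · obtain ⟨h1, h2⟩ := mem_filter.1 hs
    exact h2 ▸ hg s h1
  · rw [nsmul_eq_mul]
    exact mul_le_mul_of_nonneg_right (h n) (h0 n)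

theorem p_I2F :
    S_I2F := by
  intro Q Y E f w ι S r hf h
  refine ⟨fun H hr => ?_, fun H lo hi hr => ?_⟩
  · exact i2f_fib (G := fun n => |Sj Q w n|) hf h
      (fun s hs => mem_Icc.2 ⟨(hr s hs).1, Nat.le_floor (hr s hs).2⟩)
      (fun n => abs_nonneg _) (fun _ _ => le_rfl) H
  have key : ∀ n, ∃ a b : ℕ, (b : ℝ) ≤ Q ^ 34 ∧ ∀ s ∈ S, r s = n →
      |∑ v ∈ Ioc (lo s) (hi s), Sj Q w (n * v)| ≤ |∑ v ∈ Ioc a b, Sj Q w (n * v)| := fun n => by
    rcases (S.filter fun s => r s = n).eq_empty_or_nonempty with e | e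
    · refine ⟨0, 0, by rw [Nat.cast_zero]; positivity, fun s hs h1 => ?_⟩
      have : s ∈ S.filter fun s => r s = n := mem_filter.2 ⟨hs, h1⟩
      rw [e] at this
      exact absurd this (notMem_empty s)
    · obtain ⟨t, h1, h2⟩ := exists_max_image _
        (fun s => |∑ v ∈ Ioc (lo s) (hi s), Sj Q w (n * v)|) e
      exact ⟨lo t, hi t, (hr t (mem_filter.1 h1).1).2.2,
        fun s hs h3 => h2 s (mem_filter.2 ⟨hs, h3⟩)⟩
  choose a b h1 h2 using key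
  exact i2f_fib (G := fun n => |∑ v ∈ Ioc (a n) (b n), Sj Q w (n * v)|) hf h
    (fun s hs => mem_Icc.2 ⟨(hr s hs).1, Nat.le_floor (hr s hs).2.1.le⟩)
    (fun n => abs_nonneg _) (fun s hs => h2 _ s hs rfl) (H a b h1)

end Pool.Agent.P.MP_8be758_nt.Sq
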