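import Pool.Agent.P.MP_8be758_nt.Sq.IfaceK

/-! Step KER. -/

set_option autoImplicit false
set_option linter.unusedSectionVars false

namespace Pool.Agent.P.MP_8be758_nt.Sq

open Finset Real Filter Topology ArithmeticFunction
open Pool.Agent.P.MP_e86632_nt (ee nn)
open Pool.Agent.P.MP_8be758_nt.Avg (gs Rough)

theorem ker_add (f : ℕ → ℕ) (c d : ℕ) : ∀ a r, lp f (c + d) a r = lp f c a 0 + lp f d (a + c) r := by
  have h : ∀ c a r, lp f c a r = r + ∑ k ∈ range c, f (a + k) := fun c => by
    induction c with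
    | zero => exact fun _ _ => rfl
    | succ c ih =>
      intro a r
      change frc (a + 1) (fun a' => frc (r + f a) fun r' => lp f c a' r') = _
      rw [frc_eq, frc_eq, ih, sum_range_succ']
      simp only [add_assoc, add_comm 1, add_zero]
      omega
  intro a r
  rw [h, h, h, sum_range_add]
  simp only [add_assoc]
  omega

/-- the first level of the tree -/
noncomputable def kF (a : ℕ) : ℕ := bif aS okp [] a (a + 1) then
  (frc (0 + a) fun b' => frc (0 + (a + 1)) fun σ' => VV 11 [(a, a + 1)] b' σ' a / a + 1) else 0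

theorem ker_0 : lp kF 4 24 0 ≤ 18791 := by decide +kernel
theorem ker_1 : lp kF 2 28 0 ≤ 12012 := by decide +kernel
theorem ker_2 : lp kF 1 30 0 ≤ 6276 := by decide +kernel
theorem ker_3 : lp kF 2 31 0 ≤ 10303 := by decide +kernel
theorem ker_4 : lp kF 7 33 0 ≤ 69808 := by decide +kernel
theorem ker_5 : lp kF 4 40 0 ≤ 105959 := by decide +kernel
theorem ker_6 : lp kF 2 44 0 ≤ 73088 := by decide +kernel
theorem ker_7 : lp kF 2 46 0 ≤ 86198 := by decide +kernel
theorem ker_8 : lp kF 2 48 0 ≤ 89408 := by decide +kernel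
theorem ker_9 : lp kF 4 50 0 ≤ 152275 := by decide +kernel
theorem ker_10 : lp kF 91 54 1 ≤ 220550 := by decide +kernel

theorem p_KER :
    S_KER := by
  have e : VV 12 [] 0 0 24 = lp kF (4 + (2 + (1 + (2 + (7 + (4 + (2 + (2 + (2 + (4 + 91)))))))))) 24
    (frc (288 - 0) fun u => frc (288 - 0) fun v => lf [(u, v)] * 19200000 / u + 1) := rfl
  have e1 : (frc (288 - 0) fun u => frc (288 - 0) fun v => lf [(u, v)] * 19200000 / u + 1) = 1 := by
    decide +kernel
  rw [S_KER, e, e1]
  iterate 10 rw [ker_add]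
  simp only [Nat.reduceAdd]
  linarith [ker_0, ker_1, ker_2, ker_3, ker_4, ker_5, ker_6, ker_7, ker_8, ker_9, ker_10]

end Pool.Agent.P.MP_8be758_nt.Sq
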