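import Pool.Agent.P.MP_8be758_nt.Sq.IfaceD

/-! Step LBG. -/

set_option autoImplicit false
set_option linter.unusedSectionVars false

namespace Pool.Agent.P.MP_8be758_nt.Sq

open Finset Real Filter Topology ArithmeticFunction
open Pool.Agent.P.MP_e86632_nt (ee nn)
open Pool.Agent.P.MP_8be758_nt.Avg (gs Rough)

/-- the box of a prime -/
noncomputable def lbx (G : ℕ) (Q : ℝ) (p : ℕ) : ℕ := ⌊G * (Real.log p / Real.log Q) / 48⌋₊

variable {Q Y τ : ℝ} {G : ℕ}

theorem lbg_bd (h : St Q Y τ) (hG : 16 ≤ G) (p : ℕ) :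
    lbx G Q p * (48 * Real.log Q / G) ≤ Real.log p ∧
      Real.log p < (lbx G Q p + 1) * (48 * Real.log Q / G) := by
  have l1 := h.log1
  have G0 : (16 : ℝ) ≤ G := by exact_mod_cast hG
  have p0 := Real.log_natCast_nonneg p
  have e : G * (Real.log p / Real.log Q) / 48 = Real.log p / (48 * Real.log Q / G) := by
    field_simp
  have m0 : 0 < 48 * Real.log Q / G := by positivity
  rw [lbx, e, ← le_div_iff₀ m0, ← div_lt_iff₀ m0]
  exact ⟨Nat.floor_le (by positivity), Nat.lt_floor_add_one _⟩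

theorem lbg_mem (h : St Q Y τ) (hG : 16 ≤ G) {p : ℕ} (hp : p ∈ PS Q Y) : lbx G Q p ∈ Icc 1 G := by
  obtain ⟨h1, h2, h3⟩ := mem_filter.1 hp
  have l1 := h.log1
  have G0 : (16 : ℝ) ≤ G := by exact_mod_cast hG
  have a1 := Real.log_le_log (pow_pos h.qpos 3) (h.le_pz.trans h3.le)
  have a2 := Real.log_le_log (by exact_mod_cast h2.pos)
    ((Nat.cast_le.2 (mem_Icc.1 h1).2).trans h.XN_le)
  rw [Real.log_pow] at a1 a2
  push_cast at a1 a2
  have b1 : 3 ≤ Real.log p / Real.log Q := (le_div_iff₀ (by linarith)).2 a1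
  have b2 : Real.log p / Real.log Q ≤ 48 := (div_le_iff₀ (by linarith)).2 a2
  exact mem_Icc.2 ⟨Nat.le_floor (by push_cast; nlinarith), Nat.floor_le_of_le (by nlinarith)⟩

theorem lbg_box (hMW : S_MW) (h : St Q Y τ) (hG : 16 ≤ G) (hl : 65536 ≤ 48 * Real.log Q / G)
    {i : ℕ} (hi : 1 ≤ i) :
    ∑ p ∈ (PS Q Y).filter (fun p => lbx G Q p = i), 1 / (p : ℝ) ≤ 2001 / 2000 * (1 / i) := by
  have i1 : (1 : ℝ) ≤ i := by exact_mod_cast hi
  have key := fun p => lbg_bd h hG p
  generalize 48 * Real.log Q / G = m at *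
  refine (hMW (Real.exp (i * m)) (Real.exp ((i + 1) * m)) _
    (by nlinarith [Real.add_one_le_exp (i * m)]) (Real.exp_le_exp.2 (by linarith))
    fun p hp => ?_).trans ?_
  · obtain ⟨h1, rfl⟩ := mem_filter.1 hp
    have h2 := (mem_filter.1 h1).2.1
    have h3 : (0 : ℝ) < p := by exact_mod_cast h2.pos
    exact ⟨h2, (Real.le_log_iff_exp_le h3).1 (key p).1, (Real.log_le_iff_le_exp h3).1 (key p).2.le⟩
  · rw [← Real.exp_sub, Real.log_exp, Real.log_exp, div_le_iff₀ (by positivity)]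
    have e : 2001 / 2000 * (1 / (i : ℝ)) * (i * m) = 2001 / 2000 * m := by field_simp
    rw [e]; linarith

theorem lbg_last {y0 ε σ : ℝ} (hP : ∀ y, y0 ≤ y → ∀ u v : ℝ, y / 2 ≤ u → u ≤ v → v ≤ y →
      |(((Ioc ⌊u⌋₊ ⌊v⌋₊).filter Nat.Prime).card : ℝ) - (v - u) / Real.log y| ≤ ε * (y / Real.log y))
    (h : St Q Y τ) (hG : 16 ≤ G) (hl : y0 ≤ 48 * Real.log Q / G) (e0 : 0 ≤ ε) {m : ℕ} (hm : 0 < m)
    (h1 : Real.log m ≤ σ * (48 * Real.log Q / G)) (h2 : σ + 1 ≤ G) :
    (((PS Q Y).filter fun r => InW Q (m * r)).card : ℝ) ≤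
      (399 / 40000 + ε) * (Q ^ 48 / Real.log (Q ^ 48)) * (G / (G - σ)) * (1 / m) := by
  have l1 := h.log1
  have G0 : (16 : ℝ) ≤ G := by exact_mod_cast hG
  have m0 : (0 : ℝ) < m := by exact_mod_cast hm
  have X0 := pow_pos h.qpos 48
  have y1 : 0 < Q ^ 48 / m := by positivity
  have m1 : 0 < 48 * Real.log Q / G := by positivity
  have a1 : (G - σ) * (48 * Real.log Q / G) ≤ Real.log (Q ^ 48 / m) := by
    rw [Real.log_div X0.ne' m0.ne', Real.log_pow, sub_mul, mul_div_cancel₀ _ (by positivity)]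
    push_cast; linarith
  have a2 : 48 * Real.log Q / G ≤ (G - σ) * (48 * Real.log Q / G) := by nlinarith
  have a3 := (abs_le.1 (hP (Q ^ 48 / m) (by linarith [Real.log_le_sub_one_of_pos y1])
    (39601 / 40000 * (Q ^ 48 / m)) _ (by linarith) (by linarith) le_rfl)).2
  have a4 : ((PS Q Y).filter fun r => InW Q (m * r)) ⊆
      (Ioc ⌊39601 / 40000 * (Q ^ 48 / m)⌋₊ ⌊Q ^ 48 / m⌋₊).filter Nat.Prime := fun r hr => by
    obtain ⟨b1, b2, b3⟩ := mem_filter.1 hr
    push_cast at b2 b3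
    refine mem_filter.2 ⟨mem_Ioc.2 ⟨(Nat.floor_lt (by positivity)).2 ?_, Nat.le_floor ?_⟩,
      (mem_filter.1 b1).2.1⟩
    · rw [← mul_div_assoc, div_lt_iff₀ m0]; linarith
    · rw [le_div_iff₀ m0]; linarith
  have a5 : Q ^ 48 / m / Real.log (Q ^ 48 / m) ≤ Q ^ 48 / m / ((G - σ) * (48 * Real.log Q / G)) :=
    div_le_div_of_nonneg_left y1.le (by linarith) a1
  have g0 : 0 < G - σ := by linarith
  calc _ ≤ _ := Nat.cast_le.2 (card_le_card a4)
    _ ≤ (399 / 40000 + ε) * (Q ^ 48 / m / Real.log (Q ^ 48 / m)) := by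
      rw [sub_div, mul_div_assoc] at a3; linarith
    _ ≤ _ := mul_le_mul_of_nonneg_left a5 (by positivity)
    _ = _ := by rw [Real.log_pow]; push_cast; field_simp

theorem lbg_snoc {s : ℕ} (P : Finset ℕ) (S : Finset (Fin (s + 1) → ℕ))
    (hS : S ⊆ Fintype.piFinset fun _ => P) (f : (Fin s → ℕ) → ℕ → ℝ) (hf : ∀ q r, 0 ≤ f q r) :
    ∑ p ∈ S, f (fun j => p j.castSucc) (p (Fin.last s)) ≤
      ∑ q ∈ Fintype.piFinset (fun _ : Fin s => P), ∑ r ∈ P, f q r := by
  rw [← sum_product', ← sum_image (g := fun p : Fin (s + 1) → ℕ =>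
    ((fun j : Fin s => p j.castSucc), p (Fin.last s))) (f := fun x => f x.1 x.2)
    fun p _ q _ e => funext fun j => Fin.lastCases (congrArg Prod.snd e)
      (fun j => congrFun (congrArg Prod.fst e) j) j]
  refine sum_le_sum_of_subset_of_nonneg (fun x hx => ?_) fun _ _ _ => hf _ _
  obtain ⟨p, hp, rfl⟩ := mem_image.1 hx
  have := Fintype.mem_piFinset.1 (hS hp)
  exact mem_product.2 ⟨Fintype.mem_piFinset.2 fun j => this _, this _⟩

theorem lbg_fib (hMW : S_MW) (h : St Q Y τ) (hG : 16 ≤ G) (hl : 65536 ≤ 48 * Real.log Q / G)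
    {s : ℕ} (hs : s < 12) (Φ : (Fin s → ℕ) → ℝ) (hΦ : ∀ i, 0 ≤ Φ i) :
    ∑ q ∈ TA Q Y s, Φ (fun j => lbx G Q (q j)) * ∏ j, 1 / (q j : ℝ) ≤
      1007 / 1000 * ∑ i ∈ Fintype.piFinset (fun _ : Fin s => Icc 1 G), Φ i * ∏ j, 1 / (i j : ℝ) := by
  rw [← sum_fiberwise_of_maps_to (s := TA Q Y s) (t := Fintype.piFinset fun _ : Fin s => Icc 1 G)
    (g := fun q j => lbx G Q (q j)) (fun q hq => Fintype.mem_piFinset.2 fun j =>
      lbg_mem h hG (Fintype.mem_piFinset.1 hq j)), mul_sum]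
  refine sum_le_sum fun i hi => ?_
  have e : (TA Q Y s).filter (fun q => (fun j => lbx G Q (q j)) = i) =
      Fintype.piFinset fun j => (PS Q Y).filter fun p => lbx G Q p = i j := by
    ext q
    simp only [TA, mem_filter, Fintype.mem_piFinset, funext_iff, forall_and]
  rw [sum_congr rfl (g := fun q => Φ i * ∏ j, 1 / (q j : ℝ)) fun q hq => by
    rw [(mem_filter.1 hq).2], ← mul_sum, e,
    ← prod_univ_sum (fun j => (PS Q Y).filter fun p => lbx G Q p = i j) fun _ p => 1 / (p : ℝ),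
    mul_left_comm]
  refine mul_le_mul_of_nonneg_left ((prod_le_prod (fun _ _ => by positivity) fun j _ =>
    lbg_box hMW h hG hl (mem_Icc.1 (Fintype.mem_piFinset.1 hi j)).1).trans ?_) (hΦ i)
  rw [prod_mul_distrib, prod_const, card_univ, Fintype.card_fin]
  refine mul_le_mul_of_nonneg_right ?_ (by positivity)
  exact (pow_le_pow_right₀ (by norm_num) hs.le).trans (by norm_num)

theorem p_LBG (hBOX : S_BOX) (hENUM : S_ENUM) (hBR : S_BR) (hLOG : S_LOG) (hPNT2 : S_PNT2) (hMW : S_MW) (hEV : S_EV) :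
    S_LBG := by
  classical
  obtain ⟨G, L, hB⟩ := hBOX
  intro N hN
  obtain ⟨y0, hP⟩ := eventually_atTop.1 (hPNT2 (1 / 100000) (by norm_num))
  filter_upwards [hEV N 0 0 (by omega),
    Real.tendsto_log_atTop.eventually_ge_atTop (G * max y0 65536)] with Y ⟨_, _, τ, h⟩ hY
  have N1 : (100000 : ℝ) ≤ N := by exact_mod_cast hN
  have lY : 0 < Real.log Y := Real.log_pos (by linarith [h.y0])
  have hy : 100000 * Real.log Y ≤ Real.log (Y ^ N) := by rw [Real.log_pow]; nlinarith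
  generalize Y ^ N = Q at *
  have hG := hB.g0
  have G0 : (16 : ℝ) ≤ G := by exact_mod_cast hG
  have l1 := h.log1
  have hl : max y0 65536 ≤ 48 * Real.log Q / G := by rw [le_div_iff₀ (by linarith)]; linarith
  have hy' : Real.log Y / Real.log Q ≤ 1 / 100000 := by rw [div_le_iff₀ (by linarith)]; linarith
  have M0 : 0 ≤ Q ^ 48 / Real.log (Q ^ 48) :=
    div_nonneg (pow_pos h.qpos _).le (Real.log_nonneg (one_le_pow₀ h.q1'))
  have e1 : ∑ k ∈ (Icc 1 (XN Q)).filter (fun k => InW Q k ∧ NZ Q Y k = 0), Ls Q Y k =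
      ∑ k ∈ (Icc 1 (XN Q)).filter (fun k => Squarefree k ∧ Rough (pz Q Y) k),
        if InW Q k ∧ NZ Q Y k = 0 then Ls Q Y k else 0 := by
    rw [sum_filter, sum_filter]
    refine sum_congr rfl fun k _ => ?_
    split_ifs with a b b
    exacts [rfl, if_neg fun c => b ⟨c.1, c.2.1⟩, rfl, rfl]
  have w1 : ¬ InW Q 1 := fun c => by
    have := c.1
    have := h.qpow (a := 1) (b := 48) (by norm_num)
    have := h.q0
    push_cast at *
    linarith
  rw [e1, hENUM Q Y τ _ h fun k hk => if_neg fun c => not_InW hk c.1, sum_range_succ',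
    sum_eq_zero (s := TU Q Y 0) fun p _ => if_neg fun c => w1 (by simpa using c.1), add_zero]
  have W0 : ∀ s i, 0 ≤ L s i * (G / (G - ∑ j, ((i j : ℝ) + 1))) := fun s i => by
    by_cases c : L s i = 0
    · rw [c, zero_mul]
    · have : ∑ j, ((i j : ℝ) + 1) < G := by exact_mod_cast hB.lt s i c
      exact mul_nonneg (hB.l0 s i) (div_nonneg (by linarith) (by linarith))
  have key : ∀ s ∈ range 12, ∑ p ∈ TU Q Y (s + 1),
      (if InW Q (∏ i, p i) ∧ NZ Q Y (∏ i, p i) = 0 then Ls Q Y (∏ i, p i) else 0) ≤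
      (399 / 40000 + 1 / 100000) * (Q ^ 48 / Real.log (Q ^ 48)) * (1007 / 1000) *
        ∑ i ∈ Fintype.piFinset (fun _ : Fin s => Icc 1 G),
          L s i * (∏ j, 1 / (i j : ℝ)) * (G / (G - ∑ j, ((i j : ℝ) + 1))) := fun s hs => by
    refine le_trans (sum_le_sum fun p hp => ?_) ((lbg_snoc (PS Q Y) (TU Q Y (s + 1))
      (filter_subset _ _) (fun q r => if InW Q ((∏ j, q j) * r) then
        L s (fun j => lbx G Q (q j)) else 0)
      fun q r => by split_ifs; exacts [hB.l0 _ _, le_rfl]).trans ?_)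
    · have tp : Tup p := ⟨(mem_filter.1 hp).2, fun i =>
        (mem_filter.1 (Fintype.mem_piFinset.1 (mem_filter.1 hp).1 i)).2.1⟩
      rw [← Fin.prod_univ_castSucc]
      split_ifs with a b b
      · unfold Ls
        split_ifs with c
        · rw [(hBR Q Y _ p tp).1, (hLOG Q Y τ _ p h tp).1]
          exact max_le (hB.l0 _ _) (hB.bd s _ _ ((hLOG Q Y τ _ p h tp).2 b c.2.2 a.2) hy')
        · exact hB.l0 _ _
      exacts [absurd a.1 b, hB.l0 _ _, le_rfl]
    · refine le_trans (sum_le_sum fun q hq => ?_) (((mul_sum _ _ _).symm.trans_le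
        (mul_le_mul_of_nonneg_left (a := (399 / 40000 + 1 / 100000) * (Q ^ 48 / Real.log (Q ^ 48)))
          (lbg_fib hMW h hG ((le_max_right _ _).trans hl) (mem_range.1 hs) _ (W0 s))
          (mul_nonneg (by norm_num) M0))).trans_eq ?_)
      · rw [← sum_filter, sum_const, nsmul_eq_mul]
        by_cases c : L s (fun j => lbx G Q (q j)) = 0
        · simp [c]
        have q0 : ∀ j, 0 < q j := fun j => (mem_filter.1 (Fintype.mem_piFinset.1 hq j)).2.1.pos
        have := lbg_last (σ := ∑ j, ((lbx G Q (q j) : ℝ) + 1)) hP h hG ((le_max_left _ _).trans hl)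
          (by norm_num) (m := ∏ j, q j) (prod_pos fun j _ => q0 j) (by
            rw [Nat.cast_prod, Real.log_prod fun j _ => by exact_mod_cast (q0 j).ne', sum_mul]
            exact sum_le_sum fun j _ => (lbg_bd h hG _).2.le) (by
            have := Nat.succ_le_of_lt (hB.lt s _ c)
            exact_mod_cast this)
        refine (mul_le_mul_of_nonneg_right this (hB.l0 _ _)).trans_eq ?_
        rw [Nat.cast_prod, prod_div_distrib, prod_const_one]
        ring
      · rw [mul_assoc _ (1007 / 1000 : ℝ)]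
        congr 2
        exact sum_congr rfl fun i _ => mul_right_comm _ _ _
  refine (sum_le_sum key).trans ?_
  rw [← mul_sum]
  nlinarith [hB.tot]

end Pool.Agent.P.MP_8be758_nt.Sq
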