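import Pool.Agent.P.MP_8be758_nt.Sq.IfaceB

/-! Step LOG. -/

set_option autoImplicit false
set_option linter.unusedSectionVars false

namespace Pool.Agent.P.MP_8be758_nt.Sq

open Finset Real Filter Topology ArithmeticFunction
open Pool.Agent.P.MP_e86632_nt (ee nn)
open Pool.Agent.P.MP_8be758_nt.Avg (gs Rough)

theorem log_th {Q Y τ : ℝ} (h : St Q Y τ) (t : Fin 11) :
    0 < th Q Y t ∧ Real.log (th Q Y t) = tl (Real.log Y / Real.log Q) t * Real.log Q := by
  have hq := h.qpos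
  have hy := h.ypos
  have hl : Real.log Q ≠ 0 := by linarith [h.log1]
  fin_cases t <;> simp only [th, tl, pA, pB, pW] <;> refine ⟨by simp; positivity, ?_⟩ <;>
    simp [Real.log_mul, Real.log_div, hq.ne', hy.ne'] <;> field_simp

theorem log_PP {s : ℕ} {p : Fin s → ℕ} (hp : Tup p) (A : Finset (Fin s)) (L : ℝ) :
    0 < (PP p A : ℝ) ∧ ∑ i ∈ A, Real.log (p i) / L = Real.log (PP p A) / L := by
  have h0 : ∀ i ∈ A, (0 : ℝ) < p i := fun i _ => by exact_mod_cast (hp.2 i).pos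
  rw [PP, Nat.cast_prod, Real.log_prod fun i hi => (h0 i hi).ne', sum_div]
  exact ⟨prod_pos h0, rfl⟩

theorem log_key {Q Y τ : ℝ} (h : St Q Y τ) {s : ℕ} {p : Fin s → ℕ} (hp : Tup p)
    (A : Finset (Fin s)) (t : Fin 11) : (PP p A : ℝ) < th Q Y t ↔
      ∑ i ∈ A, Real.log (p i) / Real.log Q < tl (Real.log Y / Real.log Q) t := by
  have hl : 0 < Real.log Q := by linarith [h.log1]
  rw [(log_PP hp A _).2, div_lt_iff₀ hl, ← (log_th h t).2,
    Real.log_lt_log_iff (log_PP hp A 1).1 (log_th h t).1]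

theorem p_LOG (hBR0 : S_BR0) :
    S_LOG := by
  intro Q Y τ s p h hp
  refine ⟨funext fun A => funext fun t => decide_eq_decide.2 (log_key h hp A t),
    fun hW hG hN => ?_⟩
  have hl : 0 < Real.log Q := by linarith [h.log1]
  have hY : 0 < Real.log Y := Real.log_pos (by linarith [h.y0])
  have hy1 : Real.log Y / Real.log Q ≤ 1 / 1000 := by
    have := Real.log_le_log (pow_pos h.ypos _) h.q1
    rw [Real.log_pow] at this
    rw [div_le_div_iff₀ hl (by norm_num)]
    push_cast at this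
    linarith
  have hne : (∏ i, p i) ≠ 0 := prod_ne_zero_iff.2 fun i _ => (hp.2 i).ne_zero
  have hd : ∀ A : Finset (Fin s), PP p A ∈ (∏ i, p i).divisors := fun A =>
    Nat.mem_divisors.2 ⟨prod_dvd_prod_of_subset _ _ _ (subset_univ A), hne⟩
  have hZ : ∀ A : Finset (Fin s), ¬ Zn Q Y (PP p A) := fun A hA => by
    have := (sum_eq_zero_iff_of_nonneg fun d _ => by split_ifs <;> norm_num).1 hN _ (hd A)
    rw [if_pos hA] at this
    exact one_ne_zero this
  have h1 : ∀ A : Finset (Fin s), A ≠ ∅ → 1 < PP p A := fun A hA =>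
    (hBR0 s p hp A).2.2.2.2.2.2.1.2 hA
  have hs := log_PP hp univ (Real.log Q)
  have hu : PP p univ = ∏ i, p i := rfl
  rw [hu] at hs
  refine ⟨fun i j hij => ?_, div_pos hY hl, hy1, fun i => ?_, ?_, ?_, fun A => ?_⟩
  · exact div_lt_div_of_pos_right (Real.log_lt_log (by exact_mod_cast (hp.2 i).pos)
      (by exact_mod_cast hp.1 hij)) hl
  · refine not_lt.1 fun hi => hZ {i} ⟨h1 _ (singleton_ne_empty i), Or.inl ?_⟩
    exact (log_key h hp {i} 7).2 (by simpa [tl] using hi)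
  · rw [hs.2, lt_div_iff₀ hl, sub_mul, div_mul_cancel₀ _ hl.ne']
    have h2 : Q ^ 48 / Y < ((∏ i, p i : ℕ) : ℝ) := by
      refine lt_of_le_of_lt ?_ hW.1
      rw [div_le_iff₀ h.ypos]
      nlinarith [pow_pos h.qpos 48, h.y0]
    have h3 := Real.log_lt_log (div_pos (pow_pos h.qpos _) h.ypos) h2
    rw [Real.log_div (pow_pos h.qpos _).ne' h.ypos.ne', Real.log_pow] at h3
    exact_mod_cast h3
  · rw [hs.2, div_le_iff₀ hl]
    have h3 := Real.log_le_log hs.1 hW.2
    rw [Real.log_pow] at h3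
    exact_mod_cast h3
  · rcases eq_or_ne A ∅ with rfl | hA
    · left
      rw [sum_empty]
      linarith
    by_contra hc
    rw [not_or, not_lt, not_le] at hc
    have a1 : Q ^ 12 / Y ≤ (PP p A : ℝ) :=
      not_lt.1 fun e => hc.1.not_gt ((log_key h hp A 8).1 e)
    have a2 : (PP p A : ℝ) < Q ^ 16 * Y := (log_key h hp A 10).2 hc.2
    rcases lt_or_ge (PP p A : ℝ) (pA Q Y) with e | e
    · exact hZ A ⟨h1 A hA, Or.inr (Or.inl ⟨a1, e⟩)⟩
    rcases lt_or_ge (PP p A : ℝ) (pB Q Y) with e' | e'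
    · exact hG ⟨_, hd A, e, e'⟩
    · exact hZ A ⟨h1 A hA, Or.inr (Or.inr ⟨e', a2⟩)⟩

end Pool.Agent.P.MP_8be758_nt.Sq
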