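import Pool.Agent.P.MP_8be758_nt.Sq.IfaceB

/-! Step LOSS. -/

set_option autoImplicit false
set_option linter.unusedSectionVars false

namespace Pool.Agent.P.MP_8be758_nt.Sq

open Finset Real Filter Topology ArithmeticFunction
open Pool.Agent.P.MP_e86632_nt (ee nn)
open Pool.Agent.P.MP_8be758_nt.Avg (gs Rough)

theorem loss_nz (Q Y : ℝ) (k : ℕ) : 0 ≤ NZ Q Y k :=
  sum_nonneg fun _ _ => by split_ifs <;> norm_num

theorem loss_pt (hEX : S_EX) (hBR : S_BR) (hPHB : S_PHB) {Q Y τ : ℝ} (h : St Q Y τ) {k : ℕ}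
    (hk : InW Q k) :
    Ls Q Y k ≤ (if NZ Q Y k = 0 then Ls Q Y k else 0) +
      2 ^ 28 * (if Rough (pz Q Y) k then NZ Q Y k else 0) := by
  have h0 := loss_nz Q Y k
  have h1 : 0 ≤ (if Rough (pz Q Y) k then NZ Q Y k else 0) := by split_ifs <;> simp [h0]
  by_cases hz : NZ Q Y k = 0
  · rw [if_pos hz]; linarith
  · rw [if_neg hz, zero_add]
    unfold Ls
    by_cases hc : Squarefree k ∧ Rough (pz Q Y) k ∧ ¬ Good Q Y k
    · rw [if_pos hc, if_pos hc.2.1]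
      obtain ⟨s, hs, p, hp, rfl⟩ := hEX Q Y τ k h hc.1 hc.2.1 hk.2
      obtain ⟨e1, e2, -⟩ := hBR Q Y s p hp
      have := ((hPHB s (chi Q Y p) hs).2 (by rw [← e2]; exact hz)).2
      rw [← e1, ← e2] at this
      exact max_le (by positivity) this
    · rw [if_neg hc]; positivity

theorem p_LOSS (hLB0 : S_LB0) (hLZ : S_LZ) (hEX : S_EX) (hBR : S_BR) (hPHB : S_PHB) (hEV : S_EV) :
    S_LOSS := by
  obtain ⟨C, hC, hZ⟩ := hLZ
  obtain ⟨N0, hN0⟩ := exists_nat_ge (2 ^ 28 * C * 50 * 40000 / 399)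
  have hN1 : 100000 ≤ max 100000 N0 := le_max_left _ _
  have hN2 : (N0 : ℝ) ≤ (max 100000 N0 : ℕ) := by exact_mod_cast le_max_right _ _
  generalize max 100000 N0 = N at hN1 hN2
  have hN : 1000 ≤ N := by omega
  refine ⟨N, hN, ?_⟩
  filter_upwards [hLB0 N hN1, hZ N hN, hEV N 0 0 hN] with Y a1 a2 a3
  obtain ⟨-, -, τ, hS⟩ := a3
  have hY : (1 : ℝ) ≤ Y := by linarith [hS.y0]
  have hL : 0 ≤ (Y ^ N) ^ 48 / Real.log ((Y ^ N) ^ 48) :=
    div_nonneg (by positivity) (Real.log_nonneg (one_le_pow₀ (one_le_pow₀ hY)))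
  have hNp : (0 : ℝ) < N := by exact_mod_cast (by omega : 0 < N)
  have hc : 2 ^ 28 * (C / N) ≤ 1 / 50 * (399 / 40000) := by
    rw [← mul_div_assoc, div_le_iff₀ hNp]
    have : 2 ^ 28 * C * 50 * 40000 / 399 ≤ (N : ℝ) := hN0.trans hN2
    linarith
  generalize (Y ^ N) ^ 48 / Real.log ((Y ^ N) ^ 48) = L at a1 a2 hL ⊢
  have b1 : ∑ k ∈ (Icc 1 (XN (Y ^ N))).filter (InW (Y ^ N)), Ls (Y ^ N) Y k ≤
      ∑ k ∈ (Icc 1 (XN (Y ^ N))).filter (InW (Y ^ N)),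
        ((if NZ (Y ^ N) Y k = 0 then Ls (Y ^ N) Y k else 0) +
          2 ^ 28 * (if Rough (pz (Y ^ N) Y) k then NZ (Y ^ N) Y k else 0)) :=
    sum_le_sum fun k hk => loss_pt hEX hBR hPHB hS (mem_filter.1 hk).2
  rw [sum_add_distrib, ← mul_sum, ← sum_filter, ← sum_filter, filter_filter, filter_filter] at b1
  have b2 : 2 ^ 28 * (C / N * L) ≤ 1 / 50 * (399 / 40000) * L := by
    rw [← mul_assoc]; exact mul_le_mul_of_nonneg_right hc hL
  have b3 := mul_le_mul_of_nonneg_left a2 (by positivity : (0 : ℝ) ≤ 2 ^ 28)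
  linarith

end Pool.Agent.P.MP_8be758_nt.Sq
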