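import Pool.Agent.P.MP_8be758_nt.Sq.IfaceB
import Pool.Agent.P.MP_8be758_nt.Avg.GT
import Pool.Agent.P.MP_8be758_nt.Avg.NU

/-! Step LZ. -/

set_option autoImplicit false
set_option linter.unusedSectionVars false

namespace Pool.Agent.P.MP_8be758_nt.Sq

open Finset Real Filter Topology ArithmeticFunction
open Pool.Agent.P.MP_e86632_nt (ee nn)
open Pool.Agent.P.MP_8be758_nt.Avg (gs Rough)

theorem p_LZ (hLZ1 : S_LZ1) (hEV : S_EV) :
    S_LZ := by
  obtain ⟨C, hC, hRC⟩ := Avg.t_RC (Avg.t_NU Avg.t_FAR Avg.t_GT)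
  obtain ⟨C1, hC1, h1⟩ := hLZ1
  refine ⟨16 * C * C1, by positivity, fun N hN => ?_⟩
  filter_upwards [hEV N 0 0 hN, h1 N hN] with Y ⟨_, _, τ, h⟩ h1
  generalize Y ^ N = Q at h h1 ⊢
  have q0 := h.qpos
  have hN0 : (0 : ℝ) < N := by exact_mod_cast (by omega : 0 < N)
  have hz : 2 ≤ pz Q Y := by
    refine le_trans ?_ h.le_pz
    have := pow_le_pow_left₀ (by norm_num) h.q0 3
    linarith
  have hlz : 3 * Real.log Q ≤ Real.log (pz Q Y) := by
    have := Real.log_le_log (pow_pos q0 3) h.le_pz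
    rwa [Real.log_pow, Nat.cast_ofNat] at this
  have hlq := h.log1
  set K := (Icc 1 (XN Q)).filter (fun k => InW Q k ∧ Rough (pz Q Y) k) with hK
  set S := (Icc 1 (XN Q)).filter (fun d => Zn Q Y d ∧ Rough (pz Q Y) d) with hS
  have h17 : ∀ d ∈ S, (d : ℝ) ≤ Q ^ 17 := fun d hd => by
    rcases (mem_filter.1 hd).2.1.2 with h3 | h3 | h3
    · exact h3.le.trans (h.qpow (by norm_num))
    · exact h3.2.le.trans (h.pA_le.trans (h.qpow (by norm_num)))
    · exact h3.2.le.trans (by simpa using h.qy (a := 16) (b := 17) (k := 1) (by norm_num) (by norm_num))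
  have h2 : ∀ k ∈ K, NZ Q Y k ≤ ∑ d ∈ S, if d ∣ k then (1 : ℝ) else 0 := fun k hk => by
    obtain ⟨h3, -, h4⟩ := mem_filter.1 hk
    rw [NZ, sum_boole, sum_boole, Nat.cast_le]
    refine card_le_card fun d hd => ?_
    obtain ⟨h5, h6⟩ := mem_filter.1 hd
    have h7 := Nat.dvd_of_mem_divisors h5
    exact mem_filter.2 ⟨mem_filter.2 ⟨mem_Icc.2 ⟨h6.1.le,
      (Nat.le_of_dvd (mem_Icc.1 h3).1 h7).trans (mem_Icc.1 h3).2⟩, h6, h4.of_dvd h7⟩, h7⟩
  have h3 : ∀ d ∈ S, ∑ k ∈ K, (if d ∣ k then (1 : ℝ) else 0) ≤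
      C * Q ^ 48 / Real.log (pz Q Y) * (1 / (d : ℝ)) := fun d hd => by
    have d1 : 0 < d := (mem_Icc.1 (mem_filter.1 hd).1).1
    have d0 : (0 : ℝ) < d := by exact_mod_cast d1
    rw [sum_boole, ← card_image_of_injOn (f := fun k => k / d) fun a ha b hb e => by
      have e' : a / d = b / d := e
      rw [← Nat.mul_div_cancel' (mem_filter.1 ha).2, e', Nat.mul_div_cancel' (mem_filter.1 hb).2]]
    refine (hRC (pz Q Y) 0 (Q ^ 48 / d) _ hz ?_ fun m hm => ?_).trans_eq (by ring)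
    · rw [le_div_iff₀ d0]
      calc pz Q Y ^ 5 * d ≤ (Q ^ 4) ^ 5 * Q ^ 17 :=
            mul_le_mul (pow_le_pow_left₀ (by linarith) h.pz_le 5) (h17 d hd) d0.le (by positivity)
        _ = Q ^ 37 := by ring
        _ ≤ _ := h.qpow (by norm_num)
    · obtain ⟨k, hk, rfl⟩ := mem_image.1 hm
      obtain ⟨h4, h5⟩ := mem_filter.1 hk
      obtain ⟨h6, h7, h8⟩ := mem_filter.1 h4
      refine ⟨?_, ?_, h8.of_dvd (Nat.div_dvd_of_dvd h5)⟩
      · exact_mod_cast Nat.div_pos (Nat.le_of_dvd (mem_Icc.1 h6).1 h5) d1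
      · rw [zero_add]
        exact Nat.cast_div_le.trans (div_le_div_of_nonneg_right h7.2 d0.le)
  calc ∑ k ∈ K, NZ Q Y k ≤ ∑ k ∈ K, ∑ d ∈ S, if d ∣ k then (1 : ℝ) else 0 := sum_le_sum h2
    _ = ∑ d ∈ S, ∑ k ∈ K, if d ∣ k then (1 : ℝ) else 0 := sum_comm
    _ ≤ ∑ d ∈ S, C * Q ^ 48 / Real.log (pz Q Y) * (1 / (d : ℝ)) := sum_le_sum h3
    _ ≤ C * Q ^ 48 / (3 * Real.log Q) * (C1 / N) := by
        rw [← mul_sum]
        exact mul_le_mul (div_le_div_of_nonneg_left (by positivity) (by linarith) hlz) h1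
          (sum_nonneg fun _ _ => by positivity) (by positivity)
    _ = _ := by
        rw [Real.log_pow]
        have : Real.log Q ≠ 0 := by linarith
        push_cast
        field_simp
        ring

end Pool.Agent.P.MP_8be758_nt.Sq
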