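import Pool.Agent.P.MP_8be758_nt.Sq.IfaceB
import Pool.Agent.P.MP_8be758_nt.Avg.GT

/-! Step LZ1. -/

set_option autoImplicit false
set_option linter.unusedSectionVars false

namespace Pool.Agent.P.MP_8be758_nt.Sq

open Finset Real Filter Topology ArithmeticFunction
open Pool.Agent.P.MP_e86632_nt (ee nn)
open Pool.Agent.P.MP_8be758_nt.Avg (gs Rough)

theorem lz1_zone (hMW : S_MW) {z W M lo : ℝ} (hz : 65536 ≤ z) (hW : 1 ≤ W) (S : Finset ℕ)
    (hS : ∀ d ∈ S, 1 < d ∧ Rough z d ∧ lo ≤ d ∧ (d : ℝ) ≤ lo * W ∧ (d : ℝ) ≤ M) :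
    ∑ d ∈ S, 1 / (d : ℝ) ≤ (∑ m ∈ (Icc 1 ⌊M⌋₊).filter (Rough z), 1 / (m : ℝ)) *
      ((Real.log W + 2) / Real.log z) := by
  have hmap : ∀ d ∈ S, d / d.minFac ∈ (Icc 1 ⌊M⌋₊).filter (Rough z) := fun d hd => by
    obtain ⟨h1, h2, -, -, h5⟩ := hS d hd
    refine mem_filter.2 ⟨mem_Icc.2 ⟨Nat.div_pos (Nat.minFac_le (by omega)) (Nat.minFac_pos d),
      (Nat.div_le_self _ _).trans (Nat.le_floor h5)⟩,
      h2.of_dvd (Nat.div_dvd_of_dvd (Nat.minFac_dvd d))⟩
  rw [← sum_fiberwise_of_maps_to hmap, sum_mul]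
  refine sum_le_sum fun m hm => ?_
  have hm0 : (0 : ℝ) < m := by exact_mod_cast (mem_Icc.1 (mem_filter.1 hm).1).1
  have hd : ∀ d ∈ S.filter (fun d => d / d.minFac = m), d = d.minFac * m := fun d hd => by
    rw [← (mem_filter.1 hd).2, Nat.mul_div_cancel' (Nat.minFac_dvd d)]
  have e : ∑ d ∈ S.filter (fun d => d / d.minFac = m), 1 / (d : ℝ) =
      1 / (m : ℝ) * ∑ p ∈ (S.filter fun d => d / d.minFac = m).image Nat.minFac, 1 / (p : ℝ) := by
    rw [sum_image fun a ha b hb e => by rw [hd a ha, hd b hb, e], mul_sum]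
    refine sum_congr rfl fun d h => ?_
    conv_lhs => rw [hd d h]
    push_cast
    rw [one_div_mul_one_div, mul_comm]
  rw [e]
  refine mul_le_mul_of_nonneg_left ?_ (by positivity)
  have hu : z ≤ max (lo / m) z := le_max_right _ _
  have hu0 : 0 < max (lo / m) z := by linarith
  have h := hMW (max (lo / m) z) (W * max (lo / m) z)
    ((S.filter fun d => d / d.minFac = m).image Nat.minFac) (hz.trans hu)
    (le_mul_of_one_le_left hu0.le hW) fun p hp => by
      obtain ⟨d, h, rfl⟩ := mem_image.1 hp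
      obtain ⟨h1, h2, h3, h4, -⟩ := hS d (mem_filter.1 h).1
      have h5 : (d : ℝ) = d.minFac * m := by exact_mod_cast hd d h
      have h6 := Nat.minFac_prime h1.ne'
      refine ⟨h6, max_le ?_ (h2 _ h6 (Nat.minFac_dvd d)).le, ?_⟩
      · rw [div_le_iff₀ hm0]; linarith
      · refine le_trans ?_ (mul_le_mul_of_nonneg_left (le_max_left _ _) (by linarith))
        rw [← mul_div_assoc, le_div_iff₀ hm0]; linarith
  rw [mul_div_cancel_right₀ _ hu0.ne'] at h
  refine h.trans (div_le_div_of_nonneg_left ?_ (Real.log_pos (by linarith))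
    (Real.log_le_log (by linarith) hu))
  linarith [Real.log_nonneg hW]

theorem p_LZ1 (hMW : S_MW) (hEV : S_EV) :
    S_LZ1 := by
  obtain ⟨C, hC, hHR⟩ := Avg.t_HR
  refine ⟨1200 * C, by positivity, fun N hN => ?_⟩
  filter_upwards [hEV N 0 0 hN] with Y ⟨_, _, τ, h⟩
  have hlog : Real.log (Y ^ N) = N * Real.log Y := Real.log_pow _ _
  generalize Y ^ N = Q at h hlog ⊢
  have y0 := h.ypos
  have q0 := h.qpos
  have hN0 : (0 : ℝ) < N := by exact_mod_cast (by omega : 0 < N)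
  have hl : 1 ≤ Real.log Y := by
    rw [Real.le_log_iff_exp_le y0]; linarith [Real.exp_one_lt_d9, h.y0]
  have hz : 65536 ≤ pz Q Y := by
    refine le_trans ?_ h.le_pz
    have := pow_le_pow_left₀ (by norm_num) h.q0 3
    linarith
  have hlz : 3 * Real.log Q ≤ Real.log (pz Q Y) := by
    have := Real.log_le_log (pow_pos q0 3) h.le_pz
    rwa [Real.log_pow, Nat.cast_ofNat] at this
  have hlq := h.log1
  have h1 : ∑ m ∈ (Icc 1 ⌊Q ^ 17⌋₊).filter (Rough (pz Q Y)), 1 / (m : ℝ) ≤ C * (17 / 3) := by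
    refine (hHR _ _ (by linarith) (h.pz_le.trans (h.qpow (by norm_num)))).2.2.trans ?_
    rw [div_le_iff₀ (by linarith), Real.log_pow, mul_assoc]
    exact mul_le_mul_of_nonneg_left (by push_cast; linarith) hC.le
  have h2 : (Real.log (Y ^ 200) + 2) / Real.log (pz Q Y) ≤ 202 / (3 * N) := by
    rw [div_le_div_iff₀ (by linarith) (by positivity), Real.log_pow]
    push_cast
    nlinarith
  have hW : 1 ≤ Y ^ 200 := one_le_pow₀ h.y1
  set S := (Icc 1 (XN Q)).filter (fun d => Zn Q Y d ∧ Rough (pz Q Y) d) with hS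
  have h17 : ∀ d ∈ S, (d : ℝ) ≤ Q ^ 17 := fun d hd => by
    rcases (mem_filter.1 hd).2.1.2 with h3 | h3 | h3
    · exact h3.le.trans (h.qpow (by norm_num))
    · exact h3.2.le.trans (h.pA_le.trans (h.qpow (by norm_num)))
    · exact h3.2.le.trans (by simpa using h.qy (a := 16) (b := 17) (k := 1) (by norm_num) (by norm_num))
  have zone : ∀ lo : ℝ, ∑ d ∈ S, (if lo ≤ d ∧ (d : ℝ) ≤ lo * Y ^ 200 then 1 / (d : ℝ) else 0) ≤
      400 * C / N := fun lo => by
    rw [← sum_filter]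
    refine (lz1_zone hMW (M := Q ^ 17) (lo := lo) hz hW _ fun d hd => ?_).trans ?_
    · obtain ⟨h3, h4⟩ := mem_filter.1 hd
      exact ⟨(mem_filter.1 h3).2.1.1, (mem_filter.1 h3).2.2, h4.1, h4.2, h17 d h3⟩
    refine (mul_le_mul h1 h2 (div_nonneg (by linarith [Real.log_nonneg hW]) (by linarith))
      (by positivity)).trans ?_
    rw [← mul_div_assoc, div_le_div_iff₀ (by positivity) hN0]
    nlinarith [mul_pos hC hN0]
  have hy : Y ^ 101 ≤ Y ^ 200 := h.ymono (by norm_num)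
  calc ∑ d ∈ S, 1 / (d : ℝ) ≤ ∑ d ∈ S,
        ((if pz Q Y ≤ d ∧ (d : ℝ) ≤ pz Q Y * Y ^ 200 then 1 / (d : ℝ) else 0) +
        (if Q ^ 12 / Y ≤ d ∧ (d : ℝ) ≤ Q ^ 12 / Y * Y ^ 200 then 1 / (d : ℝ) else 0) +
        (if pB Q Y ≤ d ∧ (d : ℝ) ≤ pB Q Y * Y ^ 200 then 1 / (d : ℝ) else 0)) := by
        refine sum_le_sum fun d hd => ?_
        obtain ⟨⟨h3, h4⟩, h5⟩ := (mem_filter.1 hd).2
        have p0 : ∀ c : Prop, ∀ [Decidable c], 0 ≤ (if c then 1 / (d : ℝ) else 0) :=
          fun c _ => by split_ifs <;> positivity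
        rcases h4 with h4 | h4 | h4
        · have e : pz Q Y * Y ^ 200 = Q ^ 4 := by unfold pz; field_simp
          rw [if_pos ⟨(h5.lt h3).le, by rw [e]; exact h4.le⟩, add_assoc]
          exact le_add_of_nonneg_right (add_nonneg (p0 _) (p0 _))
        · have e : pA Q Y = Q ^ 12 / Y * Y ^ 101 := by unfold pA; field_simp
          rw [if_pos (c := Q ^ 12 / Y ≤ d ∧ _) ⟨h4.1, h4.2.le.trans (by
            rw [e]; exact mul_le_mul_of_nonneg_left hy (by positivity))⟩]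
          exact le_add_of_le_of_nonneg (le_add_of_nonneg_left (p0 _)) (p0 _)
        · have e : Q ^ 16 * Y = pB Q Y * Y ^ 101 := by unfold pB; field_simp
          rw [if_pos (c := pB Q Y ≤ d ∧ _) ⟨h4.1, h4.2.le.trans (by
            rw [e]
            exact mul_le_mul_of_nonneg_left hy ((pow_pos q0 _).le.trans h.le_pB))⟩]
          exact le_add_of_nonneg_left (add_nonneg (p0 _) (p0 _))
    _ ≤ 400 * C / N + 400 * C / N + 400 * C / N := by
        rw [sum_add_distrib, sum_add_distrib]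
        exact add_le_add (add_le_add (zone _) (zone _)) (zone _)
    _ = _ := by ring

end Pool.Agent.P.MP_8be758_nt.Sq
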