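import Pool.Agent.P.MP_8be758_nt.Sq.IfaceB

/-! Step MO1. -/

set_option autoImplicit false
set_option linter.unusedSectionVars false

namespace Pool.Agent.P.MP_8be758_nt.Sq

open Finset Real Filter Topology ArithmeticFunction
open Pool.Agent.P.MP_e86632_nt (ee nn)
open Pool.Agent.P.MP_8be758_nt.Avg (gs Rough)

theorem mo1_pt {n K p : ℕ} {j : ℤ} {κ : ℝ} (hK : 24 ≤ K) (hn : K ≤ n) (hκ : κ * n = K / 8)
    (hp : p.Prime) (h1 : 199 / 200 * n < √(p : ℝ)) (h2 : √(p : ℝ) ≤ n)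
    (h3 : 1 / 2 + κ ≤ √(p : ℝ) - j) (h4 : √(p : ℝ) - j ≤ 1 / 2 + κ + κ) :
    ∃ A x : ℕ, A ∈ (Icc 3 K).filter Odd ∧ x ∈ range (n + 1) ∧ x ^ 2 + x + A = p := by
  have K1 : (24 : ℝ) ≤ K := by exact_mod_cast hK
  have n1 : (K : ℝ) ≤ n := by exact_mod_cast hn
  have k0 : 0 < κ := by nlinarith
  have k1 : κ ≤ 1 / 8 := by nlinarith
  have hs := Real.sq_sqrt (Nat.cast_nonneg (α := ℝ) p)
  obtain ⟨x, rfl⟩ := Int.eq_ofNat_of_zero_le (a := j) (by
    have : (0 : ℝ) ≤ j := by linarith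
    exact_mod_cast this)
  push_cast at h3 h4
  obtain ⟨t, ht⟩ : ∃ t, √(p : ℝ) = x + 1 / 2 + t := ⟨√(p : ℝ) - x - 1 / 2, by ring⟩
  rw [ht] at h1 h2 h3 h4 hs
  have t1 : κ ≤ t := by linarith
  have t2 : t ≤ 2 * κ := by linarith
  have a1 : κ * n ≤ t * (2 * x + 1) := mul_le_mul t1 (by linarith) (by linarith) (by linarith)
  have a2 : t * (2 * x + 1) ≤ 2 * κ * (2 * n) :=
    mul_le_mul t2 (by linarith) (by positivity) (by linarith)
  have b1 : x ^ 2 + x + 3 ≤ p := by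
    have : (x : ℝ) ^ 2 + x + 3 ≤ p := by nlinarith
    exact_mod_cast this
  have b2 : p ≤ x ^ 2 + x + K := by
    have : (p : ℝ) ≤ (x : ℝ) ^ 2 + x + K := by nlinarith
    exact_mod_cast this
  have b3 : x ≤ n := by
    have : (x : ℝ) ≤ n := by linarith
    exact_mod_cast this
  have b4 : Even (x ^ 2 + x) := by
    have := Nat.even_mul_succ_self x
    rwa [show x * (x + 1) = x ^ 2 + x by ring] at this
  exact ⟨p - (x ^ 2 + x), x, mem_filter.2 ⟨mem_Icc.2 ⟨by omega, by omega⟩,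
    Nat.Odd.sub_even (by omega) (hp.odd_of_ne_two (by omega)) b4⟩, mem_range.2 (by omega), by omega⟩

theorem mo1_card {Q : ℝ} {n K : ℕ} {κ : ℝ} (hQ : Q ^ 24 = n) (hK : 24 ≤ K) (hn : K ≤ n)
    (hκ : κ * n = K / 8) :
    ((TP Q (1 / 2 + κ) κ).card : ℝ) ≤ ∑ A ∈ (Icc 3 K).filter Odd, (PA A n : ℝ) := by
  have : TP Q (1 / 2 + κ) κ ⊆ (((Icc 3 K).filter Odd).sigma fun A =>
      (range (n + 1)).filter fun x => (x ^ 2 + x + A).Prime).image
        fun y => y.2 ^ 2 + y.2 + y.1 := by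
    intro p hp
    simp only [TP, mem_filter] at hp
    obtain ⟨-, h0, h1, j, h3, h4⟩ := hp
    obtain ⟨A, x, a1, a2, a3⟩ := mo1_pt hK hn hκ h0 (hQ ▸ h1.sqrt.1) (hQ ▸ h1.sqrt.2) h3 h4
    exact mem_image.2 ⟨⟨A, x⟩, mem_sigma.2 ⟨a1, mem_filter.2 ⟨a2, a3 ▸ h0⟩⟩, a3⟩
  have h := (card_le_card this).trans card_image_le
  rw [card_sigma] at h
  unfold PA
  exact_mod_cast h

theorem p_MO1 (hTHA : S_THA) :
    S_MO1 := by
  obtain ⟨N, hN, c, c0, h⟩ := hTHA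
  have N1 : (1000 : ℝ) ≤ N := by exact_mod_cast hN
  have e0 : (0 : ℝ) < 1 / (48 * N) := by positivity
  have e1 : (1 : ℝ) / (48 * N) < 1 / 2 := one_div_lt_one_div_of_lt (by norm_num) (by linarith)
  have hZ : Tendsto (fun n : ℕ => (n : ℝ) ^ ((1 : ℝ) / (48 * N))) atTop atTop :=
    (tendsto_rpow_atTop e0).comp tendsto_natCast_atTop_atTop
  refine ⟨1 / 2 - 1 / (48 * N), by linarith, by linarith, c / 16, by positivity, ?_⟩
  filter_upwards [((tendsto_pow_atTop (n := 2) (by norm_num)).comp hZ).eventually h,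
    hZ.eventually_ge_atTop 32, eventually_ge_atTop 1] with n h z1 n1 K k1 k2
  have n0 : (0 : ℝ) < n := by exact_mod_cast n1
  have f1 : ((((n : ℝ) ^ ((1 : ℝ) / (48 * N))) ^ 2) ^ N) ^ 12 = (n : ℝ) ^ ((1 : ℝ) / 2) := by
    rw [← pow_mul, ← pow_mul, ← Real.rpow_natCast, ← Real.rpow_mul n0.le]
    congr 1; push_cast; field_simp; norm_num
  have f2 : (n : ℝ) ^ ((1 : ℝ) / 2 - 1 / (48 * N)) =
      (n : ℝ) ^ ((1 : ℝ) / 2) / (n : ℝ) ^ ((1 : ℝ) / (48 * N)) := Real.rpow_sub n0 _ _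
  have f3 : ((n : ℝ) ^ ((1 : ℝ) / 2)) ^ 2 = n := by
    rw [← Real.sqrt_eq_rpow, Real.sq_sqrt n0.le]
  simp only [Function.comp] at h
  rw [f2, ← f1] at k1
  rw [← f1] at f3
  generalize (n : ℝ) ^ ((1 : ℝ) / (48 * N)) = Z at *
  have f4 : Z ^ 2 ≤ ((Z ^ 2) ^ N) ^ 12 := by
    rw [← pow_mul, ← pow_mul]; exact pow_le_pow_right₀ (by linarith) (by omega)
  generalize (Z ^ 2) ^ N = Q at *
  have z0 : 0 < Z := by linarith
  have q0 : 0 < Q ^ 12 := lt_of_lt_of_le (by positivity) f4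
  rw [div_le_iff₀ z0] at k1
  have K1 : (32 : ℝ) ≤ K := z1.trans (le_of_mul_le_mul_right (by nlinarith) z0)
  have k3 : (K : ℝ) ≤ n := by exact_mod_cast k2
  have hQ : Q ^ 24 = n := by rw [← f3]; ring
  have h1 := h (1 / 2 + K / (8 * n)) (K / (8 * n)) (by
    rw [div_le_div_iff₀ (by positivity) (by positivity), ← f3]
    nlinarith [mul_le_mul k1 z1 (by norm_num) (q0.le.trans k1)])
    (by rw [div_le_iff₀ (by positivity)]; linarith)
  refine le_trans (le_of_eq ?_) (h1.trans (mo1_card hQ (by exact_mod_cast (by linarith : (24 : ℝ) ≤ K))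
    k2 (by field_simp)))
  rw [show Q ^ 48 = (n : ℝ) ^ 2 by rw [← hQ]; ring, Real.log_pow]
  push_cast
  field_simp
  ring

end Pool.Agent.P.MP_8be758_nt.Sq
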