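import Pool.Agent.P.MP_8be758_nt.Sq.IfaceB

/-! Step MO2. -/

set_option autoImplicit false
set_option linter.unusedSectionVars false

namespace Pool.Agent.P.MP_8be758_nt.Sq

open Finset Real Filter Topology ArithmeticFunction
open Pool.Agent.P.MP_e86632_nt (ee nn)
open Pool.Agent.P.MP_8be758_nt.Avg (gs Rough)

theorem mo2_inj {g : ℕ → ℝ} (hg : ∀ m, 0 ≤ g m) {S : Finset ℕ} {f : ℕ → ℕ} {M : ℕ}
    (h1 : ∀ x ∈ S, f x ∈ Icc 1 M) (h2 : ∀ x ∈ S, ∀ y ∈ S, f x = f y → x = y) :
    ∑ x ∈ S, g (f x) ≤ ∑ m ∈ Icc 1 M, g m := by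
  rw [← sum_image h2]
  exact sum_le_sum_of_subset_of_nonneg (image_subset_iff.2 h1) fun _ _ _ => hg _

theorem mo2_exp (u v : ℕ) : Real.exp (∑ q ∈ (u * v).primeFactors, 1 / (q : ℝ)) ≤
    (Real.exp (2 * ∑ q ∈ u.primeFactors, 1 / (q : ℝ)) +
      Real.exp (2 * ∑ q ∈ v.primeFactors, 1 / (q : ℝ))) / 2 := by
  have h1 : ∑ q ∈ (u * v).primeFactors, 1 / (q : ℝ) ≤
      ∑ q ∈ u.primeFactors, 1 / (q : ℝ) + ∑ q ∈ v.primeFactors, 1 / (q : ℝ) := by
    rcases eq_or_ne (u * v) 0 with h | h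
    · rw [h, Nat.primeFactors_zero, sum_empty]; positivity
    rw [Nat.primeFactors_mul (left_ne_zero_of_mul h) (right_ne_zero_of_mul h), ← sum_union_inter]
    exact le_add_of_nonneg_right (by positivity)
  refine (Real.exp_le_exp.2 h1).trans ?_
  rw [Real.exp_add, two_mul, two_mul, Real.exp_add, Real.exp_add]
  nlinarith [sq_nonneg (Real.exp (∑ q ∈ u.primeFactors, 1 / (q : ℝ)) -
    Real.exp (∑ q ∈ v.primeFactors, 1 / (q : ℝ)))]

theorem mo2_sq (n K : ℕ) : ∑ A ∈ Icc 1 K, (PA A n : ℝ) ^ 2 =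
    ∑ x ∈ range (n + 1), ∑ y ∈ range (n + 1), (((Icc 1 K).filter fun A =>
      (x ^ 2 + x + A).Prime ∧ (y ^ 2 + y + A).Prime).card : ℝ) := by
  simp only [PA, card_filter, Nat.cast_sum, sq, sum_mul_sum]
  rw [sum_comm]
  refine sum_congr rfl fun x _ => ?_
  rw [sum_comm]
  refine sum_congr rfl fun y _ => sum_congr rfl fun A _ => ?_
  by_cases a : (x * x + x + A).Prime <;> by_cases b : (y * y + y + A).Prime <;> simp [a, b]

theorem p_MO2 (hPPR : S_PPR) (hGAV : S_GAV) :
    S_MO2 := by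
  intro θ hθ
  obtain ⟨C, hC, K0, hP⟩ := hPPR
  obtain ⟨D, hD, hG⟩ := hGAV
  refine ⟨4 + 9 * C * D / θ ^ 2, by positivity, ?_⟩
  filter_upwards [((tendsto_rpow_atTop hθ).comp tendsto_natCast_atTop_atTop).eventually_ge_atTop
    (K0 : ℝ), eventually_ge_atTop 2] with n h0 h2 K hK _
  have hK0 : K0 ≤ K := by exact_mod_cast h0.trans hK
  have hn : (2 : ℝ) ≤ n := by exact_mod_cast h2
  have hl : 0 < Real.log n := Real.log_pos (by linarith)
  have hlK : θ * Real.log n ≤ Real.log K := by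
    rw [← Real.log_rpow (by linarith)]
    exact Real.log_le_log (by positivity) hK
  have hl2 : Real.log n ^ 2 ≤ 2 * n := by
    have := Real.pow_div_factorial_le_exp _ hl.le 2
    rw [Real.exp_log (by linarith)] at this
    norm_num at this
    linarith
  set g : ℕ → ℝ := fun m => Real.exp (2 * ∑ q ∈ m.primeFactors, 1 / (q : ℝ)) with hg
  have g0 : ∀ m, 0 ≤ g m := fun m => (Real.exp_pos _).le
  set W : ℝ := C * (K / Real.log K ^ 2) with hW
  have W0 : 0 ≤ W := by positivity
  have W1 : W ≤ C * (K / (θ * Real.log n) ^ 2) := by rw [hW]; gcongr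
  have a1 : ∀ x y : ℕ, x < y → (((Icc 1 K).filter fun A =>
      (x ^ 2 + x + A).Prime ∧ (y ^ 2 + y + A).Prime).card : ℝ) ≤
      W / 2 * (g (y - x) + g (x + y + 1)) := by
    intro x y h
    obtain ⟨u, rfl⟩ := Nat.exists_eq_add_of_le h.le
    have := hP K (x ^ 2 + x) (u * (x + (x + u) + 1)) hK0 (Nat.mul_pos (by omega) (by omega))
    rw [show x ^ 2 + x + u * (x + (x + u) + 1) = (x + u) ^ 2 + (x + u) by ring] at this
    rw [Nat.add_sub_cancel_left]
    refine this.trans ((mul_le_mul_of_nonneg_left (mo2_exp _ _) W0).trans_eq ?_)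
    ring
  have a2 : ∀ x y : ℕ, (((Icc 1 K).filter fun A =>
      (x ^ 2 + x + A).Prime ∧ (y ^ 2 + y + A).Prime).card : ℝ) ≤ (if x = y then (K : ℝ) else 0) +
      W / 2 * ((if x < y then g (y - x) else 0) + (if y < x then g (x - y) else 0) +
        g (x + y + 1)) := by
    intro x y
    rcases lt_trichotomy x y with h | rfl | h
    · simpa [h, h.ne, h.le.not_gt] using a1 x y h
    · have b : ((Icc 1 K).filter fun A =>
          (x ^ 2 + x + A).Prime ∧ (x ^ 2 + x + A).Prime).card ≤ K :=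
        (card_filter_le _ _).trans (by simp)
      have c := mul_nonneg (half_pos zero_lt_one).le (mul_nonneg W0 (g0 (x + x + 1)))
      rw [if_pos rfl, if_neg (lt_irrefl x)]
      linarith [Nat.cast_le (α := ℝ).2 b]
    · simpa [h, h.ne', h.le.not_gt, and_comm, add_comm y x] using a1 y x h
  have a3 : ∀ x ∈ range (n + 1), ∑ y ∈ range (n + 1), (((Icc 1 K).filter fun A =>
      (x ^ 2 + x + A).Prime ∧ (y ^ 2 + y + A).Prime).card : ℝ) ≤ K + W / 2 * (9 * D * n) := by
    intro x hx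
    have hx' := mem_range.1 hx
    have e := hG (2 * n + 1)
    have b1 := mo2_inj g0 (S := (range (n + 1)).filter (x < ·)) (f := fun y => y - x)
      (M := 2 * n + 1) (fun y hy => by simp only [mem_filter, mem_range, mem_Icc] at hy ⊢; omega)
      fun y hy z hz => by simp only [mem_filter] at hy hz; omega
    have b2 := mo2_inj g0 (S := (range (n + 1)).filter (· < x)) (f := fun y => x - y)
      (M := 2 * n + 1) (fun y hy => by simp only [mem_filter, mem_range, mem_Icc] at hy ⊢; omega)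
      fun y hy z hz => by simp only [mem_filter] at hy hz; omega
    have b3 := mo2_inj g0 (S := range (n + 1)) (f := fun y => x + y + 1)
      (M := 2 * n + 1) (fun y hy => by simp only [mem_range, mem_Icc] at hy ⊢; omega)
      fun y _ z _ => by omega
    refine (sum_le_sum fun y _ => a2 x y).trans ?_
    rw [sum_add_distrib, sum_ite_eq, if_pos hx, ← mul_sum, sum_add_distrib, sum_add_distrib,
      ← sum_filter, ← sum_filter]
    refine add_le_add le_rfl (mul_le_mul_of_nonneg_left ?_ (by positivity))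
    push_cast at e
    nlinarith
  rw [mo2_sq]
  refine (sum_le_sum a3).trans ?_
  rw [sum_const, card_range, nsmul_eq_mul]
  have K0' : (0 : ℝ) ≤ K := Nat.cast_nonneg _
  have c1 : (K : ℝ) ≤ 2 * (n * K / Real.log n ^ 2) := by
    rw [← mul_div_assoc, le_div_iff₀ (by positivity)]
    nlinarith
  calc ((n + 1 : ℕ) : ℝ) * (K + W / 2 * (9 * D * n))
      ≤ (2 * n) * (2 * (n * K / Real.log n ^ 2) +
        C * (K / (θ * Real.log n) ^ 2) / 2 * (9 * D * n)) := by
        push_cast
        gcongr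
        linarith
    _ = _ := by field_simp; ring

end Pool.Agent.P.MP_8be758_nt.Sq
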