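import Pool.Agent.P.MP_8be758_nt.Sq.IfaceB
import Pool.Agent.P.MP_e94e4b_nt.Mert

/-! Step MW. -/

set_option autoImplicit false
set_option linter.unusedSectionVars false

namespace Pool.Agent.P.MP_8be758_nt.Sq

open Finset Real Filter Topology ArithmeticFunction
open Pool.Agent.P.MP_e86632_nt (ee nn)
open Pool.Agent.P.MP_8be758_nt.Avg (gs Rough)

theorem p_MW :
    S_MW := by
  intro u v S hu huv hS
  have u0 : 0 < u := by linarith
  have v0 : 0 < v := by linarith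
  have l0 : 0 < Real.log u := Real.log_pos (by linarith)
  have l1 : 0 ≤ Real.log (v / u) := Real.log_nonneg ((one_le_div u0).2 huv)
  rcases S.eq_empty_or_nonempty with rfl | ⟨p0, hp0⟩
  · rw [sum_empty]; positivity
  have c1 : 65536 ≤ ⌈u⌉₊ := by
    have : ((65536 : ℕ) : ℝ) ≤ ⌈u⌉₊ := le_trans (by exact_mod_cast hu) (Nat.le_ceil u)
    exact_mod_cast this
  obtain ⟨s, hs⟩ : ∃ s, ⌈u⌉₊ = s + 1 := ⟨⌈u⌉₊ - 1, by omega⟩
  have hm : ∀ p ∈ S, p ∈ Ioc s ⌊v⌋₊ := fun p hp => by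
    obtain ⟨-, h1, h2⟩ := hS p hp
    have := Nat.ceil_le.2 h1
    exact mem_Ioc.2 ⟨by omega, Nat.le_floor h2⟩
  have hst : s ≤ ⌊v⌋₊ := by have := mem_Ioc.1 (hm p0 hp0); omega
  have s1 : 65535 ≤ s := by omega
  have h1 := Pool.Agent.P.MP_e94e4b_nt.Mv_win s1 hst
  have s2 : (65535 : ℝ) ≤ s := by exact_mod_cast s1
  have s3 : u ≤ s + 1 := by have := Nat.le_ceil u; rw [hs] at this; exact_mod_cast this
  have t0 : (s : ℝ) ≤ ⌊v⌋₊ := by exact_mod_cast hst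
  have h2 : Real.log ⌊v⌋₊ ≤ Real.log v := Real.log_le_log (by linarith) (Nat.floor_le v0.le)
  have h3 : Real.log u - Real.log s ≤ 1 := by
    rw [← Real.log_div u0.ne' (by linarith)]
    refine (Real.log_le_sub_one_of_pos (by positivity)).trans ?_
    rw [sub_le_iff_le_add, div_le_iff₀ (by linarith)]
    linarith
  have h4 : Pool.Agent.P.MP_e94e4b_nt.Mv ⌊v⌋₊ - Pool.Agent.P.MP_e94e4b_nt.Mv s =
      ∑ d ∈ Ioc s ⌊v⌋₊, vonMangoldt d / (d : ℝ) := by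
    unfold Pool.Agent.P.MP_e94e4b_nt.Mv
    rw [← sum_Ioc_consecutive _ (Nat.zero_le s) hst]; ring
  have h5 : ∑ p ∈ S, vonMangoldt p / (p : ℝ) ≤ ∑ d ∈ Ioc s ⌊v⌋₊, vonMangoldt d / (d : ℝ) :=
    sum_le_sum_of_subset_of_nonneg hm fun d _ _ =>
      div_nonneg vonMangoldt_nonneg (Nat.cast_nonneg d)
  rw [le_div_iff₀ l0, sum_mul, Real.log_div v0.ne' u0.ne']
  have h6 : ∑ p ∈ S, 1 / (p : ℝ) * Real.log u ≤ ∑ p ∈ S, vonMangoldt p / (p : ℝ) :=
    sum_le_sum fun p hp => by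
      obtain ⟨h7, h8, -⟩ := hS p hp
      rw [vonMangoldt_apply_prime h7, one_div_mul_eq_div]
      exact div_le_div_of_nonneg_right (Real.log_le_log u0 h8) (Nat.cast_nonneg p)
  linarith

end Pool.Agent.P.MP_8be758_nt.Sq
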