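import Pool.Agent.P.MP_8be758_nt.Sq.IfaceB

/-! Step NSQ2. -/

set_option autoImplicit false
set_option linter.unusedSectionVars false

namespace Pool.Agent.P.MP_8be758_nt.Sq

open Finset Real Filter Topology ArithmeticFunction
open Pool.Agent.P.MP_e86632_nt (ee nn)
open Pool.Agent.P.MP_8be758_nt.Avg (gs Rough)

theorem nsq2_mult {Q Y τ c : ℝ} (h : St Q Y τ) {g : ℕ → ℝ} (hc : 0 ≤ c) (h1 : ∀ k, g k ≤ c)
    (h2 : ∀ k, XN Q < k → g k = 0) {n : ℕ} (hn : 0 < n) :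
    ∑ j ∈ Icc 1 (XN Q), g (n ^ 2 * j) ≤ c * Q ^ 48 * ((n : ℝ) ^ 2)⁻¹ := by
  have hp : 0 < n ^ 2 := pow_pos hn 2
  rw [← sum_filter_of_ne (p := fun j => j ≤ XN Q / n ^ 2) (fun j _ hj => by
    rw [Nat.le_div_iff_mul_le hp, mul_comm]
    exact not_lt.1 fun hk => hj (h2 _ hk))]
  refine (sum_le_card_nsmul _ _ c fun j _ => h1 _).trans ?_
  have h3 : ((Icc 1 (XN Q)).filter fun j => j ≤ XN Q / n ^ 2).card ≤ XN Q / n ^ 2 := by
    refine (card_le_card (t := Icc 1 (XN Q / n ^ 2)) fun j hj => ?_).trans (by simp)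
    exact mem_Icc.2 ⟨(mem_Icc.1 (mem_filter.1 hj).1).1, (mem_filter.1 hj).2⟩
  rw [nsmul_eq_mul, mul_comm, mul_assoc]
  refine mul_le_mul_of_nonneg_left ((Nat.cast_le.2 h3).trans (Nat.cast_div_le.trans ?_)) hc
  push_cast
  rw [div_eq_mul_inv]
  exact mul_le_mul_of_nonneg_right h.XN_le (by positivity)

theorem nsq2_tail {x : ℝ} (hx : 0 < x) {S : Finset ℕ} {M : ℕ} (hS : S ⊆ Ioo ⌊x⌋₊ M) :
    ∑ n ∈ S, ((n : ℝ) ^ 2)⁻¹ ≤ 2 / x :=
  (sum_le_sum_of_subset_of_nonneg hS fun _ _ _ => by positivity).trans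
    ((sum_Ioo_inv_sq_le _ _).trans
      (div_le_div_of_nonneg_left (by norm_num) hx (Nat.lt_floor_add_one x).le))

theorem p_NSQ2 :
    S_NSQ2 := by
  intro Q Y τ E a b h hs hA
  have q0 := h.qpos
  have hb : ∀ k, XN Q < k → b k = 0 := fun k hk => hs.sup k (not_InW hk)
  have hf : ∀ k, XN Q < k → a k + b k = 0 := fun k hk => by
    have h1 : a k - b k = 0 := hA.zero hk
    linarith [hb k hk]
  have f0 : ∀ k, 0 ≤ a k + b k := fun k => add_nonneg (hs.a0 k) (hs.b0 k)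
  have hz : Q ^ 3 ≤ pz Q Y := by
    rw [pz, le_div_iff₀ (pow_pos h.ypos _)]
    exact h.qy (by norm_num) (by norm_num)
  have h1 : (Icc 1 (XN Q)).filter (fun k => Rough (pz Q Y) k ∧ ¬ Squarefree k) ⊆
      (Ioo ⌊Q ^ 3⌋₊ (XN Q + 1) ×ˢ Icc 1 (XN Q)).image fun x => x.1 ^ 2 * x.2 := by
    intro k hk
    obtain ⟨k1, k2, k3⟩ := mem_filter.1 hk
    obtain ⟨k0, k1⟩ := mem_Icc.1 k1
    rw [Nat.squarefree_iff_prime_squarefree] at k3
    push Not at k3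
    obtain ⟨p, hp, c, hc⟩ := k3
    have hpk : p ∣ k := ⟨p * c, by rw [hc, mul_assoc]⟩
    have p1 : ⌊Q ^ 3⌋₊ < p := (Nat.floor_lt (by positivity)).2 (hz.trans_lt (k2 p hp hpk))
    have p2 := Nat.le_of_dvd k0 hpk
    have c1 : c ∣ k := ⟨p * p, by rw [hc, mul_comm]⟩
    have c2 := Nat.le_of_dvd k0 c1
    have c3 := Nat.pos_of_dvd_of_pos c1 k0
    exact mem_image.2 ⟨(p, c), mem_product.2 ⟨mem_Ioo.2 ⟨p1, by omega⟩,
      mem_Icc.2 ⟨c3, by omega⟩⟩, by rw [hc, sq]⟩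
  have h2 : ∑ k ∈ (Icc 1 (XN Q)).filter (fun k => Rough (pz Q Y) k ∧ ¬ Squarefree k),
      |a k - b k| ≤ ∑ n ∈ Ioo ⌊Q ^ 3⌋₊ (XN Q + 1), ∑ j ∈ Icc 1 (XN Q),
        (a (n ^ 2 * j) + b (n ^ 2 * j)) := by
    rw [← sum_product']
    refine (sum_le_sum (g := fun k => a k + b k) fun k _ => ?_).trans
      ((sum_le_sum_of_subset_of_nonneg h1 fun k _ _ => f0 k).trans
        (sum_image_le_of_nonneg fun k _ => f0 k))
    exact abs_le.2 ⟨by linarith [hs.a0 k], by linarith [hs.b0 k]⟩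
  refine h2.trans ?_
  rw [← sum_filter_add_sum_filter_not _ (fun n => n ≤ ⌊Q ^ 14⌋₊)]
  have h3 : ∑ n ∈ (Ioo ⌊Q ^ 3⌋₊ (XN Q + 1)).filter (fun n => n ≤ ⌊Q ^ 14⌋₊),
      |Sj Q (fun k => a k - b k) (n ^ 2)| ≤ E := by
    refine le_trans ?_ hA.t1
    rw [← sum_image (f := fun d => |Sj Q (fun k => a k - b k) d|) (g := fun n : ℕ => n ^ 2)
      fun x _ y _ e => Nat.pow_left_injective (by norm_num) e]
    refine sum_le_sum_of_subset_of_nonneg (fun d hd => ?_) fun _ _ _ => abs_nonneg _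
    obtain ⟨n, hn, rfl⟩ := mem_image.1 hd
    obtain ⟨n1, n2⟩ := mem_filter.1 hn
    have n3 : (n : ℝ) ≤ Q ^ 14 := (Nat.le_floor_iff (by positivity)).1 n2
    refine mem_Icc.2 ⟨pow_pos (Nat.zero_lt_of_lt (mem_Ioo.1 n1).1) 2, Nat.le_floor ?_⟩
    rw [le_div_iff₀ (pow_pos h.ypos _)]
    refine le_trans (mul_le_mul_of_nonneg_right ?_ (pow_pos h.ypos _).le)
      (h.qy (a := 28) (by norm_num) (by norm_num))
    push_cast
    calc (n : ℝ) ^ 2 ≤ (Q ^ 14) ^ 2 := pow_le_pow_left₀ (Nat.cast_nonneg n) n3 2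
      _ = _ := by ring
  have h4 : ∑ n ∈ (Ioo ⌊Q ^ 3⌋₊ (XN Q + 1)).filter (fun n => n ≤ ⌊Q ^ 14⌋₊),
      ∑ j ∈ Icc 1 (XN Q), (a (n ^ 2 * j) + b (n ^ 2 * j)) ≤ E + 8 * Q ^ 23 := by
    refine (sum_le_sum (g := fun n => |Sj Q (fun k => a k - b k) (n ^ 2)| +
      4 * Q ^ 24 * ((n : ℝ) ^ 2)⁻¹) fun n hn => ?_).trans ?_
    · have a1 := nsq2_mult h (by positivity) hs.b1 hb
        (Nat.zero_lt_of_lt (mem_Ioo.1 (mem_filter.1 hn).1).1)
      have a2 : ∑ j ∈ Icc 1 (XN Q), (a (n ^ 2 * j) + b (n ^ 2 * j)) =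
          Sj Q (fun k => a k - b k) (n ^ 2) + 2 * ∑ j ∈ Icc 1 (XN Q), b (n ^ 2 * j) := by
        rw [Sj, mul_sum, ← sum_add_distrib]
        exact sum_congr rfl fun j _ => by ring
      have a3 : 2 / Q ^ 24 * Q ^ 48 = 2 * Q ^ 24 := by field_simp
      rw [a3] at a1
      linarith [le_abs_self (Sj Q (fun k => a k - b k) (n ^ 2))]
    · rw [sum_add_distrib, ← mul_sum]
      refine add_le_add h3 ((mul_le_mul_of_nonneg_left
        (nsq2_tail (pow_pos q0 3) (filter_subset _ _)) (by positivity)).trans ?_)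
      have a1 : 4 * Q ^ 24 * (2 / Q ^ 3) = 8 * Q ^ 21 := by field_simp; norm_num
      have a2 := h.qpow (show 21 ≤ 23 by norm_num)
      linarith
  have h5 : ∑ n ∈ (Ioo ⌊Q ^ 3⌋₊ (XN Q + 1)).filter (fun n => ¬ n ≤ ⌊Q ^ 14⌋₊),
      ∑ j ∈ Icc 1 (XN Q), (a (n ^ 2 * j) + b (n ^ 2 * j)) ≤ 4 * Q ^ 23 := by
    have a0 : ∀ k, a k + b k ≤ 2 / Q ^ 11 := fun k => by
      have a1 : 2 / Q ^ 24 ≤ 1 / Q ^ 11 := by
        rw [div_le_div_iff₀ (by positivity) (by positivity)]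
        have a2 := h.qpow (show 12 ≤ 24 by norm_num)
        nlinarith [h.q0, pow_pos q0 11, pow_succ Q 11]
      have a2 : 2 / Q ^ 11 = 1 / Q ^ 11 + 1 / Q ^ 11 := by ring
      linarith [hs.a1 k, hs.b1 k]
    refine (sum_le_sum fun n hn => nsq2_mult h (g := fun k => a k + b k) (by positivity) a0 hf
      (Nat.zero_lt_of_lt (mem_Ioo.1 (mem_filter.1 hn).1).1)).trans ?_
    rw [← mul_sum]
    refine (mul_le_mul_of_nonneg_left (nsq2_tail (pow_pos q0 14) (M := XN Q + 1) fun n hn => ?_)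
      (by positivity)).trans (le_of_eq ?_)
    · exact mem_Ioo.2 ⟨not_le.1 (mem_filter.1 hn).2, (mem_Ioo.1 (mem_filter.1 hn).1).2⟩
    · field_simp; norm_num
  linarith

end Pool.Agent.P.MP_8be758_nt.Sq
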