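import Pool.Agent.P.MP_8be758_nt.Sq.IfaceB

/-! Step PHB. -/

set_option autoImplicit false
set_option linter.unusedSectionVars false

namespace Pool.Agent.P.MP_8be758_nt.Sq

open Finset Real Filter Topology ArithmeticFunction
open Pool.Agent.P.MP_e86632_nt (ee nn)
open Pool.Agent.P.MP_8be758_nt.Avg (gs Rough)

theorem phb_sum {ι : Type*} [Fintype ι] {f : ι → ℝ} {a b N : ℝ} (ha : a ≤ 0) (hb : 0 ≤ b)
    (hN : (Fintype.card ι : ℝ) ≤ N) (h : ∀ i, a ≤ f i ∧ f i ≤ b) :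
    N * a ≤ ∑ i, f i ∧ ∑ i, f i ≤ N * b := by
  have h1 := card_nsmul_le_sum univ f a fun i _ => (h i).1
  have h2 := sum_le_card_nsmul univ f b fun i _ => (h i).2
  rw [nsmul_eq_mul, card_univ] at h1 h2
  constructor <;> nlinarith

theorem p_PHB :
    S_PHB := by
  intro s χ hs
  have c1 : (Fintype.card (Fin s) : ℝ) ≤ 12 := by rw [Fintype.card_fin]; exact_mod_cast hs
  have c2 : (Fintype.card (Finset (Fin s)) : ℝ) ≤ 4096 := by
    rw [Fintype.card_finset, Fintype.card_fin]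
    exact_mod_cast (Nat.pow_le_pow_right (by norm_num) hs).trans (by norm_num : 2 ^ 12 ≤ 4096)
  have m1 : 4096 * (-1) ≤ M1t χ ∧ M1t χ ≤ 4096 * 1 :=
    phb_sum (by norm_num) (by norm_num) c2 fun A => by
      split_ifs
      · rcases neg_one_pow_eq_or ℝ A.card with h | h <;> rw [h] <;> norm_num
      · norm_num
  have tc : 4096 * 0 ≤ TCt χ ∧ TCt χ ≤ 4096 * 1 :=
    phb_sum le_rfl (by norm_num) c2 fun A => by split_ifs <;> norm_num
  have n2 : 12 * (12 * 0) ≤ N2t χ ∧ N2t χ ≤ 12 * (12 * 1) :=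
    phb_sum (by norm_num) (by norm_num) c1 fun i =>
      phb_sum le_rfl (by norm_num) c1 fun j => by split_ifs <;> norm_num
  have n3 : 12 * (12 * (12 * 0)) ≤ N3t χ ∧ N3t χ ≤ 12 * (12 * (12 * 3)) :=
    phb_sum (by norm_num) (by norm_num) c1 fun i =>
      phb_sum (by norm_num) (by norm_num) c1 fun j =>
        phb_sum le_rfl (by norm_num) c1 fun l => by split_ifs <;> norm_num
  have n4 : 12 * (4096 * 0) ≤ N4t χ ∧ N4t χ ≤ 12 * (4096 * 1) :=
    phb_sum (by norm_num) (by norm_num) c1 fun i =>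
      phb_sum le_rfl (by norm_num) c2 fun A => by split_ifs <;> norm_num
  have nz : 4096 * 0 ≤ NZt χ ∧ NZt χ ≤ 4096 * 1 :=
    phb_sum le_rfl (by norm_num) c2 fun A => by split_ifs <;> norm_num
  have pr : -(4096 * 4096) ≤ TCt χ * M1t χ ∧ TCt χ * M1t χ ≤ 4096 * 4096 := by
    constructor <;> nlinarith [m1.1, m1.2, tc.1, tc.2]
  obtain ⟨m1, m2⟩ := m1
  obtain ⟨n2, n2'⟩ := n2
  obtain ⟨n3, n3'⟩ := n3
  obtain ⟨n4, n4'⟩ := n4
  obtain ⟨nz, nz'⟩ := nz
  obtain ⟨pr, pr'⟩ := pr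
  refine ⟨abs_le.2 ⟨?_, ?_⟩, fun h => ?_⟩
  · unfold Phi; linarith
  · unfold Phi; linarith
  · have h1 : 1 ≤ NZt χ := by
      obtain ⟨A, -, hA⟩ := exists_ne_zero_of_sum_ne_zero h
      refine le_trans ?_ (single_le_sum (fun B _ => by split_ifs <;> norm_num) (mem_univ A))
      split_ifs at hA ⊢
      · exact le_rfl
      · exact absurd rfl hA
    unfold Phi
    constructor <;> linarith

end Pool.Agent.P.MP_8be758_nt.Sq
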