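import Pool.Agent.P.MP_8be758_nt.Sq.IfaceB
import Pool.Agent.P.MP_e86632_nt.PNT

/-! Step PNT2. -/

set_option autoImplicit false
set_option linter.unusedSectionVars false

namespace Pool.Agent.P.MP_8be758_nt.Sq

open Finset Real Filter Topology ArithmeticFunction
open Pool.Agent.P.MP_e86632_nt (ee nn)
open Pool.Agent.P.MP_8be758_nt.Avg (gs Rough)

theorem pnt2_psi_nat : Tendsto (fun N : ℕ => Chebyshev.psi N / (N : ℝ)) atTop (𝓝 1) := by
  have h := Pool.Agent.P.MP_e86632_nt.pnt_ap 1 (1 : ZMod 1) isUnit_one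
  simp only [Nat.totient_one, Nat.cast_one, div_one] at h
  refine h.congr fun N => ?_
  rw [Chebyshev.psi_eq_sum_Icc, Nat.floor_natCast, Nat.range_succ_eq_Icc_zero]
  congr 1
  refine Finset.sum_congr rfl fun n _ => ?_
  rw [ArithmeticFunction.vonMangoldt.residueClass, Set.indicator_of_mem]
  exact Subsingleton.elim _ _

theorem pnt2_psi : Tendsto (fun X : ℝ => Chebyshev.psi X / X) atTop (𝓝 1) := by
  have h := (pnt2_psi_nat.comp (tendsto_nat_floor_atTop (α := ℝ))).mul
    (tendsto_nat_floor_div_atTop (R := ℝ))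
  rw [mul_one] at h
  refine h.congr' ?_
  filter_upwards [eventually_ge_atTop (1 : ℝ)] with X hX
  have : (⌊X⌋₊ : ℝ) ≠ 0 := by
    have := Nat.floor_pos.2 hX
    positivity
  simp only [Function.comp]
  rw [← Chebyshev.psi_eq_psi_coe_floor]
  field_simp

theorem pnt2_theta : Tendsto (fun X : ℝ => Chebyshev.theta X / X) atTop (𝓝 1) := by
  have h0 : (fun X : ℝ => Real.sqrt X) =o[atTop] fun X : ℝ => X := by
    refine (Asymptotics.isLittleO_iff_tendsto' ?_).2 ?_
    · filter_upwards with X hX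
      simp [hX]
    · simp only [Real.sqrt_div_self', one_div]
      exact Real.tendsto_sqrt_atTop.inv_tendsto_atTop
  have h1 := (Chebyshev.isBigO_psi_sub_theta_sqrt.trans_isLittleO h0).tendsto_div_nhds_zero
  have h := pnt2_psi.sub h1
  rw [sub_zero] at h
  refine h.congr fun X => ?_
  simp only [Pi.sub_apply]
  ring

theorem pnt2_diff {u v : ℝ} (h : u ≤ v) : Chebyshev.theta v - Chebyshev.theta u =
    ∑ p ∈ (Ioc ⌊u⌋₊ ⌊v⌋₊).filter Nat.Prime, Real.log p := by
  unfold Chebyshev.theta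
  rw [sum_filter, sum_filter, sum_filter,
    ← sum_Ioc_consecutive _ (Nat.zero_le ⌊u⌋₊) (Nat.floor_le_floor h)]
  ring

theorem p_PNT2 :
    S_PNT2 := by
  intro ε hε
  have hδ : 0 < ε / 3 := by positivity
  obtain ⟨x0, h0⟩ := eventually_atTop.1 ((Metric.tendsto_nhds.1 pnt2_theta) _ hδ)
  have hlog : Tendsto (fun y : ℝ => Real.log (y / 2)) atTop atTop :=
    Real.tendsto_log_atTop.comp (tendsto_id.atTop_div_const two_pos)
  filter_upwards [eventually_ge_atTop (2 * x0), eventually_ge_atTop (4 : ℝ),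
    hlog.eventually_ge_atTop (2 / (ε / 3))] with y h1 h2 h3 u v hu huv hv
  have key : ∀ x, y / 2 ≤ x → x ≤ y → |Chebyshev.theta x - x| ≤ ε / 3 * y := by
    intro x k1 k2
    have hx : 0 < x := by linarith
    have := h0 x (by linarith)
    rw [Real.dist_eq] at this
    have e : Chebyshev.theta x - x = (Chebyshev.theta x / x - 1) * x := by field_simp
    rw [e, abs_mul, abs_of_pos hx]
    exact mul_le_mul this.le k2 hx.le hδ.le
  have ku := abs_le.1 (key u hu (huv.trans hv))
  have kv := abs_le.1 (key v (hu.trans huv) hv)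
  have hd := pnt2_diff huv
  set T := (Ioc ⌊u⌋₊ ⌊v⌋₊).filter Nat.Prime
  have hT : ∀ p ∈ T, y / 2 ≤ (p : ℝ) ∧ (p : ℝ) ≤ y := fun p hp => by
    obtain ⟨a, b⟩ := mem_Ioc.1 (mem_filter.1 hp).1
    exact ⟨hu.trans ((Nat.floor_lt (by linarith)).1 a).le,
      ((Nat.le_floor_iff (by linarith)).1 b).trans hv⟩
  have hlo : T.card * Real.log (y / 2) ≤ ∑ p ∈ T, Real.log p := by
    rw [← nsmul_eq_mul]
    exact card_nsmul_le_sum _ _ _ fun p hp => Real.log_le_log (by linarith) (hT p hp).1
  have hup : ∑ p ∈ T, Real.log p ≤ T.card * Real.log y := by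
    rw [← nsmul_eq_mul]
    exact sum_le_card_nsmul _ _ _ fun p hp =>
      Real.log_le_log (by linarith [(hT p hp).1]) (hT p hp).2
  have l2 : Real.log 2 ≤ 1 := by linarith [Real.log_two_lt_d9]
  have l4 : Real.log 4 ≤ 2 := by
    rw [show (4 : ℝ) = 2 ^ 2 by norm_num, Real.log_pow]; push_cast; linarith
  have hn : (0 : ℝ) ≤ T.card := Nat.cast_nonneg _
  have hth : Chebyshev.theta v ≤ 2 * y :=
    (Chebyshev.theta_le_log4_mul_x (by linarith)).trans
      (mul_le_mul l4 hv (by linarith) zero_le_two)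
  have hc : (T.card : ℝ) ≤ ε / 3 * y := by
    have a1 : T.card * (2 / (ε / 3)) ≤ 2 * y := by
      have := mul_le_mul_of_nonneg_left h3 hn
      linarith [Chebyshev.theta_nonneg u]
    rw [← mul_div_assoc, div_le_iff₀ hδ] at a1
    linarith
  have hL : 0 < Real.log y := Real.log_pos (by linarith)
  rw [Real.log_div (by linarith) two_ne_zero] at hlo
  have hm := mul_le_mul_of_nonneg_left l2 hn
  have e : (T.card : ℝ) - (v - u) / Real.log y =
      (T.card * Real.log y - (v - u)) / Real.log y := by field_simp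
  rw [e, abs_div, abs_of_pos hL, ← mul_div_assoc]
  refine div_le_div_of_nonneg_right (abs_le.2 ⟨?_, ?_⟩) hL.le
  · nlinarith
  · nlinarith

end Pool.Agent.P.MP_8be758_nt.Sq
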