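import Pool.Agent.P.MP_8be758_nt.Sq.IfaceB
import Pool.Agent.P.MP_74dd9d_nt.Sieve2
import Pool.Agent.P.MP_74dd9d_nt.Mertens

/-! Step PPR. -/

set_option autoImplicit false
set_option linter.unusedSectionVars false

namespace Pool.Agent.P.MP_8be758_nt.Sq

open Finset Real Filter Topology ArithmeticFunction
open Pool.Agent.P.MP_e86632_nt (ee nn)
open Pool.Agent.P.MP_8be758_nt.Avg (gs Rough)

open Pool.Agent.P.MP_74dd9d_nt (ind sieve Pr SS mem_Pr mertens1 SS_lower)

lemma ppr_one {q : ℕ} (hq : 0 < q) (c : ℕ) : ∑ a ∈ range q, ind (q ∣ c + a) = 1 := by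
  have h0 : q ∣ c + c * (q - 1) % q := by
    refine (Nat.modEq_zero_iff_dvd).1 (((Nat.mod_modEq _ q).add_left c).trans
      (Nat.modEq_zero_iff_dvd.2 ⟨c, ?_⟩))
    obtain ⟨r, rfl⟩ := Nat.exists_eq_add_of_le' hq
    rw [Nat.add_sub_cancel]; ring
  rw [sum_eq_single_of_mem _ (mem_range.2 (Nat.mod_lt (c * (q - 1)) hq)) fun a ha hne => ?_]
  · exact if_pos h0
  · refine if_neg fun h => hne ?_
    exact Nat.ModEq.eq_of_lt_of_lt (Nat.ModEq.add_left_cancel' c
      ((Nat.modEq_zero_iff_dvd.2 h).trans (Nat.modEq_zero_iff_dvd.2 h0).symm))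
      (mem_range.1 ha) (Nat.mod_lt _ hq)

lemma ppr_two {q : ℕ} (hq : 0 < q) (y h : ℕ) :
    ∑ a ∈ range q, ind (q ∣ y + a ∨ q ∣ y + h + a) = if q ∣ h then 1 else 2 := by
  have e : ∀ a, y + h + a = y + a + h := fun a => by ring
  split_ifs with hh
  · rw [← ppr_one hq y]
    refine sum_congr rfl fun a _ => ?_
    rw [e, propext (Nat.dvd_add_left hh), or_self]
  · rw [← one_add_one_eq_two]
    nth_rewrite 1 [← ppr_one hq y]
    rw [← ppr_one hq (y + h), ← sum_add_distrib]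
    refine sum_congr rfl fun a _ => ?_
    by_cases h1 : q ∣ y + a
    · have h2 : ¬ q ∣ y + h + a := fun h2 => hh ((Nat.dvd_add_right h1).1 (e a ▸ h2))
      simp [ind, h1, h2]
    · simp [ind, h1]

lemma ppr_sig (t : ℝ) {h : ℕ} (hh : 1 ≤ h) :
    2 * SS t - 16 - ∑ q ∈ h.primeFactors, 1 / (q : ℝ) ≤
      ∑ q ∈ Pr t \ range 8, (if q ∣ h then (1 : ℝ) else 2) / q := by
  have h1 : SS t ≤ ∑ q ∈ Pr t \ range 8, 1 / (q : ℝ) + ∑ q ∈ range 8, 1 / (q : ℝ) := by
    rw [← sum_union sdiff_disjoint, sdiff_union_self_eq_union]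
    exact sum_le_sum_of_subset_of_nonneg subset_union_left fun _ _ _ => by positivity
  have h2 : ∑ q ∈ range 8, 1 / (q : ℝ) ≤ 8 := by norm_num [sum_range_succ]
  have h3 : ∑ q ∈ Pr t \ range 8, (if q ∣ h then 1 / (q : ℝ) else 0) ≤
      ∑ q ∈ h.primeFactors, 1 / (q : ℝ) := by
    rw [← sum_filter]
    refine sum_le_sum_of_subset_of_nonneg (fun q hq => ?_) fun _ _ _ => by positivity
    obtain ⟨a, b⟩ := mem_filter.1 hq
    exact Nat.mem_primeFactors.2 ⟨(mem_Pr.1 (mem_sdiff.1 a).1).2, b, by omega⟩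
  have h4 : ∑ q ∈ Pr t \ range 8, (if q ∣ h then (1 : ℝ) else 2) / q =
      2 * ∑ q ∈ Pr t \ range 8, 1 / (q : ℝ) -
        ∑ q ∈ Pr t \ range 8, (if q ∣ h then 1 / (q : ℝ) else 0) := by
    rw [mul_sum, ← sum_sub_distrib]
    exact sum_congr rfl fun q _ => by split_ifs <;> ring
  linarith

theorem p_PPR :
    S_PPR := by
  refine ⟨16 * 1280 ^ 2 * Real.exp 23 + 8 * (2 * Real.exp 4 + 1), by positivity,
    ⌈Real.exp 3840⌉₊, fun K y h hK hh => ?_⟩
  have hK1 : Real.exp 3840 ≤ K := Nat.ceil_le.1 hK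
  have hK0 : (0 : ℝ) < K := (Real.exp_pos _).trans_le hK1
  have hL : 3840 ≤ Real.log K := (Real.le_log_iff_exp_le hK0).2 hK1
  have hKe : (K : ℝ) = Real.exp (Real.log K) := (Real.exp_log hK0).symm
  set L := Real.log K with hLd
  set H := ∑ q ∈ h.primeFactors, 1 / (q : ℝ) with hH
  have hH0 : 1 ≤ Real.exp H := Real.one_le_exp (sum_nonneg fun _ _ => by positivity)
  set P2 := Pr (L / 640) \ range 8 with hP2
  have m2 : ∀ q ∈ P2, q.Prime ∧ 8 ≤ q ∧ (q : ℝ) ≤ Real.exp (L / 640) := fun q hq => by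
    obtain ⟨h1, h2⟩ := mem_sdiff.1 hq
    exact ⟨(mem_Pr.1 h1).2, by simpa using h2, (mem_Pr.1 h1).1⟩
  set T := (Icc 1 K).filter fun A => (y + A).Prime ∧ (y + h + A).Prime with hT
  set N := ⌊Real.exp (L / 640)⌋₊ with hN
  have key := sieve (P1 := ∅) (by simp) (fun q hq => (m2 q hq).1) (by simp)
    (T1 := 1) (T2 := L / 20) (by linarith) (by linarith)
    (fun q a _ => q ∣ y + a ∨ q ∣ y + h + a)
    (fun q a b => by simp only [← add_assoc, Nat.dvd_add_self_right]) (fun q a b => Iff.rfl)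
    (fun q => (if q ∣ h then 1 else 2) / q) (fun q => (if q ∣ h then 1 else 2) / q) (K + 1) 0 1
    (by simp) (fun q hq => ?_) (by simp) ?_ (by simp) (fun q hq i hi => ?_)
    ((T \ Icc 1 N) ×ˢ {0}) (fun z hz => ?_)
  rotate_left
  · refine ⟨by split_ifs <;> positivity, le_rfl,
      div_le_div_of_nonneg_right (by split_ifs <;> norm_num) (by positivity), (m2 q hq).2.1⟩
  · have := mertens1 (t := L / 640) (by linarith) (sdiff_subset (t := range 8))
    linarith
  · have hq0 : (0 : ℝ) < q := by exact_mod_cast (m2 q hq).1.pos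
    rw [ppr_two (m2 q hq).1.pos]
    field_simp
  · obtain ⟨a1, a2⟩ := mem_product.1 hz
    obtain ⟨a3, a4⟩ := mem_sdiff.1 a1
    obtain ⟨a5, a6, a7⟩ := mem_filter.1 a3
    rw [mem_singleton] at a2
    rw [mem_Icc] at a4 a5
    refine ⟨by omega, by omega, by omega, by simp, fun q hq h1 => ?_⟩
    obtain ⟨b1, -, b3⟩ := m2 q hq
    have b4 : q ≤ N := Nat.le_floor b3
    rcases h1 with h1 | h1
    · have := (Nat.prime_dvd_prime_iff_eq b1 a6).1 h1
      omega
    · have := (Nat.prime_dvd_prime_iff_eq b1 a7).1 h1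
      omega
  have s2 := ppr_sig (L / 640) hh
  rw [← hP2, ← hH] at s2
  generalize (∑ q ∈ P2, (if q ∣ h then (1 : ℝ) else 2) / q) = σ at key s2
  have hLp : 0 < L := by linarith
  have c1 : (T.card : ℝ) ≤ ((T \ Icc 1 N) ×ˢ ({0} : Finset ℕ)).card + Real.exp (L / 640) := by
    have h1 := card_le_card_sdiff_add_card (s := T) (t := Icc 1 N)
    rw [Nat.card_Icc, Nat.add_sub_cancel] at h1
    have h2 : (T.card : ℝ) ≤ (T \ Icc 1 N).card + N := by exact_mod_cast h1
    rw [card_product, card_singleton, mul_one]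
    linarith [Nat.floor_le (Real.exp_pos (L / 640)).le]
  have e1 : Real.exp (7 - σ) ≤ Real.exp 23 * Real.exp H * (1280 ^ 2 / L ^ 2) := by
    have h1 := SS_lower (L / 640)
    have h2 : Real.exp (7 - σ) * Real.exp (SS (L / 640)) ^ 2 ≤ Real.exp 23 * Real.exp H := by
      rw [← Real.exp_nat_mul, ← Real.exp_add, ← Real.exp_add]
      exact Real.exp_le_exp.2 (by push_cast; linarith)
    have h3 := mul_le_mul_of_nonneg_left (pow_le_pow_left₀ (by positivity) h1 2)
      (Real.exp_pos (7 - σ)).le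
    rw [← mul_div_assoc, le_div_iff₀ (by positivity)]
    linarith
  have e2 : Real.exp (L / 2) ≤ 8 * (K / L ^ 2) := by
    have h1 := Real.pow_div_factorial_le_exp (L / 2) (by positivity) 2
    have h2 : (K : ℝ) = Real.exp (L / 2) * Real.exp (L / 2) := by
      rw [← Real.exp_add, add_halves, ← hKe]
    rw [← mul_div_assoc, le_div_iff₀ (by positivity), h2]
    have h3 := mul_le_mul_of_nonneg_left h1 (Real.exp_pos (L / 2)).le
    norm_num [Nat.factorial] at h3
    linarith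
  have e3 : Real.exp (4 * 1 + 4 * (L / 20)) ≤ Real.exp 4 * Real.exp (L / 2) := by
    rw [← Real.exp_add]; exact Real.exp_le_exp.2 (by linarith)
  have e4 : Real.exp (L / 640) ≤ Real.exp (L / 2) := Real.exp_le_exp.2 (by linarith)
  have e5 : Real.exp (6 - ∑ q ∈ (∅ : Finset ℕ), (if q ∣ h then (1 : ℝ) else 2) / q - σ) ≤
      Real.exp (7 - σ) := Real.exp_le_exp.2 (by simp; norm_num)
  rw [show (4 * 1 + 3 - σ : ℝ) = 7 - σ by ring] at key
  have e6 : ((K + 1 : ℕ) : ℝ) ≤ 2 * K := by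
    push_cast; linarith [Real.add_one_le_exp (3840 : ℝ)]
  have e7 := mul_le_mul e6 e1 (Real.exp_pos _).le (by positivity)
  have e8 := mul_le_mul_of_nonneg_left e5 (Nat.cast_nonneg (K + 1))
  have e9 := mul_le_mul (mul_le_mul_of_nonneg_left e2
    (show 0 ≤ 2 * Real.exp 4 + 1 by positivity)) hH0 zero_le_one (by positivity)
  have e10 : 2 * K * (Real.exp 23 * Real.exp H * (1280 ^ 2 / L ^ 2)) =
      2 * 1280 ^ 2 * Real.exp 23 * (K / L ^ 2) * Real.exp H := by ring
  rw [Nat.cast_one] at key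
  nlinarith

end Pool.Agent.P.MP_8be758_nt.Sq
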