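import Pool.Agent.P.MP_8be758_nt.Sq.IfaceB

/-! Step PRM. -/

set_option autoImplicit false
set_option linter.unusedSectionVars false

namespace Pool.Agent.P.MP_8be758_nt.Sq

open Finset Real Filter Topology ArithmeticFunction
open Pool.Agent.P.MP_e86632_nt (ee nn)
open Pool.Agent.P.MP_8be758_nt.Avg (gs Rough)

theorem p_PRM :
    S_PRM := by
  intro Q Y τ p h hp hw
  have hq := h.q0
  have h47 : Q ^ 47 < p := by
    have h1 := hw.1
    have h2 : 0 < Q ^ 47 := pow_pos h.qpos _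
    have h3 : Q ^ 48 = Q ^ 47 * Q := pow_succ _ _
    nlinarith
  have hbig : ∀ k ≤ 47, Q ^ k < p := fun k hk => (h.qpow hk).trans_lt h47
  have hone : ∀ k, 1 ≤ k → 1 < Q ^ k := fun k hk => one_lt_pow₀ (by linarith) (by omega)
  have hA : ¬ (p : ℝ) < pA Q Y := not_lt.2 (h.pA_le.trans (hbig 13 (by norm_num)).le)
  have hA1 : (1 : ℝ) < pA Q Y := (hone 12 (by norm_num)).trans_le h.le_pA
  have hne : 1 ≠ p := hp.one_lt.ne
  have h1 : M1 Q Y p = 1 := by
    unfold M1
    rw [hp.divisors, sum_pair hne, if_neg hA, Nat.cast_one, if_pos hA1]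
    simp [mu]
  have h2 : MT Q Y p = 0 := by
    unfold MT
    refine sum_eq_zero fun x hx => if_neg ?_
    have h3 : x.1 ∣ p := Dvd.intro _ (Nat.mem_divisorsAntidiagonal.1 hx).1
    rcases (Nat.dvd_prime hp).1 h3 with h4 | h4 <;> rw [h4]
    · rw [Nat.cast_one]
      exact fun h5 => absurd h5.1 (not_le.2 (hone 14 (by norm_num)))
    · exact fun h5 => absurd h5.2 (not_lt.2 (hbig 34 (by norm_num)).le)
  have h3 : N2 Q Y p = 0 := by
    unfold N2
    rw [hp.primeFactors]
    simp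
  have h4 : N3 Q Y p = 0 := by
    unfold N3
    rw [hp.primeFactors]
    simp
  have h5 : N4 Q Y p = 0 := by
    unfold N4
    rw [hp.primeFactors, sum_singleton]
    exact sum_eq_zero fun d _ => if_neg fun h6 => hA h6.1
  have h6 : NZ Q Y p = 0 := by
    unfold NZ
    refine sum_eq_zero fun d hd => if_neg ?_
    rcases (Nat.dvd_prime hp).1 (Nat.dvd_of_mem_divisors hd) with h7 | h7 <;> rw [h7]
    · exact fun h8 => lt_irrefl _ h8.1
    · rintro ⟨-, h8 | h8 | h8⟩
      · exact absurd h8 (not_lt.2 (hbig 4 (by norm_num)).le)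
      · exact hA h8.2
      · have h9 := h.qy (a := 16) (b := 17) (k := 1) (by norm_num) (by norm_num)
        rw [pow_one] at h9
        exact absurd h8.2 (not_lt.2 (h9.trans (hbig 17 (by norm_num)).le))
  refine ⟨?_, ?_, ?_⟩
  · unfold gg
    rw [h1, h2, h3, h4, h5, h6]
    norm_num
  · intro r hr hrp
    rw [(Nat.prime_dvd_prime_iff_eq hr hp).1 hrp]
    exact h.pz_le.trans_lt (hbig 4 (by norm_num))
  · rintro ⟨d, hd, h7, h8⟩
    rcases (Nat.dvd_prime hp).1 (Nat.dvd_of_mem_divisors hd) with h9 | h9 <;> rw [h9] at h7 h8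
    · rw [Nat.cast_one] at h7
      exact absurd hA1 (not_lt.2 h7)
    · exact absurd (h8.trans_le h.pB_le) (not_lt.2 (hbig 16 (by norm_num)).le)

end Pool.Agent.P.MP_8be758_nt.Sq
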