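import Pool.Agent.P.MP_8be758_nt.Sq.IfaceE

/-! Step SG. -/

set_option autoImplicit false
set_option linter.unusedSectionVars false

namespace Pool.Agent.P.MP_8be758_nt.Sq

open Finset Real Filter Topology ArithmeticFunction
open Pool.Agent.P.MP_e86632_nt (ee nn)
open Pool.Agent.P.MP_8be758_nt.Avg (gs Rough)

theorem p_SG (hSG0 : S_SG0) (hSG1 : S_SG1) (hSG3 : S_SG3) (hSG4 : S_SG4) (hSG5 : S_SG5) :
    S_SG := by
  intro s x y h h2
  obtain ⟨e, a, b, c⟩ := hSG0 s x y h
  have h6 := hSG1 s x y h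
  rw [e]
  interval_cases s
  · linarith [hSG3.1 x y h]
  · linarith [hSG3.2.1 x y h]
  · linarith [hSG4 x y h]
  · linarith [hSG5 x y h]
  · linarith [hSG3.2.2 x y h]

end Pool.Agent.P.MP_8be758_nt.Sq
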