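import Pool.Agent.P.MP_8be758_nt.Sq.IfaceE

/-! Step SG1. -/

set_option autoImplicit false
set_option linter.unusedSectionVars false

namespace Pool.Agent.P.MP_8be758_nt.Sq

open Finset Real Filter Topology ArithmeticFunction
open Pool.Agent.P.MP_e86632_nt (ee nn)
open Pool.Agent.P.MP_8be758_nt.Avg (gs Rough)

theorem sg1_tri {s : ℕ} {x : Fin s → ℝ} {y : ℝ} (h : Cf x y) (a b c : Fin s) (h1 : a ≠ b)
    (h2 : a ≠ c) (h3 : b ≠ c) : 16 + y ≤ x a + x b + x c := by
  have := h.gap {a, b, c}
  rw [sum_insert (by simp [h1, h2]), sum_pair h3] at this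
  have := h.lo a; have := h.lo b; have := h.lo c; have := h.y0
  rcases ‹_ ∨ _› with h4 | h4 <;> linarith

theorem sg1_pair {s : ℕ} {x : Fin s → ℝ} {y : ℝ} (h : Cf x y) (a b : Fin s) (h1 : a ≠ b) :
    x a + x b < 12 - y ∨ 16 + y ≤ x a + x b := by
  have := h.gap {a, b}
  rwa [sum_pair h1] at this

theorem sg1_seven (x : Fin 7 → ℝ) (y : ℝ) (h : Cf x y) : False := by
  have t1 := h.tot1
  have t2 := h.tot2
  rw [Fin.sum_univ_seven] at t1 t2
  have y0 := h.y0
  have y1 := h.y1
  have m0 := h.mono (by decide : (0 : Fin 7) < 1)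
  have m1 := h.mono (by decide : (1 : Fin 7) < 2)
  have m2 := h.mono (by decide : (2 : Fin 7) < 3)
  have m3 := h.mono (by decide : (3 : Fin 7) < 4)
  have m4 := h.mono (by decide : (4 : Fin 7) < 5)
  have m5 := h.mono (by decide : (5 : Fin 7) < 6)
  have l0 := h.lo 0
  have b1 := sg1_tri h 0 1 2 (by decide) (by decide) (by decide)
  have g6 := h.gap {6}
  rw [sum_singleton] at g6
  rcases g6 with g6 | g6
  · rcases sg1_pair h 4 5 (by decide) with g | g
    · linarith
    · rcases sg1_pair h 3 6 (by decide) with g' | g' <;> linarith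
  · have b2 := sg1_tri h 3 4 5 (by decide) (by decide) (by decide)
    linarith

theorem sg1_eight (x : Fin 8 → ℝ) (y : ℝ) (h : Cf x y) : False := by
  have t1 := h.tot1
  have t2 := h.tot2
  rw [Fin.sum_univ_eight] at t1 t2
  have y0 := h.y0
  have m0 := h.mono (by decide : (0 : Fin 8) < 1)
  have m1 := h.mono (by decide : (1 : Fin 8) < 2)
  have m2 := h.mono (by decide : (2 : Fin 8) < 3)
  have m3 := h.mono (by decide : (3 : Fin 8) < 4)
  have m4 := h.mono (by decide : (4 : Fin 8) < 5)
  have m5 := h.mono (by decide : (5 : Fin 8) < 6)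
  have m6 := h.mono (by decide : (6 : Fin 8) < 7)
  have b1 := sg1_tri h 0 1 2 (by decide) (by decide) (by decide)
  have b2 := sg1_tri h 3 4 5 (by decide) (by decide) (by decide)
  rcases sg1_pair h 6 7 (by decide) with g | g <;> linarith

theorem p_SG1 :
    S_SG1 := by
  intro s x y h
  by_contra hs
  rcases (show s = 7 ∨ s = 8 ∨ 9 ≤ s by omega) with rfl | rfl | h9
  · exact sg1_seven x y h
  · exact sg1_eight x y h
  · let e : Fin 9 ↪ Fin s := Fin.castLEEmb h9
    have h1 : ∑ i : Fin 9, x (e i) ≤ ∑ i, x i := by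
      rw [← sum_map univ e x]
      exact sum_le_sum_of_subset_of_nonneg (subset_univ _) fun i _ _ => by linarith [h.lo i]
    rw [Fin.sum_univ_succ, Fin.sum_univ_eight] at h1
    have b1 := sg1_tri h (e 0) (e (Fin.succ 0)) (e (Fin.succ 1)) (e.injective.ne (by decide))
      (e.injective.ne (by decide)) (e.injective.ne (by decide))
    have b2 := sg1_tri h (e (Fin.succ 2)) (e (Fin.succ 3)) (e (Fin.succ 4))
      (e.injective.ne (by decide)) (e.injective.ne (by decide)) (e.injective.ne (by decide))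
    have b3 := sg1_tri h (e (Fin.succ 5)) (e (Fin.succ 6)) (e (Fin.succ 7))
      (e.injective.ne (by decide)) (e.injective.ne (by decide)) (e.injective.ne (by decide))
    linarith [h.tot2, h.y0]

end Pool.Agent.P.MP_8be758_nt.Sq
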