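import Pool.Agent.P.MP_8be758_nt.Sq.IfaceE

/-! Step SG3. -/

set_option autoImplicit false
set_option linter.unusedSectionVars false

namespace Pool.Agent.P.MP_8be758_nt.Sq

open Finset Real Filter Topology ArithmeticFunction
open Pool.Agent.P.MP_e86632_nt (ee nn)
open Pool.Agent.P.MP_8be758_nt.Avg (gs Rough)

/-- indicator of a small size -/
noncomputable def sg3_i (y a : ℝ) : ℝ := if a < 12 - y then 1 else 0

theorem sg3_i0 (y a : ℝ) : 0 ≤ sg3_i y a := by
  unfold sg3_i; split_ifs <;> norm_num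

theorem sg3_i1 (y a : ℝ) : sg3_i y a ≤ 1 := by
  unfold sg3_i; split_ifs <;> norm_num

theorem sg3_pos {y a : ℝ} (h : a < 12 - y) : sg3_i y a = 1 := if_pos h

theorem sg3_neg {y a : ℝ} (h : 12 - y ≤ a) : sg3_i y a = 0 := if_neg (not_lt.2 h)

theorem sg3_one {s : ℕ} {x : Fin s → ℝ} {y : ℝ} (h : Cf x y) (i : Fin s) :
    x i < 12 - y ∨ 16 + y ≤ x i := by
  simpa using h.gap {i}

theorem sg3_two {s : ℕ} {x : Fin s → ℝ} {y : ℝ} (h : Cf x y) (i j : Fin s) (hij : i ≠ j) :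
    x i + x j < 12 - y ∨ 16 + y ≤ x i + x j := by
  have := h.gap {i, j}
  rwa [Finset.sum_pair hij] at this

theorem sg3_s2 (x : Fin 2 → ℝ) (y : ℝ) (h : Cf x y) : F0 x y ≤ 0 := by
  have hK : Kc x y = sg3_i y (x 0) + sg3_i y (x 1) := by
    simp only [Kc, sg3_i, Fin.sum_univ_two]
  have hJ : Jc x y = sg3_i y (x 0 + x 1) := by
    simp only [Jc, sg3_i, Fin.sum_univ_two]
    simp
  have t1 := h.tot1
  have y1 := h.y1
  rw [Fin.sum_univ_two] at t1
  have hJ0 : sg3_i y (x 0 + x 1) = 0 := sg3_neg (by linarith)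
  unfold F0
  rw [hK, hJ, hJ0]
  unfold sg3_i
  split_ifs <;> norm_num

theorem sg3_s3 (x : Fin 3 → ℝ) (y : ℝ) (h : Cf x y) : F0 x y ≤ 0 := by
  have hK : Kc x y = sg3_i y (x 0) + sg3_i y (x 1) + sg3_i y (x 2) := by
    simp only [Kc, sg3_i, Fin.sum_univ_three]
  have hJ : Jc x y = sg3_i y (x 0 + x 1) + sg3_i y (x 0 + x 2) + sg3_i y (x 1 + x 2) := by
    simp only [Jc, sg3_i, Fin.sum_univ_three]
    simp
  have t1 := h.tot1
  have t2 := h.tot2
  have y0 := h.y0
  have y1 := h.y1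
  rw [Fin.sum_univ_three] at t1 t2
  have m01 : x 0 < x 1 := h.mono (by decide)
  have m12 : x 1 < x 2 := h.mono (by decide)
  have l0 := h.lo 0
  have b2 : 12 - y ≤ x 2 := by linarith
  have s0 : x 0 < 12 - y := by
    rcases sg3_one h 0 with h0 | h0
    · exact h0
    · linarith
  unfold F0
  rw [hK, hJ, sg3_pos s0, sg3_neg b2, sg3_neg (show 12 - y ≤ x 0 + x 2 by linarith),
    sg3_neg (show 12 - y ≤ x 1 + x 2 by linarith)]
  by_cases s1 : x 1 < 12 - y
  · rw [sg3_pos s1]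
    unfold sg3_i
    split_ifs <;> norm_num
  · rw [sg3_neg (not_lt.1 s1), sg3_neg (show 12 - y ≤ x 0 + x 1 by linarith [not_lt.1 s1])]
    norm_num

theorem sg3_s6 (x : Fin 6 → ℝ) (y : ℝ) (h : Cf x y) : F0 x y ≤ 0 := by
  have hK : Kc x y = sg3_i y (x 0) + sg3_i y (x 1) + sg3_i y (x 2) + sg3_i y (x 3) +
      sg3_i y (x 4) + sg3_i y (x 5) := by
    simp only [Kc, sg3_i, Fin.sum_univ_six]
  have hJ : Jc x y = (sg3_i y (x 0 + x 1) + sg3_i y (x 0 + x 2) + sg3_i y (x 0 + x 3) +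
      sg3_i y (x 0 + x 4) + sg3_i y (x 0 + x 5)) + (sg3_i y (x 1 + x 2) + sg3_i y (x 1 + x 3) +
      sg3_i y (x 1 + x 4) + sg3_i y (x 1 + x 5)) + (sg3_i y (x 2 + x 3) + sg3_i y (x 2 + x 4) +
      sg3_i y (x 2 + x 5)) + (sg3_i y (x 3 + x 4) + sg3_i y (x 3 + x 5)) + sg3_i y (x 4 + x 5) := by
    simp only [Jc, sg3_i, Fin.sum_univ_six]
    simp
  have t1 := h.tot1
  have t2 := h.tot2
  have y0 := h.y0
  have y1 := h.y1
  rw [Fin.sum_univ_six] at t1 t2
  have m01 : x 0 < x 1 := h.mono (by decide)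
  have m12 : x 1 < x 2 := h.mono (by decide)
  have m23 : x 2 < x 3 := h.mono (by decide)
  have m34 : x 3 < x 4 := h.mono (by decide)
  have m45 : x 4 < x 5 := h.mono (by decide)
  have l0 := h.lo 0
  have b5 : 16 + y ≤ x 5 := by
    rcases sg3_one h 5 with h5 | h5
    · exfalso
      rcases sg3_two h 0 5 (by decide) with a | a
      · linarith
      rcases sg3_two h 1 4 (by decide) with b | b
      · linarith
      rcases sg3_two h 2 3 (by decide) with c | c
      · linarith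
      · linarith
    · exact h5
  have b3 : 16 + y ≤ x 0 + x 1 + x 2 := by
    have := h.gap {0, 1, 2}
    rw [Finset.sum_insert (by decide), Finset.sum_pair (by decide)] at this
    rcases this with a | a <;> linarith
  have s4 : x 4 < 12 - y := by
    rcases sg3_one h 4 with a | a
    · exact a
    · linarith
  have hK5 : Kc x y = 5 := by
    rw [hK, sg3_pos s4, sg3_pos (show x 0 < 12 - y by linarith),
      sg3_pos (show x 1 < 12 - y by linarith), sg3_pos (show x 2 < 12 - y by linarith),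
      sg3_pos (show x 3 < 12 - y by linarith), sg3_neg (show 12 - y ≤ x 5 by linarith)]
    norm_num
  have hJu : Jc x y ≤ 15 := by
    rw [hJ]
    linarith [sg3_i1 y (x 0 + x 1), sg3_i1 y (x 0 + x 2), sg3_i1 y (x 0 + x 3),
      sg3_i1 y (x 0 + x 4), sg3_i1 y (x 0 + x 5), sg3_i1 y (x 1 + x 2), sg3_i1 y (x 1 + x 3),
      sg3_i1 y (x 1 + x 4), sg3_i1 y (x 1 + x 5), sg3_i1 y (x 2 + x 3), sg3_i1 y (x 2 + x 4),
      sg3_i1 y (x 2 + x 5), sg3_i1 y (x 3 + x 4), sg3_i1 y (x 3 + x 5), sg3_i1 y (x 4 + x 5)]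
  have hJl : 4 ≤ Jc x y := by
    rw [hJ]
    have z := sg3_i0 y
    rcases sg3_two h 0 4 (by decide) with a | a
    · rw [sg3_pos a, sg3_pos (show x 0 + x 1 < 12 - y by linarith),
        sg3_pos (show x 0 + x 2 < 12 - y by linarith), sg3_pos (show x 0 + x 3 < 12 - y by linarith)]
      linarith [z (x 0 + x 5), z (x 1 + x 2), z (x 1 + x 3), z (x 1 + x 4), z (x 1 + x 5),
        z (x 2 + x 3), z (x 2 + x 4), z (x 2 + x 5), z (x 3 + x 4), z (x 3 + x 5), z (x 4 + x 5)]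
    · have b : x 2 + x 3 < 12 - y := by
        rcases sg3_two h 2 3 (by decide) with c | c
        · exact c
        · linarith
      rw [sg3_pos b, sg3_pos (show x 0 + x 1 < 12 - y by linarith),
        sg3_pos (show x 0 + x 2 < 12 - y by linarith), sg3_pos (show x 0 + x 3 < 12 - y by linarith)]
      linarith [z (x 0 + x 4), z (x 0 + x 5), z (x 1 + x 2), z (x 1 + x 3), z (x 1 + x 4),
        z (x 1 + x 5), z (x 2 + x 4), z (x 2 + x 5), z (x 3 + x 4), z (x 3 + x 5), z (x 4 + x 5)]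
  unfold F0
  rw [hK5]
  apply mul_nonpos_of_nonneg_of_nonpos
  · linarith
  · norm_num
    linarith

theorem p_SG3 :
    S_SG3 :=
  ⟨sg3_s2, sg3_s3, sg3_s6⟩

end Pool.Agent.P.MP_8be758_nt.Sq
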