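import Pool.Agent.P.MP_8be758_nt.Sq.IfaceE

/-! Step SG4. -/

set_option autoImplicit false
set_option linter.unusedSectionVars false
set_option linter.unusedSimpArgs false

namespace Pool.Agent.P.MP_8be758_nt.Sq

open Finset Real Filter Topology ArithmeticFunction
open Pool.Agent.P.MP_e86632_nt (ee nn)
open Pool.Agent.P.MP_8be758_nt.Avg (gs Rough)

theorem p_SG4 :
    S_SG4 := by
  intro x y h
  have m1 : x 0 < x 1 := h.mono (by decide)
  have m2 : x 1 < x 2 := h.mono (by decide)
  have m3 : x 2 < x 3 := h.mono (by decide)
  have l0 := h.lo 0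
  have y0 := h.y0
  have y1 := h.y1
  have t1 := h.tot1
  have t2 := h.tot2
  rw [Fin.sum_univ_four] at t1 t2
  have g2 := h.gap {2}
  have g3 := h.gap {3}
  have g01 := h.gap {0, 1}
  have g02 := h.gap {0, 2}
  have g12 := h.gap {1, 2}
  rw [sum_singleton] at g2 g3
  rw [sum_pair (by decide)] at g01 g02 g12
  replace g3 : 16 + y ≤ x 3 := g3.resolve_left fun g => by linarith
  have a1 : ¬ x 3 < 12 - y := by linarith
  have a2 : ¬ x 3 < 12 + 100 * y := by linarith
  have a3 : ¬ x 0 + x 3 < 12 - y := by linarith
  have a4 : ¬ x 1 + x 3 < 12 - y := by linarith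
  have a5 : ¬ x 2 + x 3 < 12 - y := by linarith
  simp [F0, Kc, Jc, N2t, N3t, chl, tl, Fin.sum_univ_four, -ite_mul, -mul_ite, -sum_boole,
    a1, a2, a3, a4, a5]
  rcases g2 with g2 | g2
  · have b0 : x 0 < 12 - y := by linarith
    have b1 : x 1 < 12 - y := by linarith
    have b2 : x 1 < 12 + 100 * y := by linarith
    have b3 : x 2 < 12 + 100 * y := by linarith
    rcases g01 with g01 | g01
    · rcases g02 with g02 | g02
      · simp only [g2, b0, b1, g01, g02, if_true, if_false, true_and, and_true, false_and, and_self]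
        split_ifs <;> norm_num
      · have c1 : ¬ x 0 + x 2 < 12 - y := by linarith
        have c2 : ¬ x 1 + x 2 < 12 - y := by linarith
        have c3 : x 0 + x 1 < 18 - 200 * y := by linarith
        have c4 : 12 + 100 * y ≤ x 0 + x 2 := by linarith
        have c5 : x 0 + x 1 < 12 + 100 * y := by linarith
        simp only [g2, b0, b1, b3, g01, c1, c2, c3, c4, c5, if_true, if_false, true_and, and_true, false_and, and_self]
        split_ifs <;> norm_num
    · have c0 : ¬ x 0 + x 1 < 12 - y := by linarith
      have c1 : ¬ x 0 + x 2 < 12 - y := by linarith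
      have c2 : ¬ x 1 + x 2 < 12 - y := by linarith
      rcases le_or_gt 18 (x 0 + x 1 + 200 * y) with d | d
      · have d1 : 18 ≤ x 0 + x 2 + 200 * y := by linarith
        have d2 : 18 ≤ x 1 + x 2 + 200 * y := by linarith
        simp only [g2, b0, b1, b2, b3, c0, c1, c2, d, d1, d2, if_true, if_false, true_and, and_true, false_and, and_self]
        split_ifs <;> norm_num
      · have c3 : x 0 + x 1 < 18 - 200 * y := by linarith
        have c4 : 12 + 100 * y ≤ x 0 + x 2 := by linarith
        have c5 : ¬ x 0 + x 1 < 12 + 100 * y := by linarith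
        simp only [g2, b0, b1, b3, c0, c1, c2, c3, c4, c5, if_true, if_false, true_and, and_true, false_and, and_self]
        split_ifs <;> norm_num
  · replace g01 : x 0 + x 1 < 12 - y := g01.resolve_right fun g => by linarith
    have b0 : x 0 < 12 - y := by linarith
    have b1 : x 1 < 12 - y := by linarith
    have b2 : ¬ x 2 < 12 - y := by linarith
    have b3 : ¬ x 2 < 12 + 100 * y := by linarith
    have c1 : ¬ x 0 + x 2 < 12 - y := by linarith
    have c2 : ¬ x 1 + x 2 < 12 - y := by linarith
    simp only [g01, b0, b1, b2, b3, c1, c2, if_true, if_false, true_and, and_true, false_and, and_self]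
    split_ifs <;> norm_num

end Pool.Agent.P.MP_8be758_nt.Sq
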