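import Pool.Agent.P.MP_8be758_nt.Sq.IfaceE

/-! Step SG5. -/

set_option autoImplicit false
set_option linter.unusedSectionVars false

namespace Pool.Agent.P.MP_8be758_nt.Sq

open Finset Real Filter Topology ArithmeticFunction
open Pool.Agent.P.MP_e86632_nt (ee nn)
open Pool.Agent.P.MP_8be758_nt.Avg (gs Rough)

theorem sg5_low {ι : Type} [Fintype ι] (T : Finset ι) (F : ι → ℝ) (c : ℝ) (h0 : ∀ i, 0 ≤ F i)
    (h : ∀ i ∈ T, F i = c) : T.card * c ≤ ∑ i, F i := by
  rw [← nsmul_eq_mul, ← sum_const, ← sum_congr rfl h]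
  exact sum_le_sum_of_subset_of_nonneg (subset_univ _) fun i _ _ => h0 i

theorem sg5_chl {y : ℝ} {x : Fin 5 → ℝ} (A : Finset (Fin 5)) :
    (chl y x A 0 = true ↔ ∑ i ∈ A, x i < 12 + 100 * y) ∧
    (chl y x A 1 = true ↔ ∑ i ∈ A, x i < 18 - 200 * y) ∧
    (chl y x A 4 = true ↔ ∑ i ∈ A, x i < 21 + 301 * y) ∧
    (chl y x A 5 = true ↔ ∑ i ∈ A, x i < 27 - 300 * y) ∧
    (chl y x A 6 = true ↔ ∑ i ∈ A, x i < 30 + 201 * y) :=
  ⟨decide_eq_true_iff, decide_eq_true_iff, decide_eq_true_iff, decide_eq_true_iff,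
    decide_eq_true_iff⟩

theorem sg5_N2 {y : ℝ} {x : Fin 5 → ℝ} (h4 : ∀ i, x i < 12 + 100 * y) (T : Finset (Fin 5 × Fin 5))
    (h : ∀ p ∈ T, p.1 < p.2 ∧ 18 - 200 * y ≤ x p.1 + x p.2) : T.card * 1 ≤ N2t (chl y x) := by
  rw [N2t, ← Fintype.sum_prod_type']
  refine sg5_low T _ 1 (fun _ => by split_ifs <;> norm_num) fun p hp => if_pos ⟨(h p hp).1, ?_, ?_⟩
  · rw [(sg5_chl _).1, sum_singleton]; exact h4 _
  · rw [(sg5_chl _).2.1, sum_pair (h p hp).1.ne]; exact not_lt.2 (h p hp).2

theorem sg5_N3 {y : ℝ} {x : Fin 5 → ℝ} (h4 : ∀ i, x i < 12 + 100 * y)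
    (hp : ∀ i j, i < j → 12 + 100 * y ≤ x i + x j) (T : Finset (Fin 5 × Fin 5 × Fin 5))
    (h : ∀ p ∈ T, p.1 < p.2.1 ∧ p.2.1 < p.2.2 ∧ x p.1 + x p.2.1 < 18 - 200 * y) :
    T.card * 3 ≤ N3t (chl y x) := by
  rw [N3t]
  simp only [← Fintype.sum_prod_type']
  refine sg5_low T _ 3 (fun _ => by split_ifs <;> norm_num) fun p hT => ?_
  obtain ⟨a1, a2, a3⟩ := h p hT
  have b1 : chl y x {p.2.2} 0 = true := by rw [(sg5_chl _).1, sum_singleton]; exact h4 _
  have b2 : chl y x {p.1, p.2.1} 1 = true := by rw [(sg5_chl _).2.1, sum_pair a1.ne]; exact a3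
  have b3 : ¬ chl y x {p.1, p.2.2} 0 = true := by
    rw [(sg5_chl _).1, sum_pair (a1.trans a2).ne]; exact not_lt.2 (hp _ _ (a1.trans a2))
  have b4 : ¬ chl y x {p.1, p.2.1} 0 = true := by
    rw [(sg5_chl _).1, sum_pair a1.ne]; exact not_lt.2 (hp _ _ a1)
  exact (if_pos ⟨a1, a2, b1, b2, b3⟩).trans (if_neg b4)

theorem sg5_N4 {y : ℝ} {x : Fin 5 → ℝ} (y0 : 0 < y) (h4 : ∀ i, x i < 12 + 100 * y)
    (ht : ∑ i, x i ≤ 48) (hp : ∀ i j, i ≠ j → 18 - 200 * y ≤ x i + x j) : 30 ≤ N4t (chl y x) := by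
  have c2 : ∀ B : Finset (Fin 5), B.card = 2 → 18 - 200 * y ≤ ∑ i ∈ B, x i := fun B hB => by
    obtain ⟨i, j, hn, rfl⟩ := card_eq_two.1 hB
    rw [sum_pair hn]; exact hp i j hn
  have c3 : ∀ B : Finset (Fin 5), B.card = 3 → 27 - 300 * y ≤ ∑ i ∈ B, x i := fun B hB => by
    obtain ⟨i, j, l, h1, h2, h3, rfl⟩ := card_eq_three.1 hB
    rw [sum_insert (by simp [h1, h2]), sum_pair h3]
    linarith [hp i j h1, hp i l h2, hp j l h3]
  rw [N4t, show (30 : ℝ) = ∑ _i : Fin 5, (6 : ℝ) * 1 by norm_num]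
  refine sum_le_sum fun i _ => le_trans (le_of_eq ?_) (sg5_low (powersetCard 2 (univ.erase i)) _ 1
    (fun _ => by split_ifs <;> norm_num) fun A hA => ?_)
  · rw [card_powersetCard, card_erase_of_mem (mem_univ i), card_univ, Fintype.card_fin]
    norm_num [Nat.choose]
  · obtain ⟨a1, a2⟩ := mem_powersetCard.1 hA
    have a3 : i ∉ A := fun h => (mem_erase.1 (a1 h)).1 rfl
    have a4 : (insert i A).card = 3 := by rw [card_insert_of_notMem a3, a2]
    have a5 := c3 Aᶜ (by rw [card_compl, a2]; rfl)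
    have a6 := c2 (insert i A)ᶜ (by rw [card_compl, a4]; rfl)
    have a7 := sum_add_sum_compl A x
    have a8 := sum_add_sum_compl (insert i A) x
    refine if_pos ⟨a3, ?_, ?_, ?_, ?_, ?_⟩
    · rw [(sg5_chl _).1, sum_singleton]; exact h4 _
    · rw [(sg5_chl _).2.1]; exact not_lt.2 (c2 A a2)
    · rw [(sg5_chl _).2.2.1]; linarith
    · rw [(sg5_chl _).2.2.2.1]; exact not_lt.2 (c3 _ a4)
    · rw [(sg5_chl _).2.2.2.2]; linarith

theorem sg5_J {y : ℝ} {x : Fin 5 → ℝ} (T : Finset (Fin 5 × Fin 5))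
    (h : ∀ p ∈ T, p.1 < p.2 ∧ x p.1 + x p.2 < 12 - y) : T.card * 1 ≤ Jc x y := by
  rw [Jc, ← Fintype.sum_prod_type']
  exact sg5_low T _ 1 (fun _ => by split_ifs <;> norm_num) fun p hp => if_pos (h p hp)

theorem p_SG5 :
    S_SG5 := by
  intro x y h
  have y0 := h.y0
  have y1 := h.y1
  have m01 := h.mono (by decide : (0 : Fin 5) < 1)
  have m12 := h.mono (by decide : (1 : Fin 5) < 2)
  have m23 := h.mono (by decide : (2 : Fin 5) < 3)
  have m34 := h.mono (by decide : (3 : Fin 5) < 4)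
  have l0 := h.lo 0
  have t1 := h.tot1
  have t2 := h.tot2
  rw [Fin.sum_univ_five] at t1 t2
  have g1 : ∀ i, x i < 12 - y ∨ 16 + y ≤ x i := fun i => by simpa using h.gap {i}
  have g2 : ∀ i j, i ≠ j → x i + x j < 12 - y ∨ 16 + y ≤ x i + x j := fun i j hn => by
    simpa only [sum_pair hn] using h.gap {i, j}
  have n2 : 0 ≤ N2t (chl y x) := sum_nonneg fun _ _ => sum_nonneg fun _ _ => by
    split_ifs <;> norm_num
  have n3 : 0 ≤ N3t (chl y x) := sum_nonneg fun _ _ => sum_nonneg fun _ _ =>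
    sum_nonneg fun _ _ => by split_ifs <;> norm_num
  have n4 : 0 ≤ N4t (chl y x) := sum_nonneg fun _ _ => sum_nonneg fun _ _ => by
    split_ifs <;> norm_num
  rcases g1 4 with s4 | s4
  · have s01 : 16 + y ≤ x 0 + x 1 := (g2 0 1 (by decide)).resolve_left fun c => by linarith
    have hp : ∀ i j : Fin 5, i < j → x 0 + x 1 ≤ x i + x j := fun i j hij =>
      add_le_add (h.mono.monotone (Fin.zero_le i)) (h.mono.monotone (by omega))
    have h4 : ∀ i, x i < 12 - y := fun i => (h.mono.monotone (Fin.le_last i)).trans_lt s4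
    have h4' : ∀ i, x i < 12 + 100 * y := fun i => by linarith [h4 i]
    have hp' : ∀ i j : Fin 5, i < j → 12 + 100 * y ≤ x i + x j := fun i j hij => by
      linarith [hp i j hij]
    have eK : Kc x y = 5 := by simp [Kc, h4]
    have eJ : Jc x y = 0 := sum_eq_zero fun i _ => sum_eq_zero fun j _ =>
      if_neg fun c => by linarith [hp i j c.1, c.2]
    have eF : F0 x y = 36 := by rw [F0, eK, eJ]; norm_num
    rw [eF]
    rcases le_or_gt (18 - 200 * y) (x 0 + x 1) with c1 | c1
    · have a1 := sg5_N2 h4' (univ.filter fun p => p.1 < p.2) fun p hT =>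
        ⟨(mem_filter.1 hT).2, c1.trans (hp _ _ (mem_filter.1 hT).2)⟩
      rw [show (univ.filter fun p : Fin 5 × Fin 5 => p.1 < p.2).card = 10 by decide] at a1
      have a2 := sg5_N4 y0 h4' h.tot2 fun i j hn => by
        rcases lt_or_gt_of_ne hn with c | c <;> linarith [hp _ _ c]
      push_cast at a1
      linarith
    rcases le_or_gt (18 - 200 * y) (x 0 + x 2) with c2 | c2
    · have a1 := sg5_N2 h4' {(0, 2), (0, 3), (0, 4), (1, 2), (1, 3), (1, 4), (2, 3), (2, 4), (3, 4)}
        (by simp only [mem_insert, mem_singleton, forall_eq_or_imp, forall_eq]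
            refine ⟨?_, ?_, ?_, ?_, ?_, ?_, ?_, ?_, ?_⟩ <;> exact ⟨by decide, by linarith⟩)
      have a2 := sg5_N3 h4' hp' {(0, 1, 2), (0, 1, 3), (0, 1, 4)}
        (by simp only [mem_insert, mem_singleton, forall_eq_or_imp, forall_eq]
            refine ⟨?_, ?_, ?_⟩ <;> exact ⟨by decide, by decide, by linarith⟩)
      rw [show Finset.card _ = 9 by decide] at a1
      rw [show Finset.card _ = 3 by decide] at a2
      push_cast at a1 a2
      linarith
    rcases le_or_gt (18 - 200 * y) (x 1 + x 2) with c3 | c3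
    · have a1 := sg5_N2 h4' {(1, 2), (1, 3), (1, 4)}
        (by simp only [mem_insert, mem_singleton, forall_eq_or_imp, forall_eq]
            refine ⟨?_, ?_, ?_⟩ <;> exact ⟨by decide, by linarith⟩)
      have a2 := sg5_N3 h4' hp' {(0, 1, 2), (0, 1, 3), (0, 1, 4), (0, 2, 3), (0, 2, 4)}
        (by simp only [mem_insert, mem_singleton, forall_eq_or_imp, forall_eq]
            refine ⟨?_, ?_, ?_, ?_, ?_⟩ <;> exact ⟨by decide, by decide, by linarith⟩)
      rw [show Finset.card _ = 3 by decide] at a1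
      rw [show Finset.card _ = 5 by decide] at a2
      push_cast at a1 a2
      linarith
    · have a2 := sg5_N3 h4' hp'
        {(0, 1, 2), (0, 1, 3), (0, 1, 4), (0, 2, 3), (0, 2, 4), (1, 2, 3), (1, 2, 4)}
        (by simp only [mem_insert, mem_singleton, forall_eq_or_imp, forall_eq]
            refine ⟨?_, ?_, ?_, ?_, ?_, ?_, ?_⟩ <;> exact ⟨by decide, by decide, by linarith⟩)
      rw [show Finset.card _ = 7 by decide] at a2
      push_cast at a2
      linarith
  · have g3 : 16 + y ≤ x 0 + x 1 + x 2 := by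
      have := h.gap {0, 1, 2}
      rw [sum_insert (by decide), sum_pair (by decide)] at this
      rcases this with c | c <;> linarith
    have s3 : x 3 < 12 - y := (g1 3).resolve_right fun c => by linarith
    have eK : Kc x y = 4 := by
      rw [Kc, Fin.sum_univ_five, if_pos s3, if_neg (by linarith : ¬ x 4 < 12 - y),
        if_pos (by linarith), if_pos (by linarith), if_pos (by linarith)]
      norm_num
    have j1 : Jc x y ≤ 10 := by
      refine le_trans (sum_le_sum fun i _ => sum_le_sum fun j _ =>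
        (?_ : _ ≤ if i < j then (1 : ℝ) else 0)) ?_
      · by_cases c : i < j
        · rw [if_pos c]; split_ifs <;> norm_num
        · rw [if_neg c, if_neg fun d => c d.1]
      · rw [← Fintype.sum_prod_type', sum_boole,
          show (univ.filter fun p : Fin 5 × Fin 5 => p.1 < p.2).card = 10 by decide]
        norm_num
    have j2 : 3 ≤ Jc x y := by
      rcases g2 0 3 (by decide) with c | c
      · have a1 := sg5_J (x := x) (y := y) {(0, 1), (0, 2), (0, 3)}
          (by simp only [mem_insert, mem_singleton, forall_eq_or_imp, forall_eq]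
              refine ⟨?_, ?_, ?_⟩ <;> exact ⟨by decide, by linarith⟩)
        rw [show Finset.card _ = 3 by decide] at a1
        push_cast at a1
        linarith
      · have c' : x 1 + x 2 < 12 - y := (g2 1 2 (by decide)).resolve_right fun d => by linarith
        have a1 := sg5_J (x := x) (y := y) {(0, 1), (0, 2), (1, 2)}
          (by simp only [mem_insert, mem_singleton, forall_eq_or_imp, forall_eq]
              refine ⟨?_, ?_, ?_⟩ <;> exact ⟨by decide, by linarith⟩)
        rw [show Finset.card _ = 3 by decide] at a1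
        push_cast at a1
        linarith
    have : F0 x y ≤ 0 := by
      rw [F0, eK]
      exact mul_nonpos_of_nonneg_of_nonpos (by linarith) (by norm_num; linarith)
    linarith

end Pool.Agent.P.MP_8be758_nt.Sq
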