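import Pool.Agent.P.MP_8be758_nt.Sq.IfaceB

/-! Step SGG. -/

set_option autoImplicit false
set_option linter.unusedSectionVars false

namespace Pool.Agent.P.MP_8be758_nt.Sq

open Finset Real Filter Topology ArithmeticFunction
open Pool.Agent.P.MP_e86632_nt (ee nn)
open Pool.Agent.P.MP_8be758_nt.Avg (gs Rough)

theorem p_SGG (hEX : S_EX) (hBR : S_BR) (hLOG : S_LOG) (hPHB : S_PHB) (hSGN0 : S_SGN0) :
    S_SGG := by
  intro Q Y τ k hS hW hq hr hg hp
  obtain ⟨s, hs, p, ht, rfl⟩ := hEX Q Y τ k hS hq hr hW.2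
  obtain ⟨h1, h2, -⟩ := hBR Q Y s p ht
  have hs2 : 2 ≤ s := by
    by_contra hc
    obtain rfl | rfl : s = 0 ∨ s = 1 := by omega
    · have h3 := hW.1
      have h4 : (1000 : ℝ) ≤ Q :=
        hS.y0.trans ((le_self_pow₀ (by linarith [hS.y0]) (by norm_num)).trans hS.q1)
      have h5 : Q ≤ Q ^ 48 := le_self_pow₀ (by linarith) (by norm_num)
      simp only [univ_eq_empty, prod_empty, Nat.cast_one] at h3
      linarith
    · exact hp (by simpa using ht.2 0)
  rw [h1]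
  by_cases h0 : NZt (chi Q Y p) = 0
  · obtain ⟨h3, h4⟩ := hLOG Q Y τ s p hS ht
    rw [h3]
    exact hSGN0 s _ _ (h4 hW hg (h2.trans h0)) hs2
  · exact ((hPHB s _ hs).2 h0).1

end Pool.Agent.P.MP_8be758_nt.Sq
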