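import Pool.Agent.P.MP_8be758_nt.Sq.IfaceB

/-! Step SPL. -/

set_option autoImplicit false
set_option linter.unusedSectionVars false

namespace Pool.Agent.P.MP_8be758_nt.Sq

open Finset Real Filter Topology ArithmeticFunction
open Pool.Agent.P.MP_e86632_nt (ee nn)
open Pool.Agent.P.MP_8be758_nt.Avg (gs Rough)

theorem spl_mul {X d : ℕ} {g : ℕ → ℝ} (hg : ∀ j, X < j → g j = 0) (hd : 1 ≤ d) :
    ∑ k ∈ Icc 1 X, (if d ∣ k then g k else 0) = ∑ j ∈ Icc 1 X, g (d * j) := by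
  rw [← sum_filter, ← sum_filter_of_ne (s := Icc 1 X) (p := fun j => d * j ≤ X)
    (f := fun j => g (d * j)) fun j _ h => not_lt.1 fun c => h (hg _ c)]
  symm
  refine sum_bij (fun j _ => d * j) (fun j hj => ?_)
    (fun a _ b _ e => Nat.eq_of_mul_eq_mul_left hd e) (fun k hk => ?_) fun _ _ => rfl
  · simp only [mem_filter, mem_Icc] at hj ⊢
    exact ⟨⟨Nat.mul_pos hd hj.1.1, hj.2⟩, dvd_mul_right _ _⟩
  · simp only [mem_filter, mem_Icc] at hk ⊢
    obtain ⟨⟨h1, h2⟩, j, rfl⟩ := hk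
    exact ⟨j, ⟨⟨Nat.pos_of_mul_pos_left h1, (Nat.le_mul_of_pos_left j hd).trans h2⟩, h2⟩, rfl⟩

theorem spl_ext {X k : ℕ} (hk : k ∈ Icc 1 X) {F : ℕ → ℝ} (h : ∀ e, ¬ e ∣ k → F e = 0) :
    ∑ e ∈ k.divisors, F e = ∑ e ∈ Icc 1 X, F e := by
  obtain ⟨h1, h2⟩ := mem_Icc.1 hk
  exact sum_subset (fun e he => mem_Icc.2 ⟨Nat.pos_of_mem_divisors he,
    (Nat.divisor_le he).trans h2⟩) fun e _ he => h e fun c => he (Nat.mem_divisors.2 ⟨c, by omega⟩)

theorem p_SPL (hSPL0 : S_SPL0) :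
    S_SPL := by
  intro z A r X g hr hA hg
  have h1 : ∀ k ∈ Icc 1 X, rh z k * g k =
      ∑ e ∈ Icc 1 X, (if Smo z e ∧ ((r * e : ℕ) : ℝ) < A then mu e else 0) *
        (if e ∣ k then g k else 0) -
      ∑ e1 ∈ Icc 1 X, ∑ p ∈ Icc 1 X, ∑ e2 ∈ Icc 1 X,
        (if Crs z A r e1 p ∧ gp e2 < p then mu e1 * mu e2 else 0) *
          (if e1 * p * e2 ∣ k then g k else 0) := fun k hk => by
    rw [hSPL0 z A r k hr hA (mem_Icc.1 hk).1, sub_mul,
      ← spl_ext hk fun e he => by rw [if_neg he, mul_zero], sum_mul]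
    congr 1
    · exact sum_congr rfl fun e he => by rw [if_pos (Nat.dvd_of_mem_divisors he)]
    rw [← spl_ext hk fun e he => sum_eq_zero fun p _ => sum_eq_zero fun e2 _ => by
      rw [if_neg (c := _ ∣ k) fun c => he (((dvd_mul_right _ _).mul_right _).trans c), mul_zero],
      sum_mul]
    refine sum_congr rfl fun e1 _ => ?_
    rw [← spl_ext hk fun p he => sum_eq_zero fun e2 _ => by
      rw [if_neg (c := _ ∣ k) fun c => he (((dvd_mul_left _ _).mul_right _).trans c), mul_zero],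
      sum_mul]
    refine sum_congr rfl fun p _ => ?_
    rw [← spl_ext hk fun e2 he => by
      rw [if_neg (c := _ ∣ k) fun c => he ((dvd_mul_left _ _).trans c), mul_zero], sum_mul]
    refine sum_congr rfl fun e2 _ => ?_
    by_cases c : e1 * p * e2 ∣ k <;> simp [c]
  rw [sum_congr rfl h1, sum_sub_distrib]
  congr 1
  · rw [sum_comm, E0, sum_filter]
    refine sum_congr rfl fun e he => ?_
    rw [← mul_sum, spl_mul hg (mem_Icc.1 he).1, ite_mul, zero_mul]
  · rw [sum_comm, E1, sum_filter, sum_product]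
    refine sum_congr rfl fun e1 h1 => ?_
    rw [sum_comm]
    refine sum_congr rfl fun p h2 => ?_
    rw [sum_comm]
    by_cases c : Crs z A r e1 p
    · rw [if_pos c]
      refine sum_congr rfl fun e2 h3 => ?_
      rw [← mul_sum, ← mul_sum, spl_mul hg (Nat.mul_pos (Nat.mul_pos (mem_Icc.1 h1).1
        (mem_Icc.1 h2).1) (mem_Icc.1 h3).1)]
      simp only [c, true_and]
    · simp [c]

end Pool.Agent.P.MP_8be758_nt.Sq
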