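import Pool.Agent.P.MP_8be758_nt.Sq.IfaceB

/-! Step SPL0. -/

set_option autoImplicit false
set_option linter.unusedSectionVars false

namespace Pool.Agent.P.MP_8be758_nt.Sq

open Finset Real Filter Topology ArithmeticFunction
open Pool.Agent.P.MP_e86632_nt (ee nn)
open Pool.Agent.P.MP_8be758_nt.Avg (gs Rough)

theorem spl0_rh (z : ℝ) (j : ℕ) (hj : 1 ≤ j) :
    rh z j = ∑ e ∈ j.divisors with Smo z e, mu e := by
  obtain ⟨m, hm⟩ : ∃ m, m = (j.divisors.filter (Smo z)).lcm id := ⟨_, rfl⟩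
  have h1 : m ∣ j := hm ▸ Finset.lcm_dvd fun b hb => Nat.dvd_of_mem_divisors (mem_filter.1 hb).1
  have h2 : Smo z m := fun p hp hd => by
    have h3 : m ∣ ∏ b ∈ j.divisors.filter (Smo z), b :=
      hm ▸ Finset.lcm_dvd fun b hb => dvd_prod_of_mem _ hb
    obtain ⟨b, hb, h⟩ := (Prime.dvd_finsetProd_iff hp.prime _).1 (hd.trans h3)
    exact (mem_filter.1 hb).2 p hp h
  have h0 : m ≠ 0 := fun h => by rw [h, zero_dvd_iff] at h1; omega
  have h4 : ∀ e, e ∣ j → Smo z e → e ∣ m := fun e a b =>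
    hm ▸ Finset.dvd_lcm (f := id) (mem_filter.2 ⟨Nat.mem_divisors.2 ⟨a, by omega⟩, b⟩)
  have e1 : j.divisors.filter (Smo z) = m.divisors := by
    ext e
    rw [mem_filter, Nat.mem_divisors, Nat.mem_divisors]
    exact ⟨fun h => ⟨h4 e h.1.1 h.2, h0⟩,
      fun h => ⟨⟨h.1.trans h1, by omega⟩, fun p hp hd => h2 p hp (hd.trans h.1)⟩⟩
  have e2 : ∑ e ∈ m.divisors, moebius e = if m = 1 then 1 else 0 := by
    rw [← coe_mul_zeta_apply, moebius_mul_coe_zeta, one_apply]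
  have e3 : Rough z j ↔ m = 1 := by
    constructor
    · intro h
      by_contra hne
      have hp := Nat.minFac_prime hne
      exact absurd (h2 _ hp (Nat.minFac_dvd m)) (not_le.2 (h _ hp ((Nat.minFac_dvd m).trans h1)))
    · intro h p hp hd
      by_contra hne
      have := h4 p hd fun q hq hqp => by
        rw [(Nat.prime_dvd_prime_iff_eq hq hp).1 hqp]; exact not_lt.1 hne
      rw [h, Nat.dvd_one] at this
      exact hp.ne_one this
  rw [e1, rh]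
  simp only [mu, e3]
  rw [← Int.cast_sum, e2]
  split_ifs <;> simp

theorem spl0_ex (A : ℝ) (r : ℕ) (hr : (r : ℝ) < A) (e : ℕ) : Squarefree e →
    A ≤ ((r * e : ℕ) : ℝ) → ∃ e1 p e2 : ℕ, e = e1 * p * e2 ∧ p.Prime ∧
      (∀ q : ℕ, q.Prime → q ∣ e1 → p < q) ∧ (∀ q : ℕ, q.Prime → q ∣ e2 → q < p) ∧
      ((r * e1 : ℕ) : ℝ) < A ∧ A ≤ ((r * e1 * p : ℕ) : ℝ) := by
  induction e using Nat.strong_induction_on with
  | _ e ih =>
    intro hs hA
    have hne : e ≠ 1 := fun h => by rw [h, mul_one] at hA; linarith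
    have hp := Nat.minFac_prime hne
    obtain ⟨f, hf⟩ := Nat.minFac_dvd e
    have hlt : ∀ q : ℕ, q.Prime → q ∣ f → e.minFac < q := fun q hq hd => by
      refine lt_of_le_of_ne (Nat.minFac_le_of_dvd hq.two_le (hf ▸ hd.mul_left _)) fun h => ?_
      exact hp.one_lt.ne' (Nat.isUnit_iff.1 (hs e.minFac (by
        conv_rhs => rw [hf]
        exact mul_dvd_mul_left _ (h ▸ hd))))
    generalize e.minFac = p at hp hf hlt
    subst hf
    by_cases h : ((r * f : ℕ) : ℝ) < A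
    · exact ⟨f, p, 1, by ring, hp, hlt, fun q hq hd => absurd (Nat.dvd_one.1 hd) hq.ne_one, h,
        by rwa [mul_assoc, mul_comm f]⟩
    · have f0 : 0 < f := Nat.pos_of_ne_zero fun h0 => hs.ne_zero (by rw [h0, mul_zero])
      obtain ⟨e1, p', e2, rfl, a1, a2, a3, a4⟩ := ih f (lt_mul_of_one_lt_left f0 hp.one_lt)
        (hs.squarefree_of_dvd (Dvd.intro_left _ rfl)) (not_lt.1 h)
      refine ⟨e1, p', p * e2, by ring, a1, a2, fun q hq hd => ?_, a4⟩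
      rcases (Nat.Prime.dvd_mul hq).1 hd with h1 | h1
      · rw [(Nat.prime_dvd_prime_iff_eq hq hp).1 h1]
        exact hlt p' a1 ((Dvd.intro_left _ rfl : p' ∣ e1 * p').mul_right _)
      · exact a3 q hq h1

theorem spl0_cop {a b t : ℕ} (ha : ∀ q : ℕ, q.Prime → q ∣ a → t ≤ q)
    (hb : ∀ q : ℕ, q.Prime → q ∣ b → q < t) : a.Coprime b :=
  Nat.coprime_of_dvd fun q hq h1 h2 => absurd (ha q hq h1) (not_le.2 (hb q hq h2))

theorem spl0_up {a p : ℕ} (hp : p.Prime) (ha : ∀ q : ℕ, q.Prime → q ∣ a → p < q) :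
    ∀ q : ℕ, q.Prime → q ∣ a * p → p ≤ q := fun q hq hd =>
  ((Nat.Prime.dvd_mul hq).1 hd).elim (fun h => (ha q hq h).le)
    fun h => ((Nat.prime_dvd_prime_iff_eq hq hp).1 h).ge

theorem spl0_lo {b p : ℕ} (hp : p.Prime) (hb : ∀ q : ℕ, q.Prime → q ∣ b → q < p) :
    ∀ q : ℕ, q.Prime → q ∣ p * b → q < p + 1 := fun q hq hd =>
  ((Nat.Prime.dvd_mul hq).1 hd).elim
    (fun h => Nat.lt_succ_of_le ((Nat.prime_dvd_prime_iff_eq hq hp).1 h).le)
    fun h => (hb q hq h).trans (Nat.lt_succ_self _)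

theorem spl0_le {z A : ℝ} {r a p b a' p' b' : ℕ} (c : Crs z A r a p) (c' : Crs z A r a' p')
    (hb : ∀ q : ℕ, q.Prime → q ∣ b → q < p) (h : a * p * b = a' * p' * b') (a0 : 0 < a) :
    p' ≤ p := by
  by_contra hlt
  have h1 : (a' * p').Coprime (p * b) := spl0_cop (spl0_up c'.1 c'.2.2.2.1)
    fun q hq hd => (spl0_lo c.1 hb q hq hd).trans_le (not_le.1 hlt)
  have h2 : a' * p' ∣ a := h1.dvd_of_dvd_mul_right ⟨b', by rw [← mul_assoc, h]⟩
  have h3 : r * a' * p' ≤ r * a := by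
    rw [mul_assoc]; exact Nat.mul_le_mul_left _ (Nat.le_of_dvd a0 h2)
  have h4 : ((r * a' * p' : ℕ) : ℝ) ≤ ((r * a : ℕ) : ℝ) := by exact_mod_cast h3
  linarith [c.2.2.2.2.1, c'.2.2.2.2.2]

theorem p_SPL0 :
    S_SPL0 := by
  intro z A r j hr hA hj
  have key : ∑ x ∈ (j.divisors ×ˢ j.divisors ×ˢ j.divisors) with
      (x.1 * x.2.1 * x.2.2 ∣ j ∧ Crs z A r x.1 x.2.1 ∧ gp x.2.2 < x.2.1), mu x.1 * mu x.2.2 =
      ∑ e ∈ j.divisors with (Smo z e ∧ ¬ ((r * e : ℕ) : ℝ) < A), - mu e := by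
    have hx : ∀ x ∈ (j.divisors ×ˢ j.divisors ×ˢ j.divisors).filter fun x =>
        (x.1 * x.2.1 * x.2.2 ∣ j ∧ Crs z A r x.1 x.2.1 ∧ gp x.2.2 < x.2.1),
        0 < x.1 ∧ 0 < x.2.2 ∧ x.1 * x.2.1 * x.2.2 ∣ j ∧ Crs z A r x.1 x.2.1 ∧
          ∀ q : ℕ, q.Prime → q ∣ x.2.2 → q < x.2.1 := fun x h => by
      obtain ⟨h1, h2, h3, h4⟩ := mem_filter.1 h
      have b0 := Nat.pos_of_mem_divisors (mem_product.1 (mem_product.1 h1).2).2
      exact ⟨Nat.pos_of_mem_divisors (mem_product.1 h1).1, b0, h2, h3,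
        (gp_lt_iff b0.ne' h3.1.pos).1 h4⟩
    refine sum_of_injOn (fun x : ℕ × ℕ × ℕ => x.1 * x.2.1 * x.2.2) ?_ ?_ ?_ ?_
    · rintro ⟨a, p, b⟩ h ⟨a', p', b'⟩ h' (e : a * p * b = a' * p' * b')
      obtain ⟨a0, -, -, c, hb⟩ := hx _ h
      obtain ⟨a0', -, -, c', hb'⟩ := hx _ h'
      obtain rfl : p = p' := le_antisymm (spl0_le c' c hb' e.symm a0') (spl0_le c c' hb e a0)
      have e' : a * b = a' * b' := Nat.eq_of_mul_eq_mul_left c.1.pos (by linear_combination e)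
      obtain rfl : a = a' := Nat.dvd_antisymm
        ((spl0_cop (fun q h1 h2 => (c.2.2.2.1 q h1 h2).le) hb').dvd_of_dvd_mul_right ⟨b, e'.symm⟩)
        ((spl0_cop (fun q h1 h2 => (c'.2.2.2.1 q h1 h2).le) hb).dvd_of_dvd_mul_right ⟨b', e'⟩)
      rw [Nat.eq_of_mul_eq_mul_left a0 e']
    · intro x h
      obtain ⟨-, b0, h2, c, hb⟩ := hx _ h
      refine mem_filter.2 ⟨Nat.mem_divisors.2 ⟨h2, by omega⟩, fun q hq hd => ?_, not_lt.2 ?_⟩
      · simp only [mul_assoc] at hd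
        rcases (Nat.Prime.dvd_mul hq).1 hd with h1 | h1
        · exact c.2.2.1 q hq h1
        · exact le_trans (by exact_mod_cast Nat.lt_succ_iff.1 (spl0_lo c.1 hb q hq h1)) c.2.1
      · refine c.2.2.2.2.2.trans (Nat.cast_le.2 ?_)
        rw [← mul_assoc, ← mul_assoc]
        exact Nat.le_mul_of_pos_right _ b0
    · intro e he hn
      obtain ⟨h1, h2, h3⟩ := mem_filter.1 he
      refine neg_eq_zero.2 (mu_eq_zero fun hs => hn ?_)
      obtain ⟨a, p, b, rfl, a1, a2, a3, a4⟩ := spl0_ex A r hA e hs (not_lt.1 h3)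
      have hd := Nat.dvd_of_mem_divisors h1
      have d1 : a ∣ a * p * b := ⟨p * b, by ring⟩
      have d2 : p ∣ a * p * b := ⟨a * b, by ring⟩
      have d3 : b ∣ a * p * b := ⟨a * p, by ring⟩
      have m : ∀ u, u ∣ a * p * b → u ∈ j.divisors := fun u hu =>
        Nat.mem_divisors.2 ⟨hu.trans hd, by omega⟩
      exact ⟨(a, p, b), mem_coe.2 (mem_filter.2 ⟨mem_product.2 ⟨m a d1, mem_product.2
        ⟨m p d2, m b d3⟩⟩, hd, ⟨a1, h2 p a1 d2, fun q hq h => h2 q hq (h.trans d1), a2, a4⟩,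
        (gp_lt_iff (Nat.pos_of_mem_divisors (m b d3)).ne' a1.pos).2 a3⟩), rfl⟩
    · intro x h
      obtain ⟨-, -, -, c, hb⟩ := hx _ h
      rw [mu_mul (spl0_cop (spl0_up c.1 c.2.2.2.1) hb), mu_mul (spl0_cop (t := x.2.1 + 1)
        c.2.2.2.1 fun q hq hd => Nat.lt_succ_of_le (Nat.le_of_dvd c.1.pos hd)), mu_prime c.1]
      ring
  rw [sum_filter, sum_product] at key
  simp only [sum_product] at key
  rw [key, spl0_rh z j hj, sum_filter, sum_filter, ← sum_sub_distrib]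
  refine sum_congr rfl fun e _ => ?_
  by_cases h1 : Smo z e <;> by_cases h2 : ((r * e : ℕ) : ℝ) < A <;> simp only [h1, h2] <;> simp

end Pool.Agent.P.MP_8be758_nt.Sq
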