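import Pool.Agent.P.MP_8be758_nt.Sq.IfaceB

/-! Step SV. -/

set_option autoImplicit false
set_option linter.unusedSectionVars false

namespace Pool.Agent.P.MP_8be758_nt.Sq

open Finset Real Filter Topology ArithmeticFunction
open Pool.Agent.P.MP_e86632_nt (ee nn)
open Pool.Agent.P.MP_8be758_nt.Avg (gs Rough)

open Classical in
theorem sv_pt (hGGB : S_GGB) (hPRM : S_PRM) (hSGG : S_SGG) {Q Y τ : ℝ} {a b : ℕ → ℝ}
    (h : St Q Y τ) (hs : SzB Q a b) (hw : ∀ k, ¬ InW Q k → a k - b k = 0) (k : ℕ) :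
    (a k - b k) * (rh (pz Q Y) k * gg Q Y k) -
      (if (Squarefree k ∧ Rough (pz Q Y) k) ∧ Good Q Y k then (a k - b k) * gg Q Y k else 0) -
      2 ^ 45 * (if Rough (pz Q Y) k ∧ ¬ Squarefree k then |a k - b k| else 0) ≤
      (if k.Prime then a k - b k else 0) + b k * Ls Q Y k := by
  have hL : 0 ≤ b k * Ls Q Y k := mul_nonneg (hs.b0 k) (by
    unfold Ls; split_ifs
    · exact le_max_left _ _
    · exact le_rfl)
  by_cases hi : InW Q k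
  swap
  · simp [hw k hi, hL]
  by_cases hp : k.Prime
  · obtain ⟨h1, h2, h3⟩ := hPRM Q Y τ k h hp hi
    simpa [rh, h1, h2, h3, hp, hp.squarefree] using hL
  by_cases hr : Rough (pz Q Y) k
  swap
  · simpa [rh, hr, hp] using hL
  by_cases hq : Squarefree k
  swap
  · have h1 := hGGB Q Y τ k h hr hi.2
    have h2 : (a k - b k) * gg Q Y k ≤ |a k - b k| * 2 ^ 45 :=
      (le_abs_self _).trans (by
        rw [abs_mul]; exact mul_le_mul_of_nonneg_left h1 (abs_nonneg _))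
    simp only [rh, hr, hq, hp, if_true, if_false, false_and, not_false_eq_true, and_self, one_mul]
    linarith
  by_cases hg : Good Q Y k
  · simpa [rh, hr, hq, hg, hp] using hL
  · have h1 := hSGG Q Y τ k h hi hq hr hg hp
    have h2 : Ls Q Y k = -gg Q Y k := by
      rw [Ls, if_pos ⟨hq, hr, hg⟩, max_eq_right (by linarith)]
    have h3 := mul_nonpos_of_nonneg_of_nonpos (hs.a0 k) h1
    simp only [rh, hr, hq, hg, hp, h2, if_true, if_false, and_false, not_true_eq_false, one_mul]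
    linarith

theorem p_SV (hTM1 : S_TM1) (hTMT : S_TMT) (hTN2 : S_TN2) (hTN3 : S_TN3) (hTN4 : S_TN4) (hTNZ : S_TNZ) (hGOOD : S_GOOD) (hNSQ2 : S_NSQ2) (hGGB : S_GGB) (hPRM : S_PRM) (hSGG : S_SGG) :
    S_SV := by
  classical
  obtain ⟨Y1, h1⟩ := hTM1
  obtain ⟨Y2, h2⟩ := hTMT
  obtain ⟨Y3, h3⟩ := hTN2
  obtain ⟨Y4, h4⟩ := hTN3
  obtain ⟨Y5, h5⟩ := hTN4
  obtain ⟨Y6, h6⟩ := hTNZ
  obtain ⟨e, Y7, h7⟩ := hGOOD
  refine ⟨e, max (max (max Y1 Y2) (max Y3 Y4)) (max (max Y5 Y6) (max Y7 (2 ^ 50))),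
    fun Q Y τ E a b hY h he hs hA => ?_⟩
  simp only [max_le_iff] at hY
  obtain ⟨⟨⟨y1, y2⟩, y3, y4⟩, ⟨y5, y6⟩, y7, y8⟩ := hY
  have g1 := abs_le.1 (h1 Q Y τ E _ y1 h hA)
  have g2 := abs_le.1 (h2 Q Y τ E _ y2 h hA)
  have g3 := abs_le.1 (h3 Q Y τ E _ y3 h hA)
  have g4 := abs_le.1 (h4 Q Y τ E _ y4 h hA)
  have g5 := abs_le.1 (h5 Q Y τ E _ y5 h hA)
  have g6 := abs_le.1 (h6 Q Y τ E _ y6 h hA)
  have g7 := abs_le.1 (h7 Q Y τ E _ y7 h he hA)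
  have g8 := hNSQ2 Q Y τ E a b h hs hA
  have g9 := sum_le_sum (s := Icc 1 (XN Q)) fun k _ => sv_pt hGGB hPRM hSGG h hs hA.sup k
  rw [sum_sub_distrib, sum_sub_distrib, ← mul_sum, sum_add_distrib, ← sum_filter, ← sum_filter,
    ← sum_filter, sum_sub_distrib] at g9
  have e1 : ∑ k ∈ Icc 1 (XN Q), (a k - b k) * (rh (pz Q Y) k * gg Q Y k) =
      ∑ k ∈ Icc 1 (XN Q), (a k - b k) * (rh (pz Q Y) k * M1 Q Y k) -
      1 / 2 * ∑ k ∈ Icc 1 (XN Q), (a k - b k) * (rh (pz Q Y) k * MT Q Y k) -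
      2 * ∑ k ∈ Icc 1 (XN Q), (a k - b k) * (rh (pz Q Y) k * N2 Q Y k) -
      2 * ∑ k ∈ Icc 1 (XN Q), (a k - b k) * (rh (pz Q Y) k * N3 Q Y k) -
      8 / 15 * ∑ k ∈ Icc 1 (XN Q), (a k - b k) * (rh (pz Q Y) k * N4 Q Y k) -
      2 ^ 26 * ∑ k ∈ Icc 1 (XN Q), (a k - b k) * (rh (pz Q Y) k * NZ Q Y k) := by
    simp only [mul_sum, ← sum_sub_distrib]
    exact sum_congr rfl fun k _ => by rw [gg]; ring
  have p1 : 0 ≤ Q ^ 23 := (pow_pos h.qpos _).le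
  have p2 : 2 ^ 50 * Q ^ 23 ≤ Y * Q ^ 23 := mul_le_mul_of_nonneg_right y8 p1
  have p3 : 2 ^ 50 * E ≤ Y ^ 3 * E := mul_le_mul_of_nonneg_right
    (y8.trans (by simpa using h.ymono (a := 1) (b := 3) (by norm_num))) hA.e0
  have p4 : 2 ^ 50 * (Y ^ 3 * E) ≤ Y ^ 2 * (Y ^ 3 * E) := mul_le_mul_of_nonneg_right
    (y8.trans (by simpa using h.ymono (a := 1) (b := 2) (by norm_num)))
    (mul_nonneg (pow_pos h.ypos _).le hA.e0)
  have p5 : Y ^ 5 * E = Y ^ 2 * (Y ^ 3 * E) := by ring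
  have p6 := hA.e0
  unfold PX
  linarith [g1.1, g2.2, g3.2, g4.2, g5.2, g6.2, g7.2]

end Pool.Agent.P.MP_8be758_nt.Sq
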