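import Pool.Agent.P.MP_8be758_nt.Sq.IfaceB

/-! Step TH2. -/

set_option autoImplicit false
set_option linter.unusedSectionVars false

namespace Pool.Agent.P.MP_8be758_nt.Sq

open Finset Real Filter Topology ArithmeticFunction
open Pool.Agent.P.MP_e86632_nt (ee nn)
open Pool.Agent.P.MP_8be758_nt.Avg (gs Rough)

theorem th2_cont (Q Y : ℝ) (k : ℕ) : Continuous fun c => bt Q Y c k := by
  unfold bt bw gs
  split_ifs
  · fun_prop
  · fun_prop

theorem th2_int {Q Y : ℝ} {k : ℕ} (hk : InW Q k) (a b : ℝ) :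
    ∫ c in a..b, bt Q Y c k = (∫ c in a..b, gs ((√(k : ℝ) - c) / Dl Q Y)) / √(k : ℝ) := by
  simp only [bt, if_pos hk, bw, intervalIntegral.integral_div]

theorem th2_zero {Q Y : ℝ} {k : ℕ} (hk : ¬ InW Q k) (a b : ℝ) :
    ∫ c in a..b, bt Q Y c k = 0 := by
  simp [bt, if_neg hk]

theorem th2_le {Q Y τ : ℝ} (h : St Q Y τ) : cL Q Y ≤ cR Q Y ∧ cR Q Y - cL Q Y ≤ Q ^ 24 := by
  have p := pow_pos h.qpos 24
  have h0 := div_pos p h.ypos
  have h1 : Q ^ 24 / Y ≤ Q ^ 24 / 1000 := div_le_div_of_nonneg_left p.le (by norm_num) h.y0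
  unfold cL cR
  constructor <;> linarith

theorem th2_up (hAV2 : S_AV2) {Q Y τ : ℝ} (h : St Q Y τ) (k : ℕ) :
    Y ^ 2 * ∫ c in cL Q Y..cR Q Y, bt Q Y c k ≤ 200 / 199 := by
  by_cases hk : InW Q k
  · have p := pow_pos h.qpos 24
    have y2 := pow_pos h.ypos 2
    have h1 := hk.sqrt.1
    have h2 := (hAV2 (Dl Q Y) √(k : ℝ) _ _ h.Dl_pos (th2_le h).1).1
    have e : Y ^ 2 * Dl Q Y = Q ^ 24 := mul_div_cancel₀ _ y2.ne'
    rw [th2_int hk, ← mul_div_assoc, div_le_iff₀ (by linarith)]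
    nlinarith [mul_le_mul_of_nonneg_left h2 y2.le]
  · rw [th2_zero hk]; norm_num

theorem th2_lo (hAV2 : S_AV2) {Q Y τ : ℝ} (h : St Q Y τ) {k : ℕ}
    (h1 : cL Q Y + Q ^ 24 / Y ≤ √(k : ℝ)) (h2 : √(k : ℝ) ≤ cR Q Y - Q ^ 24 / Y) :
    999 / 1000 ≤ Y ^ 2 * ∫ c in cL Q Y..cR Q Y, bt Q Y c k := by
  have p := pow_pos h.qpos 24
  have y2 := pow_pos h.ypos 2
  have h0 := div_pos p h.ypos
  have h3 : 199 / 200 * Q ^ 24 < √(k : ℝ) := by unfold cL at h1; linarith
  have h4 : √(k : ℝ) ≤ Q ^ 24 := by unfold cR at h2; linarith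
  have hk : InW Q k := by
    refine ⟨?_, ?_⟩
    · have := (Real.lt_sqrt (by positivity)).1 h3
      calc 39601 / 40000 * Q ^ 48 = (199 / 200 * Q ^ 24) ^ 2 := by ring
        _ < _ := this
    · calc (k : ℝ) ≤ (Q ^ 24) ^ 2 := (Real.sqrt_le_iff.1 h4).2
        _ = _ := by ring
  have e : Y ^ 2 * Dl Q Y = Q ^ 24 := mul_div_cancel₀ _ y2.ne'
  have e' : Y * Dl Q Y = Q ^ 24 / Y := by
    have := h.ypos.ne'
    unfold Dl; field_simp
  have h5 := (hAV2 (Dl Q Y) √(k : ℝ) _ _ h.Dl_pos (th2_le h).1).2 Y h.ypos.le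
    (by rw [e']; exact h1) (by rw [e']; exact h2)
  have h6 : gs (Y / 2) ≤ 1 / 2000 := by
    refine (h.neg (by linarith [h.y0])).trans (one_div_le_one_div_of_le (by norm_num) ?_)
    have := h.qpow (a := 2) (b := 2000) (by norm_num)
    nlinarith [h.q0]
  have h7 := mul_le_mul_of_nonneg_left h5 y2.le
  rw [← mul_assoc, e] at h7
  rw [th2_int hk, ← mul_div_assoc, le_div_iff₀ (by linarith)]
  nlinarith

theorem p_TH2 (hAV2 : S_AV2) :
    S_TH2 := by
  intro Q Y τ d R L P T h hd hR hL hP hP2 H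
  obtain ⟨hle, hlen⟩ := th2_le h
  have y2 := pow_pos h.ypos 2
  have q0 := h.qpos
  set I : ℕ → ℝ := fun k => ∫ c in cL Q Y..cR Q Y, bt Q Y c k with hI
  have I0 : ∀ k, 0 ≤ I k := fun k =>
    intervalIntegral.integral_nonneg hle fun c _ => bt_nonneg Q Y c k
  have c1 : ∀ S : Finset ℕ, Continuous fun c => ∑ p ∈ S, bt Q Y c p := fun S =>
    continuous_finsetSum _ fun p _ => th2_cont Q Y p
  have c0 : ∀ k, Continuous fun c => bt Q Y c k * L k := fun k =>
    (th2_cont Q Y k).mul continuous_const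
  have c2 : Continuous fun c => ∑ k ∈ Icc 1 (XN Q), bt Q Y c k * L k :=
    continuous_finsetSum _ fun p _ => c0 p
  have c3 : Continuous fun c => ∑ p ∈ PX Q, bt Q Y c p -
      ∑ k ∈ Icc 1 (XN Q), bt Q Y c k * L k := (c1 _).sub c2
  have s1 : ∀ S : Finset ℕ, ∫ c in cL Q Y..cR Q Y, ∑ p ∈ S, bt Q Y c p = ∑ p ∈ S, I p := fun S =>
    intervalIntegral.integral_finsetSum fun p _ => (th2_cont Q Y p).intervalIntegrable _ _
  have s2 : ∫ c in cL Q Y..cR Q Y, ∑ k ∈ Icc 1 (XN Q), bt Q Y c k * L k =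
      ∑ k ∈ Icc 1 (XN Q), I k * L k := by
    rw [intervalIntegral.integral_finsetSum fun p _ => (c0 p).intervalIntegrable _ _]
    exact sum_congr rfl fun k _ => intervalIntegral.integral_mul_const _ _
  have main := intervalIntegral.integral_mono_on (μ := MeasureTheory.volume) hle
    ((continuous_const.mul (((c1 (PX Q)).sub c2).sub continuous_const)).intervalIntegrable _ _)
    (((c1 T).add continuous_const).intervalIntegrable _ _) fun c hc => H c hc.1 hc.2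
  simp only [Pi.mul_apply, Pi.sub_apply, Pi.add_apply] at main
  rw [intervalIntegral.integral_const_mul,
    intervalIntegral.integral_sub (c3.intervalIntegrable _ _)
      (continuous_const.intervalIntegrable _ _),
    intervalIntegral.integral_sub ((c1 (PX Q)).intervalIntegrable _ _) (c2.intervalIntegrable _ _),
    intervalIntegral.integral_add ((c1 T).intervalIntegrable _ _)
      (continuous_const.intervalIntegrable _ _),
    s1, s1, s2, intervalIntegral.integral_const, intervalIntegral.integral_const, smul_eq_mul,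
    smul_eq_mul] at main
  have b1 : 999 / 1000 * (P.card : ℝ) ≤ Y ^ 2 * ∑ p ∈ PX Q, I p := by
    refine le_trans ?_ (mul_le_mul_of_nonneg_left
      (sum_le_sum_of_subset_of_nonneg hP fun k _ _ => I0 k) y2.le)
    rw [mul_sum, mul_comm, ← nsmul_eq_mul, ← sum_const]
    exact sum_le_sum fun p hp => th2_lo hAV2 h (hP2 p hp).1 (hP2 p hp).2
  have b2 : Y ^ 2 * ∑ k ∈ Icc 1 (XN Q), I k * L k ≤
      200 / 199 * ∑ k ∈ (Icc 1 (XN Q)).filter (InW Q), L k := by
    rw [sum_filter, mul_sum, mul_sum]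
    refine sum_le_sum fun k _ => ?_
    split_ifs with hk
    · rw [← mul_assoc]; exact mul_le_mul_of_nonneg_right (th2_up hAV2 h k) (hL k)
    · simp [hI, th2_zero hk]
  have b3 : Y ^ 2 * ∑ p ∈ T, I p ≤ 200 / 199 * (T.card : ℝ) := by
    rw [mul_sum, mul_comm, ← nsmul_eq_mul, ← sum_const]
    exact sum_le_sum fun p _ => th2_up hAV2 h p
  have b4 : Y ^ 2 * ((cR Q Y - cL Q Y) * R) ≤ Y ^ 2 * Q ^ 24 * R := by
    rw [mul_assoc]
    exact mul_le_mul_of_nonneg_left (mul_le_mul_of_nonneg_right hlen hR) y2.le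
  have b5 : Y ^ 2 * ((cR Q Y - cL Q Y) * (1 / Q ^ 100)) ≤ 1 / Q ^ 70 := by
    have h1 : Q ^ 24 * Y ^ 2 ≤ Q ^ 30 := h.qy (by norm_num) (by norm_num)
    calc _ ≤ Y ^ 2 * (Q ^ 24 * (1 / Q ^ 100)) :=
          mul_le_mul_of_nonneg_left (mul_le_mul_of_nonneg_right hlen (by positivity)) y2.le
      _ = Q ^ 24 * Y ^ 2 * (1 / Q ^ 100) := by ring
      _ ≤ Q ^ 30 * (1 / Q ^ 100) := mul_le_mul_of_nonneg_right h1 (by positivity)
      _ = _ := by field_simp
  have b6 := mul_le_mul_of_nonneg_left main y2.le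
  calc _ ≤ d * (Y ^ 2 * ∑ p ∈ PX Q, I p - Y ^ 2 * ∑ k ∈ Icc 1 (XN Q), I k * L k -
        Y ^ 2 * ((cR Q Y - cL Q Y) * R)) := mul_le_mul_of_nonneg_left (by linarith) hd
    _ = Y ^ 2 * (d * (∑ p ∈ PX Q, I p - ∑ k ∈ Icc 1 (XN Q), I k * L k -
        (cR Q Y - cL Q Y) * R)) := by ring
    _ ≤ _ := by rw [mul_add] at b6; linarith

end Pool.Agent.P.MP_8be758_nt.Sq
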