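import Pool.Agent.P.MP_8be758_nt.Sq.IfaceB

/-! Step THA. -/

set_option autoImplicit false
set_option linter.unusedSectionVars false

namespace Pool.Agent.P.MP_8be758_nt.Sq

open Finset Real Filter Topology ArithmeticFunction
open Pool.Agent.P.MP_e86632_nt (ee nn)
open Pool.Agent.P.MP_8be758_nt.Avg (gs Rough)

theorem tha_log {Q Y τ : ℝ} (h : St Q Y τ) :
    0 < Real.log (Q ^ 48) ∧ Q ^ 48 / (48 * Y) ≤ Q ^ 48 / Real.log (Q ^ 48) := by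
  have h1 := h.log1
  have h2 := h.logpow (k := 1) (by norm_num)
  rw [Real.log_pow]
  push_cast
  exact ⟨by linarith, div_le_div_of_nonneg_left (pow_pos h.qpos _).le (by linarith)
    (by linarith)⟩

theorem tha_err {Q Y τ : ℝ} (h : St Q Y τ) :
    Y ^ 2 * Q ^ 24 * (Y ^ 5 * (Q ^ 24 / Y ^ 25) + Y * Q ^ 23) ≤
      1 / 10000 * (Q ^ 48 / Real.log (Q ^ 48)) := by
  have y0 := h.ypos
  have q0 := h.qpos
  refine le_trans ?_ (mul_le_mul_of_nonneg_left (tha_log h).2 (by norm_num))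
  have h1 : Y ^ 21 ≤ Q := h.ypow (by norm_num)
  have h2 : (1000 : ℝ) ^ 2 ≤ Y ^ 2 := pow_le_pow_left₀ (by norm_num) h.y0 2
  have h3 : Y ^ 2 ≤ Y ^ 17 := h.ymono (by norm_num)
  have h4 : Y ^ 21 / Q ≤ 1 := (div_le_one q0).2 h1
  have e1 : Y ^ 2 * Q ^ 24 * (Y ^ 5 * (Q ^ 24 / Y ^ 25) + Y * Q ^ 23) =
      Q ^ 48 / Y * ((1 + Y ^ 21 / Q) / Y ^ 17) := by field_simp
  have e2 : 1 / 10000 * (Q ^ 48 / (48 * Y)) = Q ^ 48 / Y * (1 / 480000) := by field_simp; norm_num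
  rw [e1, e2]
  refine mul_le_mul_of_nonneg_left ?_ (by positivity)
  rw [div_le_div_iff₀ (by positivity) (by norm_num)]
  linarith

theorem tha_big {Q Y τ d : ℝ} (h : St Q Y τ) (hd : 4 / (Q ^ 12 * Y) ≤ d) :
    1 / Q ^ 70 ≤ 1 / 100000 * (d * (Q ^ 48 / Real.log (Q ^ 48))) := by
  have y0 := h.ypos
  have q0 := h.qpos
  have d0 : 0 < 4 / (Q ^ 12 * Y) := by positivity
  refine le_trans ?_ (mul_le_mul_of_nonneg_left
    (mul_le_mul hd (tha_log h).2 (by positivity) (d0.le.trans hd)) (by norm_num))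
  have h1 : Y ^ 5 ≤ Q := h.ypow (by norm_num)
  have h2 : (1000 : ℝ) ^ 3 ≤ Y ^ 3 := pow_le_pow_left₀ (by norm_num) h.y0 3
  have h3 : Q ^ 1 ≤ Q ^ 106 := h.qpow (by norm_num)
  have e2 : 1 / 100000 * (4 / (Q ^ 12 * Y) * (Q ^ 48 / (48 * Y))) =
      1 / Q ^ 70 * (Q ^ 106 / (1200000 * Y ^ 2)) := by field_simp; norm_num
  rw [e2]
  refine le_mul_of_one_le_right (by positivity) ((one_le_div (by positivity)).2 ?_)
  have : Y ^ 5 = Y ^ 3 * Y ^ 2 := by ring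
  nlinarith [pow_pos y0 2]

theorem p_THA (hAH : S_AH) (hSV : S_SV) (hLOSS : S_LOSS) (hEV : S_EV) (hPNT2 : S_PNT2) (hTH1 : S_TH1) (hTH2 : S_TH2) :
    S_THA := by
  obtain ⟨N, hN, hL⟩ := hLOSS
  obtain ⟨e, Y1, hSV⟩ := hSV
  obtain ⟨Y2, hAH⟩ := hAH
  have hT : Tendsto (fun Y : ℝ => (Y ^ N) ^ 48) atTop atTop :=
    (tendsto_pow_atTop (by norm_num)).comp (tendsto_pow_atTop (by omega))
  refine ⟨N, hN, 1 / 4000, by norm_num, ?_⟩
  filter_upwards [hL, hEV N e (max (max Y1 Y2) 100000) hN,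
    hT.eventually (hPNT2 (1 / 100000) (by norm_num))] with Y hL ⟨hY, he, τ, h⟩ hP l d hd1 hd2
  generalize Y ^ N = Q at *
  have y0 := h.ypos
  have q0 := h.qpos
  have hY1 : Y1 ≤ Y := ((le_max_left _ _).trans (le_max_left _ _)).trans hY
  have hY2 : Y2 ≤ Y := ((le_max_right _ _).trans (le_max_left _ _)).trans hY
  have hY3 : 100000 ≤ Y := (le_max_right _ _).trans hY
  have d0 : 0 < d := lt_of_lt_of_le (by positivity) hd1
  have a0 : 0 < Q ^ 24 := by positivity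
  have hη : 1 / Y ≤ 1 / 100000 := one_div_le_one_div_of_le (by norm_num) hY3
  have η0 : 0 < 1 / Y := by positivity
  have eL : cL Q Y + Q ^ 24 / Y = Q ^ 24 * (199 / 200 + 2 * (1 / Y)) := by unfold cL; ring
  have eR : cR Q Y - Q ^ 24 / Y = Q ^ 24 * (1 - 2 * (1 / Y)) := by unfold cR; ring
  have eX : Q ^ 48 = Q ^ 24 * Q ^ 24 := by ring
  obtain ⟨l0, -⟩ := tha_log h
  generalize 1 / Y = η at hη η0 eL eR
  have X0 : 0 < Q ^ 48 := by positivity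
  have hv : (Q ^ 24 * (1 - 2 * η)) ^ 2 ≤ Q ^ 48 := by
    rw [mul_pow, ← pow_mul]; exact mul_le_of_le_one_right X0.le (by nlinarith)
  have huv : (Q ^ 24 * (1 - 2 * η)) ^ 2 - (Q ^ 24 * (199 / 200 + 2 * η)) ^ 2 =
      (399 / 40000 - 399 / 50 * η) * Q ^ 48 := by ring
  have h1 := hP ((Q ^ 24 * (199 / 200 + 2 * η)) ^ 2) ((Q ^ 24 * (1 - 2 * η)) ^ 2)
    (by rw [mul_pow, ← pow_mul]; nlinarith) (by nlinarith) hv
  have h2 := hTH2 Q Y τ (d / 2) (Y ^ 5 * (Q ^ 24 / Y ^ 25) + Y * Q ^ 23) (Ls Q Y)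
    ((Ioc ⌊(Q ^ 24 * (199 / 200 + 2 * η)) ^ 2⌋₊ ⌊(Q ^ 24 * (1 - 2 * η)) ^ 2⌋₊).filter Nat.Prime)
    (TP Q l d) h (by positivity) (by positivity)
    (fun k => by unfold Ls; split_ifs; exacts [le_max_left _ _, le_rfl])
    (fun p hp => by
      obtain ⟨hp1, hp2⟩ := mem_filter.1 hp
      exact mem_filter.2 ⟨mem_Icc.2 ⟨hp2.pos, (mem_Ioc.1 hp1).2.trans (Nat.floor_mono hv)⟩, hp2⟩)
    (fun p hp => by
      obtain ⟨hp1, hp2⟩ := mem_Ioc.1 (mem_filter.1 hp).1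
      rw [eL, eR]
      exact ⟨Real.le_sqrt_of_sq_le (Nat.lt_of_floor_lt hp1).le, Real.sqrt_le_iff.2
        ⟨mul_nonneg a0.le (by linarith), (Nat.le_floor_iff (sq_nonneg _)).1 hp2⟩⟩)
    (fun c c1 c2 => by
      have w : Wn Q Y c (d / (4 * Y)) := ⟨c1, c2, by
        rw [le_div_iff₀ (by positivity)]
        exact le_trans (le_of_eq (by field_simp)) hd1,
        by rw [div_le_div_iff₀ (by positivity) y0]; nlinarith⟩
      exact hTH1 Q Y τ c l d _ h w hd2 fun l' =>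
        hSV Q Y τ _ _ _ hY1 h he (w.sz h l') (hAH Q Y τ c _ l' hY2 h w))
  have h3 := tha_err h
  have h4 := tha_big h hd1
  rw [huv, mul_div_assoc] at h1
  have h5 := (abs_le.1 h1).1
  have M0 : 0 < Q ^ 48 / Real.log (Q ^ 48) := div_pos X0 l0
  generalize Q ^ 48 / Real.log (Q ^ 48) = M at *
  have h6 : η * M ≤ 1 / 100000 * M := mul_le_mul_of_nonneg_right hη M0.le
  have h7 := mul_le_mul_of_nonneg_left (a := d / 2) (b := 7 / 10000 * M) (by linarith : _ ≤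
    999 / 1000 * (((Ioc ⌊(Q ^ 24 * (199 / 200 + 2 * η)) ^ 2⌋₊
      ⌊(Q ^ 24 * (1 - 2 * η)) ^ 2⌋₊).filter Nat.Prime).card : ℝ) -
      200 / 199 * ∑ k ∈ (Icc 1 (XN Q)).filter (InW Q), Ls Q Y k -
      Y ^ 2 * Q ^ 24 * (Y ^ 5 * (Q ^ 24 / Y ^ 25) + Y * Q ^ 23)) (by positivity)
  have h8 := mul_pos d0 M0
  nlinarith

end Pool.Agent.P.MP_8be758_nt.Sq
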