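import Pool.Agent.P.MP_8be758_nt.Sq.IfaceB

/-! Step TM1. -/

set_option autoImplicit false
set_option linter.unusedSectionVars false

namespace Pool.Agent.P.MP_8be758_nt.Sq

open Finset Real Filter Topology ArithmeticFunction
open Pool.Agent.P.MP_e86632_nt (ee nn)
open Pool.Agent.P.MP_8be758_nt.Avg (gs Rough)

theorem p_TM1 (hH1 : S_H1) :
    S_TM1 := by
  obtain ⟨Y0, hH1⟩ := hH1
  refine ⟨Y0, fun Q Y τ E w hY h hA => ?_⟩
  have ab : ∀ r, |rh (pz Q Y) r * mu r| ≤ 1 := fun r => by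
    rw [abs_mul]; exact mul_le_one₀ (abs_rh_le _ _) (abs_nonneg _) (abs_mu_le _)
  have h1 := hH1 Q Y τ E w hY h hA ((Icc 1 (XN Q)).filter fun r : ℕ => (r : ℝ) < pA Q Y) {1}
    (fun r _ => rh (pz Q Y) r * mu r * 1) 1 le_rfl
    (fun r hr => ⟨(mem_Icc.1 (mem_filter.1 hr).1).1, (mem_filter.1 hr).2⟩)
    (fun d hd => by
      rw [mem_singleton.1 hd, Nat.cast_one]
      exact ⟨le_rfl, (one_lt_pow₀ (by linarith [h.q0]) (by norm_num)).trans_le h.le_pW⟩)
    (fun r _ _ _ => by rw [mul_one]; exact ab r)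
    (G2.prod _ (fun _ => 1) (fun r _ => ab r) (by simp))
  have h2 := sum_div_swap (XN Q) w (fun k hk => hA.zero hk)
    fun d j => rh (pz Q Y) (d * j) * (if (d : ℝ) < pA Q Y then mu d else 0)
  have h3 : ∑ k ∈ Icc 1 (XN Q), w k * (rh (pz Q Y) k * M1 Q Y k) = _ :=
    (sum_congr rfl fun k _ => by
      rw [M1, mul_sum]
      exact congrArg _ (sum_congr rfl fun d hd => by
        rw [Nat.mul_div_cancel' (Nat.dvd_of_mem_divisors hd)])).trans h2
  rw [h3]
  refine le_trans (le_of_eq (congrArg _ ?_)) (h1.trans ?_)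
  · rw [sum_filter]
    refine sum_congr rfl fun r _ => ?_
    split_ifs
    · rw [sum_singleton, mul_sum]
      exact sum_congr rfl fun j _ => by rw [rh_mul, mul_one r]; ring
    · simp
  · rw [one_mul]
    exact mul_le_mul_of_nonneg_right (le_self_pow₀ h.y1 (by norm_num)) hA.e0

end Pool.Agent.P.MP_8be758_nt.Sq
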