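import Pool.Agent.P.MP_8be758_nt.Sq.IfaceB

/-! Step TMT. -/

set_option autoImplicit false
set_option linter.unusedSectionVars false

namespace Pool.Agent.P.MP_8be758_nt.Sq

open Finset Real Filter Topology ArithmeticFunction
open Pool.Agent.P.MP_e86632_nt (ee nn)
open Pool.Agent.P.MP_8be758_nt.Avg (gs Rough)

theorem tmt_swap (X : ℕ) (w : ℕ → ℝ) (hw : ∀ k, X < k → w k = 0) (ρ χ : ℕ → ℝ)
    (hρ : ∀ a b, ρ (a * b) = ρ a * ρ b) (c : ℕ → ℕ → ℝ) :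
    ∑ k ∈ Icc 1 X, w k * (ρ k * ∑ x ∈ k.divisorsAntidiagonal,
      χ x.1 * ∑ e ∈ x.1.divisors, ∑ f ∈ x.2.divisors, c e f) =
    ∑ e ∈ Icc 1 X, ∑ f ∈ Icc 1 X, c e f * ρ e * ρ f *
      ∑ v ∈ Icc 1 X, χ (e * v) * (ρ v * ∑ j ∈ Icc 1 X, ρ j * w (e * f * v * j)) := by
  have hz : ∀ a ∈ Icc 1 X, ∀ k, X < k → w (a * k) = 0 := fun a ha k hk =>
    hw _ (lt_of_lt_of_le hk (Nat.le_mul_of_pos_left k (mem_Icc.1 ha).1))
  have h1 := sum_div_swap X w hw fun d m =>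
    ρ d * ρ m * (χ d * ∑ e ∈ d.divisors, ∑ f ∈ m.divisors, c e f)
  have e1 : ∀ k ∈ Icc 1 X, w k * (ρ k * ∑ x ∈ k.divisorsAntidiagonal,
      χ x.1 * ∑ e ∈ x.1.divisors, ∑ f ∈ x.2.divisors, c e f) =
      w k * ∑ d ∈ k.divisors, ρ d * ρ (k / d) *
        (χ d * ∑ e ∈ d.divisors, ∑ f ∈ (k / d).divisors, c e f) := fun k _ => by
    rw [Nat.sum_divisorsAntidiagonal (fun a b => χ a * ∑ e ∈ a.divisors, ∑ f ∈ b.divisors, c e f),
      mul_sum]
    refine congrArg _ (sum_congr rfl fun d hd => ?_)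
    rw [← hρ, Nat.mul_div_cancel' (Nat.dvd_of_mem_divisors hd)]
  rw [sum_congr rfl e1, h1]
  have e2 : ∀ d ∈ Icc 1 X, ∑ m ∈ Icc 1 X, w (d * m) *
      (ρ d * ρ m * (χ d * ∑ e ∈ d.divisors, ∑ f ∈ m.divisors, c e f)) =
      ∑ f ∈ Icc 1 X, ∑ j ∈ Icc 1 X, w (d * (f * j)) *
        (ρ f * ρ j * ∑ e ∈ d.divisors, ρ d * χ d * c e f) := fun d hd => by
    rw [← sum_div_swap X (fun m => w (d * m)) (hz d hd)
      fun f j => ρ f * ρ j * ∑ e ∈ d.divisors, ρ d * χ d * c e f]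
    refine sum_congr rfl fun m _ => congrArg _ ?_
    rw [sum_comm, mul_sum, mul_sum]
    refine sum_congr rfl fun f hf => ?_
    rw [← hρ f, Nat.mul_div_cancel' (Nat.dvd_of_mem_divisors hf), ← mul_sum]
    ring
  rw [sum_congr rfl e2, sum_comm]
  conv_rhs => rw [sum_comm]
  refine sum_congr rfl fun f hf => ?_
  rw [sum_comm]
  have e3 : ∀ j ∈ Icc 1 X, ∑ d ∈ Icc 1 X, w (d * (f * j)) *
      (ρ f * ρ j * ∑ e ∈ d.divisors, ρ d * χ d * c e f) =
      ∑ e ∈ Icc 1 X, ∑ v ∈ Icc 1 X, w (e * v * (f * j)) *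
        (ρ f * ρ j * (ρ (e * v) * χ (e * v) * c e f)) := fun j hj => by
    rw [← sum_div_swap X (fun d => w (d * (f * j))) (fun k hk => hw _ (lt_of_lt_of_le hk
      (Nat.le_mul_of_pos_right k (Nat.mul_pos (mem_Icc.1 hf).1 (mem_Icc.1 hj).1))))
      fun e v => ρ f * ρ j * (ρ (e * v) * χ (e * v) * c e f)]
    refine sum_congr rfl fun d _ => congrArg _ ?_
    rw [mul_sum]
    refine sum_congr rfl fun e he => ?_
    rw [Nat.mul_div_cancel' (Nat.dvd_of_mem_divisors he)]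
  rw [sum_congr rfl e3, sum_comm]
  refine sum_congr rfl fun e _ => ?_
  rw [sum_comm, mul_sum]
  refine sum_congr rfl fun v _ => ?_
  rw [mul_sum, mul_sum, mul_sum]
  refine sum_congr rfl fun j _ => ?_
  rw [hρ, show e * v * (f * j) = e * f * v * j by ring]
  ring

theorem tmt_lt {A : ℝ} (hA : 0 < A) {e : ℕ} (he : 1 ≤ e) (v : ℕ) :
    v ≤ (⌈A⌉₊ - 1) / e ↔ ((e * v : ℕ) : ℝ) < A := by
  have := Nat.ceil_pos.2 hA
  rw [Nat.le_div_iff_mul_le he, ← Nat.lt_ceil, mul_comm]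
  omega

theorem tmt_hi {A : ℝ} (hA : 0 < A) (e : ℕ) : (((⌈A⌉₊ - 1) / e : ℕ) : ℝ) ≤ A := by
  have h1 := Nat.ceil_pos.2 hA
  have h2 : ((⌈A⌉₊ - 1 : ℕ) : ℝ) < A := Nat.lt_ceil.1 (by omega)
  exact le_trans (by exact_mod_cast Nat.div_le_self _ _) h2.le

theorem p_TMT (hH2 : S_H2) :
    S_TMT := by
  classical
  obtain ⟨Y0, H⟩ := hH2
  refine ⟨Y0, fun Q Y τ E w hY st ah => ?_⟩
  have q14 := pow_pos st.qpos 14
  have q34 := pow_pos st.qpos 34
  have key := H Q Y τ E w hY st ah (ℕ × ℕ)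
    ((Icc 1 (XN Q) ×ˢ Icc 1 (XN Q)).filter fun x => ((x.1 * x.2 : ℕ) : ℝ) < pA Q Y)
    (fun x => x.1 * x.2) (fun x => (⌈Q ^ 14⌉₊ - 1) / x.1) (fun x => (⌈Q ^ 34⌉₊ - 1) / x.1)
    (fun x => mu x.1 * mu x.2 * rh (pz Q Y) x.1 * rh (pz Q Y) x.2) τ st.t1 (fun s hs => by
      simp only [mem_filter, mem_product, mem_Icc] at hs
      refine ⟨Nat.mul_pos hs.1.1.1 hs.1.2.1, hs.2, tmt_hi q34 _, ?_⟩
      simp only [abs_mul]
      exact mul_le_one₀ (mul_le_one₀ (mul_le_one₀ (abs_mu_le _) (abs_nonneg _) (abs_mu_le _))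
        (abs_nonneg _) (abs_rh_le _ _)) (abs_nonneg _) (abs_rh_le _ _)) (fun n => by
      rcases ((((Icc 1 (XN Q) ×ˢ Icc 1 (XN Q)).filter
        fun x => ((x.1 * x.2 : ℕ) : ℝ) < pA Q Y).filter
          fun s => s.1 * s.2 = n).eq_empty_or_nonempty) with h | ⟨x, hx⟩
      · rw [h, card_empty, Nat.cast_zero]; linarith [st.t1]
      · simp only [mem_filter, mem_product, mem_Icc] at hx
        obtain ⟨⟨⟨h1, h2⟩, h3⟩, rfl⟩ := hx
        refine le_trans (Nat.cast_le.2 (card_pairs_le (Nat.mul_pos h1.1 h2.1).ne' _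
          fun y hy => (mem_filter.1 hy).2)) (st.tau _ ?_)
        exact h3.le.trans (st.pA_le.trans (st.qpow (by norm_num)))) (by
      refine le_trans (Nat.cast_le.2 (card_filter_le _ _)) ?_
      rw [card_product, Nat.card_Icc, Nat.add_sub_cancel, Nat.cast_mul]
      calc (XN Q : ℝ) * XN Q ≤ Q ^ 48 * Q ^ 48 :=
            mul_le_mul st.XN_le st.XN_le (Nat.cast_nonneg _) (pow_pos st.qpos _).le
        _ ≤ Q ^ 100 := by rw [← pow_add]; exact st.qpow (by norm_num))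
  have e0 : ∀ k, MT Q Y k = ∑ x ∈ k.divisorsAntidiagonal,
      (if Q ^ 14 ≤ (x.1 : ℝ) ∧ (x.1 : ℝ) < Q ^ 34 then 1 else 0) *
        ∑ e ∈ x.1.divisors, ∑ f ∈ x.2.divisors,
          (if ((e * f : ℕ) : ℝ) < pA Q Y then mu e * mu f else 0) := fun k => by
    simp only [MT, ite_mul, one_mul, zero_mul]
  simp only [e0]
  rw [tmt_swap (XN Q) w (fun k => ah.zero) (rh (pz Q Y))
    (fun d => if Q ^ 14 ≤ (d : ℝ) ∧ (d : ℝ) < Q ^ 34 then 1 else 0) (rh_mul _)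
    (fun e f => if ((e * f : ℕ) : ℝ) < pA Q Y then mu e * mu f else 0)]
  rw [sum_filter, sum_product] at key
  refine le_trans (le_of_eq (congrArg _ (sum_congr rfl fun e he => sum_congr rfl fun f _ => ?_)))
    (key.trans ?_)
  · split_ifs with h
    · refine congrArg _ ?_
      simp only [ite_mul, one_mul, zero_mul]
      rw [← sum_filter]
      refine sum_congr (Finset.ext fun v => ?_) fun _ _ => rfl
      have he1 := (mem_Icc.1 he).1
      rw [mem_filter, mem_Icc, mem_Ioc, ← not_le (a := v), tmt_lt q14 he1, tmt_lt q34 he1, not_lt]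
      refine ⟨fun h => h.2, fun h => ⟨⟨Nat.pos_of_ne_zero ?_, le_XN ?_⟩, h⟩⟩
      · rintro rfl
        simp only [mul_zero, Nat.cast_zero] at h
        linarith [h.1]
      · refine le_trans (Nat.cast_le.2 (Nat.le_mul_of_pos_left v he1)) ?_
        exact h.2.le.trans (st.qpow (by norm_num))
    · simp
  · have := st.taupow (k := 2) (by norm_num)
    calc τ ^ 2 * Y ^ 2 * E ≤ Y * Y ^ 2 * E :=
          mul_le_mul_of_nonneg_right (mul_le_mul_of_nonneg_right this (sq_nonneg Y)) ah.e0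
      _ = _ := by ring

end Pool.Agent.P.MP_8be758_nt.Sq
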