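import Pool.Agent.P.MP_8be758_nt.Sq.IfaceB

/-! Step TN2. -/

set_option autoImplicit false
set_option linter.unusedSectionVars false

namespace Pool.Agent.P.MP_8be758_nt.Sq

open Finset Real Filter Topology ArithmeticFunction
open Pool.Agent.P.MP_e86632_nt (ee nn)
open Pool.Agent.P.MP_8be758_nt.Avg (gs Rough)

theorem tn2_mult {X d : ℕ} (hd : 1 ≤ d) (f : ℕ → ℝ) (hf : ∀ k, X < k → f k = 0) :
    ∑ k ∈ Icc 1 X, (if d ∣ k then f k else 0) = ∑ j ∈ Icc 1 X, f (d * j) := by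
  rw [← sum_filter, ← sum_image (g := fun j => d * j) fun _ _ _ _ e =>
    Nat.eq_of_mul_eq_mul_left hd e]
  refine sum_subset (fun k hk => ?_) fun k hk hn => hf k ?_
  · obtain ⟨h1, j, rfl⟩ := mem_filter.1 hk
    rw [mem_Icc] at h1
    exact mem_image.2 ⟨j, mem_Icc.2 ⟨Nat.pos_of_mul_pos_left h1.1,
      (Nat.le_mul_of_pos_left j hd).trans h1.2⟩, rfl⟩
  · obtain ⟨j, hj, rfl⟩ := mem_image.1 hk
    by_contra h
    exact hn (mem_filter.2 ⟨mem_Icc.2 ⟨Nat.mul_pos hd (mem_Icc.1 hj).1, not_lt.1 h⟩,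
      Dvd.intro _ rfl⟩)

theorem tn2_eq (Q Y : ℝ) {X k : ℕ} (hk : k ∈ Icc 1 X) :
    N2 Q Y k = ∑ p ∈ (Icc 1 X).filter (fun p : ℕ => p.Prime ∧ (p : ℝ) < pA Q Y),
      ∑ q ∈ (Icc 1 X).filter (fun p : ℕ => p.Prime ∧ (p : ℝ) < pA Q Y),
        if (p < q ∧ pW Q Y ≤ ((p * q : ℕ) : ℝ)) ∧ p * q ∣ k then 1 else 0 := by
  rw [mem_Icc] at hk
  rw [N2, ← sum_product', ← sum_product', sum_boole, sum_boole]
  congr 2
  ext ⟨p, q⟩
  simp only [mem_filter, mem_product, Nat.mem_primeFactors, mem_Icc]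
  constructor
  · rintro ⟨⟨⟨h1, h2, -⟩, h3, h4, -⟩, h5, h6, h7⟩
    exact ⟨⟨⟨⟨h1.one_le, (Nat.le_of_dvd hk.1 h2).trans hk.2⟩, h1,
      lt_trans (by exact_mod_cast h5) h6⟩, ⟨h3.one_le, (Nat.le_of_dvd hk.1 h4).trans hk.2⟩, h3, h6⟩,
      ⟨h5, h7⟩, ((Nat.coprime_primes h1 h3).2 h5.ne).mul_dvd_of_dvd_of_dvd h2 h4⟩
  · rintro ⟨⟨⟨-, h1, -⟩, -, h3, h6⟩, ⟨h5, h7⟩, h2⟩
    exact ⟨⟨⟨h1, dvd_of_mul_right_dvd h2, by omega⟩, h3, dvd_of_mul_left_dvd h2, by omega⟩,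
      h5, h6, h7⟩

theorem p_TN2 (hH1 : S_H1) (hG2L : S_G2L) :
    S_TN2 := by
  obtain ⟨Y0, h1⟩ := hH1
  refine ⟨max Y0 10000, fun Q Y τ E w hY h hA => ?_⟩
  obtain ⟨R, hR⟩ : ∃ R, R = (Icc 1 (XN Q)).filter fun p : ℕ => p.Prime ∧ (p : ℝ) < pA Q Y := ⟨_, rfl⟩
  have mR : ∀ r ∈ R, 1 ≤ r ∧ (r : ℝ) < pA Q Y := fun r hr => by
    rw [hR, mem_filter] at hr
    exact ⟨hr.2.1.one_le, hr.2.2⟩
  have l1 : 100 * Real.log Q ≤ Y := by
    simpa using h.mix (C := 100) (a := 0) (b := 1) (by linarith [le_max_right Y0 10000])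
      (by norm_num) (by norm_num)
  have l2 : 1 + ((Nat.log 2 (R.card + R.card) + 1 : ℕ) : ℝ) ≤ Y := by
    have c1 : (R.card : ℝ) ≤ Q ^ 48 := le_trans (by
      rw [hR]; exact_mod_cast (card_filter_le _ _).trans_eq (by simp)) h.XN_le
    have := h.log2 (m := R.card + R.card) (k := 49) (by
      push_cast
      nlinarith [h.q0, pow_pos h.qpos 48, pow_succ Q 48])
    push_cast at this ⊢
    linarith [h.log1]
  have g := (((G2.prod (S1 := R) (S2 := R) (rh (pz Q Y)) (rh (pz Q Y)) (fun _ _ => abs_rh_le _ _)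
    fun _ _ => abs_rh_le _ _).mul (hG2L ℕ ℕ R R (fun r => r) fun d => d)).mul
    (hG2L ℕ ℕ R R (fun r => r) fun d => pW Q Y / d).compl).mono (B' := Y ^ 2) (by
      rw [one_mul, pow_two]
      exact mul_le_mul (by linarith) l2 (by positivity) h.ypos.le)
  have k := h1 Q Y τ E w ((le_max_left _ _).trans hY) h hA R R _ (Y ^ 2) (one_le_pow₀ h.y1) mR
    (fun d hd => ⟨(mR d hd).1, (mR d hd).2.trans_le
      (h.pA_le.trans ((h.qpow (by norm_num)).trans h.le_pW))⟩) (fun r _ d _ => by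
      rw [abs_mul, abs_mul, abs_mul]
      refine mul_le_one₀ (mul_le_one₀ (mul_le_one₀ (abs_rh_le _ _) (abs_nonneg _) (abs_rh_le _ _))
        (abs_nonneg _) ?_) (abs_nonneg _) ?_ <;> split_ifs <;> simp) g
  refine le_of_eq_of_le (congrArg _ ?_) (k.trans_eq (by ring))
  rw [sum_congr rfl fun k hk => by rw [tn2_eq Q Y hk, ← hR, ← mul_assoc, mul_sum], sum_comm]
  refine sum_congr rfl fun p hp => ?_
  rw [sum_congr rfl fun k _ => mul_sum _ _ _, sum_comm]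
  refine sum_congr rfl fun q hq => ?_
  have q0 : (0 : ℝ) < q := by exact_mod_cast (mR q hq).1
  by_cases c : p < q ∧ pW Q Y ≤ ((p * q : ℕ) : ℝ)
  · have c2 : ¬ (p : ℝ) < pW Q Y / q := by
      rw [lt_div_iff₀ q0, not_lt]
      exact_mod_cast c.2
    rw [if_pos (show (p : ℝ) < q by exact_mod_cast c.1), if_neg c2, sub_zero, mul_one, mul_one,
      mul_sum, sum_congr rfl fun k _ => show _ = if p * q ∣ k then w k * rh (pz Q Y) k else 0 by
        simp only [c, true_and, mul_ite, mul_one, mul_zero],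
      tn2_mult (Nat.mul_pos (mR p hp).1 (mR q hq).1) _ fun k hk => by rw [hA.zero hk, zero_mul]]
    exact sum_congr rfl fun j _ => by rw [rh_mul, rh_mul]; ring
  · rw [sum_eq_zero fun k _ => by rw [if_neg fun h => c h.1, mul_zero]]
    by_cases c1 : p < q
    · rw [if_pos (show (p : ℝ) < pW Q Y / q by
        rw [lt_div_iff₀ q0]
        exact_mod_cast not_le.1 fun h => c ⟨c1, h⟩), sub_self, mul_zero, zero_mul]
    · rw [if_neg (show ¬ (p : ℝ) < q by exact_mod_cast c1), mul_zero, zero_mul, zero_mul]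

end Pool.Agent.P.MP_8be758_nt.Sq
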