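import Pool.Agent.P.MP_8be758_nt.Sq.IfaceB

/-! Step TN3. -/

set_option autoImplicit false
set_option linter.unusedSectionVars false

namespace Pool.Agent.P.MP_8be758_nt.Sq

open Finset Real Filter Topology ArithmeticFunction
open Pool.Agent.P.MP_e86632_nt (ee nn)
open Pool.Agent.P.MP_8be758_nt.Avg (gs Rough)

theorem tn3_mult {X d : ℕ} (hd : 1 ≤ d) (f : ℕ → ℝ) (hf : ∀ k, X < k → f k = 0) :
    ∑ k ∈ Icc 1 X, (if d ∣ k then f k else 0) = ∑ j ∈ Icc 1 X, f (d * j) := by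
  rw [← sum_filter, ← sum_image (g := fun j => d * j) fun _ _ _ _ e =>
    Nat.eq_of_mul_eq_mul_left hd e]
  refine sum_subset (fun k hk => ?_) fun k hk hn => hf k ?_
  · obtain ⟨h1, j, rfl⟩ := mem_filter.1 hk
    rw [mem_Icc] at h1
    exact mem_image.2 ⟨j, mem_Icc.2 ⟨Nat.pos_of_mul_pos_left h1.1,
      (Nat.le_mul_of_pos_left j hd).trans h1.2⟩, rfl⟩
  · obtain ⟨j, hj, rfl⟩ := mem_image.1 hk
    by_contra h
    exact hn (mem_filter.2 ⟨mem_Icc.2 ⟨Nat.mul_pos hd (mem_Icc.1 hj).1, not_lt.1 h⟩,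
      Dvd.intro _ rfl⟩)

theorem tn3_min {p q : ℕ} (hp : p.Prime) (hq : q.Prime) (h : p < q) : (p * q).minFac = p := by
  have h1 : p * q ≠ 1 := fun e => hp.one_lt.ne' (Nat.eq_one_of_mul_eq_one_right e)
  have h2 := Nat.minFac_prime h1
  refine le_antisymm (Nat.minFac_le_of_dvd hp.two_le (Dvd.intro _ rfl)) ?_
  rcases (Nat.Prime.dvd_mul h2).1 (Nat.minFac_dvd (p * q)) with h3 | h3
  · exact ((Nat.prime_dvd_prime_iff_eq h2 hp).1 h3).ge
  · exact h.le.trans ((Nat.prime_dvd_prime_iff_eq h2 hq).1 h3).ge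

theorem tn3_eq (Q Y : ℝ) {X k : ℕ} (hk : k ∈ Icc 1 X) (R : Finset ℕ)
    (hR : R = (Icc 1 X).filter fun p : ℕ => p.Prime ∧ (p : ℝ) < pA Q Y) :
    N3 Q Y k = ∑ r ∈ R, ∑ x ∈ (R ×ˢ R).filter
        (fun x : ℕ × ℕ => x.1 < x.2 ∧ ((x.1 * x.2 : ℕ) : ℝ) < pW Q Y),
        if (x.2 < r ∧ pA Q Y ≤ ((x.1 * r : ℕ) : ℝ)) ∧ r * (x.1 * x.2) ∣ k then
          (if ((x.1 * x.2 : ℕ) : ℝ) < pA Q Y then 1 else 3) else 0 := by
  rw [mem_Icc] at hk
  rw [N3, ← sum_product', sum_comm, ← sum_product', ← sum_product', ← sum_filter, ← sum_filter]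
  refine sum_congr ?_ fun _ _ => rfl
  ext ⟨r, p, q⟩
  simp only [hR, mem_filter, mem_product, Nat.mem_primeFactors, mem_Icc]
  constructor
  · rintro ⟨⟨⟨r1, r2, -⟩, ⟨h1, h2, -⟩, h3, h4, -⟩, h5, h6, h7, h8, h9⟩
    have q7 : (q : ℝ) < pA Q Y := lt_trans (by exact_mod_cast h6) h7
    refine ⟨⟨⟨⟨r1.one_le, (Nat.le_of_dvd hk.1 r2).trans hk.2⟩, r1, h7⟩,
      ⟨⟨⟨h1.one_le, (Nat.le_of_dvd hk.1 h2).trans hk.2⟩, h1, lt_trans (by exact_mod_cast h5) q7⟩,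
      ⟨h3.one_le, (Nat.le_of_dvd hk.1 h4).trans hk.2⟩, h3, q7⟩, h5, h8⟩, ⟨h6, h9⟩, ?_⟩
    exact (Nat.Coprime.mul_right ((Nat.coprime_primes r1 h1).2 (h5.trans h6).ne')
      ((Nat.coprime_primes r1 h3).2 h6.ne')).mul_dvd_of_dvd_of_dvd r2
      (((Nat.coprime_primes h1 h3).2 h5.ne).mul_dvd_of_dvd_of_dvd h2 h4)
  · rintro ⟨⟨⟨-, r1, h7⟩, ⟨⟨-, h1, -⟩, -, h3, -⟩, h5, h8⟩, ⟨h6, h9⟩, h2⟩
    have h4 := dvd_of_mul_left_dvd h2
    exact ⟨⟨⟨r1, dvd_of_mul_right_dvd h2, by omega⟩, ⟨h1, dvd_of_mul_right_dvd h4, by omega⟩,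
      h3, dvd_of_mul_left_dvd h4, by omega⟩, h5, h6, h7, h8, h9⟩

theorem p_TN3 (hH1 : S_H1) (hG2L : S_G2L) :
    S_TN3 := by
  obtain ⟨Y0, h1⟩ := hH1
  refine ⟨max Y0 1000000, fun Q Y τ E w hY h hA => ?_⟩
  obtain ⟨R, hR⟩ : ∃ R, R = (Icc 1 (XN Q)).filter fun p : ℕ => p.Prime ∧ (p : ℝ) < pA Q Y := ⟨_, rfl⟩
  obtain ⟨P, hP⟩ : ∃ P, P = (R ×ˢ R).filter
    (fun x : ℕ × ℕ => x.1 < x.2 ∧ ((x.1 * x.2 : ℕ) : ℝ) < pW Q Y) := ⟨_, rfl⟩
  have mR : ∀ r ∈ R, r.Prime ∧ (r : ℝ) < pA Q Y := fun r hr => by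
    rw [hR, mem_filter] at hr
    exact hr.2
  have mP : ∀ x ∈ P, x.1.Prime ∧ x.2.Prime ∧ x.1 < x.2 ∧ ((x.1 * x.2 : ℕ) : ℝ) < pW Q Y :=
    fun x hx => by
      rw [hP, mem_filter, mem_product] at hx
      exact ⟨(mR _ hx.1.1).1, (mR _ hx.1.2).1, hx.2⟩
  have mF : ∀ x ∈ P, (x.1 * x.2).minFac = x.1 ∧ x.1 * x.2 / (x.1 * x.2).minFac = x.2 :=
    fun x hx => by
      obtain ⟨a, b, c, -⟩ := mP x hx
      rw [tn3_min a b c]
      exact ⟨rfl, Nat.mul_div_cancel_left _ a.pos⟩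
  obtain ⟨D, hD⟩ : ∃ D, D = P.image fun x => x.1 * x.2 := ⟨_, rfl⟩
  have l1 : 600 * Real.log Q ≤ Y := by
    simpa using h.mix (C := 600) (a := 0) (b := 1) (by linarith [le_max_right Y0 1000000])
      (by norm_num) (by norm_num)
  have l2 : 1 + ((Nat.log 2 (R.card + D.card) + 1 : ℕ) : ℝ) ≤ Y / 3 := by
    have c1 : (R.card : ℝ) ≤ Q ^ 48 := le_trans (by
      rw [hR]; exact_mod_cast (card_filter_le _ _).trans_eq (by simp)) h.XN_le
    have c2 : (D.card : ℝ) ≤ Q ^ 48 * Q ^ 48 := le_trans (b := (R.card : ℝ) * R.card) (by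
      rw [hD, hP]
      exact_mod_cast card_image_le.trans ((card_filter_le _ _).trans_eq (card_product _ _)))
      (mul_le_mul c1 c1 (Nat.cast_nonneg _) (pow_pos h.qpos _).le)
    have := h.log2 (m := R.card + D.card) (k := 97) (by
      push_cast
      have e1 : Q ^ 48 ≤ Q ^ 96 := h.qpow (by norm_num)
      have e2 : Q ^ 48 * Q ^ 48 = Q ^ 96 := by ring
      nlinarith [h.q0, pow_pos h.qpos 96, pow_succ Q 96])
    push_cast at this ⊢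
    linarith [h.log1]
  have a3 : ∀ d : ℕ, |rh (pz Q Y) d * if (d : ℝ) < pA Q Y then 1 / 3 else 1| ≤ 1 := fun d => by
    rw [abs_mul]
    refine mul_le_one₀ (abs_rh_le _ _) (abs_nonneg _) ?_
    split_ifs
    · rw [abs_of_pos] <;> norm_num
    · simp
  have g := (((G2.prod (S1 := R) (S2 := D) (rh (pz Q Y))
    (fun d => rh (pz Q Y) d * if (d : ℝ) < pA Q Y then 1 / 3 else 1) (fun _ _ => abs_rh_le _ _)
    fun d _ => a3 d).mul (hG2L ℕ ℕ R D (fun r => -r) fun d => -((d / d.minFac : ℕ) : ℝ))).mul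
    (hG2L ℕ ℕ R D (fun r => r) fun d => pA Q Y / d.minFac).compl).mono (B' := Y ^ 2 / 3) (by
      rw [one_mul, pow_two, mul_div_assoc]
      exact mul_le_mul (by linarith [h.ypos]) l2 (by positivity) h.ypos.le)
  have k := h1 Q Y τ E w ((le_max_left _ _).trans hY) h hA R D _ (Y ^ 2 / 3)
    (by nlinarith [h.y0]) (fun r hr => ⟨(mR r hr).1.one_le, (mR r hr).2⟩)
    (fun d hd => by
      obtain ⟨x, hx, rfl⟩ := mem_image.1 (hD ▸ hd)
      obtain ⟨a, b, -, c⟩ := mP x hx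
      exact ⟨Nat.mul_pos a.pos b.pos, c⟩) (fun r _ d _ => by
      rw [abs_mul, abs_mul, abs_mul]
      refine mul_le_one₀ (mul_le_one₀ (mul_le_one₀ (abs_rh_le _ _) (abs_nonneg _) (a3 d))
        (abs_nonneg _) ?_) (abs_nonneg _) ?_ <;> split_ifs <;> simp) g
  have k3 := mul_le_mul_of_nonneg_left k (show (0 : ℝ) ≤ |3| from abs_nonneg _)
  rw [← abs_mul, abs_of_pos (show (0 : ℝ) < 3 by norm_num)] at k3
  refine le_of_eq_of_le (congrArg _ ?_) (k3.trans_eq (by ring))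
  rw [sum_congr rfl fun k hk => by rw [tn3_eq Q Y hk R hR, ← hP, ← mul_assoc, mul_sum], sum_comm,
    mul_sum]
  refine sum_congr rfl fun r hr => ?_
  rw [sum_congr rfl fun k _ => mul_sum _ _ _, sum_comm, hD, sum_image fun x hx y hy e => by
    have e1 : x.1 * x.2 = y.1 * y.2 := e
    have a := mF x hx
    have b := mF y hy
    rw [e1] at a
    exact Prod.ext (a.1.symm.trans b.1) (a.2.symm.trans b.2), mul_sum]
  refine sum_congr rfl fun x hx => ?_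
  obtain ⟨a, b, -, -⟩ := mP x hx
  have p0 : (0 : ℝ) < x.1 := by exact_mod_cast a.pos
  rw [(mF x hx).2, (mF x hx).1]
  by_cases c : x.2 < r ∧ pA Q Y ≤ ((x.1 * r : ℕ) : ℝ)
  · have c2 : ¬ (r : ℝ) < pA Q Y / x.1 := by
      rw [lt_div_iff₀ p0, not_lt, mul_comm]
      exact_mod_cast c.2
    rw [if_pos (show -(r : ℝ) < -(x.2 : ℝ) from neg_lt_neg (by exact_mod_cast c.1)), if_neg c2,
      sub_zero, mul_one, mul_one, mul_sum, mul_sum, sum_congr rfl fun k _ =>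
        show _ = if r * (x.1 * x.2) ∣ k then w k * rh (pz Q Y) k *
          (if ((x.1 * x.2 : ℕ) : ℝ) < pA Q Y then 1 else 3) else 0 by
        simp only [c, true_and, mul_ite, mul_zero],
      tn3_mult (Nat.mul_pos (mR r hr).1.pos (Nat.mul_pos a.pos b.pos)) _ fun k hk => by
        rw [hA.zero hk, zero_mul, zero_mul]]
    refine sum_congr rfl fun j _ => ?_
    rw [rh_mul, rh_mul]
    split_ifs <;> ring
  · rw [sum_eq_zero fun k _ => by rw [if_neg fun h => c h.1, mul_zero]]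
    by_cases c1 : x.2 < r
    · rw [if_pos (show (r : ℝ) < pA Q Y / x.1 by
        rw [lt_div_iff₀ p0, mul_comm]
        exact_mod_cast not_le.1 fun h => c ⟨c1, h⟩), sub_self, mul_zero, zero_mul, mul_zero]
    · rw [if_neg (show ¬ -(r : ℝ) < -(x.2 : ℝ) by
        rw [neg_lt_neg_iff]; exact_mod_cast c1), mul_zero, zero_mul, zero_mul, mul_zero]

end Pool.Agent.P.MP_8be758_nt.Sq
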