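import Pool.Agent.P.MP_8be758_nt.Sq.IfaceB

/-! Step TN4. -/

set_option autoImplicit false
set_option linter.unusedSectionVars false

namespace Pool.Agent.P.MP_8be758_nt.Sq

open Finset Real Filter Topology ArithmeticFunction
open Pool.Agent.P.MP_e86632_nt (ee nn)
open Pool.Agent.P.MP_8be758_nt.Avg (gs Rough)

theorem tn4_mem {a a' b b' : ℝ} (ha : 0 < a) (d : ℕ) :
    d ∈ Ioc (max ⌈a⌉₊ ⌈a'⌉₊ - 1) (min ⌈b⌉₊ ⌈b'⌉₊ - 1) ↔
      a ≤ d ∧ (d : ℝ) < b ∧ a' ≤ d ∧ (d : ℝ) < b' := by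
  have h := Nat.ceil_pos.2 ha
  rw [mem_Ioc, ← Nat.ceil_le, ← Nat.ceil_le, ← Nat.lt_ceil, ← Nat.lt_ceil]
  omega

/-- the condition in `N4` -/
def tn4_C (Q Y : ℝ) (p d : ℕ) : Prop :=
  (p : ℝ) < pA Q Y ∧ pW Q Y ≤ (d : ℝ) ∧ (d : ℝ) < Q ^ 21 * Y ^ 301 ∧
    Q ^ 27 / Y ^ 300 ≤ ((p * d : ℕ) : ℝ) ∧ ((p * d : ℕ) : ℝ) < Q ^ 30 * Y ^ 201

open Classical in
/-- inner weight -/
noncomputable def tn4_G (Q Y z : ℝ) (p d j : ℕ) : ℝ :=
  if tn4_C Q Y p d then rh z p * (rh z d * rh z j) else 0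

/-- outer weight -/
noncomputable def tn4_F (Q Y z : ℝ) (p m : ℕ) : ℝ :=
  if p.Prime then ∑ d ∈ m.divisors, tn4_G Q Y z p d (m / d) else 0

open Classical in
theorem tn4_swap (Q Y z : ℝ) (X : ℕ) (w : ℕ → ℝ) (hw : ∀ k, X < k → w k = 0) :
    ∑ k ∈ Icc 1 X, w k * (rh z k * N4 Q Y k) =
      ∑ p ∈ (Icc 1 X).filter Nat.Prime, rh z p * ∑ d ∈ (Icc 1 X).filter (tn4_C Q Y p),
        rh z d * ∑ j ∈ Icc 1 X, rh z j * w (p * d * j) := by
  have e1 : ∀ k ∈ Icc 1 X, w k * (rh z k * N4 Q Y k) =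
      w k * ∑ p ∈ k.divisors, tn4_F Q Y z p (k / p) := fun k _ => by
    congr 1
    rw [N4, Nat.primeFactors_eq_to_filter_divisors_prime, sum_filter, mul_sum]
    refine sum_congr rfl fun p hp => ?_
    unfold tn4_F
    by_cases h : p.Prime
    · rw [if_pos h, if_pos h, mul_sum]
      refine sum_congr rfl fun d hd => ?_
      have e : rh z k = rh z p * (rh z d * rh z (k / p / d)) := by
        rw [← rh_mul, ← rh_mul, Nat.mul_div_cancel' (Nat.dvd_of_mem_divisors hd),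
          Nat.mul_div_cancel' (Nat.dvd_of_mem_divisors hp)]
      unfold tn4_G
      by_cases hc : tn4_C Q Y p d
      · rw [if_pos hc, if_pos (show _ ∧ _ from hc), mul_one, e]
      · rw [if_neg hc, if_neg (show ¬ (_ ∧ _) from hc), mul_zero]
    · rw [if_neg h, if_neg h, mul_zero]
  rw [sum_congr rfl e1, sum_div_swap X w hw (tn4_F Q Y z), sum_filter]
  refine sum_congr rfl fun p hp => ?_
  unfold tn4_F
  by_cases h : p.Prime
  · simp only [if_pos h]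
    rw [sum_div_swap X (fun m => w (p * m)) (fun m hm =>
      hw _ (hm.trans_le (Nat.le_mul_of_pos_left _ h.pos))) (tn4_G Q Y z p), sum_filter, mul_sum]
    refine sum_congr rfl fun d _ => ?_
    unfold tn4_G
    by_cases hc : tn4_C Q Y p d
    · simp only [if_pos hc, mul_sum]
      exact sum_congr rfl fun j _ => by rw [mul_assoc p]; ring
    · simp only [if_neg hc, mul_zero, sum_const_zero]
  · simp only [if_neg h, mul_zero, sum_const_zero]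

theorem p_TN4 (hH2 : S_H2) :
    S_TN4 := by
  classical
  obtain ⟨Y0, h2⟩ := hH2
  refine ⟨Y0, fun Q Y τ E w hY h hA => ?_⟩
  have q0 := h.qpos
  have y0 := h.ypos
  have hW : 0 < pW Q Y := by unfold pW; positivity
  have hb : Q ^ 21 * Y ^ 301 ≤ Q ^ 34 := h.qy (by norm_num) (by norm_num)
  set S := ((Icc 1 (XN Q)).filter Nat.Prime).filter fun p : ℕ => (p : ℝ) < pA Q Y with hS
  have h3 := h2 Q Y τ E w hY h hA ℕ S id
    (fun p => max ⌈pW Q Y⌉₊ ⌈Q ^ 27 / Y ^ 300 / p⌉₊ - 1)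
    (fun p => min ⌈Q ^ 21 * Y ^ 301⌉₊ ⌈Q ^ 30 * Y ^ 201 / p⌉₊ - 1) (fun p => rh (pz Q Y) p) 1 le_rfl
    (fun p hp => by
      obtain ⟨h4, h5⟩ := mem_filter.1 hp
      refine ⟨(mem_filter.1 h4).2.pos, h5, ?_, abs_rh_le _ _⟩
      have h6 : 0 < Q ^ 21 * Y ^ 301 := by positivity
      have h7 : min ⌈Q ^ 21 * Y ^ 301⌉₊ ⌈Q ^ 30 * Y ^ 201 / p⌉₊ - 1 < ⌈Q ^ 21 * Y ^ 301⌉₊ := by
        have := Nat.ceil_pos.2 h6
        omega
      exact (Nat.lt_ceil.1 h7).le.trans hb)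
    (fun n => by
      have : (S.filter fun s => id s = n).card ≤ 1 :=
        card_le_one.2 fun a ha b hb => (mem_filter.1 ha).2.trans (mem_filter.1 hb).2.symm
      exact_mod_cast this)
    (by
      have h4 : S.card ≤ XN Q :=
        (card_filter_le _ _).trans ((card_filter_le _ _).trans (by simp))
      calc (S.card : ℝ) ≤ XN Q := by exact_mod_cast h4
        _ ≤ Q ^ 48 := Nat.floor_le (by positivity)
        _ ≤ Q ^ 100 := h.qpow (by norm_num))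
  rw [tn4_swap Q Y _ _ w fun k hk => hA.zero hk]
  have e : ∑ p ∈ (Icc 1 (XN Q)).filter Nat.Prime, rh (pz Q Y) p *
      ∑ d ∈ (Icc 1 (XN Q)).filter (tn4_C Q Y p),
        rh (pz Q Y) d * ∑ j ∈ Icc 1 (XN Q), rh (pz Q Y) j * w (p * d * j) =
      ∑ p ∈ S, rh (pz Q Y) p * ∑ d ∈ Ioc (max ⌈pW Q Y⌉₊ ⌈Q ^ 27 / Y ^ 300 / p⌉₊ - 1)
        (min ⌈Q ^ 21 * Y ^ 301⌉₊ ⌈Q ^ 30 * Y ^ 201 / p⌉₊ - 1),
        rh (pz Q Y) d * ∑ j ∈ Icc 1 (XN Q), rh (pz Q Y) j * w (p * d * j) := by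
    rw [hS, sum_filter (s := (Icc 1 (XN Q)).filter Nat.Prime)]
    refine sum_congr rfl fun p hp => ?_
    have p0 : (0 : ℝ) < p := by exact_mod_cast (mem_filter.1 hp).2.pos
    split_ifs with hc
    · congr 1
      refine sum_congr ?_ fun _ _ => rfl
      ext d
      rw [tn4_mem hW, mem_filter, mem_Icc, tn4_C, div_le_iff₀' p0, lt_div_iff₀' p0, Nat.cast_mul]
      refine ⟨fun h4 => h4.2.2, fun h4 => ⟨⟨?_, ?_⟩, hc, h4⟩⟩
      · exact_mod_cast (show (0 : ℝ) < d from hW.trans_le h4.1)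
      · exact Nat.le_floor (h4.2.1.le.trans (hb.trans (h.qpow (by norm_num))))
    · rw [filter_false_of_mem fun d _ h4 => hc h4.1, sum_empty, mul_zero]
  rw [e]
  refine h3.trans ?_
  rw [one_pow, one_mul]
  exact mul_le_mul_of_nonneg_right (h.ymono (by norm_num)) hA.e0

end Pool.Agent.P.MP_8be758_nt.Sq
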