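import Pool.Agent.P.MP_8be758_nt.Sq.IfaceB

/-! Step TNZ. -/

set_option autoImplicit false
set_option linter.unusedSectionVars false

namespace Pool.Agent.P.MP_8be758_nt.Sq

open Finset Real Filter Topology ArithmeticFunction
open Pool.Agent.P.MP_e86632_nt (ee nn)
open Pool.Agent.P.MP_8be758_nt.Avg (gs Rough)

theorem tnz_lt {Q Y τ : ℝ} (h : St Q Y τ) {d : ℕ} (hd : Zn Q Y d) : (d : ℝ) < pW Q Y := by
  refine lt_of_lt_of_le ?_ h.le_pW
  rcases hd.2 with a | a | a
  · exact a.trans_le (h.qpow (by norm_num))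
  · exact a.2.trans_le (h.pA_le.trans (h.qpow (by norm_num)))
  · have := h.qy (a := 16) (b := 17) (k := 1) (by norm_num) (by norm_num)
    rw [pow_one] at this
    exact a.2.trans_le this

theorem p_TNZ (hH1 : S_H1) :
    S_TNZ := by
  obtain ⟨Y0, h1⟩ := hH1
  refine ⟨Y0, fun Q Y τ E w hY h hA => ?_⟩
  have hw : ∀ k, XN Q < k → w k = 0 := fun k hk => hA.sup k (not_InW hk)
  have key := h1 Q Y τ E w hY h hA {1} ((Icc 1 (XN Q)).filter (Zn Q Y))
    (fun _ d => 1 * rh (pz Q Y) d) 1 le_rfl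
    (fun r hr => by
      rw [mem_singleton.1 hr]
      refine ⟨le_rfl, lt_of_lt_of_le ?_ h.le_pA⟩
      have := h.qpow (a := 1) (b := 12) (by norm_num)
      rw [pow_one] at this
      push_cast
      linarith [h.q0])
    (fun d hd => ⟨(mem_Icc.1 (mem_filter.1 hd).1).1, tnz_lt h (mem_filter.1 hd).2⟩)
    (fun _ _ d _ => by rw [one_mul]; exact abs_rh_le _ _)
    (G2.prod (fun _ => 1) (fun d => rh (pz Q Y) d) (by simp) fun d _ => abs_rh_le _ _)
  have e1 : ∑ k ∈ Icc 1 (XN Q), w k * (rh (pz Q Y) k * NZ Q Y k) =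
      ∑ k ∈ Icc 1 (XN Q), w k * ∑ d ∈ k.divisors,
        (fun d j : ℕ => if Zn Q Y d then rh (pz Q Y) d * rh (pz Q Y) j else 0) d (k / d) := by
    refine sum_congr rfl fun k _ => ?_
    rw [NZ, mul_sum]
    congr 1
    refine sum_congr rfl fun d hd => ?_
    simp only
    rw [← rh_mul, Nat.mul_div_cancel' (Nat.dvd_of_mem_divisors hd)]
    split_ifs <;> simp
  rw [e1.trans (sum_div_swap _ w hw
    fun d j : ℕ => if Zn Q Y d then rh (pz Q Y) d * rh (pz Q Y) j else 0)]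
  rw [sum_singleton, sum_filter] at key
  have e2 : ∑ d ∈ Icc 1 (XN Q), ∑ j ∈ Icc 1 (XN Q), w (d * j) *
      (if Zn Q Y d then rh (pz Q Y) d * rh (pz Q Y) j else 0) =
      ∑ d ∈ Icc 1 (XN Q), if Zn Q Y d then
        1 * rh (pz Q Y) d * ∑ j ∈ Icc 1 (XN Q), rh (pz Q Y) j * w (1 * d * j) else 0 := by
    refine sum_congr rfl fun d _ => ?_
    split_ifs
    · rw [mul_sum]
      exact sum_congr rfl fun j _ => by rw [one_mul, one_mul]; ring
    · simp
  rw [e2]
  refine key.trans ?_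
  have := h.ymono (a := 1) (b := 3) (by norm_num)
  rw [pow_one] at this
  rw [one_mul]
  exact mul_le_mul_of_nonneg_right this hA.e0

end Pool.Agent.P.MP_8be758_nt.Sq
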