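import Pool.Agent.P.MP_8be758_nt.Sq.TAH
import Pool.Agent.P.MP_8be758_nt.Sq.TSPL0
import Pool.Agent.P.MP_8be758_nt.Sq.TSPL
import Pool.Agent.P.MP_8be758_nt.Sq.TI2F
import Pool.Agent.P.MP_8be758_nt.Sq.TG2L
import Pool.Agent.P.MP_8be758_nt.Sq.TCRS
import Pool.Agent.P.MP_8be758_nt.Sq.TH1
import Pool.Agent.P.MP_8be758_nt.Sq.TTM1
import Pool.Agent.P.MP_8be758_nt.Sq.TH2A
import Pool.Agent.P.MP_8be758_nt.Sq.TH2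
import Pool.Agent.P.MP_8be758_nt.Sq.TTMT
import Pool.Agent.P.MP_8be758_nt.Sq.TTN2
import Pool.Agent.P.MP_8be758_nt.Sq.TTN3
import Pool.Agent.P.MP_8be758_nt.Sq.TTN4
import Pool.Agent.P.MP_8be758_nt.Sq.TTNZ
import Pool.Agent.P.MP_8be758_nt.Sq.TG2F
import Pool.Agent.P.MP_8be758_nt.Sq.TGOOD1
import Pool.Agent.P.MP_8be758_nt.Sq.TEX
import Pool.Agent.P.MP_8be758_nt.Sq.TBR0
import Pool.Agent.P.MP_8be758_nt.Sq.TENUM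
import Pool.Agent.P.MP_8be758_nt.Sq.TBR1
import Pool.Agent.P.MP_8be758_nt.Sq.TBR2
import Pool.Agent.P.MP_8be758_nt.Sq.TBR
import Pool.Agent.P.MP_8be758_nt.Sq.TPHB
import Pool.Agent.P.MP_8be758_nt.Sq.TGOOD
import Pool.Agent.P.MP_8be758_nt.Sq.TNSQ2
import Pool.Agent.P.MP_8be758_nt.Sq.TGGB
import Pool.Agent.P.MP_8be758_nt.Sq.TPRM
import Pool.Agent.P.MP_8be758_nt.Sq.TLOG
import Pool.Agent.P.MP_8be758_nt.Sq.TSG0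
import Pool.Agent.P.MP_8be758_nt.Sq.TSG1
import Pool.Agent.P.MP_8be758_nt.Sq.TSG3
import Pool.Agent.P.MP_8be758_nt.Sq.TSG4
import Pool.Agent.P.MP_8be758_nt.Sq.TSG5
import Pool.Agent.P.MP_8be758_nt.Sq.TSG
import Pool.Agent.P.MP_8be758_nt.Sq.TSGG
import Pool.Agent.P.MP_8be758_nt.Sq.TSV
import Pool.Agent.P.MP_8be758_nt.Sq.TKER
import Pool.Agent.P.MP_8be758_nt.Sq.TBD1
import Pool.Agent.P.MP_8be758_nt.Sq.TBD2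
import Pool.Agent.P.MP_8be758_nt.Sq.TBX
import Pool.Agent.P.MP_8be758_nt.Sq.TPNT2
import Pool.Agent.P.MP_8be758_nt.Sq.TMW
import Pool.Agent.P.MP_8be758_nt.Sq.TEV
import Pool.Agent.P.MP_8be758_nt.Sq.TLBG
import Pool.Agent.P.MP_8be758_nt.Sq.TLZ1
import Pool.Agent.P.MP_8be758_nt.Sq.TLZ
import Pool.Agent.P.MP_8be758_nt.Sq.TLOSS
import Pool.Agent.P.MP_8be758_nt.Sq.TAV1
import Pool.Agent.P.MP_8be758_nt.Sq.TTH1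
import Pool.Agent.P.MP_8be758_nt.Sq.TAV2
import Pool.Agent.P.MP_8be758_nt.Sq.TTH2
import Pool.Agent.P.MP_8be758_nt.Sq.TTHA
import Pool.Agent.P.MP_8be758_nt.Sq.TMO1
import Pool.Agent.P.MP_8be758_nt.Sq.TPPR
import Pool.Agent.P.MP_8be758_nt.Sq.TGAV
import Pool.Agent.P.MP_8be758_nt.Sq.TMO2
import Pool.Agent.P.MP_8be758_nt.Sq.TFIN

/-! Assembly of all steps. -/

set_option autoImplicit false

namespace Pool.Agent.P.MP_8be758_nt.Sq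

theorem b_AH : S_AH := p_AH
theorem b_SPL0 : S_SPL0 := p_SPL0
theorem b_SPL : S_SPL := p_SPL b_SPL0
theorem b_I2F : S_I2F := p_I2F
theorem b_G2L : S_G2L := p_G2L
theorem b_CRS : S_CRS := p_CRS b_G2L
theorem b_H1 : S_H1 := p_H1 b_SPL b_I2F b_CRS
theorem b_TM1 : S_TM1 := p_TM1 b_H1
theorem b_H2A : S_H2A := p_H2A b_SPL b_I2F b_CRS b_G2L
theorem b_H2 : S_H2 := p_H2 b_SPL b_CRS b_G2L b_H2A
theorem b_TMT : S_TMT := p_TMT b_H2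
theorem b_TN2 : S_TN2 := p_TN2 b_H1 b_G2L
theorem b_TN3 : S_TN3 := p_TN3 b_H1 b_G2L
theorem b_TN4 : S_TN4 := p_TN4 b_H2
theorem b_TNZ : S_TNZ := p_TNZ b_H1
theorem b_G2F : S_G2F := p_G2F
theorem b_GOOD1 : S_GOOD1 := p_GOOD1 b_G2L b_G2F
theorem b_EX : S_EX := p_EX
theorem b_BR0 : S_BR0 := p_BR0
theorem b_ENUM : S_ENUM := p_ENUM b_EX b_BR0
theorem b_BR1 : S_BR1 := p_BR1 b_BR0
theorem b_BR2 : S_BR2 := p_BR2 b_BR0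
theorem b_BR : S_BR := p_BR b_BR0 b_BR1 b_BR2
theorem b_PHB : S_PHB := p_PHB
theorem b_GOOD : S_GOOD := p_GOOD b_GOOD1 b_ENUM b_BR b_PHB
theorem b_NSQ2 : S_NSQ2 := p_NSQ2
theorem b_GGB : S_GGB := p_GGB
theorem b_PRM : S_PRM := p_PRM
theorem b_LOG : S_LOG := p_LOG b_BR0
theorem b_SG0 : S_SG0 := p_SG0
theorem b_SG1 : S_SG1 := p_SG1
theorem b_SG3 : S_SG3 := p_SG3
theorem b_SG4 : S_SG4 := p_SG4
theorem b_SG5 : S_SG5 := p_SG5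
theorem b_SG : S_SG := p_SG b_SG0 b_SG1 b_SG3 b_SG4 b_SG5
theorem b_SGG : S_SGG := p_SGG b_EX b_BR b_LOG b_PHB b_SG
theorem b_SV : S_SV := p_SV b_TM1 b_TMT b_TN2 b_TN3 b_TN4 b_TNZ b_GOOD b_NSQ2 b_GGB b_PRM b_SGG
theorem b_KER : S_KER := p_KER
theorem b_BD1 : S_BD1 := p_BD1 b_SG0
theorem b_BD2 : S_BD2 := p_BD2 b_BD1 b_SG1
theorem b_BX : S_BX := p_BX b_KER b_BD2
theorem b_PNT2 : S_PNT2 := p_PNT2
theorem b_MW : S_MW := p_MW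
theorem b_EV : S_EV := p_EV
theorem b_LBG : S_LBG := p_LBG b_BX b_ENUM b_BR b_LOG b_PNT2 b_MW b_EV
theorem b_LZ1 : S_LZ1 := p_LZ1 b_MW b_EV
theorem b_LZ : S_LZ := p_LZ b_LZ1 b_EV
theorem b_LOSS : S_LOSS := p_LOSS b_LBG b_LZ b_EX b_BR b_PHB b_EV
theorem b_AV1 : S_AV1 := p_AV1
theorem b_TH1 : S_TH1 := p_TH1 b_AV1
theorem b_AV2 : S_AV2 := p_AV2
theorem b_TH2 : S_TH2 := p_TH2 b_AV2
theorem b_THA : S_THA := p_THA b_AH b_SV b_LOSS b_EV b_PNT2 b_TH1 b_TH2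
theorem b_MO1 : S_MO1 := p_MO1 b_THA
theorem b_PPR : S_PPR := p_PPR
theorem b_GAV : S_GAV := p_GAV
theorem b_MO2 : S_MO2 := p_MO2 b_PPR b_GAV
theorem b_FIN : S_FIN := p_FIN b_MO1 b_MO2

end Pool.Agent.P.MP_8be758_nt.Sq
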