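import Pool.Agent.P.MP_8be758_nt.Sq.IfaceA

/-! Step BC0. -/

set_option autoImplicit false
set_option linter.unusedSectionVars false

namespace Pool.Agent.P.MP_8be758_nt.Sq

open Finset Real Filter Topology
open Pool.Agent.P.MP_e86632_nt (ee nn norm_ee ee_add ee_neg)
open Pool.Agent.P.MP_8be758_nt.Avg (gs gs_pos gs_anti gs_le_one gs_neg)

theorem p_BC0 :
    S_BC0 := by
  classical
  intro H y β ε σ hσ
  set A := (Hz H).filter fun h : ℤ => ∃ j : ℤ, |σ * (h * y) - β - j| ≤ ε with hA
  rcases A.eq_empty_or_nonempty with e | ⟨h0, h1⟩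
  · rw [e, card_empty, Nat.cast_zero]; positivity
  have key : (A.erase h0).card ≤ 2 * BN H (2 * ε) y := by
    refine card_le_mul_card_image_of_maps_to (f := fun h : ℤ => (h - h0).natAbs) (fun h hh => ?_) 2
      fun n _ => ?_
    · obtain ⟨h2, h3⟩ := mem_erase.1 hh
      obtain ⟨h4, j, h5⟩ := mem_filter.1 h3
      obtain ⟨h6, j0, h7⟩ := mem_filter.1 h1
      simp only [Hz, mem_erase, mem_Icc] at h4 h6
      refine mem_filter.2 ⟨mem_Icc.2 ⟨by omega, by omega⟩, ?_⟩
      rw [abs_le] at h5 h7
      rw [Nat.cast_natAbs]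
      rcases abs_choice (h - h0) with e | e <;> rcases hσ with rfl | rfl <;> rw [e]
      · exact ⟨j - j0, abs_le.2 (by push_cast; constructor <;> linarith)⟩
      · exact ⟨j0 - j, abs_le.2 (by push_cast; constructor <;> linarith)⟩
      · exact ⟨j0 - j, abs_le.2 (by push_cast; constructor <;> linarith)⟩
      · exact ⟨j - j0, abs_le.2 (by push_cast; constructor <;> linarith)⟩
    · refine (card_le_card (t := {h0 + n, h0 - n}) fun h hh => ?_).trans card_le_two
      have := (mem_filter.1 hh).2
      simp only [mem_insert, mem_singleton]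
      omega
  have := card_erase_add_one h1
  exact_mod_cast (by omega : A.card ≤ 1 + 2 * BN H (2 * ε) y)

end Pool.Agent.P.MP_8be758_nt.Sq
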