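import Pool.Agent.P.MP_8be758_nt.Sq.IfaceA

/-! Step BC1. -/

set_option autoImplicit false
set_option linter.unusedSectionVars false

namespace Pool.Agent.P.MP_8be758_nt.Sq

open Finset Real Filter Topology
open Pool.Agent.P.MP_e86632_nt (ee nn norm_ee ee_add ee_neg)
open Pool.Agent.P.MP_8be758_nt.Avg (gs gs_pos gs_anti gs_le_one gs_neg)

theorem bc1_pt {N ε : ℝ} {h k : ℕ} {t : ℤ} (hN : 1 ≤ N) (hh : 1 ≤ h) (e0 : 0 ≤ ε) (e1 : ε ≤ 1)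
    (k1 : N ^ 2 ≤ k) (k2 : (k : ℝ) ≤ 4 * N ^ 2) (ht : |h * (2 * √(k : ℝ)) - t| ≤ ε) :
    (0 : ℝ) ≤ t ∧ (t : ℝ) ≤ 0 + 5 * h * N ∧
      |((t ^ 2 - ((4 * h ^ 2 : ℕ) : ℤ) * k : ℤ) : ℝ)| ≤ 9 * ε * h * N := by
  have h1 : (1 : ℝ) ≤ h := by exact_mod_cast hh
  have s1 : N ≤ √(k : ℝ) := Real.le_sqrt_of_sq_le k1
  have s2 : √(k : ℝ) ≤ 2 * N := Real.sqrt_le_iff.2 ⟨by linarith, by linarith⟩
  have s3 : √(k : ℝ) ^ 2 = k := Real.sq_sqrt (Nat.cast_nonneg k)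
  have a1 : (h : ℝ) * N ≤ h * √(k : ℝ) := mul_le_mul_of_nonneg_left s1 (by linarith)
  have a2 : (h : ℝ) * √(k : ℝ) ≤ h * (2 * N) := mul_le_mul_of_nonneg_left s2 (by linarith)
  have a3 : (1 : ℝ) ≤ h * N := one_le_mul_of_one_le_of_one_le h1 hN
  obtain ⟨b1, b2⟩ := abs_le.1 ht
  have t0 : (0 : ℝ) ≤ t := by linarith
  have t1 : (t : ℝ) ≤ 0 + 5 * h * N := by linarith
  refine ⟨t0, t1, ?_⟩
  have e : ((t ^ 2 - ((4 * h ^ 2 : ℕ) : ℤ) * k : ℤ) : ℝ) =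
      -((h * (2 * √(k : ℝ)) - t) * (h * (2 * √(k : ℝ)) + t)) := by
    push_cast
    linear_combination (4 * (h : ℝ) ^ 2) * s3
  rw [e, abs_neg, abs_mul, abs_of_nonneg (by linarith : (0 : ℝ) ≤ h * (2 * √(k : ℝ)) + t)]
  calc _ ≤ ε * (9 * h * N) := mul_le_mul ht (by linarith) (by linarith) e0
    _ = _ := by ring

theorem bc1_swap {L : ℝ} (hL : 0 ≤ L) (q : ℕ) (W : ℕ → ℝ) (hW : ∀ g, 0 ≤ W g) :
    ∑ r ∈ Hz ⌊L⌋₊, ∑ g ∈ (Icc 1 q).filter (fun g : ℕ => g ^ 2 ∣ q ∧ (g : ℤ) ^ 2 ∣ 4 * r), W g ≤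
      ∑ g ∈ Icc 1 q, W g * (8 * L / (g : ℝ) ^ 2) := by
  simp only [sum_filter]
  rw [sum_comm]
  refine sum_le_sum fun g hg => ?_
  rw [← sum_filter, sum_const, nsmul_eq_mul, mul_comm]
  refine mul_le_mul_of_nonneg_left ?_ (hW g)
  have g0 : 0 < g := (mem_Icc.1 hg).1
  rw [← card_image_of_injective _ (mul_right_injective₀ (show (4 : ℤ) ≠ 0 by norm_num))]
  refine (card_mult_le (q := g ^ 2) (L := 4 * L) (pow_pos g0 2) (by linarith) _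
    fun t ht => ?_).trans_eq (by push_cast; ring)
  obtain ⟨r, hr, rfl⟩ := mem_image.1 ht
  obtain ⟨r1, -, r2⟩ := mem_filter.1 hr
  obtain ⟨r3, r4⟩ := mem_Hz.1 r1
  refine ⟨mul_ne_zero (by norm_num) r3, ?_, by exact_mod_cast r2⟩
  have r5 : |(r : ℝ)| ≤ (⌊L⌋₊ : ℝ) := by exact_mod_cast r4
  have r6 := Nat.floor_le hL
  push_cast
  rw [abs_mul, abs_of_pos (by norm_num : (0 : ℝ) < 4)]
  linarith

theorem p_BC1 (hRT : S_RT) :
    S_BC1 := by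
  classical
  refine ⟨324, by norm_num, fun Z τ N ε h K hS hN hZ hh hhN e0 e1 hK => ?_⟩
  set K' := K.filter fun k : ℕ => ∃ j : ℤ, |h * (2 * √(k : ℝ)) - j| ≤ ε with hK'
  have ex : ∀ k ∈ K', ∃ j : ℤ, |h * (2 * √(k : ℝ)) - j| ≤ ε := fun k hk => (mem_filter.1 hk).2
  choose! t ht using ex
  have pt := fun k (hk : k ∈ K') => bc1_pt hN hh e0 e1 (hK k (mem_filter.1 hk).1).1
    (hK k (mem_filter.1 hk).1).2 (ht k hk)
  have h1 : (1 : ℝ) ≤ h := by exact_mod_cast hh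
  have t1 := hS.t1
  have q0 : 0 < 4 * h ^ 2 := by positivity
  have M0 : (0 : ℝ) ≤ 5 * h * N := by positivity
  have L0 : (0 : ℝ) ≤ 9 * ε * h * N := by positivity
  set r : ℕ → ℤ := fun k => t k ^ 2 - ((4 * h ^ 2 : ℕ) : ℤ) * k with hr
  have inj : ∀ ρ : ℤ, ((K'.filter fun k => r k = ρ).image t).card =
      (K'.filter fun k => r k = ρ).card := fun ρ => card_image_of_injOn fun a ha b hb e => by
    have e1 := (mem_filter.1 ha).2.trans (mem_filter.1 hb).2.symm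
    simp only [hr, e, sub_right_inj] at e1
    exact_mod_cast mul_left_cancel₀ (by exact_mod_cast q0.ne') e1
  have fib : K'.card = ∑ ρ ∈ insert 0 (Hz ⌊9 * ε * h * N⌋₊), (K'.filter fun k => r k = ρ).card := by
    refine card_eq_sum_card_fiberwise fun k hk => ?_
    by_cases h0 : r k = 0
    · exact mem_coe.2 (mem_insert.2 (Or.inl h0))
    refine mem_coe.2 (mem_insert.2 (Or.inr (mem_Hz.2 ⟨h0, ?_⟩)))
    have h2 : ((r k).natAbs : ℝ) ≤ 9 * ε * h * N := by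
      rw [Nat.cast_natAbs, Int.cast_abs]; exact (pt k hk).2.2
    rw [← Int.natCast_natAbs]
    exact_mod_cast Nat.le_floor h2
  have c0 : ((K'.filter fun k => r k = 0).card : ℝ) ≤ 4 * N := by
    rw [← inj]
    refine (card_class_le (q := 2 * h) (a := 0) (by omega) 0 M0 _ fun x hx => ?_).trans ?_
    · obtain ⟨k, hk, rfl⟩ := mem_image.1 hx
      obtain ⟨k1, k2⟩ := mem_filter.1 hk
      refine ⟨(pt k k1).1, (pt k k1).2.1, ?_⟩
      rw [sub_zero, ← Int.pow_dvd_pow_iff (two_ne_zero)]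
      refine ⟨k, ?_⟩
      simp only [hr] at k2
      push_cast at k2 ⊢
      linear_combination k2
    · have e : 5 * (h : ℝ) * N / ((2 * h : ℕ) : ℝ) = 5 / 2 * N := by push_cast; field_simp
      rw [e]; linarith
  have qZ : ((4 * h ^ 2 : ℕ) : ℝ) ≤ Z ^ 2 := by
    push_cast; nlinarith
  have c1 : ∀ ρ : ℤ, ((K'.filter fun k => r k = ρ).card : ℝ) ≤
      τ * ∑ g ∈ (Icc 1 (4 * h ^ 2)).filter
        (fun g : ℕ => g ^ 2 ∣ 4 * h ^ 2 ∧ (g : ℤ) ^ 2 ∣ 4 * ρ),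
        (5 * h * N * g / ((4 * h ^ 2 : ℕ) : ℝ) + 1) := fun ρ => by
    rw [← inj]
    refine (hRT (4 * h ^ 2) 1 ρ 0 _ _ q0 isCoprime_one_left M0 fun x hx => ?_).trans
      (mul_le_mul_of_nonneg_right (hS.dv _ (qZ.trans (hS.pow (by norm_num))))
        (sum_nonneg fun _ _ => by positivity))
    obtain ⟨k, hk, rfl⟩ := mem_image.1 hx
    obtain ⟨k1, k2⟩ := mem_filter.1 hk
    exact ⟨(pt k k1).1, (pt k k1).2.1, k, by rw [← k2, hr]; ring⟩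
  have c2 := bc1_swap L0 (4 * h ^ 2) (fun g => 5 * h * N * g / ((4 * h ^ 2 : ℕ) : ℝ) + 1)
    fun g => by positivity
  have c3 : ∑ g ∈ (Icc 1 (4 * h ^ 2) : Finset ℕ), (5 * h * N * g / ((4 * h ^ 2 : ℕ) : ℝ) + 1) *
      (8 * (9 * ε * h * N) / (g : ℝ) ^ 2) =
      90 * ε * N ^ 2 * ∑ g ∈ (Icc 1 (4 * h ^ 2) : Finset ℕ), 1 / (g : ℝ) +
        72 * ε * h * N * ∑ g ∈ (Icc 1 (4 * h ^ 2) : Finset ℕ), 1 / (g : ℝ) ^ 2 := by
    rw [mul_sum, mul_sum, ← sum_add_distrib]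
    refine sum_congr rfl fun g hg => ?_
    have g0 : (0 : ℝ) < g := by exact_mod_cast (mem_Icc.1 hg).1
    push_cast
    field_simp
    ring
  have c4 := hS.harm (k := 2) (by norm_num) (S := Icc 1 (4 * h ^ 2)) fun d hd =>
    le_trans (by exact_mod_cast (mem_Icc.1 hd).2) qZ
  have c5 := sum_inv_sq_le (Icc 1 (4 * h ^ 2))
  have c6 := mul_le_mul_of_nonneg_left c4 (show 0 ≤ 90 * ε * N ^ 2 by positivity)
  have c7 := mul_le_mul_of_nonneg_left c5 (show 0 ≤ 72 * ε * h * N by positivity)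
  have c8 : ε * h * N ≤ ε * N ^ 2 * τ := by
    have := mul_le_mul_of_nonneg_left (mul_le_mul hhN t1 zero_le_one (by linarith))
      (show 0 ≤ ε * N by positivity)
    linarith
  rw [c3] at c2
  push_cast at c6
  have c9 := mul_le_mul_of_nonneg_left (c2.trans (show _ ≤ 324 * (ε * N ^ 2 * τ) by linarith))
    (show 0 ≤ τ by linarith)
  rw [fib, sum_insert (fun h => (mem_Hz.1 h).1 rfl), Nat.cast_add, Nat.cast_sum]
  have c10 := sum_le_sum fun ρ (_ : ρ ∈ Hz ⌊9 * ε * h * N⌋₊) => c1 ρ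
  rw [← mul_sum] at c10
  have c11 : N ≤ τ ^ 2 * N := le_mul_of_one_le_left (by linarith) (one_le_pow₀ t1)
  linarith

end Pool.Agent.P.MP_8be758_nt.Sq
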