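import Pool.Agent.P.MP_8be758_nt.Sq.IfaceA

/-! Step BC2. -/

set_option autoImplicit false
set_option linter.unusedSectionVars false

namespace Pool.Agent.P.MP_8be758_nt.Sq

open Finset Real Filter Topology
open Pool.Agent.P.MP_e86632_nt (ee nn norm_ee ee_add ee_neg)
open Pool.Agent.P.MP_8be758_nt.Avg (gs gs_pos gs_anti gs_le_one gs_neg)

theorem bc2_fib {Z τ N : ℝ} (hs : Sz Z τ) (h1 : 1 ≤ N) (h2 : 2 * N ≤ Z) {S : Finset ℕ}
    (hS : In S N (2 * N)) (P : ℕ → Prop) [DecidablePred P] :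
    In ((S ×ˢ S).image fun p => p.1 * p.2) (N ^ 2) (4 * N ^ 2) ∧
    (((S ×ˢ S).filter fun p => P (p.1 * p.2)).card : ℝ) ≤
      τ * (((S ×ˢ S).image fun p => p.1 * p.2).filter P).card := by
  have hK : In ((S ×ˢ S).image fun p => p.1 * p.2) (N ^ 2) (4 * N ^ 2) := fun k hk => by
    obtain ⟨p, hp, rfl⟩ := mem_image.1 hk
    obtain ⟨a1, a2⟩ := hS _ (mem_product.1 hp).1
    obtain ⟨b1, b2⟩ := hS _ (mem_product.1 hp).2
    push_cast
    constructor <;> nlinarith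
  refine ⟨hK, ?_⟩
  rw [card_eq_sum_card_fiberwise (f := fun p : ℕ × ℕ => p.1 * p.2)
    (t := ((S ×ˢ S).image fun p => p.1 * p.2).filter P) fun p hp =>
      mem_filter.2 ⟨mem_image_of_mem _ (mem_filter.1 hp).1, (mem_filter.1 hp).2⟩,
    Nat.cast_sum, mul_comm, ← nsmul_eq_mul]
  refine sum_le_card_nsmul _ _ _ fun k hk => ?_
  have k1 := hK k (mem_filter.1 hk).1
  have k0 := hK.pos (by positivity) (mem_filter.1 hk).1
  refine le_trans (by exact_mod_cast card_pairs_le k0.ne' _ fun x hx => (mem_filter.1 hx).2)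
    (hs.dv k (k1.2.trans (le_trans ?_ (hs.pow (show 2 ≤ 5 by norm_num)))))
  nlinarith

theorem p_BC2 (hBC1 : S_BC1) :
    S_BC2 := by
  classical
  obtain ⟨C, hC, h⟩ := hBC1
  refine ⟨2 * C, by positivity, fun Z τ N ε H S hs h1 h2 h3 h4 h5 hS => ?_⟩
  have t1 := hs.t1
  have e : ∑ n1 ∈ S, ∑ n2 ∈ S, (BN H ε (2 * √((n1 : ℝ) * n2)) : ℝ) = ∑ k ∈ Icc 1 (2 * H),
      (((S ×ˢ S).filter fun p => ∃ j : ℤ,
        |(k : ℝ) * (2 * √((p.1 * p.2 : ℕ) : ℝ)) - j| ≤ ε).card : ℝ) := by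
    simp only [BN, card_filter, Nat.cast_sum, Nat.cast_mul]
    rw [sum_comm (s := Icc 1 (2 * H)), sum_product]
  rw [e]
  refine (sum_le_card_nsmul _ _ (τ * (C * τ ^ 2 * (N + N ^ 2 * ε))) fun k hk => ?_).trans_eq ?_
  · have := bc2_fib hs h1 h2 hS fun m => ∃ j : ℤ, |(k : ℝ) * (2 * √(m : ℝ)) - j| ≤ ε
    refine this.2.trans (mul_le_mul_of_nonneg_left ?_ (by linarith))
    convert h Z τ N ε k _ hs h1 h2 (mem_Icc.1 hk).1
      (le_trans (by exact_mod_cast (mem_Icc.1 hk).2) h3) h4 h5 this.1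
  · rw [Nat.card_Icc, nsmul_eq_mul]
    push_cast
    ring

end Pool.Agent.P.MP_8be758_nt.Sq
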