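import Pool.Agent.P.MP_8be758_nt.Sq.IfaceA

/-! Step DG1. -/

set_option autoImplicit false
set_option linter.unusedSectionVars false

namespace Pool.Agent.P.MP_8be758_nt.Sq

open Finset Real Filter Topology
open Pool.Agent.P.MP_e86632_nt (ee nn norm_ee ee_add ee_neg)
open Pool.Agent.P.MP_8be758_nt.Avg (gs gs_pos gs_anti gs_le_one gs_neg)

theorem dg1_main (N La : ℝ) (h1 h2 : ℕ) (S : Finset ℕ) (hN : 1 ≤ N) (hL : 0 ≤ La) (p1 : 1 ≤ h1)
    (p2 : 1 ≤ h2) (hS : In S N (2 * N)) (T : Finset (ℕ × ℕ))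
    (hT : ∀ p ∈ T, p.1 ∈ S ∧ h1 ^ 2 * p.1 ≠ h2 ^ 2 * p.2 ∧
      |(h1 : ℝ) ^ 2 * p.1 - (h2 : ℝ) ^ 2 * p.2| ≤ La) :
    (T.card : ℝ) ≤ 2 * La * (N / (h2 : ℝ) ^ 2 + 1) := by
  classical
  obtain ⟨g, a, b, g0, hab, rfl, rfl⟩ := Nat.exists_coprime' (m := h1) (n := h2)
    (Nat.gcd_pos_of_pos_left _ p1)
  have b0 : 0 < b := Nat.pos_of_mul_pos_right p2
  have gz : (g : ℤ) ≠ 0 := by exact_mod_cast g0.ne'
  have bz : (b : ℤ) ≠ 0 := by exact_mod_cast b0.ne'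
  have gr : (1 : ℝ) ≤ g := by exact_mod_cast g0
  have br : (0 : ℝ) < b := by exact_mod_cast b0
  set l : ℕ × ℕ → ℤ := fun p => ((a : ℤ) * g) ^ 2 * p.1 - ((b : ℤ) * g) ^ 2 * p.2 with hl
  have e1 : ((T.image l).card : ℝ) ≤ 2 * La / ((g ^ 2 : ℕ) : ℝ) :=
    card_mult_le (pow_pos g0 2) hL _ fun t ht => by
      obtain ⟨p, hp, rfl⟩ := mem_image.1 ht
      refine ⟨fun e => (hT p hp).2.1 ?_, ?_, ⟨(a : ℤ) ^ 2 * p.1 - (b : ℤ) ^ 2 * p.2, ?_⟩⟩
      · have := sub_eq_zero.1 e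
        exact_mod_cast this
      · have := (hT p hp).2.2
        simp only [hl]
        push_cast at this ⊢
        exact this
      · simp only [hl]
        push_cast
        ring
  have e2 : ∀ t ∈ T.image l, ((T.filter fun p => l p = t).card : ℝ) ≤
      N / ((b ^ 2 : ℕ) : ℝ) + 1 := fun t ht => by
    obtain ⟨p0, -, rfl⟩ := mem_image.1 ht
    have k1 : ∀ p q : ℕ × ℕ, l p = l q →
        (a : ℤ) ^ 2 * ((p.1 : ℤ) - q.1) = (b : ℤ) ^ 2 * ((p.2 : ℤ) - q.2) := fun p q e =>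
      mul_left_cancel₀ (pow_ne_zero 2 gz) (by simp only [hl] at e; linear_combination e)
    rw [← card_image_of_injOn (f := fun p : ℕ × ℕ => (p.1 : ℤ)) fun p hp q hq e => ?_]
    · refine card_class_le (pow_pos b0 2) p0.1 (a := N) (by linarith) _ fun t ht => ?_
      obtain ⟨p, hp, rfl⟩ := mem_image.1 ht
      obtain ⟨k2, k3⟩ := mem_filter.1 hp
      have k4 := hS _ (hT p k2).1
      refine ⟨by exact_mod_cast k4.1, by push_cast; linarith [k4.2], ?_⟩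
      have k5 : IsCoprime ((b : ℤ) ^ 2) ((a : ℤ) ^ 2) :=
        (Nat.isCoprime_iff_coprime.2 hab.symm).pow
      push_cast
      exact k5.dvd_of_dvd_mul_left ⟨_, k1 p p0 k3⟩
    · have k2 := k1 p q ((mem_filter.1 hp).2.trans (mem_filter.1 hq).2.symm)
      have e' : (p.1 : ℤ) = q.1 := e
      rw [e', sub_self, mul_zero, eq_comm, mul_eq_zero, sub_eq_zero] at k2
      exact Prod.ext (by exact_mod_cast e')
        (by exact_mod_cast k2.resolve_left (pow_ne_zero 2 bz))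
  have e3 : (T.card : ℝ) ≤ (T.image l).card * (N / ((b ^ 2 : ℕ) : ℝ) + 1) := by
    rw [card_eq_sum_card_image l T, Nat.cast_sum, ← nsmul_eq_mul]
    exact sum_le_card_nsmul _ _ _ e2
  refine e3.trans ((mul_le_mul_of_nonneg_right e1 (by positivity)).trans ?_)
  have e4 : 1 / (g : ℝ) ^ 2 ≤ 1 := (div_le_one (by positivity)).2 (one_le_pow₀ gr)
  calc 2 * La / ((g ^ 2 : ℕ) : ℝ) * (N / ((b ^ 2 : ℕ) : ℝ) + 1)
      = 2 * La * (N / ((b * g : ℕ) : ℝ) ^ 2 + 1 / (g : ℝ) ^ 2) := by push_cast; field_simp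
    _ ≤ _ := by gcongr

theorem p_DG1 :
    S_DG1 := by
  classical
  intro N La h1 h2 S hN hL p1 p2 hS
  rcases le_total h1 h2 with h | h
  · rw [max_eq_right h]
    exact dg1_main N La h1 h2 S hN hL p1 p2 hS _ fun p hp =>
      ⟨(mem_product.1 (mem_filter.1 hp).1).1, (mem_filter.1 hp).2⟩
  · rw [max_eq_left h, ← card_image_of_injective _ Prod.swap_injective]
    refine dg1_main N La h2 h1 S hN hL p2 p1 hS _ fun p hp => ?_
    obtain ⟨q, hq, rfl⟩ := mem_image.1 hp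
    obtain ⟨k1, k2, k3⟩ := mem_filter.1 hq
    exact ⟨(mem_product.1 k1).2, k2.symm, by rwa [abs_sub_comm]⟩

end Pool.Agent.P.MP_8be758_nt.Sq
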