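import Pool.Agent.P.MP_8be758_nt.Sq.IfaceA

/-! Step DG2. -/

set_option autoImplicit false
set_option linter.unusedSectionVars false

namespace Pool.Agent.P.MP_8be758_nt.Sq

open Finset Real Filter Topology
open Pool.Agent.P.MP_e86632_nt (ee nn norm_ee ee_add ee_neg)
open Pool.Agent.P.MP_8be758_nt.Avg (gs gs_pos gs_anti gs_le_one gs_neg)

theorem dg2_half (H : ℕ) :
    ∑ a ∈ Icc 1 H, ∑ b ∈ Icc 1 H, (if b ≤ a then 1 / (a : ℝ) ^ 2 else 0) ≤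
      ∑ a ∈ Icc 1 H, 1 / (a : ℝ) := by
  refine sum_le_sum fun a ha => ?_
  have a0 : (0 : ℝ) < a := by exact_mod_cast (mem_Icc.1 ha).1
  have h1 : ((Icc 1 H).filter fun b => b ≤ a).card ≤ (Icc 1 a).card :=
    card_le_card fun b hb => mem_Icc.2 ⟨(mem_Icc.1 (mem_filter.1 hb).1).1, (mem_filter.1 hb).2⟩
  rw [Nat.card_Icc, Nat.add_sub_cancel] at h1
  rw [← sum_filter, sum_const, nsmul_eq_mul]
  calc _ ≤ (a : ℝ) * (1 / (a : ℝ) ^ 2) := by gcongr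
    _ = _ := by field_simp

theorem dg2_max (H : ℕ) :
    ∑ a ∈ Icc 1 H, ∑ b ∈ Icc 1 H, 1 / ((max a b : ℕ) : ℝ) ^ 2 ≤ 2 * ∑ a ∈ Icc 1 H, 1 / (a : ℝ) := by
  have h1 := dg2_half H
  have h2 := dg2_half H
  rw [sum_comm] at h2
  refine le_trans ?_ ((add_le_add h1 h2).trans_eq (by ring))
  rw [← sum_add_distrib]
  refine sum_le_sum fun a _ => ?_
  rw [← sum_add_distrib]
  refine sum_le_sum fun b _ => ?_
  rcases le_total b a with h | h
  · rw [max_eq_left h, if_pos h]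
    exact le_add_of_nonneg_right (by split_ifs <;> positivity)
  · rw [max_eq_right h, if_pos h]
    exact le_add_of_nonneg_left (by split_ifs <;> positivity)

theorem dg2_diag {Z τ : ℝ} (h : Sz Z τ) {m : ℕ} (h0 : m ≠ 0) (hm : (m : ℝ) ≤ Z ^ 5)
    (S A : Finset ℕ) :
    ∑ n ∈ S, ∑ b ∈ A, (if m = b ^ 2 * n then (1 : ℝ) else 0) ≤ τ := by
  rw [← sum_product', sum_boole]
  refine le_trans ?_ (h.dv m hm)
  refine Nat.cast_le.2 (card_le_card_of_injOn (fun p => p.2) (fun p hp => ?_) fun p hp q hq e => ?_)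
  · have e := (mem_filter.1 (mem_coe.1 hp)).2
    exact mem_coe.2 (Nat.mem_divisors.2 ⟨⟨p.2 * p.1, by rw [e]; ring⟩, h0⟩)
  · have e1 := (mem_filter.1 (mem_coe.1 hp)).2
    have e2 := (mem_filter.1 (mem_coe.1 hq)).2
    have e3 : p.2 = q.2 := e
    have e4 : q.2 ^ 2 ≠ 0 := fun e5 => h0 (by rw [e2, e5, zero_mul])
    rw [e3, e2] at e1
    exact Prod.ext (mul_left_cancel₀ e4 e1).symm e3

theorem p_DG2 (hDG1 : S_DG1) :
    S_DG2 := by
  refine ⟨4, by norm_num, fun Z τ N La H S h hN hNZ hH hL hS => ?_⟩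
  have z1 : 1 ≤ Z := by linarith [h.z]
  have t1 := h.t1
  have H0 : (0 : ℝ) ≤ H := Nat.cast_nonneg _
  have cS := hS.card_le (by linarith) (by linarith)
  have h1 : ∑ n1 ∈ S, ∑ n2 ∈ S, (DN H La n1 n2 : ℝ) ≤
      ∑ n1 ∈ S, ∑ n2 ∈ S, ∑ a ∈ Icc 1 H, ∑ b ∈ Icc 1 H,
        (if a ^ 2 * n1 = b ^ 2 * n2 then (1 : ℝ) else 0) +
      ∑ n1 ∈ S, ∑ n2 ∈ S, ∑ a ∈ Icc 1 H, ∑ b ∈ Icc 1 H,
        (if a ^ 2 * n1 ≠ b ^ 2 * n2 ∧ |(a : ℝ) ^ 2 * n1 - (b : ℝ) ^ 2 * n2| ≤ La then (1 : ℝ)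
          else 0) := by
    simp only [← sum_add_distrib]
    refine sum_le_sum fun n1 _ => sum_le_sum fun n2 _ => ?_
    rw [DN, ← sum_boole, sum_product]
    refine sum_le_sum fun a _ => sum_le_sum fun b _ => ?_
    by_cases e : a ^ 2 * n1 = b ^ 2 * n2 <;>
      by_cases e' : |(a : ℝ) ^ 2 * n1 - (b : ℝ) ^ 2 * n2| ≤ La <;> simp [e, e']
  have h2 : ∑ n1 ∈ S, ∑ n2 ∈ S, ∑ a ∈ Icc 1 H, ∑ b ∈ Icc 1 H,
      (if a ^ 2 * n1 = b ^ 2 * n2 then (1 : ℝ) else 0) ≤ 2 * N * (H * τ) := by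
    refine (sum_le_card_nsmul _ _ (H * τ) fun n1 hn => ?_).trans ?_
    · rw [sum_comm]
      refine (sum_le_card_nsmul _ _ τ fun a ha => ?_).trans ?_
      · have a1 := mem_Icc.1 ha
        have a2 : (a : ℝ) ≤ Z := le_trans (by exact_mod_cast a1.2) hH
        have n0 := hS.pos (by linarith) hn
        refine dg2_diag h (Nat.mul_pos (pow_pos a1.1 2) n0).ne' ?_ _ _
        refine le_trans ?_ (h.pow (show 3 ≤ 5 by norm_num))
        push_cast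
        rw [pow_succ Z 2]
        gcongr
        exact (hS _ hn).2.trans hNZ
      · rw [Nat.card_Icc, Nat.add_sub_cancel, nsmul_eq_mul]
    · rw [nsmul_eq_mul]
      gcongr
  have h3 : ∑ n1 ∈ S, ∑ n2 ∈ S, ∑ a ∈ Icc 1 H, ∑ b ∈ Icc 1 H,
      (if a ^ 2 * n1 ≠ b ^ 2 * n2 ∧ |(a : ℝ) ^ 2 * n1 - (b : ℝ) ^ 2 * n2| ≤ La then (1 : ℝ)
        else 0) ≤ ∑ a ∈ Icc 1 H, ∑ b ∈ Icc 1 H,
        (2 * La * N * (1 / ((max a b : ℕ) : ℝ) ^ 2) + 2 * La) := by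
    rw [← sum_product', sum_comm]
    refine sum_le_sum fun a ha => ?_
    rw [sum_comm]
    refine sum_le_sum fun b hb => ?_
    rw [sum_boole]
    exact (hDG1 N La a b S hN hL (mem_Icc.1 ha).1 (mem_Icc.1 hb).1 hS).trans_eq (by ring)
  have h4 := h.harm (k := 1) le_rfl (S := Icc 1 H) fun d hd => by
    rw [pow_one]; exact le_trans (by exact_mod_cast (mem_Icc.1 hd).2) hH
  have h5 := mul_le_mul_of_nonneg_left ((dg2_max H).trans
    (mul_le_mul_of_nonneg_left h4 (by norm_num))) (show 0 ≤ 2 * La * N by positivity)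
  simp only [sum_add_distrib, ← mul_sum, sum_const, Nat.card_Icc, Nat.add_sub_cancel,
    nsmul_eq_mul] at h3
  have p1 : 0 ≤ τ * (N * H) := by positivity
  have p2 : La * (H : ℝ) ^ 2 ≤ τ * (La * (H : ℝ) ^ 2) := le_mul_of_one_le_left (by positivity) t1
  have p3 : 0 ≤ La * (H : ℝ) ^ 2 := by positivity
  rw [Nat.cast_one] at h5
  linarith

end Pool.Agent.P.MP_8be758_nt.Sq
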