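import Pool.Agent.P.MP_8be758_nt.Sq.IfaceA

/-! Step GAU. -/

set_option autoImplicit false
set_option linter.unusedSectionVars false

namespace Pool.Agent.P.MP_8be758_nt.Sq

open Finset Real Filter Topology
open Pool.Agent.P.MP_e86632_nt (ee nn norm_ee ee_add ee_neg)
open Pool.Agent.P.MP_8be758_nt.Avg (gs gs_pos gs_anti gs_le_one gs_neg)

theorem gau_card (q : ℕ) [NeZero q] (c : ℤ) :
    (univ.filter fun d : ZMod q => (c : ZMod q) * d = 0).card ≤ Int.gcd c q := by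
  refine le_trans (card_le_card fun d hd => ?_) (IsAddCyclic.card_nsmul_eq_zero_le (α := ZMod q)
    (Int.gcd_pos_of_ne_zero_right c (by exact_mod_cast NeZero.ne q)))
  have h1 := (mem_filter.1 hd).2
  have h2 := congrArg (Int.cast : ℤ → ZMod q) (Int.gcd_eq_gcd_ab c q)
  simp only [Int.cast_natCast, Int.cast_add, Int.cast_mul, ZMod.natCast_self, zero_mul,
    add_zero] at h2
  refine mem_filter.2 ⟨mem_univ _, ?_⟩
  rw [nsmul_eq_mul, h2, mul_right_comm, h1, zero_mul]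

theorem gau_sum (q : ℕ) [NeZero q] (a m : ℤ) :
    ‖∑ b : ZMod q, ZMod.stdAddChar ((a : ZMod q) * b ^ 2 + (m : ZMod q) * b)‖ ≤
      √((q : ℝ) * Int.gcd (2 * a) q) := by
  set G := ∑ b : ZMod q, ZMod.stdAddChar ((a : ZMod q) * b ^ 2 + (m : ZMod q) * b) with hG
  have e : (starRingEnd ℂ) G * G = ∑ d : ZMod q,
      ZMod.stdAddChar ((a : ZMod q) * d ^ 2 + (m : ZMod q) * d) *
      ∑ b : ZMod q, ZMod.stdAddChar (b * (((2 * a : ℤ) : ZMod q) * d)) := by
    simp only [mul_sum]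
    rw [sum_comm, hG, map_sum, sum_mul]
    refine sum_congr rfl fun b _ => ?_
    rw [mul_sum, ← Equiv.sum_comp (Equiv.addLeft b)]
    refine sum_congr rfl fun d _ => ?_
    rw [← AddChar.map_neg_eq_conj, ← AddChar.map_add_eq_mul, ← AddChar.map_add_eq_mul]
    congr 1
    simp only [Equiv.coe_addLeft]
    push_cast
    ring
  refine Real.le_sqrt_of_sq_le ?_
  have e2 : ‖G‖ ^ 2 = ‖(starRingEnd ℂ) G * G‖ := by rw [norm_mul, RCLike.norm_conj, sq]
  rw [e2, e]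
  refine (norm_sum_le_of_le (n := fun d : ZMod q =>
    if ((2 * a : ℤ) : ZMod q) * d = 0 then (q : ℝ) else 0) _ fun d _ => ?_).trans ?_
  · rw [norm_mul, AddChar.norm_apply, one_mul,
      AddChar.sum_mulShift _ (ZMod.isPrimitive_stdAddChar q), ZMod.card]
    split_ifs <;> simp
  · rw [← sum_filter, sum_const, nsmul_eq_mul, mul_comm]
    exact mul_le_mul_of_nonneg_left (by exact_mod_cast gau_card q (2 * a)) (Nat.cast_nonneg q)

theorem gau_fin (q : ℕ) [NeZero q] (a m : ℤ) :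
    ‖∑ b : Fin q, ee ((a * ((b : ℕ) : ℝ) ^ 2 + m * (b : ℕ)) / q)‖ ≤
      √((q : ℝ) * Int.gcd (2 * a) q) := by
  refine le_trans (le_of_eq (congrArg norm ?_)) (gau_sum q a m)
  obtain ⟨n, rfl⟩ := Nat.exists_eq_succ_of_ne_zero (NeZero.ne q)
  refine sum_congr rfl fun b _ => ?_
  have h := ZMod.stdAddChar_coe (N := n + 1) (a * ((b : ℕ) : ℤ) ^ 2 + m * (b : ℕ))
  have h1 : ((b : ℕ) : ZMod (n + 1)) = b := ZMod.natCast_zmod_val (n := n + 1) b
  push_cast at h
  rw [h1] at h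
  rw [ee_exp]
  refine Eq.trans ?_ h.symm
  congr 1
  push_cast
  ring

theorem gau_cls (a : ℤ) {q : ℕ} {δ : ℝ} (φ : ℝ) (hq : 0 < q) (hδ : 0 < δ) (b : ℕ) :
    ∑' k : ℤ, (gs (δ * ((k * q + b : ℤ) : ℝ)) : ℂ) *
      ee (a * ((k * q + b : ℤ) : ℝ) ^ 2 / q + ((k * q + b : ℤ) : ℝ) * φ) =
    ((1 / (q * δ) : ℝ) : ℂ) * ∑' m : ℤ, (gs (1 / (q * δ) * (m - q * φ)) : ℂ) *
      ee ((a * (b : ℝ) ^ 2 + m * b) / q) := by
  have q0 : (0 : ℝ) < q := by exact_mod_cast hq
  have h := (Avg.t_GS1 (q * δ) (q * φ) (-b / q) (by positivity)).2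
  have e : ∀ k : ℤ, (gs (δ * ((k * q + b : ℤ) : ℝ)) : ℂ) *
      ee (a * ((k * q + b : ℤ) : ℝ) ^ 2 / q + ((k * q + b : ℤ) : ℝ) * φ) =
      ee (a * (b : ℝ) ^ 2 / q + b * φ) * (ee (q * φ * k) * (gs (q * δ * (k - -b / q)) : ℂ)) :=
    fun k => by
      rw [← mul_assoc, ← ee_add, ← MP_e86632_nt.ee_add_int (_ + q * φ * k)
        (a * (k ^ 2 * q + 2 * k * b)), mul_comm]
      congr 2
      · push_cast; field_simp; ring
      · congr 1; push_cast; field_simp; ring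
  simp only [e]
  rw [tsum_mul_left, h, mul_left_comm, ← tsum_mul_left]
  congr 2
  funext m
  rw [mul_left_comm, ← ee_add]
  congr 2
  · congr 1; field_simp
  · field_simp; ring

theorem p_GAU :
    S_GAU := by
  intro a q δ φ hq hδ
  have q0 : (0 : ℝ) < q := by exact_mod_cast hq
  have r0 : 0 < 1 / (q * δ) := by positivity
  have hn : ∀ x y : ℝ, ‖(gs x : ℂ) * ee y‖ = gs x := fun x y => by
    rw [norm_mul, norm_ee, mul_one, Complex.norm_real, Real.norm_of_nonneg (gs_pos _).le]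
  have hs : Summable fun h : ℤ => (gs (δ * h) : ℂ) * ee (a * (h : ℝ) ^ 2 / q + h * φ) :=
    Summable.of_norm (by simpa only [hn, sub_zero] using Avg.gs_summable hδ 0)
  refine ⟨hs, ?_⟩
  have : NeZero q := ⟨hq.ne'⟩
  have h2 := Avg.gs_summable r0 (q * φ)
  let e : Fin q × ℤ ≃ ℤ := (Equiv.prodComm _ _).trans (Int.divModEquiv q).symm
  have h4 := (e.summable_iff.2 hs).tsum_prod
  simp only [Function.comp_apply] at h4
  rw [← e.tsum_eq, h4, tsum_fintype]
  have h3 : ∀ (b : Fin q) (k : ℤ), e (b, k) = k * q + (b : ℕ) := fun _ _ => rfl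
  simp only [h3, gau_cls a φ hq hδ]
  rw [← mul_sum,
    ← Summable.tsum_finsetSum fun b _ => Summable.of_norm (by simpa only [hn] using h2), norm_mul,
    Complex.norm_real, Real.norm_of_nonneg r0.le, div_eq_mul_one_div (√_) (q * δ),
    mul_comm (√_), mul_assoc]
  refine mul_le_mul_of_nonneg_left (tsum_of_norm_bounded (h2.hasSum.mul_left _) fun m => ?_) r0.le
  rw [← mul_sum, norm_mul, Complex.norm_real, Real.norm_of_nonneg (gs_pos _).le, mul_comm]
  exact mul_le_mul_of_nonneg_right (gau_fin q a m) (gs_pos _).le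

end Pool.Agent.P.MP_8be758_nt.Sq
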