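import Pool.Agent.P.MP_8be758_nt.Sq.IfaceA

/-! Step GAW. -/

set_option autoImplicit false
set_option linter.unusedSectionVars false

namespace Pool.Agent.P.MP_8be758_nt.Sq

open Finset Real Filter Topology
open Pool.Agent.P.MP_e86632_nt (ee nn norm_ee ee_add ee_neg)
open Pool.Agent.P.MP_8be758_nt.Avg (gs gs_pos gs_anti gs_le_one gs_neg)

theorem gaw_trunc {f : ℤ → ℂ} (hf : Summable f) (I : Finset ℤ) {E : ℝ}
    (hE : ∀ s : Finset ℤ, (∀ x ∈ s, x ∉ I) → ∑ x ∈ s, ‖f x‖ ≤ E) :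
    ‖∑ x ∈ I, f x‖ ≤ ‖∑' x, f x‖ + E := by
  have h1 : Tendsto (fun s : Finset ℤ => ‖∑ x ∈ s, f x‖ + E) atTop (𝓝 (‖∑' x, f x‖ + E)) :=
    (Tendsto.norm hf.hasSum).add_const E
  refine ge_of_tendsto h1 ((eventually_ge_atTop I).mono fun s hs => ?_)
  rw [← sub_sub_cancel (∑ x ∈ s, f x) (∑ x ∈ I, f x), ← sum_sdiff_eq_sub hs]
  exact (norm_sub_le _ _).trans (add_le_add le_rfl
    ((norm_sum_le _ _).trans (hE _ fun x hx => (mem_sdiff.1 hx).2)))

theorem p_GAW (hGAU : S_GAU) :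
    S_GAW := by
  intro a q H δ φ T hq h0 hqd hT hH
  obtain ⟨h1, h2⟩ := hGAU a q δ φ hq h0
  have q1 : (1 : ℝ) ≤ q := by exact_mod_cast hq
  have d1 : δ ≤ 1 := by nlinarith
  have qd : 0 < q * δ := by positivity
  have r1 : 1 ≤ 1 / (q * δ) := (le_div_iff₀ qd).2 (by linarith)
  have g0 := gs_pos (T / 2)
  have h3 := gaw_trunc h1 (Hz H) (E := 1 + 10 / δ * gs (T / 2)) fun s hs => by
    simp only [norm_mul, norm_ee, mul_one, Complex.norm_real, Real.norm_of_nonneg (gs_pos _).le]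
    have t1 := gs_sum_tail h0 d1 (by linarith : 0 ≤ T) (s.erase 0) fun x hx => by
      have t2 : (H : ℤ) + 1 ≤ |x| := by
        have := hs x (mem_of_mem_erase hx)
        rw [mem_Hz, not_and, not_le] at this
        exact this (ne_of_mem_erase hx)
      have t3 : (H : ℝ) + 1 ≤ |(x : ℝ)| := by exact_mod_cast t2
      exact hH.trans (mul_le_mul_of_nonneg_left t3 h0.le)
    by_cases e : (0 : ℤ) ∈ s
    · rw [← add_sum_erase _ _ e]
      exact add_le_add (gs_le_one _) t1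
    · rw [erase_eq_of_notMem e] at t1
      linarith
  have sq0 : 0 < √(q : ℝ) := Real.sqrt_pos.2 (by linarith)
  have e1 : √((q : ℝ) * Int.gcd (2 * a) q) / (q * δ) =
      √(Int.gcd (2 * a) q : ℝ) / (√(q : ℝ) * δ) := by
    rw [Real.sqrt_mul (by linarith), div_eq_div_iff qd.ne' (by positivity)]
    nth_rewrite 3 [← Real.mul_self_sqrt (show (0 : ℝ) ≤ q by linarith)]
    ring
  have e2 : √(Int.gcd (2 * a) q : ℝ) / (√(q : ℝ) * δ) ≤ 1 / δ := by
    have t1 : (Int.gcd (2 * a) q : ℝ) ≤ q := by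
      have := Int.gcd_le_natAbs_right (2 * a) (show (q : ℤ) ≠ 0 by exact_mod_cast hq.ne')
      rw [Int.natAbs_natCast] at this
      exact_mod_cast this
    rw [div_le_div_iff₀ (by positivity) h0]
    nlinarith [Real.sqrt_le_sqrt t1]
  have e3 : 0 ≤ √(Int.gcd (2 * a) q : ℝ) / (√(q : ℝ) * δ) := by positivity
  have e4 : 24 * gs (T / 2) / δ = 24 * (1 / δ * gs (T / 2)) := by ring
  have e5 : 10 / δ * gs (T / 2) = 10 * (1 / δ * gs (T / 2)) := by ring
  have e6 : 0 ≤ 1 / δ * gs (T / 2) := by positivity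
  rw [e1] at h2
  split_ifs with hc
  · have := mul_le_mul_of_nonneg_left (gs_tsum_near r1 (q * φ)) e3
    rw [mul_div_assoc]
    linarith
  · have t1 : T ≤ 1 / (q * δ) * nn (q * φ) := by
      rw [one_div_mul_eq_div, le_div_iff₀ qd]
      exact (not_le.1 fun e => hc ⟨round (q * φ), e⟩).le
    have t2 := mul_le_mul_of_nonneg_left (gs_tsum_far r1 (q * φ) (by linarith) t1) e3
    have t3 := mul_le_mul_of_nonneg_right e2 (show 0 ≤ 10 * gs (T / 2) by positivity)
    linarith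

end Pool.Agent.P.MP_8be758_nt.Sq
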