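import Pool.Agent.P.MP_8be758_nt.Sq.IfaceA

/-! Step GC. -/

set_option autoImplicit false
set_option linter.unusedSectionVars false

namespace Pool.Agent.P.MP_8be758_nt.Sq

open Finset Real Filter Topology
open Pool.Agent.P.MP_e86632_nt (ee nn norm_ee ee_add ee_neg)
open Pool.Agent.P.MP_8be758_nt.Avg (gs gs_pos gs_anti gs_le_one gs_neg)

theorem p_GC :
    S_GC := by
  intro Z τ n R0 h hn hnZ hR
  have key : ∑ μ ∈ Icc 1 R0, √(Nat.gcd n μ : ℝ) / (μ : ℝ) ≤ τ ^ 2 := by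
    have h1 : ∀ μ ∈ Icc 1 R0, √(Nat.gcd n μ : ℝ) / (μ : ℝ) ≤
        1 / (((fun μ => (Nat.gcd n μ, μ / Nat.gcd n μ)) μ).2 : ℝ) := fun μ hμ => by
      have g0 : 0 < Nat.gcd n μ := Nat.gcd_pos_of_pos_left _ hn
      have g1 : (1 : ℝ) ≤ Nat.gcd n μ := by exact_mod_cast g0
      have m0 : (0 : ℝ) < μ := by exact_mod_cast (mem_Icc.1 hμ).1
      show _ ≤ 1 / ((μ / Nat.gcd n μ : ℕ) : ℝ)
      rw [Nat.cast_div (Nat.gcd_dvd_right _ _) (by positivity), one_div_div]
      refine div_le_div_of_nonneg_right ?_ m0.le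
      rw [Real.sqrt_le_left (by positivity)]
      nlinarith
    have h2 : Set.InjOn (fun μ => (Nat.gcd n μ, μ / Nat.gcd n μ)) (Icc 1 R0 : Finset ℕ) :=
      fun x _ y _ e => by
        simp only [Prod.mk.injEq] at e
        rw [← Nat.mul_div_cancel' (Nat.gcd_dvd_right n x), e.2, e.1,
          Nat.mul_div_cancel' (Nat.gcd_dvd_right n y)]
    have h3 : (Icc 1 R0).image (fun μ => (Nat.gcd n μ, μ / Nat.gcd n μ)) ⊆
        n.divisors ×ˢ range (R0 + 1) := fun p hp => by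
      obtain ⟨μ, hμ, rfl⟩ := mem_image.1 hp
      exact mem_product.2 ⟨Nat.mem_divisors.2 ⟨Nat.gcd_dvd_left _ _, by omega⟩,
        mem_range.2 (Nat.lt_succ_of_le ((Nat.div_le_self _ _).trans (mem_Icc.1 hμ).2))⟩
    have h4 := h.harm (k := 1) le_rfl (S := range (R0 + 1)) fun d hd => by
      rw [pow_one]
      exact le_trans (by exact_mod_cast Nat.lt_succ_iff.1 (mem_range.1 hd)) hR
    have h5 := h.dv n (hnZ.trans (by simpa using h.pow (show 1 ≤ 5 by norm_num)))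
    have h6 := h.t1
    calc _ ≤ _ := sum_le_sum h1
      _ = ∑ p ∈ (Icc 1 R0).image (fun μ => (Nat.gcd n μ, μ / Nat.gcd n μ)), 1 / (p.2 : ℝ) :=
          (sum_image (f := fun p : ℕ × ℕ => 1 / (p.2 : ℝ)) h2).symm
      _ ≤ ∑ p ∈ n.divisors ×ˢ range (R0 + 1), 1 / (p.2 : ℝ) :=
          sum_le_sum_of_subset_of_nonneg h3 fun _ _ _ => by positivity
      _ = n.divisors.card * ∑ d ∈ range (R0 + 1), 1 / (d : ℝ) := by
          rw [sum_product]; simp only [sum_const, nsmul_eq_mul]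
      _ ≤ τ * τ := mul_le_mul h5 (by simpa using h4) (by positivity) (by linarith)
      _ = _ := (sq τ).symm
  have key2 := Pool.Agent.P.MP_e86632_nt.sum_inv_sqrt_le R0
  rw [show Ioc 0 R0 = Icc 1 R0 from rfl] at key2
  constructor
  · rw [sum_Hz]
    simp only [Int.gcd_neg, Int.gcd_natCast_natCast, Int.cast_neg, Int.cast_natCast, abs_neg,
      Nat.abs_cast, sum_add_distrib]
    linarith
  · rw [sum_Hz]
    simp only [Int.cast_neg, Int.cast_natCast, abs_neg, Nat.abs_cast, sum_add_distrib]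
    linarith

end Pool.Agent.P.MP_8be758_nt.Sq
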