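import Pool.Agent.P.MP_8be758_nt.Sq.IfaceA

/-! Step GEO. -/

set_option autoImplicit false
set_option linter.unusedSectionVars false

namespace Pool.Agent.P.MP_8be758_nt.Sq

open Finset Real Filter Topology
open Pool.Agent.P.MP_e86632_nt (ee nn norm_ee ee_add ee_neg)
open Pool.Agent.P.MP_8be758_nt.Avg (gs gs_pos gs_anti gs_le_one gs_neg)

theorem geo_min (m k : ℤ) {q : ℕ} (hq : 0 < q) : |Int.bmod m q| ≤ |m - k * q| := by
  obtain ⟨j, hj⟩ := Int.dvd_self_sub_bmod (x := m) (m := q)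
  have h1 := Int.le_bmod (x := m) hq
  have h2 := Int.bmod_le (x := m) hq
  have e : m - k * q = Int.bmod m q + q * (j - k) := by linarith
  rw [e]
  have q0 : (0 : ℤ) < q := by exact_mod_cast hq
  rcases lt_trichotomy (j - k) 0 with h | h | h
  · have h3 : (q : ℤ) * (j - k) ≤ -q := by nlinarith
    generalize (q : ℤ) * (j - k) = u at h3
    refine le_trans ?_ (neg_le_abs _)
    rw [abs_le]; omega
  · rw [h]; simp
  · have h3 : (q : ℤ) ≤ q * (j - k) := by nlinarith
    generalize (q : ℤ) * (j - k) = u at h3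
    refine le_trans ?_ (le_abs_self _)
    rw [abs_le]; omega

theorem geo_abel {θ V : ℝ} (h : 0 < nn θ) (hV : 0 < V) (a b : ℕ) (hI : In (Ioc a b) V (2 * V)) :
    ‖∑ v ∈ Ioc a b, ((1 / √(v : ℝ) : ℝ) : ℂ) * ee (v * θ)‖ ≤ 1 / (2 * nn θ) * (1 / √V) := by
  simp only [mul_comm ((_ : ℝ) : ℂ) (ee _)]
  refine MP_e86632_nt.abel_bound (fun v : ℕ => ee (v * θ)) (fun v : ℕ => ((1 / √(v : ℝ) : ℝ) : ℂ))
    a b _ _ (by positivity) (by positivity) (fun n _ => MP_e86632_nt.geom_bound h a n) fun hab => ?_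
  obtain ⟨M, rfl⟩ : ∃ M, b = M + 1 := ⟨b - 1, by omega⟩
  simp only [Nat.add_sub_cancel]
  have h2 : ∀ i ∈ Ioc a M, ‖((1 / √((i + 1 : ℕ) : ℝ) : ℝ) : ℂ) - ((1 / √(i : ℝ) : ℝ) : ℂ)‖ =
      -(1 / √((i + 1 : ℕ) : ℝ) - 1 / √(i : ℝ)) := by
    intro i hi
    have hi0 : (0 : ℝ) < i := by exact_mod_cast (by have := (mem_Ioc.1 hi).1; omega : 0 < i)
    rw [← Complex.ofReal_sub, Complex.norm_real, Real.norm_eq_abs, abs_of_nonpos]
    exact sub_nonpos.2 (one_div_le_one_div_of_le (Real.sqrt_pos.2 hi0)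
      (Real.sqrt_le_sqrt (by push_cast; linarith)))
  rw [sum_congr rfl h2, sum_neg_distrib,
    MP_e86632_nt.tele_Ioc (fun i : ℕ => 1 / √(i : ℝ)) a M (by omega), Complex.norm_real,
    Real.norm_of_nonneg (by positivity)]
  have h3 := (hI (a + 1) (mem_Ioc.2 ⟨by omega, by omega⟩)).1
  have h4 := one_div_le_one_div_of_le (Real.sqrt_pos.2 hV) (Real.sqrt_le_sqrt h3)
  linarith

theorem p_GEO :
    S_GEO := by
  refine ⟨4, by norm_num, fun V G θ m q a b hV hG hq hI hθ => ?_⟩
  have V0 : 0 < V := by linarith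
  have sV : 0 < √V := Real.sqrt_pos.2 V0
  have q0 : (0 : ℝ) < q := by exact_mod_cast hq
  have triv : ‖∑ v ∈ Ioc a b, ((1 / √(v : ℝ) : ℝ) : ℂ) * ee (v * θ)‖ ≤ 2 * V * (1 / √V) := by
    refine (norm_sum_le _ _).trans ((sum_le_card_nsmul _ _ (1 / √V) fun v hv => ?_).trans ?_)
    · rw [norm_mul, norm_ee, mul_one, Complex.norm_real, Real.norm_of_nonneg (by positivity)]
      exact one_div_le_one_div_of_le sV (Real.sqrt_le_sqrt (hI v hv).1)
    · rw [nsmul_eq_mul]
      exact mul_le_mul_of_nonneg_right (hI.card_le V0 (by linarith)) (by positivity)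
  have e : ∀ x : ℝ, 4 * G / √V * x = 4 * G * x * (1 / √V) := fun x => by ring
  rw [e]
  unfold mq
  split_ifs with h0
  · exact triv.trans (mul_le_mul_of_nonneg_right (by nlinarith) (by positivity))
  set r : ℝ := |((Int.bmod m q : ℤ) : ℝ)| with hr
  have r0 : 0 < r := abs_pos.2 (by exact_mod_cast h0)
  rcases lt_or_ge (r / q) (2 * (G / V)) with h | h
  · refine triv.trans (mul_le_mul_of_nonneg_right ?_ (by positivity))
    rw [← mul_div_assoc, div_lt_div_iff₀ q0 V0] at h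
    rw [← mul_div_assoc, le_div_iff₀ r0]
    linarith
  · have h1 : r / q ≤ |(m : ℝ) / q - round θ| := by
      have h2 : r ≤ |(m : ℝ) - round θ * q| := by
        rw [hr]; exact_mod_cast geo_min m (round θ) hq
      rw [show (m : ℝ) / q - round θ = (m - round θ * q) / q by field_simp, abs_div, abs_of_pos q0]
      exact div_le_div_of_nonneg_right h2 q0.le
    have h3 : |(m : ℝ) / q - round θ| ≤ |θ - m / q| + nn θ := by
      rw [abs_sub_comm θ]
      exact abs_sub_le _ θ _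
    have h4 : r / q ≤ 2 * nn θ := by linarith
    have h5 : 0 < r / q := by positivity
    refine (geo_abel (by linarith) V0 a b hI).trans
      (mul_le_mul_of_nonneg_right ?_ (by positivity))
    have h6 := one_div_le_one_div_of_le h5 h4
    rw [one_div_div] at h6
    have h7 : 0 < (q : ℝ) / r := by positivity
    nlinarith

end Pool.Agent.P.MP_8be758_nt.Sq
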