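import Pool.Agent.P.MP_8be758_nt.Sq.IfaceA

/-! Step GIb. -/

set_option autoImplicit false
set_option linter.unusedSectionVars false

namespace Pool.Agent.P.MP_8be758_nt.Sq

open Finset Real Filter Topology
open Pool.Agent.P.MP_e86632_nt (ee nn norm_ee ee_add ee_neg)
open Pool.Agent.P.MP_8be758_nt.Avg (gs gs_pos gs_anti gs_le_one gs_neg)

theorem gib_sqrt {z : ℂ} (hz : 0 < z.re) :
    (z ^ (1 / 2 : ℂ)) ^ 2 = z ∧ |(z ^ (1 / 2 : ℂ)).im| < (z ^ (1 / 2 : ℂ)).re := by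
  rw [one_div]
  have h1 : (z ^ (2⁻¹ : ℂ)) ^ 2 = z := Complex.cpow_ofNat_inv_pow z 2
  refine ⟨h1, abs_lt_of_sq_lt_sq ?_ (by rw [Complex.cpow_inv_two_re]; exact Real.sqrt_nonneg _)⟩
  rw [← h1, sq, Complex.mul_re] at hz
  linarith

theorem gib_ee : ee (1 / 8) = ((√2 / 2 : ℝ) : ℂ) * (1 + Complex.I) := by
  rw [ee, mul_comm, Complex.exp_mul_I, show 2 * π * (1 / 8) = π / 4 by ring, ← Complex.ofReal_cos,
    ← Complex.ofReal_sin, Real.cos_pi_div_four, Real.sin_pi_div_four]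
  ring

theorem gib_k0 (β : ℝ) :
    ∃ ε : ℝ, |ε| = 1 ∧ |β| = -ε * β ∧ k0 β = ((√2 / 2 : ℝ) : ℂ) * (1 + ε * Complex.I) := by
  unfold k0
  split_ifs with h
  · refine ⟨-1, by simp, by rw [abs_of_pos h]; ring, ?_⟩
    rw [ee_neg, gib_ee, map_mul, Complex.conj_ofReal]
    simp
  · exact ⟨1, by simp, by rw [abs_of_nonpos (not_lt.1 h)]; ring, by rw [gib_ee]; simp⟩

theorem gib_pre {s β : ℝ} (hs : 0 < s) (hβ : β ≠ 0) {a w : ℂ} (ha : 0 < a.re) (hw : 0 < w.re)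
    (e : a = -Complex.I * s ^ 2 / (2 * β) * w) :
    a ^ (1 / 2 : ℂ) = k0 β / ((√(2 * |β|) : ℝ) : ℂ) * (s * w ^ (1 / 2 : ℂ)) := by
  obtain ⟨ε, h1, h2, h3⟩ := gib_k0 β
  obtain ⟨a1, a2⟩ := gib_sqrt ha
  obtain ⟨w1, w2⟩ := gib_sqrt hw
  have p : 0 < 2 * |β| := by positivity
  have q := Real.sqrt_pos.2 p
  have h4 : (ε : ℂ) ^ 2 = 1 := by rw [← Complex.ofReal_pow, ← sq_abs, h1]; simp
  have h5 : (ε : ℂ) ≠ 0 := fun h => by simp [h] at h4
  have h6 : (β : ℂ) ≠ 0 := Complex.ofReal_ne_zero.2 hβ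
  have h7 : (k0 β / ((√(2 * |β|) : ℝ) : ℂ) * (s * w ^ (1 / 2 : ℂ))) ^ 2 = a := by
    rw [mul_pow, mul_pow, div_pow, w1, h3, mul_pow, ← Complex.ofReal_pow, ← Complex.ofReal_pow,
      Real.sq_sqrt p.le, div_pow, Real.sq_sqrt zero_le_two, h2, e]
    push_cast
    field_simp
    linear_combination (s ^ 2 * w) * h4 - (s ^ 2 * ε ^ 2 * w) * Complex.I_mul_I
  refine (sq_eq_sq_iff_eq_or_eq_neg.1 (a1.trans h7.symm)).resolve_right fun h => ?_
  have h8 : k0 β / ((√(2 * |β|) : ℝ) : ℂ) * (s * w ^ (1 / 2 : ℂ)) =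
      ((√2 / 2 / √(2 * |β|) * s : ℝ) : ℂ) * ((1 + ε * Complex.I) * w ^ (1 / 2 : ℂ)) := by
    rw [h3]; push_cast; ring
  have h9 : 0 < ((1 + ε * Complex.I) * w ^ (1 / 2 : ℂ)).re := by
    have := le_abs_self (ε * (w ^ (1 / 2 : ℂ)).im)
    rw [abs_mul, h1] at this
    simp only [Complex.mul_re, Complex.add_re, Complex.add_im, Complex.mul_im, Complex.one_re,
      Complex.one_im, Complex.ofReal_re, Complex.ofReal_im, Complex.I_re, Complex.I_im]
    linarith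
  rw [h, h8, Complex.neg_re, Complex.re_ofReal_mul] at a2
  have : 0 < √2 / 2 / √(2 * |β|) * s := by positivity
  nlinarith [abs_nonneg (-(((√2 / 2 / √(2 * |β|) * s : ℝ) : ℂ) *
    ((1 + ε * Complex.I) * w ^ (1 / 2 : ℂ)))).im, mul_pos this h9]

theorem gib_re {b : ℂ} (hb : b.re < 0) : 0 < ((π : ℂ) / -b).re := by
  have h : -b ≠ 0 := fun h => by simp [neg_eq_zero.1 h] at hb
  rw [div_eq_mul_inv, Complex.re_ofReal_mul, Complex.inv_re]
  exact mul_pos pi_pos (div_pos (by simpa using hb) (Complex.normSq_pos.2 h))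

theorem p_GIb :
    S_GIb := by
  intro t s θ β hs hβ
  have s0 : (s : ℂ) ≠ 0 := Complex.ofReal_ne_zero.2 hs.ne'
  have b0 : (β : ℂ) ≠ 0 := Complex.ofReal_ne_zero.2 hβ
  have p0 : (π : ℂ) ≠ 0 := Complex.ofReal_ne_zero.2 pi_ne_zero
  obtain ⟨m, hm⟩ : ∃ m : ℂ, m = 1 + 2 * β * s ^ 2 * Complex.I := ⟨_, rfl⟩
  have r1 : (-(π * m / s ^ 2)).re < 0 := by
    rw [show -(π * m / s ^ 2) = ((-(π / s ^ 2) : ℝ) : ℂ) + ((-(2 * π * β) : ℝ) : ℂ) * Complex.I by
      rw [hm]; push_cast; field_simp; ring]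
    simp only [Complex.add_re, Complex.ofReal_re, Complex.re_ofReal_mul, Complex.I_re, mul_zero,
      add_zero, Left.neg_neg_iff]
    positivity
  have e2 : π * Complex.I * m / (2 * β) =
      ((-(π * s ^ 2) : ℝ) : ℂ) + ((π / (2 * β) : ℝ) : ℂ) * Complex.I := by
    rw [hm]; push_cast; field_simp
    linear_combination (2 * β * s ^ 2) * Complex.I_mul_I
  have r2 : (π * Complex.I * m / (2 * β)).re < 0 := by
    rw [e2]
    simp only [Complex.add_re, Complex.ofReal_re, Complex.re_ofReal_mul, Complex.I_re, mul_zero,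
      add_zero, Left.neg_neg_iff]
    positivity
  have m0 : m ≠ 0 := fun h => by simp [h] at r1
  have i0 := Complex.I_ne_zero
  have h1 : ∀ y : ℝ, (gs ((y - t) / s) : ℂ) * ee (θ * y - β * y ^ 2) =
      Complex.exp (-(π * m / s ^ 2) * y ^ 2 + 2 * π * (t / s ^ 2 + Complex.I * θ) * y +
        -(π * t ^ 2 / s ^ 2)) := fun y => by
    rw [Avg.gs_cast, ee, ← Complex.exp_add, hm]
    congr 1
    push_cast; field_simp; ring
  have h2 : ∀ x : ℝ, ((s * gs (s * x) : ℝ) : ℂ) * ee (-(t * x) + (θ + x) ^ 2 / (4 * β)) =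
      s * Complex.exp (π * Complex.I * m / (2 * β) * x ^ 2 +
        2 * π * Complex.I * (θ / (2 * β) - t) * x + π * Complex.I * θ ^ 2 / (2 * β)) := fun x => by
    rw [Complex.ofReal_mul, Avg.gs_cast, ee, mul_assoc, ← Complex.exp_add, e2]
    congr 2
    push_cast; field_simp; ring
  rw [GI, AV]
  simp only [h1, h2]
  rw [MeasureTheory.integral_const_mul, integral_cexp_quadratic r1, integral_cexp_quadratic r2,
    gib_pre hs hβ (gib_re r1) (gib_re r2) (by field_simp), mul_assoc, mul_assoc]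
  congr 4
  field_simp
  rw [hm]
  ring

end Pool.Agent.P.MP_8be758_nt.Sq
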