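import Pool.Agent.P.MP_8be758_nt.Sq.IfaceA
import Pool.Agent.P.MP_8be758_nt.Av2.GP
import Pool.Agent.P.MP_8be758_nt.Av2.POI
import Pool.Agent.P.MP_8be758_nt.Av2.CUT

/-! Step GP1. -/

set_option autoImplicit false
set_option linter.unusedSectionVars false

namespace Pool.Agent.P.MP_8be758_nt.Sq

open Finset Real Filter Topology
open Pool.Agent.P.MP_e86632_nt (ee nn norm_ee ee_add ee_neg)
open Pool.Agent.P.MP_8be758_nt.Avg (gs gs_pos gs_anti gs_le_one gs_neg)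

theorem gp1_eq (ρ f X : ℝ) :
    Complex.exp (-(π / ρ ^ 2 : ℝ)) * Complex.exp (((-(π / ρ ^ 2) : ℝ) : ℂ) * X ^ 2 +
      (((2 * π / ρ ^ 2 : ℝ) : ℂ) + ((2 * π * f : ℝ) : ℂ) * Complex.I) * X) =
      (gs ((X - 1) / ρ) : ℂ) * ee (f * X) := by
  rw [ee_exp, gs, Complex.ofReal_exp, ← Complex.exp_add, ← Complex.exp_add]
  congr 1
  push_cast
  ring

theorem gp1_int {t s : ℝ} (ht : 0 < t) (hs : 0 < s) (θ p : ℝ) :
    (t : ℂ) * ∫ X : ℝ, (gs ((X - 1) / (s / t)) : ℂ) * ee (θ * t * X) *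
      ee (-(p * t ^ 2 / (1 : ℕ) * X ^ 2)) = GI t s θ p := by
  have h := MeasureTheory.Measure.integral_comp_mul_left
    (fun y : ℝ => (gs ((y - t) / s) : ℂ) * ee (θ * y - p * y ^ 2)) t
  have e : ∀ X : ℝ, (gs ((X - 1) / (s / t)) : ℂ) * ee (θ * t * X) *
      ee (-(p * t ^ 2 / (1 : ℕ) * X ^ 2)) =
      (gs ((t * X - t) / s) : ℂ) * ee (θ * (t * X) - p * (t * X) ^ 2) := fun X => by
    rw [mul_assoc, ← ee_add]
    congr 2
    · congr 1; field_simp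
    · push_cast; ring
  have ht' : (t : ℂ) ≠ 0 := Complex.ofReal_ne_zero.2 ht.ne'
  simp only [e]
  rw [h, abs_of_pos (inv_pos.2 ht), Complex.real_smul, GI, Complex.ofReal_inv,
    mul_inv_cancel_left₀ ht']

theorem p_GP1 :
    S_GP1 := by
  obtain ⟨C, hC, h⟩ := Av2.t_GP Av2.t_POI Av2.t_CUT
  refine ⟨100 * C, by positivity, fun t s θ n1 P hs hst ht hn hP => ?_⟩
  have t0 : 0 < t := by linarith
  have r0 : 0 < s / t := by positivity
  have key := h (Complex.exp (-(π / (s / t) ^ 2 : ℝ))) ((-(π / (s / t) ^ 2) : ℝ) : ℂ)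
    (((2 * π / (s / t) ^ 2 : ℝ) : ℂ) + ((2 * π * (θ * t) : ℝ) : ℂ) * Complex.I) (s / t) t 1 1 P n1
    (fun _ => 1) r0 ((div_le_one t0).2 hst) ht hn one_pos hP (fun _ => by simp) (fun _ => rfl)
    fun X => by
      rw [gp1_eq, norm_mul, norm_ee, mul_one, one_mul, Complex.norm_real,
        Real.norm_of_nonneg (gs_pos _).le]
  simp only [gp1_eq] at key
  have e1 : ∀ p : ℤ, Av2.hat 1 (fun _ => 1) p = 1 := fun p => by simp [Av2.hat]
  have e2 : 2 * (t : ℂ) * ∑ p ∈ Icc (-(P : ℤ)) P, Av2.hat 1 (fun _ => 1) p *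
      ∫ X : ℝ, (gs ((X - 1) / (s / t)) : ℂ) * ee (θ * t * X) *
        ee (-(p * t ^ 2 / (1 : ℕ) * X ^ 2)) = 2 * ∑ p ∈ Icc (-(P : ℤ)) P, GI t s θ p := by
    rw [mul_assoc, mul_sum]
    congr 1
    exact sum_congr rfl fun p _ => by rw [e1, one_mul, gp1_int t0 hs]
  have e3 : ∀ u : ℕ, (1 : ℂ) * ((gs ((√(u : ℝ) / t - 1) / (s / t)) : ℂ) *
      ee (θ * t * (√(u : ℝ) / t)) / ((√(u : ℝ) : ℝ) : ℂ)) =
      ((gs ((√(u : ℝ) - t) / s) / √(u : ℝ) : ℝ) : ℂ) * ee (θ * √(u : ℝ)) := fun u => by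
    rw [show (√(u : ℝ) / t - 1) / (s / t) = (√(u : ℝ) - t) / s by field_simp,
      show θ * t * (√(u : ℝ) / t) = θ * √(u : ℝ) by field_simp]
    push_cast; ring
  rw [e2, sum_congr rfl fun u _ => e3 u,
    show 1 / (6 * (s / t)) = t / (6 * s) by field_simp] at key
  refine key.trans ?_
  have q0 : 0 ≤ (t / s) ^ 2 := sq_nonneg _
  have q1 : 0 ≤ |θ| * t := by positivity
  have e4 : π / (s / t) ^ 2 = π * (t / s) ^ 2 := by field_simp
  have e5 : 2 * π / (s / t) ^ 2 = 2 * π * (t / s) ^ 2 := by field_simp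
  have pi4 := Real.pi_le_four
  have a1 : ‖((-(π / (s / t) ^ 2) : ℝ) : ℂ)‖ ≤ 4 * (t / s) ^ 2 := by
    rw [Complex.norm_real, norm_neg, e4, Real.norm_of_nonneg (by positivity)]
    exact mul_le_mul_of_nonneg_right pi4 q0
  have pi3 : π ≤ 3.2 := by linarith [Real.pi_lt_d2]
  have a2 : π * (t / s) ^ 2 ≤ 3.2 * (t / s) ^ 2 := mul_le_mul_of_nonneg_right pi3 q0
  have a3 : π * (|θ| * t) ≤ 3.2 * (|θ| * t) := mul_le_mul_of_nonneg_right pi3 q1
  have a4 : 1 + ‖((-(π / (s / t) ^ 2) : ℝ) : ℂ)‖ +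
      ‖((2 * π / (s / t) ^ 2 : ℝ) : ℂ) + ((2 * π * (θ * t) : ℝ) : ℂ) * Complex.I‖ ≤
      10 * (1 + (t / s) ^ 2 + |θ| * t) := by
    have b1 := norm_add_le ((2 * π / (s / t) ^ 2 : ℝ) : ℂ) (((2 * π * (θ * t) : ℝ) : ℂ) * Complex.I)
    rw [norm_mul, Complex.norm_I, mul_one, Complex.norm_real, Complex.norm_real, e5,
      Real.norm_of_nonneg (by positivity), Real.norm_eq_abs, abs_mul (2 * π), abs_mul θ,
      abs_of_pos t0, abs_of_pos (by positivity : 0 < 2 * π)] at b1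
    rw [Complex.norm_real, norm_neg, e4, e5, Real.norm_of_nonneg (by positivity)]
    linarith
  have a5 := pow_le_pow_left₀ (by positivity) a4 2
  have P0 : (0 : ℝ) < P := by exact_mod_cast hP
  have g0 : 0 ≤ ((n1 : ℝ) + t * P) * gs (t / (6 * s)) := by have := gs_pos (t / (6 * s)); positivity
  have a6 := div_le_div_of_nonneg_right a5 P0.le
  rw [mul_one, Nat.cast_one, one_pow, one_mul, mul_comm 100 C, mul_assoc C 100]
  refine mul_le_mul_of_nonneg_left ?_ hC.le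
  rw [mul_pow, mul_div_assoc (10 ^ 2)] at a6
  linarith

end Pool.Agent.P.MP_8be758_nt.Sq
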