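import Pool.Agent.P.MP_8be758_nt.Sq.IfaceA

/-! Step GP2. -/

set_option autoImplicit false
set_option linter.unusedSectionVars false

namespace Pool.Agent.P.MP_8be758_nt.Sq

open Finset Real Filter Topology
open Pool.Agent.P.MP_e86632_nt (ee nn norm_ee ee_add ee_neg)
open Pool.Agent.P.MP_8be758_nt.Avg (gs gs_pos gs_anti gs_le_one gs_neg)

theorem p_GP2 (hGIa : S_GIa) (hGP1 : S_GP1) :
    S_GP2 := by
  obtain ⟨C, hC, hG⟩ := hGP1
  refine ⟨9 * C + 10, by positivity, ?_⟩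
  intro Z T t s θ n1 A hZ hT hs hts ht htZ hts2 hθ hn1 hn2 hA hfar
  have Zp : 0 < Z := by linarith
  have Z1 : 1 ≤ Z := by linarith
  have Z8 : Z ≤ Z ^ 8 := by simpa using pow_le_pow_right₀ Z1 (show 1 ≤ 8 by norm_num)
  obtain ⟨P, hP⟩ : ∃ P : ℕ, P = ⌈Z ^ 8⌉₊ := ⟨_, rfl⟩
  have P1 : Z ^ 8 ≤ P := by rw [hP]; exact Nat.le_ceil _
  have P2 : (P : ℝ) ≤ 2 * Z ^ 8 := by
    have := Nat.ceil_lt_add_one (show 0 ≤ Z ^ 8 by positivity)
    rw [hP]; linarith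
  have P0 : 0 < P := by
    have : (0 : ℝ) < P := by linarith
    exact_mod_cast this
  have st : s ≤ t := by nlinarith
  have h1 := hG t s θ n1 P hs st ht hn1 P0
  have hsub : A ⊆ Icc (-(P : ℤ)) P := fun p hp => by
    have h2 : |(p : ℝ)| ≤ P := (hA p hp).trans (Z8.trans P1)
    have h3 : |p| ≤ (P : ℤ) := by exact_mod_cast h2
    exact mem_Icc.2 (abs_le.1 h3)
  have gp := gs_pos (T / 2)
  have hrest : ‖∑ p ∈ Icc (-(P : ℤ)) P \ A, GI t s θ p‖ ≤ 5 * Z ^ 8 * (Z * gs (T / 2)) := by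
    refine (norm_sum_le _ _).trans ?_
    have h2 : ∀ p ∈ Icc (-(P : ℤ)) P \ A, ‖GI t s θ p‖ ≤ Z * gs (T / 2) := fun p hp => by
      have h3 := hfar p (mem_sdiff.1 hp).2
      refine (hGIa.1 t s θ p (T / 2) hs (by linarith) (by nlinarith) h3.1
        (by linarith [h3.2])).trans ?_
      exact mul_le_mul_of_nonneg_right (st.trans htZ) gp.le
    refine (sum_le_card_nsmul _ _ _ h2).trans ?_
    rw [nsmul_eq_mul]
    refine mul_le_mul_of_nonneg_right ?_ (by positivity)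
    have h4 : (Icc (-(P : ℤ)) P \ A).card ≤ 2 * P + 1 := by
      refine (card_le_card sdiff_subset).trans ?_
      rw [Int.card_Icc]; omega
    have h5 : ((Icc (-(P : ℤ)) P \ A).card : ℝ) ≤ 2 * P + 1 := by exact_mod_cast h4
    linarith
  rw [← sum_sdiff hsub] at h1
  have hA1 : (1 + (t / s) ^ 2 + |θ| * t) ^ 2 / P ≤ 9 * (1 / Z ^ 6) := by
    have h2 : (1 + (t / s) ^ 2 + |θ| * t) ^ 2 ≤ (3 * Z) ^ 2 :=
      pow_le_pow_left₀ (by positivity) (by linarith) 2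
    calc (1 + (t / s) ^ 2 + |θ| * t) ^ 2 / P ≤ (3 * Z) ^ 2 / Z ^ 8 :=
          div_le_div₀ (by positivity) h2 (by positivity) P1
      _ = 9 * (1 / Z ^ 6) := by field_simp; norm_num
  have Z9 : Z ^ 9 ≤ Z ^ 10 := pow_le_pow_right₀ Z1 (by norm_num)
  have hA2 : (n1 + t * P) * gs (t / (6 * s)) ≤ 9 * (Z ^ 10 * gs (T / 2)) := by
    have h2 : gs (t / (6 * s)) ≤ gs (T / 2) := by
      refine gs_le_of_le (by linarith) ?_
      rw [le_div_iff₀ (by positivity)]; linarith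
    have h3 : t * P ≤ Z * (2 * Z ^ 8) := mul_le_mul htZ P2 (by positivity) Zp.le
    have h4 : Z ^ 2 ≤ Z ^ 10 := pow_le_pow_right₀ Z1 (by norm_num)
    have h5 : Z * (2 * Z ^ 8) = 2 * Z ^ 9 := by ring
    have h6 : (n1 : ℝ) + t * P ≤ 9 * Z ^ 10 := by
      have : 0 < Z ^ 10 := by positivity
      linarith
    calc (n1 + t * P) * gs (t / (6 * s)) ≤ 9 * Z ^ 10 * gs (T / 2) :=
          mul_le_mul h6 h2 (gs_pos _).le (by positivity)
      _ = _ := by ring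
  obtain ⟨X, hX⟩ : ∃ X : ℂ, X = ∑ u ∈ Icc 1 n1,
      ((gs ((√(u : ℝ) - t) / s) / √(u : ℝ) : ℝ) : ℂ) * ee (θ * √(u : ℝ)) := ⟨_, rfl⟩
  obtain ⟨Y, hY⟩ : ∃ Y : ℂ, Y = ∑ p ∈ A, GI t s θ p := ⟨_, rfl⟩
  obtain ⟨W, hW⟩ : ∃ W : ℂ, W = ∑ p ∈ Icc (-(P : ℤ)) P \ A, GI t s θ p := ⟨_, rfl⟩
  rw [← hX, ← hY, ← hW] at h1
  rw [← hW] at hrest
  rw [← hX, ← hY]
  have e : X - 2 * Y = (X - 2 * (W + Y)) + 2 * W := by ring
  have h7 : ‖X - 2 * Y‖ ≤ ‖X - 2 * (W + Y)‖ + 2 * ‖W‖ := by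
    rw [e]
    refine (norm_add_le _ _).trans (le_of_eq ?_)
    rw [norm_mul, Complex.norm_ofNat]
  have h8 : 5 * Z ^ 8 * (Z * gs (T / 2)) ≤ 5 * (Z ^ 10 * gs (T / 2)) := by
    have := mul_le_mul_of_nonneg_right Z9 gp.le
    have e2 : 5 * Z ^ 8 * (Z * gs (T / 2)) = 5 * (Z ^ 9 * gs (T / 2)) := by ring
    linarith
  have h9 := mul_le_mul_of_nonneg_left (add_le_add hA1 hA2) hC.le
  have p1 : 0 < 1 / Z ^ 6 := by positivity
  have p2 : 0 < Z ^ 10 * gs (T / 2) := by positivity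
  nlinarith

end Pool.Agent.P.MP_8be758_nt.Sq
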