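import Pool.Agent.P.MP_8be758_nt.Sq.IfaceA

/-! Step LSG. -/

set_option autoImplicit false
set_option linter.unusedSectionVars false

namespace Pool.Agent.P.MP_8be758_nt.Sq

open Finset Real Filter Topology
open Pool.Agent.P.MP_e86632_nt (ee nn norm_ee ee_add ee_neg)
open Pool.Agent.P.MP_8be758_nt.Avg (gs gs_pos gs_anti gs_le_one gs_neg)

theorem lsg_K {D : ℝ} (hD : 1 ≤ D) (t : ℝ) : ∃ K : ℂ,
    HasSum (fun b : ℤ => ee (t * b) * (gs (1 / D * (b - 0)) : ℂ)) K ∧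
      ‖K‖ ≤ D * ∑' m : ℤ, gs (D * (m - t)) := by
  have h0 : 0 < D := by linarith
  obtain ⟨h1, h2⟩ := Avg.t_GS1 (1 / D) t 0 (by positivity)
  refine ⟨_, (Summable.of_norm (h1.congr fun b => ?_)).hasSum, ?_⟩
  · rw [norm_mul, norm_ee, one_mul, Complex.norm_real, Real.norm_of_nonneg (gs_pos _).le]
  · rw [h2, norm_mul, Complex.norm_real, one_div_one_div, Real.norm_of_nonneg h0.le]
    refine mul_le_mul_of_nonneg_left
      (tsum_of_norm_bounded (Avg.gs_summable h0 t).hasSum fun m => le_of_eq ?_) h0.le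
    rw [norm_mul, norm_ee, mul_one, Complex.norm_real, Real.norm_of_nonneg (gs_pos _).le,
      div_div_eq_mul_div, div_one, mul_comm]

theorem p_LSG :
    S_LSG := by
  classical
  refine ⟨10 * Real.exp π, by positivity, fun ι I a θ D T A S hD hT hS hA => ?_⟩
  have h0 : 0 < D := by linarith
  choose K hK hKn using lsg_K hD
  set F : ℤ → ℝ := fun b => gs (1 / D * (b - 0)) * ‖∑ i ∈ I, a i * ee (b * θ i)‖ ^ 2 with hF
  have hF0 : ∀ b, 0 ≤ F b := fun b => mul_nonneg (gs_pos _).le (sq_nonneg _)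
  have hexp : ∀ b : ℤ, (F b : ℂ) = ∑ p ∈ I ×ˢ I, a p.1 * (starRingEnd ℂ) (a p.2) *
      (ee ((θ p.1 - θ p.2) * b) * (gs (1 / D * (b - 0)) : ℂ)) := fun b => by
    show ((gs (1 / D * (b - 0)) * ‖∑ i ∈ I, a i * ee (b * θ i)‖ ^ 2 : ℝ) : ℂ) = _
    rw [Complex.ofReal_mul, Complex.ofReal_pow, ← Complex.mul_conj', map_sum, sum_mul_sum,
      ← sum_product', mul_sum]
    refine sum_congr rfl fun p _ => ?_
    rw [map_mul, ← ee_neg, show (θ p.1 - θ p.2) * b = b * θ p.1 + -(b * θ p.2) by ring, ee_add]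
    ring
  have h1 : HasSum (fun b : ℤ => (F b : ℂ))
      (∑ p ∈ I ×ˢ I, a p.1 * (starRingEnd ℂ) (a p.2) * K (θ p.1 - θ p.2)) := by
    simp only [hexp]
    exact hasSum_sum fun p _ => (hK _).mul_left _
  have h2 := sum_le_hasSum (S.image (Nat.cast : ℕ → ℤ)) (fun b _ => hF0 b) (Complex.hasSum_re h1)
  rw [sum_image fun x _ y _ h => Nat.cast_injective h] at h2
  have h3 : ∀ d ∈ S, ‖∑ i ∈ I, a i * ee (d * θ i)‖ ^ 2 ≤ Real.exp π * F d := fun d hd => by
    have e : gs 1 ≤ gs (1 / D * (((d : ℤ) : ℝ) - 0)) := gs_anti (by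
      rw [sub_zero, Int.cast_natCast, abs_one, abs_of_nonneg (by positivity), one_div_mul_eq_div,
        div_le_one h0]
      exact hS d hd)
    have e1 : Real.exp π * gs 1 = 1 := by unfold gs; rw [← Real.exp_add]; simp
    show _ ≤ Real.exp π * (gs (1 / D * (((d : ℤ) : ℝ) - 0)) *
      ‖∑ i ∈ I, a i * ee (((d : ℤ) : ℝ) * θ i)‖ ^ 2)
    rw [← mul_assoc, Int.cast_natCast d] at *
    exact le_mul_of_one_le_left (sq_nonneg _)
      (e1.symm.trans_le (mul_le_mul_of_nonneg_left e (Real.exp_pos _).le))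
  have hg := (gs_pos (T / 2)).le
  have h4 : ∀ p ∈ I ×ˢ I, ‖a p.1 * (starRingEnd ℂ) (a p.2) * K (θ p.1 - θ p.2)‖ ≤ 10 * D * A ^ 2 *
      ((if ∃ j : ℤ, |θ p.1 - θ p.2 - j| ≤ T / D then 1 else 0) + gs (T / 2)) := fun p hp => by
    have a1 := hA _ (mem_product.1 hp).1
    have a2 := hA _ (mem_product.1 hp).2
    have a0 : 0 ≤ A := (norm_nonneg _).trans a1
    have e : ∑' m : ℤ, gs (D * (m - (θ p.1 - θ p.2))) ≤
        10 * ((if ∃ j : ℤ, |θ p.1 - θ p.2 - j| ≤ T / D then 1 else 0) + gs (T / 2)) := by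
      split_ifs with h
      · linarith [gs_tsum_near hD (θ p.1 - θ p.2)]
      · rw [zero_add]
        refine gs_tsum_far hD _ (by linarith) ?_
        rw [mul_comm, ← div_le_iff₀ h0]
        exact (not_le.1 fun h5 => h ⟨round (θ p.1 - θ p.2), h5⟩).le
    rw [norm_mul, norm_mul, Complex.norm_conj]
    calc _ ≤ A * A * (D * (10 * ((if ∃ j : ℤ, |θ p.1 - θ p.2 - j| ≤ T / D then 1 else 0) +
          gs (T / 2)))) :=
          mul_le_mul (mul_le_mul a1 a2 (norm_nonneg _) a0)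
            ((hKn _).trans (mul_le_mul_of_nonneg_left e h0.le)) (norm_nonneg _) (by positivity)
      _ = _ := by ring
  have h5 := (norm_sum_le _ _).trans (sum_le_sum h4)
  rw [← mul_sum, sum_add_distrib, sum_boole, sum_const, card_product, nsmul_eq_mul,
    Nat.cast_mul, ← sq] at h5
  calc _ ≤ ∑ d ∈ S, Real.exp π * F d := sum_le_sum h3
    _ = Real.exp π * ∑ d ∈ S, F d := (mul_sum _ _ _).symm
    _ ≤ Real.exp π * _ := mul_le_mul_of_nonneg_left
        (h2.trans ((Complex.re_le_norm _).trans h5)) (Real.exp_pos _).le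
    _ = _ := by ring

end Pool.Agent.P.MP_8be758_nt.Sq
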