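import Pool.Agent.P.MP_8be758_nt.Sq.IfaceA

/-! Step MQ. -/

set_option autoImplicit false
set_option linter.unusedSectionVars false

namespace Pool.Agent.P.MP_8be758_nt.Sq

open Finset Real Filter Topology
open Pool.Agent.P.MP_e86632_nt (ee nn norm_ee ee_add ee_neg)
open Pool.Agent.P.MP_8be758_nt.Avg (gs gs_pos gs_anti gs_le_one gs_neg)

theorem mq_abs (m : ℤ) {ν : ℕ} (h : 0 < ν) : |Int.bmod m (4 * ν)| ≤ 2 * ν := by
  have h1 := Int.le_bmod (x := m) (show 0 < 4 * ν by omega)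
  have h2 := Int.bmod_le (x := m) (show 0 < 4 * ν by omega)
  rw [abs_le]
  push_cast at h1 h2
  omega

theorem mq_dvd (m : ℤ) (ν : ℕ) : (ν : ℤ) ∣ m - Int.bmod m (4 * ν) :=
  (Int.natCast_dvd_natCast.2 (Dvd.intro_left 4 rfl)).trans Int.dvd_self_sub_bmod

theorem p_MQ :
    S_MQ := by
  refine ⟨2304, by norm_num, fun Z τ V V0 m Vs hS hV hV0 hZ hm hmZ hI => ?_⟩
  have z := hS.z
  have t1 := hS.t1
  have m0 : (0 : ℝ) < m := by exact_mod_cast hm
  have z4 : Z ≤ Z ^ 4 := by simpa using hS.pow (show 1 ≤ 4 by norm_num)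
  have hH : (⌊48 * V0⌋₊ : ℝ) ≤ 48 * V0 := Nat.floor_le (by positivity)
  have maps : ∀ ν ∈ Vs, Int.bmod m (4 * ν) ∈ insert 0 (Hz ⌊48 * V0⌋₊) := fun ν hν => by
    have h1 := mq_abs m (hI.pos hV0 hν)
    have h2 : 2 * ν ≤ ⌊48 * V0⌋₊ := Nat.le_floor (by push_cast; linarith [(hI ν hν).2])
    rw [mem_insert, mem_Hz]
    omega
  have cardle : ∀ j : ℤ, |(j : ℝ)| ≤ 48 * V0 → j ≠ m →
      ((Vs.filter fun ν => Int.bmod m (4 * ν) = j).card : ℝ) ≤ τ := fun j hj hne => by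
    refine hS.card_dvd (m := m - j) (sub_ne_zero.2 hne.symm) ?_ fun d hd => ?_
    · push_cast
      refine (abs_sub _ _).trans ?_
      rw [abs_of_pos m0, show Z ^ 5 = Z ^ 4 * Z by ring]
      nlinarith
    · have := mq_dvd m d
      rwa [(mem_filter.1 hd).2] at this
  rw [← sum_fiberwise_of_maps_to maps, sum_insert (by simp [mem_Hz])]
  have b0 : ∑ ν ∈ Vs with Int.bmod m (4 * ν) = 0, mq V m (4 * ν) ≤ τ * V := by
    refine (sum_le_card_nsmul _ _ V fun ν hν => ?_).trans ?_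
    · rw [mq, if_pos (mem_filter.1 hν).2]
    · rw [nsmul_eq_mul]
      exact mul_le_mul_of_nonneg_right (cardle 0 (by simp; positivity) (by omega)) hV
  have b1 : ∀ j ∈ Hz ⌊48 * V0⌋₊, ∑ ν ∈ Vs with Int.bmod m (4 * ν) = j, mq V m (4 * ν) ≤
      96 * V0 * τ * (1 / |(j : ℝ)|) + if j = m then 2304 * (V0 ^ 2 / m) else 0 := fun j hj => by
    obtain ⟨j0, jH⟩ := mem_Hz.1 hj
    have j1 : 0 < |(j : ℝ)| := abs_pos.2 (by exact_mod_cast j0)
    have j2 : |(j : ℝ)| ≤ 48 * V0 := le_trans (by exact_mod_cast jH) hH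
    refine (sum_le_card_nsmul _ _ (96 * V0 / |(j : ℝ)|) fun ν hν => ?_).trans ?_
    · rw [mq, (mem_filter.1 hν).2, if_neg j0]
      refine div_le_div_of_nonneg_right ?_ j1.le
      push_cast; linarith [(hI ν (mem_filter.1 hν).1).2]
    rw [nsmul_eq_mul]
    split_ifs with e
    · have h1 := (hI.mono (filter_subset (fun ν => Int.bmod m (4 * ν) = j) Vs)).card_le hV0
        (by positivity)
      have h2 := mul_le_mul_of_nonneg_right h1 (by positivity : 0 ≤ 96 * V0 / |(j : ℝ)|)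
      have h3 : 24 * V0 * (96 * V0 / |(j : ℝ)|) = 2304 * (V0 ^ 2 / m) := by
        rw [e, Int.cast_natCast, abs_of_pos m0]; ring
      have h4 : 0 ≤ 96 * V0 * τ * (1 / |(j : ℝ)|) := by positivity
      linarith
    · refine (mul_le_mul_of_nonneg_right (cardle j j2 e) (by positivity)).trans_eq ?_
      ring
  have b2 := sum_le_sum b1
  rw [sum_add_distrib, ← mul_sum, sum_ite_eq'] at b2
  have b3 : ∑ j ∈ Hz ⌊48 * V0⌋₊, 1 / |(j : ℝ)| ≤ 4 * τ := by
    have h1 := hS.harm (k := 2) (by norm_num) (S := Icc 1 ⌊48 * V0⌋₊) fun d hd => by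
      have h2 : (d : ℝ) ≤ ⌊48 * V0⌋₊ := by exact_mod_cast (mem_Icc.1 hd).2
      nlinarith
    rw [sum_Hz]
    simp only [Int.cast_neg, abs_neg, Int.cast_natCast, Nat.abs_cast]
    rw [sum_add_distrib]
    push_cast at h1
    linarith
  have p : 0 ≤ V0 ^ 2 / m := by positivity
  have b4 : (if (m : ℤ) ∈ Hz ⌊48 * V0⌋₊ then 2304 * (V0 ^ 2 / m) else 0) ≤ 2304 * (V0 ^ 2 / m) := by
    split_ifs <;> linarith
  have b5 := mul_le_mul_of_nonneg_left b3 (by positivity : 0 ≤ 96 * V0 * τ)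
  have t2 : τ ≤ τ ^ 2 := by nlinarith
  have c1 := mul_le_mul_of_nonneg_right t2 hV
  have c2 := mul_le_mul_of_nonneg_right (t1.trans t2) p
  have c3 : 0 ≤ τ ^ 2 * V := by positivity
  have c4 : 0 ≤ τ ^ 2 * V0 := by positivity
  nlinarith

end Pool.Agent.P.MP_8be758_nt.Sq
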