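import Pool.Agent.P.MP_8be758_nt.Sq.IfaceA

/-! Step PF. -/

set_option autoImplicit false
set_option linter.unusedSectionVars false

namespace Pool.Agent.P.MP_8be758_nt.Sq

open Finset Real Filter Topology
open Pool.Agent.P.MP_e86632_nt (ee nn norm_ee ee_add ee_neg)
open Pool.Agent.P.MP_8be758_nt.Avg (gs gs_pos gs_anti gs_le_one gs_neg)

theorem pf_inv {x : ℝ} (h : 1 ≤ x) : ‖((1 / √x : ℝ) : ℂ)‖ ≤ 1 := by
  have := Real.one_le_sqrt.2 h
  rw [Complex.norm_real, Real.norm_of_nonneg (by positivity)]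
  exact (div_le_one (by linarith)).2 this

theorem p_PF (hPF1 : S_PF1) :
    S_PF := by
  obtain ⟨C, hC, H⟩ := hPF1
  refine ⟨C + 4, by linarith, fun Z c Δ T D H1 Bd n1 ι S dd α Hs ch hP hD hDc hS hSc hH hHc hIn
    hch hn1 hn2 hB => ?_⟩
  have c0 := hP.cpos
  have z1 : 1 ≤ Z := by linarith [hP.z]
  have g0 := gs_pos (T / 2)
  have cH : (Hs.card : ℝ) ≤ Z := (hIn.card_le (by linarith) (by linarith)).trans (hHc.trans hP.cZ)
  have cV : ((VR c D H1).card : ℝ) ≤ Z := by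
    refine ((VR_in c0 (by linarith) (by linarith)).card_le (by positivity)
      (by positivity)).trans ?_
    rw [show 24 * (H1 * D / (3 * c)) = 8 * H1 * D / c by field_simp; ring, div_le_iff₀ c0]
    nlinarith [hP.cz]
  set V := VR c D H1 with hV
  let a : ι × ℕ × ℕ → ℂ := fun i => α i.1 * ch i.2.1 *
    (((1 / √(dd i.1 : ℝ) : ℝ) : ℂ) * ((1 / √(i.2.2 : ℝ) : ℝ) : ℂ))
  let f : ι × ℕ × ℕ → ℝ → ℝ := fun i x => -(c * x) + dd i.1 * ((i.2.1 + x) ^ 2 / (4 * i.2.2))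
  have ha : ∀ i ∈ S ×ˢ Hs ×ˢ V, ‖a i‖ ≤ 1 := fun i hi => by
    obtain ⟨h1, h2⟩ := mem_product.1 hi
    have h3 : (1 : ℝ) ≤ i.2.2 := by
      exact_mod_cast ((mem_VR c0 (by linarith) (by linarith)).1 (mem_product.1 h2).2).1
    simp only [a, norm_mul]
    exact mul_le_one₀ (mul_le_one₀ (hS _ h1).2.2 (norm_nonneg _) (hch _)) (by positivity)
      (mul_le_one₀ (pf_inv (hD.trans (hS _ h1).1)) (norm_nonneg _) (pf_inv h3))
  have hM : ‖AV Δ fun x => ∑ i ∈ S ×ˢ Hs ×ˢ V, a i * ee (f i x)‖ ≤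
      Bd + 2 * Z ^ 4 * gs (T / 2) := by
    refine AV_le hP.dpos (by linarith [hP.t]) (fun x => ?_) fun x hx => ?_
    · refine (norm_sum_le _ _).trans ((sum_le_card_nsmul _ _ 1 fun i hi => ?_).trans ?_)
      · rw [norm_mul, norm_ee, mul_one]; exact ha i hi
      · rw [nsmul_eq_mul, mul_one, card_product, card_product, Nat.cast_mul, Nat.cast_mul,
          show Z ^ 4 = Z ^ 2 * (Z * Z) by ring]
        gcongr
    · refine le_of_eq_of_le ?_ (hB x hx)
      rw [← one_mul ‖∑ s ∈ S, _‖, ← norm_ee (-(c * x)), ← norm_mul]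
      congr 1
      simp only [EF, sum_product, mul_sum]
      refine sum_congr rfl fun s _ => sum_congr rfl fun h _ => sum_congr rfl fun ν _ => ?_
      simp only [a, f, ee_add]
      push_cast
      ring
  have b0 : 0 ≤ Bd := (norm_nonneg _).trans (hB 0 (by
    rw [abs_zero]; exact div_nonneg (by linarith [hP.t]) hP.dpos.le))
  have key : ∑ s ∈ S, α s * ∑ j ∈ Icc 1 n1, BW c Δ Hs ch (dd s * j) =
      ∑ i ∈ S ×ˢ Hs, α i.1 * ch i.2 *
        (∑ j ∈ Icc 1 n1, (bb c Δ (dd i.1 * j) : ℂ) * ee (i.2 * √((dd i.1 * j : ℕ) : ℝ)) -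
        k0 1 * ((√2 / √(dd i.1 : ℝ) : ℝ) : ℂ) * ∑ ν ∈ V, ((1 / √(ν : ℝ) : ℝ) : ℂ) *
          AV Δ fun x => ee (-(c * x) + dd i.1 * ((i.2 + x) ^ 2 / (4 * ν)))) +
      k0 1 * ((√2 : ℝ) : ℂ) * AV Δ fun x => ∑ i ∈ S ×ˢ Hs ×ˢ V, a i * ee (f i x) := by
    rw [← AV_comb hP.dpos _ a f fun i _ => by simp only [f]; fun_prop]
    simp only [sum_product, mul_sum, ← sum_add_distrib, BW]
    refine sum_congr rfl fun s _ => ?_
    rw [sum_comm]
    refine sum_congr rfl fun h _ => ?_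
    rw [mul_sub, mul_sum, mul_sum, sub_add, eq_comm, sub_eq_iff_eq_add, ← sum_sub_distrib,
      sum_eq_zero (s := V) fun ν _ => ?_, add_zero]
    · exact sum_congr rfl fun j _ => by ring
    · simp only [a, f]
      push_cast
      ring
  have h2 : √2 ≤ 2 := by rw [Real.sqrt_le_left (by norm_num)]; norm_num
  have e1 := le_ngl z1 T (a := 3) (b := 13) (by norm_num) (by norm_num)
  have e2 := le_ngl z1 T (a := 1) (b := 4) (by norm_num) (by norm_num)
  rw [key]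
  refine (norm_add_le _ _).trans ((add_le_add (b := C * ngl Z T) (d := 2 * Bd + 4 * ngl Z T)
    ?_ ?_).trans_eq (by ring))
  · refine (norm_sum_le _ _).trans ((sum_le_card_nsmul _ _
      (C * (1 / Z ^ 6 + Z ^ 10 * gs (T / 2))) fun i hi => ?_).trans ?_)
    · obtain ⟨h1, h3⟩ := mem_product.1 hi
      rw [norm_mul, norm_mul]
      exact (mul_le_of_le_one_left (norm_nonneg _)
        (mul_le_one₀ (hS _ h1).2.2 (norm_nonneg _) (hch _))).trans (H Z c Δ T D H1 n1 _ _ hP hD hDc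
        (hS _ h1).1 (hS _ h1).2.1 hH hHc (hIn _ h3).1 (hIn _ h3).2 hn1 hn2)
    · rw [nsmul_eq_mul, card_product, Nat.cast_mul]
      calc _ ≤ Z ^ 2 * Z * (C * (1 / Z ^ 6 + Z ^ 10 * gs (T / 2))) := by gcongr
        _ = C * (1 / Z ^ 3 + Z ^ 13 * gs (T / 2)) := by field_simp
        _ ≤ _ := by gcongr
  · rw [norm_mul, norm_mul, norm_k0, one_mul, Complex.norm_real,
      Real.norm_of_nonneg (Real.sqrt_nonneg _)]
    have p : 0 < 1 / Z ^ 1 := by positivity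
    calc _ ≤ 2 * (Bd + 2 * Z ^ 4 * gs (T / 2)) := by gcongr
      _ ≤ _ := by linarith

end Pool.Agent.P.MP_8be758_nt.Sq
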