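import Pool.Agent.P.MP_8be758_nt.Sq.IfaceA

/-! Step PF1. -/

set_option autoImplicit false
set_option linter.unusedSectionVars false

namespace Pool.Agent.P.MP_8be758_nt.Sq

open Finset Real Filter Topology
open Pool.Agent.P.MP_e86632_nt (ee nn norm_ee ee_add ee_neg)
open Pool.Agent.P.MP_8be758_nt.Avg (gs gs_pos gs_anti gs_le_one gs_neg)

theorem p_PF1 (hGIb : S_GIb) (hGP2 : S_GP2) :
    S_PF1 := by
  obtain ⟨C, hC, hG⟩ := hGP2
  refine ⟨C, hC, fun Z c Δ T D H1 n1 d h hP hD hDc hd1 hd2 hH hHc hh1 hh2 hn1 hn2 => ?_⟩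
  have c0 := hP.cpos
  have d0 := hP.dpos
  have hd : (1 : ℝ) ≤ d := hD.trans hd1
  have hh : (1 : ℝ) ≤ h := hH.trans hh1
  obtain ⟨r, hr⟩ : ∃ r, r = √(d : ℝ) := ⟨_, rfl⟩
  have r1 : 1 ≤ r := hr ▸ Real.one_le_sqrt.2 hd
  have r0 : 0 < r := by linarith
  have r2 : r ^ 2 = d := hr ▸ Real.sq_sqrt (by linarith)
  have rc : r ≤ c := by nlinarith
  have tc : c / r ≤ c := div_le_self c0.le r1
  have t0 : 0 < c / r := by positivity
  have mv := fun ν => mem_VR (ν := ν) c0 (show 0 ≤ D by linarith) (show 0 ≤ H1 by linarith)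
  have key := hG Z T (c / r) (Δ / r) (h * r) n1 ((VR c D H1).image Nat.cast) hP.z hP.t
    (by positivity) (by rw [← mul_div_assoc]; exact div_le_div_of_nonneg_right hP.tc r0.le)
    ((one_le_div r0).2 rc) (tc.trans hP.cZ)
    (by
      rw [div_div_div_cancel_right₀ r0.ne']
      exact (pow_le_pow_left₀ (by positivity) (div_le_self c0.le (by linarith [hP.d3])) 2).trans
        hP.cz)
    (by
      rw [abs_of_pos (by positivity), show h * r * (c / r) = h * c by field_simp]
      nlinarith [hP.cz])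
    (by nlinarith) hn2
    (fun p hp => by
      obtain ⟨ν, hν, rfl⟩ := mem_image.1 hp
      have a1 := ((mv ν).1 hν).2.1
      rw [le_div_iff₀ c0] at a1
      have a2 : (ν : ℝ) * c ≤ 4 * D * c := by nlinarith
      have a3 := le_of_mul_le_mul_right a2 c0
      rw [Int.cast_natCast, Nat.abs_cast]
      linarith [hP.cz])
    (fun p hp => by
      have e : h * r - 2 * p * (c / r) = (h * d - 2 * p * c) / r := by
        rw [← r2]; field_simp
      have b1 : H1 * D ≤ h * d := mul_le_mul hh1 hd1 (by linarith) (by linarith)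
      have b2 : (h : ℝ) * d ≤ 2 * H1 * (4 * D) := mul_le_mul hh2 hd2 (by linarith) (by linarith)
      have b3 : (d : ℝ) ≤ h * d := le_mul_of_one_le_left (by linarith) hh
      have a : |(p : ℝ)| * c ≤ |h * d - 2 * p * c| ∧ (h : ℝ) * d ≤ 3 * |h * d - 2 * p * c| := by
        rcases le_or_gt p 0 with p0 | p0
        · have p1 : (p : ℝ) ≤ 0 := by exact_mod_cast p0
          have p2 : 0 ≤ -p * c := mul_nonneg (by linarith) c0.le
          rw [abs_of_nonpos p1]
          constructor <;> linarith [le_abs_self (h * d - 2 * p * c : ℝ)]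
        · lift p to ℕ using p0.le
          have p1 : p ∉ VR c D H1 := fun hm => hp (mem_image_of_mem _ hm)
          rw [mv, le_div_iff₀ c0, div_le_iff₀ (by positivity)] at p1
          have p2 : 0 ≤ (p : ℝ) * c := by positivity
          rw [Int.cast_natCast, Nat.abs_cast]
          by_cases p3 : (p : ℝ) * c ≤ 8 * H1 * D
          · have p4 : (p : ℝ) * (3 * c) < H1 * D :=
              not_le.1 fun p4 => p1 ⟨by exact_mod_cast p0, p3, p4⟩
            constructor <;> linarith [le_abs_self (h * d - 2 * p * c : ℝ)]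
          · constructor <;> linarith [neg_le_abs (h * d - 2 * p * c : ℝ)]
      rw [e, abs_div, abs_of_pos r0, ← mul_div_assoc, div_mul_div_comm, ← pow_two, r2,
        le_div_iff₀ (show (0 : ℝ) < d by linarith)]
      refine ⟨div_le_div_of_nonneg_right a.1 r0.le, ?_⟩
      have b4 := mul_le_mul_of_nonneg_right (b3.trans a.2) d0.le
      have b5 := mul_le_mul_of_nonneg_right hP.td (show (0 : ℝ) ≤ d by linarith)
      linarith)
  refine le_trans (le_of_eq ?_) ((mul_le_of_le_one_left (norm_nonneg _)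
    (show ‖((1 / r : ℝ) : ℂ)‖ ≤ 1 by
      rw [Complex.norm_real, Real.norm_of_nonneg (by positivity)]
      exact (div_le_one r0).2 r1)).trans key)
  rw [← norm_mul, mul_sub, sum_image fun _ _ _ _ e => Nat.cast_injective e]
  simp only [mul_sum]
  congr 2
  · refine sum_congr rfl fun j _ => ?_
    rw [bb, Nat.cast_mul, Real.sqrt_mul (by linarith), ← hr, ← mul_assoc, ← mul_assoc,
      ← Complex.ofReal_mul, show (√(j : ℝ) - c / r) / (Δ / r) = (r * √(j : ℝ) - c) / Δ by
        field_simp]
    congr 2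
    ring
  · refine sum_congr rfl fun ν hν => ?_
    have n0 : (0 : ℝ) < ν := by exact_mod_cast ((mv ν).1 hν).1
    have e1 : ∀ x : ℝ, -(c / r * (r * x)) + (h * r + r * x) ^ 2 / (4 * ν) =
        -(c * x) + d * ((h + x) ^ 2 / (4 * ν)) := fun x => by
      rw [← r2]; field_simp
    have e2 : k0 ν = k0 1 := by rw [k0, k0, if_pos n0, if_pos one_pos]
    have e3 : √2 / r * (1 / √(ν : ℝ)) = 1 / r * (2 / √(2 * ν)) := by
      have := Real.sqrt_pos.2 n0
      have q : √2 * √2 = 2 := Real.mul_self_sqrt (by norm_num)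
      rw [Real.sqrt_mul (by norm_num)]
      field_simp
      linarith
    rw [Int.cast_natCast, hGIb _ _ _ _ (by positivity) n0.ne', AV_scale r0, e2, abs_of_pos n0,
      ← hr]
    simp only [e1]
    have e4 := congrArg (fun x : ℝ => (x : ℂ)) e3
    push_cast at e4 ⊢
    linear_combination (k0 1 * AV Δ fun x => ee (-(c * x) + d * ((h + x) ^ 2 / (4 * ν)))) * e4

end Pool.Agent.P.MP_8be758_nt.Sq
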