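import Pool.Agent.P.MP_8be758_nt.Sq.IfaceA

/-! Step PR. -/

set_option autoImplicit false
set_option linter.unusedSectionVars false

namespace Pool.Agent.P.MP_8be758_nt.Sq

open Finset Real Filter Topology
open Pool.Agent.P.MP_e86632_nt (ee nn norm_ee ee_add ee_neg)
open Pool.Agent.P.MP_8be758_nt.Avg (gs gs_pos gs_anti gs_le_one gs_neg)

theorem pr_card {α : Type} (s A B : Finset α) (h : ∀ p ∈ s, p ∈ A ∨ p ∈ B) :
    (s.card : ℝ) ≤ A.card + B.card := by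
  classical
  have h1 : s.card ≤ A.card + B.card :=
    (card_le_card (fun p hp => mem_union.2 (h p hp))).trans (card_union_le A B)
  exact_mod_cast h1

theorem pr_l (h h2 ν ν2 : ℕ) (j : ℤ) (η V0 : ℝ) (hV : 0 < V0) (_hη : 0 ≤ η)
    (h1 : V0 ≤ ν) (h1' : (ν : ℝ) ≤ 24 * V0) (h2' : V0 ≤ ν2) (h2'' : (ν2 : ℝ) ≤ 24 * V0)
    (hj : |(h : ℝ) ^ 2 / (4 * ν) - (h2 : ℝ) ^ 2 / (4 * ν2) - j| ≤ η) :
    |(((h : ℤ) ^ 2 * ν2 - (h2 : ℤ) ^ 2 * ν - 4 * ν * ν2 * j : ℤ) : ℝ)| ≤ 2304 * V0 ^ 2 * η := by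
  have hν : (0 : ℝ) < ν := hV.trans_le h1
  have hν2 : (0 : ℝ) < ν2 := hV.trans_le h2'
  have e : (((h : ℤ) ^ 2 * ν2 - (h2 : ℤ) ^ 2 * ν - 4 * ν * ν2 * j : ℤ) : ℝ) =
      (4 * ν * ν2) * ((h : ℝ) ^ 2 / (4 * ν) - (h2 : ℝ) ^ 2 / (4 * ν2) - j) := by
    push_cast
    field_simp
  rw [e, abs_mul, abs_of_pos (by positivity : (0 : ℝ) < 4 * ν * ν2)]
  have h3 : (4 * ν * ν2 : ℝ) ≤ 2304 * V0 ^ 2 := by
    have := mul_le_mul h1' h2'' hν2.le (by positivity)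
    nlinarith
  exact mul_le_mul h3 hj (abs_nonneg _) (by positivity)

theorem p_PR (hPR0 : S_PR0) (hPR1 : S_PR1) :
    S_PR := by
  classical
  obtain ⟨C0, hC0, H0⟩ := hPR0
  obtain ⟨C1, hC1, H1'⟩ := hPR1
  refine ⟨C0 + 2304 * C1, by positivity, ?_⟩
  intro Z τ H1 V0 η Hs Vs hS hH hHZ hV hVZ hη hlt hHs hVs
  have hτ : 0 ≤ τ := by
    have := hS.lg
    have h2 : 0 ≤ Real.log Z := Real.log_nonneg (by linarith [hS.z])
    linarith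
  have hLa : 2304 * V0 ^ 2 * η < V0 := by
    have := mul_lt_mul_of_pos_left hlt hV
    nlinarith
  have h0 := H0 Z τ H1 V0 Hs Vs hS hH hHZ hV hVZ hHs hVs
  have h1 := H1' Z τ H1 V0 (2304 * V0 ^ 2 * η) Hs Vs hS hH hHZ hV hVZ (by positivity) hLa hHs hVs
  refine (pr_card _ _ _ ?_).trans ((add_le_add h0 h1).trans ?_)
  · rintro ⟨⟨h, ν⟩, h2, ν2⟩ hp
    unfold PQ at hp
    rw [mem_filter] at hp
    obtain ⟨hm, j, hj⟩ := hp
    have hm' := hm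
    simp only [mem_product] at hm'
    have hν := hVs ν hm'.1.2
    have hν2 := hVs ν2 hm'.2.2
    have hl := pr_l h h2 ν ν2 j η V0 hV hη hν.1 hν.2 hν2.1 hν2.2 hj
    by_cases hz : ((h : ℤ) ^ 2 * ν2 - (h2 : ℤ) ^ 2 * ν - 4 * ν * ν2 * j : ℤ) = 0
    · left
      rw [mem_filter]
      exact ⟨hm, j, by simp only; linarith⟩
    · right
      rw [mem_filter]
      refine ⟨hm, _, hz, hl, ⟨(h : ℤ) ^ 2 - 4 * ν * j, by simp only; ring⟩,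
        ⟨(h2 : ℤ) ^ 2 + 4 * ν2 * j, by simp only; ring⟩⟩
  · have a1 : 0 ≤ H1 ^ 2 + H1 * V0 := by positivity
    have a2 : 0 ≤ H1 * V0 ^ 2 * η * (V0 + H1) := by positivity
    have a3 : 0 ≤ τ ^ 3 := by positivity
    have b1 : 0 ≤ C0 * τ ^ 3 * (H1 * V0 ^ 2 * η * (V0 + H1)) := by positivity
    have b2 : 0 ≤ C1 * τ ^ 3 * (H1 ^ 2 + H1 * V0) := by positivity
    nlinarith

end Pool.Agent.P.MP_8be758_nt.Sq
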