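import Pool.Agent.P.MP_8be758_nt.Sq.IfaceA

/-! Step PR0. -/

set_option autoImplicit false
set_option linter.unusedSectionVars false

namespace Pool.Agent.P.MP_8be758_nt.Sq

open Finset Real Filter Topology
open Pool.Agent.P.MP_e86632_nt (ee nn norm_ee ee_add ee_neg)
open Pool.Agent.P.MP_8be758_nt.Avg (gs gs_pos gs_anti gs_le_one gs_neg)

theorem pr0_fib {α β : Type} [DecidableEq β] (S : Finset α) (T : Finset β) (f : α → β) {B : ℝ}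
    (hf : ∀ a ∈ S, f a ∈ T) (hB : ∀ b ∈ T, ((S.filter fun a => f a = b).card : ℝ) ≤ B) :
    (S.card : ℝ) ≤ T.card * B := by
  rw [card_eq_sum_card_fiberwise hf, Nat.cast_sum, ← nsmul_eq_mul, ← sum_const]
  exact sum_le_sum hB

theorem pr0_inj {α : Type} {Z τ : ℝ} (h : Sz Z τ) (S : Finset α) (g : α → ℕ) (m : ℤ)
    (hinj : Set.InjOn g S) (hm : ∀ a ∈ S, m ≠ 0 ∧ |(m : ℝ)| ≤ Z ^ 5 ∧ (g a : ℤ) ∣ m) :
    (S.card : ℝ) ≤ τ := by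
  rcases S.eq_empty_or_nonempty with rfl | ⟨a, ha⟩
  · simpa using zero_le_one.trans h.t1
  · rw [← card_image_of_injOn hinj]
    refine h.card_dvd (hm a ha).1 (hm a ha).2.1 fun d hd => ?_
    obtain ⟨x, hx, rfl⟩ := mem_image.1 hd
    exact (hm x hx).2.2

theorem pr0_sz {Z : ℝ} (hZ : 10 ≤ Z) {x y : ℕ} (hx : (x : ℝ) ≤ 2 * Z) (hy : (y : ℝ) ≤ Z) :
    (x : ℝ) ^ 2 * y ≤ Z ^ 5 := by
  have h1 : (x : ℝ) ^ 2 * y ≤ (2 * Z) ^ 2 * Z :=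
    mul_le_mul (pow_le_pow_left₀ (Nat.cast_nonneg _) hx 2) hy (Nat.cast_nonneg _) (by positivity)
  have h2 : 0 < Z ^ 3 := by positivity
  have h3 : 4 ≤ Z ^ 2 := by nlinarith
  nlinarith

theorem pr0_gcd {x y ν μ : ℕ} (hν : 0 < ν)
    (h : (4 * ν * μ : ℤ) ∣ (x : ℤ) ^ 2 * μ - (y : ℤ) ^ 2 * ν) :
    ν / ν.gcd μ ∣ x ^ 2 ∧ μ / ν.gcd μ ∣ y ^ 2 ∧
      (ν.gcd μ : ℤ) ∣ (x : ℤ) ^ 2 * (μ / ν.gcd μ : ℕ) - (y : ℤ) ^ 2 * (ν / ν.gcd μ : ℕ) := by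
  have g0 : 0 < ν.gcd μ := Nat.gcd_pos_of_pos_left _ hν
  have hc := Nat.coprime_div_gcd_div_gcd g0
  have e1 := Nat.mul_div_cancel' (Nat.gcd_dvd_left ν μ)
  have e2 := Nat.mul_div_cancel' (Nat.gcd_dvd_right ν μ)
  generalize ν / ν.gcd μ = a at *
  generalize μ / ν.gcd μ = b at *
  generalize ν.gcd μ = g at *
  subst e1 e2
  have h1 : (4 * g * a * b : ℤ) ∣ (x : ℤ) ^ 2 * b - (y : ℤ) ^ 2 * a := by
    refine Int.dvd_of_mul_dvd_mul_left (a := (g : ℤ)) (by exact_mod_cast g0.ne') ?_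
    push_cast at h
    convert h using 1 <;> ring
  refine ⟨hc.dvd_of_dvd_mul_right ?_, hc.symm.dvd_of_dvd_mul_right ?_,
    dvd_trans ⟨4 * a * b, by ring⟩ h1⟩
  · have h2 : (a : ℤ) ∣ (x : ℤ) ^ 2 * b - (y : ℤ) ^ 2 * a :=
      dvd_trans ⟨4 * g * b, by ring⟩ h1
    have h3 := h2.add (Dvd.intro_left ((y : ℤ) ^ 2) rfl)
    rw [sub_add_cancel] at h3
    exact_mod_cast h3
  · have h2 : (b : ℤ) ∣ (x : ℤ) ^ 2 * b - (y : ℤ) ^ 2 * a :=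
      dvd_trans ⟨4 * g * a, by ring⟩ h1
    have h3 := (Dvd.intro_left ((x : ℤ) ^ 2) rfl).sub h2
    rw [sub_sub_cancel] at h3
    exact_mod_cast h3

theorem pr0_B {Z τ : ℝ} (h : Sz Z τ) {x y : ℕ} (x0 : 0 < x) (y0 : 0 < y) (hx : (x : ℝ) ≤ 2 * Z)
    (hy : (y : ℝ) ≤ 2 * Z) (S : Finset ((ℕ × ℕ) × ℕ × ℕ))
    (hS : ∀ p ∈ S, p.1.1 = x ∧ p.2.1 = y ∧ 0 < p.1.2 ∧ (p.1.2 : ℝ) ≤ Z ∧ (p.2.2 : ℝ) ≤ Z ∧
      (4 * p.1.2 * p.2.2 : ℤ) ∣ (x : ℤ) ^ 2 * p.2.2 - (y : ℤ) ^ 2 * p.1.2 ∧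
      x ^ 2 * p.2.2 ≠ y ^ 2 * p.1.2) : (S.card : ℝ) ≤ τ ^ 3 := by
  have t0 : 0 ≤ τ := zero_le_one.trans h.t1
  have z1 : ((1 : ℕ) : ℝ) ≤ Z := by push_cast; linarith [h.z]
  have d1 : ∀ u : ℕ, (u : ℝ) ≤ 2 * Z → (((u ^ 2).divisors.card : ℕ) : ℝ) ≤ τ := fun u hu =>
    h.dv _ (by simpa using pr0_sz h.z hu z1)
  refine (pr0_fib S ((x ^ 2).divisors ×ˢ (y ^ 2).divisors)
    (fun p => (p.1.2 / p.1.2.gcd p.2.2, p.2.2 / p.1.2.gcd p.2.2)) (B := τ) (fun p hp => ?_)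
    fun b _ => ?_).trans ?_
  · obtain ⟨-, -, h1, -, -, h2, -⟩ := hS p hp
    obtain ⟨h3, h4, -⟩ := pr0_gcd h1 h2
    exact mem_product.2 ⟨Nat.mem_divisors.2 ⟨h3, by positivity⟩,
      Nat.mem_divisors.2 ⟨h4, by positivity⟩⟩
  · refine pr0_inj h _ (fun p => p.1.2.gcd p.2.2) ((x : ℤ) ^ 2 * b.2 - (y : ℤ) ^ 2 * b.1)
      (fun p hp q hq e => ?_) fun p hp => ?_
    · obtain ⟨hp1, hp2⟩ := mem_filter.1 (mem_coe.1 hp)
      obtain ⟨hq1, hq2⟩ := mem_filter.1 (mem_coe.1 hq)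
      have e0 : p.1.2.gcd p.2.2 = q.1.2.gcd q.2.2 := e
      obtain ⟨e1, e2⟩ := Prod.ext_iff.1 (hp2.trans hq2.symm)
      simp only at e1 e2
      refine Prod.ext (Prod.ext ((hS p hp1).1.trans (hS q hq1).1.symm) ?_)
        (Prod.ext ((hS p hp1).2.1.trans (hS q hq1).2.1.symm) ?_)
      · rw [← Nat.mul_div_cancel' (Nat.gcd_dvd_left p.1.2 p.2.2), e1, e0,
          Nat.mul_div_cancel' (Nat.gcd_dvd_left _ _)]
      · rw [← Nat.mul_div_cancel' (Nat.gcd_dvd_right p.1.2 p.2.2), e2, e0,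
          Nat.mul_div_cancel' (Nat.gcd_dvd_right _ _)]
    · obtain ⟨hp1, rfl⟩ := mem_filter.1 hp
      obtain ⟨-, -, h1, h5, h6, h2, h7⟩ := hS p hp1
      refine ⟨fun e => h7 ?_, ?_, (pr0_gcd h1 h2).2.2⟩
      · have e1 : x ^ 2 * (p.2.2 / p.1.2.gcd p.2.2) = y ^ 2 * (p.1.2 / p.1.2.gcd p.2.2) := by
          exact_mod_cast sub_eq_zero.1 e
        rw [← Nat.mul_div_cancel' (Nat.gcd_dvd_right p.1.2 p.2.2), mul_left_comm, e1,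
          mul_left_comm, Nat.mul_div_cancel' (Nat.gcd_dvd_left _ _)]
      · have a1 := pr0_sz h.z hx (le_trans
          (Nat.cast_le.2 (Nat.div_le_self p.2.2 (p.1.2.gcd p.2.2))) h6)
        have a2 := pr0_sz h.z hy (le_trans
          (Nat.cast_le.2 (Nat.div_le_self p.1.2 (p.1.2.gcd p.2.2))) h5)
        simp only [Int.cast_sub, Int.cast_mul, Int.cast_pow, Int.cast_natCast]
        have a3 : (0 : ℝ) ≤ (x : ℝ) ^ 2 * (p.2.2 / p.1.2.gcd p.2.2 : ℕ) := by positivity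
        have a4 : (0 : ℝ) ≤ (y : ℝ) ^ 2 * (p.1.2 / p.1.2.gcd p.2.2 : ℕ) := by positivity
        rw [abs_le]
        constructor <;> linarith
  · rw [card_product, Nat.cast_mul, show τ ^ 3 = τ * τ * τ by ring]
    exact mul_le_mul_of_nonneg_right (mul_le_mul (d1 x hx) (d1 y hy) (Nat.cast_nonneg _) t0) t0

theorem p_PR0 :
    S_PR0 := by
  refine ⟨48, by norm_num, fun Z τ H1 V0 Hs Vs h h1 hZ v0 vZ iH iV => ?_⟩
  set S := ((Hs ×ˢ Vs) ×ˢ Hs ×ˢ Vs).filter fun p : (ℕ × ℕ) × ℕ × ℕ =>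
    (4 * p.1.2 * p.2.2 : ℤ) ∣ (p.1.1 : ℤ) ^ 2 * p.2.2 - (p.2.1 : ℤ) ^ 2 * p.1.2 with hS
  have t1 := h.t1
  have cH : (Hs.card : ℝ) ≤ 2 * H1 := iH.card_le (by linarith) (by linarith)
  have cV : (Vs.card : ℝ) ≤ 24 * V0 := iV.card_le v0 (by linarith)
  have bH : ∀ x ∈ Hs, 0 < x ∧ (x : ℝ) ≤ 2 * Z := fun x hx =>
    ⟨iH.pos (by linarith) hx, by linarith [(iH x hx).2]⟩
  have bV : ∀ x ∈ Vs, 0 < x ∧ (x : ℝ) ≤ Z := fun x hx => ⟨iV.pos v0 hx, (iV x hx).2.trans vZ⟩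
  have mS : ∀ p ∈ S, (p.1.1 ∈ Hs ∧ p.1.2 ∈ Vs) ∧ (p.2.1 ∈ Hs ∧ p.2.2 ∈ Vs) ∧
      (4 * p.1.2 * p.2.2 : ℤ) ∣ (p.1.1 : ℤ) ^ 2 * p.2.2 - (p.2.1 : ℤ) ^ 2 * p.1.2 := fun p hp => by
    simpa only [hS, mem_filter, mem_product, and_assoc] using hp
  have A : ((S.filter fun p => p.1.1 ^ 2 * p.2.2 = p.2.1 ^ 2 * p.1.2).card : ℝ) ≤
      (Hs ×ˢ Vs).card * τ := by
    refine pr0_fib _ _ (fun p => (p.2.1, p.1.2)) (fun p hp => ?_) fun b hb => ?_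
    · have := mS p (mem_filter.1 hp).1
      exact mem_product.2 ⟨this.2.1.1, this.1.2⟩
    · obtain ⟨b1, b2⟩ := mem_product.1 hb
      refine pr0_inj h _ (fun p => p.2.2) ((b.1 : ℤ) ^ 2 * b.2) (fun p hp q hq e => ?_)
        fun p hp => ⟨?_, ?_, ?_⟩
      · obtain ⟨hp1, hp2⟩ := mem_filter.1 (mem_coe.1 hp)
        obtain ⟨hq1, hq2⟩ := mem_filter.1 (mem_coe.1 hq)
        obtain ⟨hp0, hp1⟩ := mem_filter.1 hp1
        have e0 : p.2.2 = q.2.2 := e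
        obtain ⟨e1, e2⟩ := Prod.ext_iff.1 (hp2.trans hq2.symm)
        simp only at e1 e2
        refine Prod.ext (Prod.ext ?_ e2) (Prod.ext e1 e0)
        rw [e1, e2, ← (mem_filter.1 hq1).2, e0] at hp1
        exact Nat.pow_left_injective two_ne_zero
          (Nat.eq_of_mul_eq_mul_right (e0 ▸ (bV _ (mS p hp0).2.1.2).1) hp1)
      · have := (bH _ b1).1
        have := (bV _ b2).1
        positivity
      · simp only [Int.cast_mul, Int.cast_pow, Int.cast_natCast]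
        rw [abs_of_nonneg (by positivity)]
        exact pr0_sz h.z (bH _ b1).2 (bV _ b2).2
      · obtain ⟨hp1, rfl⟩ := mem_filter.1 hp
        exact_mod_cast Dvd.intro_left _ (mem_filter.1 hp1).2
  have B : ((S.filter fun p => ¬ p.1.1 ^ 2 * p.2.2 = p.2.1 ^ 2 * p.1.2).card : ℝ) ≤
      (Hs ×ˢ Hs).card * τ ^ 3 := by
    refine pr0_fib _ _ (fun p => (p.1.1, p.2.1)) (fun p hp => ?_) fun b hb => ?_
    · have := mS p (mem_filter.1 hp).1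
      exact mem_product.2 ⟨this.1.1, this.2.1.1⟩
    · obtain ⟨b1, b2⟩ := mem_product.1 hb
      refine pr0_B h (bH _ b1).1 (bH _ b2).1 (bH _ b1).2 (bH _ b2).2 _ fun p hp => ?_
      obtain ⟨hp1, rfl⟩ := mem_filter.1 hp
      obtain ⟨hp0, hp1⟩ := mem_filter.1 hp1
      obtain ⟨a1, a2, a3⟩ := mS p hp0
      exact ⟨rfl, rfl, (bV _ a1.2).1, (bV _ a1.2).2, (bV _ a2.2).2, a3, hp1⟩
  rw [card_product, Nat.cast_mul] at A B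
  rw [← card_filter_add_card_filter_not (fun p => p.1.1 ^ 2 * p.2.2 = p.2.1 ^ 2 * p.1.2),
    Nat.cast_add]
  have t3 : τ ≤ τ ^ 3 := le_self_pow₀ t1 (by norm_num)
  have A1 : (Hs.card : ℝ) * Vs.card * τ ≤ 2 * H1 * (24 * V0) * τ ^ 3 :=
    mul_le_mul (mul_le_mul cH cV (Nat.cast_nonneg _) (by linarith)) t3 (by linarith)
      (by positivity)
  have B1 : (Hs.card : ℝ) * Hs.card * τ ^ 3 ≤ 2 * H1 * (2 * H1) * τ ^ 3 :=
    mul_le_mul_of_nonneg_right (mul_le_mul cH cH (Nat.cast_nonneg _) (by linarith))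
      (by positivity)
  have p : 0 ≤ τ ^ 3 * H1 ^ 2 := by positivity
  nlinarith

end Pool.Agent.P.MP_8be758_nt.Sq
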