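import Pool.Agent.P.MP_8be758_nt.Sq.IfaceA

/-! Step PR1. -/

set_option autoImplicit false
set_option linter.unusedSectionVars false

namespace Pool.Agent.P.MP_8be758_nt.Sq

open Finset Real Filter Topology
open Pool.Agent.P.MP_e86632_nt (ee nn norm_ee ee_add ee_neg)
open Pool.Agent.P.MP_8be758_nt.Avg (gs gs_pos gs_anti gs_le_one gs_neg)

theorem p_PR1 (hPRa : S_PRa) (hPRb : S_PRb) :
    S_PR1 := by
  classical
  obtain ⟨C, hC, hb⟩ := hPRb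
  refine ⟨2 * C, by positivity, fun Z τ H1 V0 La Hs Vs hz h1 h1Z hV hVZ hL hLV hH hVs => ?_⟩
  have t1 := hz.t1
  have z0 := hz.z
  have hK : (⌊24 * V0⌋₊ : ℝ) ≤ Z := (Nat.floor_le (by positivity)).trans hVZ
  set K := ⌊24 * V0⌋₊ with hKd
  set L := ⌊La⌋₊ with hLd
  have hLL : (L : ℝ) ≤ La := Nat.floor_le hL
  set F : ℕ → ℤ → ℝ := fun ν l => ∑ p ∈ GG K ν l, (H1 * p.1 * p.2 / ν + 1) with hF
  have F0 : ∀ ν l, 0 ≤ F ν l := fun ν l => sum_nonneg fun p _ => by positivity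
  set B : (ℕ × ℕ) × ℤ → Finset ((ℕ × ℕ) × ℕ × ℕ) := fun x =>
    (Vs.filter fun ν' : ℕ => (ν' : ℤ) ∣ x.2 + (x.1.1 : ℤ) ^ 2 * x.1.2).biUnion fun ν' =>
      (Hs.filter fun h : ℕ => (x.1.2 : ℤ) ∣ (ν' : ℤ) * (h : ℤ) ^ 2 - x.2).image
        fun h => ((h, x.1.2), x.1.1, ν') with hB
  have hBc : ∀ x ∈ (Hs ×ˢ Vs) ×ˢ Hz L, ((B x).card : ℝ) ≤ τ ^ 2 * F x.1.2 x.2 := by
    rintro ⟨⟨h', ν⟩, l⟩ hx
    simp only [mem_product] at hx
    obtain ⟨⟨a1, a2⟩, a3⟩ := hx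
    obtain ⟨b1, b2⟩ := hH h' a1
    obtain ⟨b3, b4⟩ := hVs ν a2
    have b5 : |(l : ℝ)| ≤ La := le_trans (by exact_mod_cast (mem_Hz.1 a3).2) hLL
    have b6 : (1 : ℝ) ≤ (h' : ℝ) ^ 2 := one_le_pow₀ (by linarith)
    have b7 : (h' : ℝ) ^ 2 ≤ (2 * Z) ^ 2 := pow_le_pow_left₀ (by positivity) (by linarith) 2
    have b8 := abs_le.1 b5
    have b9 : V0 ≤ (h' : ℝ) ^ 2 * ν := by nlinarith
    have c1 : (h' : ℝ) ^ 2 * ν ≤ (2 * Z) ^ 2 * Z :=
      mul_le_mul b7 (by linarith) (by positivity) (by positivity)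
    have c2 : (0 : ℝ) < ((l + (h' : ℤ) ^ 2 * ν : ℤ) : ℝ) := by push_cast; linarith
    have c3 : ((Vs.filter fun ν' : ℕ => (ν' : ℤ) ∣ l + (h' : ℤ) ^ 2 * ν).card : ℝ) ≤ τ := by
      refine hz.card_dvd (m := l + (h' : ℤ) ^ 2 * ν) (by exact_mod_cast c2.ne') ?_
        fun d hd => (mem_filter.1 hd).2
      rw [abs_of_pos c2]
      have e1 : Z ≤ Z ^ 3 := by simpa using hz.pow (show 1 ≤ 3 by norm_num)
      have e2 : Z ^ 3 * 10 ≤ Z ^ 3 * Z := mul_le_mul_of_nonneg_left z0 (by positivity)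
      have e3 := hz.pow (show 4 ≤ 5 by norm_num)
      push_cast
      nlinarith
    refine le_trans (Nat.cast_le.2 card_biUnion_le) ?_
    push_cast
    refine (sum_le_card_nsmul _ _ (τ * F ν l) fun ν' _ => ?_).trans ?_
    · exact le_trans (Nat.cast_le.2 card_image_le)
        (hPRa Z τ H1 Hs K ν ν' l hz (by linarith) hH (hVs.pos hV a2) (Nat.le_floor b4) hK)
    · rw [nsmul_eq_mul, sq τ, mul_assoc τ]
      exact mul_le_mul_of_nonneg_right c3 (mul_nonneg (zero_le_one.trans t1) (F0 _ _))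
  refine le_trans (Nat.cast_le.2 (card_le_card (t := ((Hs ×ˢ Vs) ×ˢ Hz L).biUnion B) ?_)) ?_
  · rintro ⟨⟨h, ν⟩, h', ν'⟩ hp
    simp only [mem_filter, mem_product] at hp
    obtain ⟨⟨⟨a1, a2⟩, a3, a4⟩, l, l0, l1, l2, l3⟩ := hp
    refine mem_biUnion.2 ⟨((h', ν), l), ?_, mem_biUnion.2 ⟨ν', mem_filter.2 ⟨a4, l2⟩,
      mem_image.2 ⟨h, mem_filter.2 ⟨a1, l3⟩, rfl⟩⟩⟩
    refine mem_product.2 ⟨mem_product.2 ⟨a3, a2⟩, mem_Hz.2 ⟨l0, ?_⟩⟩
    have e : ((l.natAbs : ℕ) : ℝ) ≤ La := by rwa [Nat.cast_natAbs, Int.cast_abs]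
    have := Nat.le_floor e
    rw [← Int.natCast_natAbs]
    exact_mod_cast this
  refine le_trans (Nat.cast_le.2 card_biUnion_le) ?_
  push_cast
  refine (sum_le_sum hBc).trans ?_
  rw [← mul_sum, sum_product, sum_product]
  simp only [sum_const, nsmul_eq_mul]
  have d1 := hb Z τ H1 V0 Vs K L hz (by linarith) hV hK hVs
  have d2 := hH.card_le (by linarith) (by linarith)
  have d3 : C * τ * (L * (V0 + H1)) ≤ C * τ * (La * (V0 + H1)) := by gcongr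
  calc _ ≤ τ ^ 2 * (2 * H1 * (C * τ * (La * (V0 + H1)))) := by
        exact mul_le_mul_of_nonneg_left (mul_le_mul d2 (d1.trans d3)
          (sum_nonneg fun _ _ => sum_nonneg fun _ _ => F0 _ _) (by positivity)) (by positivity)
    _ = _ := by ring

end Pool.Agent.P.MP_8be758_nt.Sq
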