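import Pool.Agent.P.MP_8be758_nt.Sq.IfaceA

/-! Step PRb. -/

set_option autoImplicit false
set_option linter.unusedSectionVars false

namespace Pool.Agent.P.MP_8be758_nt.Sq

open Finset Real Filter Topology
open Pool.Agent.P.MP_e86632_nt (ee nn norm_ee ee_add ee_neg)
open Pool.Agent.P.MP_8be758_nt.Avg (gs gs_pos gs_anti gs_le_one gs_neg)

theorem prb_A {V0 : ℝ} (hV : 0 < V0) {Vs : Finset ℕ} (h : In Vs V0 (24 * V0)) {d : ℕ} (hd : 0 < d) :
    ((Vs.filter fun ν => d ∣ ν).card : ℝ) ≤ 48 * V0 / d := by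
  have := card_mult_le hd (L := 24 * V0) (by positivity)
    ((Vs.filter fun ν => d ∣ ν).image fun ν : ℕ => (ν : ℤ)) fun t ht => by
      obtain ⟨ν, hν, rfl⟩ := mem_image.1 ht
      obtain ⟨h1, h2⟩ := mem_filter.1 hν
      refine ⟨by exact_mod_cast (h.pos hV h1).ne', ?_, by exact_mod_cast h2⟩
      rw [Int.cast_natCast, Nat.abs_cast]
      exact (h ν h1).2
  rw [card_image_of_injective _ Nat.cast_injective] at this
  exact this.trans_eq (by ring)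

theorem prb_B (L : ℕ) {d : ℕ} (hd : 0 < d) :
    (((Hz L).filter fun l => (d : ℤ) ∣ 4 * l).card : ℝ) ≤ 8 * L / d := by
  have := card_mult_le hd (L := 4 * L) (by positivity)
    (((Hz L).filter fun l => (d : ℤ) ∣ 4 * l).image fun l : ℤ => 4 * l) fun t ht => by
      obtain ⟨l, hl, rfl⟩ := mem_image.1 ht
      obtain ⟨h1, h2⟩ := mem_filter.1 hl
      obtain ⟨h3, h4⟩ := mem_Hz.1 h1
      refine ⟨by omega, ?_, h2⟩
      have h5 : |(l : ℝ)| ≤ L := by exact_mod_cast h4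
      push_cast
      rw [abs_mul, abs_of_pos (by norm_num : (0 : ℝ) < 4)]
      linarith
  rw [card_image_of_injective _ (mul_right_injective₀ (by norm_num))] at this
  exact this.trans_eq (by ring)

theorem p_PRb :
    S_PRb := by
  refine ⟨768, by norm_num, fun Z τ H1 V0 Vs K L hs hH hV hK hIn => ?_⟩
  have step1 : ∑ ν ∈ Vs, ∑ l ∈ Hz L, ∑ p ∈ GG K ν l, (H1 * p.1 * p.2 / ν + 1) ≤
      ∑ ν ∈ Vs, ∑ l ∈ Hz L, ∑ p ∈ Icc 1 K ×ˢ Icc 1 K,
        (if p.1 * p.2 ^ 2 ∣ ν then (1 : ℝ) else 0) *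
          (if ((p.1 * p.2 ^ 2 : ℕ) : ℤ) ∣ 4 * l then (1 : ℝ) else 0) * (H1 * p.1 * p.2 / V0 + 1) := by
    refine sum_le_sum fun ν hν => sum_le_sum fun l _ => ?_
    rw [GG, sum_filter]
    refine sum_le_sum fun p _ => ?_
    have e : H1 * p.1 * p.2 / ν ≤ H1 * p.1 * p.2 / V0 :=
      div_le_div_of_nonneg_left (by positivity) hV (hIn ν hν).1
    by_cases h1 : p.1 * p.2 ^ 2 ∣ ν <;> by_cases h2 : ((p.1 * p.2 ^ 2 : ℕ) : ℤ) ∣ 4 * l <;>
      simp only [h1, h2, and_true, and_false, if_true, if_false, and_self, mul_zero, zero_mul,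
        one_mul, le_refl]
    linarith
  have step2 : ∑ ν ∈ Vs, ∑ l ∈ Hz L, ∑ p ∈ Icc 1 K ×ˢ Icc 1 K,
        (if p.1 * p.2 ^ 2 ∣ ν then (1 : ℝ) else 0) *
          (if ((p.1 * p.2 ^ 2 : ℕ) : ℤ) ∣ 4 * l then (1 : ℝ) else 0) * (H1 * p.1 * p.2 / V0 + 1) =
      ∑ p ∈ Icc 1 K ×ˢ Icc 1 K, ((Vs.filter fun ν => p.1 * p.2 ^ 2 ∣ ν).card : ℝ) *
        (((Hz L).filter fun l => ((p.1 * p.2 ^ 2 : ℕ) : ℤ) ∣ 4 * l).card : ℝ) *
          (H1 * p.1 * p.2 / V0 + 1) := by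
    simp only [← sum_boole, sum_mul_sum, sum_mul]
    rw [sum_congr rfl fun ν _ => sum_comm, sum_comm]
    refine sum_congr rfl fun p _ => sum_congr rfl fun ν _ => ?_
    rw [mul_sum, sum_mul]
  have step3 : ∀ p ∈ Icc 1 K ×ˢ Icc 1 K, ((Vs.filter fun ν => p.1 * p.2 ^ 2 ∣ ν).card : ℝ) *
        (((Hz L).filter fun l => ((p.1 * p.2 ^ 2 : ℕ) : ℤ) ∣ 4 * l).card : ℝ) *
          (H1 * p.1 * p.2 / V0 + 1) ≤ 384 * (L * (V0 + H1)) * (1 / (p.1 : ℝ) * (1 / (p.2 : ℝ) ^ 2)) := by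
    rintro ⟨a, g⟩ hp
    obtain ⟨ha, hg⟩ := mem_product.1 hp
    have a1 : 1 ≤ a := (mem_Icc.1 ha).1
    have g1 : 1 ≤ g := (mem_Icc.1 hg).1
    have a1' : (1 : ℝ) ≤ a := by exact_mod_cast a1
    have g1' : (1 : ℝ) ≤ g := by exact_mod_cast g1
    have hd : 0 < a * g ^ 2 := by positivity
    have hA := prb_A hV hIn hd
    have hB := prb_B L hd
    dsimp only
    calc _ ≤ 48 * V0 / (a * g ^ 2 : ℕ) * (8 * L / (a * g ^ 2 : ℕ)) * (H1 * a * g / V0 + 1) := by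
          gcongr
      _ = 384 * (L * (V0 / (a * g ^ 2) + H1 / g)) * (1 / (a : ℝ) * (1 / (g : ℝ) ^ 2)) := by
          push_cast; field_simp; ring
      _ ≤ _ := by
          have h1 : V0 / (a * g ^ 2) ≤ V0 := div_le_self hV.le (by nlinarith)
          have h2 : H1 / g ≤ H1 := div_le_self hH g1'
          gcongr
  have hh := hs.harm (k := 1) le_rfl (S := Icc 1 K) fun d hd => by
    rw [pow_one]; exact le_trans (by exact_mod_cast (mem_Icc.1 hd).2) hK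
  have h2 := sum_inv_sq_le (Icc 1 K)
  have t1 := hs.t1
  refine step1.trans (step2.le.trans ((sum_le_sum step3).trans ?_))
  rw [← mul_sum, sum_product' (f := fun a g : ℕ => 1 / (a : ℝ) * (1 / (g : ℝ) ^ 2)), ← sum_mul_sum]
  simp only [Nat.cast_one, one_mul] at hh
  calc _ ≤ 384 * (L * (V0 + H1)) * (τ * 2) := by gcongr
    _ = _ := by ring

end Pool.Agent.P.MP_8be758_nt.Sq
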