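import Pool.Agent.P.MP_8be758_nt.Sq.IfaceA

/-! Step Q0. -/

set_option autoImplicit false
set_option linter.unusedSectionVars false

namespace Pool.Agent.P.MP_8be758_nt.Sq

open Finset Real Filter Topology
open Pool.Agent.P.MP_e86632_nt (ee nn norm_ee ee_add ee_neg)
open Pool.Agent.P.MP_8be758_nt.Avg (gs gs_pos gs_anti gs_le_one gs_neg)

theorem p_Q0 (hGIa : S_GIa) :
    S_Q0 := by
  classical
  intro Z c Δ δ l T N H n1 n2 hP hN a1 a2 b1 b2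
  have d0 := hP.dpos
  have t1 := hP.t
  have u0 : 0 < √N := Real.sqrt_pos.2 (by linarith)
  have uu : √N ^ 2 = N := Real.sq_sqrt (by linarith)
  have xx : √(n1 : ℝ) ^ 2 = n1 := Real.sq_sqrt (by linarith)
  have yy : √(n2 : ℝ) ^ 2 = n2 := Real.sq_sqrt (by linarith)
  have rr : √((n1 : ℝ) + n2) ^ 2 = n1 + n2 := Real.sq_sqrt (by linarith)
  have r1 : √N ≤ √((n1 : ℝ) + n2) := Real.sqrt_le_sqrt (by linarith)
  have x0 := Real.sqrt_nonneg (n1 : ℝ)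
  have y0 := Real.sqrt_nonneg (n2 : ℝ)
  have r0 := u0.trans_le r1
  have x1 : √(n1 : ℝ) ≤ 3 / 2 * √N := abs_le_of_sq_le_sq' (by nlinarith) (by positivity) |>.2
  have y1 : √(n2 : ℝ) ≤ 3 / 2 * √N := abs_le_of_sq_le_sq' (by nlinarith) (by positivity) |>.2
  have r2 : √((n1 : ℝ) + n2) ≤ 2 * √N := abs_le_of_sq_le_sq' (by nlinarith) (by positivity) |>.2
  have r3 : √((n1 : ℝ) + n2) ≤ √(n1 : ℝ) + √(n2 : ℝ) :=
    abs_le_of_sq_le_sq' (by nlinarith [mul_nonneg x0 y0]) (by positivity) |>.2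
  have s0 : 0 < sw Δ n1 n2 := div_pos d0 r0
  have s1 : sw Δ n1 n2 ≤ Δ / √N := div_le_div_of_nonneg_left d0.le u0 r1
  have e1 : ∀ a ∈ Icc 1 H, ∀ b ∈ Icc 1 H,
      gs (sw Δ n1 n2 * ((a : ℕ) * √(n1 : ℝ) + (b : ℕ) * √(n2 : ℝ))) ≤ gs T := fun a ha b hb => by
    have p1 : (1 : ℝ) ≤ a := by exact_mod_cast (mem_Icc.1 ha).1
    have p2 : (1 : ℝ) ≤ b := by exact_mod_cast (mem_Icc.1 hb).1
    refine gs_le_of_le (by linarith) ?_
    rw [sw, div_mul_eq_mul_div, le_div_iff₀ r0]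
    exact mul_le_mul (by linarith [hP.td]) (by nlinarith) r0.le d0.le
  have e2 : ∀ a ∈ Icc 1 H, ∀ b ∈ Icc 1 H,
      gs (sw Δ n1 n2 * ((a : ℕ) * √(n1 : ℝ) - (b : ℕ) * √(n2 : ℝ))) ≤ gs T +
        if |(a : ℝ) ^ 2 * n1 - (b : ℝ) ^ 2 * n2| ≤ 6 * T * H * N / Δ then 1 else 0 :=
    fun a ha b hb => by
      have p1 : (a : ℝ) ≤ H := by exact_mod_cast (mem_Icc.1 ha).2
      have p2 : (b : ℝ) ≤ H := by exact_mod_cast (mem_Icc.1 hb).2
      have p3 : (0 : ℝ) ≤ a := Nat.cast_nonneg _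
      have p4 : (0 : ℝ) ≤ b := Nat.cast_nonneg _
      split_ifs with hc
      · linarith [gs_pos T, gs_le_one (sw Δ n1 n2 * ((a : ℕ) * √(n1 : ℝ) - (b : ℕ) * √(n2 : ℝ)))]
      rw [add_zero]
      refine gs_le_of_abs (by linarith) (not_lt.1 fun h => hc ?_)
      rw [abs_mul, abs_of_pos s0, sw, div_mul_eq_mul_div, div_lt_iff₀ r0] at h
      have e : (a : ℝ) ^ 2 * n1 - (b : ℝ) ^ 2 * n2 =
          (a * √(n1 : ℝ) - b * √(n2 : ℝ)) * (a * √(n1 : ℝ) + b * √(n2 : ℝ)) := by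
        linear_combination (b : ℝ) ^ 2 * yy - (a : ℝ) ^ 2 * xx
      have q1 : a * √(n1 : ℝ) + b * √(n2 : ℝ) ≤ 3 * H * √N := by
        linarith [mul_le_mul p1 x1 x0 (p3.trans p1), mul_le_mul p2 y1 y0 (p3.trans p1)]
      have q2 : Δ * |a * √(n1 : ℝ) - b * √(n2 : ℝ)| ≤ T * (2 * √N) :=
        h.le.trans (mul_le_mul_of_nonneg_left r2 (by linarith))
      rw [e, abs_mul, abs_of_nonneg (a := a * √(n1 : ℝ) + b * √(n2 : ℝ)) (by positivity),
        le_div_iff₀ d0]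
      calc _ = Δ * |a * √(n1 : ℝ) - b * √(n2 : ℝ)| * (a * √(n1 : ℝ) + b * √(n2 : ℝ)) := by ring
        _ ≤ T * (2 * √N) * (3 * H * √N) := mul_le_mul q2 q1 (by positivity) (by positivity)
        _ = _ := by linear_combination 6 * T * H * uu
  have e3 : ‖QS c Δ δ l H n1 n2 0‖ ≤ Δ / √N * ∑ h1 ∈ Hz H, ∑ h2 ∈ Hz H,
      gs (sw Δ n1 n2 * (h1 * √(n1 : ℝ) + h2 * √(n2 : ℝ))) := by
    rw [QS, mul_sum]
    refine (norm_sum_le _ _).trans (sum_le_sum fun h1 _ => ?_)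
    rw [mul_sum]
    refine (norm_sum_le _ _).trans (sum_le_sum fun h2 _ => ?_)
    have g1 := gs_pos (δ * h1)
    have g2 := gs_pos (δ * h2)
    rw [norm_mul, norm_mul, norm_ee, mul_one, Complex.norm_real, Real.norm_of_nonneg (by positivity),
      Int.cast_zero]
    exact (mul_le_of_le_one_left (norm_nonneg _)
      (mul_le_one₀ (gs_le_one _) g2.le (gs_le_one _))).trans ((hGIa.2 _ _ _ s0).trans
      (mul_le_mul_of_nonneg_right s1 (gs_pos _).le))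
  refine e3.trans (mul_le_mul_of_nonneg_left ?_ (by positivity))
  rw [sum_Hz]
  simp only [sum_Hz, ← sum_add_distrib]
  calc _ ≤ ∑ a ∈ Icc 1 H, ∑ b ∈ Icc 1 H, (2 * (if |(a : ℝ) ^ 2 * n1 - (b : ℝ) ^ 2 * n2| ≤
        6 * T * H * N / Δ then (1 : ℝ) else 0) + 4 * gs T) := by
        refine sum_le_sum fun a ha => sum_le_sum fun b hb => ?_
        have k1 := e1 a ha b hb
        have k2 := e2 a ha b hb
        have k3 := gs_neg (sw Δ n1 n2 * ((a : ℕ) * √(n1 : ℝ) + (b : ℕ) * √(n2 : ℝ)))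
        have k4 := gs_neg (sw Δ n1 n2 * ((a : ℕ) * √(n1 : ℝ) - (b : ℕ) * √(n2 : ℝ)))
        push_cast
        rw [show sw Δ n1 n2 * (a * √(n1 : ℝ) + -b * √(n2 : ℝ)) =
            sw Δ n1 n2 * (a * √(n1 : ℝ) - b * √(n2 : ℝ)) by ring,
          show sw Δ n1 n2 * (-a * √(n1 : ℝ) + b * √(n2 : ℝ)) =
            -(sw Δ n1 n2 * (a * √(n1 : ℝ) - b * √(n2 : ℝ))) by ring,
          show sw Δ n1 n2 * (-a * √(n1 : ℝ) + -b * √(n2 : ℝ)) =
            -(sw Δ n1 n2 * (a * √(n1 : ℝ) + b * √(n2 : ℝ))) by ring]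
        linarith
    _ = _ := by
        rw [← sum_product', sum_add_distrib, ← mul_sum, sum_boole, sum_const, card_product,
          Nat.card_Icc, Nat.add_sub_cancel, nsmul_eq_mul, DN]
        push_cast; ring

end Pool.Agent.P.MP_8be758_nt.Sq
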