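import Pool.Agent.P.MP_8be758_nt.Sq.IfaceA

/-! Step Q1. -/

set_option autoImplicit false
set_option linter.unusedSectionVars false

namespace Pool.Agent.P.MP_8be758_nt.Sq

open Finset Real Filter Topology
open Pool.Agent.P.MP_e86632_nt (ee nn norm_ee ee_add ee_neg)
open Pool.Agent.P.MP_8be758_nt.Avg (gs gs_pos gs_anti gs_le_one gs_neg)

theorem q1_sq {c Δ : ℝ} (hΔ : 0 < Δ) {n1 n2 m : ℕ} (h1 : 0 < n1) (h2 : 0 < n2) (hm : 0 < m) :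
    √(m : ℝ) * (bb c Δ (m * n1) * bb c Δ (m * n2)) =
      gs (c * (√(n1 : ℝ) - √(n2 : ℝ)) / (Δ * √((n1 : ℝ) + n2))) / (√(n1 : ℝ) * √(n2 : ℝ)) *
        (gs ((√(m : ℝ) - tw c n1 n2) / sw Δ n1 n2) / √(m : ℝ)) := by
  have p1 : (0 : ℝ) < n1 := by exact_mod_cast h1
  have p2 : (0 : ℝ) < n2 := by exact_mod_cast h2
  have p3 : (0 : ℝ) < m := by exact_mod_cast hm
  have e1 := Real.sq_sqrt p1.le
  have e2 := Real.sq_sqrt p2.le
  have e3 := Real.sq_sqrt (add_pos p1 p2).le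
  have q1 := Real.sqrt_pos.2 p1
  have q2 := Real.sqrt_pos.2 p2
  have q3 := Real.sqrt_pos.2 p3
  have q4 := Real.sqrt_pos.2 (add_pos p1 p2)
  simp only [bb, tw, sw, Nat.cast_mul, Real.sqrt_mul p3.le]
  generalize √((n1 : ℝ) + n2) = w at *
  generalize √(n1 : ℝ) = u at *
  generalize √(n2 : ℝ) = v at *
  generalize √(m : ℝ) = y at *
  have e : gs ((y * u - c) / Δ) * gs ((y * v - c) / Δ) =
      gs (c * (u - v) / (Δ * w)) * gs ((y - c * (u + v) / (n1 + n2)) / (Δ / w)) := by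
    unfold gs
    rw [← Real.exp_add, ← Real.exp_add, ← e3]
    congr 1
    have e4 : w ^ 2 = u ^ 2 + v ^ 2 := by rw [e3, e1, e2]
    field_simp
    rw [e4]
    ring
  rw [div_mul_div_comm, e]
  field_simp

theorem p_Q1 (hQ1a : S_Q1a) :
    S_Q1 := by
  obtain ⟨C, hC, HQ⟩ := hQ1a
  refine ⟨C, hC, fun Z c Δ δ l T N H M R0 n1 n2 pa hN a1 a2 a3 a4 a5 a6 a7 a8 a9 a10 a11 => ?_⟩
  have n1p : 0 < n1 := by exact_mod_cast (by linarith : (0 : ℝ) < n1)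
  have n2p : 0 < n2 := by exact_mod_cast (by linarith : (0 : ℝ) < n2)
  have N0 : 0 < N := by linarith
  have Z0 : 0 < Z := by linarith [pa.z]
  set ka := gs (c * (√(n1 : ℝ) - √(n2 : ℝ)) / (Δ * √((n1 : ℝ) + n2))) / (√(n1 : ℝ) * √(n2 : ℝ))
    with hka
  set g : ℕ → ℂ := fun m => ((gs ((√(m : ℝ) - tw c n1 n2) / sw Δ n1 n2) / √(m : ℝ) : ℝ) : ℂ)
    with hg
  set a : ℤ → ℤ → ℂ := fun h1 h2 => ((gs (δ * h1) * gs (δ * h2) : ℝ) : ℂ) * ee (-((h1 + h2) * l))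
    with ha
  set θ : ℤ → ℤ → ℝ := fun h1 h2 => h1 * √(n1 : ℝ) + h2 * √(n2 : ℝ) with hθ
  set er : ℤ → ℤ → ℂ := fun h1 h2 => ∑ m ∈ Icc 1 M, g m * ee (θ h1 h2 * √(m : ℝ)) -
    2 * ∑ μ ∈ Icc (-(R0 : ℤ)) R0, GI (tw c n1 n2) (sw Δ n1 n2) (θ h1 h2) μ with her
  have k0 : 0 ≤ ka := div_nonneg (gs_pos _).le (by positivity)
  have k1 : ka ≤ 1 / N := by
    refine div_le_div₀ zero_le_one (gs_le_one _) N0 ?_
    rw [← Real.mul_self_sqrt N0.le]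
    exact mul_le_mul (Real.sqrt_le_sqrt a3) (Real.sqrt_le_sqrt a5) (Real.sqrt_nonneg _)
      (Real.sqrt_nonneg _)
  have e1 : (CR (wr c Δ δ l H) M n1 n2 : ℂ) = ka * ∑ m ∈ Icc 1 M, ∑ h1 ∈ Hz H, ∑ h2 ∈ Hz H,
      a h1 h2 * (g m * ee (θ h1 h2 * √(m : ℝ))) := by
    rw [CR, Complex.ofReal_sum, mul_sum]
    refine sum_congr rfl fun m hm => ?_
    have e := congrArg (fun x : ℝ => (x : ℂ)) (q1_sq (c := c) pa.dpos n1p n2p (mem_Icc.1 hm).1)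
    simp only [Complex.ofReal_mul] at e
    rw [Complex.ofReal_mul, Complex.ofReal_mul, wr_cast, wr_cast, wc, wc, mul_mul_mul_comm,
      ← mul_assoc, e, sum_mul_sum, mul_assoc, mul_sum]
    refine congrArg _ (sum_congr rfl fun h1 _ => ?_)
    rw [mul_sum]
    refine sum_congr rfl fun h2 _ => ?_
    have e2 : ee (h1 * (√((m * n1 : ℕ) : ℝ) - l)) * ee (h2 * (√((m * n2 : ℕ) : ℝ) - l)) =
        ee (-((h1 + h2) * l)) * ee (θ h1 h2 * √(m : ℝ)) := by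
      rw [← ee_add, ← ee_add, Nat.cast_mul, Nat.cast_mul, Real.sqrt_mul (Nat.cast_nonneg m),
        Real.sqrt_mul (Nat.cast_nonneg m)]
      congr 1
      simp only [hθ]
      ring
    rw [mul_mul_mul_comm, e2]
    simp only [ha, hg, Complex.ofReal_mul]
    ring
  have e2 : ∑ m ∈ Icc 1 M, ∑ h1 ∈ Hz H, ∑ h2 ∈ Hz H, a h1 h2 * (g m * ee (θ h1 h2 * √(m : ℝ))) =
      2 * ∑ μ ∈ Icc (-(R0 : ℤ)) R0, QS c Δ δ l H n1 n2 μ +
        ∑ h1 ∈ Hz H, ∑ h2 ∈ Hz H, a h1 h2 * er h1 h2 := by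
    simp only [QS]
    rw [sum_comm, sum_comm (s := Icc (-(R0 : ℤ)) R0), mul_sum, ← sum_add_distrib]
    refine sum_congr rfl fun h1 _ => ?_
    rw [sum_comm, sum_comm (s := Icc (-(R0 : ℤ)) R0), mul_sum, ← sum_add_distrib]
    refine sum_congr rfl fun h2 _ => ?_
    rw [← mul_sum, ← mul_sum]
    simp only [her, ha, hθ]
    ring
  set B := C * (1 / Z ^ 6 + Z ^ 10 * gs (T / 2)) with hB
  have B0 : 0 ≤ B := by have := gs_pos (T / 2); positivity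
  have b1 : ∀ h1 ∈ Hz H, ∀ h2 ∈ Hz H, ‖a h1 h2 * er h1 h2‖ ≤ B := fun h1 m1 h2 m2 => by
    have c1 : |(h1 : ℝ)| ≤ H := by exact_mod_cast (mem_Hz.1 m1).2
    have c2 : |(h2 : ℝ)| ≤ H := by exact_mod_cast (mem_Hz.1 m2).2
    have c3 : ‖a h1 h2‖ ≤ 1 := by
      simp only [ha]
      rw [norm_mul, norm_ee, mul_one, Complex.norm_real,
        Real.norm_of_nonneg (mul_pos (gs_pos _) (gs_pos _)).le]
      exact mul_le_one₀ (gs_le_one _) (gs_pos _).le (gs_le_one _)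
    rw [norm_mul, ← one_mul B]
    refine mul_le_mul c3 (HQ Z c Δ T N (θ h1 h2) H M R0 n1 n2 pa hN a1 a2 a3 a4 a5 a6 a7 a8 a9 a10
      a11 ?_) (norm_nonneg _) zero_le_one
    refine (abs_add_le _ _).trans ?_
    rw [abs_mul, abs_mul, abs_of_nonneg (Real.sqrt_nonneg _), abs_of_nonneg (Real.sqrt_nonneg _),
      mul_add]
    exact add_le_add (mul_le_mul_of_nonneg_right c1 (Real.sqrt_nonneg _))
      (mul_le_mul_of_nonneg_right c2 (Real.sqrt_nonneg _))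
  have b2 : ‖∑ h1 ∈ Hz H, ∑ h2 ∈ Hz H, a h1 h2 * er h1 h2‖ ≤ Z * B := by
    refine (norm_sum_le_of_le _ fun h1 m1 => norm_sum_le_of_le _ (b1 h1 m1)).trans ?_
    simp only [sum_const, card_Hz, nsmul_eq_mul]
    push_cast
    have : (2 * (H : ℝ)) * (2 * H) ≤ Z := by nlinarith [pa.cz, Nat.cast_nonneg (α := ℝ) H]
    nlinarith
  have S0 : 0 ≤ ∑ μ ∈ Icc (-(R0 : ℤ)) R0, ‖QS c Δ δ l H n1 n2 μ‖ :=
    sum_nonneg fun _ _ => norm_nonneg _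
  rw [← Real.norm_eq_abs, ← Complex.norm_real, e1, e2, norm_mul, Complex.norm_real,
    Real.norm_of_nonneg k0]
  have b3 : ‖2 * ∑ μ ∈ Icc (-(R0 : ℤ)) R0, QS c Δ δ l H n1 n2 μ +
      ∑ h1 ∈ Hz H, ∑ h2 ∈ Hz H, a h1 h2 * er h1 h2‖ ≤
      2 * ∑ μ ∈ Icc (-(R0 : ℤ)) R0, ‖QS c Δ δ l H n1 n2 μ‖ + Z * B := by
    refine (norm_add_le _ _).trans (add_le_add ?_ b2)
    rw [norm_mul, Complex.norm_two]
    exact mul_le_mul_of_nonneg_left (norm_sum_le _ _) zero_le_two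
  have b4 : 1 / N * (Z * B) ≤ Z * B :=
    mul_le_of_le_one_left (by positivity) ((div_le_one N0).2 hN)
  have b5 : Z * B = C * (1 / Z ^ 5 + Z ^ 11 * gs (T / 2)) := by
    rw [hB]; field_simp
  calc _ ≤ 1 / N * (2 * ∑ μ ∈ Icc (-(R0 : ℤ)) R0, ‖QS c Δ δ l H n1 n2 μ‖ + Z * B) :=
        mul_le_mul k1 b3 (norm_nonneg _) (by positivity)
    _ = 2 / N * ∑ μ ∈ Icc (-(R0 : ℤ)) R0, ‖QS c Δ δ l H n1 n2 μ‖ + 1 / N * (Z * B) := by ring
    _ ≤ _ := by rw [← b5]; linarith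

end Pool.Agent.P.MP_8be758_nt.Sq
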