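import Pool.Agent.P.MP_8be758_nt.Sq.IfaceA

/-! Step Q2. -/

set_option autoImplicit false
set_option linter.unusedSectionVars false

namespace Pool.Agent.P.MP_8be758_nt.Sq

open Finset Real Filter Topology
open Pool.Agent.P.MP_e86632_nt (ee nn norm_ee ee_add ee_neg)
open Pool.Agent.P.MP_8be758_nt.Avg (gs gs_pos gs_anti gs_le_one gs_neg)

theorem q2_sg {μ : ℤ} (h : μ ≠ 0) :
    ((μ.sign : ℝ) = 1 ∨ (μ.sign : ℝ) = -1) ∧ ((4 * μ.natAbs : ℕ) : ℝ) = 4 * |(μ : ℝ)| ∧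
      |(μ : ℝ)| = μ.sign * μ := by
  refine ⟨?_, by push_cast; rw [Nat.cast_natAbs]; push_cast; rfl, ?_⟩
  · rcases lt_or_gt_of_ne h with h | h
    · right; rw [Int.sign_eq_neg_one_of_neg h]; simp
    · left; rw [Int.sign_eq_one_of_pos h]; simp
  · have := Int.sign_mul_self_eq_abs μ
    exact_mod_cast this.symm

theorem q2_gcd (n : ℕ) {μ : ℤ} (h : μ ≠ 0) :
    √(Int.gcd (2 * (μ.sign * n)) (4 * μ.natAbs : ℕ) : ℝ) ≤ 2 * √(Int.gcd n μ : ℝ) := by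
  have h1 : Int.gcd (2 * (μ.sign * n)) (4 * μ.natAbs : ℕ) ∣ Int.gcd (4 * n) (4 * μ) := by
    refine Int.dvd_gcd ((Int.gcd_dvd_left _ _).trans ⟨2 * μ.sign, ?_⟩)
      ((Int.gcd_dvd_right _ _).trans ?_)
    · have : μ.sign * μ.sign = 1 := by
        rcases lt_or_gt_of_ne h with h | h
        · rw [Int.sign_eq_neg_one_of_neg h]; norm_num
        · rw [Int.sign_eq_one_of_pos h]; norm_num
      linear_combination (-4 * (n : ℤ)) * this
    · push_cast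
      exact mul_dvd_mul_left 4 ((abs_dvd _ _).2 dvd_rfl)
  rw [Int.gcd_mul_left] at h1
  have h2 := Nat.le_of_dvd (Nat.mul_pos (by norm_num) (Int.gcd_pos_of_ne_zero_right _ h)) h1
  have h3 : (Int.gcd (2 * (μ.sign * n)) (4 * μ.natAbs : ℕ) : ℝ) ≤ 2 ^ 2 * (Int.gcd n μ : ℝ) := by
    have : (4 : ℤ).natAbs = 2 ^ 2 := rfl
    rw [this] at h2
    exact_mod_cast h2
  refine (Real.sqrt_le_sqrt h3).trans_eq ?_
  rw [Real.sqrt_mul (by norm_num), Real.sqrt_sq (by norm_num)]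

theorem p_Q2 (hGIb : S_GIb) (hGAW : S_GAW) (hBC0 : S_BC0) :
    S_Q2 := by
  classical
  refine ⟨48, by norm_num, fun c Δ δ l T ε H R0 n1 n2 μ hΔ hT h1 h2 hδ hH hR hε hμ => ?_⟩
  obtain ⟨hμ0, hμR⟩ := mem_Hz.1 hμ
  obtain ⟨hsg, hq, habs⟩ := q2_sg hμ0
  have hμr : (μ : ℝ) ≠ 0 := by exact_mod_cast hμ0
  have hR' : |(μ : ℝ)| ≤ R0 := by exact_mod_cast hμR
  have hμ1 : 1 ≤ |(μ : ℝ)| := by exact_mod_cast Int.one_le_abs hμ0
  have hs : 0 < sw Δ n1 n2 := by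
    have : (0 : ℝ) < n1 := by exact_mod_cast h1
    unfold sw; positivity
  obtain ⟨m, hm⟩ : ∃ m, m = √|(μ : ℝ)| := ⟨_, rfl⟩
  have hm1 : 1 ≤ m := hm ▸ Real.one_le_sqrt.2 hμ1
  have hm2 : |(μ : ℝ)| = m * m := by rw [hm, Real.mul_self_sqrt (abs_nonneg _)]
  obtain ⟨g, hg⟩ : ∃ g, g = √(Int.gcd n2 μ : ℝ) := ⟨_, rfl⟩
  have hg0 : 0 ≤ g := hg ▸ Real.sqrt_nonneg _
  have hG := gs_pos (T / 2)
  have hn2 : √(n2 : ℝ) * √(n2 : ℝ) = n2 := Real.mul_self_sqrt (by positivity)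
  have hsq : (μ.sign : ℝ) * μ.sign = 1 := by rcases hsg with h | h <;> rw [h] <;> norm_num
  have key : ∀ x : ℝ, ‖∑ p ∈ Hz H ×ˢ Hz H,
      (((gs (δ * p.1) * gs (δ * p.2) : ℝ) : ℂ) * ee (-((p.1 + p.2) * l))) *
        ee (-(tw c n1 n2 * x) + (p.1 * √(n1 : ℝ) + p.2 * √(n2 : ℝ) + x) ^ 2 / (4 * μ))‖ ≤
      2 * H * (1 + 24 * gs (T / 2) / δ) +
        (1 + 2 * BN H ε (2 * √((n1 : ℝ) * n2))) * (8 * g / (m * δ)) := fun x => by
    have hB := hBC0 H (2 * √((n1 : ℝ) * n2)) (4 * |(μ : ℝ)| * l - 2 * μ.sign * x * √(n2 : ℝ))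
      (ε / 2) μ.sign hsg
    rw [mul_div_cancel₀ _ (two_ne_zero' ℝ)] at hB
    rw [sum_product]
    refine (norm_sum_le _ _).trans ((sum_le_sum (g := fun h : ℤ => (1 + 24 * gs (T / 2) / δ) +
      if ∃ j : ℤ, |μ.sign * (h * (2 * √((n1 : ℝ) * n2))) -
        (4 * |(μ : ℝ)| * l - 2 * μ.sign * x * √(n2 : ℝ)) - j| ≤ ε / 2 then 8 * g / (m * δ) else 0)
      fun h _ => ?_).trans ?_)
    · have hW := hGAW (μ.sign * n2) (4 * μ.natAbs) H δ
        (-l + (h * √(n1 : ℝ) * √(n2 : ℝ) + x * √(n2 : ℝ)) / (2 * μ)) T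
        (by have := Int.natAbs_pos.2 hμ0; omega) hδ (by rw [hq]; nlinarith) hT hH
      have e : ∀ h' : ℤ, (((gs (δ * h) * gs (δ * h') : ℝ) : ℂ) * ee (-((h + h') * l))) *
          ee (-(tw c n1 n2 * x) + (h * √(n1 : ℝ) + h' * √(n2 : ℝ) + x) ^ 2 / (4 * μ)) =
          ((gs (δ * h) : ℂ) * ee (-(h * l) - tw c n1 n2 * x + (h * √(n1 : ℝ) + x) ^ 2 / (4 * μ))) *
          ((gs (δ * h') : ℂ) * ee (((μ.sign * n2 : ℤ) : ℝ) * (h' : ℝ) ^ 2 / (4 * μ.natAbs : ℕ) +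
            h' * (-l + (h * √(n1 : ℝ) * √(n2 : ℝ) + x * √(n2 : ℝ)) / (2 * μ)))) := fun h' => by
        have e1 : ((μ.sign * n2 : ℤ) : ℝ) * (h' : ℝ) ^ 2 / (4 * μ.natAbs : ℕ) =
            √(n2 : ℝ) * √(n2 : ℝ) * (h' : ℝ) ^ 2 / (4 * μ) := by
          have : (μ.sign : ℝ) ≠ 0 := by rcases hsg with h | h <;> rw [h] <;> norm_num
          rw [hq, habs, hn2]; push_cast; field_simp
        rw [e1, mul_assoc, ← ee_add, mul_mul_mul_comm, ← ee_add]
        push_cast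
        congr 2
        field_simp
        ring
      simp only [e]
      rw [← mul_sum, norm_mul, norm_mul, norm_ee, mul_one, Complex.norm_real,
        Real.norm_of_nonneg (gs_pos _).le]
      refine (mul_le_of_le_one_left (norm_nonneg _) (gs_le_one _)).trans (hW.trans ?_)
      have e2 : ((4 * μ.natAbs : ℕ) : ℝ) *
          (-l + (h * √(n1 : ℝ) * √(n2 : ℝ) + x * √(n2 : ℝ)) / (2 * μ)) =
          μ.sign * (h * (2 * √((n1 : ℝ) * n2))) -
            (4 * |(μ : ℝ)| * l - 2 * μ.sign * x * √(n2 : ℝ)) := by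
        rw [hq, habs, Real.sqrt_mul (by positivity)]; field_simp; ring
      rw [e2]
      have p0 : 0 ≤ 8 * g / (m * δ) := by positivity
      have e3 : 8 * √(Int.gcd (2 * (μ.sign * n2)) (4 * μ.natAbs : ℕ) : ℝ) /
          (√((4 * μ.natAbs : ℕ) : ℝ) * δ) ≤ 8 * g / (m * δ) := by
        have e4 : √((4 * μ.natAbs : ℕ) : ℝ) = 2 * m := by
          rw [hq, hm2, show 4 * (m * m) = (2 * m) ^ 2 by ring, Real.sqrt_sq (by positivity)]
        have e5 := q2_gcd n2 hμ0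
        rw [← hg] at e5
        rw [e4, div_le_div_iff₀ (by positivity) (by positivity)]
        have := mul_le_mul_of_nonneg_right e5 (by positivity : 0 ≤ 8 * (m * δ))
        linarith
      split_ifs with c1 c2
      · linarith
      · obtain ⟨j, hj⟩ := c1
        refine absurd ⟨j, hj.trans ?_⟩ c2
        have := mul_le_mul_of_nonneg_left hR' (by positivity : 0 ≤ 4 * T * δ)
        rw [hq]; linarith
      · linarith
      · linarith
    · rw [sum_add_distrib, sum_const, card_Hz, ← sum_filter, sum_const, nsmul_eq_mul, nsmul_eq_mul]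
      push_cast
      exact add_le_add le_rfl (mul_le_mul_of_nonneg_right hB (by positivity))
  have e0 : QS c Δ δ l H n1 n2 μ = k0 μ / ((√(2 * |(μ : ℝ)|) : ℝ) : ℂ) * ∑ p ∈ Hz H ×ˢ Hz H,
      (((gs (δ * p.1) * gs (δ * p.2) : ℝ) : ℂ) * ee (-((p.1 + p.2) * l))) * AV (sw Δ n1 n2)
        fun x => ee (-(tw c n1 n2 * x) +
          (p.1 * √(n1 : ℝ) + p.2 * √(n2 : ℝ) + x) ^ 2 / (4 * μ)) := by
    rw [QS, sum_product, mul_sum]
    refine sum_congr rfl fun h _ => ?_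
    rw [mul_sum]
    refine sum_congr rfl fun h' _ => ?_
    rw [hGIb _ _ _ _ hs hμr]; ring
  rw [e0, AV_comb hs _ _ _ fun p _ => by fun_prop, norm_mul, norm_div, norm_k0, Complex.norm_real,
    Real.norm_of_nonneg (Real.sqrt_nonneg _), ← hm, ← hg]
  have h3 : 1 / √(2 * |(μ : ℝ)|) ≤ 1 / m :=
    one_div_le_one_div_of_le (by positivity) (hm ▸ Real.sqrt_le_sqrt (by linarith))
  refine (mul_le_mul h3 (AV_le_sup hs key) (norm_nonneg _) (by positivity)).trans ?_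
  obtain ⟨b, hb⟩ : ∃ b : ℝ, b = BN H ε (2 * √((n1 : ℝ) * n2)) := ⟨_, rfl⟩
  have hb0 : 0 ≤ b := by rw [hb]; positivity
  rw [← hb, hm2]
  have h4 : 1 / m ≤ 1 := (div_le_one (by positivity)).2 hm1
  have p1 : 0 ≤ H * (1 / m) := by positivity
  have p2 : 0 ≤ H * (1 / δ) * gs (T / 2) := by positivity
  have p3 : 0 ≤ g / (m * m) * (1 / δ) := by positivity
  have p4 := mul_le_mul_of_nonneg_right h4 p2
  have p5 := mul_nonneg p3 hb0
  have e6 : 1 / m * (2 * H * (1 + 24 * gs (T / 2) / δ) + (1 + 2 * b) * (8 * g / (m * δ))) =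
      2 * (H * (1 / m)) + 48 * (1 / m * (H * (1 / δ) * gs (T / 2))) +
        8 * (g / (m * m) * (1 / δ)) + 16 * (g / (m * m) * (1 / δ) * b) := by
    field_simp; ring
  have e7 : g / (m * m) * ((1 + b) / δ) =
      g / (m * m) * (1 / δ) + g / (m * m) * (1 / δ) * b := by ring
  rw [e6, e7]
  linarith

end Pool.Agent.P.MP_8be758_nt.Sq
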