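import Pool.Agent.P.MP_8be758_nt.Sq.IfaceA

/-! Step Q3. -/

set_option autoImplicit false
set_option linter.unusedSectionVars false

namespace Pool.Agent.P.MP_8be758_nt.Sq

open Finset Real Filter Topology
open Pool.Agent.P.MP_e86632_nt (ee nn norm_ee ee_add ee_neg)
open Pool.Agent.P.MP_8be758_nt.Avg (gs gs_pos gs_anti gs_le_one gs_neg)

theorem q3_fin {n A B E V W C1 C2 x q s : ℝ} (n0 : 0 ≤ n) (n1 : n ≤ 1) (hA : 0 ≤ A) (hB : 0 ≤ B)
    (hE : 0 ≤ E) (hV : 0 ≤ V) (hW : V ≤ W) (c1 : 0 < C1) (c2 : 0 < C2)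
    (hx : x ≤ 2 * n * (q + s) + C1 * W) (hq : q ≤ 2 * A + V)
    (hs : s ≤ C2 * (4 * B + 2 * E + 2 * V)) :
    x ≤ (4 + 8 * C2 + C1) * (n * (A + B + E) + W) := by
  have h1 : n * (q + s) ≤ n * (2 * A + V + C2 * (4 * B + 2 * E + 2 * V)) :=
    mul_le_mul_of_nonneg_left (add_le_add hq hs) n0
  have h2 : n * V ≤ W := (mul_le_of_le_one_left hV n1).trans hW
  have h3 := mul_le_mul_of_nonneg_left h2 c2.le
  have a := mul_nonneg n0 hA
  have b := mul_nonneg n0 hB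
  have e := mul_nonneg n0 hE
  have w : 0 ≤ W := hV.trans hW
  nlinarith [mul_nonneg c1.le a, mul_nonneg c1.le b, mul_nonneg c1.le e, mul_nonneg c2.le a,
    mul_nonneg c2.le b, mul_nonneg c2.le e, mul_nonneg c2.le w]

theorem p_Q3 (hQ0 : S_Q0) (hQ1 : S_Q1) (hQ2 : S_Q2) (hGC : S_GC) :
    S_Q3 := by
  obtain ⟨C1, c1, hQ1⟩ := hQ1
  obtain ⟨C2, c2, hQ2⟩ := hQ2
  refine ⟨4 + 8 * C2 + C1, by positivity, ?_⟩
  intro Z τ c Δ δ l T N ε H M R0 n1 n2 hP hS hN h1 h2 h3 h4 h5 h6 h7 h8 h9 h10 h11 hδ h12 h13 h14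
    h15
  have hx := hQ1 Z c Δ δ l T N H M R0 n1 n2 hP hN h1 h2 h3 h4 h5 h6 h7 h8 h9 h10 h11
  have hq := hQ0 Z c Δ δ l T N H n1 n2 hP hN h3 h4 h5 h6
  have p1 : 1 ≤ n1 := by exact_mod_cast hN.trans h3
  have p2 : 1 ≤ n2 := by exact_mod_cast hN.trans h5
  have hz := hP.z
  have hcz := hP.cz
  have hcZ := hP.cZ
  have hc9 := hP.c9
  have hd := hP.dpos
  have hdc := hP.dc
  have hg := gs_pos (T / 2)
  have hH : (0 : ℝ) ≤ H := Nat.cast_nonneg _
  obtain ⟨g1, g2⟩ := hGC Z τ n2 R0 hS p2 (by linarith) h11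
  have e : Icc (-(R0 : ℤ)) R0 = insert 0 (Hz R0) := (insert_erase (by simp)).symm
  rw [e, sum_insert (by simp [mem_Hz]), ← mul_one_div] at hx
  set D : ℝ := (1 + BN H ε (2 * √((n1 : ℝ) * n2))) / δ with hD
  have D0 : 0 ≤ D := by positivity
  refine q3_fin (V := Z ^ 11 * gs (T / 2)) (by positivity) ((div_le_one (by linarith)).2 hN)
    (by positivity) (by positivity) (by positivity) (by positivity)
    (le_add_of_nonneg_left (by positivity)) c1 c2 hx (hq.trans ?_) ?_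
  · have a1 : Δ / √N ≤ Z :=
      (div_le_self hd.le (Real.one_le_sqrt.2 hN)).trans (by linarith)
    have a2 : 4 * (H : ℝ) ^ 2 ≤ Z := by nlinarith
    have a3 : gs T ≤ gs (T / 2) := gs_le_of_le (by linarith [hP.t]) (by linarith [hP.t])
    have a4 : Δ / √N * (4 * (H : ℝ) ^ 2 * gs T) ≤ Z * (Z * gs (T / 2)) :=
      mul_le_mul a1 (mul_le_mul a2 a3 (gs_pos _).le (by linarith))
        (by have := gs_pos T; positivity) (by linarith)
    have a5 : Z ^ 2 * gs (T / 2) ≤ Z ^ 11 * gs (T / 2) :=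
      mul_le_mul_of_nonneg_right (hS.pow (by norm_num)) hg.le
    linarith
  · refine (sum_le_sum fun μ hμ =>
      hQ2 c Δ δ l T ε H R0 n1 n2 μ hd hP.t p1 p2 hδ h13 h14 h15 hμ).trans ?_
    rw [← mul_sum, sum_add_distrib, sum_add_distrib, ← mul_sum, ← sum_mul, sum_const, card_Hz,
      nsmul_eq_mul]
    refine mul_le_mul_of_nonneg_left ?_ c2.le
    have b1 := mul_le_mul_of_nonneg_left g2 hH
    have b2 := mul_le_mul_of_nonneg_right g1 D0
    have b3 : (R0 : ℝ) * (H * (1 / δ)) ≤ Z * (Z * Z) :=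
      mul_le_mul h11 (mul_le_mul (by linarith) h12 (by positivity) (by linarith))
        (by positivity) (by linarith)
    have b4 : Z * (Z * Z) ≤ Z ^ 11 := (by ring : Z * (Z * Z) = Z ^ 3).trans_le
      (hS.pow (by norm_num))
    have b5 := mul_le_mul_of_nonneg_right (b3.trans b4) hg.le
    push_cast
    linarith

end Pool.Agent.P.MP_8be758_nt.Sq
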