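import Pool.Agent.P.MP_8be758_nt.Sq.IfaceA

/-! Step RT. -/

set_option autoImplicit false
set_option linter.unusedSectionVars false

namespace Pool.Agent.P.MP_8be758_nt.Sq

open Finset Real Filter Topology
open Pool.Agent.P.MP_e86632_nt (ee nn norm_ee ee_add ee_neg)
open Pool.Agent.P.MP_8be758_nt.Avg (gs gs_pos gs_anti gs_le_one gs_neg)

theorem rt_fib {q d e : ℕ} {u r t0 : ℤ} {a M : ℝ} (hq : 0 < q) (hde : q = d * e) (hM : 0 ≤ M)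
    (h0 : (q : ℤ) ∣ u * t0 ^ 2 - r) (S : Finset ℤ)
    (hS : ∀ t ∈ S, a ≤ t ∧ (t : ℝ) ≤ a + M ∧ (d : ℤ) ∣ t - t0 ∧ (e : ℤ) ∣ t + t0) :
    (S.card : ℝ) ≤
      ∑ g ∈ (Icc 1 q).filter (fun g : ℕ => g ^ 2 ∣ q ∧ (g : ℤ) ^ 2 ∣ 4 * r), (M * g / q + 1) := by
  have hnn : ∀ g ∈ (Icc 1 q).filter (fun g : ℕ => g ^ 2 ∣ q ∧ (g : ℤ) ^ 2 ∣ 4 * r),
      0 ≤ M * g / q + 1 := fun g _ => by positivity
  rcases S.eq_empty_or_nonempty with rfl | ⟨t1, h1⟩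
  · simpa using sum_nonneg hnn
  have hd : 0 < d := Nat.pos_of_mul_pos_right (hde ▸ hq)
  have he : 0 < e := Nat.pos_of_mul_pos_left (hde ▸ hq)
  have hg : 0 < Nat.gcd d e := Nat.gcd_pos_of_pos_left _ hd
  have hL : 0 < Nat.lcm d e := Nat.lcm_pos hd he
  have hgl : Nat.gcd d e * Nat.lcm d e = q := by rw [Nat.gcd_mul_lcm, hde]
  have g1 : Nat.gcd d e ^ 2 ∣ q := by
    rw [hde, pow_two]; exact Nat.mul_dvd_mul (Nat.gcd_dvd_left d e) (Nat.gcd_dvd_right d e)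
  have g2 : ((Nat.gcd d e : ℕ) : ℤ) ∣ 2 * t0 := by
    have a1 := (Int.natCast_dvd_natCast.2 (Nat.gcd_dvd_left d e)).trans (hS t1 h1).2.2.1
    have a2 := (Int.natCast_dvd_natCast.2 (Nat.gcd_dvd_right d e)).trans (hS t1 h1).2.2.2
    have := dvd_sub a2 a1
    rwa [show t1 + t0 - (t1 - t0) = 2 * t0 by ring] at this
  have g3 : ((Nat.gcd d e : ℕ) : ℤ) ^ 2 ∣ 4 * r := by
    have a1 : ((Nat.gcd d e : ℕ) : ℤ) ^ 2 ∣ u * t0 ^ 2 - r :=
      dvd_trans (by exact_mod_cast g1) h0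
    have := dvd_sub ((pow_dvd_pow_of_dvd g2 2).mul_left u) (a1.mul_left 4)
    rwa [show u * (2 * t0) ^ 2 - 4 * (u * t0 ^ 2 - r) = 4 * r by ring] at this
  have h2 := card_class_le hL t1 hM S fun t ht => ⟨(hS t ht).1, (hS t ht).2.1, by
    have a1 := dvd_sub (hS t ht).2.2.1 (hS t1 h1).2.2.1
    have a2 := dvd_sub (hS t ht).2.2.2 (hS t1 h1).2.2.2
    rw [show t - t0 - (t1 - t0) = t - t1 by ring] at a1
    rw [show t + t0 - (t1 + t0) = t - t1 by ring] at a2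
    rw [Int.natCast_dvd] at a1 a2 ⊢
    exact Nat.lcm_dvd a1 a2⟩
  refine h2.trans (le_trans (le_of_eq ?_) (single_le_sum hnn (a := Nat.gcd d e)
    (mem_filter.2 ⟨mem_Icc.2 ⟨hg, Nat.le_of_dvd hq (dvd_trans (dvd_pow_self _ two_ne_zero) g1)⟩,
      g1, g3⟩)))
  have e1 : (q : ℝ) = (Nat.gcd d e : ℝ) * (Nat.lcm d e : ℝ) := by exact_mod_cast hgl.symm
  have e2 : (0 : ℝ) < Nat.gcd d e := by exact_mod_cast hg
  have e3 : (0 : ℝ) < Nat.lcm d e := by exact_mod_cast hL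
  rw [e1]
  field_simp

theorem p_RT :
    S_RT := by
  intro q u r a M S hq hu hM hS
  rcases S.eq_empty_or_nonempty with rfl | ⟨t0, h0⟩
  · simp only [card_empty, Nat.cast_zero]
    exact mul_nonneg (Nat.cast_nonneg _) (sum_nonneg fun g _ => by positivity)
  have hm : ∀ t ∈ S, Int.gcd (t - t0) q ∈ q.divisors := fun t _ =>
    Nat.mem_divisors.2 ⟨Int.natCast_dvd_natCast.1 (Int.gcd_dvd_right _ _), hq.ne'⟩
  rw [card_eq_sum_card_fiberwise hm, Nat.cast_sum, ← nsmul_eq_mul]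
  refine sum_le_card_nsmul _ _ _ fun d hd => ?_
  obtain ⟨e, he⟩ := (Nat.mem_divisors.1 hd).1
  refine rt_fib (a := a) hq he hM (hS t0 h0).2.2 _ fun t ht => ?_
  obtain ⟨h1, h2⟩ := mem_filter.1 ht
  refine ⟨(hS t h1).1, (hS t h1).2.1, h2 ▸ Int.gcd_dvd_left _ _, ?_⟩
  have a1 : (q : ℤ) ∣ (t - t0) * (t + t0) := by
    refine hu.symm.dvd_of_dvd_mul_left ?_
    have := dvd_sub (hS t h1).2.2 (hS t0 h0).2.2
    rwa [show u * t ^ 2 - r - (u * t0 ^ 2 - r) = u * ((t - t0) * (t + t0)) by ring] at this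
  have a2 : (q : ℤ) ∣ d * (t + t0) := by
    rw [← h2, Int.gcd_eq_gcd_ab, add_mul, mul_right_comm, mul_assoc (q : ℤ)]
    exact dvd_add (a1.mul_right _) (dvd_mul_right _ _)
  have hd0 : (d : ℤ) ≠ 0 := by exact_mod_cast (Nat.pos_of_mem_divisors hd).ne'
  rw [he, Nat.cast_mul] at a2
  exact (mul_dvd_mul_iff_left hd0).1 a2

end Pool.Agent.P.MP_8be758_nt.Sq
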