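import Pool.Agent.P.MP_8be758_nt.Sq.IfaceA

/-! Step T1B. -/

set_option autoImplicit false
set_option linter.unusedSectionVars false

namespace Pool.Agent.P.MP_8be758_nt.Sq

open Finset Real Filter Topology
open Pool.Agent.P.MP_e86632_nt (ee nn norm_ee ee_add ee_neg)
open Pool.Agent.P.MP_8be758_nt.Avg (gs gs_pos gs_anti gs_le_one gs_neg)

theorem t1b_cs {D : ℝ} {S : Finset ℕ} (hD : 1 ≤ D) (hS : In S D (2 * D)) {α : ℕ → ℂ}
    (hα : ∀ d, ‖α d‖ ≤ 1) (F : ℕ → ℂ) :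
    ‖∑ d ∈ S, α d / ((√(d : ℝ) : ℝ) : ℂ) * F d‖ ^ 2 ≤ 2 * ∑ d ∈ S, ‖F d‖ ^ 2 := by
  have D0 : 0 < D := by linarith
  have h1 : ‖∑ d ∈ S, α d / ((√(d : ℝ) : ℝ) : ℂ) * F d‖ ≤ ∑ d ∈ S, 1 / √(d : ℝ) * ‖F d‖ :=
    (norm_sum_le _ _).trans (sum_le_sum fun d _ => by
      rw [norm_mul, norm_div, Complex.norm_real, Real.norm_of_nonneg (Real.sqrt_nonneg _)]
      exact mul_le_mul_of_nonneg_right
        (div_le_div_of_nonneg_right (hα d) (Real.sqrt_nonneg _)) (norm_nonneg _))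
  have h2 : ∑ d ∈ S, (1 / √(d : ℝ)) ^ 2 ≤ 2 := by
    have h3 : ∑ d ∈ S, (1 / √(d : ℝ)) ^ 2 ≤ ∑ _d ∈ S, 1 / D := sum_le_sum fun d hd => by
      rw [div_pow, one_pow, Real.sq_sqrt (Nat.cast_nonneg d)]
      exact one_div_le_one_div_of_le D0 (hS d hd).1
    rw [sum_const, nsmul_eq_mul, mul_one_div] at h3
    exact h3.trans ((div_le_iff₀ D0).2 (hS.card_le D0 (by linarith)))
  refine (pow_le_pow_left₀ (norm_nonneg _) h1 2).trans ((sum_mul_sq_le_sq_mul_sq _ _ _).trans ?_)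
  exact mul_le_mul_of_nonneg_right h2 (sum_nonneg fun _ _ => by positivity)

theorem t1b_th {H1 V0 ξ x h ν : ℝ} (hH : 1 ≤ H1) (hV : 0 < V0) (hx : |x| ≤ ξ) (hξ : ξ ≤ 1)
    (h0 : H1 ≤ h) (h1 : h ≤ 2 * H1) (h2 : V0 ≤ ν) :
    |(h + x) ^ 2 / (4 * ν) - h ^ 2 / (4 * ν)| ≤ 5 * H1 * ξ / (4 * V0) := by
  have n0 : 0 < ν := by linarith
  have x0 : 0 ≤ ξ := (abs_nonneg _).trans hx
  have e : (h + x) ^ 2 / (4 * ν) - h ^ 2 / (4 * ν) = (2 * h + x) * x / (4 * ν) := by ring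
  have h3 : |2 * h + x| ≤ 5 * H1 := by
    have := abs_le.1 hx
    rw [abs_le]; constructor <;> linarith [this.1, this.2]
  rw [e, abs_div, abs_mul, abs_of_pos (by positivity : 0 < 4 * ν)]
  exact div_le_div₀ (by positivity) (mul_le_mul h3 hx (abs_nonneg _) (by positivity))
    (by positivity) (by linarith)

theorem p_T1B (hLSG : S_LSG) (hPR : S_PR) :
    S_T1B := by
  classical
  obtain ⟨C1, c1, hL⟩ := hLSG
  obtain ⟨C2, c2, hP⟩ := hPR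
  refine ⟨12 * C1 * (C2 + 1), by positivity, ?_⟩
  intro Z τ c T G D H1 ξ x S Hs α ch hZ hc hcZ hT hD hH hHc hDZ hx hξ hG hG2 hS hHs hα hch
  have c0 : 0 < c := by linarith
  have D0 : 0 < D := by linarith
  have H0 : 0 < H1 := by linarith
  have x0 : 0 ≤ ξ := (abs_nonneg _).trans hx
  have xc : 0 ≤ ξ * c := by positivity
  have G0 : 0 < G := by linarith
  have t1 := hZ.t1
  have Z0 : 0 < Z := by linarith
  have hV := VR_in c0 D0.le H0.le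
  obtain ⟨V0, eV⟩ : ∃ V0, V0 = H1 * D / (3 * c) := ⟨_, rfl⟩
  rw [← eV] at hV
  have V1 : 0 < V0 := by rw [eV]; positivity
  have V2 : 24 * V0 ≤ Z := by
    have : V0 ≤ D / 6 := by
      rw [eV, div_le_div_iff₀ (by positivity) (by norm_num)]; nlinarith
    linarith
  have h1 := hP Z τ H1 V0 (G / D) Hs (VR c D H1) hZ hH (by linarith) V1 V2 (by positivity)
    (by rw [eV, show 2304 * (H1 * D / (3 * c)) * (G / D) = 768 * H1 * G / c by field_simp; ring,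
      div_lt_one c0]; exact hG2) hHs hV
  have h2 := hL (ℕ × ℕ) (Hs ×ˢ VR c D H1) (fun i => ch i.1 / ((√(i.2 : ℝ) : ℝ) : ℂ))
    (fun i => ((i.1 : ℝ) + x) ^ 2 / (4 * i.2)) (2 * D) T (1 / √V0) S (by linarith) hT
    (fun d hd => (hS d hd).2) fun i hi => by
      rw [norm_div, Complex.norm_real, Real.norm_of_nonneg (Real.sqrt_nonneg _)]
      exact div_le_div₀ (by norm_num) (hch _) (Real.sqrt_pos.2 V1)
        (Real.sqrt_le_sqrt (hV _ (mem_product.1 hi).2).1)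
  have e5 : 5 * H1 * ξ / (4 * V0) = 15 * (ξ * c) / 4 / D := by rw [eV]; field_simp; ring
  have h3 := h2.trans (mul_le_mul_of_nonneg_left (add_le_add
    (le_trans (Nat.cast_le.2 (card_le_card (t := PQ Hs (VR c D H1) (G / D)) fun p hp => ?_)) h1)
    (mul_le_mul_of_nonneg_right (?_ : _ ≤ Z ^ 4) (gs_pos _).le)) (by positivity))
  rotate_left
  · obtain ⟨h4, j, hj⟩ := mem_filter.1 hp
    obtain ⟨h5, h6⟩ := mem_product.1 h4
    obtain ⟨h7, h8⟩ := mem_product.1 h5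
    obtain ⟨h9, h10⟩ := mem_product.1 h6
    have a1 := abs_le.1 (t1b_th hH V1 hx hξ (hHs _ h7).1 (hHs _ h7).2 (hV _ h8).1)
    have a2 := abs_le.1 (t1b_th hH V1 hx hξ (hHs _ h9).1 (hHs _ h9).2 (hV _ h10).1)
    have a3 := abs_le.1 hj
    have a4 : T / (2 * D) + 2 * (15 * (ξ * c) / 4 / D) ≤ G / D := by
      rw [show T / (2 * D) + 2 * (15 * (ξ * c) / 4 / D) = (T / 2 + 15 * (ξ * c) / 2) / D by
        field_simp; ring]
      exact div_le_div_of_nonneg_right (by linarith) D0.le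
    rw [e5] at a1 a2
    unfold PQ
    refine mem_filter.2 ⟨h4, j, abs_le.2 ⟨?_, ?_⟩⟩ <;> linarith [a1.1, a1.2, a2.1, a2.2, a3.1, a3.2]
  · rw [card_product, Nat.cast_mul, show Z ^ 4 = (Z * Z) ^ 2 by ring]
    refine pow_le_pow_left₀ (by positivity) (mul_le_mul ((hHs.card_le H0 (by linarith)).trans
      (by linarith)) ((hV.card_le V1 (by linarith)).trans V2) (by positivity) Z0.le) 2
  have e1 : ∀ d : ℕ, EF Hs (VR c D H1) ch x d = ∑ i ∈ Hs ×ˢ VR c D H1,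
      ch i.1 / ((√(i.2 : ℝ) : ℝ) : ℂ) * ee (d * (((i.1 : ℝ) + x) ^ 2 / (4 * i.2))) := fun d => by
    rw [EF, sum_product]
  refine (t1b_cs hD hS hα _).trans ?_
  simp only [e1]
  have g0 := gs_pos (T / 2)
  have e2 : C1 * (2 * D) * (1 / √V0) ^ 2 *
      (C2 * τ ^ 3 * (H1 ^ 2 + H1 * V0 + H1 * V0 ^ 2 * (G / D) * (V0 + H1)) + Z ^ 4 * gs (T / 2)) =
      6 * C1 * (C2 * (τ ^ 3 * (H1 * D / 3 + c * H1 + G * H1 ^ 3 * D ^ 2 / c ^ 2 / 27 +
        G * H1 ^ 3 * D / c / 9)) + c / H1 * (Z ^ 4 * gs (T / 2))) := by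
    rw [div_pow, Real.sq_sqrt V1.le, eV]; field_simp; ring
  rw [e2] at h3
  have b1 : c / H1 * (Z ^ 4 * gs (T / 2)) ≤ Z ^ 5 * gs (T / 2) := by
    have : c / H1 ≤ Z := (div_le_self c0.le hH).trans hcZ
    calc _ ≤ Z * (Z ^ 4 * gs (T / 2)) := by gcongr
      _ = _ := by ring
  have p1 : 0 ≤ H1 * D := by positivity
  have p2 : 0 ≤ G * H1 ^ 3 * D ^ 2 / c ^ 2 := by positivity
  have p3 : 0 ≤ G * H1 ^ 3 * D / c := by positivity
  have b2 : τ ^ 3 * (H1 * D / 3 + c * H1 + G * H1 ^ 3 * D ^ 2 / c ^ 2 / 27 +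
      G * H1 ^ 3 * D / c / 9) ≤
      τ ^ 3 * (H1 * D + c * H1 + G * H1 ^ 3 * D ^ 2 / c ^ 2 + G * H1 ^ 3 * D / c) :=
    mul_le_mul_of_nonneg_left (by linarith) (by positivity)
  have p4 : 0 ≤ τ ^ 3 * (H1 * D + c * H1 + G * H1 ^ 3 * D ^ 2 / c ^ 2 + G * H1 ^ 3 * D / c) := by
    positivity
  have p5 : 0 ≤ Z ^ 5 * gs (T / 2) := by positivity
  generalize τ ^ 3 * (H1 * D + c * H1 + G * H1 ^ 3 * D ^ 2 / c ^ 2 + G * H1 ^ 3 * D / c) = u at *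
  generalize Z ^ 5 * gs (T / 2) = w at *
  have b3 := mul_le_mul_of_nonneg_left (add_le_add (mul_le_mul_of_nonneg_left b2 c2.le) b1)
    (by positivity : 0 ≤ 6 * C1)
  nlinarith [mul_nonneg c1.le p4, mul_nonneg (mul_nonneg c1.le c2.le) p5]

end Pool.Agent.P.MP_8be758_nt.Sq
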