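import Pool.Agent.P.MP_8be758_nt.Sq.IfaceA

/-! Step T1C. -/

set_option autoImplicit false
set_option linter.unusedSectionVars false

namespace Pool.Agent.P.MP_8be758_nt.Sq

open Finset Real Filter Topology
open Pool.Agent.P.MP_e86632_nt (ee nn norm_ee ee_add ee_neg)
open Pool.Agent.P.MP_8be758_nt.Avg (gs gs_pos gs_anti gs_le_one gs_neg)

theorem t1c_num {C τ E Z g N A : ℝ} (hC : 0 < C) (hτ : 1 ≤ τ) (hE : 0 ≤ E) (hZ : 1 ≤ Z)
    (hg : 0 ≤ g) {g' : ℝ} (hg' : √g ≤ g') (hN : Z ^ 3 * g' ≤ N)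
    (h : A ^ 2 ≤ C * (τ ^ 3 * E + Z ^ 5 * g)) : A ≤ √C * (τ ^ 2 * (√E + N)) := by
  have h0 : 0 ≤ g' := (Real.sqrt_nonneg _).trans hg'
  have hN0 : 0 ≤ N := le_trans (by positivity) hN
  refine (abs_le_of_sq_le_sq' ?_ (by positivity)).2
  refine h.trans ?_
  rw [mul_pow, Real.sq_sqrt hC.le]
  refine mul_le_mul_of_nonneg_left ?_ hC.le
  have h1 : g ≤ g' ^ 2 := by
    rw [← Real.sq_sqrt hg]
    exact pow_le_pow_left₀ (Real.sqrt_nonneg _) hg' 2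
  have h2 : Z ^ 5 * g ≤ N ^ 2 :=
    calc Z ^ 5 * g ≤ Z ^ 6 * g' ^ 2 :=
          mul_le_mul (pow_le_pow_right₀ hZ (by norm_num)) h1 hg (by positivity)
      _ = (Z ^ 3 * g') ^ 2 := by ring
      _ ≤ N ^ 2 := pow_le_pow_left₀ (by positivity) hN 2
  have h3 : τ ^ 3 ≤ τ ^ 4 := pow_le_pow_right₀ hτ (by norm_num)
  have h4 : (1 : ℝ) ≤ τ ^ 4 := one_le_pow₀ hτ
  have h5 := Real.sq_sqrt hE
  have h6 : 0 ≤ τ ^ 4 * (√E * N) := by positivity
  calc τ ^ 3 * E + Z ^ 5 * g ≤ τ ^ 4 * E + τ ^ 4 * N ^ 2 :=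
        add_le_add (mul_le_mul_of_nonneg_right h3 hE)
          (h2.trans (le_mul_of_one_le_left (by positivity) h4))
    _ ≤ τ ^ 4 * √E ^ 2 + τ ^ 4 * N ^ 2 + 2 * (τ ^ 4 * (√E * N)) := by rw [h5]; linarith
    _ = _ := by ring

theorem p_T1C (hPF : S_PF) (hT1B : S_T1B) :
    S_T1C := by
  obtain ⟨C1, hC1, h1⟩ := hPF
  obtain ⟨C2, hC2, h2⟩ := hT1B
  refine ⟨2 * √C2 + C1, by positivity, ?_⟩
  intro Z τ c Δ T G D H1 n1 S Hs α ch hPa hSz hD hDc hH hG hGc hS hHs hα hch hn1 hn2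
  have hc := hPa.cpos
  have hT := hPa.t
  have hΔ := hPa.dpos
  have hZ := hPa.z
  have hτ := hSz.t1
  have hG1 : 1 ≤ G := by
    have : 0 ≤ 9 * (T / Δ) * c := by positivity
    linarith
  have hHc : 2 * H1 ≤ c := by nlinarith
  have hDZ : 4 * D ≤ Z := hDc.trans hPa.cz
  have hN := ngl_pos (show 0 < Z by linarith) T
  set E := H1 * D + c * H1 + G * H1 ^ 3 * D ^ 2 / c ^ 2 + G * H1 ^ 3 * D / c with hE
  have hE0 : 0 ≤ E := by positivity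
  have hcard : (S.card : ℝ) ≤ Z ^ 2 := by
    have := hS.card_le (by linarith) (by linarith)
    nlinarith
  have hN3 : Z ^ 3 * gs (T / 4) ≤ ngl Z T := by
    have a1 : Z ^ 3 * gs (T / 4) ≤ Z ^ 20 * gs (T / 4) :=
      mul_le_mul_of_nonneg_right (hSz.pow (by norm_num)) (gs_pos _).le
    have a2 : 0 ≤ 1 / Z := by positivity
    unfold ngl; linarith
  have h := h1 Z c Δ T D H1 (√C2 * (τ ^ 2 * (√E + ngl Z T))) n1 ℕ S (fun d => d) α Hs ch hPa hD hDc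
    (fun s hs => ⟨(hS s hs).1, by linarith [(hS s hs).2], hα s⟩) hcard hH hHc hHs hch hn1 hn2
    fun x hx => t1c_num hC2 hτ hE0 (by linarith) (gs_pos _).le (sqrt_gs_half T) hN3
      (h2 Z τ c T G D H1 (T / Δ) x S Hs α ch hSz (by linarith [hPa.c9]) hPa.cZ hT hD hH hHc hDZ hx
        hPa.xi hG hGc hS hHs hα hch)
  refine h.trans ?_
  have h7 : ngl Z T ≤ τ ^ 2 * (√E + ngl Z T) :=
    le_trans (le_add_of_nonneg_left (Real.sqrt_nonneg _))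
      (le_mul_of_one_le_left (by positivity) (one_le_pow₀ hτ))
  have h8 := mul_le_mul_of_nonneg_left h7 hC1.le
  nlinarith

end Pool.Agent.P.MP_8be758_nt.Sq
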