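import Pool.Agent.P.MP_8be758_nt.Sq.IfaceA

/-! Step T2B. -/

set_option autoImplicit false
set_option linter.unusedSectionVars false

namespace Pool.Agent.P.MP_8be758_nt.Sq

open Finset Real Filter Topology
open Pool.Agent.P.MP_e86632_nt (ee nn norm_ee ee_add ee_neg)
open Pool.Agent.P.MP_8be758_nt.Avg (gs gs_pos gs_anti gs_le_one gs_neg)

theorem t2b_swap (I Hs Vs : Finset ℕ) (r : ℕ) (a : ℂ) (ch : ℕ → ℂ) (x : ℝ) :
    ∑ v ∈ I, a / ((√((r * v : ℕ) : ℝ) : ℝ) : ℂ) * EF Hs Vs ch x (r * v) =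
      ∑ h ∈ Hs, ∑ ν ∈ Vs, a * ch h * ((1 / (√(r : ℝ) * √(ν : ℝ)) : ℝ) : ℂ) *
        ∑ v ∈ I, ((1 / √(v : ℝ) : ℝ) : ℂ) * ee (v * (r * ((h + x) ^ 2 / (4 * ν)))) := by
  simp only [EF, mul_sum]
  rw [sum_comm]
  refine sum_congr rfl fun h _ => ?_
  rw [sum_comm]
  refine sum_congr rfl fun ν _ => sum_congr rfl fun v _ => ?_
  rw [Nat.cast_mul, Real.sqrt_mul (Nat.cast_nonneg r), mul_comm (r : ℝ) v, mul_assoc (v : ℝ)]
  push_cast
  ring

theorem t2b_close {c G R V H1 ξ x r h ν : ℝ} (hc : 1 ≤ c) (hR : 1 ≤ R) (hV : 1 ≤ V) (hH : 1 ≤ H1)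
    (hx : |x| ≤ ξ) (h1 : ξ ≤ 1) (hG : 9 * ξ * c ≤ G) (r0 : 0 ≤ r) (hr : r ≤ 2 * R) (h0 : 0 ≤ h)
    (hh : h ≤ 2 * H1) (hν : H1 * (R * V) / (3 * c) ≤ ν) :
    |r * ((h + x) ^ 2 / (4 * ν)) - r * h ^ 2 / (4 * ν)| ≤ G / V := by
  have x0 : 0 ≤ ξ := (abs_nonneg x).trans hx
  have p0 : 0 < H1 * (R * V) / (3 * c) := by positivity
  have n0 : 0 < ν := p0.trans_le hν
  have e : r * ((h + x) ^ 2 / (4 * ν)) - r * h ^ 2 / (4 * ν) = r * (x * (2 * h + x)) / (4 * ν) := by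
    ring
  have b1 : |2 * h + x| ≤ 5 * H1 := by
    have := abs_le.1 hx
    rw [abs_le]; constructor <;> linarith
  rw [e, abs_div, abs_mul, abs_mul, abs_of_nonneg r0, abs_of_pos (by positivity : 0 < 4 * ν)]
  calc r * (|x| * |2 * h + x|) / (4 * ν)
      ≤ 2 * R * (ξ * (5 * H1)) / (4 * (H1 * (R * V) / (3 * c))) := by gcongr
    _ = 15 / 2 * ξ * c / V := by field_simp; ring
    _ ≤ G / V := by
      have : 0 ≤ ξ * c := by positivity
      gcongr; linarith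

theorem t2b_wt {c R V H1 r ν : ℝ} (hc : 1 ≤ c) (hR : 1 ≤ R) (hV : 1 ≤ V) (hH : 1 ≤ H1)
    (hr : R ≤ r) (hν : H1 * (R * V) / (3 * c) ≤ ν) :
    1 / (√r * √ν) / √V ≤ 2 * √c / (√H1 * (R * V)) := by
  have p0 : 0 < H1 * (R * V) / (3 * c) := by positivity
  have n0 : 0 < ν := p0.trans_le hν
  have r0 : 0 < r := by linarith
  have c0 : 0 < √c := by positivity
  have h1 : √H1 * (R * V) / (2 * √c) ≤ √r * √ν * √V := by
    rw [← Real.sqrt_mul r0.le, ← Real.sqrt_mul (by positivity)]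
    refine Real.le_sqrt_of_sq_le ?_
    rw [div_pow, mul_pow, mul_pow 2, Real.sq_sqrt (by linarith), Real.sq_sqrt (by linarith)]
    calc H1 * (R * V) ^ 2 / (2 ^ 2 * c) ≤ H1 * (R * V) ^ 2 / (3 * c) := by gcongr; norm_num
      _ = R * (H1 * (R * V) / (3 * c)) * V := by ring
      _ ≤ r * ν * V := by gcongr
  rw [div_div]
  refine (one_div_le_one_div_of_le (by positivity) h1).trans_eq ?_
  rw [one_div_div]

theorem t2b_alg {c R V H1 : ℝ} (hc : 1 ≤ c) (hR : 1 ≤ R) (hV : 1 ≤ V) (hH : 1 ≤ H1) :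
    2 * R * (2 * H1 * (2 * √c / (√H1 * (R * V)) *
        (V + H1 * (R * V) / (3 * c) + (H1 * (R * V) / (3 * c)) ^ 2 / (R * H1 ^ 2)))) ≤
      8 * (√(c * H1) + R * H1 * √H1 / √c + √H1 * (R * V) / (c * √c)) := by
  rw [Real.sqrt_mul (by linarith)]
  have ha : 0 < √c := by positivity
  have hb : 0 < √H1 := by positivity
  have ea := Real.sq_sqrt (show 0 ≤ c by linarith)
  have eb := Real.sq_sqrt (show 0 ≤ H1 by linarith)
  generalize √c = a at *
  generalize √H1 = b at *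
  subst ea eb
  have r0 : 0 < R := by linarith
  have v0 : 0 < V := by linarith
  have e : 2 * R * (2 * b ^ 2 * (2 * a / (b * (R * V)) *
      (V + b ^ 2 * (R * V) / (3 * a ^ 2) + (b ^ 2 * (R * V) / (3 * a ^ 2)) ^ 2 / (R * (b ^ 2) ^ 2)))) =
      8 * (a * b + R * b ^ 2 * b / a / 3 + b * (R * V) / (a ^ 2 * a) / 9) := by
    field_simp; ring
  have p1 : 0 ≤ R * b ^ 2 * b / a := by positivity
  have p2 : 0 ≤ b * (R * V) / (a ^ 2 * a) := by positivity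
  rw [e]; linarith

theorem p_T2B (hGEO : S_GEO) (hMQ : S_MQ) :
    S_T2B := by
  obtain ⟨C1, c1, hG⟩ := hGEO
  obtain ⟨C2, c2, hM⟩ := hMQ
  refine ⟨8 * (C1 * C2), by positivity, fun Z τ c G R V H1 ξ x S Hs a b α ch hZ hc hcZ hR hV hH
    hHc hRV hx hξ G1 hGξ hS hI hHs hα hch => ?_⟩
  have z0 : 0 < Z := by linarith
  have hVs := VR_in (c := c) (D := R * V) (H1 := H1) (by linarith) (by positivity) (by linarith)
  set V0 := H1 * (R * V) / (3 * c) with hV0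
  have p0 : 0 < V0 := by positivity
  have hZ0 : 24 * V0 ≤ Z := by
    have : 24 * V0 = 4 * (R * V) * (2 * H1 / c) := by rw [hV0]; field_simp; ring
    have h2 : 2 * H1 / c ≤ 1 := (div_le_one (by linarith)).2 hHc
    have h3 : 0 ≤ 4 * (R * V) := by positivity
    rw [this]; exact (mul_le_of_le_one_right h3 h2).trans hRV
  set K := 2 * √c / (√H1 * (R * V)) with hK
  have k0 : 0 ≤ K := by positivity
  set W := V + V0 + V0 ^ 2 / (R * H1 ^ 2) with hW
  have key : ∀ r ∈ S, ∀ h ∈ Hs, ‖∑ ν ∈ VR c (R * V) H1, α r * ch h *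
      ((1 / (√(r : ℝ) * √(ν : ℝ)) : ℝ) : ℂ) * ∑ v ∈ Ioc (a r) (b r), ((1 / √(v : ℝ) : ℝ) : ℂ) *
        ee (v * (r * ((h + x) ^ 2 / (4 * ν))))‖ ≤ C1 * C2 * τ ^ 2 * G * (K * W) := by
    intro r hr h hh
    obtain ⟨r1, r2⟩ := hS r hr
    obtain ⟨h1, h2⟩ := hHs h hh
    have m1 : R * H1 ^ 2 ≤ ((r * h ^ 2 : ℕ) : ℝ) := by push_cast; gcongr
    have m0 : 1 ≤ R * H1 ^ 2 := one_le_mul_of_one_le_of_one_le hR (one_le_pow₀ hH)
    have m2 : ((r * h ^ 2 : ℕ) : ℝ) ≤ Z ^ 4 := by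
      have a1 : (r : ℝ) ≤ Z := by nlinarith
      have a2 : (h : ℝ) ≤ Z := by linarith
      calc ((r * h ^ 2 : ℕ) : ℝ) = r * h ^ 2 := by push_cast; ring
        _ ≤ Z * Z ^ 2 := by gcongr
        _ = Z ^ 3 := by ring
        _ ≤ Z ^ 4 := hZ.pow (by norm_num)
    have q1 := hM Z τ V V0 (r * h ^ 2) _ hZ (by linarith) p0 hZ0
      (by exact_mod_cast m0.trans m1) m2 hVs
    have q2 : V + V0 + V0 ^ 2 / ((r * h ^ 2 : ℕ) : ℝ) ≤ W := by rw [hW]; gcongr
    calc _ ≤ ∑ ν ∈ VR c (R * V) H1, K * (C1 * G) * mq V (r * h ^ 2 : ℕ) (4 * ν) := by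
          refine norm_sum_le_of_le _ fun ν hν => ?_
          have n0 := hVs.pos p0 hν
          have g := hG V G (r * ((h + x) ^ 2 / (4 * ν))) (r * h ^ 2 : ℕ) (4 * ν) (a r) (b r) hV G1
            (by omega) (hI r) (by
              push_cast
              exact t2b_close hc hR hV hH hx hξ hGξ (Nat.cast_nonneg r) r2 (Nat.cast_nonneg h) h2
                (hVs ν hν).1)
          have w := t2b_wt hc hR hV hH r1 (hVs ν hν).1
          have mq0 := mq_nonneg (show 0 ≤ V by linarith) (r * h ^ 2 : ℕ) (4 * ν)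
          rw [norm_mul, norm_mul, norm_mul, Complex.norm_real, Real.norm_of_nonneg (by positivity)]
          calc _ ≤ 1 * 1 * (1 / (√(r : ℝ) * √(ν : ℝ))) *
                (C1 * G / √V * mq V (r * h ^ 2 : ℕ) (4 * ν)) := by
                gcongr
                exacts [hα r, hch h]
            _ = 1 / (√(r : ℝ) * √(ν : ℝ)) / √V * (C1 * G) * mq V (r * h ^ 2 : ℕ) (4 * ν) := by ring
            _ ≤ _ := by gcongr
      _ ≤ K * (C1 * G) * (C2 * τ ^ 2 * W) := by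
          rw [← mul_sum]
          exact mul_le_mul_of_nonneg_left (q1.trans (by gcongr)) (by positivity)
      _ = _ := by ring
  have b0 : 0 ≤ C1 * C2 * τ ^ 2 * G := by positivity
  have b1 : 0 ≤ K * W := by positivity
  calc _ ≤ ∑ r ∈ S, 2 * H1 * (C1 * C2 * τ ^ 2 * G * (K * W)) := by
        refine norm_sum_le_of_le _ fun r hr => ?_
        rw [t2b_swap]
        refine (norm_sum_le_of_le _ (key r hr)).trans ?_
        rw [sum_const, nsmul_eq_mul]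
        exact mul_le_mul_of_nonneg_right (hHs.card_le (by linarith) (by linarith)) (by positivity)
    _ ≤ 2 * R * (2 * H1 * (C1 * C2 * τ ^ 2 * G * (K * W))) := by
        rw [sum_const, nsmul_eq_mul]
        exact mul_le_mul_of_nonneg_right (hS.card_le (by linarith) (by linarith)) (by positivity)
    _ = C1 * C2 * τ ^ 2 * G * (2 * R * (2 * H1 * (K * W))) := by ring
    _ ≤ C1 * C2 * τ ^ 2 * G *
        (8 * (√(c * H1) + R * H1 * √H1 / √c + √H1 * (R * V) / (c * √c))) :=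
        mul_le_mul_of_nonneg_left (t2b_alg hc hR hV hH) b0
    _ = _ := by ring

end Pool.Agent.P.MP_8be758_nt.Sq
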