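import Pool.Agent.P.MP_8be758_nt.Sq.IfaceA

/-! Step TI. -/

set_option autoImplicit false
set_option linter.unusedSectionVars false

namespace Pool.Agent.P.MP_8be758_nt.Sq

open Finset Real Filter Topology
open Pool.Agent.P.MP_e86632_nt (ee nn norm_ee ee_add ee_neg)
open Pool.Agent.P.MP_8be758_nt.Avg (gs gs_pos gs_anti gs_le_one gs_neg)

theorem ti_root {Q Y τ c H D : ℝ} (h : St Q Y τ) (c1 : Q ^ 24 / 2 ≤ c) (c2 : c ≤ Q ^ 24)
    (h0 : 0 ≤ H) (h1 : H ≤ Q ^ 12 * Y ^ 3) (d0 : 0 ≤ D) (d1 : D ≤ Q ^ 30 / Y ^ 100) :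
    √(H * D + c * H + 10 * Y ^ 3 * H ^ 3 * D ^ 2 / c ^ 2 + 10 * Y ^ 3 * H ^ 3 * D / c) ≤
      Q ^ 24 / Y ^ 80 := by
  have q0 := h.qpos
  have y0 := h.ypos
  have y1 := h.y0
  have h2 : H ≤ Q ^ 13 := h1.trans (h.qy (by norm_num) (by norm_num))
  have d2 : D ≤ Q ^ 30 := d1.trans (div_le_self (by positivity) (one_le_pow₀ h.y1))
  have a0 : Q ^ 44 ≤ Q ^ 48 / Y ^ 161 :=
    (le_div_iff₀ (by positivity)).2 (h.qy (by norm_num) (by norm_num))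
  have a1 : H * D ≤ Q ^ 44 :=
    calc _ ≤ Q ^ 13 * Q ^ 30 := by gcongr
      _ ≤ _ := by rw [← pow_add]; exact h.qpow (by norm_num)
  have a2 : c * H ≤ Q ^ 44 :=
    calc _ ≤ Q ^ 24 * Q ^ 13 := by gcongr
      _ ≤ _ := by rw [← pow_add]; exact h.qpow (by norm_num)
  have a3 : 10 * Y ^ 3 * H ^ 3 * D ^ 2 / c ^ 2 ≤ Q ^ 48 / Y ^ 161 :=
    calc _ ≤ 10 * Y ^ 3 * (Q ^ 12 * Y ^ 3) ^ 3 * (Q ^ 30 / Y ^ 100) ^ 2 / (Q ^ 24 / 2) ^ 2 := by
          gcongr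
      _ = Q ^ 48 / Y ^ 161 * (40 / Y ^ 27) := by field_simp; norm_num
      _ ≤ _ := mul_le_of_le_one_right (by positivity) ((div_le_one (by positivity)).2
          (le_trans (b := Y) (by linarith) (by simpa using h.ymono (show 1 ≤ 27 by norm_num))))
  have a4 : 10 * Y ^ 3 * H ^ 3 * D / c ≤ Q ^ 44 :=
    calc _ ≤ 10 * Y ^ 3 * (Q ^ 12 * Y ^ 3) ^ 3 * Q ^ 30 / (Q ^ 24 / 2) := by gcongr
      _ = Q ^ 42 * Y ^ 12 * 20 := by field_simp; norm_num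
      _ ≤ Q ^ 42 * Y ^ 12 * Y := by gcongr; linarith
      _ ≤ _ := by rw [mul_assoc, ← pow_succ]; exact h.qy (by norm_num) (by norm_num)
  refine Real.sqrt_le_iff.2 ⟨by positivity, ?_⟩
  calc _ ≤ Q ^ 48 / Y ^ 161 * 4 := by linarith
    _ ≤ Q ^ 48 / Y ^ 161 * Y := by gcongr; linarith
    _ = _ := by field_simp

theorem p_TI (hTI0 : S_TI0) (hTR : S_TR) :
    S_TI := by
  obtain ⟨C, C0, hC⟩ := hTI0
  refine ⟨(C * 50 ^ 4) ^ 2, fun Q Y τ c δ l hY h w => ?_⟩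
  have q0 := h.qpos
  have y0 := h.ypos
  have y1 := h.y0
  have c1 := w.clo h
  have c2 := w.chi h
  have p48 : (1000 : ℝ) ≤ Q ^ 48 := h.q0.trans (by simpa using h.qpow (show 1 ≤ 48 by norm_num))
  set D0 := ⌊Q ^ 30 / Y ^ 100⌋₊
  set n1 := ⌈4 * Q ^ 48⌉₊
  have d1 : (D0 : ℝ) ≤ Q ^ 30 / Y ^ 100 := Nat.floor_le (by positivity)
  have d2 : (D0 : ℝ) ≤ Q ^ 30 := d1.trans (div_le_self (by positivity) (one_le_pow₀ h.y1))
  have n2 : 4 * Q ^ 48 ≤ n1 := Nat.le_ceil _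
  have n3 : (n1 : ℝ) ≤ (Q ^ 48) ^ 2 := by
    have := Nat.ceil_lt_add_one (show 0 ≤ 4 * Q ^ 48 by positivity)
    nlinarith
  have key := hC (Q ^ 48) _ c (Dl Q Y) δ l Y (10 * Y ^ 3) (Hn Y δ) D0 n1 (h.pa w) h.sz (by
      have a := h.qy (a := 30) (b := 48) (k := 1) (by norm_num) (by norm_num)
      have b : (Q ^ 24 / 2) ^ 2 ≤ c ^ 2 := by gcongr
      have e : (Q ^ 24 / 2) ^ 2 = Q ^ 48 / 4 := by ring
      have := mul_le_mul_of_nonneg_left y1 (pow_pos q0 30).le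
      rw [pow_one] at a
      linarith [pow_pos q0 30]) (by
      have a : 9 * (Y / Dl Q Y) * c ≤ 9 * (Y / Dl Q Y) * Q ^ 24 := by
        have := h.Dl_pos
        gcongr
      have e : 9 * (Y / Dl Q Y) * Q ^ 24 = 9 * Y ^ 3 := by unfold Dl; field_simp
      have := h.ymono (show 1 ≤ 3 by norm_num)
      rw [pow_one] at this
      linarith) (by
      have a := h.qy (a := 12) (b := 24) (k := 8) (by norm_num) (by norm_num)
      calc _ ≤ 768 * (Q ^ 12 * Y ^ 3) * (10 * Y ^ 3) := by gcongr; exact w.Hle h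
        _ = Q ^ 12 * Y ^ 6 * 15360 / 2 := by ring
        _ < Q ^ 12 * Y ^ 6 * Y ^ 2 / 2 := by gcongr; nlinarith
        _ ≤ c := by rw [mul_assoc, ← pow_add]; linarith) (by linarith [(h.pa w).cz]) n3
  have r1 := ti_root h c1 c2 (Nat.cast_nonneg _) (w.Hle h) (Nat.cast_nonneg D0) d1
  have u1 : 1 ≤ Q ^ 24 / Y ^ 80 := (one_le_div (by positivity)).2
    ((h.ypow (by norm_num)).trans (by simpa using h.qpow (show 1 ≤ 24 by norm_num)))
  have k2 := key.trans (mul_le_mul (h.ctau hY (by norm_num)) (add_le_add r1 (h.ngl_le.trans u1))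
    (add_nonneg (Real.sqrt_nonneg _) (ngl_pos (by positivity) _).le) y0.le)
  have e1 : ∀ d ∈ Icc 1 D0, |Sj Q (wt Q Y c δ l) d| ≤
      |∑ j ∈ Icc 1 n1, wr c (Dl Q Y) δ l (Hn Y δ) (d * j)| + n1 * (1 / Q ^ 1000) := fun d hd => by
    have a : Sj Q (wt Q Y c δ l) d = ∑ j ∈ Icc 1 n1, wt Q Y c δ l (d * j) := by
      refine sum_subset (Icc_subset_Icc_right ?_) fun j hj hj' => ?_
      · exact_mod_cast h.XN_le.trans (le_trans (by linarith) n2)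
      · have : XN Q < d * j := lt_of_lt_of_le (by simp only [mem_Icc] at hj hj'; omega)
          (Nat.le_mul_of_pos_left j (mem_Icc.1 hd).1)
        simp [wt, aa, bt, not_InW this]
    have b := (abs_sum_le_sum_abs _ _).trans
      (sum_le_sum (s := Icc 1 n1) fun j _ => (hTR Q Y τ c δ l (d * j) h w).1)
    rw [sum_sub_distrib, sum_const, Nat.card_Icc, Nat.add_sub_cancel, nsmul_eq_mul] at b
    rw [a]
    linarith [abs_sub_abs_le_abs_sub (∑ j ∈ Icc 1 n1, wt Q Y c δ l (d * j))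
      (∑ j ∈ Icc 1 n1, wr c (Dl Q Y) δ l (Hn Y δ) (d * j))]
  refine (sum_le_sum e1).trans ?_
  rw [sum_add_distrib, sum_const, Nat.card_Icc, Nat.add_sub_cancel, nsmul_eq_mul]
  have e2 : (D0 : ℝ) * (n1 * (1 / Q ^ 1000)) ≤ 1 :=
    calc _ ≤ Q ^ 30 * ((Q ^ 48) ^ 2 * (1 / Q ^ 1000)) := by gcongr
      _ = Q ^ 126 / Q ^ 1000 := by ring
      _ ≤ 1 := (div_le_one (by positivity)).2 (h.qpow (by norm_num))
  have e3 : Y * 3 ≤ Y ^ 55 := le_trans (by nlinarith) (h.ymono (show 2 ≤ 55 by norm_num))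
  calc _ ≤ Y * 3 * (Q ^ 24 / Y ^ 80) := by nlinarith
    _ ≤ Y ^ 55 * (Q ^ 24 / Y ^ 80) := by gcongr
    _ = _ := by field_simp

end Pool.Agent.P.MP_8be758_nt.Sq
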