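import Pool.Agent.P.MP_8be758_nt.Sq.IfaceA

/-! Step TI0. -/

set_option autoImplicit false
set_option linter.unusedSectionVars false

namespace Pool.Agent.P.MP_8be758_nt.Sq

open Finset Real Filter Topology
open Pool.Agent.P.MP_e86632_nt (ee nn norm_ee ee_add ee_neg)
open Pool.Agent.P.MP_8be758_nt.Avg (gs gs_pos gs_anti gs_le_one gs_neg)

theorem ti0_pow {M i : ℕ} (h : ((Icc 1 M).filter fun x => Nat.log 2 x = i).Nonempty) :
    (2 : ℝ) ^ i ≤ M := by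
  obtain ⟨x, hx⟩ := h
  obtain ⟨h1, h2⟩ := mem_filter.1 hx
  exact (dyadic_mem (mem_Icc.1 h1).1 h2).1.trans (by exact_mod_cast (mem_Icc.1 h1).2)

theorem p_TI0 (hT1C : S_T1C) :
    S_TI0 := by
  obtain ⟨C, hC, h⟩ := hT1C
  refine ⟨8 * C, by positivity, fun Z τ c Δ δ l T G H D0 n1 hp hs h1 h2 h3 h4 h5 => ?_⟩
  have c0 := hp.cpos
  have t1 := hs.t1
  have g1 : 1 ≤ G := by
    have : 0 ≤ 9 * (T / Δ) * c := by have := hp.dpos; have := hp.t; positivity
    linarith [hp.t]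
  have n0 := ngl_pos (show 0 < Z by linarith [hp.z]) T
  have hH : (0 : ℝ) ≤ H := Nat.cast_nonneg _
  have hD : (0 : ℝ) ≤ D0 := Nat.cast_nonneg _
  set R := C * τ ^ 2 * (√((H : ℝ) * D0 + c * H + G * (H : ℝ) ^ 3 * (D0 : ℝ) ^ 2 / c ^ 2 +
    G * (H : ℝ) ^ 3 * D0 / c) + ngl Z T) with hR
  have R0 : 0 ≤ R := by positivity
  let s : ℕ → ℝ := fun d => ∑ j ∈ Icc 1 n1, wr c Δ δ l H (d * j)
  let a : ℕ → ℝ := fun d => if 0 ≤ s d then 1 else -1
  have ha : ∀ d, ‖(a d : ℂ)‖ ≤ 1 := fun d => by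
    simp only [a]; split_ifs <;> simp
  have e1 : ∑ d ∈ Icc 1 D0, |s d| = 2 * (∑ d ∈ Icc 1 D0, (a d : ℂ) *
      ∑ j ∈ Icc 1 n1, BW c Δ (Icc 1 H) (cf δ l) (d * j)).re := by
    rw [Complex.re_sum, mul_sum]
    refine sum_congr rfl fun d _ => ?_
    have : |s d| = a d * s d := by
      simp only [a]; split_ifs with h
      · rw [abs_of_nonneg h, one_mul]
      · rw [abs_of_neg (not_le.1 h), neg_one_mul]
    rw [this, Complex.re_ofReal_mul, Complex.re_sum, mul_left_comm, mul_sum]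
    simp only [wr_eq, mul_sum]
  have blk : ∀ i k : ℕ, ‖∑ d ∈ (Icc 1 D0).filter (fun x => Nat.log 2 x = i), (a d : ℂ) *
      ∑ j ∈ Icc 1 n1, BW c Δ ((Icc 1 H).filter fun x => Nat.log 2 x = k) (cf δ l) (d * j)‖ ≤ R := by
    intro i k
    rcases ((Icc 1 D0).filter fun x => Nat.log 2 x = i).eq_empty_or_nonempty with e | e
    · simpa [e] using R0
    rcases ((Icc 1 H).filter fun x => Nat.log 2 x = k).eq_empty_or_nonempty with e' | e'
    · simpa [e', BW] using R0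
    have p1 := ti0_pow e
    have p2 := ti0_pow e'
    refine (h Z τ c Δ T G (2 ^ i) (2 ^ k) n1 _ _ _ _ hp hs (one_le_pow₀ one_le_two) (by linarith)
      (one_le_pow₀ one_le_two) h2 (lt_of_le_of_lt (by gcongr) h3)
      (In.dyadic _ (fun x hx => (mem_Icc.1 hx).1) i) (In.dyadic _ (fun x hx => (mem_Icc.1 hx).1) k)
      ha (norm_cf_le δ l) h4 h5).trans ?_
    rw [hR]
    gcongr
  have l1 := hs.log2 (m := D0) (by linarith [hp.cz])
  have l2 := hs.log2 (m := H) (by nlinarith [hp.cZ])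
  have e2 : ‖∑ d ∈ Icc 1 D0, (a d : ℂ) * ∑ j ∈ Icc 1 n1, BW c Δ (Icc 1 H) (cf δ l) (d * j)‖ ≤
      2 * τ * (2 * τ * R) := by
    rw [sum_dyadic (Icc 1 D0) D0 fun x hx => (mem_Icc.1 hx).2]
    refine (norm_sum_le_of_le _ (n := fun _ => 2 * τ * R) fun i _ => ?_).trans ?_
    · simp only [BW_sum c Δ _ (Icc 1 H) _ (cf δ l)
        (sum_dyadic (Icc 1 H) H fun x hx => (mem_Icc.1 hx).2)]
      simp only [sum_comm (s := Icc 1 n1), mul_sum (s := range _)]
      rw [sum_comm]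
      refine (norm_sum_le_of_le _ fun k _ => blk i k).trans ?_
      rw [sum_const, card_range, nsmul_eq_mul]
      gcongr
    · rw [sum_const, card_range, nsmul_eq_mul]
      gcongr
  refine e1.le.trans ?_
  have := (Complex.re_le_norm _).trans e2
  have e3 : 8 * C * τ ^ 4 * (√((H : ℝ) * D0 + c * H + G * (H : ℝ) ^ 3 * (D0 : ℝ) ^ 2 / c ^ 2 +
    G * (H : ℝ) ^ 3 * D0 / c) + ngl Z T) = 2 * (2 * τ * (2 * τ * R)) := by rw [hR]; ring
  linarith

end Pool.Agent.P.MP_8be758_nt.Sq
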