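import Pool.Agent.P.MP_8be758_nt.Sq.IfaceA

/-! Step TI2. -/

set_option autoImplicit false
set_option linter.unusedSectionVars false

namespace Pool.Agent.P.MP_8be758_nt.Sq

open Finset Real Filter Topology
open Pool.Agent.P.MP_e86632_nt (ee nn norm_ee ee_add ee_neg)
open Pool.Agent.P.MP_8be758_nt.Avg (gs gs_pos gs_anti gs_le_one gs_neg)

theorem ti2_Sj {Q Y c δ l : ℝ} {d n : ℕ} (hd : 1 ≤ d) (hn : XN Q ≤ n) :
    Sj Q (wt Q Y c δ l) d = ∑ j ∈ Icc 1 n, wt Q Y c δ l (d * j) := by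
  refine sum_subset (Icc_subset_Icc_right hn) fun j hj hj' => ?_
  have h : XN Q < d * j := by
    have : j ≤ d * j := Nat.le_mul_of_pos_left j hd
    simp only [mem_Icc] at hj hj'
    omega
  simp [wt, aa, bt, not_InW h]

theorem p_TI2 (hTJ0 : S_TJ0) (hTR : S_TR) :
    S_TI2 := by
  obtain ⟨C, hC, hJ⟩ := hTJ0
  refine ⟨(C * 50 ^ 5) ^ 2, fun Q Y τ c δ l hY h w lo hi hhi => ?_⟩
  have q0 := h.q0
  have qp := h.qpos
  have y0 := h.y0
  have yp := h.ypos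
  have clo := w.clo h
  have chi := w.chi h
  have cp := w.cpos h
  have step : ∀ {a b : ℕ}, a < b → 1000 * Q ^ a ≤ Q ^ b := fun {a b} hab => by
    have h1 := h.qpow (show a + 1 ≤ b from hab)
    rw [pow_succ] at h1
    nlinarith [pow_pos qp a]
  set R0 := ⌊pA Q Y⌋₊ with hR0
  set V0 := ⌊Q ^ 34⌋₊ with hV0
  set n1 := ⌈4 * Q ^ 48⌉₊ with hn1
  set H := Hn Y δ with hH
  have r1 : (R0 : ℝ) ≤ pA Q Y := Nat.floor_le h.pA_pos.le
  have r2 : (R0 : ℝ) ≤ Q ^ 13 := r1.trans h.pA_le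
  have v1 : (V0 : ℝ) ≤ Q ^ 34 := Nat.floor_le (by positivity)
  have rv : (R0 : ℝ) * V0 ≤ Q ^ 47 :=
    (mul_le_mul r2 v1 (by positivity) (by positivity)).trans_eq (by ring)
  have n2 : 4 * Q ^ 48 ≤ n1 := Nat.le_ceil _
  have n3 : (n1 : ℝ) ≤ Q ^ 49 := by
    have := Nat.ceil_lt_add_one (show 0 ≤ 4 * Q ^ 48 by positivity)
    linarith [step (show 48 < 49 by norm_num), one_le_pow₀ (n := 48) h.q1']
  have h1 : (H : ℝ) ≤ Q ^ 12 * Y ^ 3 := w.Hle h
  have h2 : (H : ℝ) ≤ Q ^ 13 := h1.trans (h.qy (by norm_num) (by norm_num))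
  have c2 : c ^ 2 ≤ Q ^ 48 := (h.pa w).cz
  have c3 : Q ^ 48 / 4 ≤ c ^ 2 :=
    le_trans (le_of_eq (by ring)) (pow_le_pow_left₀ (by positivity) clo 2)
  have p47 : 0 < Q ^ 47 := by positivity
  have p13 : 0 < Q ^ 13 := by positivity
  have main := hJ (Q ^ 48) (50 * τ * Real.log Q) c (Dl Q Y) δ l Y (9 * Y ^ 3) H R0 V0 n1 lo hi
    (h.pa w) h.sz (by linarith [step (show 47 < 48 by norm_num)])
    (by linarith [step (show 13 < 24 by norm_num)])
    (by linarith [one_le_pow₀ (n := 3) h.y1])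
    (by
      have e : 9 * (Y / Dl Q Y) * c = 9 * Y ^ 3 * (c / Q ^ 24) := by unfold Dl; field_simp
      rw [e]
      exact mul_le_of_le_one_right (by positivity) ((div_le_one (by positivity)).2 chi))
    (fun r => Nat.le_floor (hhi r)) (by linarith)
    (by rw [← pow_mul]; exact n3.trans (h.qpow (by norm_num)))
  have s1 : √(H : ℝ) ≤ Q ^ 7 := Real.sqrt_le_iff.2 ⟨by positivity, by
    rw [← pow_mul]; exact h2.trans (h.qpow (by norm_num))⟩
  have s2 : Q ^ 12 / 2 ≤ √c := Real.le_sqrt_of_sq_le (by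
    have : (Q ^ 12 / 2) ^ 2 = Q ^ 24 / 4 := by ring
    have : 0 < Q ^ 24 := by positivity
    linarith)
  have t1 : √(c * H) ≤ Q ^ 21 := Real.sqrt_le_iff.2 ⟨by positivity, by
    rw [← pow_mul]
    exact (mul_le_mul chi h2 (by positivity) (by positivity)).trans
      (by rw [← pow_add]; exact h.qpow (by norm_num))⟩
  have t2 : R0 * H * √(H : ℝ) / √c ≤ Q ^ 21 := by
    have a : (R0 : ℝ) * H ≤ Q ^ 25 := by
      refine (mul_le_mul r1 h1 (by positivity) h.pA_pos.le).trans ?_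
      have := h.qy (a := 24) (b := 25) (k := 103) (by norm_num) (by norm_num)
      exact le_trans (le_of_eq (by unfold pA; ring)) this
    calc _ ≤ Q ^ 25 * Q ^ 7 / (Q ^ 12 / 2) := by gcongr
      _ = 2 * Q ^ 20 := by field_simp
      _ ≤ Q ^ 21 := by linarith [step (show 20 < 21 by norm_num), pow_pos qp 20]
  have t3 : √(H : ℝ) * (R0 * V0) / (c * √c) ≤ Q ^ 21 := by
    calc _ ≤ Q ^ 7 * Q ^ 47 / (Q ^ 24 / 2 * (Q ^ 12 / 2)) := by gcongr
      _ = 4 * Q ^ 18 := by field_simp; norm_num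
      _ ≤ Q ^ 21 := by linarith [step (show 18 < 21 by norm_num), pow_pos qp 18]
  have m2 : C * (50 * τ * Real.log Q) ^ 5 * (9 * Y ^ 3 * (√(c * H) + R0 * H * √(H : ℝ) / √c +
      √(H : ℝ) * (R0 * V0) / (c * √c)) + ngl (Q ^ 48) Y) ≤ Y * (9 * Y ^ 3 * (3 * Q ^ 21) + 1) := by
    have := ngl_pos (show 0 < Q ^ 48 by positivity) Y
    exact mul_le_mul (h.ctau hY (by norm_num)) (add_le_add
      (mul_le_mul_of_nonneg_left (by linarith) (by positivity)) h.ngl_le) (by positivity) yp.le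
  have hx : XN Q ≤ n1 := by
    have : (XN Q : ℝ) ≤ n1 := by linarith [h.XN_le, pow_pos qp 48]
    exact_mod_cast this
  have err : ∀ r ∈ Icc 1 R0, |∑ v ∈ Ioc (lo r) (hi r), Sj Q (wt Q Y c δ l) (r * v)| ≤
      |∑ v ∈ Ioc (lo r) (hi r), ∑ j ∈ Icc 1 n1, wr c (Dl Q Y) δ l H (r * v * j)| +
        Q ^ 34 * (Q ^ 49 * (1 / Q ^ 1000)) := by
    intro r hr
    rw [← sub_le_iff_le_add']
    refine (abs_sub_abs_le_abs_sub _ _).trans ?_
    rw [← sum_sub_distrib]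
    refine (abs_sum_le_sum_abs _ _).trans ((sum_le_card_nsmul _ _
      (Q ^ 49 * (1 / Q ^ 1000)) fun v hv => ?_).trans ?_)
    · rw [ti2_Sj (Nat.mul_pos (mem_Icc.1 hr).1 (Nat.zero_lt_of_lt (mem_Ioc.1 hv).1)) hx,
        ← sum_sub_distrib]
      refine (abs_sum_le_sum_abs _ _).trans ((sum_le_card_nsmul _ _ (1 / Q ^ 1000)
        fun j _ => (hTR Q Y τ c δ l _ h w).1).trans ?_)
      rw [Nat.card_Icc, Nat.add_sub_cancel, nsmul_eq_mul]
      exact mul_le_mul_of_nonneg_right n3 (by positivity)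
    · rw [Nat.card_Ioc, nsmul_eq_mul]
      refine mul_le_mul_of_nonneg_right (le_trans ?_ (hhi r)) (by positivity)
      exact_mod_cast Nat.sub_le _ _
  refine (sum_le_sum err).trans ?_
  rw [sum_add_distrib, sum_const, Nat.card_Icc, Nat.add_sub_cancel, nsmul_eq_mul]
  have e1 : (R0 : ℝ) * (Q ^ 34 * (Q ^ 49 * (1 / Q ^ 1000))) ≤ 1 := by
    refine (mul_le_mul_of_nonneg_right r2 (by positivity)).trans ?_
    have : Q ^ 13 * (Q ^ 34 * (Q ^ 49 * (1 / Q ^ 1000))) = Q ^ 96 / Q ^ 1000 := by ring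
    rw [this, div_le_one (by positivity)]
    exact h.qpow (by norm_num)
  refine (add_le_add (main.trans m2) e1).trans ?_
  rw [le_div_iff₀ (by positivity)]
  have f1 := h.qy (a := 21) (b := 22) (k := 29) (by norm_num) (by norm_num)
  have f2 := h.qy (a := 0) (b := 22) (k := 26) (by norm_num) (by norm_num)
  have f3 := h.qy (a := 0) (b := 22) (k := 25) (by norm_num) (by norm_num)
  have e2 : (Y * (9 * Y ^ 3 * (3 * Q ^ 21) + 1) + 1) * Y ^ 25 =
      27 * (Q ^ 21 * Y ^ 29) + Q ^ 0 * Y ^ 26 + Q ^ 0 * Y ^ 25 := by ring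
  linarith [step (show 22 < 24 by norm_num), pow_pos qp 22]

end Pool.Agent.P.MP_8be758_nt.Sq
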