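import Pool.Agent.P.MP_8be758_nt.Sq.IfaceA

/-! Step TII. -/

set_option autoImplicit false
set_option linter.unusedSectionVars false

namespace Pool.Agent.P.MP_8be758_nt.Sq

open Finset Real Filter Topology
open Pool.Agent.P.MP_e86632_nt (ee nn norm_ee ee_add ee_neg)
open Pool.Agent.P.MP_8be758_nt.Avg (gs gs_pos gs_anti gs_le_one gs_neg)

section
variable {Q Y τ : ℝ}

theorem tii_w0 (h : St Q Y τ) {a : ℕ} (ha : a < 48) : Q ^ a ≤ Q ^ 48 / Y ^ 90 :=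
  (le_div_iff₀ (pow_pos h.ypos _)).2 (h.qy (by norm_num) ha)

theorem tii_w1 (h : St Q Y τ) {a : ℕ} (b : ℕ) (ha : a < 48) : Q ^ a / Y ^ b ≤ Q ^ 48 / Y ^ 90 :=
  (div_le_self (pow_pos h.qpos _).le (one_le_pow₀ h.y1)).trans (tii_w0 h ha)

theorem tii_w2 (h : St Q Y τ) {b : ℕ} (hb : 90 ≤ b) : Q ^ 48 / Y ^ b ≤ Q ^ 48 / Y ^ 90 :=
  div_le_div_of_nonneg_left (pow_pos h.qpos _).le (pow_pos h.ypos _) (h.ymono hb)

theorem tii_arith (h : St Q Y τ) {n s H r R δ g : ℝ} (hn1 : Q ^ 6 * Y ^ 50 ≤ n)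
    (hn2 : n ≤ Q ^ 8 / Y ^ 50) (hs : s ≤ 3 * Q ^ 24 / n) (H0 : 0 ≤ H)
    (hH : H ≤ Q ^ 12 * Y ^ 3) (r0 : 0 ≤ r) (hr : r ≤ 4 * Y ^ 2 * n / Q ^ 6) (R0 : 0 ≤ R)
    (hR : R ≤ 12 * Y ^ 3 * n ^ 2 / Q ^ 12) (d0 : 0 < δ) (hd : 1 / δ ≤ Q ^ 12 * Y ^ 2)
    (g0 : 0 ≤ g) (hg : g ≤ 2) :
    s * ((Q ^ 24 / Y ^ 2 * H + Y * H * n ^ 2 + Y * H ^ 3) / n + n ^ 2 * H * r +
      (n ^ 2 + H + n ^ 2 * H * (8 * Y * R * δ)) / δ + g) ≤ 400 * (Q ^ 48 / Y ^ 90) := by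
  have q0 := h.qpos
  have y0 := h.ypos
  have n0 : 0 < n := lt_of_lt_of_le (by positivity) hn1
  have hi : 1 / n ≤ 1 / (Q ^ 6 * Y ^ 50) := one_div_le_one_div_of_le (by positivity) hn1
  have e1 : (n ^ 2 + H + n ^ 2 * H * (8 * Y * R * δ)) / δ =
      (n ^ 2 + H) * (1 / δ) + n ^ 2 * H * (8 * Y * R) := by field_simp
  have a1 := tii_w2 h (b := 99) (by norm_num)
  have a2 := (h.qy (a := 36) (b := 37) (k := 4) (by norm_num) (by norm_num)).trans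
    (tii_w0 h (by norm_num))
  have a4 := tii_w1 h (a := 46) 95 (by norm_num)
  have a5 := tii_w1 h (a := 44) 48 (by norm_num)
  have a6 := tii_w1 h (a := 42) 45 (by norm_num)
  have a7 := tii_w2 h (b := 143) (by norm_num)
  have a8 := tii_w1 h (a := 18) 50 (by norm_num)
  have w0 : 0 < Q ^ 48 / Y ^ 90 := by positivity
  rw [e1]
  calc _ ≤ 3 * Q ^ 24 / n * ((Q ^ 24 / Y ^ 2 * (Q ^ 12 * Y ^ 3) + Y * (Q ^ 12 * Y ^ 3) * n ^ 2 +
        Y * (Q ^ 12 * Y ^ 3) ^ 3) / n + n ^ 2 * (Q ^ 12 * Y ^ 3) * (4 * Y ^ 2 * n / Q ^ 6) +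
        ((n ^ 2 + Q ^ 12 * Y ^ 3) * (Q ^ 12 * Y ^ 2) +
          n ^ 2 * (Q ^ 12 * Y ^ 3) * (8 * Y * (12 * Y ^ 3 * n ^ 2 / Q ^ 12))) + 2) := by
        gcongr
    _ = 3 * Q ^ 60 * Y * (1 / n) ^ 2 + 3 * Q ^ 36 * Y ^ 4 + 3 * Q ^ 60 * Y ^ 10 * (1 / n) ^ 2 +
        12 * Q ^ 30 * Y ^ 5 * n ^ 2 + 3 * Q ^ 36 * Y ^ 2 * n + 3 * Q ^ 48 * Y ^ 5 * (1 / n) +
        288 * Q ^ 24 * Y ^ 7 * n ^ 3 + 6 * Q ^ 24 * (1 / n) := by
        field_simp; ring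
    _ ≤ 3 * Q ^ 60 * Y * (1 / (Q ^ 6 * Y ^ 50)) ^ 2 + 3 * Q ^ 36 * Y ^ 4 +
        3 * Q ^ 60 * Y ^ 10 * (1 / (Q ^ 6 * Y ^ 50)) ^ 2 +
        12 * Q ^ 30 * Y ^ 5 * (Q ^ 8 / Y ^ 50) ^ 2 + 3 * Q ^ 36 * Y ^ 2 * (Q ^ 8 / Y ^ 50) +
        3 * Q ^ 48 * Y ^ 5 * (1 / (Q ^ 6 * Y ^ 50)) +
        288 * Q ^ 24 * Y ^ 7 * (Q ^ 8 / Y ^ 50) ^ 3 + 6 * Q ^ 24 * (1 / (Q ^ 6 * Y ^ 50)) := by
        gcongr
    _ = 3 * (Q ^ 48 / Y ^ 99) + 3 * (Q ^ 36 * Y ^ 4) + 3 * (Q ^ 48 / Y ^ 90) +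
        12 * (Q ^ 46 / Y ^ 95) + 3 * (Q ^ 44 / Y ^ 48) + 3 * (Q ^ 42 / Y ^ 45) +
        288 * (Q ^ 48 / Y ^ 143) + 6 * (Q ^ 18 / Y ^ 50) := by
        field_simp
    _ ≤ _ := by linarith

end

theorem tii_cmp {w w' : ℕ → ℝ} {e B : ℝ} (he : e ≤ B) (h1 : ∀ k, |w k - w' k| ≤ e)
    (h2 : ∀ k, |w' k| ≤ B) (M n1 n2 : ℕ) :
    |CR w M n1 n2| ≤ |CR w' M n1 n2| + M * (√(M : ℝ) * (3 * B * e)) := by
  have e0 : 0 ≤ e := (abs_nonneg _).trans (h1 0)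
  have B0 : 0 ≤ B := e0.trans he
  have key : ∀ a b, |w a * w b - w' a * w' b| ≤ 3 * B * e := fun a b => by
    have e1 : w a * w b - w' a * w' b =
        (w a - w' a) * (w b - w' b) + (w a - w' a) * w' b + w' a * (w b - w' b) := by ring
    have t1 : |(w a - w' a) * (w b - w' b)| ≤ e * B := by
      rw [abs_mul]; exact mul_le_mul (h1 a) ((h1 b).trans he) (abs_nonneg _) e0
    have t2 : |(w a - w' a) * w' b| ≤ e * B := by
      rw [abs_mul]; exact mul_le_mul (h1 a) (h2 b) (abs_nonneg _) e0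
    have t3 : |w' a * (w b - w' b)| ≤ B * e := by
      rw [abs_mul]; exact mul_le_mul (h2 a) (h1 b) (abs_nonneg _) B0
    rw [e1]
    linarith [abs_add_three ((w a - w' a) * (w b - w' b)) ((w a - w' a) * w' b)
      (w' a * (w b - w' b))]
  have h3 : |CR w M n1 n2 - CR w' M n1 n2| ≤ M * (√(M : ℝ) * (3 * B * e)) := by
    rw [CR, CR, ← sum_sub_distrib]
    refine (abs_sum_le_sum_abs _ _).trans ((sum_le_card_nsmul _ _ (√(M : ℝ) * (3 * B * e))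
      fun m hm => ?_).trans (by simp))
    rw [← mul_sub, abs_mul, abs_of_nonneg (Real.sqrt_nonneg _)]
    exact mul_le_mul (Real.sqrt_le_sqrt (by exact_mod_cast (mem_Icc.1 hm).2)) (key _ _)
      (abs_nonneg _) (Real.sqrt_nonneg _)
  linarith [abs_sub_abs_le_abs_sub (CR w M n1 n2) (CR w' M n1 n2)]

theorem p_TII (hTK0 : S_TK0) (hTR : S_TR) :
    S_TII := by
  obtain ⟨C, C0, hK⟩ := hTK0
  refine ⟨(C * 50 ^ 5) ^ 2, fun Q Y τ c δ l hY h w N S hN1 hN2 hS => ?_⟩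
  have q0 := h.qpos
  have y0 := h.ypos
  have y3 := h.y0
  have q1 := h.q1'
  have d0 := w.dpos h
  have c0 := w.cpos h
  have clo := w.clo h
  have chi := w.chi h
  have hH := w.Hle h
  have hdi := w.dinv h
  have N16 : N ≤ Q ^ 16 := hN2.trans h.pB_le
  rw [pA] at hN1
  rw [pB, le_div_iff₀ (by positivity)] at hN2
  have N0 : 0 < N := lt_of_lt_of_le (by positivity) hN1
  have N1 : 1 ≤ N := le_trans (one_le_mul_of_one_le_of_one_le (one_le_pow₀ q1)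
    (one_le_pow₀ h.y1)) hN1
  have big : ∀ a b : ℕ, a < b → 1000 * Q ^ a ≤ Q ^ b := fun a b hab => by
    have := h.qy (k := 1) (by norm_num) hab
    rw [pow_one] at this
    linarith [mul_le_mul_of_nonneg_left y3 (pow_pos q0 a).le]
  set H := Hn Y δ with hHd
  set M := Mx Q N with hMd
  set R := ⌊6 * H * N / c⌋₊ with hRd
  have H0 : (0 : ℝ) ≤ H := Nat.cast_nonneg _
  have R0 : (0 : ℝ) ≤ R := Nat.cast_nonneg _
  have H13 : (H : ℝ) ≤ Q ^ 13 := hH.trans (h.qy (by norm_num) (by norm_num))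
  have hR1 : (R : ℝ) * Q ^ 24 ≤ 12 * H * N := by
    have h1 : (R : ℝ) ≤ 6 * H * N / c := Nat.floor_le (by positivity)
    rw [le_div_iff₀ c0] at h1
    linarith [mul_le_mul_of_nonneg_left clo R0]
  have hR2 : (R : ℝ) ≤ 12 * Y ^ 3 * N / Q ^ 12 := by
    rw [le_div_iff₀ (by positivity)]
    refine le_of_mul_le_mul_right ?_ (pow_pos q0 12)
    calc (R : ℝ) * Q ^ 12 * Q ^ 12 = R * Q ^ 24 := by ring
      _ ≤ 12 * H * N := hR1
      _ ≤ 12 * (Q ^ 12 * Y ^ 3) * N := by gcongr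
      _ = _ := by ring
  have hε : 8 * Y * R * δ ≤ 1 := by
    refine le_of_mul_le_mul_right ?_ (pow_pos q0 24)
    have h1 := h.qy (a := 16) (b := 17) (k := 2) (by norm_num) (by norm_num)
    calc 8 * Y * R * δ * Q ^ 24 = 8 * Y * δ * (R * Q ^ 24) := by ring
      _ ≤ 8 * Y * δ * (12 * H * N) := by gcongr
      _ = 96 * Y * (H * δ) * N := by ring
      _ ≤ 96 * Y * Y * Q ^ 16 := by gcongr; exact w.Hd h
      _ = 96 * (Q ^ 16 * Y ^ 2) := by ring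
      _ ≤ _ := by linarith [big 17 24 (by norm_num), pow_pos q0 17]
  have hM1 : 4 * Q ^ 48 / N ≤ M := Nat.le_ceil _
  have hM2 : (M : ℝ) * N ≤ 5 * Q ^ 48 := by
    have h1 : (M : ℝ) < 4 * Q ^ 48 / N + 1 := Nat.ceil_lt_add_one (by positivity)
    have h2 : (M : ℝ) * N ≤ (4 * Q ^ 48 / N + 1) * N := by gcongr
    rw [add_mul, div_mul_cancel₀ _ N0.ne'] at h2
    linarith [h.qpow (show 16 ≤ 48 by norm_num)]
  have M49 : (M : ℝ) ≤ Q ^ 49 := by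
    have : (M : ℝ) * 1 ≤ M * N := by gcongr
    linarith [big 48 49 (by norm_num), pow_pos q0 48]
  have hI : In S N (2 * N) := fun n hn => ⟨(hS n hn).1, (hS n hn).2.le⟩
  have hc2 : (Q ^ 24 / 2) ^ 2 ≤ c ^ 2 := by gcongr
  have hc3 : c ^ 2 ≤ (Q ^ 24) ^ 2 := by gcongr
  have k1 := hK (Q ^ 48) (50 * τ * Real.log Q) c (Dl Q Y) δ l Y N (8 * Y * R * δ) H M R S
    (h.pa w) h.sz N1 (by linarith [big 16 48 (by norm_num), pow_pos q0 16])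
    (by
      have h1 := h.qy (a := 16) (b := 17) (k := 3) (by norm_num) (by norm_num)
      rw [Dl, ← mul_div_assoc, le_div_iff₀ (by positivity)]
      calc 4 * N * Y * Y ^ 2 ≤ 4 * Q ^ 16 * Y * Y ^ 2 := by gcongr
        _ = 4 * (Q ^ 16 * Y ^ 3) := by ring
        _ ≤ Q ^ 24 / 2 * Q ^ 24 := by linarith [big 17 48 (by norm_num), pow_pos q0 17]
        _ ≤ _ := by gcongr)
    hI (by linarith [big 13 24 (by norm_num), pow_pos q0 13])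
    (by
      have h1 : Y ^ 4 ≤ Y ^ 100 := h.ymono (by norm_num)
      calc 2 * (H : ℝ) ≤ Y * (Q ^ 12 * Y ^ 3) := by gcongr; linarith
        _ = Q ^ 12 * Y ^ 4 := by ring
        _ ≤ Q ^ 12 * Y ^ 100 := by gcongr
        _ ≤ N := hN1)
    (le_trans (by gcongr; linarith) hM1)
    (M49.trans (by rw [← pow_mul]; exact h.qpow (by norm_num))) (Nat.lt_floor_add_one _).le
    (by
      refine le_of_mul_le_mul_right ?_ (pow_pos q0 24)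
      calc (R : ℝ) * Q ^ 24 ≤ 12 * H * N := hR1
        _ ≤ 12 * Q ^ 13 * Q ^ 16 := by gcongr
        _ ≤ _ := by linarith [big 29 72 (by norm_num), pow_pos q0 29])
    d0 (hdi.trans (h.qy (by norm_num) (by norm_num))) (w.Hlow h)
    (by linarith [mul_le_mul_of_nonneg_left y3 (mul_nonneg R0 d0.le), mul_nonneg R0 d0.le]) le_rfl hε
  have hn : √N ^ 2 = N := Real.sq_sqrt N0.le
  have n0 : 0 < √N := Real.sqrt_pos.2 N0
  have g0 : 0 ≤ 1 / (Q ^ 48) ^ 3 + (Q ^ 48) ^ 13 * gs (Y / 2) := by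
    have := gs_pos (Y / 2); positivity
  have k2 := tii_arith h (n := √N) (s := √(M : ℝ)) (H := H) (r := √(R : ℝ)) (R := R) (δ := δ)
    (Real.le_sqrt_of_sq_le (by linarith [show (Q ^ 6 * Y ^ 50) ^ 2 = Q ^ 12 * Y ^ 100 by ring]))
    (Real.sqrt_le_iff.2 ⟨by positivity, by
      rw [div_pow, le_div_iff₀ (by positivity), ← pow_mul, ← pow_mul]; exact hN2⟩)
    (Real.sqrt_le_iff.2 ⟨by positivity, by
      rw [div_pow, hn, le_div_iff₀ N0]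
      linarith [show (3 * Q ^ 24) ^ 2 = 9 * Q ^ 48 by ring, pow_pos q0 48]⟩)
    H0 hH (Real.sqrt_nonneg _)
    (Real.sqrt_le_iff.2 ⟨by positivity, hR2.trans (by
      rw [div_pow, mul_pow, hn, ← pow_mul]
      gcongr
      linarith [mul_le_mul_of_nonneg_left y3 (pow_pos y0 3).le, pow_pos y0 3])⟩)
    R0 (by rwa [hn]) d0 hdi g0
    (((le_ngl (by linarith [h.sz.z]) Y (by norm_num) (by norm_num)).trans h.ngl_le).trans
      (by norm_num))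
  rw [hn, ← Dl] at k2
  have hC := h.ctau (a := 5) hY (by norm_num)
  have hcard := hI.card_le N0 (by positivity)
  have e0 : (0 : ℝ) < 1 / Q ^ 1000 := by positivity
  have k3 : ∑ n1 ∈ S, ∑ n2 ∈ S, |CC Q (wt Q Y c δ l) N n1 n2| ≤
      ∑ n1 ∈ S, ∑ n2 ∈ S, |CR (wr c (Dl Q Y) δ l H) M n1 n2| +
        S.card * (S.card * (M * (√(M : ℝ) * (3 * Q ^ 13 * (1 / Q ^ 1000))))) := by
    rw [← nsmul_eq_mul, ← sum_const, ← sum_add_distrib]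
    refine sum_le_sum fun n1 _ => ?_
    rw [← nsmul_eq_mul, ← sum_const, ← sum_add_distrib]
    exact sum_le_sum fun n2 _ => tii_cmp
      (((div_le_one (by positivity)).2 (one_le_pow₀ q1)).trans (one_le_pow₀ q1))
      (fun k => (hTR Q Y τ c δ l k h w).1) (fun k => (hTR Q Y τ c δ l k h w).2) M n1 n2
  have k4 : √(M : ℝ) * (S.card * (S.card * (M * (√(M : ℝ) * (3 * Q ^ 13 * (1 / Q ^ 1000)))))) ≤
      1 := by
    calc _ = S.card * S.card * M * (√(M : ℝ) * √(M : ℝ)) * (3 * Q ^ 13 * (1 / Q ^ 1000)) := by ring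
      _ ≤ 2 * Q ^ 16 * (2 * Q ^ 16) * Q ^ 49 * Q ^ 49 * (3 * Q ^ 13 * (1 / Q ^ 1000)) := by
        rw [Real.mul_self_sqrt (Nat.cast_nonneg _)]
        gcongr <;> linarith
      _ = 12 * Q ^ 143 / Q ^ 1000 := by ring
      _ ≤ 1 := (div_le_one (by positivity)).2
        (by linarith [big 143 1000 (by norm_num), pow_pos q0 143])
  have s0 : 0 ≤ √(M : ℝ) := Real.sqrt_nonneg _
  have w1 : 1 ≤ Q ^ 48 / Y ^ 90 := by simpa using tii_w0 h (a := 0) (by norm_num)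
  have k5 := mul_le_mul_of_nonneg_left (k3.trans (add_le_add_left k1 _)) s0
  rw [mul_add, mul_left_comm] at k5
  have k6 := mul_le_mul hC k2 (by have := h.Dl_pos; positivity) y0.le
  have k7 : Y * (401 * (Q ^ 48 / Y ^ 90)) ≤ (Q ^ 24 / Y ^ 30) ^ 2 := by
    have e : (Q ^ 24 / Y ^ 30) ^ 2 = Y * (Y ^ 29 * (Q ^ 48 / Y ^ 90)) := by field_simp
    have : Y ^ 1 ≤ Y ^ 29 := h.ymono (by norm_num)
    rw [e]
    gcongr
    linarith [pow_one Y]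
  linarith [mul_le_mul h.y1 w1 zero_le_one y0.le]

end Pool.Agent.P.MP_8be758_nt.Sq
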