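import Pool.Agent.P.MP_8be758_nt.Sq.IfaceA

/-! Step TJ0. -/

set_option autoImplicit false
set_option linter.unusedSectionVars false

namespace Pool.Agent.P.MP_8be758_nt.Sq

open Finset Real Filter Topology
open Pool.Agent.P.MP_e86632_nt (ee nn norm_ee ee_add ee_neg)
open Pool.Agent.P.MP_8be758_nt.Avg (gs gs_pos gs_anti gs_le_one gs_neg)

theorem tj0_piece (a b j : ℕ) : (Ioc a b).filter (fun v => Nat.log 2 v = j) =
    Ioc (max a (2 ^ j - 1)) (min b (2 ^ (j + 1) - 1)) := by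
  ext v
  have h1 : 0 < 2 ^ j := by positivity
  have h2 : 0 < 2 ^ (j + 1) := by positivity
  rw [mem_filter, mem_Ioc, mem_Ioc, max_lt_iff, le_min_iff]
  constructor
  · rintro ⟨h, e⟩
    have := (Nat.log_eq_iff (Or.inr ⟨one_lt_two, show v ≠ 0 by omega⟩)).1 e
    omega
  · intro h
    exact ⟨⟨h.1.1, h.2.1⟩, Nat.log_eq_of_pow_le_of_lt_pow (by omega) (by omega)⟩

theorem tj0_pow {m i : ℕ} (hm : m ≠ 0) (hi : i ∈ range (Nat.log 2 m + 1)) : (2 : ℝ) ^ i ≤ m := by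
  exact_mod_cast (Nat.pow_le_pow_right two_pos (Nat.lt_succ_iff.1 (mem_range.1 hi))).trans
    (Nat.pow_log_le_self 2 hm)

theorem tj0_sum {n : ℕ} {f : ℕ → ℂ} {B τ : ℝ} (hB : 0 ≤ B) (hn : (n : ℝ) ≤ 2 * τ)
    (h : ∀ i ∈ range n, ‖f i‖ ≤ B) : ‖∑ i ∈ range n, f i‖ ≤ 2 * τ * B := by
  refine (norm_sum_le_of_le _ h).trans ?_
  rw [sum_const, card_range, nsmul_eq_mul]
  exact mul_le_mul_of_nonneg_right hn hB

theorem p_TJ0 (hT2C : S_T2C) :
    S_TJ0 := by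
  obtain ⟨C, hC, hT⟩ := hT2C
  refine ⟨16 * C, by positivity,
    fun Z τ c Δ δ l T G H R0 V0 n1 a b hP hS hRV hH hG hG' hb hn1 hn2 => ?_⟩
  have c0 := hP.cpos
  have t0 : 0 < τ := by linarith [hS.t1]
  have g0 := ngl_pos (show 0 < Z by linarith [hP.z]) T
  obtain ⟨X, hX⟩ : ∃ X, X = G * (√(c * H) + R0 * H * √(H : ℝ) / √c +
    √(H : ℝ) * (R0 * V0) / (c * √c)) + ngl Z T := ⟨_, rfl⟩
  have X0 : 0 ≤ X := by rw [hX]; positivity
  rw [← hX]
  rcases eq_or_ne R0 0 with rfl | r0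
  · simp only [zero_lt_one, Icc_eq_empty_of_lt, sum_empty]; positivity
  rcases eq_or_ne V0 0 with rfl | v0
  · simp only [Nat.le_zero.1 (hb _), zero_le, Ioc_eq_empty_of_le, sum_empty, abs_zero,
      sum_const_zero]
    positivity
  rcases eq_or_ne H 0 with rfl | h0
  · simp only [wr_eq, BW, zero_lt_one, Icc_eq_empty_of_lt, sum_empty, mul_zero, Complex.zero_re,
      sum_const_zero, abs_zero]
    positivity
  have r1 : (1 : ℝ) ≤ R0 := by exact_mod_cast Nat.pos_of_ne_zero r0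
  have v1 : (1 : ℝ) ≤ V0 := by exact_mod_cast Nat.pos_of_ne_zero v0
  have h1 : (1 : ℝ) ≤ H := by exact_mod_cast Nat.pos_of_ne_zero h0
  choose α hα using fun r : ℕ => show ∃ e : ℝ, ‖(e : ℂ)‖ ≤ 1 ∧
      |∑ v ∈ Ioc (a r) (b r), ∑ j ∈ Icc 1 n1, wr c Δ δ l H (r * v * j)| =
        e * ∑ v ∈ Ioc (a r) (b r), ∑ j ∈ Icc 1 n1, wr c Δ δ l H (r * v * j) from
    (abs_choice _).elim (fun h => ⟨1, by simp, by rw [h, one_mul]⟩)
      fun h => ⟨-1, by simp, by rw [h, neg_one_mul]⟩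
  have e1 : ∑ r ∈ Icc 1 R0, |∑ v ∈ Ioc (a r) (b r), ∑ j ∈ Icc 1 n1, wr c Δ δ l H (r * v * j)| =
      2 * (∑ r ∈ Icc 1 R0, (α r : ℂ) * ∑ v ∈ Ioc (a r) (b r), ∑ j ∈ Icc 1 n1,
        BW c Δ (Icc 1 H) (cf δ l) (r * v * j)).re := by
    rw [Complex.re_sum, mul_sum]
    refine sum_congr rfl fun r _ => ?_
    rw [(hα r).2, Complex.re_ofReal_mul, mul_left_comm]
    simp only [wr_eq, Complex.re_sum, mul_sum]
  have e2 : ∑ r ∈ Icc 1 R0, (α r : ℂ) * ∑ v ∈ Ioc (a r) (b r), ∑ j ∈ Icc 1 n1,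
        BW c Δ (Icc 1 H) (cf δ l) (r * v * j) =
      ∑ i ∈ range (Nat.log 2 R0 + 1), ∑ m ∈ range (Nat.log 2 V0 + 1),
        ∑ k ∈ range (Nat.log 2 H + 1), ∑ r ∈ (Icc 1 R0).filter (fun x => Nat.log 2 x = i),
          (α r : ℂ) * ∑ v ∈ Ioc (max (a r) (2 ^ m - 1)) (min (b r) (2 ^ (m + 1) - 1)),
            ∑ j ∈ Icc 1 n1,
              BW c Δ ((Icc 1 H).filter fun x => Nat.log 2 x = k) (cf δ l) (r * v * j) := by
    rw [sum_dyadic _ R0 fun x hx => (mem_Icc.1 hx).2]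
    refine sum_congr rfl fun i _ => ?_
    simp only [sum_comm (s := range (Nat.log 2 H + 1)), sum_comm (s := range (Nat.log 2 V0 + 1))
      (t := (Icc 1 R0).filter _), ← mul_sum]
    refine sum_congr rfl fun r _ => ?_
    rw [sum_dyadic (Ioc (a r) (b r)) V0 fun x hx => (mem_Ioc.1 hx).2.trans (hb r)]
    simp only [tj0_piece, BW_sum c Δ _ (Icc 1 H) _ (cf δ l)
      (sum_dyadic _ H fun x hx => (mem_Icc.1 hx).2)]
  have e3 : 16 * C * τ ^ 5 * X = 2 * (2 * τ * (2 * τ * (2 * τ * (C * τ ^ 2 * X)))) := by ring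
  rw [e1, e2, e3]
  refine mul_le_mul_of_nonneg_left ((Complex.re_le_norm _).trans ?_) two_pos.le
  refine tj0_sum (by positivity) (hS.log2 (by nlinarith [hP.cz])) fun i hi =>
    tj0_sum (by positivity) (hS.log2 (by nlinarith [hP.cz])) fun m hm =>
      tj0_sum (by positivity) (hS.log2 (by linarith [hP.cZ])) fun k hk => ?_
  have a1 := tj0_pow r0 hi
  have a2 := tj0_pow v0 hm
  have a3 := tj0_pow h0 hk
  refine (hT Z τ c Δ T G (2 ^ i) (2 ^ m) (2 ^ k) n1 _ _ _ _ (fun r => α r) _ hP hS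
    (one_le_pow₀ one_le_two) (one_le_pow₀ one_le_two) (le_trans (by gcongr) hRV)
    (one_le_pow₀ one_le_two) (by linarith) hG hG' (In.dyadic _ (fun x hx => (mem_Icc.1 hx).1) i)
    (fun r => tj0_piece (a r) (b r) m ▸
      In.dyadic _ (fun x hx => Nat.one_le_of_lt (mem_Ioc.1 hx).1) m)
    (In.dyadic _ (fun x hx => (mem_Icc.1 hx).1) k) (fun r => (hα r).1) (norm_cf_le δ l) hn1
    hn2).trans ?_
  rw [hX]
  gcongr

end Pool.Agent.P.MP_8be758_nt.Sq
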