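import Pool.Agent.P.MP_8be758_nt.Sq.IfaceA

/-! Step TK0. -/

set_option autoImplicit false
set_option linter.unusedSectionVars false

namespace Pool.Agent.P.MP_8be758_nt.Sq

open Finset Real Filter Topology
open Pool.Agent.P.MP_e86632_nt (ee nn norm_ee ee_add ee_neg)
open Pool.Agent.P.MP_8be758_nt.Avg (gs gs_pos gs_anti gs_le_one gs_neg)

theorem tk0_sum (S : Finset ℕ) (a b : ℕ → ℕ → ℝ) (C u v w x δ e : ℝ) :
    ∑ n1 ∈ S, ∑ n2 ∈ S, C * (u * (v * a n1 n2 + w + x * ((1 + b n1 n2) / δ)) + e) =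
      C * (u * v * (∑ n1 ∈ S, ∑ n2 ∈ S, a n1 n2) + u * (S.card : ℝ) ^ 2 * w +
        u * x * (((S.card : ℝ) ^ 2 + ∑ n1 ∈ S, ∑ n2 ∈ S, b n1 n2) / δ) + (S.card : ℝ) ^ 2 * e) := by
  have h : ∀ n1 n2, C * (u * (v * a n1 n2 + w + x * ((1 + b n1 n2) / δ)) + e) =
      C * u * v * a n1 n2 + C * u * x / δ * b n1 n2 + C * (u * w + u * x / δ + e) := by
    intro n1 n2; ring
  simp only [h, sum_add_distrib, ← mul_sum, sum_const, nsmul_eq_mul]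
  ring

theorem tk0_fin {a b y1 y2 y3 y4 r1 r2 r3 r4 : ℝ} (ha : 0 ≤ a) (hb : 0 ≤ b) (h1 : 0 ≤ y1)
    (h2 : 0 ≤ y2) (h3 : 0 ≤ y3) (h4 : 0 ≤ y4) (b1 : r1 ≤ 6 * a * y1) (b2 : r2 ≤ 4 * y2)
    (b3 : r3 ≤ (b + 4) * y3) (b4 : r4 ≤ y4) :
    r1 + r2 + r3 + r4 ≤ (6 * a + b + 4) * (y1 + y2 + y3 + y4) := by
  nlinarith [mul_nonneg ha h1, mul_nonneg ha h2, mul_nonneg ha h3, mul_nonneg ha h4,
    mul_nonneg hb h1, mul_nonneg hb h2, mul_nonneg hb h3, mul_nonneg hb h4]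

theorem p_TK0 (hQ3 : S_Q3) (hDG2 : S_DG2) (hBC2 : S_BC2) :
    S_TK0 := by
  obtain ⟨C3, c3, hQ⟩ := hQ3
  obtain ⟨CD, cD, hD⟩ := hDG2
  obtain ⟨CB, cB, hB⟩ := hBC2
  refine ⟨C3 * (6 * CD + CB + 4), by positivity, ?_⟩
  intro Z τ c Δ δ l T N ε H M R0 S hP hS n1 a1 a2 hI a3 a4 a5 a6 a7 a8 d0 a9 a10 a11 a12 a13
  have np : 0 < N := by linarith
  have dp := hP.dpos
  have tp : 0 < T := by linarith [hP.t]
  have zp : 0 < Z := by linarith [hP.z]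
  have hH : (0 : ℝ) ≤ H := Nat.cast_nonneg _
  have hR : (0 : ℝ) ≤ R0 := Nat.cast_nonneg _
  have nZ : 2 * N ≤ Z := by linarith [hP.cz]
  have e0 : 0 ≤ ε := le_trans (by positivity) a12
  have t1 := hS.t1
  have sq : 0 < √N := Real.sqrt_pos.2 np
  have g0 := gs_pos (T / 2)
  have s1 : (S.card : ℝ) ≤ 2 * N := hI.card_le np (by linarith)
  have s0 : (0 : ℝ) ≤ S.card := Nat.cast_nonneg _
  have s2 : (S.card : ℝ) ^ 2 ≤ 4 * N ^ 2 := by nlinarith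
  have s3 : (S.card : ℝ) ^ 2 ≤ Z ^ 2 := pow_le_pow_left₀ s0 (s1.trans nZ) 2
  have bD := hD Z τ N (6 * T * H * N / Δ) H S hS n1 nZ (by linarith) (by positivity) hI
  have bB := hB Z τ N ε H S hS n1 nZ a4 e0 a13 hI
  refine (sum_le_sum fun m1 h1 => sum_le_sum fun m2 h2 =>
    hQ Z τ c Δ δ l T N ε H M R0 m1 m2 hP hS n1 a1 a2 (hI m1 h1).1 (hI m1 h1).2 (hI m2 h2).1
      (hI m2 h2).2 a3 a5 a6 a7 a8 d0 a9 a10 a11 a12).trans ?_
  rw [tk0_sum S (fun m1 m2 => (DN H (6 * T * H * N / Δ) m1 m2 : ℝ))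
    (fun m1 m2 => (BN H ε (2 * √((m1 : ℝ) * m2)) : ℝ)), mul_assoc C3, mul_assoc C3]
  refine mul_le_mul_of_nonneg_left ?_ c3.le
  generalize (∑ n1 ∈ S, ∑ n2 ∈ S, (DN H (6 * T * H * N / Δ) n1 n2 : ℝ)) = A at bD ⊢
  generalize (∑ n1 ∈ S, ∑ n2 ∈ S, (BN H ε (2 * √((n1 : ℝ) * n2)) : ℝ)) = B at bB ⊢
  generalize (S.card : ℝ) ^ 2 = s at s2 s3 ⊢
  have p5 : 1 ≤ τ ^ 5 := one_le_pow₀ t1
  have p15 : τ ≤ τ ^ 5 := by simpa using pow_le_pow_right₀ t1 (show 1 ≤ 5 by norm_num)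
  have p25 : τ ^ 2 ≤ τ ^ 5 := pow_le_pow_right₀ t1 (by norm_num)
  set X1 := (Δ * H + T * H * N + T * (H : ℝ) ^ 3) / √N with hX1
  set X2 := N * H * √(R0 : ℝ) with hX2
  set X3 := (N + H + N * H * ε) / δ with hX3
  set X4 := 1 / Z ^ 3 + Z ^ 13 * gs (T / 2) with hX4
  have x1 : 0 ≤ X1 := by positivity
  have x2 : 0 ≤ X2 := by positivity
  have x3 : 0 ≤ X3 := by positivity
  have x4 : 0 ≤ X4 := by positivity
  have b1 : 1 / N * (Δ / √N) * A ≤ 6 * CD * (τ ^ 5 * X1) := by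
    have u1 := mul_le_mul_of_nonneg_left bD (by positivity : 0 ≤ 1 / N * (Δ / √N))
    have u2 : 1 / N * (Δ / √N) * (CD * τ * (N * H + 6 * T * H * N / Δ * N +
        6 * T * H * N / Δ * (H : ℝ) ^ 2)) =
        CD * (τ * ((Δ * H + 6 * (T * H * N) + 6 * (T * (H : ℝ) ^ 3)) / √N)) := by
      field_simp
    have u3 : (Δ * H + 6 * (T * H * N) + 6 * (T * (H : ℝ) ^ 3)) / √N ≤ 6 * X1 := by
      rw [hX1, ← mul_div_assoc]
      refine div_le_div_of_nonneg_right ?_ sq.le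
      have : 0 ≤ Δ * H := by positivity
      linarith
    have u4 : τ * ((Δ * H + 6 * (T * H * N) + 6 * (T * (H : ℝ) ^ 3)) / √N) ≤ τ ^ 5 * (6 * X1) :=
      mul_le_mul p15 u3 (by positivity) (by positivity)
    have u5 := mul_le_mul_of_nonneg_left u4 cD.le
    linarith
  have b2 : 1 / N * s * (H * √(R0 : ℝ)) ≤ 4 * (τ ^ 5 * X2) := by
    have u1 : 1 / N * s ≤ 4 * N := by
      rw [one_div_mul_eq_div, div_le_iff₀ np]; linarith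
    have u2 := mul_le_mul_of_nonneg_right u1 (by positivity : 0 ≤ H * √(R0 : ℝ))
    have u3 := mul_le_mul_of_nonneg_right p5 x2
    have u4 : 4 * N * (H * √(R0 : ℝ)) = 4 * X2 := by rw [hX2]; ring
    linarith
  have b3 : 1 / N * τ ^ 2 * ((s + B) / δ) ≤ (CB + 4) * (τ ^ 5 * X3) := by
    have u1 : 1 / N * τ ^ 2 * ((s + B) / δ) = τ ^ 2 * (s + B) / N / δ := by field_simp
    have u2 : (CB + 4) * (τ ^ 5 * X3) = (CB + 4) * (τ ^ 5 * (N + H + N * H * ε)) / δ := by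
      rw [hX3]; field_simp
    rw [u1, u2]
    refine div_le_div_of_nonneg_right ?_ d0.le
    rw [div_le_iff₀ np]
    have v1 : τ ^ 2 * s ≤ τ ^ 5 * (4 * N ^ 2) :=
      (mul_le_mul_of_nonneg_left s2 (by positivity)).trans
        (mul_le_mul_of_nonneg_right p25 (by positivity))
    have v2 := mul_le_mul_of_nonneg_left bB (by positivity : 0 ≤ τ ^ 2)
    have v3 : 0 ≤ CB * (τ ^ 5 * N ^ 2) := by positivity
    have v4 : 0 ≤ τ ^ 5 * (N * H) := by positivity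
    have v5 : 0 ≤ τ ^ 5 * (N ^ 2 * H * ε) := by positivity
    have v6 : (CB + 4) * (τ ^ 5 * (N + H + N * H * ε)) * N =
        τ ^ 2 * (CB * τ ^ 3 * (N * H + N ^ 2 * H * ε)) + τ ^ 5 * (4 * N ^ 2) +
          CB * (τ ^ 5 * N ^ 2) + 4 * (τ ^ 5 * (N * H)) + 4 * (τ ^ 5 * (N ^ 2 * H * ε)) := by ring
    rw [v6, mul_add (τ ^ 2) s B]
    linarith
  have b4 : s * (1 / Z ^ 5 + Z ^ 11 * gs (T / 2)) ≤ τ ^ 5 * X4 := by
    have u1 := mul_le_mul_of_nonneg_right s3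
      (by positivity : 0 ≤ 1 / Z ^ 5 + Z ^ 11 * gs (T / 2))
    have u2 : Z ^ 2 * (1 / Z ^ 5 + Z ^ 11 * gs (T / 2)) = X4 := by rw [hX4]; field_simp
    have u3 := mul_le_mul_of_nonneg_right p5 x4
    linarith
  have y1 : 0 ≤ τ ^ 5 * X1 := by positivity
  have y2 : 0 ≤ τ ^ 5 * X2 := by positivity
  have y3 : 0 ≤ τ ^ 5 * X3 := by positivity
  have y4 : 0 ≤ τ ^ 5 * X4 := by positivity
  have e : (6 * CD + CB + 4) * τ ^ 5 * (X1 + X2 + X3 + X4) = (6 * CD + CB + 4) *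
      (τ ^ 5 * X1 + τ ^ 5 * X2 + τ ^ 5 * X3 + τ ^ 5 * X4) := by ring
  rw [e]
  exact tk0_fin cD.le cB.le y1 y2 y3 y4 b1 b2 b3 b4

end Pool.Agent.P.MP_8be758_nt.Sq
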