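import Pool.Agent.P.MP_8be758_nt.Sq.IfaceA

/-! Step TR. -/

set_option autoImplicit false
set_option linter.unusedSectionVars false

namespace Pool.Agent.P.MP_8be758_nt.Sq

open Finset Real Filter Topology
open Pool.Agent.P.MP_e86632_nt (ee nn norm_ee ee_add ee_neg)
open Pool.Agent.P.MP_8be758_nt.Avg (gs gs_pos gs_anti gs_le_one gs_neg)

theorem tr_comb {δ T : ℝ} (h0 : 0 < δ) (h1 : δ ≤ 1) (hT : 0 ≤ T) {H : ℕ} (hH : T ≤ δ * (H + 1))
    (l y : ℝ) : ‖((comb δ l y - 1 : ℝ) : ℂ) -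
      ∑ h ∈ Hz H, (gs (δ * h) : ℂ) * ee (h * (y - l))‖ ≤ 10 / δ * gs (T / 2) := by
  obtain ⟨s1, s2⟩ := Avg.t_GS1 δ (y - l) 0 h0
  simp only [sub_zero, mul_zero] at s1 s2
  have e0 : ee 0 = 1 := by simp [ee]
  have hn : ∀ b : ℤ, ‖ee ((y - l) * b) * (gs (δ * b) : ℂ)‖ = gs (δ * b) := fun b => by
    rw [norm_mul, norm_ee, one_mul, Complex.norm_real, Real.norm_of_nonneg (gs_pos _).le]
  have s3 : Summable fun b : ℤ => ee ((y - l) * b) * (gs (δ * b) : ℂ) :=
    .of_norm (by simpa only [hn] using s1)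
  have s4 := s3.sum_add_tsum_compl (s := insert 0 (Hz H))
  have s5 : ((comb δ l y : ℝ) : ℂ) = ∑' b : ℤ, ee ((y - l) * b) * (gs (δ * b) : ℂ) := by
    rw [s2, comb, Complex.ofReal_mul, Complex.ofReal_tsum]
    congr 1
    exact tsum_congr fun m => by rw [e0, mul_one, one_div_mul_eq_div]
  rw [sum_insert (by simp [mem_Hz])] at s4
  have s6 := s1.subtype fun x => x ∈ ((insert 0 (Hz H) : Finset ℤ) : Set ℤ)ᶜ
  rw [Complex.ofReal_sub, s5, ← s4, sum_congr rfl fun (h : ℤ) _ => show (gs (δ * h) : ℂ) *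
    ee (h * (y - l)) = ee ((y - l) * h) * (gs (δ * h) : ℂ) by rw [mul_comm, mul_comm (h : ℝ)]]
  simp only [Int.cast_zero, mul_zero, e0, show gs 0 = 1 by simp [gs], Complex.ofReal_one, mul_one]
  rw [add_assoc, add_sub_cancel_left, add_sub_cancel_left]
  refine (tsum_of_norm_bounded s6.hasSum fun x => (hn x).le).trans
    (s6.tsum_le_of_sum_le fun u => ?_)
  refine le_trans (le_of_eq ?_) (gs_sum_tail h0 h1 hT (u.map (Function.Embedding.subtype _))
    fun h hh => hH.trans (mul_le_mul_of_nonneg_left ?_ h0.le))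
  · rw [sum_map]; rfl
  · obtain ⟨⟨x, hx⟩, -, rfl⟩ := mem_map.1 hh
    have : (H : ℤ) + 1 ≤ |x| := by
      simp only [coe_insert, Set.mem_compl_iff, Set.mem_insert_iff, mem_coe, mem_Hz] at hx
      by_contra h
      exact hx (or_iff_not_imp_left.2 fun h' => ⟨h', by omega⟩)
    exact_mod_cast this

theorem p_TR :
    S_TR := by
  intro Q Y τ c δ l k h w
  have q0 := h.qpos
  have y0 := h.y0
  have b0 := bb_nonneg c (Dl Q Y) k
  have h1 : |wr c (Dl Q Y) δ l (Hn Y δ) k| ≤ bb c (Dl Q Y) k * Q ^ 13 := by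
    refine (Complex.abs_re_le_norm _).trans ?_
    rw [wc, norm_mul, Complex.norm_real, Real.norm_of_nonneg b0]
    refine mul_le_mul_of_nonneg_left ((norm_sum_le _ _).trans
      ((sum_le_card_nsmul _ _ 1 fun x _ => ?_).trans ?_)) b0
    · rw [norm_mul, norm_ee, mul_one, Complex.norm_real, Real.norm_of_nonneg (gs_pos _).le]
      exact gs_le_one _
    · have a1 := w.Hle h
      have a2 := h.qy (a := 12) (b := 13) (k := 4) (by norm_num) (by norm_num)
      rw [card_Hz, nsmul_eq_mul, mul_one]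
      push_cast
      nlinarith [mul_pos (pow_pos q0 12) (pow_pos h.ypos 3)]
  refine ⟨?_, h1.trans (mul_le_of_le_one_left (by positivity) (bb_le_one _ _ _))⟩
  have h2 : ∀ a : ℕ, a ≤ 1000 → 1 / Q ^ 2000 * Q ^ a ≤ 1 / Q ^ 1000 := fun a ha => by
    rw [one_div_mul_eq_div, div_le_div_iff₀ (by positivity) (by positivity), one_mul, ← pow_add]
    exact h.qpow (by omega)
  by_cases hk : InW Q k
  · have h3 := tr_comb (w.dpos h) (by linarith [w.dle h]) h.ypos.le (w.Hlow h) l √(k : ℝ)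
    have e : wt Q Y c δ l k = bb c (Dl Q Y) k * (comb δ l √(k : ℝ) - 1) := by
      rw [wt, aa, bt, if_pos hk, mul_sub, mul_one]; rfl
    rw [← Real.norm_eq_abs, ← Complex.norm_real, Complex.ofReal_sub, wr_cast, e, wc,
      Complex.ofReal_mul, ← mul_sub, norm_mul, Complex.norm_real, Real.norm_of_nonneg b0]
    refine (mul_le_of_le_one_left (norm_nonneg _) (bb_le_one _ _ _)).trans (h3.trans
      (le_trans ?_ (h2 13 (by norm_num))))
    rw [mul_comm]
    refine mul_le_mul (h.neg (by linarith)) ?_ (by have := w.dpos h; positivity) (by positivity)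
    have a1 := w.dinv h
    have a2 := h.qy (a := 12) (b := 13) (k := 3) (by norm_num) (by norm_num)
    rw [div_eq_mul_one_div]
    nlinarith [mul_pos (pow_pos q0 12) (pow_pos h.ypos 2)]
  · rw [wt, aa, bt, if_neg hk, zero_mul, sub_zero, zero_sub, abs_neg]
    refine h1.trans (le_trans (mul_le_mul_of_nonneg_right ((bb_le_gs _ _ _).trans
      ((gs_le_of_abs h.ypos.le ?_).trans (h.neg (by linarith)))) (by positivity))
      (h2 13 (by norm_num)))
    have e : Y * Dl Q Y = Q ^ 24 / Y := by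
      have := h.ypos.ne'
      unfold Dl; field_simp
    rw [abs_div, abs_of_pos h.Dl_pos, le_div_iff₀ h.Dl_pos, e, le_abs]
    rcases not_and_or.1 hk with hk | hk
    · have : √(k : ℝ) ≤ 199 / 200 * Q ^ 24 := Real.sqrt_le_iff.2
        ⟨by positivity, (not_lt.1 hk).trans_eq (by ring)⟩
      exact Or.inr (by linarith [w.c1])
    · have : Q ^ 24 ≤ √(k : ℝ) := Real.le_sqrt_of_sq_le (le_trans (le_of_eq (by ring))
        (not_le.1 hk).le)
      exact Or.inl (by linarith [w.c2])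

end Pool.Agent.P.MP_8be758_nt.Sq
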