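import Pool.Agent.P.MP_8be758_nt.Sq.TGIa
import Pool.Agent.P.MP_8be758_nt.Sq.TGIb
import Pool.Agent.P.MP_8be758_nt.Sq.TGP1
import Pool.Agent.P.MP_8be758_nt.Sq.TGP2
import Pool.Agent.P.MP_8be758_nt.Sq.TPF1
import Pool.Agent.P.MP_8be758_nt.Sq.TPF
import Pool.Agent.P.MP_8be758_nt.Sq.TTR
import Pool.Agent.P.MP_8be758_nt.Sq.TLSG
import Pool.Agent.P.MP_8be758_nt.Sq.TRT
import Pool.Agent.P.MP_8be758_nt.Sq.TPR0
import Pool.Agent.P.MP_8be758_nt.Sq.TPRa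
import Pool.Agent.P.MP_8be758_nt.Sq.TPRb
import Pool.Agent.P.MP_8be758_nt.Sq.TPR1
import Pool.Agent.P.MP_8be758_nt.Sq.TPR
import Pool.Agent.P.MP_8be758_nt.Sq.TT1B
import Pool.Agent.P.MP_8be758_nt.Sq.TT1C
import Pool.Agent.P.MP_8be758_nt.Sq.TTI0
import Pool.Agent.P.MP_8be758_nt.Sq.TTI
import Pool.Agent.P.MP_8be758_nt.Sq.TGEO
import Pool.Agent.P.MP_8be758_nt.Sq.TMQ
import Pool.Agent.P.MP_8be758_nt.Sq.TT2B
import Pool.Agent.P.MP_8be758_nt.Sq.TT2C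
import Pool.Agent.P.MP_8be758_nt.Sq.TTJ0
import Pool.Agent.P.MP_8be758_nt.Sq.TTI2
import Pool.Agent.P.MP_8be758_nt.Sq.TGAU
import Pool.Agent.P.MP_8be758_nt.Sq.TGAW
import Pool.Agent.P.MP_8be758_nt.Sq.TBC0
import Pool.Agent.P.MP_8be758_nt.Sq.TBC1
import Pool.Agent.P.MP_8be758_nt.Sq.TBC2
import Pool.Agent.P.MP_8be758_nt.Sq.TDG1
import Pool.Agent.P.MP_8be758_nt.Sq.TDG2
import Pool.Agent.P.MP_8be758_nt.Sq.TGC
import Pool.Agent.P.MP_8be758_nt.Sq.TQ1a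
import Pool.Agent.P.MP_8be758_nt.Sq.TQ1
import Pool.Agent.P.MP_8be758_nt.Sq.TQ0
import Pool.Agent.P.MP_8be758_nt.Sq.TQ2
import Pool.Agent.P.MP_8be758_nt.Sq.TQ3
import Pool.Agent.P.MP_8be758_nt.Sq.TTK0
import Pool.Agent.P.MP_8be758_nt.Sq.TTII

/-! Assembly of the analytic part. -/

set_option autoImplicit false

namespace Pool.Agent.P.MP_8be758_nt.Sq

theorem a_GIa : S_GIa := p_GIa

theorem a_GIb : S_GIb := p_GIb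

theorem a_GP1 : S_GP1 := p_GP1

theorem a_GP2 : S_GP2 := p_GP2 a_GIa a_GP1

theorem a_PF1 : S_PF1 := p_PF1 a_GIb a_GP2

theorem a_PF : S_PF := p_PF a_PF1

theorem a_TR : S_TR := p_TR

theorem a_LSG : S_LSG := p_LSG

theorem a_RT : S_RT := p_RT

theorem a_PR0 : S_PR0 := p_PR0

theorem a_PRa : S_PRa := p_PRa a_RT

theorem a_PRb : S_PRb := p_PRb

theorem a_PR1 : S_PR1 := p_PR1 a_PRa a_PRb

theorem a_PR : S_PR := p_PR a_PR0 a_PR1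

theorem a_T1B : S_T1B := p_T1B a_LSG a_PR

theorem a_T1C : S_T1C := p_T1C a_PF a_T1B

theorem a_TI0 : S_TI0 := p_TI0 a_T1C

theorem a_TI : S_TI := p_TI a_TI0 a_TR

theorem a_GEO : S_GEO := p_GEO

theorem a_MQ : S_MQ := p_MQ

theorem a_T2B : S_T2B := p_T2B a_GEO a_MQ

theorem a_T2C : S_T2C := p_T2C a_PF a_T2B

theorem a_TJ0 : S_TJ0 := p_TJ0 a_T2C

theorem a_TI2 : S_TI2 := p_TI2 a_TJ0 a_TR

theorem a_GAU : S_GAU := p_GAU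

theorem a_GAW : S_GAW := p_GAW a_GAU

theorem a_BC0 : S_BC0 := p_BC0

theorem a_BC1 : S_BC1 := p_BC1 a_RT

theorem a_BC2 : S_BC2 := p_BC2 a_BC1

theorem a_DG1 : S_DG1 := p_DG1

theorem a_DG2 : S_DG2 := p_DG2 a_DG1

theorem a_GC : S_GC := p_GC

theorem a_Q1a : S_Q1a := p_Q1a a_GP2

theorem a_Q1 : S_Q1 := p_Q1 a_Q1a

theorem a_Q0 : S_Q0 := p_Q0 a_GIa

theorem a_Q2 : S_Q2 := p_Q2 a_GIb a_GAW a_BC0

theorem a_Q3 : S_Q3 := p_Q3 a_Q0 a_Q1 a_Q2 a_GC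

theorem a_TK0 : S_TK0 := p_TK0 a_Q3 a_DG2 a_BC2

theorem a_TII : S_TII := p_TII a_TK0 a_TR

end Pool.Agent.P.MP_8be758_nt.Sq
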