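import Pool.Agent.P.MP_8be758_nt.Sq.BaseDefs

/-! Small facts shared by all steps. -/

set_option autoImplicit false

namespace Pool.Agent.P.MP_8be758_nt.Sq

open Finset Real Filter Topology ArithmeticFunction
open Pool.Agent.P.MP_e86632_nt (ee nn)
open Pool.Agent.P.MP_8be758_nt.Avg (gs Rough gs_pos gs_anti gs_le_one t_GS2 gs_summable)

section Size

variable {Q Y τ c δ : ℝ}

theorem St.y1 (h : St Q Y τ) : 1 ≤ Y := by linarith [h.y0]

theorem St.ypos (h : St Q Y τ) : 0 < Y := by linarith [h.y0]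

/-- every power of `Y` up to the exponent 1000 is at most `Q` -/
theorem St.ypow (h : St Q Y τ) {k : ℕ} (hk : k ≤ 1000) : Y ^ k ≤ Q :=
  (pow_le_pow_right₀ h.y1 hk).trans h.q1

theorem St.yq (h : St Q Y τ) : Y ≤ Q := by simpa using h.ypow (k := 1) (by norm_num)

theorem St.q0 (h : St Q Y τ) : 1000 ≤ Q := h.y0.trans h.yq

theorem St.q1' (h : St Q Y τ) : 1 ≤ Q := by linarith [h.q0]

theorem St.qpos (h : St Q Y τ) : 0 < Q := by linarith [h.q0]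

theorem St.qpow (h : St Q Y τ) {a b : ℕ} (hk : a ≤ b) : Q ^ a ≤ Q ^ b :=
  pow_le_pow_right₀ h.q1' hk

theorem St.ymono (h : St Q Y τ) {a b : ℕ} (hk : a ≤ b) : Y ^ a ≤ Y ^ b :=
  pow_le_pow_right₀ h.y1 hk

/-- `Q ^ a * Y ^ k ≤ Q ^ b` for `a < b` -/
theorem St.qy (h : St Q Y τ) {a b k : ℕ} (hk : k ≤ 1000) (hab : a < b) :
    Q ^ a * Y ^ k ≤ Q ^ b :=
  (mul_le_mul_of_nonneg_left (h.ypow hk) (pow_pos h.qpos a).le).trans
    (by rw [← pow_succ]; exact h.qpow hab)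

theorem St.log1 (h : St Q Y τ) : 1 ≤ Real.log Q := by
  rw [Real.le_log_iff_exp_le h.qpos]
  linarith [Real.exp_one_lt_d9, h.q0]

theorem St.logpow (h : St Q Y τ) {k : ℕ} (hk : k ≤ 100) : Real.log Q ^ k ≤ Y :=
  (pow_le_pow_right₀ h.log1 hk).trans h.lg

theorem St.taupow (h : St Q Y τ) {k : ℕ} (hk : k ≤ 100) : τ ^ k ≤ Y :=
  (pow_le_pow_right₀ h.t1 hk).trans h.t2

/-- small powers of `τ` and of the logarithm together with a constant stay below `Y` -/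
theorem St.mix (h : St Q Y τ) {C : ℝ} {a b : ℕ} (hC : C ^ 2 ≤ Y) (ha : a ≤ 25) (hb : b ≤ 25) :
    C * τ ^ a * Real.log Q ^ b ≤ Y := by
  have h1 : (τ ^ a) ^ 4 ≤ Y := by rw [← pow_mul]; exact h.taupow (by omega)
  have h2 : (Real.log Q ^ b) ^ 4 ≤ Y := by rw [← pow_mul]; exact h.logpow (by omega)
  have p1 : 0 ≤ τ ^ a := pow_nonneg (by linarith [h.t1]) a
  have p2 : 0 ≤ Real.log Q ^ b := pow_nonneg (by linarith [h.log1]) b
  refine le_trans (le_abs_self _) (abs_le_of_sq_le_sq ?_ h.ypos.le)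
  refine abs_le_of_sq_le_sq (a := (C * τ ^ a * Real.log Q ^ b) ^ 2) ?_ (sq_nonneg Y) |>.trans' (le_abs_self _)
  calc ((C * τ ^ a * Real.log Q ^ b) ^ 2) ^ 2
      = (C ^ 2) ^ 2 * ((τ ^ a) ^ 4 * (Real.log Q ^ b) ^ 4) := by ring
    _ ≤ Y ^ 2 * (Y * Y) :=
        mul_le_mul (pow_le_pow_left₀ (sq_nonneg C) hC 2)
          (mul_le_mul h1 h2 (by positivity) h.ypos.le) (by positivity) (sq_nonneg Y)
    _ = (Y ^ 2) ^ 2 := by ring

/-- Gaussian tails are negligible -/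
theorem St.neg (h : St Q Y τ) {x : ℝ} (hx : Y / 20 ≤ x) : gs x ≤ 1 / Q ^ 2000 := by
  have h1 : gs x ≤ gs (Y / 20) := gs_anti (by
    rw [abs_of_pos (by linarith [h.y0]), abs_of_pos (by linarith [h.y0])]; exact hx)
  rw [le_div_iff₀ (pow_pos h.qpos _)]
  nlinarith [h.ng, pow_pos h.qpos 2000]

theorem St.log2 (h : St Q Y τ) {m k : ℕ} (hm : (m : ℝ) ≤ Q ^ k) :
    ((Nat.log 2 m + 1 : ℕ) : ℝ) ≤ (2 * k + 1) * Real.log Q := by
  have hl := h.log1
  rcases Nat.eq_zero_or_pos m with rfl | h0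
  · simp only [Nat.log_zero_right, zero_add, Nat.cast_one]
    nlinarith [Nat.cast_nonneg (α := ℝ) k]
  have h1 : ((2 : ℝ)) ^ Nat.log 2 m ≤ Q ^ k :=
    le_trans (by exact_mod_cast Nat.pow_log_le_self 2 h0.ne') hm
  have h2 := Real.log_le_log (by positivity) h1
  rw [Real.log_pow, Real.log_pow] at h2
  have h3 := Real.log_two_gt_d9
  have h4 : (0 : ℝ) ≤ Nat.log 2 m := Nat.cast_nonneg _
  push_cast
  nlinarith

theorem St.XN_le (h : St Q Y τ) : (XN Q : ℝ) ≤ Q ^ 48 := Nat.floor_le (pow_pos h.qpos _).le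

theorem le_XN {k : ℕ} (hk : (k : ℝ) ≤ Q ^ 48) : k ≤ XN Q := Nat.le_floor hk

theorem lt_of_XN_lt {k : ℕ} (hk : XN Q < k) : Q ^ 48 < k := Nat.lt_of_floor_lt hk

theorem not_InW {k : ℕ} (hk : XN Q < k) : ¬ InW Q k := fun h => absurd h.2 (not_le.2 (lt_of_XN_lt hk))

theorem St.Dl_pos (h : St Q Y τ) : 0 < Dl Q Y := div_pos (pow_pos h.qpos _) (pow_pos h.ypos _)

theorem Wn.clo (h : St Q Y τ) (w : Wn Q Y c δ) : Q ^ 24 / 2 ≤ c := by
  have := div_pos (pow_pos h.qpos 24) h.ypos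
  nlinarith [w.c1, pow_pos h.qpos 24]

theorem Wn.chi (h : St Q Y τ) (w : Wn Q Y c δ) : c ≤ Q ^ 24 := by
  have := div_pos (pow_pos h.qpos 24) h.ypos
  linarith [w.c2]

theorem Wn.cpos (h : St Q Y τ) (w : Wn Q Y c δ) : 0 < c :=
  lt_of_lt_of_le (half_pos (pow_pos h.qpos 24)) (w.clo h)

theorem Wn.dpos (h : St Q Y τ) (w : Wn Q Y c δ) : 0 < δ :=
  lt_of_lt_of_le (one_div_pos.2 (mul_pos (pow_pos h.qpos _) (pow_pos h.ypos _))) w.d1

theorem Wn.dle (h : St Q Y τ) (w : Wn Q Y c δ) : δ ≤ 1 / 1000 :=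
  w.d2.trans (one_div_le_one_div_of_le (by norm_num) h.y0)

theorem Wn.dinv (h : St Q Y τ) (w : Wn Q Y c δ) : 1 / δ ≤ Q ^ 12 * Y ^ 2 :=
  (one_div_le (w.dpos h) (mul_pos (pow_pos h.qpos _) (pow_pos h.ypos _))).2 w.d1

theorem Wn.Hd (h : St Q Y τ) (w : Wn Q Y c δ) : (Hn Y δ : ℝ) * δ ≤ Y :=
  (le_div_iff₀ (w.dpos h)).1 (Nat.floor_le (div_pos h.ypos (w.dpos h)).le)

theorem Wn.Hle (h : St Q Y τ) (w : Wn Q Y c δ) : (Hn Y δ : ℝ) ≤ Q ^ 12 * Y ^ 3 := by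
  have h1 : (Hn Y δ : ℝ) ≤ Y * (1 / δ) := by
    rw [mul_one_div]; exact Nat.floor_le (div_pos h.ypos (w.dpos h)).le
  calc _ ≤ Y * (Q ^ 12 * Y ^ 2) := h1.trans (mul_le_mul_of_nonneg_left (w.dinv h) h.ypos.le)
    _ = _ := by ring

theorem Wn.H1 (h : St Q Y τ) (w : Wn Q Y c δ) : 1 ≤ Hn Y δ :=
  Nat.le_floor (by
    rw [Nat.cast_one, le_div_iff₀ (w.dpos h)]
    linarith [w.dle h, h.y0])

theorem mem_HS {h : ℤ} : h ∈ HS Y δ ↔ h ≠ 0 ∧ |h| ≤ Hn Y δ := by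
  simp only [HS, mem_erase, mem_Icc, abs_le]

theorem card_HS : (HS Y δ).card = 2 * Hn Y δ := by
  rw [HS, card_erase_of_mem (by simp), Int.card_Icc]; omega

theorem norm_gam (δ l : ℝ) (h : ℤ) : ‖gam δ l h‖ = gs (δ * h) := by
  rw [gam, norm_mul, MP_e86632_nt.norm_ee, mul_one, Complex.norm_real,
    Real.norm_of_nonneg (gs_pos _).le]

theorem norm_gam_le (δ l : ℝ) (h : ℤ) : ‖gam δ l h‖ ≤ 1 := (norm_gam δ l h).trans_le (gs_le_one _)

theorem norm_k0 (β : ℝ) : ‖k0 β‖ = 1 := by unfold k0; split_ifs <;> simp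

theorem St.pA_pos (h : St Q Y τ) : 0 < pA Q Y := mul_pos (pow_pos h.qpos _) (pow_pos h.ypos _)

theorem St.pA_le (h : St Q Y τ) : pA Q Y ≤ Q ^ 13 := h.qy (by norm_num) (by norm_num)

theorem St.le_pA (h : St Q Y τ) : Q ^ 12 ≤ pA Q Y :=
  le_mul_of_one_le_right (pow_pos h.qpos _).le (one_le_pow₀ h.y1)

theorem St.pB_le (h : St Q Y τ) : pB Q Y ≤ Q ^ 16 :=
  div_le_self (pow_pos h.qpos _).le (one_le_pow₀ h.y1)

theorem St.le_pB (h : St Q Y τ) : Q ^ 15 ≤ pB Q Y :=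
  (le_div_iff₀ (pow_pos h.ypos _)).2 (h.qy (by norm_num) (by norm_num))

theorem St.pW_le (h : St Q Y τ) : pW Q Y ≤ Q ^ 18 :=
  div_le_self (pow_pos h.qpos _).le (one_le_pow₀ h.y1)

theorem St.le_pW (h : St Q Y τ) : Q ^ 17 ≤ pW Q Y :=
  (le_div_iff₀ (pow_pos h.ypos _)).2 (h.qy (by norm_num) (by norm_num))

theorem St.pz_le (h : St Q Y τ) : pz Q Y ≤ Q ^ 4 :=
  div_le_self (pow_pos h.qpos _).le (one_le_pow₀ h.y1)

theorem St.le_pz (h : St Q Y τ) : Q ^ 3 ≤ pz Q Y :=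
  (le_div_iff₀ (pow_pos h.ypos _)).2 (h.qy (by norm_num) (by norm_num))

theorem St.pA_pz (h : St Q Y τ) : pA Q Y * pz Q Y = pB Q Y := by
  have := h.ypos.ne'
  unfold pA pz pB; field_simp

theorem St.pA_pW (h : St Q Y τ) : pA Q Y * pW Q Y = Q ^ 30 / Y ^ 100 := by
  have := h.ypos.ne'
  unfold pA pW; field_simp

/-- thirteen primes above the sifting level have a product above `X` -/
theorem St.pz13 (h : St Q Y τ) : Q ^ 48 ≤ pz Q Y ^ 13 := by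
  have h1 : (Y ^ 1000) ^ 3 ≤ Q ^ 3 := pow_le_pow_left₀ (pow_pos h.ypos _).le h.q1 3
  have h2 : (Y ^ 200) ^ 13 ≤ (Y ^ 1000) ^ 3 := by
    rw [← pow_mul, ← pow_mul]; exact h.ymono (by norm_num)
  rw [pz, div_pow, le_div_iff₀ (pow_pos (pow_pos h.ypos _) _)]
  calc Q ^ 48 * (Y ^ 200) ^ 13 ≤ Q ^ 48 * Q ^ 3 :=
        mul_le_mul_of_nonneg_left (h2.trans h1) (pow_pos h.qpos _).le
    _ ≤ (Q ^ 4) ^ 13 := by rw [← pow_add, ← pow_mul]; exact h.qpow (by norm_num)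

end Size

section Gauss

theorem gs_mul_split (x : ℝ) : gs x = gs (x / √2) * gs (x / √2) := by
  unfold gs
  rw [← Real.exp_add, div_pow, Real.sq_sqrt (by norm_num : (0 : ℝ) ≤ 2)]
  congr 1; ring

/-- tail factor -/
theorem gs_tail {x T : ℝ} (hT : 0 ≤ T) (h : T ≤ |x|) : gs x ≤ gs (T / 2) * gs (x / √2) := by
  rw [gs_mul_split x]
  refine mul_le_mul_of_nonneg_right (gs_anti ?_) (gs_pos _).le
  have h2 : √2 ≤ 2 := by
    rw [Real.sqrt_le_left (by norm_num)]; norm_num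
  have h3 : 0 < √2 := by positivity
  rw [abs_div, abs_div, abs_of_nonneg hT, abs_of_pos h3, abs_two]
  exact div_le_div₀ (abs_nonneg _) h h3 h2

theorem gs_tsum_near {r : ℝ} (hr : 1 ≤ r) (x : ℝ) : ∑' m : ℤ, gs (r * (m - x)) ≤ 8 := by
  have h1 := t_GS2 r x (by linarith)
  have h2 : 1 / r ≤ 1 := (div_le_one (by linarith)).2 hr
  linarith

theorem gs_tsum_far {r T : ℝ} (hr : 1 ≤ r) (x : ℝ) (hT : 0 ≤ T) (h : T ≤ r * nn x) :
    ∑' m : ℤ, gs (r * (m - x)) ≤ 10 * gs (T / 2) := by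
  have h3 : 0 < √2 := by positivity
  have h2 : √2 ≤ 3 / 2 := by
    rw [Real.sqrt_le_left (by norm_num)]; norm_num
  have r0 : 0 < r / √2 := by positivity
  have h4 : ∀ m : ℤ, gs (r * (m - x)) ≤ gs (T / 2) * gs (r / √2 * (m - x)) := fun m => by
    have e : r / √2 * (m - x) = r * (m - x) / √2 := by ring
    rw [e]
    refine gs_tail hT (h.trans ?_)
    rw [abs_mul, abs_of_pos (by linarith : 0 < r), abs_sub_comm]
    exact mul_le_mul_of_nonneg_left (MP_e86632_nt.nn_le x m) (by linarith)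
  refine ((gs_summable (by linarith) x).tsum_le_tsum h4
    ((gs_summable r0 x).mul_left _)).trans ?_
  rw [tsum_mul_left, mul_comm]
  refine mul_le_mul_of_nonneg_right ((t_GS2 _ x r0).trans ?_) (gs_pos _).le
  have h5 : 1 / (r / √2) ≤ 3 / 2 := by
    rw [one_div_div, div_le_iff₀ (by linarith)]; nlinarith
  linarith

/-- finite Gaussian sums outside a window -/
theorem gs_sum_tail {δ T : ℝ} (h0 : 0 < δ) (h1 : δ ≤ 1) (hT : 0 ≤ T) (S : Finset ℤ)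
    (hS : ∀ h ∈ S, T ≤ δ * |(h : ℝ)|) : ∑ h ∈ S, gs (δ * h) ≤ 10 / δ * gs (T / 2) := by
  have h3 : 0 < √2 := by positivity
  have h2 : √2 ≤ 3 / 2 := by
    rw [Real.sqrt_le_left (by norm_num)]; norm_num
  have r0 : 0 < δ / √2 := by positivity
  have h4 : ∀ h ∈ S, gs (δ * h) ≤ gs (T / 2) * gs (δ / √2 * (h - 0)) := fun h hh => by
    have e : δ / √2 * (h - 0) = δ * h / √2 := by ring
    rw [e]
    refine gs_tail hT ((hS h hh).trans ?_)
    rw [abs_mul, abs_of_pos h0]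
  refine (sum_le_sum h4).trans ?_
  rw [← mul_sum, mul_comm]
  refine mul_le_mul_of_nonneg_right ?_ (gs_pos _).le
  refine ((gs_summable r0 0).sum_le_tsum S fun _ _ => (gs_pos _).le).trans ((t_GS2 _ 0 r0).trans ?_)
  rw [one_div_div, le_div_iff₀ h0]
  have e : 4 * (1 + √2 / δ) * δ = 4 * δ + 4 * √2 := by field_simp
  rw [e]; linarith

theorem comb_nonneg {δ : ℝ} (h0 : 0 < δ) (l y : ℝ) : 0 ≤ comb δ l y :=
  mul_nonneg (one_div_pos.2 h0).le (tsum_nonneg fun _ => (gs_pos _).le)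

theorem comb_le {δ : ℝ} (h0 : 0 < δ) (h1 : δ ≤ 1) (l y : ℝ) : comb δ l y ≤ 8 / δ := by
  have := gs_tsum_near (r := 1 / δ) ((le_div_iff₀ h0).2 (by linarith)) (y - l)
  calc comb δ l y ≤ 1 / δ * 8 := mul_le_mul_of_nonneg_left this (one_div_pos.2 h0).le
    _ = _ := by ring

theorem comb_far {δ T : ℝ} (h0 : 0 < δ) (h1 : δ ≤ 1) (hT : 0 ≤ T) (l y : ℝ)
    (h : T * δ ≤ nn (y - l)) : comb δ l y ≤ 10 / δ * gs (T / 2) := by
  have := gs_tsum_far (r := 1 / δ) ((le_div_iff₀ h0).2 (by linarith)) (y - l) hT (by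
    rw [one_div_mul_eq_div, le_div_iff₀ h0]; exact h)
  calc comb δ l y ≤ 1 / δ * (10 * gs (T / 2)) :=
        mul_le_mul_of_nonneg_left this (one_div_pos.2 h0).le
    _ = _ := by ring

theorem integral_gs_one {Δ : ℝ} (h : 0 < Δ) : ∫ ξ : ℝ, Δ * gs (Δ * ξ) = 1 := by
  have e : ∀ ξ : ℝ, gs (Δ * ξ) = Real.exp (-(π * Δ ^ 2) * ξ ^ 2) := fun ξ => by
    unfold gs; congr 1; ring
  simp only [e]
  rw [MeasureTheory.integral_const_mul, integral_gaussian,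
    show π / (π * Δ ^ 2) = (1 / Δ) ^ 2 by field_simp, Real.sqrt_sq (by positivity)]
  field_simp

theorem mn_pos {V : ℝ} (h : 0 < V) (x : ℝ) : 0 < mn V x :=
  div_pos h (by nlinarith [MP_e86632_nt.nn_nonneg x])

theorem mn_le {V : ℝ} (h : 0 < V) (x : ℝ) : mn V x ≤ V :=
  div_le_self h.le (by nlinarith [MP_e86632_nt.nn_nonneg x])

theorem mn_le_inv {V x : ℝ} (h : 0 < V) (hx : 0 < nn x) : mn V x ≤ 1 / nn x := by
  rw [mn, div_le_div_iff₀ (by nlinarith) hx]; linarith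

end Gauss

section Kernel

variable {ι1 ι2 : Type} {S1 : Finset ι1} {S2 : Finset ι2} {κ κ' : ι1 → ι2 → ℝ} {B B' : ℝ}

theorem G2.mono (h : G2 S1 S2 κ B) (hB : B ≤ B') : G2 S1 S2 κ B' := by
  obtain ⟨ι, T, u, v, h1, h2, h3⟩ := h
  exact ⟨ι, T, u, v, h1, fun a ha => (h2 a ha).trans hB, fun b hb => (h3 b hb).trans hB⟩

theorem G2.congr (h : G2 S1 S2 κ B) (e : ∀ a ∈ S1, ∀ b ∈ S2, κ' a b = κ a b) : G2 S1 S2 κ' B := by
  obtain ⟨ι, T, u, v, h1, h2, h3⟩ := h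
  exact ⟨ι, T, u, v, fun a ha b hb => (e a ha b hb).trans (h1 a ha b hb), h2, h3⟩

theorem G2.prod (f : ι1 → ℝ) (g : ι2 → ℝ) (hf : ∀ a ∈ S1, |f a| ≤ 1) (hg : ∀ b ∈ S2, |g b| ≤ 1) :
    G2 S1 S2 (fun a b => f a * g b) 1 :=
  ⟨Unit, univ, fun _ => f, fun _ => g, fun _ _ _ _ => by simp,
    fun a ha => by simpa using (sq_le_one_iff_abs_le_one _).2 (hf a ha),
    fun b hb => by simpa using (sq_le_one_iff_abs_le_one _).2 (hg b hb)⟩

theorem G2.one : G2 S1 S2 (fun _ _ => (1 : ℝ)) 1 :=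
  (G2.prod (fun _ => 1) (fun _ => 1) (by simp) (by simp)).congr (by simp)

theorem G2.zero : G2 S1 S2 (fun _ _ => (0 : ℝ)) 0 :=
  ⟨Unit, ∅, fun _ _ => 0, fun _ _ => 0, by simp, by simp, by simp⟩

theorem G2.add (h : G2 S1 S2 κ B) (h' : G2 S1 S2 κ' B') :
    G2 S1 S2 (fun a b => κ a b + κ' a b) (B + B') := by
  obtain ⟨ι, T, u, v, h1, h2, h3⟩ := h
  obtain ⟨ι', T', u', v', h1', h2', h3'⟩ := h'
  refine ⟨ι ⊕ ι', T.disjSum T', Sum.elim u u', Sum.elim v v', fun a ha b hb => ?_,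
    fun a ha => ?_, fun b hb => ?_⟩
  · simp only [sum_disjSum, Sum.elim_inl, Sum.elim_inr, h1 a ha b hb, h1' a ha b hb]
  · simpa only [sum_disjSum, Sum.elim_inl, Sum.elim_inr] using add_le_add (h2 a ha) (h2' a ha)
  · simpa only [sum_disjSum, Sum.elim_inl, Sum.elim_inr] using add_le_add (h3 b hb) (h3' b hb)

theorem G2.mul (h : G2 S1 S2 κ B) (h' : G2 S1 S2 κ' B') :
    G2 S1 S2 (fun a b => κ a b * κ' a b) (B * B') := by
  obtain ⟨ι, T, u, v, h1, h2, h3⟩ := h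
  obtain ⟨ι', T', u', v', h1', h2', h3'⟩ := h'
  refine ⟨ι × ι', T ×ˢ T', fun t a => u t.1 a * u' t.2 a, fun t b => v t.1 b * v' t.2 b,
    fun a ha b hb => ?_, fun a ha => ?_, fun b hb => ?_⟩
  · simp only [h1 a ha b hb, h1' a ha b hb, sum_mul_sum, sum_product]
    exact sum_congr rfl fun _ _ => sum_congr rfl fun _ _ => by ring
  · simp only [mul_pow, sum_product, ← sum_mul_sum]
    have p := sum_nonneg (s := T) fun t _ => sq_nonneg (u t a)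
    exact mul_le_mul (h2 a ha) (h2' a ha) (sum_nonneg fun _ _ => sq_nonneg _) (p.trans (h2 a ha))
  · simp only [mul_pow, sum_product, ← sum_mul_sum]
    have p := sum_nonneg (s := T) fun t _ => sq_nonneg (v t b)
    exact mul_le_mul (h3 b hb) (h3' b hb) (sum_nonneg fun _ _ => sq_nonneg _) (p.trans (h3 b hb))

theorem G2.const (c : ℝ) : G2 S1 S2 (fun _ _ => c) |c| := by
  have e : √|c| ^ 2 = |c| := Real.sq_sqrt (abs_nonneg c)
  refine ⟨Unit, univ, fun _ _ => √|c|, fun _ _ => (if 0 ≤ c then 1 else -1) * √|c|,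
    fun _ _ _ _ => ?_, fun _ _ => by simp [e], fun _ _ => ?_⟩
  · simp only [univ_unique, sum_singleton]
    split_ifs with h
    · rw [one_mul, ← sq, e, abs_of_nonneg h]
    · rw [mul_left_comm, ← sq, e, abs_of_neg (not_le.1 h)]; ring
  · simp only [univ_unique, sum_singleton, mul_pow, e]
    split_ifs <;> simp

theorem G2.smul (h : G2 S1 S2 κ B) (c : ℝ) : G2 S1 S2 (fun a b => c * κ a b) (|c| * B) :=
  (G2.const c).mul h

theorem G2.compl (h : G2 S1 S2 κ B) : G2 S1 S2 (fun a b => 1 - κ a b) (1 + B) := by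
  have := G2.one.add (h.smul (-1))
  simpa [sub_eq_add_neg] using this

theorem G2.sum {α : Type*} (I : Finset α) (F : α → ι1 → ι2 → ℝ) (b : α → ℝ)
    (h : ∀ i ∈ I, G2 S1 S2 (F i) (b i)) :
    G2 S1 S2 (fun x y => ∑ i ∈ I, F i x y) (∑ i ∈ I, b i) := by
  classical
  induction I using Finset.induction_on with
  | empty => simpa using G2.zero
  | insert i I hi ih =>
    simp only [sum_insert hi]
    exact (h i (mem_insert_self _ _)).add (ih fun j hj => h j (mem_insert_of_mem hj))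

theorem G2.fprod {α : Type*} (I : Finset α) (F : α → ι1 → ι2 → ℝ) (b : α → ℝ)
    (h : ∀ i ∈ I, G2 S1 S2 (F i) (b i)) :
    G2 S1 S2 (fun x y => ∏ i ∈ I, F i x y) (∏ i ∈ I, b i) := by
  classical
  induction I using Finset.induction_on with
  | empty => simpa using G2.one
  | insert i I hi ih =>
    simp only [prod_insert hi]
    exact (h i (mem_insert_self _ _)).mul (ih fun j hj => h j (mem_insert_of_mem hj))

theorem G2.comp {ι3 ι4 : Type} {S3 : Finset ι3} {S4 : Finset ι4} (h : G2 S1 S2 κ B)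
    (f : ι3 → ι1) (g : ι4 → ι2) (hf : ∀ a ∈ S3, f a ∈ S1) (hg : ∀ b ∈ S4, g b ∈ S2) :
    G2 S3 S4 (fun a b => κ (f a) (g b)) B := by
  obtain ⟨ι, T, u, v, h1, h2, h3⟩ := h
  exact ⟨ι, T, fun t a => u t (f a), fun t b => v t (g b),
    fun a ha b hb => h1 _ (hf a ha) _ (hg b hb), fun a ha => h2 _ (hf a ha),
    fun b hb => h3 _ (hg b hb)⟩

end Kernel

section Arith

theorem abs_mu_le (e : ℕ) : |mu e| ≤ 1 := by
  unfold mu; exact_mod_cast abs_moebius_le_one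

theorem mu_one : mu 1 = 1 := by simp [mu]

theorem mu_mul {a b : ℕ} (h : a.Coprime b) : mu (a * b) = mu a * mu b := by
  unfold mu; exact_mod_cast isMultiplicative_moebius.map_mul_of_coprime h

theorem mu_prime {p : ℕ} (h : p.Prime) : mu p = -1 := by simp [mu, moebius_apply_prime h]

theorem mu_eq_zero {a : ℕ} (h : ¬ Squarefree a) : mu a = 0 := by
  simp [mu, moebius_eq_zero_of_not_squarefree h]

theorem rh_mul (z : ℝ) (a b : ℕ) : rh z (a * b) = rh z a * rh z b := by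
  unfold rh
  by_cases h1 : Rough z a <;> by_cases h2 : Rough z b <;> simp [Avg.rough_mul, h1, h2]

theorem rh_nonneg (z : ℝ) (a : ℕ) : 0 ≤ rh z a := by unfold rh; split_ifs <;> norm_num

theorem abs_rh_le (z : ℝ) (a : ℕ) : |rh z a| ≤ 1 := by unfold rh; split_ifs <;> norm_num

theorem rh_one (z : ℝ) : rh z 1 = 1 := if_pos (Avg.rough_one z)

theorem gp_lt_iff {e p : ℕ} (he : e ≠ 0) (hp : 0 < p) :
    gp e < p ↔ ∀ q : ℕ, q.Prime → q ∣ e → q < p := by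
  rw [gp, Finset.sup_lt_iff hp]
  exact ⟨fun h q h1 h2 => h q (Nat.mem_primeFactors.2 ⟨h1, h2, he⟩),
    fun h q hq => h q (Nat.prime_of_mem_primeFactors hq) (Nat.dvd_of_mem_primeFactors hq)⟩

/-- a set on which a map is injective with values among the divisors -/
theorem card_pairs_le {n : ℕ} (hn : n ≠ 0) (S : Finset (ℕ × ℕ)) (h : ∀ x ∈ S, x.1 * x.2 = n) :
    S.card ≤ n.divisors.card := by
  refine card_le_card_of_injOn (fun x => x.1) (fun x hx => ?_) fun x hx y hy e => ?_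
  · exact Nat.mem_divisors.2 ⟨Dvd.intro _ (h x hx), hn⟩
  · have e1 : x.1 = y.1 := e
    have h0 : x.1 ≠ 0 := fun h0 => hn (by rw [← h x hx, h0, zero_mul])
    refine Prod.ext e1 (Nat.eq_of_mul_eq_mul_left (Nat.pos_of_ne_zero h0) ?_)
    rw [h x hx, e1, h y hy]

theorem card_triples_le {n : ℕ} (hn : n ≠ 0) (S : Finset (ℕ × ℕ × ℕ))
    (h : ∀ x ∈ S, x.1 * x.2.1 * x.2.2 = n) : S.card ≤ n.divisors.card ^ 2 := by
  rw [sq, ← card_product]
  refine card_le_card_of_injOn (fun x => (x.1, x.2.1)) (fun x hx => ?_) fun x hx y hy e => ?_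
  · refine mem_coe.2 (mem_product.2 ⟨Nat.mem_divisors.2 ⟨?_, hn⟩, Nat.mem_divisors.2 ⟨?_, hn⟩⟩)
    · exact ⟨x.2.1 * x.2.2, by rw [← h x hx, mul_assoc]⟩
    · exact ⟨x.1 * x.2.2, by rw [← h x hx]; ring⟩
  · have e1 : x.1 = y.1 := (Prod.ext_iff.1 e).1
    have e2 : x.2.1 = y.2.1 := (Prod.ext_iff.1 e).2
    have h0 : x.1 * x.2.1 ≠ 0 := fun h0 => hn (by rw [← h x hx, h0, zero_mul])
    refine Prod.ext e1 (Prod.ext e2 (Nat.eq_of_mul_eq_mul_left (Nat.pos_of_ne_zero h0) ?_))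
    rw [h x hx, e1, e2, h y hy]

/-- dyadic decomposition -/
theorem sum_dyadic {E : Type*} [AddCommMonoid E] (S : Finset ℕ) (M : ℕ) (hS : ∀ x ∈ S, x ≤ M)
    (f : ℕ → E) : ∑ x ∈ S, f x =
      ∑ i ∈ range (Nat.log 2 M + 1), ∑ x ∈ S.filter (fun x => Nat.log 2 x = i), f x :=
  (sum_fiberwise_of_maps_to (fun x hx => mem_range.2
    (Nat.lt_succ_of_le (Nat.log_mono_right (hS x hx)))) f).symm

theorem dyadic_mem {x i : ℕ} (hx : 1 ≤ x) (h : Nat.log 2 x = i) :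
    (2 : ℝ) ^ i ≤ x ∧ (x : ℝ) < 2 * 2 ^ i := by
  subst h
  refine ⟨by exact_mod_cast Nat.pow_log_le_self 2 (by omega), ?_⟩
  have := Nat.lt_pow_succ_log_self (b := 2) (by norm_num) x
  rw [pow_succ, mul_comm] at this
  exact_mod_cast this

end Arith

end Pool.Agent.P.MP_8be758_nt.Sq
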