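import Pool.Agent.P.MP_8be758_nt.Sq.Base

/-! Definitions and small facts for the analytic part. -/

set_option autoImplicit false

namespace Pool.Agent.P.MP_8be758_nt.Sq

open Finset Real Filter Topology
open Pool.Agent.P.MP_e86632_nt (ee nn norm_ee ee_add ee_neg)
open Pool.Agent.P.MP_8be758_nt.Avg (gs gs_pos gs_anti gs_le_one gs_neg)

noncomputable section

/-- the Gaussian window in the square root -/
def bb (c Δ : ℝ) (k : ℕ) : ℝ := gs ((√(k : ℝ) - c) / Δ) / √(k : ℝ)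

/-- the nonzero integers in `[-H, H]` -/
def Hz (H : ℕ) : Finset ℤ := (Icc (-(H : ℤ)) H).erase 0

/-- the oscillating weight, complex form -/
def wc (c Δ δ l : ℝ) (H k : ℕ) : ℂ :=
  (bb c Δ k : ℂ) * ∑ h ∈ Hz H, (gs (δ * h) : ℂ) * ee (h * (√(k : ℝ) - l))

/-- the oscillating weight -/
def wr (c Δ δ l : ℝ) (H k : ℕ) : ℝ := (wc c Δ δ l H k).re

/-- the Gaussian average at scale `1 / s` -/
def AV (s : ℝ) (F : ℝ → ℂ) : ℂ := ∫ x : ℝ, ((s * gs (s * x) : ℝ) : ℂ) * F x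

/-- the window of dual frequencies -/
def VR (c D H1 : ℝ) : Finset ℕ :=
  (Icc 1 ⌊8 * H1 * D / c⌋₊).filter fun ν : ℕ => H1 * D / (3 * c) ≤ ν

/-- the dual exponential sum -/
def EF (Hs Vs : Finset ℕ) (ch : ℕ → ℂ) (x : ℝ) (d : ℕ) : ℂ :=
  ∑ h ∈ Hs, ∑ ν ∈ Vs, ch h / ((√(ν : ℝ) : ℝ) : ℂ) * ee (d * ((h + x) ^ 2 / (4 * ν)))

/-- a block of the weight -/
def BW (c Δ : ℝ) (Hs : Finset ℕ) (ch : ℕ → ℂ) (k : ℕ) : ℂ :=
  (bb c Δ k : ℂ) * ∑ h ∈ Hs, ch h * ee (h * √(k : ℝ))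

/-- coefficients of the positive frequencies -/
def cf (δ l : ℝ) (h : ℕ) : ℂ := (gs (δ * h) : ℂ) * ee (-(h * l))

/-- all members of `S` lie in `[a, b]` -/
def In (S : Finset ℕ) (a b : ℝ) : Prop := ∀ n ∈ S, a ≤ n ∧ (n : ℝ) ≤ b

/-- the standing conditions on the window -/
structure Pa (Z c Δ T : ℝ) : Prop where
  z : 10 ≤ Z
  t : 1 ≤ T
  cz : c ^ 2 ≤ Z
  td : 3 * T ≤ Δ
  tc : 3 * T * Δ ≤ c

/-- `τ` bounds the divisor function and the logarithm -/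
structure Sz (Z τ : ℝ) : Prop where
  z : 10 ≤ Z
  dv : ∀ m : ℕ, (m : ℝ) ≤ Z ^ 5 → (m.divisors.card : ℝ) ≤ τ
  lg : 1 + Real.log Z ≤ τ

open Classical in
/-- close pairs of fractions -/
def PQ (Hs Vs : Finset ℕ) (η : ℝ) : Finset ((ℕ × ℕ) × ℕ × ℕ) :=
  ((Hs ×ˢ Vs) ×ˢ Hs ×ˢ Vs).filter fun p => ∃ j : ℤ,
    |(p.1.1 : ℝ) ^ 2 / (4 * p.1.2) - (p.2.1 : ℝ) ^ 2 / (4 * p.2.2) - j| ≤ η

/-- bound for a geometric sum near the fraction `m / q` -/
def mq (V : ℝ) (m : ℤ) (q : ℕ) : ℝ :=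
  if Int.bmod m q = 0 then V else (q : ℝ) / |((Int.bmod m q : ℤ) : ℝ)|

/-- centre of the product of two windows -/
def tw (c : ℝ) (n1 n2 : ℕ) : ℝ := c * (√(n1 : ℝ) + √(n2 : ℝ)) / (n1 + n2)

/-- width of the product of two windows -/
def sw (Δ : ℝ) (n1 n2 : ℕ) : ℝ := Δ / √((n1 : ℝ) + n2)

/-- the contribution of the dual frequency `μ` -/
def QS (c Δ δ l : ℝ) (H n1 n2 : ℕ) (μ : ℤ) : ℂ :=
  ∑ h1 ∈ Hz H, ∑ h2 ∈ Hz H,
    ((gs (δ * h1) * gs (δ * h2) : ℝ) : ℂ) * ee (-((h1 + h2) * l)) *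
      GI (tw c n1 n2) (sw Δ n1 n2) (h1 * √(n1 : ℝ) + h2 * √(n2 : ℝ)) μ

open Classical in
/-- near diagonal solutions -/
def DN (H : ℕ) (La : ℝ) (n1 n2 : ℕ) : ℕ :=
  ((Icc 1 H ×ˢ Icc 1 H).filter fun p : ℕ × ℕ =>
    |(p.1 : ℝ) ^ 2 * n1 - (p.2 : ℝ) ^ 2 * n2| ≤ La).card

open Classical in
/-- multiples of `y` close to an integer -/
def BN (H : ℕ) (ε y : ℝ) : ℕ :=
  ((Icc 1 (2 * H)).filter fun h : ℕ => ∃ j : ℤ, |h * y - j| ≤ ε).card

/-- the correlation sum after Cauchy-Schwarz -/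
def CR (w : ℕ → ℝ) (M n1 n2 : ℕ) : ℝ := ∑ m ∈ Icc 1 M, √(m : ℝ) * (w (m * n1) * w (m * n2))

/-- pairs `(a, g)` with `a * g ^ 2` dividing `ν` and `4 * l` -/
def GG (K ν : ℕ) (l : ℤ) : Finset (ℕ × ℕ) :=
  (Icc 1 K ×ˢ Icc 1 K).filter fun p => p.1 * p.2 ^ 2 ∣ ν ∧ ((p.1 * p.2 ^ 2 : ℕ) : ℤ) ∣ 4 * l

/-- a negligible quantity -/
def ngl (Z T : ℝ) : ℝ := 1 / Z + Z ^ 20 * gs (T / 4)

end

section Basic

@[fun_prop] theorem cont_ee : Continuous ee := by unfold ee; fun_prop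

@[fun_prop] theorem cont_gs : Continuous gs := by unfold gs; fun_prop

theorem ee_exp (x : ℝ) : ee x = Complex.exp (2 * π * Complex.I * x) := by
  unfold ee; congr 1; push_cast; ring

theorem gs_le_of_le {x y : ℝ} (hx : 0 ≤ x) (h : x ≤ y) : gs y ≤ gs x :=
  gs_anti (by rwa [abs_of_nonneg hx, abs_of_nonneg (hx.trans h)])

theorem gs_le_of_abs {x y : ℝ} (hx : 0 ≤ x) (h : x ≤ |y|) : gs y ≤ gs x :=
  gs_anti (by rwa [abs_of_nonneg hx])

theorem gs_half (T : ℝ) : gs (T / 2) = gs (T / 4) ^ 4 := by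
  rw [gs, gs, ← Real.exp_nat_mul]; congr 1; push_cast; ring

theorem gs_half_le (T : ℝ) : gs (T / 2) ≤ gs (T / 4) := by
  rw [gs_half]
  exact pow_le_of_le_one (gs_pos _).le (gs_le_one _) (by norm_num)

theorem sqrt_gs_half (T : ℝ) : √(gs (T / 2)) ≤ gs (T / 4) := by
  rw [Real.sqrt_le_left (gs_pos _).le, gs_half]
  exact pow_le_pow_of_le_one (gs_pos _).le (gs_le_one _) (by norm_num)

theorem ngl_pos {Z : ℝ} (h : 0 < Z) (T : ℝ) : 0 < ngl Z T := by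
  have := gs_pos (T / 4)
  unfold ngl; positivity

/-- every standard error term is at most `ngl` -/
theorem le_ngl {Z : ℝ} (h : 1 ≤ Z) (T : ℝ) {a b : ℕ} (ha : 1 ≤ a) (hb : b ≤ 20) :
    1 / Z ^ a + Z ^ b * gs (T / 2) ≤ ngl Z T := by
  have h1 : 1 / Z ^ a ≤ 1 / Z :=
    one_div_le_one_div_of_le (by linarith) (by simpa using pow_le_pow_right₀ h ha)
  have h2 : Z ^ b * gs (T / 2) ≤ Z ^ 20 * gs (T / 4) :=
    mul_le_mul (pow_le_pow_right₀ h hb) (gs_half_le T) (gs_pos _).le (by positivity)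
  unfold ngl; linarith

theorem integrable_gsw {s : ℝ} (h : 0 < s) :
    MeasureTheory.Integrable fun x : ℝ => s * gs (s * x) := by
  have h1 := (integrable_exp_neg_mul_sq (b := π * s ^ 2) (by positivity)).const_mul s
  refine h1.congr (Filter.Eventually.of_forall fun x => ?_)
  simp only [gs]
  congr 2
  ring

theorem integrable_AV {s B : ℝ} (h : 0 < s) {F : ℝ → ℂ} (hF : Continuous F) (hB : ∀ x, ‖F x‖ ≤ B) :
    MeasureTheory.Integrable fun x : ℝ => ((s * gs (s * x) : ℝ) : ℂ) * F x :=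
  MeasureTheory.Integrable.mul_bdd (integrable_gsw h).ofReal hF.aestronglyMeasurable
    (Filter.Eventually.of_forall hB)

theorem AV_const_mul (s : ℝ) (a : ℂ) (F : ℝ → ℂ) : AV s (fun x => a * F x) = a * AV s F := by
  unfold AV
  rw [← MeasureTheory.integral_const_mul]
  congr 1; funext x; ring

theorem AV_sum {ι : Type*} {s B : ℝ} (h : 0 < s) (I : Finset ι) (F : ι → ℝ → ℂ)
    (hF : ∀ i ∈ I, Continuous (F i)) (hB : ∀ i ∈ I, ∀ x, ‖F i x‖ ≤ B) :
    AV s (fun x => ∑ i ∈ I, F i x) = ∑ i ∈ I, AV s (F i) := by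
  unfold AV
  rw [← MeasureTheory.integral_finsetSum I fun i hi => integrable_AV h (hF i hi) (hB i hi)]
  congr 1; funext x; rw [mul_sum]

/-- a finite combination of averages of phases is the average of the combination -/
theorem AV_comb {ι : Type*} {s : ℝ} (h : 0 < s) (I : Finset ι) (a : ι → ℂ) (f : ι → ℝ → ℝ)
    (hf : ∀ i ∈ I, Continuous (f i)) :
    ∑ i ∈ I, a i * AV s (fun x => ee (f i x)) = AV s fun x => ∑ i ∈ I, a i * ee (f i x) := by
  rw [AV_sum (B := ∑ i ∈ I, ‖a i‖) h I (fun i x => a i * ee (f i x))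
    (fun i hi => continuous_const.mul (cont_ee.comp (hf i hi))) fun i hi x => by
      rw [norm_mul, norm_ee, mul_one]
      exact single_le_sum (f := fun i => ‖a i‖) (fun _ _ => norm_nonneg _) hi]
  exact sum_congr rfl fun i _ => (AV_const_mul s (a i) _).symm

theorem AV_scale {s r : ℝ} (hr : 0 < r) (F : ℝ → ℂ) : AV (s / r) F = AV s fun x => F (r * x) := by
  have h := MeasureTheory.Measure.integral_comp_mul_left
    (fun x : ℝ => ((s / r * gs (s / r * x) : ℝ) : ℂ) * F x) r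
  have hr' : (r : ℂ) ≠ 0 := Complex.ofReal_ne_zero.2 hr.ne'
  have e : ∀ x : ℝ, ((s * gs (s * x) : ℝ) : ℂ) * F (r * x) =
      (r : ℂ) * (((s / r * gs (s / r * (r * x)) : ℝ) : ℂ) * F (r * x)) := fun x => by
    rw [show s / r * (r * x) = s * x by field_simp]
    push_cast; field_simp
  unfold AV
  simp only [e]
  rw [MeasureTheory.integral_const_mul, h, abs_of_pos (inv_pos.2 hr), Complex.real_smul]
  push_cast; field_simp

/-- the average has mass one -/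
theorem AV_le_sup {s B : ℝ} (h : 0 < s) {F : ℝ → ℂ} (h0 : ∀ x, ‖F x‖ ≤ B) : ‖AV s F‖ ≤ B := by
  refine (MeasureTheory.norm_integral_le_of_norm_le ((integrable_gsw h).const_mul B)
    (Filter.Eventually.of_forall fun x => ?_)).trans ?_
  · have g1 := gs_pos (s * x)
    rw [norm_mul, Complex.norm_real, Real.norm_of_nonneg (by positivity), mul_comm]
    exact mul_le_mul_of_nonneg_right (h0 x) (by positivity)
  · rw [MeasureTheory.integral_const_mul, integral_gs_one h, mul_one]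

/-- the average only sees `|x| ≤ T / s` -/
theorem AV_le {s T B0 B1 : ℝ} (h : 0 < s) (hT : 0 ≤ T) {F : ℝ → ℂ} (h0 : ∀ x, ‖F x‖ ≤ B0)
    (h1 : ∀ x, |x| ≤ T / s → ‖F x‖ ≤ B1) : ‖AV s F‖ ≤ B1 + 2 * B0 * gs (T / 2) := by
  have p0 : 0 ≤ B0 := (norm_nonneg _).trans (h0 0)
  have p1 : 0 ≤ B1 := (norm_nonneg _).trans (h1 0 (by simp; positivity))
  have q2 : (0 : ℝ) < √2 := by positivity
  have h2 : √2 ≤ 2 := by rw [Real.sqrt_le_left (by norm_num)]; norm_num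
  have hs : 0 < s / √2 := by positivity
  have i1 := (integrable_gsw h).const_mul B1
  have i2 := (integrable_gsw hs).const_mul (√2 * B0 * gs (T / 2))
  refine (MeasureTheory.norm_integral_le_of_norm_le (i1.add i2)
    (Filter.Eventually.of_forall fun x => ?_)).trans ?_
  · have g1 := gs_pos (s * x)
    have g2 := gs_pos (s / √2 * x)
    have g3 := gs_pos (T / 2)
    rw [norm_mul, Complex.norm_real, Real.norm_of_nonneg (by positivity)]
    simp only [Pi.add_apply]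
    rcases le_or_gt |x| (T / s) with hx | hx
    · have := mul_le_mul_of_nonneg_left (h1 x hx) (by positivity : 0 ≤ s * gs (s * x))
      have p : 0 ≤ √2 * B0 * gs (T / 2) * (s / √2 * gs (s / √2 * x)) := by positivity
      linarith
    · have t1 : gs (s * x) ≤ gs (T / 2) * gs (s * x / √2) := gs_tail hT (by
        rw [abs_mul, abs_of_pos h, mul_comm]; exact ((div_lt_iff₀ h).1 hx).le)
      have e : √2 * B0 * gs (T / 2) * (s / √2 * gs (s / √2 * x)) =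
          s * (gs (T / 2) * gs (s * x / √2)) * B0 := by
        rw [show s / √2 * x = s * x / √2 by ring]; field_simp
      have t2 : s * gs (s * x) * ‖F x‖ ≤ s * (gs (T / 2) * gs (s * x / √2)) * B0 :=
        mul_le_mul (mul_le_mul_of_nonneg_left t1 h.le) (h0 x) (norm_nonneg _)
          (by have := gs_pos (s * x / √2); positivity)
      have p : 0 ≤ B1 * (s * gs (s * x)) := by positivity
      linarith
  · simp only [Pi.add_apply]
    rw [MeasureTheory.integral_add i1 i2, MeasureTheory.integral_const_mul B1,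
      MeasureTheory.integral_const_mul (√2 * B0 * gs (T / 2)), integral_gs_one h,
      integral_gs_one hs]
    have := mul_le_mul_of_nonneg_right h2 (mul_nonneg p0 (gs_pos (T / 2)).le)
    nlinarith

theorem mem_Hz {H : ℕ} {h : ℤ} : h ∈ Hz H ↔ h ≠ 0 ∧ |h| ≤ H := by
  simp only [Hz, mem_erase, mem_Icc, abs_le]

theorem card_Hz (H : ℕ) : (Hz H).card = 2 * H := by
  rw [Hz, card_erase_of_mem (by simp), Int.card_Icc]; omega

/-- a sum over `Hz` splits into positive and negative frequencies -/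
theorem sum_Hz {E : Type*} [AddCommMonoid E] (H : ℕ) (f : ℤ → E) :
    ∑ h ∈ Hz H, f h = ∑ h ∈ Icc 1 H, (f (h : ℕ) + f (-(h : ℕ))) := by
  induction H with
  | zero => simp [Hz]
  | succ H ih =>
    have e : Hz (H + 1) = insert ((H + 1 : ℕ) : ℤ) (insert (-((H + 1 : ℕ) : ℤ)) (Hz H)) := by
      ext x; simp only [mem_Hz, mem_insert, abs_le]; push_cast; omega
    rw [e, sum_insert (by simp only [mem_Hz, mem_insert, abs_le]; push_cast; omega),
      sum_insert (by simp only [mem_Hz, abs_le]; push_cast; omega), ih,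
      ← insert_Icc_right_eq_Icc_add_one (by omega), sum_insert (by simp), add_assoc]

theorem bb_nonneg (c Δ : ℝ) (k : ℕ) : 0 ≤ bb c Δ k := div_nonneg (gs_pos _).le (Real.sqrt_nonneg _)

theorem bb_le_gs (c Δ : ℝ) (k : ℕ) : bb c Δ k ≤ gs ((√(k : ℝ) - c) / Δ) := by
  rcases Nat.eq_zero_or_pos k with rfl | h
  · simpa [bb] using (gs_pos _).le
  · exact div_le_self (gs_pos _).le (Real.one_le_sqrt.2 (by exact_mod_cast h))

theorem bb_le_one (c Δ : ℝ) (k : ℕ) : bb c Δ k ≤ 1 := (bb_le_gs c Δ k).trans (gs_le_one _)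

theorem norm_cf_le (δ l : ℝ) (h : ℕ) : ‖cf δ l h‖ ≤ 1 := by
  rw [cf, norm_mul, norm_ee, mul_one, Complex.norm_real, Real.norm_of_nonneg (gs_pos _).le]
  exact gs_le_one _

theorem wc_eq (c Δ δ l : ℝ) (H k : ℕ) : wc c Δ δ l H k =
    BW c Δ (Icc 1 H) (cf δ l) k + (starRingEnd ℂ) (BW c Δ (Icc 1 H) (cf δ l) k) := by
  rw [wc, BW, sum_Hz, sum_add_distrib, mul_add, map_mul, Complex.conj_ofReal, map_sum]
  congr 2
  · refine sum_congr rfl fun h _ => ?_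
    rw [cf, mul_assoc, ← ee_add]; push_cast; congr 2; ring
  · refine sum_congr rfl fun h _ => ?_
    rw [cf, mul_assoc, ← ee_add, map_mul, Complex.conj_ofReal, ← ee_neg]
    push_cast
    rw [mul_neg, gs_neg]; congr 2; ring

theorem wr_eq (c Δ δ l : ℝ) (H k : ℕ) :
    wr c Δ δ l H k = 2 * (BW c Δ (Icc 1 H) (cf δ l) k).re := by
  rw [wr, wc_eq, Complex.add_re, Complex.conj_re]; ring

theorem wr_cast (c Δ δ l : ℝ) (H k : ℕ) : (wr c Δ δ l H k : ℂ) = wc c Δ δ l H k := by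
  rw [wr_eq, wc_eq, Complex.add_conj]

theorem BW_sum {ι : Type*} (c Δ : ℝ) (I : Finset ι) (Hs : Finset ℕ) (F : ι → Finset ℕ) (ch : ℕ → ℂ)
    (h : ∀ f : ℕ → ℂ, ∑ x ∈ Hs, f x = ∑ i ∈ I, ∑ x ∈ F i, f x) (k : ℕ) :
    BW c Δ Hs ch k = ∑ i ∈ I, BW c Δ (F i) ch k := by
  simp only [BW]; rw [h, mul_sum]

theorem In.mono {S S' : Finset ℕ} {a b : ℝ} (h : In S a b) (h' : S' ⊆ S) : In S' a b :=
  fun n hn => h n (h' hn)

theorem In.pos {S : Finset ℕ} {a b : ℝ} (h : In S a b) (ha : 0 < a) {n : ℕ} (hn : n ∈ S) : 0 < n := by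
  exact_mod_cast ha.trans_le (h n hn).1

theorem In.card_le {S : Finset ℕ} {a b : ℝ} (h : In S a b) (ha : 0 < a) (hb : 0 ≤ b) :
    (S.card : ℝ) ≤ b := by
  have h1 : S ⊆ Icc 1 ⌊b⌋₊ := fun n hn => mem_Icc.2 ⟨h.pos ha hn, Nat.le_floor (h n hn).2⟩
  have h2 := card_le_card h1
  rw [Nat.card_Icc, Nat.add_sub_cancel] at h2
  exact le_trans (by exact_mod_cast h2) (Nat.floor_le hb)

/-- the dyadic pieces -/
theorem In.dyadic (S : Finset ℕ) (hS : ∀ x ∈ S, 1 ≤ x) (i : ℕ) :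
    In (S.filter fun x => Nat.log 2 x = i) (2 ^ i) (2 * 2 ^ i) := fun x hx =>
  have h := dyadic_mem (hS x (mem_filter.1 hx).1) (mem_filter.1 hx).2
  ⟨h.1, h.2.le⟩

theorem VR_in {c D H1 : ℝ} (hc : 0 < c) (hD : 0 ≤ D) (hH : 0 ≤ H1) :
    In (VR c D H1) (H1 * D / (3 * c)) (24 * (H1 * D / (3 * c))) := fun ν hν => by
  obtain ⟨h1, h2⟩ := mem_filter.1 hν
  refine ⟨h2, ?_⟩
  have h3 : (ν : ℝ) ≤ 8 * H1 * D / c :=
    le_trans (by exact_mod_cast (mem_Icc.1 h1).2) (Nat.floor_le (by positivity))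
  exact h3.trans_eq (by field_simp; ring)

theorem mem_VR {c D H1 : ℝ} (hc : 0 < c) (hD : 0 ≤ D) (hH : 0 ≤ H1) {ν : ℕ} :
    ν ∈ VR c D H1 ↔ 1 ≤ ν ∧ (ν : ℝ) ≤ 8 * H1 * D / c ∧ H1 * D / (3 * c) ≤ ν := by
  rw [VR, mem_filter, mem_Icc, Nat.le_floor_iff (by positivity), and_assoc]

theorem mq_nonneg {V : ℝ} (h : 0 ≤ V) (m : ℤ) (q : ℕ) : 0 ≤ mq V m q := by
  unfold mq; split_ifs <;> positivity

variable {Z c Δ T τ : ℝ}

theorem Pa.dpos (h : Pa Z c Δ T) : 0 < Δ := by linarith [h.t, h.td]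

theorem Pa.d3 (h : Pa Z c Δ T) : 3 ≤ Δ := by linarith [h.t, h.td]

theorem Pa.dc (h : Pa Z c Δ T) : 3 * Δ ≤ c := by nlinarith [h.t, h.tc, h.dpos]

theorem Pa.c9 (h : Pa Z c Δ T) : 9 ≤ c := by linarith [h.d3, h.dc]

theorem Pa.cpos (h : Pa Z c Δ T) : 0 < c := by linarith [h.c9]

theorem Pa.cZ (h : Pa Z c Δ T) : c ≤ Z := by nlinarith [h.c9, h.cz]

theorem Pa.xi (h : Pa Z c Δ T) : T / Δ ≤ 1 := (div_le_one h.dpos).2 (by linarith [h.t, h.td])

theorem Sz.t1 (h : Sz Z τ) : 1 ≤ τ := by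
  linarith [h.lg, Real.log_nonneg (show 1 ≤ Z by linarith [h.z])]

theorem Sz.pow (h : Sz Z τ) {a b : ℕ} (hab : a ≤ b) : Z ^ a ≤ Z ^ b :=
  pow_le_pow_right₀ (by linarith [h.z]) hab

/-- few natural numbers divide a nonzero integer -/
theorem Sz.card_dvd (h : Sz Z τ) {m : ℤ} (h0 : m ≠ 0) (hm : |(m : ℝ)| ≤ Z ^ 5) {S : Finset ℕ}
    (hS : ∀ d ∈ S, (d : ℤ) ∣ m) : (S.card : ℝ) ≤ τ := by
  have h1 : S ⊆ m.natAbs.divisors := fun d hd =>
    Nat.mem_divisors.2 ⟨Int.natCast_dvd.1 (hS d hd), Int.natAbs_ne_zero.2 h0⟩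
  refine le_trans (by exact_mod_cast card_le_card h1) (h.dv _ ?_)
  rwa [Nat.cast_natAbs, Int.cast_abs]

/-- harmonic sums -/
theorem Sz.harm (h : Sz Z τ) {k : ℕ} (hk : 1 ≤ k) {S : Finset ℕ}
    (hS : ∀ d ∈ S, (d : ℝ) ≤ Z ^ k) : ∑ d ∈ S, 1 / (d : ℝ) ≤ k * τ := by
  have hz : 1 ≤ Z := by linarith [h.z]
  have h0 : 1 ≤ Z ^ k := one_le_pow₀ hz
  have h1 : ∑ d ∈ S, 1 / (d : ℝ) ≤ ∑ d ∈ insert 0 (Ioc 0 ⌊Z ^ k⌋₊), 1 / (d : ℝ) :=
    sum_le_sum_of_subset_of_nonneg (fun d hd => by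
      have := Nat.le_floor (hS d hd)
      simp only [mem_insert, mem_Ioc]; omega) fun _ _ _ => by positivity
  rw [sum_insert (by simp), Nat.cast_zero, div_zero, zero_add] at h1
  have h2 := MP_e86632_nt.sum_inv_le ⌊Z ^ k⌋₊
  have h3 : Real.log ⌊Z ^ k⌋₊ ≤ k * Real.log Z := by
    rw [← Real.log_pow]
    exact Real.log_le_log (by exact_mod_cast Nat.floor_pos.2 h0) (Nat.floor_le (by linarith))
  have h4 : (1 : ℝ) ≤ k := by exact_mod_cast hk
  nlinarith [h.lg]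

/-- number of dyadic pieces -/
theorem Sz.log2 (h : Sz Z τ) {m : ℕ} (hm : (m : ℝ) ≤ Z) : ((Nat.log 2 m + 1 : ℕ) : ℝ) ≤ 2 * τ := by
  have hl := Real.log_nonneg (show 1 ≤ Z by linarith [h.z])
  rcases Nat.eq_zero_or_pos m with rfl | h0
  · simp only [Nat.log_zero_right, zero_add, Nat.cast_one]
    linarith [h.t1]
  have h1 : ((2 : ℝ)) ^ Nat.log 2 m ≤ Z :=
    le_trans (by exact_mod_cast Nat.pow_log_le_self 2 h0.ne') hm
  have h2 := Real.log_le_log (by positivity) h1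
  rw [Real.log_pow] at h2
  have h3 := Real.log_two_gt_d9
  have h4 : (0 : ℝ) ≤ Nat.log 2 m := Nat.cast_nonneg _
  push_cast
  nlinarith [h.lg]

/-- sums of inverse squares -/
theorem sum_inv_sq_le (S : Finset ℕ) : ∑ d ∈ S, 1 / (d : ℝ) ^ 2 ≤ 2 := by
  have h1 := hasSum_zeta_two
  have h2 := sum_le_hasSum S (fun _ _ => by positivity) h1
  nlinarith [Real.pi_lt_d2, Real.pi_pos]

/-- integers of an interval in a residue class -/
theorem card_class_le {q : ℕ} (hq : 0 < q) (t0 : ℤ) {a M : ℝ} (hM : 0 ≤ M) (S : Finset ℤ)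
    (hS : ∀ t ∈ S, a ≤ t ∧ (t : ℝ) ≤ a + M ∧ (q : ℤ) ∣ t - t0) : (S.card : ℝ) ≤ M / q + 1 := by
  have q0 : (0 : ℝ) < q := by exact_mod_cast hq
  have key : ∀ t ∈ S, (((t - t0) / q : ℤ) : ℝ) = (t - t0) / q := fun t ht => by
    obtain ⟨u, hu⟩ := (hS t ht).2.2
    have e : (t : ℝ) - t0 = q * u := by exact_mod_cast hu
    rw [hu, Int.mul_ediv_cancel_left _ (by exact_mod_cast hq.ne'), e]; field_simp
  have h1 : S.card ≤ (Icc ⌈(a - t0) / q⌉ ⌊(a + M - t0) / q⌋).card := by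
    refine card_le_card_of_injOn (fun t => (t - t0) / q) (fun t ht => ?_) fun t ht s hs e => ?_
    · refine mem_coe.2 (mem_Icc.2 ⟨Int.ceil_le.2 ?_, Int.le_floor.2 ?_⟩) <;> rw [key t ht] <;>
        gcongr
      exacts [(hS t ht).1, (hS t ht).2.1]
    · have e1 : (((t - t0) / q : ℤ) : ℝ) = (((s - t0) / q : ℤ) : ℝ) := congrArg _ e
      rw [key t ht, key s hs, div_left_inj' q0.ne'] at e1
      exact_mod_cast sub_left_injective e1
  rw [Int.card_Icc] at h1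
  have h2 : (S.card : ℤ) ≤ max (⌊(a + M - t0) / q⌋ + 1 - ⌈(a - t0) / q⌉) 0 := by
    rw [← Int.ofNat_toNat]; exact_mod_cast h1
  have h3 := Int.floor_le ((a + M - t0) / q)
  have h4 := Int.le_ceil ((a - t0) / q)
  have h5 : (a + M - t0) / q - (a - t0) / q = M / q := by ring
  have h6 : 0 ≤ M / q := by positivity
  rcases le_max_iff.1 h2 with h7 | h7
  · have : (S.card : ℝ) ≤ ⌊(a + M - t0) / q⌋ + 1 - ⌈(a - t0) / q⌉ := by exact_mod_cast h7
    linarith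
  · have : (S.card : ℝ) ≤ 0 := by exact_mod_cast h7
    linarith

/-- nonzero multiples of `q` up to `L` in absolute value -/
theorem card_mult_le {q : ℕ} (hq : 0 < q) {L : ℝ} (hL : 0 ≤ L) (S : Finset ℤ)
    (hS : ∀ t ∈ S, t ≠ 0 ∧ |(t : ℝ)| ≤ L ∧ (q : ℤ) ∣ t) : (S.card : ℝ) ≤ 2 * L / q := by
  have h0 : (0 : ℤ) ∉ S := fun h => (hS 0 h).1 rfl
  have h1 := card_class_le hq 0 (a := -L) (M := 2 * L) (by linarith) (insert 0 S) fun t ht => by
    rcases mem_insert.1 ht with rfl | ht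
    · simp only [Int.cast_zero, sub_zero, dvd_zero, and_true]; constructor <;> linarith
    · have := abs_le.1 (hS t ht).2.1
      exact ⟨this.1, by linarith [this.2], by simpa using (hS t ht).2.2⟩
  rw [card_insert_of_notMem h0] at h1
  push_cast at h1
  linarith

end Basic

section Final

variable {Q Y τ c δ : ℝ}

theorem St.pa (h : St Q Y τ) (w : Wn Q Y c δ) : Pa (Q ^ 48) c (Dl Q Y) Y := by
  have y0 := h.y0
  have p24 := pow_pos h.qpos 24
  refine ⟨?_, h.y1, ?_, ?_, ?_⟩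
  · have := h.qpow (show 1 ≤ 48 by norm_num); rw [pow_one] at this; linarith [h.q0]
  · calc c ^ 2 ≤ (Q ^ 24) ^ 2 := pow_le_pow_left₀ (w.cpos h).le (w.chi h) 2
      _ = _ := by ring
  · rw [Dl, le_div_iff₀ (pow_pos h.ypos _)]
    have h1 := h.qy (a := 0) (b := 24) (k := 4) (by norm_num) (by norm_num)
    nlinarith [pow_pos h.ypos 3]
  · have e : 3 * Y * Dl Q Y = 3 * (Q ^ 24 / Y) := by
      have := h.ypos.ne'; unfold Dl; field_simp
    have h1 : Q ^ 24 / Y ≤ Q ^ 24 / 1000 := div_le_div_of_nonneg_left p24.le (by norm_num) y0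
    linarith [w.clo h]

theorem St.sz (h : St Q Y τ) : Sz (Q ^ 48) (50 * τ * Real.log Q) := by
  have l1 := h.log1
  have t1 := h.t1
  refine ⟨?_, fun m hm => (h.tau m (hm.trans ?_)).trans (by nlinarith), ?_⟩
  · have := h.qpow (show 1 ≤ 48 by norm_num); rw [pow_one] at this; linarith [h.q0]
  · rw [← pow_mul]; exact h.qpow (by norm_num)
  · rw [Real.log_pow]; push_cast; nlinarith

theorem St.ngl_le (h : St Q Y τ) : ngl (Q ^ 48) Y ≤ 1 := by
  have h1 := h.neg (x := Y / 4) (by linarith [h.y0])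
  have h2 : (Q ^ 48) ^ 20 * gs (Y / 4) ≤ Q ^ 960 * (1 / Q ^ 2000) := by
    rw [← pow_mul]; exact mul_le_mul_of_nonneg_left h1 (pow_pos h.qpos _).le
  have h3 : Q ^ 960 * (1 / Q ^ 2000) ≤ 1 / 2 := by
    rw [mul_one_div, div_le_iff₀ (pow_pos h.qpos _)]
    have := h.qpow (show 961 ≤ 2000 by norm_num)
    rw [pow_succ] at this
    nlinarith [h.q0, pow_pos h.qpos 960]
  have h4 : 1 / Q ^ 48 ≤ 1 / 2 := by
    refine one_div_le_one_div_of_le (by norm_num) ?_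
    have := h.qpow (show 1 ≤ 48 by norm_num); rw [pow_one] at this; linarith [h.q0]
  unfold ngl; linarith

/-- a constant times a small power of the divisor bound stays below `Y` -/
theorem St.ctau (h : St Q Y τ) {C : ℝ} {a : ℕ} (hC : (C * 50 ^ a) ^ 2 ≤ Y) (ha : a ≤ 25) :
    C * (50 * τ * Real.log Q) ^ a ≤ Y := by
  have := h.mix hC ha ha
  rw [mul_pow, mul_pow]
  linarith

theorem Wn.Hlow (h : St Q Y τ) (w : Wn Q Y c δ) : Y ≤ δ * (Hn Y δ + 1) := by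
  have := Nat.lt_floor_add_one (Y / δ)
  rw [div_lt_iff₀ (w.dpos h)] at this
  rw [Hn, mul_comm]; exact this.le

end Final

end Pool.Agent.P.MP_8be758_nt.Sq
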