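import Pool.Agent.P.MP_8be758_nt.Sq.Base

/-! Definitions and small facts for the sieve part. -/

set_option autoImplicit false

namespace Pool.Agent.P.MP_8be758_nt.Sq

open Finset Real Filter Topology ArithmeticFunction
open Pool.Agent.P.MP_e86632_nt (ee nn)
open Pool.Agent.P.MP_8be758_nt.Avg (gs Rough gs_pos gs_le_one)

/-- the weighted sum of `F` over rough numbers is small -/
def Small (F : ℝ → ℝ → ℕ → ℝ) : Prop := ∃ Y0 : ℝ, ∀ (Q Y τ E : ℝ) (w : ℕ → ℝ), Y0 ≤ Y →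
  St Q Y τ → AH Q Y w E →
    |∑ k ∈ Icc 1 (XN Q), w k * (rh (pz Q Y) k * F Q Y k)| ≤ Y ^ 3 * E

/-- sizes of the two sequences -/
structure SzB (Q : ℝ) (a b : ℕ → ℝ) : Prop where
  a0 : ∀ k, 0 ≤ a k
  a1 : ∀ k, a k ≤ 1 / Q ^ 11
  b0 : ∀ k, 0 ≤ b k
  b1 : ∀ k, b k ≤ 2 / Q ^ 24
  sup : ∀ k, ¬ InW Q k → b k = 0

/-- left end of the range of centres -/
noncomputable def cL (Q Y : ℝ) : ℝ := 199 / 200 * Q ^ 24 + Q ^ 24 / Y

/-- right end of the range of centres -/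
noncomputable def cR (Q Y : ℝ) : ℝ := Q ^ 24 - Q ^ 24 / Y

/-- primes up to `X` -/
noncomputable def PX (Q : ℝ) : Finset ℕ := (Icc 1 (XN Q)).filter Nat.Prime

theorem AH.zero {Q Y E : ℝ} {w : ℕ → ℝ} (h : AH Q Y w E) {k : ℕ} (hk : XN Q < k) : w k = 0 :=
  h.sup k (not_InW hk)

/-- a sum over numbers and their divisors as a double sum -/
theorem sum_div_swap (X : ℕ) (w : ℕ → ℝ) (hw : ∀ k, X < k → w k = 0) (F : ℕ → ℕ → ℝ) :
    ∑ k ∈ Icc 1 X, w k * ∑ d ∈ k.divisors, F d (k / d) =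
      ∑ d ∈ Icc 1 X, ∑ j ∈ Icc 1 X, w (d * j) * F d j := by
  classical
  simp only [mul_sum]
  rw [sum_sigma', ← sum_product',
    ← sum_filter_of_ne (p := fun x : ℕ × ℕ => x.1 * x.2 ≤ X) (s := Icc 1 X ×ˢ Icc 1 X)
      (fun x _ hx => not_lt.1 fun h => hx (by rw [hw _ h, zero_mul]))]
  refine sum_bij' (fun x _ => (x.2, x.1 / x.2)) (fun x _ => ⟨x.1 * x.2, x.1⟩) ?_ ?_ ?_ ?_ ?_
  · rintro ⟨k, d⟩ hx
    simp only [mem_sigma, mem_Icc, Nat.mem_divisors] at hx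
    obtain ⟨⟨h1, h2⟩, h3, -⟩ := hx
    have h4 := Nat.le_of_dvd h1 h3
    have h5 := Nat.pos_of_dvd_of_pos h3 h1
    simp only [mem_filter, mem_product, mem_Icc, Nat.mul_div_cancel' h3]
    exact ⟨⟨⟨h5, h4.trans h2⟩, Nat.div_pos h4 h5, (Nat.div_le_self _ _).trans h2⟩, h2⟩
  · rintro ⟨d, j⟩ hx
    simp only [mem_filter, mem_product, mem_Icc] at hx
    obtain ⟨⟨⟨h1, -⟩, h3, -⟩, h5⟩ := hx
    have := Nat.mul_pos h1 h3
    simp only [mem_sigma, mem_Icc, Nat.mem_divisors]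
    exact ⟨⟨this, h5⟩, Dvd.intro _ rfl, this.ne'⟩
  · rintro ⟨k, d⟩ hx
    simp only [mem_sigma, mem_Icc, Nat.mem_divisors] at hx
    simp [Nat.mul_div_cancel' hx.2.1]
  · rintro ⟨d, j⟩ hx
    simp only [mem_filter, mem_product, mem_Icc] at hx
    simp [Nat.mul_div_cancel_left j hx.1.1.1]
  · rintro ⟨k, d⟩ hx
    simp only [mem_sigma, mem_Icc, Nat.mem_divisors] at hx
    simp [Nat.mul_div_cancel' hx.2.1]

theorem InW.sqrt {Q : ℝ} {k : ℕ} (h : InW Q k) :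
    199 / 200 * Q ^ 24 < √(k : ℝ) ∧ √(k : ℝ) ≤ Q ^ 24 := by
  have p : 0 ≤ Q ^ 24 := by positivity
  refine ⟨(Real.lt_sqrt (by positivity)).2 ?_, Real.sqrt_le_iff.2 ⟨p, ?_⟩⟩
  · calc (199 / 200 * Q ^ 24) ^ 2 = 39601 / 40000 * Q ^ 48 := by ring
      _ < _ := h.1
  · calc (k : ℝ) ≤ Q ^ 48 := h.2
      _ = _ := by ring

theorem bt_nonneg (Q Y c : ℝ) (k : ℕ) : 0 ≤ bt Q Y c k := by
  unfold bt bw; split_ifs
  · exact div_nonneg (gs_pos _).le (Real.sqrt_nonneg _)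
  · exact le_rfl

theorem St.bt_le {Q Y τ : ℝ} (h : St Q Y τ) (c : ℝ) (k : ℕ) : bt Q Y c k ≤ 2 / Q ^ 24 := by
  have p := pow_pos h.qpos 24
  unfold bt bw; split_ifs with hk
  · have h1 := hk.sqrt.1
    rw [div_le_div_iff₀ (by linarith) p]
    nlinarith [gs_le_one ((√(k : ℝ) - c) / Dl Q Y)]
  · positivity

theorem Wn.sz {Q Y τ c δ : ℝ} (h : St Q Y τ) (w : Wn Q Y c δ) (l : ℝ) :
    SzB Q (aa Q Y c δ l) (bt Q Y c) := by
  have d0 := w.dpos h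
  have d1 : δ ≤ 1 := by linarith [w.dle h]
  have q0 := h.qpos
  refine ⟨fun k => mul_nonneg (bt_nonneg _ _ _ _) (comb_nonneg d0 _ _), fun k => ?_,
    bt_nonneg Q Y c, h.bt_le c, fun k hk => if_neg hk⟩
  have h1 : comb δ l √(k : ℝ) ≤ 8 * (Q ^ 12 * Y ^ 2) :=
    (comb_le d0 d1 _ _).trans (by
      rw [div_eq_mul_one_div]; exact mul_le_mul_of_nonneg_left (w.dinv h) (by norm_num))
  have h2 : 16 * Y ^ 2 ≤ Q := by
    have := h.ypow (k := 3) (by norm_num)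
    nlinarith [h.y0, pow_pos h.ypos 2]
  calc aa Q Y c δ l k ≤ 2 / Q ^ 24 * (8 * (Q ^ 12 * Y ^ 2)) :=
        mul_le_mul (h.bt_le c k) h1 (comb_nonneg d0 _ _) (by positivity)
    _ = 16 * Y ^ 2 / Q * (1 / Q ^ 11) := by field_simp; ring
    _ ≤ 1 * (1 / Q ^ 11) :=
        mul_le_mul_of_nonneg_right ((div_le_one q0).2 h2) (by positivity)
    _ = _ := one_mul _

end Pool.Agent.P.MP_8be758_nt.Sq
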