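import Pool.Agent.P.MP_8be758_nt.Avg.GS
import Pool.Agent.P.MP_8be758_nt.Avg.FAR

/-! Definitions for the distribution of square roots of primes modulo one. -/

set_option autoImplicit false

namespace Pool.Agent.P.MP_8be758_nt.Sq

open Finset Real Filter Topology ArithmeticFunction
open Pool.Agent.P.MP_e86632_nt (ee nn)
open Pool.Agent.P.MP_8be758_nt.Avg (gs Rough)

noncomputable section

/-- standing size conditions; `X = Q ^ 48`, `Y` is a small power of `X` -/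
structure St (Q Y τ : ℝ) : Prop where
  y0 : 1000 ≤ Y
  q1 : Y ^ 1000 ≤ Q
  t1 : 1 ≤ τ
  tau : ∀ m : ℕ, (m : ℝ) ≤ Q ^ 300 → (m.divisors.card : ℝ) ≤ τ
  t2 : τ ^ 100 ≤ Y
  lg : Real.log Q ^ 100 ≤ Y
  ng : Q ^ 2000 * gs (Y / 20) ≤ 1

/-- conditions on the centre of the window and on the width of the comb -/
structure Wn (Q Y c δ : ℝ) : Prop where
  c1 : 199 / 200 * Q ^ 24 + Q ^ 24 / Y ≤ c
  c2 : c ≤ Q ^ 24 - Q ^ 24 / Y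
  d1 : 1 / (Q ^ 12 * Y ^ 2) ≤ δ
  d2 : δ ≤ 1 / Y

/-- the long window -/
def InW (Q : ℝ) (k : ℕ) : Prop := 39601 / 40000 * Q ^ 48 < (k : ℝ) ∧ (k : ℝ) ≤ Q ^ 48

instance decInW (Q : ℝ) : DecidablePred (InW Q) := Classical.decPred _

/-- integer part of `X` -/
def XN (Q : ℝ) : ℕ := ⌊Q ^ 48⌋₊

/-- width of the narrow window -/
def Dl (Q Y : ℝ) : ℝ := Q ^ 24 / Y ^ 2

/-- the narrow window -/
def bw (Q Y c : ℝ) (k : ℕ) : ℝ := gs ((√(k : ℝ) - c) / Dl Q Y) / √(k : ℝ)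

/-- Gaussian comb of mean one -/
def comb (δ l y : ℝ) : ℝ := 1 / δ * ∑' j : ℤ, gs (1 / δ * (j - (y - l)))

/-- the comparison sequence -/
def bt (Q Y c : ℝ) (k : ℕ) : ℝ := if InW Q k then bw Q Y c k else 0

/-- the sequence to be sifted -/
def aa (Q Y c δ l : ℝ) (k : ℕ) : ℝ := bt Q Y c k * comb δ l √(k : ℝ)

/-- the difference -/
def wt (Q Y c δ l : ℝ) (k : ℕ) : ℝ := aa Q Y c δ l k - bt Q Y c k

/-- frequency cutoff -/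
def Hn (Y δ : ℝ) : ℕ := ⌊Y / δ⌋₊

/-- nonzero frequencies -/
def HS (Y δ : ℝ) : Finset ℤ := (Icc (-(Hn Y δ : ℤ)) (Hn Y δ)).erase 0

/-- Fourier coefficient of the comb -/
def gam (δ l : ℝ) (h : ℤ) : ℂ := (gs (δ * h) : ℂ) * ee (-(h * l))

/-- trigonometric model of `wt` -/
def wf (Q Y c δ l : ℝ) (k : ℕ) : ℂ :=
  (bw Q Y c k : ℂ) * ∑ h ∈ HS Y δ, gam δ l h * ee (h * √(k : ℝ))

/-- the part with positive frequencies -/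
def wp (Q Y c δ l : ℝ) (k : ℕ) : ℂ :=
  (bw Q Y c k : ℂ) * ∑ h ∈ Icc 1 (Hn Y δ), gam δ l (h : ℕ) * ee ((h : ℕ) * √(k : ℝ))

/-- sum over the multiples of `d` -/
def Sj (Q : ℝ) (w : ℕ → ℝ) (d : ℕ) : ℝ := ∑ j ∈ Icc 1 (XN Q), w (d * j)

/-- Gaussian integral with a quadratic phase -/
def GI (c Δ h β : ℝ) : ℂ := ∫ y : ℝ, (gs ((y - c) / Δ) : ℂ) * ee (h * y - β * y ^ 2)

/-- the eighth root of unity of the Fresnel integral -/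
def k0 (β : ℝ) : ℂ := if 0 < β then ee (-(1 / 8)) else ee (1 / 8)

/-- range of the dual variable -/
def NS (c D : ℝ) (h : ℕ) : Finset ℕ := Icc ⌈h * D / (3 * c)⌉₊ ⌊4 * h * D / c⌋₊

/-- the dual sum -/
def FF (c D δ l ξ : ℝ) (S : Finset ℕ) (d : ℕ) : ℂ :=
  ∑ h ∈ S, gam δ l (h : ℕ) * ∑ ν ∈ NS c D h, ee (d * ((h + ξ) ^ 2 / (4 * ν))) / ((√(ν : ℝ) : ℝ) : ℂ)

/-- smooth form of the minimum of `V` and the inverse distance to the integers -/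
def mn (V x : ℝ) : ℝ := V / (1 + V * nn x)

/-- length of the sum after the Cauchy-Schwarz inequality -/
def Mx (Q N : ℝ) : ℕ := ⌈4 * Q ^ 48 / N⌉₊

/-- correlation sum -/
def CC (Q : ℝ) (w : ℕ → ℝ) (N : ℝ) (n1 n2 : ℕ) : ℝ :=
  ∑ m ∈ Icc 1 (Mx Q N), √(m : ℝ) * (w (m * n1) * w (m * n2))

/-- dual correlation sum -/
def JS (Y δ l t σ : ℝ) (n1 n2 : ℕ) (M : Finset ℤ) : ℂ :=
  ∑ h1 ∈ HS Y δ, ∑ h2 ∈ HS Y δ, gam δ l h1 * (starRingEnd ℂ) (gam δ l h2) *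
    ∑ μ ∈ M, GI t σ (h1 * √(n1 : ℝ) - h2 * √(n2 : ℝ)) μ

/-- number of nearly diagonal pairs of frequencies -/
def DG (Y δ ε : ℝ) (n1 n2 : ℕ) : ℕ :=
  ((HS Y δ ×ˢ HS Y δ).filter fun x => |x.1 * √(n1 : ℝ) - x.2 * √(n2 : ℝ)| ≤ ε).card

/-- size of a Bohr set -/
def BC (H k : ℕ) (ε : ℝ) : ℕ := ((Icc 1 H).filter fun h : ℕ => nn (2 * h * √(k : ℝ)) ≤ ε).card

/-- kernels that factor through a Euclidean space -/
def G2 {ι1 ι2 : Type} (S1 : Finset ι1) (S2 : Finset ι2) (κ : ι1 → ι2 → ℝ) (B : ℝ) : Prop :=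
  ∃ (ι : Type) (T : Finset ι) (u : ι → ι1 → ℝ) (v : ι → ι2 → ℝ),
    (∀ a ∈ S1, ∀ b ∈ S2, κ a b = ∑ t ∈ T, u t a * v t b) ∧
    (∀ a ∈ S1, ∑ t ∈ T, u t a ^ 2 ≤ B) ∧ ∀ b ∈ S2, ∑ t ∈ T, v t b ^ 2 ≤ B

/-- lower end of the type II range -/
def pA (Q Y : ℝ) : ℝ := Q ^ 12 * Y ^ 100

/-- upper end of the type II range -/
def pB (Q Y : ℝ) : ℝ := Q ^ 16 / Y ^ 100

/-- sifting level -/
def pz (Q Y : ℝ) : ℝ := Q ^ 4 / Y ^ 200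

/-- bound for visible factors -/
def pW (Q Y : ℝ) : ℝ := Q ^ 18 / Y ^ 200

/-- type I hypothesis -/
def HI (Q Y : ℝ) (w : ℕ → ℝ) (E : ℝ) : Prop :=
  ∑ d ∈ Icc 1 ⌊Q ^ 30 / Y ^ 100⌋₊, |Sj Q w d| ≤ E

/-- type I hypothesis with two smooth variables -/
def HI2 (Q Y : ℝ) (w : ℕ → ℝ) (E : ℝ) : Prop :=
  ∀ lo hi : ℕ → ℕ, (∀ r, (hi r : ℝ) ≤ Q ^ 34) →
    ∑ r ∈ Icc 1 ⌊pA Q Y⌋₊, |∑ v ∈ Ioc (lo r) (hi r), Sj Q w (r * v)| ≤ E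

/-- bound for the correlation sums -/
def HC (Q Y : ℝ) (w : ℕ → ℝ) (E : ℝ) : Prop :=
  ∀ (N : ℝ) (S : Finset ℕ), pA Q Y ≤ N → N ≤ pB Q Y → (∀ n ∈ S, N ≤ n ∧ (n : ℝ) < 2 * N) →
    √(Mx Q N : ℝ) * ∑ n1 ∈ S, ∑ n2 ∈ S, |CC Q w N n1 n2| ≤ E ^ 2

/-- type II hypothesis -/
def HII (Q Y : ℝ) (w : ℕ → ℝ) (E : ℝ) : Prop :=
  ∀ (ι1 ι2 : Type) (S1 : Finset ι1) (S2 : Finset ι2) (N : ι1 → ℕ) (M : ι2 → ℕ)
    (κ : ι1 → ι2 → ℝ) (B f : ℝ), 0 ≤ B → 0 ≤ f →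
    (∀ a ∈ S1, pA Q Y ≤ N a ∧ (N a : ℝ) < pB Q Y) → (∀ b ∈ S2, 1 ≤ M b) →
    (∀ n, ((S1.filter fun a => N a = n).card : ℝ) ≤ f) →
    (∀ m, (m : ℝ) ≤ Q ^ 48 → ((S2.filter fun b => M b = m).card : ℝ) ≤ f) → G2 S1 S2 κ B →
    |∑ a ∈ S1, ∑ b ∈ S2, κ a b * w (N a * M b)| ≤ f ^ 2 * B * E

/-- the arithmetic information -/
structure AH (Q Y : ℝ) (w : ℕ → ℝ) (E : ℝ) : Prop where
  e0 : 0 ≤ E
  sup : ∀ k, ¬ InW Q k → w k = 0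
  t1 : HI Q Y w E
  t2 : HI2 Q Y w E
  t3 : HII Q Y w E

/-- indicator of rough numbers -/
def rh (z : ℝ) (k : ℕ) : ℝ := if Rough z k then 1 else 0

/-- all prime factors are at most `z` -/
def Smo (z : ℝ) (e : ℕ) : Prop := ∀ p : ℕ, p.Prime → p ∣ e → (p : ℝ) ≤ z

instance decSmo (z : ℝ) : DecidablePred (Smo z) := Classical.decPred _

/-- greatest prime factor, zero for one -/
def gp (e : ℕ) : ℕ := e.primeFactors.sup id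

/-- the Moebius function as a real number -/
def mu (e : ℕ) : ℝ := (moebius e : ℤ)

/-- the condition on a crossing pair -/
def Crs (z A : ℝ) (r e p : ℕ) : Prop :=
  p.Prime ∧ (p : ℝ) ≤ z ∧ Smo z e ∧ (∀ q : ℕ, q.Prime → q ∣ e → p < q) ∧
    ((r * e : ℕ) : ℝ) < A ∧ A ≤ ((r * e * p : ℕ) : ℝ)

instance decCrs (z A : ℝ) (r e p : ℕ) : Decidable (Crs z A r e p) := Classical.dec _

/-- short smooth divisors -/
def E0 (z A : ℝ) (r X : ℕ) : Finset ℕ :=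
  (Icc 1 X).filter fun e => Smo z e ∧ ((r * e : ℕ) : ℝ) < A

/-- crossing pairs -/
def E1 (z A : ℝ) (r X : ℕ) : Finset (ℕ × ℕ) :=
  (Icc 1 X ×ˢ Icc 1 X).filter fun x => Crs z A r x.1 x.2

/-- truncated Moebius sum -/
def M1 (Q Y : ℝ) (k : ℕ) : ℝ := ∑ r ∈ k.divisors, if (r : ℝ) < pA Q Y then mu r else 0

/-- truncated Moebius sum over central factorizations -/
def MT (Q Y : ℝ) (k : ℕ) : ℝ :=
  ∑ x ∈ k.divisorsAntidiagonal, if Q ^ 14 ≤ (x.1 : ℝ) ∧ (x.1 : ℝ) < Q ^ 34 then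
    ∑ e ∈ x.1.divisors, ∑ f ∈ x.2.divisors,
      (if ((e * f : ℕ) : ℝ) < pA Q Y then mu e * mu f else 0) else 0

/-- pairs of small primes with a large product -/
def N2 (Q Y : ℝ) (k : ℕ) : ℝ :=
  ∑ p ∈ k.primeFactors, ∑ q ∈ k.primeFactors,
    if p < q ∧ (q : ℝ) < pA Q Y ∧ pW Q Y ≤ ((p * q : ℕ) : ℝ) then 1 else 0

/-- visible triples of small primes -/
def N3 (Q Y : ℝ) (k : ℕ) : ℝ :=
  ∑ p ∈ k.primeFactors, ∑ q ∈ k.primeFactors, ∑ r ∈ k.primeFactors,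
    if p < q ∧ q < r ∧ (r : ℝ) < pA Q Y ∧ ((p * q : ℕ) : ℝ) < pW Q Y ∧ pA Q Y ≤ ((p * r : ℕ) : ℝ)
    then (if ((p * q : ℕ) : ℝ) < pA Q Y then 1 else 3) else 0

/-- a small prime and two balanced cofactors -/
def N4 (Q Y : ℝ) (k : ℕ) : ℝ :=
  ∑ p ∈ k.primeFactors, ∑ d ∈ (k / p).divisors,
    if (p : ℝ) < pA Q Y ∧ pW Q Y ≤ (d : ℝ) ∧ (d : ℝ) < Q ^ 21 * Y ^ 301 ∧
      Q ^ 27 / Y ^ 300 ≤ ((p * d : ℕ) : ℝ) ∧ ((p * d : ℕ) : ℝ) < Q ^ 30 * Y ^ 201 then 1 else 0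

/-- the narrow zones -/
def Zn (Q Y : ℝ) (d : ℕ) : Prop :=
  1 < d ∧ ((d : ℝ) < Q ^ 4 ∨ (Q ^ 12 / Y ≤ (d : ℝ) ∧ (d : ℝ) < pA Q Y) ∨
    (pB Q Y ≤ (d : ℝ) ∧ (d : ℝ) < Q ^ 16 * Y))

instance decZn (Q Y : ℝ) : DecidablePred (Zn Q Y) := Classical.decPred _

/-- number of divisors in the narrow zones -/
def NZ (Q Y : ℝ) (k : ℕ) : ℝ := ∑ d ∈ k.divisors, if Zn Q Y d then 1 else 0

/-- the sieve function -/
def gg (Q Y : ℝ) (k : ℕ) : ℝ :=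
  M1 Q Y k - MT Q Y k / 2 - 2 * N2 Q Y k - 2 * N3 Q Y k - 8 / 15 * N4 Q Y k - 2 ^ 26 * NZ Q Y k

/-- there is a divisor in the type II range -/
def Good (Q Y : ℝ) (k : ℕ) : Prop := ∃ d ∈ k.divisors, pA Q Y ≤ (d : ℝ) ∧ (d : ℝ) < pB Q Y

instance decGood (Q Y : ℝ) : DecidablePred (Good Q Y) := Classical.decPred _

/-- the loss -/
def Ls (Q Y : ℝ) (k : ℕ) : ℝ :=
  if Squarefree k ∧ Rough (pz Q Y) k ∧ ¬ Good Q Y k then max 0 (-gg Q Y k) else 0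

/-- product over a set of positions -/
def PP {s : ℕ} (p : Fin s → ℕ) (A : Finset (Fin s)) : ℕ := ∏ i ∈ A, p i

/-- the thresholds -/
def th (Q Y : ℝ) : Fin 11 → ℝ :=
  ![pA Q Y, pW Q Y, Q ^ 14, Q ^ 34, Q ^ 21 * Y ^ 301, Q ^ 27 / Y ^ 300, Q ^ 30 * Y ^ 201, Q ^ 4,
    Q ^ 12 / Y, pB Q Y, Q ^ 16 * Y]

/-- the thresholds on the logarithmic scale -/
def tl (y : ℝ) : Fin 11 → ℝ :=
  ![12 + 100 * y, 18 - 200 * y, 14, 34, 21 + 301 * y, 27 - 300 * y, 30 + 201 * y, 4, 12 - y,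
    16 - 100 * y, 16 + y]

/-- table of comparisons -/
abbrev Tb (s : ℕ) : Type := Finset (Fin s) → Fin 11 → Bool

/-- the table of a tuple of primes -/
def chi (Q Y : ℝ) {s : ℕ} (p : Fin s → ℕ) : Tb s := fun A t => decide ((PP p A : ℝ) < th Q Y t)

/-- the table of a tuple of sizes -/
def chl (y : ℝ) {s : ℕ} (x : Fin s → ℝ) : Tb s := fun A t => decide (∑ i ∈ A, x i < tl y t)

/-- table form of `M1` -/
def M1t {s : ℕ} (χ : Tb s) : ℝ := ∑ A : Finset (Fin s), if χ A 0 then (-1) ^ A.card else 0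

/-- number of central sets -/
def TCt {s : ℕ} (χ : Tb s) : ℝ := ∑ A : Finset (Fin s), if ¬ χ A 2 ∧ χ A 3 then 1 else 0

/-- table form of `N2` -/
def N2t {s : ℕ} (χ : Tb s) : ℝ :=
  ∑ i : Fin s, ∑ j : Fin s, if i < j ∧ χ {j} 0 ∧ ¬ χ {i, j} 1 then 1 else 0

/-- table form of `N3` -/
def N3t {s : ℕ} (χ : Tb s) : ℝ :=
  ∑ i : Fin s, ∑ j : Fin s, ∑ l : Fin s,
    if i < j ∧ j < l ∧ χ {l} 0 ∧ χ {i, j} 1 ∧ ¬ χ {i, l} 0 then (if χ {i, j} 0 then 1 else 3) else 0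

/-- table form of `N4` -/
def N4t {s : ℕ} (χ : Tb s) : ℝ :=
  ∑ i : Fin s, ∑ A : Finset (Fin s),
    if i ∉ A ∧ χ {i} 0 ∧ ¬ χ A 1 ∧ χ A 4 ∧ ¬ χ (insert i A) 5 ∧ χ (insert i A) 6 then 1 else 0

/-- table form of `NZ` -/
def NZt {s : ℕ} (χ : Tb s) : ℝ :=
  ∑ A : Finset (Fin s),
    if A ≠ ∅ ∧ (χ A 7 ∨ (¬ χ A 8 ∧ χ A 0) ∨ (¬ χ A 9 ∧ χ A 10)) then 1 else 0

/-- table form of `gg` -/
def Phi {s : ℕ} (χ : Tb s) : ℝ :=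
  M1t χ - TCt χ * M1t χ / 2 - 2 * N2t χ - 2 * N3t χ - 8 / 15 * N4t χ - 2 ^ 26 * NZt χ

/-- a tuple of increasing primes -/
def Tup {s : ℕ} (p : Fin s → ℕ) : Prop := StrictMono p ∧ ∀ i, (p i).Prime

/-- primes above the sifting level -/
def PS (Q Y : ℝ) : Finset ℕ := (Icc 1 (XN Q)).filter fun p => p.Prime ∧ pz Q Y < p

/-- tuples of such primes -/
def TA (Q Y : ℝ) (s : ℕ) : Finset (Fin s → ℕ) := Fintype.piFinset fun _ => PS Q Y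

open Classical in
/-- increasing tuples -/
def TU (Q Y : ℝ) (s : ℕ) : Finset (Fin s → ℕ) := (TA Q Y s).filter StrictMono

/-- index set of the comparisons -/
abbrev At (s : ℕ) : Type := (Finset (Fin s) × Fin 11) ⊕ (Fin s × Fin s)

/-- all comparisons of a tuple -/
def atm (Q Y : ℝ) {s : ℕ} (p : Fin s → ℕ) : At s → Bool :=
  Sum.elim (fun x => chi Q Y p x.1 x.2) fun x => decide (p x.1 < p x.2)

/-- configurations of sizes without type II factor and outside the narrow zones -/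
structure Cf {s : ℕ} (x : Fin s → ℝ) (y : ℝ) : Prop where
  mono : StrictMono x
  y0 : 0 < y
  y1 : y ≤ 1 / 1000
  lo : ∀ i, 4 ≤ x i
  tot1 : 48 - y < ∑ i, x i
  tot2 : ∑ i, x i ≤ 48
  gap : ∀ A : Finset (Fin s), ∑ i ∈ A, x i < 12 - y ∨ 16 + y ≤ ∑ i ∈ A, x i

/-- number of prime values -/
def PA (A n : ℕ) : ℕ := ((range (n + 1)).filter fun x => (x ^ 2 + x + A).Prime).card

open Classical in
/-- primes of the window whose square root lies in a given interval modulo one -/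
def TP (Q l d : ℝ) : Finset ℕ :=
  (Icc 1 (XN Q)).filter fun p => p.Prime ∧ InW Q p ∧ ∃ j : ℤ, l ≤ √(p : ℝ) - j ∧ √(p : ℝ) - j ≤ l + d

end

end Pool.Agent.P.MP_8be758_nt.Sq
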