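import Mathlib

/-! The finite computation for the loss. -/

set_option autoImplicit false

namespace Pool.Agent.P.MP_8be758_nt.Sq

noncomputable section

/-- sum over elements -/
def s1 (f : ℕ × ℕ → ℕ) (E : List (ℕ × ℕ)) : ℕ := List.rec 0 (fun e _ r => f e + r) E

/-- sum over pairs of a decreasing list -/
def s2 (f : ℕ × ℕ → ℕ × ℕ → ℕ) (E : List (ℕ × ℕ)) : ℕ :=
  List.rec 0 (fun e E r => s1 (fun u => f u e) E + r) E

/-- sum over triples of a decreasing list -/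
def s3 (f : ℕ × ℕ → ℕ × ℕ → ℕ × ℕ → ℕ) (E : List (ℕ × ℕ)) : ℕ :=
  List.rec 0 (fun e E r => s2 (fun u v => f u v e) E + r) E

/-- sum over sublists -/
def sS (f : ℕ → ℕ → ℕ) (E : List (ℕ × ℕ)) : ℕ → ℕ → ℕ :=
  List.rec f (fun e _ r a b => r a b + r (a + e.1) (b + e.2)) E

/-- a test on all sublists -/
def aS (f : ℕ → ℕ → Bool) (E : List (ℕ × ℕ)) : ℕ → ℕ → Bool :=
  List.rec f (fun e _ r a b => r a b && r (a + e.1) (b + e.2)) E

/-- the test for `N4` -/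
def c4 (e : ℕ × ℕ) (a b : ℕ) : ℕ :=
  bif Nat.ble 108 b && Nat.ble a 126 && Nat.ble 162 (b + e.2) && Nat.ble (a + e.1) 180 then 1 else 0

/-- sum over an element and a sublist of the rest, with a flag for the chosen element -/
def s4 (E : List (ℕ × ℕ)) : List (ℕ × ℕ) → ℕ :=
  List.rec (fun _ => 0) (fun e E r P => (bif Nat.ble 72 e.1 then 0 else
    sS (sS (c4 e) E) P 0 0) + r (e :: P)) E

/-- small elements -/
def c1 (e : ℕ × ℕ) : ℕ := bif Nat.ble 72 e.1 then 0 else 1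

/-- small pairs -/
def cj (u v : ℕ × ℕ) : ℕ := bif Nat.ble 72 (u.1 + v.1) then 0 else 1

/-- the test for `N2` -/
def c2 (u v : ℕ × ℕ) : ℕ := bif Nat.ble v.1 71 && Nat.ble 108 (u.2 + v.2) then 1 else 0

/-- the test for `N3` -/
def c3 (u v w : ℕ × ℕ) : ℕ :=
  bif Nat.ble w.1 71 && Nat.ble (u.1 + v.1) 107 && Nat.ble 72 (u.1 + w.1) then
    (bif Nat.ble 72 (u.1 + v.1) then 3 else 1) else 0

/-- feasibility of an interval -/
def okp (a b : ℕ) : Bool := (Nat.ble a 71 || Nat.ble 97 b) && (Nat.ble a 191 || Nat.ble 217 b)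

/-- force the evaluation of a number -/
def frc (x : ℕ) (k : ℕ → ℕ) : ℕ := Nat.casesOn x (k 0) fun n => k n.succ

/-- fifteen times the loss on a box -/
def lf (E : List (ℕ × ℕ)) : ℕ :=
  frc (s1 c1 E) fun K => frc (s2 cj E) fun J => frc (2 ^ (E.length - 1)) fun P =>
    15 * ((1 + J) * P + K * (2 + K + J)) + (30 * s2 c2 E + 30 * s3 c3 E + 8 * s4 E []) -
      15 * (K * P + (1 + J) * (2 + K + J))

/-- a finite loop -/
def lp (f : ℕ → ℕ) (c : ℕ) : ℕ → ℕ → ℕ :=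
  Nat.rec (fun _ r => r) (fun _ ih a r => frc (a + 1) fun a' => frc (r + f a) fun r' => ih a' r') c

/-- the tree -/
def VV (n : ℕ) : List (ℕ × ℕ) → ℕ → ℕ → ℕ → ℕ :=
  Nat.rec (fun _ _ _ _ => 0) (fun _ ih E b σ lo =>
    lp (fun a => bif aS okp E a (a + 1) then
        (frc (b + a) fun b' => frc (σ + (a + 1)) fun σ' =>
          ih ((a, a + 1) :: E) b' σ' a / a + 1) else 0)
      (((288 - b) / 2 + 1) - lo) lo
      (frc (288 - σ) fun u => frc (288 - b) fun v => lf ((u, v) :: E) * 19200000 / u + 1)) n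

/-- the bound for the loss as a function of the boxes -/
def Lf : (s : ℕ) → List (ℕ × ℕ) → ℕ → ℕ → ℕ → (Fin s → ℕ) → ℝ
  | 0, E, b, σ, _, _ => if σ < 288 then lf ((288 - σ, 288 - b) :: E) / 15 else 0
  | s + 1, E, b, σ, lo, i => if lo ≤ i 0 ∧ b + 2 * i 0 ≤ 288 ∧ aS okp E (i 0) (i 0 + 1) = true then
      Lf s ((i 0, i 0 + 1) :: E) (b + i 0) (σ + (i 0 + 1)) (i 0) (fun j => i j.succ) else 0

end

theorem frc_eq (x : ℕ) (k : ℕ → ℕ) : frc x k = k x := by cases x <;> rfl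

variable (e : ℕ × ℕ) (E P : List (ℕ × ℕ)) (a b : ℕ)

theorem s1_nil (f : ℕ × ℕ → ℕ) : s1 f [] = 0 := rfl
theorem s1_cons (f : ℕ × ℕ → ℕ) : s1 f (e :: E) = f e + s1 f E := rfl
theorem s2_nil (f : ℕ × ℕ → ℕ × ℕ → ℕ) : s2 f [] = 0 := rfl
theorem s2_cons (f : ℕ × ℕ → ℕ × ℕ → ℕ) : s2 f (e :: E) = s1 (fun u => f u e) E + s2 f E := rfl
theorem s3_nil (f : ℕ × ℕ → ℕ × ℕ → ℕ × ℕ → ℕ) : s3 f [] = 0 := rfl
theorem s3_cons (f : ℕ × ℕ → ℕ × ℕ → ℕ × ℕ → ℕ) :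
    s3 f (e :: E) = s2 (fun u v => f u v e) E + s3 f E := rfl
theorem sS_nil (f : ℕ → ℕ → ℕ) : sS f [] a b = f a b := rfl
theorem sS_cons (f : ℕ → ℕ → ℕ) :
    sS f (e :: E) a b = sS f E a b + sS f E (a + e.1) (b + e.2) := rfl
theorem aS_nil (f : ℕ → ℕ → Bool) : aS f [] a b = f a b := rfl
theorem aS_cons (f : ℕ → ℕ → Bool) :
    aS f (e :: E) a b = (aS f E a b && aS f E (a + e.1) (b + e.2)) := rfl
theorem s4_nil : s4 [] P = 0 := rfl
theorem s4_cons : s4 (e :: E) P =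
    (bif Nat.ble 72 e.1 then 0 else sS (sS (c4 e) E) P 0 0) + s4 E (e :: P) := rfl

end Pool.Agent.P.MP_8be758_nt.Sq
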