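import Pool.Agent.P.MP_8be758_nt.Sq.BaseA

/-! Statements of the analytic steps. -/

set_option autoImplicit false

namespace Pool.Agent.P.MP_8be758_nt.Sq

open Finset Real Filter Topology
open Pool.Agent.P.MP_e86632_nt (ee nn norm_ee ee_add ee_neg)
open Pool.Agent.P.MP_8be758_nt.Avg (gs gs_pos gs_anti gs_le_one gs_neg)

/-! ### Gaussian integrals and Poisson summation -/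

-- deps:
def S_GIa : Prop :=
  (∀ t s θ β Λ : ℝ, 0 < s → 0 ≤ Λ → 3 * Λ * s ≤ t → |β| * t ≤ |θ - 2 * β * t| →
    2 * Λ ≤ |θ - 2 * β * t| * s → ‖GI t s θ β‖ ≤ s * gs Λ) ∧
  ∀ t s θ : ℝ, 0 < s → ‖GI t s θ 0‖ ≤ s * gs (s * θ)

-- deps:
def S_GIb : Prop := ∀ t s θ β : ℝ, 0 < s → β ≠ 0 →
  GI t s θ β = k0 β / ((√(2 * |β|) : ℝ) : ℂ) *
    AV s fun x => ee (-(t * x) + (θ + x) ^ 2 / (4 * β))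

-- deps:
-- imports: Pool.Agent.P.MP_8be758_nt.Av2.GP Pool.Agent.P.MP_8be758_nt.Av2.POI Pool.Agent.P.MP_8be758_nt.Av2.CUT
def S_GP1 : Prop := ∃ C : ℝ, 0 < C ∧ ∀ (t s θ : ℝ) (n1 P : ℕ), 0 < s → s ≤ t → 1 ≤ t →
  4 * t ^ 2 ≤ n1 → 0 < P →
  ‖∑ u ∈ Icc 1 n1, ((gs ((√(u : ℝ) - t) / s) / √(u : ℝ) : ℝ) : ℂ) * ee (θ * √(u : ℝ)) -
      2 * ∑ p ∈ Icc (-(P : ℤ)) P, GI t s θ p‖ ≤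
    C * ((1 + (t / s) ^ 2 + |θ| * t) ^ 2 / P + (n1 + t * P) * gs (t / (6 * s)))

-- deps: GIa GP1
def S_GP2 : Prop := ∃ C : ℝ, 0 < C ∧ ∀ (Z T t s θ : ℝ) (n1 : ℕ) (A : Finset ℤ), 10 ≤ Z → 1 ≤ T →
  0 < s → 3 * T * s ≤ t → 1 ≤ t → t ≤ Z → (t / s) ^ 2 ≤ Z → |θ| * t ≤ Z → 4 * t ^ 2 ≤ n1 →
  (n1 : ℝ) ≤ Z ^ 2 → (∀ p ∈ A, |(p : ℝ)| ≤ Z) →
  (∀ p : ℤ, p ∉ A → |(p : ℝ)| * t ≤ |θ - 2 * p * t| ∧ T ≤ |θ - 2 * p * t| * s) →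
  ‖∑ u ∈ Icc 1 n1, ((gs ((√(u : ℝ) - t) / s) / √(u : ℝ) : ℝ) : ℂ) * ee (θ * √(u : ℝ)) -
      2 * ∑ p ∈ A, GI t s θ p‖ ≤ C * (1 / Z ^ 6 + Z ^ 10 * gs (T / 2))

-- deps: GIb GP2
def S_PF1 : Prop := ∃ C : ℝ, 0 < C ∧
  ∀ (Z c Δ T D H1 : ℝ) (n1 d h : ℕ), Pa Z c Δ T → 1 ≤ D → 4 * D ≤ c ^ 2 → D ≤ d → (d : ℝ) ≤ 4 * D →
    1 ≤ H1 → 2 * H1 ≤ c → H1 ≤ h → (h : ℝ) ≤ 2 * H1 → 4 * c ^ 2 ≤ n1 → (n1 : ℝ) ≤ Z ^ 2 →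
    ‖∑ j ∈ Icc 1 n1, (bb c Δ (d * j) : ℂ) * ee (h * √((d * j : ℕ) : ℝ)) -
        k0 1 * ((√2 / √(d : ℝ) : ℝ) : ℂ) * ∑ ν ∈ VR c D H1, ((1 / √(ν : ℝ) : ℝ) : ℂ) *
          AV Δ fun x => ee (-(c * x) + d * ((h + x) ^ 2 / (4 * ν)))‖ ≤
      C * (1 / Z ^ 6 + Z ^ 10 * gs (T / 2))

-- deps: PF1
def S_PF : Prop := ∃ C : ℝ, 0 < C ∧
  ∀ (Z c Δ T D H1 Bd : ℝ) (n1 : ℕ) (ι : Type) (S : Finset ι) (dd : ι → ℕ) (α : ι → ℂ)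
    (Hs : Finset ℕ) (ch : ℕ → ℂ), Pa Z c Δ T → 1 ≤ D → 4 * D ≤ c ^ 2 →
    (∀ s ∈ S, D ≤ dd s ∧ (dd s : ℝ) ≤ 4 * D ∧ ‖α s‖ ≤ 1) → (S.card : ℝ) ≤ Z ^ 2 →
    1 ≤ H1 → 2 * H1 ≤ c → In Hs H1 (2 * H1) → (∀ h, ‖ch h‖ ≤ 1) → 4 * c ^ 2 ≤ n1 →
    (n1 : ℝ) ≤ Z ^ 2 →
    (∀ x : ℝ, |x| ≤ T / Δ →
      ‖∑ s ∈ S, α s / ((√(dd s : ℝ) : ℝ) : ℂ) * EF Hs (VR c D H1) ch x (dd s)‖ ≤ Bd) →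
    ‖∑ s ∈ S, α s * ∑ j ∈ Icc 1 n1, BW c Δ Hs ch (dd s * j)‖ ≤ 2 * Bd + C * ngl Z T

-- deps:
def S_TR : Prop := ∀ (Q Y τ c δ l : ℝ) (k : ℕ), St Q Y τ → Wn Q Y c δ →
  |wt Q Y c δ l k - wr c (Dl Q Y) δ l (Hn Y δ) k| ≤ 1 / Q ^ 1000 ∧
    |wr c (Dl Q Y) δ l (Hn Y δ) k| ≤ Q ^ 13

/-! ### Type I -/

open Classical in
-- deps:
def S_LSG : Prop := ∃ C : ℝ, 0 < C ∧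
  ∀ (ι : Type) (I : Finset ι) (a : ι → ℂ) (θ : ι → ℝ) (D T A : ℝ) (S : Finset ℕ), 1 ≤ D → 1 ≤ T →
    (∀ d ∈ S, (d : ℝ) ≤ D) → (∀ i ∈ I, ‖a i‖ ≤ A) →
    ∑ d ∈ S, ‖∑ i ∈ I, a i * ee (d * θ i)‖ ^ 2 ≤ C * D * A ^ 2 *
      ((((I ×ˢ I).filter fun p => ∃ j : ℤ, |θ p.1 - θ p.2 - j| ≤ T / D).card : ℝ) +
        (I.card : ℝ) ^ 2 * gs (T / 2))

-- deps: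
def S_RT : Prop := ∀ (q : ℕ) (u r : ℤ) (a M : ℝ) (S : Finset ℤ), 0 < q → IsCoprime u q → 0 ≤ M →
  (∀ t ∈ S, a ≤ t ∧ (t : ℝ) ≤ a + M ∧ (q : ℤ) ∣ u * t ^ 2 - r) →
  (S.card : ℝ) ≤ (q.divisors.card : ℝ) *
    ∑ g ∈ (Icc 1 q).filter (fun g : ℕ => g ^ 2 ∣ q ∧ (g : ℤ) ^ 2 ∣ 4 * r), (M * g / q + 1)

-- deps:
def S_PR0 : Prop := ∃ C : ℝ, 0 < C ∧ ∀ (Z τ H1 V0 : ℝ) (Hs Vs : Finset ℕ), Sz Z τ → 1 ≤ H1 →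
  H1 ≤ Z → 0 < V0 → 24 * V0 ≤ Z → In Hs H1 (2 * H1) → In Vs V0 (24 * V0) →
  ((((Hs ×ˢ Vs) ×ˢ Hs ×ˢ Vs).filter fun p : (ℕ × ℕ) × ℕ × ℕ =>
    (4 * p.1.2 * p.2.2 : ℤ) ∣ (p.1.1 : ℤ) ^ 2 * p.2.2 - (p.2.1 : ℤ) ^ 2 * p.1.2).card : ℝ) ≤
    C * τ ^ 3 * (H1 ^ 2 + H1 * V0)

-- deps: RT
def S_PRa : Prop := ∀ (Z τ H1 : ℝ) (Hs : Finset ℕ) (K ν ν' : ℕ) (l : ℤ), Sz Z τ → 0 ≤ H1 →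
  In Hs H1 (2 * H1) → 1 ≤ ν → ν ≤ K → (K : ℝ) ≤ Z →
  ((Hs.filter fun h : ℕ => (ν : ℤ) ∣ (ν' : ℤ) * (h : ℤ) ^ 2 - l).card : ℝ) ≤
    τ * ∑ p ∈ GG K ν l, (H1 * p.1 * p.2 / ν + 1)

-- deps:
def S_PRb : Prop := ∃ C : ℝ, 0 < C ∧ ∀ (Z τ H1 V0 : ℝ) (Vs : Finset ℕ) (K L : ℕ), Sz Z τ → 0 ≤ H1 →
  0 < V0 → (K : ℝ) ≤ Z → In Vs V0 (24 * V0) →
  ∑ ν ∈ Vs, ∑ l ∈ Hz L, ∑ p ∈ GG K ν l, (H1 * p.1 * p.2 / ν + 1) ≤ C * τ * (L * (V0 + H1))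

open Classical in
-- deps: PRa PRb
def S_PR1 : Prop := ∃ C : ℝ, 0 < C ∧ ∀ (Z τ H1 V0 La : ℝ) (Hs Vs : Finset ℕ), Sz Z τ → 1 ≤ H1 →
  H1 ≤ Z → 0 < V0 → 24 * V0 ≤ Z → 0 ≤ La → La < V0 → In Hs H1 (2 * H1) → In Vs V0 (24 * V0) →
  ((((Hs ×ˢ Vs) ×ˢ Hs ×ˢ Vs).filter fun p : (ℕ × ℕ) × ℕ × ℕ => ∃ l : ℤ, l ≠ 0 ∧ |(l : ℝ)| ≤ La ∧
    (p.2.2 : ℤ) ∣ l + (p.2.1 : ℤ) ^ 2 * p.1.2 ∧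
      (p.1.2 : ℤ) ∣ (p.2.2 : ℤ) * (p.1.1 : ℤ) ^ 2 - l).card : ℝ) ≤
    C * τ ^ 3 * (H1 * La * (V0 + H1))

-- deps: PR0 PR1
def S_PR : Prop := ∃ C : ℝ, 0 < C ∧ ∀ (Z τ H1 V0 η : ℝ) (Hs Vs : Finset ℕ), Sz Z τ → 1 ≤ H1 →
  H1 ≤ Z → 0 < V0 → 24 * V0 ≤ Z → 0 ≤ η → 2304 * V0 * η < 1 → In Hs H1 (2 * H1) →
  In Vs V0 (24 * V0) →
  ((PQ Hs Vs η).card : ℝ) ≤ C * τ ^ 3 * (H1 ^ 2 + H1 * V0 + H1 * V0 ^ 2 * η * (V0 + H1))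

-- deps: LSG PR
def S_T1B : Prop := ∃ C : ℝ, 0 < C ∧
  ∀ (Z τ c T G D H1 ξ x : ℝ) (S Hs : Finset ℕ) (α ch : ℕ → ℂ), Sz Z τ → 1 ≤ c → c ≤ Z → 1 ≤ T →
    1 ≤ D → 1 ≤ H1 → 2 * H1 ≤ c → 4 * D ≤ Z → |x| ≤ ξ → ξ ≤ 1 → T + 9 * ξ * c ≤ G →
    768 * H1 * G < c → In S D (2 * D) → In Hs H1 (2 * H1) → (∀ d, ‖α d‖ ≤ 1) → (∀ h, ‖ch h‖ ≤ 1) →
    ‖∑ d ∈ S, α d / ((√(d : ℝ) : ℝ) : ℂ) * EF Hs (VR c D H1) ch x d‖ ^ 2 ≤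
      C * (τ ^ 3 * (H1 * D + c * H1 + G * H1 ^ 3 * D ^ 2 / c ^ 2 + G * H1 ^ 3 * D / c) +
        Z ^ 5 * gs (T / 2))

-- deps: PF T1B
def S_T1C : Prop := ∃ C : ℝ, 0 < C ∧
  ∀ (Z τ c Δ T G D H1 : ℝ) (n1 : ℕ) (S Hs : Finset ℕ) (α ch : ℕ → ℂ), Pa Z c Δ T → Sz Z τ →
    1 ≤ D → 4 * D ≤ c ^ 2 → 1 ≤ H1 → T + 9 * (T / Δ) * c ≤ G → 768 * H1 * G < c →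
    In S D (2 * D) → In Hs H1 (2 * H1) → (∀ d, ‖α d‖ ≤ 1) → (∀ h, ‖ch h‖ ≤ 1) →
    4 * c ^ 2 ≤ n1 → (n1 : ℝ) ≤ Z ^ 2 →
    ‖∑ d ∈ S, α d * ∑ j ∈ Icc 1 n1, BW c Δ Hs ch (d * j)‖ ≤
      C * τ ^ 2 * (√(H1 * D + c * H1 + G * H1 ^ 3 * D ^ 2 / c ^ 2 + G * H1 ^ 3 * D / c) + ngl Z T)

-- deps: T1C
def S_TI0 : Prop := ∃ C : ℝ, 0 < C ∧
  ∀ (Z τ c Δ δ l T G : ℝ) (H D0 n1 : ℕ), Pa Z c Δ T → Sz Z τ → 4 * (D0 : ℝ) ≤ c ^ 2 →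
    T + 9 * (T / Δ) * c ≤ G → 768 * H * G < c → 4 * c ^ 2 ≤ n1 → (n1 : ℝ) ≤ Z ^ 2 →
    ∑ d ∈ Icc 1 D0, |∑ j ∈ Icc 1 n1, wr c Δ δ l H (d * j)| ≤
      C * τ ^ 4 * (√((H : ℝ) * D0 + c * H + G * (H : ℝ) ^ 3 * (D0 : ℝ) ^ 2 / c ^ 2 +
        G * (H : ℝ) ^ 3 * D0 / c) + ngl Z T)

-- deps: TI0 TR
def S_TI : Prop := ∃ Y0 : ℝ, ∀ Q Y τ c δ l : ℝ, Y0 ≤ Y → St Q Y τ → Wn Q Y c δ →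
  HI Q Y (wt Q Y c δ l) (Q ^ 24 / Y ^ 25)

/-! ### Two smooth variables -/

-- deps:
def S_GEO : Prop := ∃ C : ℝ, 0 < C ∧ ∀ (V G θ : ℝ) (m : ℤ) (q a b : ℕ), 1 ≤ V → 1 ≤ G → 0 < q →
  In (Ioc a b) V (2 * V) → |θ - m / q| ≤ G / V →
  ‖∑ v ∈ Ioc a b, ((1 / √(v : ℝ) : ℝ) : ℂ) * ee (v * θ)‖ ≤ C * G / √V * mq V m q

-- deps:
def S_MQ : Prop := ∃ C : ℝ, 0 < C ∧ ∀ (Z τ V V0 : ℝ) (m : ℕ) (Vs : Finset ℕ), Sz Z τ → 0 ≤ V →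
  0 < V0 → 24 * V0 ≤ Z → 1 ≤ m → (m : ℝ) ≤ Z ^ 4 → In Vs V0 (24 * V0) →
  ∑ ν ∈ Vs, mq V m (4 * ν) ≤ C * τ ^ 2 * (V + V0 + V0 ^ 2 / m)

-- deps: GEO MQ
def S_T2B : Prop := ∃ C : ℝ, 0 < C ∧
  ∀ (Z τ c G R V H1 ξ x : ℝ) (S Hs : Finset ℕ) (a b : ℕ → ℕ) (α ch : ℕ → ℂ), Sz Z τ → 1 ≤ c →
    c ≤ Z → 1 ≤ R → 1 ≤ V → 1 ≤ H1 → 2 * H1 ≤ c → 4 * (R * V) ≤ Z → |x| ≤ ξ → ξ ≤ 1 → 1 ≤ G →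
    9 * ξ * c ≤ G → In S R (2 * R) → (∀ r, In (Ioc (a r) (b r)) V (2 * V)) → In Hs H1 (2 * H1) →
    (∀ r, ‖α r‖ ≤ 1) → (∀ h, ‖ch h‖ ≤ 1) →
    ‖∑ r ∈ S, ∑ v ∈ Ioc (a r) (b r),
        α r / ((√((r * v : ℕ) : ℝ) : ℝ) : ℂ) * EF Hs (VR c (R * V) H1) ch x (r * v)‖ ≤
      C * τ ^ 2 * G * (√(c * H1) + R * H1 * √H1 / √c + √H1 * (R * V) / (c * √c))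

-- deps: PF T2B
def S_T2C : Prop := ∃ C : ℝ, 0 < C ∧
  ∀ (Z τ c Δ T G R V H1 : ℝ) (n1 : ℕ) (S Hs : Finset ℕ) (a b : ℕ → ℕ) (α ch : ℕ → ℂ), Pa Z c Δ T →
    Sz Z τ → 1 ≤ R → 1 ≤ V → 4 * (R * V) ≤ c ^ 2 → 1 ≤ H1 → 2 * H1 ≤ c → 1 ≤ G →
    9 * (T / Δ) * c ≤ G → In S R (2 * R) → (∀ r, In (Ioc (a r) (b r)) V (2 * V)) →
    In Hs H1 (2 * H1) → (∀ r, ‖α r‖ ≤ 1) → (∀ h, ‖ch h‖ ≤ 1) → 4 * c ^ 2 ≤ n1 → (n1 : ℝ) ≤ Z ^ 2 →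
    ‖∑ r ∈ S, α r * ∑ v ∈ Ioc (a r) (b r), ∑ j ∈ Icc 1 n1, BW c Δ Hs ch (r * v * j)‖ ≤
      C * τ ^ 2 * (G * (√(c * H1) + R * H1 * √H1 / √c + √H1 * (R * V) / (c * √c)) + ngl Z T)

-- deps: T2C
def S_TJ0 : Prop := ∃ C : ℝ, 0 < C ∧
  ∀ (Z τ c Δ δ l T G : ℝ) (H R0 V0 n1 : ℕ) (a b : ℕ → ℕ), Pa Z c Δ T → Sz Z τ →
    4 * ((R0 : ℝ) * V0) ≤ c ^ 2 → 2 * (H : ℝ) ≤ c → 1 ≤ G → 9 * (T / Δ) * c ≤ G →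
    (∀ r, b r ≤ V0) → 4 * c ^ 2 ≤ n1 → (n1 : ℝ) ≤ Z ^ 2 →
    ∑ r ∈ Icc 1 R0, |∑ v ∈ Ioc (a r) (b r), ∑ j ∈ Icc 1 n1, wr c Δ δ l H (r * v * j)| ≤
      C * τ ^ 5 * (G * (√(c * H) + R0 * H * √(H : ℝ) / √c + √(H : ℝ) * (R0 * V0) / (c * √c)) +
        ngl Z T)

-- deps: TJ0 TR
def S_TI2 : Prop := ∃ Y0 : ℝ, ∀ Q Y τ c δ l : ℝ, Y0 ≤ Y → St Q Y τ → Wn Q Y c δ →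
  HI2 Q Y (wt Q Y c δ l) (Q ^ 24 / Y ^ 25)

/-! ### Type II -/

-- deps:
def S_GAU : Prop := ∀ (a : ℤ) (q : ℕ) (δ φ : ℝ), 0 < q → 0 < δ →
  Summable (fun h : ℤ => (gs (δ * h) : ℂ) * ee (a * (h : ℝ) ^ 2 / q + h * φ)) ∧
  ‖∑' h : ℤ, (gs (δ * h) : ℂ) * ee (a * (h : ℝ) ^ 2 / q + h * φ)‖ ≤
    √((q : ℝ) * Int.gcd (2 * a) q) / (q * δ) * ∑' s : ℤ, gs (1 / (q * δ) * (s - q * φ))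

open Classical in
-- deps: GAU
def S_GAW : Prop := ∀ (a : ℤ) (q H : ℕ) (δ φ T : ℝ), 0 < q → 0 < δ → q * δ ≤ 1 → 1 ≤ T →
  T ≤ δ * (H + 1) →
  ‖∑ h ∈ Hz H, (gs (δ * h) : ℂ) * ee (a * (h : ℝ) ^ 2 / q + h * φ)‖ ≤
    1 + (if ∃ s : ℤ, |q * φ - s| ≤ T * (q * δ) then 8 * √(Int.gcd (2 * a) q : ℝ) / (√(q : ℝ) * δ)
      else 0) + 24 * gs (T / 2) / δ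

open Classical in
-- deps:
def S_BC0 : Prop := ∀ (H : ℕ) (y β ε σ : ℝ), (σ = 1 ∨ σ = -1) →
  (((Hz H).filter fun h : ℤ => ∃ j : ℤ, |σ * (h * y) - β - j| ≤ ε).card : ℝ) ≤
    1 + 2 * BN H (2 * ε) y

open Classical in
-- deps: RT
def S_BC1 : Prop := ∃ C : ℝ, 0 < C ∧ ∀ (Z τ N ε : ℝ) (h : ℕ) (K : Finset ℕ), Sz Z τ → 1 ≤ N →
  2 * N ≤ Z → 1 ≤ h → (h : ℝ) ≤ N → 0 ≤ ε → ε ≤ 1 → In K (N ^ 2) (4 * N ^ 2) →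
  ((K.filter fun k : ℕ => ∃ j : ℤ, |h * (2 * √(k : ℝ)) - j| ≤ ε).card : ℝ) ≤
    C * τ ^ 2 * (N + N ^ 2 * ε)

-- deps: BC1
def S_BC2 : Prop := ∃ C : ℝ, 0 < C ∧ ∀ (Z τ N ε : ℝ) (H : ℕ) (S : Finset ℕ), Sz Z τ → 1 ≤ N →
  2 * N ≤ Z → 2 * (H : ℝ) ≤ N → 0 ≤ ε → ε ≤ 1 → In S N (2 * N) →
  ∑ n1 ∈ S, ∑ n2 ∈ S, (BN H ε (2 * √((n1 : ℝ) * n2)) : ℝ) ≤ C * τ ^ 3 * (N * H + N ^ 2 * H * ε)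

-- deps:
def S_DG1 : Prop := ∀ (N La : ℝ) (h1 h2 : ℕ) (S : Finset ℕ), 1 ≤ N → 0 ≤ La → 1 ≤ h1 → 1 ≤ h2 →
  In S N (2 * N) →
  (((S ×ˢ S).filter fun p : ℕ × ℕ => h1 ^ 2 * p.1 ≠ h2 ^ 2 * p.2 ∧
    |(h1 : ℝ) ^ 2 * p.1 - (h2 : ℝ) ^ 2 * p.2| ≤ La).card : ℝ) ≤
    2 * La * (N / ((max h1 h2 : ℕ) : ℝ) ^ 2 + 1)

-- deps: DG1
def S_DG2 : Prop := ∃ C : ℝ, 0 < C ∧ ∀ (Z τ N La : ℝ) (H : ℕ) (S : Finset ℕ), Sz Z τ → 1 ≤ N →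
  2 * N ≤ Z → (H : ℝ) ≤ Z → 0 ≤ La → In S N (2 * N) →
  ∑ n1 ∈ S, ∑ n2 ∈ S, (DN H La n1 n2 : ℝ) ≤ C * τ * (N * H + La * N + La * (H : ℝ) ^ 2)

-- deps:
def S_GC : Prop := ∀ (Z τ : ℝ) (n R0 : ℕ), Sz Z τ → 1 ≤ n → (n : ℝ) ≤ Z → (R0 : ℝ) ≤ Z →
  ∑ μ ∈ Hz R0, √(Int.gcd n μ : ℝ) / |(μ : ℝ)| ≤ 2 * τ ^ 2 ∧
  ∑ μ ∈ Hz R0, 1 / √|(μ : ℝ)| ≤ 4 * √(R0 : ℝ)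

-- deps: GP2
def S_Q1a : Prop := ∃ C : ℝ, 0 < C ∧
  ∀ (Z c Δ T N θ : ℝ) (H M R0 n1 n2 : ℕ), Pa Z c Δ T → 1 ≤ N → 4 * N ≤ c ^ 2 →
    4 * N * T ≤ c * Δ → N ≤ n1 → (n1 : ℝ) ≤ 2 * N → N ≤ n2 → (n2 : ℝ) ≤ 2 * N →
    2 * (H : ℝ) ≤ c → 4 * c ^ 2 / N ≤ M → (M : ℝ) ≤ Z ^ 2 → 6 * H * N / c ≤ R0 + 1 →
    (R0 : ℝ) ≤ Z → |θ| ≤ H * (√(n1 : ℝ) + √(n2 : ℝ)) →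
    ‖∑ m ∈ Icc 1 M, ((gs ((√(m : ℝ) - tw c n1 n2) / sw Δ n1 n2) / √(m : ℝ) : ℝ) : ℂ) *
          ee (θ * √(m : ℝ)) -
        2 * ∑ μ ∈ Icc (-(R0 : ℤ)) R0, GI (tw c n1 n2) (sw Δ n1 n2) θ μ‖ ≤
      C * (1 / Z ^ 6 + Z ^ 10 * gs (T / 2))

-- deps: Q1a
def S_Q1 : Prop := ∃ C : ℝ, 0 < C ∧
  ∀ (Z c Δ δ l T N : ℝ) (H M R0 n1 n2 : ℕ), Pa Z c Δ T → 1 ≤ N → 4 * N ≤ c ^ 2 →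
    4 * N * T ≤ c * Δ → N ≤ n1 → (n1 : ℝ) ≤ 2 * N → N ≤ n2 → (n2 : ℝ) ≤ 2 * N →
    2 * (H : ℝ) ≤ c → 4 * c ^ 2 / N ≤ M → (M : ℝ) ≤ Z ^ 2 → 6 * H * N / c ≤ R0 + 1 →
    (R0 : ℝ) ≤ Z →
    |CR (wr c Δ δ l H) M n1 n2| ≤
      2 / N * ∑ μ ∈ Icc (-(R0 : ℤ)) R0, ‖QS c Δ δ l H n1 n2 μ‖ +
        C * (1 / Z ^ 5 + Z ^ 11 * gs (T / 2))

-- deps: GIa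
def S_Q0 : Prop := ∀ (Z c Δ δ l T N : ℝ) (H n1 n2 : ℕ), Pa Z c Δ T → 1 ≤ N → N ≤ n1 →
  (n1 : ℝ) ≤ 2 * N → N ≤ n2 → (n2 : ℝ) ≤ 2 * N →
  ‖QS c Δ δ l H n1 n2 0‖ ≤
    Δ / √N * (2 * DN H (6 * T * H * N / Δ) n1 n2 + 4 * (H : ℝ) ^ 2 * gs T)

-- deps: GIb GAW BC0
def S_Q2 : Prop := ∃ C : ℝ, 0 < C ∧
  ∀ (c Δ δ l T ε : ℝ) (H R0 n1 n2 : ℕ) (μ : ℤ), 0 < Δ → 1 ≤ T → 1 ≤ n1 → 1 ≤ n2 → 0 < δ →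
    T ≤ δ * (H + 1) → 4 * R0 * δ ≤ 1 → 8 * T * R0 * δ ≤ ε → μ ∈ Hz R0 →
    ‖QS c Δ δ l H n1 n2 μ‖ ≤ C * (H * (1 / √|(μ : ℝ)|) +
      √(Int.gcd n2 μ : ℝ) / |(μ : ℝ)| * ((1 + BN H ε (2 * √((n1 : ℝ) * n2))) / δ) +
      H * (1 / δ) * gs (T / 2))

-- deps: Q0 Q1 Q2 GC
def S_Q3 : Prop := ∃ C : ℝ, 0 < C ∧
  ∀ (Z τ c Δ δ l T N ε : ℝ) (H M R0 n1 n2 : ℕ), Pa Z c Δ T → Sz Z τ → 1 ≤ N → 4 * N ≤ c ^ 2 →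
    4 * N * T ≤ c * Δ → N ≤ n1 → (n1 : ℝ) ≤ 2 * N → N ≤ n2 → (n2 : ℝ) ≤ 2 * N →
    2 * (H : ℝ) ≤ c → 4 * c ^ 2 / N ≤ M → (M : ℝ) ≤ Z ^ 2 → 6 * H * N / c ≤ R0 + 1 →
    (R0 : ℝ) ≤ Z → 0 < δ → 1 / δ ≤ Z → T ≤ δ * (H + 1) → 4 * R0 * δ ≤ 1 → 8 * T * R0 * δ ≤ ε →
    |CR (wr c Δ δ l H) M n1 n2| ≤
      C * (1 / N * (Δ / √N * DN H (6 * T * H * N / Δ) n1 n2 + H * √(R0 : ℝ) +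
        τ ^ 2 * ((1 + BN H ε (2 * √((n1 : ℝ) * n2))) / δ)) + (1 / Z ^ 5 + Z ^ 11 * gs (T / 2)))

-- deps: Q3 DG2 BC2
def S_TK0 : Prop := ∃ C : ℝ, 0 < C ∧
  ∀ (Z τ c Δ δ l T N ε : ℝ) (H M R0 : ℕ) (S : Finset ℕ), Pa Z c Δ T → Sz Z τ → 1 ≤ N →
    4 * N ≤ c ^ 2 → 4 * N * T ≤ c * Δ → In S N (2 * N) → 2 * (H : ℝ) ≤ c → 2 * (H : ℝ) ≤ N →
    4 * c ^ 2 / N ≤ M → (M : ℝ) ≤ Z ^ 2 → 6 * H * N / c ≤ R0 + 1 → (R0 : ℝ) ≤ Z → 0 < δ →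
    1 / δ ≤ Z → T ≤ δ * (H + 1) → 4 * R0 * δ ≤ 1 → 8 * T * R0 * δ ≤ ε → ε ≤ 1 →
    ∑ n1 ∈ S, ∑ n2 ∈ S, |CR (wr c Δ δ l H) M n1 n2| ≤
      C * τ ^ 5 * ((Δ * H + T * H * N + T * (H : ℝ) ^ 3) / √N + N * H * √(R0 : ℝ) +
        (N + H + N * H * ε) / δ + (1 / Z ^ 3 + Z ^ 13 * gs (T / 2)))

-- deps: TK0 TR
def S_TII : Prop := ∃ Y0 : ℝ, ∀ Q Y τ c δ l : ℝ, Y0 ≤ Y → St Q Y τ → Wn Q Y c δ →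
  HC Q Y (wt Q Y c δ l) (Q ^ 24 / Y ^ 30)

end Pool.Agent.P.MP_8be758_nt.Sq
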