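import Pool.Agent.P.MP_8be758_nt.Sq.BaseB

/-! Statements of the sieve part and of the final steps. -/

set_option autoImplicit false

namespace Pool.Agent.P.MP_8be758_nt.Sq

open Finset Real Filter Topology ArithmeticFunction
open Pool.Agent.P.MP_e86632_nt (ee nn)
open Pool.Agent.P.MP_8be758_nt.Avg (gs Rough)

/-! ### Kernels -/

-- deps:
def S_G2L : Prop := ∀ (ι1 ι2 : Type) (S1 : Finset ι1) (S2 : Finset ι2) (φ : ι1 → ℝ) (ψ : ι2 → ℝ),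
  G2 S1 S2 (fun a b => if φ a < ψ b then 1 else 0) ((Nat.log 2 (S1.card + S2.card) + 1 : ℕ) : ℝ)

-- deps:
def S_G2F : Prop := ∀ (ι1 ι2 α : Type) [Fintype α] [DecidableEq α] (S1 : Finset ι1)
  (S2 : Finset ι2) (t : α → ι1 → ι2 → Bool) (Ψ : (α → Bool) → ℝ) (L C : ℝ), 1 ≤ L → 0 ≤ C →
    (∀ x, G2 S1 S2 (fun a b => if t x a b then 1 else 0) L) → (∀ β, |Ψ β| ≤ C) →
    G2 S1 S2 (fun a b => Ψ fun x => t x a b) (C * (4 * L) ^ Fintype.card α)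

-- deps:
def S_SEP : Prop := ∀ (Q Y τ E : ℝ) (w : ℕ → ℝ), St Q Y τ → 0 ≤ E →
  (∀ k : ℕ, Q ^ 48 < k → w k = 0) → HC Q Y w E → HII Q Y w (Y * E)

/-- the arithmetic information for the actual sequence -/
def R_AH : Prop := ∃ Y0 : ℝ, ∀ Q Y τ c δ l : ℝ, Y0 ≤ Y → St Q Y τ → Wn Q Y c δ →
  AH Q Y (wt Q Y c δ l) (Q ^ 24 / Y ^ 25)

-- deps:
def S_AH : Prop := R_AH

/-! ### Removing the small primes -/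

-- deps:
def S_SPL0 : Prop := ∀ (z A : ℝ) (r j : ℕ), 1 ≤ r → (r : ℝ) < A → 1 ≤ j →
  rh z j = ∑ e ∈ j.divisors, (if Smo z e ∧ ((r * e : ℕ) : ℝ) < A then mu e else 0) -
    ∑ e1 ∈ j.divisors, ∑ p ∈ j.divisors, ∑ e2 ∈ j.divisors,
      if e1 * p * e2 ∣ j ∧ Crs z A r e1 p ∧ gp e2 < p then mu e1 * mu e2 else 0

-- deps: SPL0
def S_SPL : Prop := ∀ (z A : ℝ) (r X : ℕ) (g : ℕ → ℝ), 1 ≤ r → (r : ℝ) < A →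
  (∀ j, X < j → g j = 0) →
  ∑ j ∈ Icc 1 X, rh z j * g j = ∑ e ∈ E0 z A r X, mu e * ∑ j ∈ Icc 1 X, g (e * j) -
    ∑ x ∈ E1 z A r X, ∑ e ∈ Icc 1 X, ∑ j ∈ Icc 1 X,
      (if gp e < x.2 then mu x.1 * mu e else 0) * g (x.1 * x.2 * e * j)

-- deps:
def S_I2F : Prop := ∀ (Q Y E f : ℝ) (w : ℕ → ℝ) (ι : Type) (S : Finset ι) (r : ι → ℕ), 0 ≤ f →
  (∀ n, ((S.filter fun s => r s = n).card : ℝ) ≤ f) →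
  (HI Q Y w E → (∀ s ∈ S, 1 ≤ r s ∧ (r s : ℝ) ≤ Q ^ 30 / Y ^ 100) →
    ∑ s ∈ S, |Sj Q w (r s)| ≤ f * E) ∧
  (HI2 Q Y w E → ∀ lo hi : ι → ℕ, (∀ s ∈ S, 1 ≤ r s ∧ (r s : ℝ) < pA Q Y ∧ (hi s : ℝ) ≤ Q ^ 34) →
    ∑ s ∈ S, |∑ v ∈ Ioc (lo s) (hi s), Sj Q w (r s * v)| ≤ f * E)

-- deps: G2L
def S_CRS : Prop := ∀ (Q Y τ E : ℝ) (w : ℕ → ℝ), St Q Y τ → AH Q Y w E →
  ∀ (ι1 ι2 : Type) (S1 : Finset ι1) (S2 : Finset ι2) (r : ι1 → ℕ) (m : ι2 → ℕ)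
    (κ : ι1 × ℕ × ℕ → ι2 × ℕ → ℝ) (B f : ℝ), 0 ≤ B → 1 ≤ f →
    (∀ a ∈ S1, 1 ≤ r a) → (∀ b ∈ S2, 1 ≤ m b) →
    (∀ n, ((S1.filter fun a => r a = n).card : ℝ) ≤ f) →
    (∀ n : ℕ, (n : ℝ) ≤ Q ^ 48 → ((S2.filter fun b => m b = n).card : ℝ) ≤ f) →
    (S1.card : ℝ) ≤ Q ^ 150 → (S2.card : ℝ) ≤ Q ^ 150 →
    G2 (S1 ×ˢ (Icc 1 (XN Q) ×ˢ Icc 1 (XN Q))) (S2 ×ˢ Icc 1 (XN Q)) κ B →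
    |∑ a ∈ S1, ∑ x ∈ E1 (pz Q Y) (pA Q Y) (r a) (XN Q), ∑ b ∈ S2, ∑ e ∈ Icc 1 (XN Q),
      κ (a, x) (b, e) * ((if gp e < x.2 then mu x.1 * mu e else 0) *
        w (r a * x.1 * x.2 * (m b * e)))| ≤ f ^ 2 * τ ^ 4 * B * (500 * Real.log Q) * E

-- deps: SPL I2F CRS
def S_H1 : Prop := ∃ Y0 : ℝ, ∀ (Q Y τ E : ℝ) (w : ℕ → ℝ), Y0 ≤ Y → St Q Y τ → AH Q Y w E →
  ∀ (R D : Finset ℕ) (c : ℕ → ℕ → ℝ) (B : ℝ), 1 ≤ B →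
    (∀ r ∈ R, 1 ≤ r ∧ (r : ℝ) < pA Q Y) → (∀ d ∈ D, 1 ≤ d ∧ (d : ℝ) < pW Q Y) →
    (∀ r ∈ R, ∀ d ∈ D, |c r d| ≤ 1) → G2 R D c B →
    |∑ r ∈ R, ∑ d ∈ D, c r d * ∑ j ∈ Icc 1 (XN Q), rh (pz Q Y) j * w (r * d * j)| ≤ B * Y * E

-- deps: SPL I2F CRS G2L
def S_H2A : Prop := ∃ Y0 : ℝ, ∀ (Q Y τ E : ℝ) (w : ℕ → ℝ), Y0 ≤ Y → St Q Y τ → AH Q Y w E →
  ∀ (ι : Type) (S : Finset ι) (r lo hi : ι → ℕ) (α : ι → ℝ) (f : ℝ), 1 ≤ f →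
    (∀ s ∈ S, 1 ≤ r s ∧ (r s : ℝ) < pA Q Y ∧ (hi s : ℝ) ≤ Q ^ 34 ∧ |α s| ≤ 1) →
    (∀ n, ((S.filter fun s => r s = n).card : ℝ) ≤ f) → (S.card : ℝ) ≤ Q ^ 150 →
    |∑ s ∈ S, α s * ∑ v ∈ Ioc (lo s) (hi s), ∑ j ∈ Icc 1 (XN Q),
      rh (pz Q Y) j * w (r s * v * j)| ≤ f ^ 2 * Y * E

-- deps: SPL CRS G2L H2A
def S_H2 : Prop := ∃ Y0 : ℝ, ∀ (Q Y τ E : ℝ) (w : ℕ → ℝ), Y0 ≤ Y → St Q Y τ → AH Q Y w E →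
  ∀ (ι : Type) (S : Finset ι) (r lo hi : ι → ℕ) (α : ι → ℝ) (f : ℝ), 1 ≤ f →
    (∀ s ∈ S, 1 ≤ r s ∧ (r s : ℝ) < pA Q Y ∧ (hi s : ℝ) ≤ Q ^ 34 ∧ |α s| ≤ 1) →
    (∀ n, ((S.filter fun s => r s = n).card : ℝ) ≤ f) → (S.card : ℝ) ≤ Q ^ 100 →
    |∑ s ∈ S, α s * ∑ v ∈ Ioc (lo s) (hi s), rh (pz Q Y) v * ∑ j ∈ Icc 1 (XN Q),
      rh (pz Q Y) j * w (r s * v * j)| ≤ f ^ 2 * Y ^ 2 * E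

-- deps: H1
def S_TM1 : Prop := Small M1

-- deps: H2
def S_TMT : Prop := Small MT

-- deps: H1 G2L
def S_TN2 : Prop := Small N2

-- deps: H1 G2L
def S_TN3 : Prop := Small N3

-- deps: H2
def S_TN4 : Prop := Small N4

-- deps: H1
def S_TNZ : Prop := Small NZ

/-! ### Tuples of primes -/

-- deps:
def S_BR0 : Prop := ∀ (s : ℕ) (p : Fin s → ℕ), Tup p → ∀ A : Finset (Fin s),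
  (∀ F : ℕ → ℝ, ∑ d ∈ (PP p A).divisors, F d = ∑ B ∈ A.powerset, F (PP p B)) ∧
  mu (PP p A) = (-1) ^ A.card ∧ Squarefree (PP p A) ∧
  (∀ F : ℕ → ℝ, ∑ q ∈ (PP p A).primeFactors, F q = ∑ i ∈ A, F (p i)) ∧
  (PP p A).primeFactors = A.image p ∧
  (∀ B ⊆ A, PP p A / PP p B = PP p (A \ B)) ∧ (1 < PP p A ↔ A ≠ ∅) ∧
  ∀ d ∈ (PP p A).divisors, ∃ B ⊆ A, d = PP p B

-- deps: BR0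
def S_BR1 : Prop := ∀ (Q Y : ℝ) (s : ℕ) (p : Fin s → ℕ), Tup p →
  M1 Q Y (∏ i, p i) = M1t (chi Q Y p) ∧ MT Q Y (∏ i, p i) = TCt (chi Q Y p) * M1t (chi Q Y p)

-- deps: BR0
def S_BR2 : Prop := ∀ (Q Y : ℝ) (s : ℕ) (p : Fin s → ℕ), Tup p →
  N2 Q Y (∏ i, p i) = N2t (chi Q Y p) ∧ N3 Q Y (∏ i, p i) = N3t (chi Q Y p) ∧
    N4 Q Y (∏ i, p i) = N4t (chi Q Y p)

-- deps: BR0 BR1 BR2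
def S_BR : Prop := ∀ (Q Y : ℝ) (s : ℕ) (p : Fin s → ℕ), Tup p →
  gg Q Y (∏ i, p i) = Phi (chi Q Y p) ∧ NZ Q Y (∏ i, p i) = NZt (chi Q Y p) ∧
    (Good Q Y (∏ i, p i) ↔ ∃ A, chi Q Y p A 0 = false ∧ chi Q Y p A 9 = true)

-- deps:
def S_EX : Prop := ∀ (Q Y τ : ℝ) (k : ℕ), St Q Y τ → Squarefree k → Rough (pz Q Y) k →
  (k : ℝ) ≤ Q ^ 48 → ∃ s ≤ 12, ∃ p : Fin s → ℕ, Tup p ∧ ∏ i, p i = k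

-- deps: EX BR0
def S_ENUM : Prop := ∀ (Q Y τ : ℝ) (F : ℕ → ℝ), St Q Y τ → (∀ k, XN Q < k → F k = 0) →
  ∑ k ∈ (Icc 1 (XN Q)).filter (fun k => Squarefree k ∧ Rough (pz Q Y) k), F k =
    ∑ s ∈ range 13, ∑ p ∈ TU Q Y s, F (∏ i, p i)

-- deps:
def S_PHB : Prop := ∀ (s : ℕ) (χ : Tb s), s ≤ 12 → |Phi χ| ≤ 2 ^ 41 ∧
  (NZt χ ≠ 0 → Phi χ ≤ 0 ∧ -Phi χ ≤ 2 ^ 28 * NZt χ)

-- deps: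
def S_GGB : Prop := ∀ (Q Y τ : ℝ) (k : ℕ), St Q Y τ → Rough (pz Q Y) k → (k : ℝ) ≤ Q ^ 48 →
  |gg Q Y k| ≤ 2 ^ 45

-- deps: G2L G2F
def S_GOOD1 : Prop := ∀ (Q Y τ E : ℝ) (w : ℕ → ℝ), St Q Y τ → AH Q Y w E →
  ∀ (s : ℕ) (S : Finset (Fin s)) (Ψ : (At s → Bool) → ℝ) (C : ℝ), s ≤ 12 → 0 ≤ C →
    (∀ β, |Ψ β| ≤ C) →
    (∀ β, Ψ β ≠ 0 → β (Sum.inl (S, 0)) = false ∧ β (Sum.inl (S, 9)) = true) →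
    |∑ p ∈ TA Q Y s, Ψ (atm Q Y p) * w (∏ i, p i)| ≤
      τ ^ 24 * (C * (4 * (1200 * Real.log Q)) ^ Fintype.card (At s)) * E

-- deps: GOOD1 ENUM BR PHB
def S_GOOD : Prop := ∃ (e : ℕ) (Y0 : ℝ), ∀ (Q Y τ E : ℝ) (w : ℕ → ℝ), Y0 ≤ Y → St Q Y τ →
  Real.log Q ^ e ≤ Y → AH Q Y w E →
  |∑ k ∈ (Icc 1 (XN Q)).filter (fun k => (Squarefree k ∧ Rough (pz Q Y) k) ∧ Good Q Y k),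
    w k * gg Q Y k| ≤ Y ^ 3 * E

-- deps:
def S_NSQ2 : Prop := ∀ (Q Y τ E : ℝ) (a b : ℕ → ℝ), St Q Y τ → SzB Q a b →
  AH Q Y (fun k => a k - b k) E →
  ∑ k ∈ (Icc 1 (XN Q)).filter (fun k => Rough (pz Q Y) k ∧ ¬ Squarefree k), |a k - b k| ≤
    E + 12 * Q ^ 23

-- deps: BR0
def S_LOG : Prop := ∀ (Q Y τ : ℝ) (s : ℕ) (p : Fin s → ℕ), St Q Y τ → Tup p →
  chi Q Y p = chl (Real.log Y / Real.log Q) (fun i => Real.log (p i) / Real.log Q) ∧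
  (InW Q (∏ i, p i) → ¬ Good Q Y (∏ i, p i) → NZ Q Y (∏ i, p i) = 0 →
    Cf (fun i => Real.log (p i) / Real.log Q) (Real.log Y / Real.log Q))

-- deps:
def S_PRM : Prop := ∀ (Q Y τ : ℝ) (p : ℕ), St Q Y τ → p.Prime → InW Q p →
  gg Q Y p = 1 ∧ Rough (pz Q Y) p ∧ ¬ Good Q Y p

/-- the sign condition for configurations of sizes -/
def R_SGN : Prop := ∀ (s : ℕ) (x : Fin s → ℝ) (y : ℝ), Cf x y → 2 ≤ s → Phi (chl y x) ≤ 0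

-- deps:
def S_SGN0 : Prop := R_SGN

-- deps: EX BR LOG PHB SGN0
def S_SGG : Prop := ∀ (Q Y τ : ℝ) (k : ℕ), St Q Y τ → InW Q k → Squarefree k →
  Rough (pz Q Y) k → ¬ Good Q Y k → ¬ k.Prime → gg Q Y k ≤ 0

-- deps: TM1 TMT TN2 TN3 TN4 TNZ GOOD NSQ2 GGB PRM SGG
def S_SV : Prop := ∃ (e : ℕ) (Y0 : ℝ), ∀ (Q Y τ E : ℝ) (a b : ℕ → ℝ), Y0 ≤ Y → St Q Y τ →
  Real.log Q ^ e ≤ Y → SzB Q a b → AH Q Y (fun k => a k - b k) E →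
  ∑ p ∈ PX Q, b p - ∑ k ∈ Icc 1 (XN Q), b k * Ls Q Y k - (Y ^ 5 * E + Y * Q ^ 23) ≤
    ∑ p ∈ PX Q, a p

/-! ### The comparison sequence -/

-- deps:
def S_EV : Prop := ∀ (N e : ℕ) (Y0 : ℝ), 1000 ≤ N → ∀ᶠ Y : ℝ in atTop,
  Y0 ≤ Y ∧ Real.log (Y ^ N) ^ e ≤ Y ∧ ∃ τ : ℝ, St (Y ^ N) Y τ

-- deps:
-- imports: Pool.Agent.P.MP_e86632_nt.PNT
def S_PNT2 : Prop := ∀ ε : ℝ, 0 < ε → ∀ᶠ y : ℝ in atTop, ∀ u v : ℝ, y / 2 ≤ u → u ≤ v → v ≤ y →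
  |(((Ioc ⌊u⌋₊ ⌊v⌋₊).filter Nat.Prime).card : ℝ) - (v - u) / Real.log y| ≤ ε * (y / Real.log y)

-- deps:
-- imports: Pool.Agent.P.MP_e94e4b_nt.Mert
def S_MW : Prop := ∀ (u v : ℝ) (S : Finset ℕ), 65536 ≤ u → u ≤ v →
  (∀ p ∈ S, p.Prime ∧ u ≤ p ∧ (p : ℝ) ≤ v) →
  ∑ p ∈ S, 1 / (p : ℝ) ≤ (Real.log (v / u) + 2) / Real.log u

-- deps: MW EV
-- imports: Pool.Agent.P.MP_8be758_nt.Avg.GT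
def S_LZ1 : Prop := ∃ C : ℝ, 0 < C ∧ ∀ N : ℕ, 1000 ≤ N → ∀ᶠ Y : ℝ in atTop,
  ∑ d ∈ (Icc 1 (XN (Y ^ N))).filter (fun d => Zn (Y ^ N) Y d ∧ Rough (pz (Y ^ N) Y) d),
    1 / (d : ℝ) ≤ C / N

-- deps: LZ1 EV
-- imports: Pool.Agent.P.MP_8be758_nt.Avg.GT Pool.Agent.P.MP_8be758_nt.Avg.NU
def S_LZ : Prop := ∃ C : ℝ, 0 < C ∧ ∀ N : ℕ, 1000 ≤ N → ∀ᶠ Y : ℝ in atTop,
  ∑ k ∈ (Icc 1 (XN (Y ^ N))).filter (fun k => InW (Y ^ N) k ∧ Rough (pz (Y ^ N) Y) k),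
    NZ (Y ^ N) Y k ≤ C / N * ((Y ^ N) ^ 48 / Real.log ((Y ^ N) ^ 48))

/-- the loss outside the narrow zones -/
def R_LB : Prop := ∀ N : ℕ, 100000 ≤ N → ∀ᶠ Y : ℝ in atTop,
  ∑ k ∈ (Icc 1 (XN (Y ^ N))).filter (fun k => InW (Y ^ N) k ∧ NZ (Y ^ N) Y k = 0),
    Ls (Y ^ N) Y k ≤ 22 / 25 * (399 / 40000) * ((Y ^ N) ^ 48 / Real.log ((Y ^ N) ^ 48))

-- deps:
def S_LB0 : Prop := R_LB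

-- deps: LB0 LZ EX BR PHB EV
def S_LOSS : Prop := ∃ N : ℕ, 1000 ≤ N ∧ ∀ᶠ Y : ℝ in atTop,
  ∑ k ∈ (Icc 1 (XN (Y ^ N))).filter (InW (Y ^ N)), Ls (Y ^ N) Y k ≤
    9 / 10 * (399 / 40000) * ((Y ^ N) ^ 48 / Real.log ((Y ^ N) ^ 48))

/-! ### Averaging over the shift and over the centre -/

-- deps:
def S_AV1 : Prop := ∀ δ y : ℝ, 0 < δ → Continuous (fun l => comb δ l y) ∧
  ∀ l1 l2 : ℝ, l1 ≤ l2 → l2 ≤ l1 + 1 → ∫ l in l1..l2, comb δ l y ≤ 1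

-- deps:
def S_AV2 : Prop := ∀ Δ y c1 c2 : ℝ, 0 < Δ → c1 ≤ c2 →
  ∫ c in c1..c2, gs ((y - c) / Δ) ≤ Δ ∧
  ∀ T : ℝ, 0 ≤ T → c1 + T * Δ ≤ y → y ≤ c2 - T * Δ →
    Δ * (1 - 2 * gs (T / 2)) ≤ ∫ c in c1..c2, gs ((y - c) / Δ)

-- deps: AV1
def S_TH1 : Prop := ∀ Q Y τ c l d R : ℝ, St Q Y τ → Wn Q Y c (d / (4 * Y)) → d ≤ 1 / 8 →
  (∀ l' : ℝ, R ≤ ∑ p ∈ PX Q, aa Q Y c (d / (4 * Y)) l' p) →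
  d / 2 * R ≤ ∑ p ∈ TP Q l d, bt Q Y c p + 1 / Q ^ 100

-- deps: AV2
def S_TH2 : Prop := ∀ (Q Y τ d R : ℝ) (L : ℕ → ℝ) (P T : Finset ℕ), St Q Y τ → 0 ≤ d → 0 ≤ R →
  (∀ k, 0 ≤ L k) → P ⊆ PX Q →
  (∀ p ∈ P, cL Q Y + Q ^ 24 / Y ≤ √(p : ℝ) ∧ √(p : ℝ) ≤ cR Q Y - Q ^ 24 / Y) →
  (∀ c : ℝ, cL Q Y ≤ c → c ≤ cR Q Y →
    d * (∑ p ∈ PX Q, bt Q Y c p - ∑ k ∈ Icc 1 (XN Q), bt Q Y c k * L k - R) ≤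
      ∑ p ∈ T, bt Q Y c p + 1 / Q ^ 100) →
  d * (999 / 1000 * P.card - 200 / 199 * ∑ k ∈ (Icc 1 (XN Q)).filter (InW Q), L k -
    Y ^ 2 * Q ^ 24 * R) ≤ 200 / 199 * T.card + 1 / Q ^ 70

-- deps: AH SV LOSS EV PNT2 TH1 TH2
def S_THA : Prop := ∃ N : ℕ, 1000 ≤ N ∧ ∃ c : ℝ, 0 < c ∧ ∀ᶠ Y : ℝ in atTop, ∀ l d : ℝ,
  4 / ((Y ^ N) ^ 12 * Y) ≤ d → d ≤ 1 / 8 →
    c * d * ((Y ^ N) ^ 48 / Real.log ((Y ^ N) ^ 48)) ≤ (TP (Y ^ N) l d).card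

/-! ### Moments -/

-- deps:
-- imports: Pool.Agent.P.MP_74dd9d_nt.Sieve2 Pool.Agent.P.MP_74dd9d_nt.Mertens
def S_PPR : Prop := ∃ C : ℝ, 0 < C ∧ ∃ K0 : ℕ, ∀ K y h : ℕ, K0 ≤ K → 1 ≤ h →
  (((Icc 1 K).filter fun A => (y + A).Prime ∧ (y + h + A).Prime).card : ℝ) ≤
    C * (K / Real.log K ^ 2) * Real.exp (∑ q ∈ h.primeFactors, 1 / (q : ℝ))

-- deps:
def S_GAV : Prop := ∃ C : ℝ, 0 < C ∧ ∀ M : ℕ,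
  ∑ m ∈ Icc 1 M, Real.exp (2 * ∑ q ∈ m.primeFactors, 1 / (q : ℝ)) ≤ C * M

-- deps: PPR GAV
def S_MO2 : Prop := ∀ θ : ℝ, 0 < θ → ∃ C : ℝ, 0 < C ∧ ∀ᶠ n : ℕ in atTop, ∀ K : ℕ,
  (n : ℝ) ^ θ ≤ K → K ≤ n →
    ∑ A ∈ Icc 1 K, (PA A n : ℝ) ^ 2 ≤ C * ((n : ℝ) ^ 2 * K / Real.log n ^ 2)

-- deps: THA
def S_MO1 : Prop := ∃ θ : ℝ, 0 < θ ∧ θ < 1 / 2 ∧ ∃ c : ℝ, 0 < c ∧ ∀ᶠ n : ℕ in atTop, ∀ K : ℕ,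
  (n : ℝ) ^ θ ≤ K → K ≤ n →
    c * ((n : ℝ) * K / Real.log n) ≤ ∑ A ∈ (Icc 3 K).filter Odd, (PA A n : ℝ)

-- deps: MO1 MO2
def S_FIN : Prop := ∃ θ : ℝ, θ < 1 / 2 ∧ ∃ c : ℝ, 0 < c ∧ ∃ n0 : ℕ, ∀ n : ℕ, n0 ≤ n → ∀ K : ℕ,
  (n : ℝ) ^ θ ≤ K → K ≤ n →
    c * K ≤ (((Icc 3 K).filter fun A => Odd A ∧ c * n / Real.log n ≤ (PA A n : ℝ)).card : ℝ)

end Pool.Agent.P.MP_8be758_nt.Sq
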