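import Pool.Agent.P.MP_8be758_nt.Sq.IfaceB

/-! Statements for the loss. -/

set_option autoImplicit false

namespace Pool.Agent.P.MP_8be758_nt.Sq

open Finset Real Filter Topology ArithmeticFunction
open Pool.Agent.P.MP_e86632_nt (ee nn)
open Pool.Agent.P.MP_8be758_nt.Avg (gs Rough)

/-- a bound for the loss that is constant on boxes -/
structure BoxB (G : ℕ) (L : (s : ℕ) → (Fin s → ℕ) → ℝ) : Prop where
  g0 : 16 ≤ G
  l0 : ∀ s i, 0 ≤ L s i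
  lt : ∀ s i, L s i ≠ 0 → ∑ j, (i j + 1) < G
  bd : ∀ (s : ℕ) (x : Fin (s + 1) → ℝ) (y : ℝ), Cf x y → y ≤ 1 / 100000 →
    -Phi (chl y x) ≤ L s fun j => ⌊G * x j.castSucc / 48⌋₊
  tot : ∑ s ∈ range 12, ∑ i ∈ Fintype.piFinset (fun _ : Fin s => Icc 1 G),
    L s i * (∏ j, 1 / (i j : ℝ)) * (G / (G - ∑ j, ((i j : ℝ) + 1))) ≤ 87 / 100

-- deps:
def S_BOX : Prop := ∃ G L, BoxB G L

-- deps: BOX ENUM BR LOG PNT2 MW EV
def S_LBG : Prop := R_LB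

end Pool.Agent.P.MP_8be758_nt.Sq
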