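import Pool.Agent.P.MP_8be758_nt.Sq.IfaceD
import Pool.Agent.P.MP_8be758_nt.Sq.IfaceE
import Pool.Agent.P.MP_8be758_nt.Sq.BaseK

/-! Statements for the box computation. -/

set_option autoImplicit false

namespace Pool.Agent.P.MP_8be758_nt.Sq

open Finset Real Filter Topology ArithmeticFunction
open Pool.Agent.P.MP_e86632_nt (ee nn)
open Pool.Agent.P.MP_8be758_nt.Avg (gs Rough)

-- deps: SG0
def S_BD1 : Prop := ∀ (n : ℕ) (x : Fin n → ℝ) (y : ℝ) (e : Fin n → ℕ × ℕ), Cf x y →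
  y ≤ 1 / 100000 → 1 ≤ n →
  (∀ A : Finset (Fin n), ((∑ j ∈ A, (e j).1 : ℕ) : ℝ) - 6 * y ≤ 6 * ∑ j ∈ A, x j ∧
    6 * ∑ j ∈ A, x j ≤ ((∑ j ∈ A, (e j).2 : ℕ) : ℝ)) → (∀ j, (e j).2 ≤ (e j).1 + 11) →
  -Phi (chl y x) ≤ lf (List.ofFn e).reverse / 15

-- deps: BD1 SG1
def S_BD2 : Prop := ∀ (s : ℕ) (x : Fin (s + 1) → ℝ) (y : ℝ), Cf x y → y ≤ 1 / 100000 →
  -Phi (chl y x) ≤ Lf s [] 0 0 24 fun j => ⌊((288 : ℕ) : ℝ) * x j.castSucc / 48⌋₊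

-- deps:
def S_KER : Prop := VV 12 [] 0 0 24 ≤ 870000

-- deps: KER BD2
def S_BX : Prop := S_BOX

end Pool.Agent.P.MP_8be758_nt.Sq
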