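import Pool.Agent.P.MP_8be758_nt.Sq.IfaceB

/-! Step SEP. -/

set_option autoImplicit false
set_option linter.unusedSectionVars false

namespace Pool.Agent.P.MP_8be758_nt.Sq

open Finset Real Filter Topology ArithmeticFunction
open Pool.Agent.P.MP_e86632_nt (ee nn)
open Pool.Agent.P.MP_8be758_nt.Avg (gs Rough)

theorem sep_sqrt (M : ℕ) : ∑ m ∈ Icc 1 M, 1 / √(m : ℝ) ≤ 2 * √(M : ℝ) := by
  induction M with
  | zero => simp
  | succ n ih =>
    have h1 := Real.sq_sqrt (n.cast_nonneg (α := ℝ))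
    have h2 := Real.sq_sqrt ((n + 1).cast_nonneg (α := ℝ))
    have h3 : 1 / √((n + 1 : ℕ) : ℝ) ≤ 2 * √((n + 1 : ℕ) : ℝ) - 2 * √(n : ℝ) := by
      rw [div_le_iff₀ (by positivity)]
      push_cast at h2 ⊢
      nlinarith [sq_nonneg (√((n : ℝ) + 1) - √(n : ℝ))]
    rw [sum_Icc_succ_top (by omega)]
    linarith

theorem sep_comp {ι : Type} (S : Finset ι) (N : ι → ℕ) {f : ℝ} (g : ℕ → ℝ) (hg : ∀ n, 0 ≤ g n)
    (hf : ∀ n, ((S.filter fun a => N a = n).card : ℝ) ≤ f) :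
    ∑ a ∈ S, g (N a) ≤ f * ∑ n ∈ S.image N, g n := by
  rw [sum_comp, mul_sum]
  exact sum_le_sum fun n _ => by rw [nsmul_eq_mul]; exact mul_le_mul_of_nonneg_right (hf n) (hg n)

theorem sep_V {ι ι2 : Type} (T : Finset ι) (S : Finset ι2) (v : ι → ι2 → ℝ) {B f : ℝ} (hB : 0 ≤ B)
    (hf : (S.card : ℝ) ≤ f) (hv : ∀ b ∈ S, ∑ t ∈ T, v t b ^ 2 ≤ B) :
    ∑ t ∈ T, (∑ b ∈ S, v t b) ^ 2 ≤ f ^ 2 * B := by
  have h0 : (0 : ℝ) ≤ S.card := Nat.cast_nonneg _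
  refine (sum_le_sum fun t _ => sq_sum_le_card_mul_sum_sq).trans ?_
  rw [← mul_sum, sum_comm]
  refine (mul_le_mul_of_nonneg_left (sum_le_card_nsmul _ _ B hv) h0).trans ?_
  rw [nsmul_eq_mul, ← mul_assoc, ← pow_two]
  gcongr

theorem sep_U {ι ι1 : Type} (T : Finset ι) (S : Finset ι1) (u : ι → ι1 → ℝ) (N : ι1 → ℕ)
    (Q N0 : ℝ) (w : ℕ → ℝ) {B f : ℝ} (hB : 0 ≤ B) (h0 : 0 ≤ f)
    (hf : ∀ n, ((S.filter fun a => N a = n).card : ℝ) ≤ f) (hu : ∀ a ∈ S, ∑ t ∈ T, u t a ^ 2 ≤ B) :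
    ∑ m ∈ Icc 1 (Mx Q N0), ∑ t ∈ T, √(m : ℝ) * (∑ a ∈ S, u t a * w (m * N a)) ^ 2 ≤
      f ^ 2 * B * ∑ n1 ∈ S.image N, ∑ n2 ∈ S.image N, |CC Q w N0 n1 n2| := by
  have e : ∑ m ∈ Icc 1 (Mx Q N0), ∑ t ∈ T, √(m : ℝ) * (∑ a ∈ S, u t a * w (m * N a)) ^ 2 =
      ∑ a ∈ S, ∑ a' ∈ S, (∑ t ∈ T, u t a * u t a') * CC Q w N0 (N a) (N a') := by
    simp only [pow_two, sum_mul_sum, CC]
    simp only [mul_sum]
    rw [sum_comm]
    simp only [← sum_product']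
    refine sum_nbij' (fun x => (x.2.2.1, x.2.2.2, x.1, x.2.1))
      (fun x => (x.2.2.1, x.2.2.2, x.1, x.2.1)) ?_ ?_ ?_ ?_ ?_ <;> simp +contextual
    intros
    ring
  have k : ∀ a ∈ S, ∀ a' ∈ S, |∑ t ∈ T, u t a * u t a'| ≤ B := fun a ha a' ha' =>
    abs_le_of_sq_le_sq ((sum_mul_sq_le_sq_mul_sq _ _ _).trans (by
      rw [pow_two B]
      exact mul_le_mul (hu a ha) (hu a' ha') (by positivity) hB)) hB
  rw [e]
  calc _ ≤ ∑ a ∈ S, B * (f * ∑ n2 ∈ S.image N, |CC Q w N0 (N a) n2|) :=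
        sum_le_sum fun a ha => le_trans (by
          rw [mul_sum]
          exact sum_le_sum fun a' ha' => (le_abs_self _).trans (by
            rw [abs_mul]; exact mul_le_mul_of_nonneg_right (k a ha a' ha') (abs_nonneg _)))
          (mul_le_mul_of_nonneg_left (sep_comp S N (fun n => |CC Q w N0 (N a) n|)
            (fun _ => abs_nonneg _) hf) hB)
    _ ≤ B * (f * (f * ∑ n1 ∈ S.image N, ∑ n2 ∈ S.image N, |CC Q w N0 n1 n2|)) := by
        rw [← mul_sum, ← mul_sum]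
        gcongr
        exact sep_comp S N (fun n => ∑ n2 ∈ S.image N, |CC Q w N0 n n2|) (fun _ => by positivity) hf
    _ = _ := by ring

theorem p_SEP :
    S_SEP := by
  intro Q Y τ E w h hE hw hC ι1 ι2 S1 S2 N M κ B f hB hf hN hM f1 f2 ⟨ι, T, u, v, hκ, hu, hv⟩
  have a0 := h.pA_pos
  have q1 : 1000 ≤ Q ^ 12 := h.q0.trans (by simpa using h.qpow (a := 1) (b := 12) (by norm_num))
  have q2 : 1000 ≤ Q ^ 48 := q1.trans (h.qpow (by norm_num))
  have blk : ∀ (N0 : ℝ) (S : Finset ι1), S ⊆ S1 → pA Q Y ≤ N0 →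
      (∀ a ∈ S, N0 ≤ N a ∧ (N a : ℝ) < 2 * N0) →
      |∑ a ∈ S, ∑ b ∈ S2, κ a b * w (N a * M b)| ≤ f ^ 2 * B * (2 * E) := by
    intro N0 S hS h1 h2
    rcases S.eq_empty_or_nonempty with rfl | ⟨a0, ha0⟩
    · simp only [sum_empty, abs_zero]; positivity
    have n0 : 1000 ≤ N0 := q1.trans (h.le_pA.trans h1)
    have c := hC N0 (S.image N) h1 ((h2 a0 ha0).1.trans (hN a0 (hS ha0)).2.le) fun n hn => by
      obtain ⟨a, ha, rfl⟩ := mem_image.1 hn
      exact h2 a ha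
    have m1 : (Mx Q N0 : ℝ) ≤ Q ^ 48 := by
      have h3 : 4 * Q ^ 48 / N0 ≤ Q ^ 48 / 2 := by
        rw [div_le_iff₀ (by linarith)]; nlinarith
      linarith [Nat.ceil_lt_add_one (show 0 ≤ 4 * Q ^ 48 / N0 by positivity), show (Mx Q N0 : ℝ) =
        ⌈4 * Q ^ 48 / N0⌉₊ from rfl]
    have e : ∑ a ∈ S, ∑ b ∈ S2, κ a b * w (N a * M b) = ∑ x ∈ Icc 1 (Mx Q N0) ×ˢ T,
        (∑ b ∈ S2 with M b = x.1, v x.2 b) * ∑ a ∈ S, u x.2 a * w (x.1 * N a) := by
      rw [sum_comm, ← sum_filter_of_ne (p := fun b => M b ∈ Icc 1 (Mx Q N0)) fun b hb k => ?_,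
        ← sum_fiberwise_eq_sum_filter, sum_product]
      · refine sum_congr rfl fun m _ => ?_
        simp only [sum_mul_sum]
        rw [sum_comm (s := T)]
        refine sum_congr rfl fun b hb => ?_
        rw [sum_comm (s := T)]
        refine sum_congr rfl fun a ha => ?_
        rw [hκ a (hS ha) b (mem_filter.1 hb).1, (mem_filter.1 hb).2, sum_mul, mul_comm (N a)]
        exact sum_congr rfl fun t _ => by ring
      · refine mem_Icc.2 ⟨hM b hb, not_lt.1 fun k' => k (sum_eq_zero fun a ha => ?_)⟩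
        have h3 := (div_lt_iff₀ (by linarith)).1 (Nat.lt_of_ceil_lt k')
        rw [hw _ (by push_cast; nlinarith [(h2 a ha).1, (M b).cast_nonneg (α := ℝ)]), mul_zero]
    have cs := sum_sq_le_sum_mul_sum_of_sq_le_mul (Icc 1 (Mx Q N0) ×ˢ T)
      (r := fun x => (∑ b ∈ S2 with M b = x.1, v x.2 b) * ∑ a ∈ S, u x.2 a * w (x.1 * N a))
      (f := fun x => 1 / √(x.1 : ℝ) * (∑ b ∈ S2 with M b = x.1, v x.2 b) ^ 2)
      (g := fun x => √(x.1 : ℝ) * (∑ a ∈ S, u x.2 a * w (x.1 * N a)) ^ 2)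
      (fun _ _ => by positivity) (fun _ _ => by positivity) fun x hx => le_of_eq (by
        have : 0 < x.1 := (mem_Icc.1 (mem_product.1 hx).1).1
        field_simp)
    rw [← e, sum_product, sum_product] at cs
    have b1 := sep_U T S u N Q N0 w hB hf (fun n => le_trans (Nat.cast_le.2
      (card_le_card (filter_subset_filter _ hS))) (f1 n)) fun a ha => hu a (hS ha)
    have b2 : ∑ m ∈ Icc 1 (Mx Q N0), ∑ t ∈ T, 1 / √(m : ℝ) * (∑ b ∈ S2 with M b = m, v t b) ^ 2 ≤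
        2 * √(Mx Q N0 : ℝ) * (f ^ 2 * B) := by
      refine le_trans ?_ (mul_le_mul_of_nonneg_right (sep_sqrt _) (by positivity))
      rw [sum_mul]
      refine sum_le_sum fun m hm => ?_
      rw [← mul_sum]
      exact mul_le_mul_of_nonneg_left (sep_V T _ v hB (by
        simpa using f2 m (le_trans (Nat.cast_le.2 (mem_Icc.1 hm).2) m1)) fun b hb =>
          hv b (mem_filter.1 hb).1) (by positivity)
    refine abs_le_of_sq_le_sq ((cs.trans (mul_le_mul b2 b1 (by positivity)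
      (by positivity))).trans ?_) (by positivity)
    nlinarith [mul_le_mul_of_nonneg_left c (sq_nonneg (f ^ 2 * B)), sq_nonneg (f ^ 2 * B * E)]
  rw [← sum_fiberwise_of_maps_to (g := fun a => Nat.log 2 ⌊N a / pA Q Y⌋₊)
    (t := range (Nat.log 2 ⌊Q ^ 4⌋₊ + 1)) fun a ha => mem_range.2 (Nat.lt_succ_of_le
      (Nat.log_mono_right (Nat.floor_le_floor (le_trans ((div_le_iff₀' a0).2
        (h.pA_pz ▸ (hN a ha).2.le)) h.pz_le))))]
  refine (abs_sum_le_sum_abs _ _).trans ((sum_le_card_nsmul _ _ _ fun i _ =>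
    blk (pA Q Y * 2 ^ i) _ (filter_subset _ _)
      (le_mul_of_one_le_right a0.le (one_le_pow₀ one_le_two)) fun a ha => ?_).trans ?_)
  · obtain ⟨h1, rfl⟩ := mem_filter.1 ha
    have h2 : 1 ≤ ⌊N a / pA Q Y⌋₊ := Nat.le_floor (by
      rw [Nat.cast_one, one_le_div a0]; exact (hN a h1).1)
    have h3 := (Nat.le_floor_iff (by positivity)).1 (Nat.pow_log_le_self 2 (Nat.ne_of_gt h2))
    have h4 := (Nat.floor_lt (by positivity)).1 (Nat.lt_pow_succ_log_self one_lt_two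
      ⌊N a / pA Q Y⌋₊)
    rw [le_div_iff₀' a0] at h3
    rw [div_lt_iff₀' a0] at h4
    push_cast at h3 h4
    exact ⟨h3, h4.trans_eq (by rw [pow_succ]; ring)⟩
  · have h1 := h.log2 (k := 4) (Nat.floor_le (pow_pos h.qpos 4).le)
    have h2 := h.mix (C := 18) (a := 0) (b := 1) (by linarith [h.y0]) (by norm_num) (by norm_num)
    rw [card_range, nsmul_eq_mul]
    have h3 : 0 ≤ f ^ 2 * B * E := by positivity
    push_cast at h1 ⊢
    nlinarith

end Pool.Agent.P.MP_8be758_nt.Sq
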