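import Pool.Agent.P.MP_8be758_nt.Sq.AllA
import Pool.Agent.P.MP_8be758_nt.Sq.TSEP

/-! Step AH. -/

set_option autoImplicit false

namespace Pool.Agent.P.MP_8be758_nt.Sq

theorem p_AH : S_AH := by
  obtain ⟨Y1, h1⟩ := a_TI
  obtain ⟨Y2, h2⟩ := a_TI2
  obtain ⟨Y3, h3⟩ := a_TII
  refine ⟨max Y1 (max Y2 Y3), fun Q Y τ c δ l hY h w => ?_⟩
  simp only [max_le_iff] at hY
  have q := pow_pos h.qpos 24
  have y := h.ypos
  have sup : ∀ k, ¬ InW Q k → wt Q Y c δ l k = 0 := fun k hk => by simp [wt, aa, bt, hk]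
  refine ⟨by positivity, sup, h1 Q Y τ c δ l hY.1 h w, h2 Q Y τ c δ l hY.2.1 h w, ?_⟩
  have h4 := p_SEP Q Y τ _ _ h (by positivity) (fun k hk => sup k fun c => absurd c.2 (not_le.2 hk))
    (h3 Q Y τ c δ l hY.2.2 h w)
  intro ι1 ι2 S1 S2 N M κ B f a1 a2 a3 a4 a5 a6 a7
  refine (h4 ι1 ι2 S1 S2 N M κ B f a1 a2 a3 a4 a5 a6 a7).trans
    (mul_le_mul_of_nonneg_left ?_ (by positivity))
  have e : Y * (Q ^ 24 / Y ^ 30) = Q ^ 24 / Y ^ 29 := by field_simp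
  rw [e]
  exact div_le_div_of_nonneg_left q.le (by positivity) (h.ymono (by norm_num))

end Pool.Agent.P.MP_8be758_nt.Sq
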