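import Pool.Agent.P.MP_8be758_nt.Sq.IfaceK

/-! Step BD2. -/

set_option autoImplicit false
set_option linter.unusedSectionVars false

namespace Pool.Agent.P.MP_8be758_nt.Sq

open Finset Real Filter Topology ArithmeticFunction
open Pool.Agent.P.MP_e86632_nt (ee nn)
open Pool.Agent.P.MP_8be758_nt.Avg (gs Rough)

theorem bd2_drop (f : ℕ → ℕ → Bool) (E1 E2 : List (ℕ × ℕ)) (a b : ℕ)
    (h : aS f (E1 ++ E2) a b = true) : aS f E2 a b = true := by
  induction E1 with
  | nil => exact h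
  | cons e E ih => rw [List.cons_append, aS_cons, Bool.and_eq_true] at h; exact ih h.1

theorem bd2_all {ι : Type} [DecidableEq ι] (f : ℕ → ℕ → Bool) (g : ι → ℕ × ℕ) (l : List ι)
    (hl : l.Nodup) : ∀ a b, (∀ A ⊆ l.toFinset,
      f (a + ∑ j ∈ A, (g j).1) (b + ∑ j ∈ A, (g j).2) = true) → aS f (l.map g) a b = true := by
  induction l with
  | nil => exact fun a b h => by simpa [aS_nil] using h ∅ (by simp)
  | cons c l ih =>
    intro a b h
    obtain ⟨h1, h2⟩ := List.nodup_cons.1 hl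
    rw [List.toFinset_cons] at h
    rw [List.map_cons, aS_cons, Bool.and_eq_true]
    refine ⟨ih h2 _ _ fun A hA => h A (hA.trans (subset_insert _ _)), ih h2 _ _ fun A hA => ?_⟩
    have h3 : c ∉ A := fun h4 => h1 (List.mem_toFinset.1 (hA h4))
    have := h (insert c A) (insert_subset_insert _ hA)
    rwa [sum_insert h3, sum_insert h3, ← add_assoc, ← add_assoc] at this

theorem bd2_eq (s : ℕ) : ∀ E b σ lo (i : Fin s → ℕ),
    aS okp ((List.ofFn fun j => (i j, i j + 1)).reverse ++ E) 0 0 = true → (∀ k, lo ≤ i k) →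
    Monotone i → (∀ k, b + ∑ j, i j + i k ≤ 288) → σ + ∑ j, (i j + 1) < 288 →
    Lf s E b σ lo i = lf ((288 - (σ + ∑ j, (i j + 1)), 288 - (b + ∑ j, i j)) ::
      ((List.ofFn fun j => (i j, i j + 1)).reverse ++ E)) / 15 := by
  induction s with
  | zero =>
    intro E b σ lo i _ _ _ _ h
    simp only [univ_eq_empty, sum_empty, add_zero] at h ⊢
    rw [Lf, if_pos h]
    rfl
  | succ s ih =>
    intro E b σ lo i h1 h2 h3 h4 h5
    rw [List.ofFn_succ, List.reverse_cons, List.append_assoc, List.singleton_append] at h1 ⊢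
    simp only [Fin.sum_univ_succ, ← add_assoc] at h4 h5 ⊢
    have h6 := bd2_drop _ _ _ _ _ h1
    rw [aS_cons, Bool.and_eq_true, zero_add, zero_add] at h6
    rw [Lf, if_pos ⟨h2 0, by have := h4 0; omega, h6.2⟩]
    exact ih _ _ _ _ _ h1 (fun k => h3 (Fin.zero_le _))
      (fun a b c => h3 (Fin.succ_le_succ_iff.2 c)) (fun k => h4 k.succ) h5

theorem p_BD2 (hBD1 : S_BD1) (hSG1 : S_SG1) :
    S_BD2 := by
  intro s x y h hy
  have hs := hSG1 _ x y h
  have y0 := h.y0
  have key : ∀ j : Fin s, (⌊((288 : ℕ) : ℝ) * x j.castSucc / 48⌋₊ : ℝ) ≤ 6 * x j.castSucc ∧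
      6 * x j.castSucc < ⌊((288 : ℕ) : ℝ) * x j.castSucc / 48⌋₊ + 1 := fun j => by
    rw [show ((288 : ℕ) : ℝ) * x j.castSucc / 48 = 6 * x j.castSucc by push_cast; ring]
    exact ⟨Nat.floor_le (by linarith [h.lo j.castSucc]), Nat.lt_floor_add_one _⟩
  have mo : Monotone fun j : Fin s => ⌊((288 : ℕ) : ℝ) * x j.castSucc / 48⌋₊ := fun a b c =>
    Nat.floor_mono (by have := h.mono.monotone (Fin.castSucc_le_castSucc_iff.2 c); gcongr)
  generalize hi : (fun j : Fin s => ⌊((288 : ℕ) : ℝ) * x j.castSucc / 48⌋₊) = i at mo ⊢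
  simp only [show ∀ j, ⌊((288 : ℕ) : ℝ) * x (Fin.castSucc j) / 48⌋₊ = i j from congrFun hi] at key
  have a1 : ∀ A : Finset (Fin s), ((∑ j ∈ A, i j : ℕ) : ℝ) ≤ 6 * ∑ j ∈ A, x j.castSucc ∧
      6 * ∑ j ∈ A, x j.castSucc ≤ ((∑ j ∈ A, (i j + 1) : ℕ) : ℝ) := fun A => by
    push_cast
    rw [mul_sum]
    exact ⟨sum_le_sum fun j _ => (key j).1, sum_le_sum fun j _ => (key j).2.le⟩
  have t1 := h.tot1
  have t2 := h.tot2
  have l1 := h.lo (Fin.last s)
  have e1 : ∑ j, (i j + 1) = ∑ j, i j + s := by simp [sum_add_distrib]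
  obtain ⟨a2, a3⟩ := a1 univ
  rw [Fin.sum_univ_castSucc] at t1 t2
  have a4 : ∑ j, i j ≤ 264 := by
    have : ((∑ j, i j : ℕ) : ℝ) ≤ 264 := by linarith
    exact_mod_cast this
  rw [bd2_eq s [] 0 0 24 i ?_ (fun k => ?_) mo (fun k => ?_) (by omega)]
  · have := hBD1 (s + 1) x y (Fin.snoc (α := fun _ => ℕ × ℕ) (fun j => (i j, i j + 1))
      (288 - ∑ j, (i j + 1), 288 - ∑ j, i j)) h hy (by omega) (fun A => ?_) fun j => ?_
    · rw [List.ofFn_succ', List.concat_eq_append, List.reverse_append] at this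
      simpa using this
    · have b1 : ∀ j, (((Fin.snoc (α := fun _ => ℕ × ℕ) (fun j => (i j, i j + 1))
          (288 - ∑ j, (i j + 1), 288 - ∑ j, i j) j).1 : ℕ) : ℝ) ≤
            6 * x j + (if j = Fin.last s then 6 * y else 0) ∧ 6 * x j ≤
          ((Fin.snoc (α := fun _ => ℕ × ℕ) (fun j => (i j, i j + 1))
          (288 - ∑ j, (i j + 1), 288 - ∑ j, i j) j).2 : ℕ) := fun j => by
        induction j using Fin.lastCases with
        | last =>
          rw [Fin.snoc_last, if_pos rfl, Nat.cast_sub (by omega), Nat.cast_sub (by omega)]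
          constructor <;> push_cast at * <;> linarith
        | cast j =>
          rw [Fin.snoc_castSucc, if_neg (Fin.castSucc_ne_last j)]
          exact ⟨by linarith [(key j).1], by push_cast; linarith [(key j).2]⟩
      have b2 := sum_le_sum (s := A) fun j _ => (b1 j).1
      rw [sum_add_distrib (f := fun j => 6 * x j), sum_ite_eq'] at b2
      rw [Nat.cast_sum, Nat.cast_sum, mul_sum]
      refine ⟨?_, sum_le_sum fun j _ => (b1 j).2⟩
      split_ifs at b2 <;> linarith
    · induction j using Fin.lastCases with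
      | last => rw [Fin.snoc_last]; dsimp only; omega
      | cast j => rw [Fin.snoc_castSucc]; dsimp only; omega
  · rw [List.append_nil, List.ofFn_eq_map, ← List.map_reverse]
    refine bd2_all _ _ _ (List.nodup_reverse.2 (List.nodup_finRange s)) 0 0 fun A _ => ?_
    obtain ⟨b1, b2⟩ := a1 A
    have g1 := h.gap (A.map Fin.castSuccEmb)
    have g2 := h.gap (A.map Fin.castSuccEmb)ᶜ
    have g3 := sum_add_sum_compl (A.map Fin.castSuccEmb) x
    rw [Fin.sum_univ_castSucc] at g3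
    simp only [sum_map, Fin.coe_castSuccEmb] at g1 g3
    simp only [okp, zero_add, Bool.and_eq_true, Bool.or_eq_true, Nat.ble_eq]
    generalize ∑ j ∈ A, i j = u at *
    generalize ∑ j ∈ A, (i j + 1) = v at *
    refine ⟨g1.imp (fun c => Nat.le_of_lt_succ ?_) fun c => Nat.succ_le_of_lt ?_,
      g2.symm.imp (fun c => Nat.le_of_lt_succ ?_) fun c => Nat.succ_le_of_lt ?_⟩ <;>
    rw [← Nat.cast_lt (α := ℝ)] <;> push_cast <;> linarith
  · have : (23 : ℝ) < i k := by linarith [(key k).2, h.lo k.castSucc]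
    exact_mod_cast this
  · have := h.mono (Fin.castSucc_lt_last k)
    have : ((0 + ∑ j, i j + i k : ℕ) : ℝ) ≤ 288 := by
      rw [zero_add, Nat.cast_add]; linarith [(key k).1]
    exact_mod_cast this

end Pool.Agent.P.MP_8be758_nt.Sq
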