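import Pool.Agent.P.MP_8be758_nt.Sq.IfaceB

/-! Step ENUM. -/

set_option autoImplicit false
set_option linter.unusedSectionVars false

namespace Pool.Agent.P.MP_8be758_nt.Sq

open Finset Real Filter Topology ArithmeticFunction
open Pool.Agent.P.MP_e86632_nt (ee nn)
open Pool.Agent.P.MP_8be758_nt.Avg (gs Rough)

theorem enum_mem {Q Y : ℝ} {s : ℕ} {p : Fin s → ℕ} :
    p ∈ TU Q Y s ↔ Tup p ∧ ∀ i, p i ≤ XN Q ∧ pz Q Y < p i := by
  simp only [TU, TA, PS, mem_filter, Fintype.mem_piFinset, mem_Icc, Tup]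
  exact ⟨fun h => ⟨⟨h.2, fun i => (h.1 i).2.1⟩, fun i => ⟨(h.1 i).1.2, (h.1 i).2.2⟩⟩,
    fun h => ⟨fun i => ⟨⟨(h.1.2 i).one_le, (h.2 i).1⟩, h.1.2 i, (h.2 i).2⟩, h.1.1⟩⟩

theorem p_ENUM (hEX : S_EX) (hBR0 : S_BR0) :
    S_ENUM := by
  intro Q Y τ F h hF
  rw [sum_sigma']
  symm
  refine sum_bij_ne_zero (fun x _ _ => ∏ i, x.2 i) ?_ ?_ ?_ fun _ _ _ => rfl
  · rintro ⟨s, p⟩ hx h0
    obtain ⟨h1, h2⟩ := enum_mem.1 (mem_sigma.1 hx).2
    refine mem_filter.2 ⟨mem_Icc.2 ⟨prod_pos fun i _ => (h1.2 i).pos, ?_⟩,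
      (hBR0 s p h1 univ).2.2.1, fun q hq hd => ?_⟩
    · by_contra h3
      exact h0 (hF _ (not_le.1 h3))
    · obtain ⟨i, -, hi⟩ := (Prime.dvd_finsetProd_iff hq.prime _).1 hd
      rw [(Nat.prime_dvd_prime_iff_eq hq (h1.2 i)).1 hi]
      exact (h2 i).2
  · rintro ⟨s, p⟩ hx - ⟨s', p'⟩ hx' - e
    have h1 := (enum_mem.1 (mem_sigma.1 hx).2).1
    have h2 := (enum_mem.1 (mem_sigma.1 hx').2).1
    have e1 : univ.image p = univ.image p' := by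
      rw [← (hBR0 s p h1 univ).2.2.2.2.1, ← (hBR0 s' p' h2 univ).2.2.2.2.1]
      exact congrArg Nat.primeFactors e
    have e2 := congrArg card e1
    rw [card_image_of_injective _ h1.1.injective, card_image_of_injective _ h2.1.injective,
      card_fin, card_fin] at e2
    subst e2
    have e3 : Set.range p = Set.range p' := by
      rw [← Set.image_univ, ← Set.image_univ, ← coe_univ, ← coe_image, ← coe_image, e1]
    have e4 : p = p' := (h1.1.range_inj h2.1).1 e3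
    rw [e4]
  · intro k hk h0
    obtain ⟨h1, h2, h3⟩ := mem_filter.1 hk
    obtain ⟨h4, h5⟩ := mem_Icc.1 h1
    obtain ⟨s, hs, p, hp, rfl⟩ := hEX Q Y τ k h h2 h3
      ((Nat.cast_le.2 h5).trans h.XN_le)
    exact ⟨⟨s, p⟩, mem_sigma.2 ⟨mem_range.2 (Nat.lt_succ_of_le hs), enum_mem.2 ⟨hp, fun i =>
      ⟨(Nat.le_of_dvd h4 (dvd_prod_of_mem _ (mem_univ i))).trans h5,
        h3 _ (hp.2 i) (dvd_prod_of_mem _ (mem_univ i))⟩⟩⟩, h0, rfl⟩

end Pool.Agent.P.MP_8be758_nt.Sq
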