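import Pool.Agent.P.MP_8be758_nt.Sq.IfaceA

/-! Step GIa. -/

set_option autoImplicit false
set_option linter.unusedSectionVars false

namespace Pool.Agent.P.MP_8be758_nt.Sq

open Finset Real Filter Topology
open Pool.Agent.P.MP_e86632_nt (ee nn norm_ee ee_add ee_neg)
open Pool.Agent.P.MP_8be758_nt.Avg (gs gs_pos gs_anti gs_le_one gs_neg)

theorem gia_norm (t θ β : ℝ) {s : ℝ} (hs : 0 < s) : ‖GI t s θ β‖ ≤
    s * Real.exp (-(π * (s ^ 2 * (θ - 2 * β * t) ^ 2 / (1 + (2 * β * s ^ 2) ^ 2)))) := by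
  have s0 : (s : ℂ) ≠ 0 := Complex.ofReal_ne_zero.2 hs.ne'
  have p0 : (π : ℂ) ≠ 0 := Complex.ofReal_ne_zero.2 pi_ne_zero
  obtain ⟨m, hm⟩ : ∃ m : ℂ, m = (1 : ℝ) + (2 * β * s ^ 2 : ℝ) * Complex.I := ⟨_, rfl⟩
  have m1 : m.re = 1 := by
    rw [hm, Complex.add_re, Complex.ofReal_re, Complex.re_ofReal_mul, Complex.I_re]; ring
  have m2 : Complex.normSq m = 1 + (2 * β * s ^ 2) ^ 2 := by rw [hm, Complex.normSq_add_mul_I]; ring
  have m0 : m ≠ 0 := fun h => by simp [h] at m1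
  have r1 : (((-(π / s ^ 2) : ℝ) : ℂ) * m).re < 0 := by
    rw [Complex.re_ofReal_mul, m1, mul_one, Left.neg_neg_iff]
    positivity
  have h1 : ∀ y : ℝ, (gs ((y - t) / s) : ℂ) * ee (θ * y - β * y ^ 2) =
      Complex.exp (((-(π / s ^ 2) : ℝ) : ℂ) * m * y ^ 2 +
        2 * π * (t / s ^ 2 + Complex.I * θ) * y + -(π * t ^ 2 / s ^ 2)) := fun y => by
    rw [Avg.gs_cast, ee, ← Complex.exp_add, hm]
    congr 1
    push_cast; field_simp; ring
  rw [GI]
  simp only [h1]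
  rw [integral_cexp_quadratic r1, norm_mul, Complex.norm_exp]
  refine mul_le_mul (abs_le_of_sq_le_sq' ?_ hs.le).2 (le_of_eq ?_) (Real.exp_pos _).le hs.le
  · rw [← norm_pow, one_div, Complex.cpow_ofNat_inv_pow, show (π : ℂ) / -(((-(π / s ^ 2) : ℝ) : ℂ) * m)
      = ((s ^ 2 : ℝ) : ℂ) / m by push_cast; field_simp, norm_div, Complex.norm_real,
      Real.norm_of_nonneg (sq_nonneg s)]
    exact div_le_self (sq_nonneg s) (m1 ▸ Complex.re_le_norm m)
  · congr 1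
    rw [show -((π : ℂ) * t ^ 2 / s ^ 2) - (2 * π * (t / s ^ 2 + Complex.I * θ)) ^ 2 /
        (4 * (((-(π / s ^ 2) : ℝ) : ℂ) * m)) = ((2 * π * (θ * t - β * t ^ 2) : ℝ) : ℂ) * Complex.I +
        ((-(π * s ^ 2 * (θ - 2 * β * t) ^ 2) : ℝ) : ℂ) * m⁻¹ by
      push_cast; field_simp; rw [hm]; push_cast
      linear_combination (4 * s ^ 4 * (θ - 2 * β * t) ^ 2) * Complex.I_mul_I,
      Complex.add_re, Complex.re_ofReal_mul, Complex.re_ofReal_mul, Complex.I_re, Complex.inv_re,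
      m1, m2]
    ring

theorem p_GIa :
    S_GIa := by
  refine ⟨fun t s θ β Λ hs h0 h1 h2 h3 => ?_, fun t s θ hs => ?_⟩
  · refine (gia_norm t θ β hs).trans (mul_le_mul_of_nonneg_left (Real.exp_le_exp.2
      (neg_le_neg (mul_le_mul_of_nonneg_left ?_ pi_pos.le))) hs.le)
    rw [le_div_iff₀ (by positivity), ← sq_abs (θ - _), mul_pow, mul_pow, ← sq_abs β]
    have h4 := (mul_le_mul_of_nonneg_left h1 (abs_nonneg β)).trans h2
    have h5 := pow_le_pow_left₀ (by positivity) h4 2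
    have h6 := pow_le_pow_left₀ (by positivity) h3 2
    have h7 := mul_le_mul_of_nonneg_left h5 (sq_nonneg s)
    nlinarith [sq_nonneg (|θ - 2 * β * t| * s)]
  · refine (gia_norm t θ 0 hs).trans (le_of_eq ?_)
    rw [gs]
    congr 2
    ring

end Pool.Agent.P.MP_8be758_nt.Sq
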