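import Pool.Agent.P.MP_8be758_nt.Sq.IfaceB

/-! Step H2. -/

set_option autoImplicit false
set_option linter.unusedSectionVars false

namespace Pool.Agent.P.MP_8be758_nt.Sq

open Finset Real Filter Topology ArithmeticFunction
open Pool.Agent.P.MP_e86632_nt (ee nn)
open Pool.Agent.P.MP_8be758_nt.Avg (gs Rough)

theorem h2_fib {ι : Type} (S : Finset ι) (r : ι → ℕ) (T : Finset (Σ _ : ι, ℕ)) {f : ℝ} {n : ℕ}
    (hn : n ≠ 0) (hT : ∀ p ∈ T, p.1 ∈ S ∧ r p.1 * p.2 = n)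
    (hf : ∀ n, ((S.filter fun s => r s = n).card : ℝ) ≤ f) : (T.card : ℝ) ≤ n.divisors.card * f := by
  rw [card_eq_sum_card_fiberwise (f := fun p => r p.1) (t := n.divisors)
    fun p hp => Nat.mem_divisors.2 ⟨Dvd.intro _ (hT p hp).2, hn⟩, Nat.cast_sum, ← nsmul_eq_mul]
  refine sum_le_card_nsmul _ _ _ fun d _ => le_trans (Nat.cast_le.2 ?_) (hf d)
  refine card_le_card_of_injOn (fun p => p.1) (fun p hp => ?_) ?_
  · have := mem_filter.1 (mem_coe.1 hp)
    exact mem_coe.2 (mem_filter.2 ⟨(hT p this.1).1, this.2⟩)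
  · rintro ⟨s, e⟩ hp ⟨s', e'⟩ hq (rfl : s = s')
    have h1 : r s * e = n := (hT _ (mem_filter.1 (mem_coe.1 hp)).1).2
    have h2 : r s * e' = n := (hT _ (mem_filter.1 (mem_coe.1 hq)).1).2
    have h0 : r s ≠ 0 := fun h0 => hn (by rw [← h1, h0, zero_mul])
    rw [Nat.eq_of_mul_eq_mul_left (Nat.pos_of_ne_zero h0) (h1.trans h2.symm)]

theorem h2_ioc {X lo hi e : ℕ} (he : 1 ≤ e) (hX : hi ≤ X) (F : ℕ → ℝ) :
    ∑ v ∈ Icc 1 X, (if e * v ∈ Ioc lo hi then F v else 0) = ∑ v ∈ Ioc (lo / e) (hi / e), F v := by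
  rw [← sum_filter]
  refine sum_congr (ext fun v => ?_) fun _ _ => rfl
  have := Nat.div_le_self hi e
  have := Nat.zero_le (lo / e)
  rw [mem_filter, mem_Icc, mem_Ioc, mem_Ioc, mul_comm, ← Nat.div_lt_iff_lt_mul he,
    ← Nat.le_div_iff_mul_le he]
  omega

theorem p_H2 (hSPL : S_SPL) (hCRS : S_CRS) (hG2L : S_G2L) (hH2A : S_H2A) :
    S_H2 := by
  classical
  obtain ⟨Y0, hA⟩ := hH2A
  refine ⟨max Y0 ((395 * 396 * 500) ^ 2), fun Q Y τ E w hY h hw ι S r lo hi α f hf hS hfib hc => ?_⟩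
  have t1 := h.t1
  have hl := h.log1
  have e0 := hw.e0
  have q0 := h.qpos
  have hX := h.XN_le
  have hf' : 1 ≤ τ * f := one_le_mul_of_one_le_of_one_le t1 hf
  have hhi : ∀ s ∈ S, hi s ≤ XN Q := fun s hs =>
    le_XN ((hS s hs).2.2.1.trans (h.qpow (by norm_num)))
  set X := XN Q with hXd
  set z := pz Q Y
  set G : ι → ℕ → ℝ := fun s v => ∑ j ∈ Icc 1 X, rh z j * w (r s * v * j) with hG
  have cI : ((Icc 1 X).card : ℝ) ≤ Q ^ 48 := by simpa using hX
  have cII : ((Icc 1 X ×ˢ Icc 1 X).card : ℝ) ≤ Q ^ 96 := by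
    rw [card_product, Nat.cast_mul, show 96 = 48 + 48 from rfl, pow_add]
    exact mul_le_mul cI cI (Nat.cast_nonneg _) (by positivity)
  have h1 := hA Q Y τ E w ((le_max_left _ _).trans hY) h hw (Σ _ : ι, ℕ)
    (S.sigma fun s => E0 z (pA Q Y) (r s) X) (fun p => r p.1 * p.2) (fun p => lo p.1 / p.2)
    (fun p => hi p.1 / p.2) (fun p => α p.1 * mu p.2) (τ * f) hf' (fun p hp => by
      obtain ⟨h1, h2⟩ := mem_sigma.1 hp
      obtain ⟨h3, -, h4⟩ := mem_filter.1 h2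
      obtain ⟨h5, -, h6, h7⟩ := hS _ h1
      refine ⟨Nat.mul_pos h5 (mem_Icc.1 h3).1, h4,
        le_trans (Nat.cast_le.2 (Nat.div_le_self _ _)) h6, ?_⟩
      rw [abs_mul]
      exact mul_le_one₀ h7 (abs_nonneg _) (abs_mu_le _)) (fun n => by
      rcases ((S.sigma fun s => E0 z (pA Q Y) (r s) X).filter
        fun p => r p.1 * p.2 = n).eq_empty_or_nonempty with h1 | ⟨p, hp⟩
      · rw [h1, card_empty, Nat.cast_zero]; linarith
      obtain ⟨h1, h2⟩ := mem_filter.1 hp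
      obtain ⟨h1, h3⟩ := mem_sigma.1 h1
      obtain ⟨h3, -, h4⟩ := mem_filter.1 h3
      rw [h2] at h4
      refine (h2_fib S r _ (n := n) (h2 ▸ (Nat.mul_pos (hS _ h1).1 (mem_Icc.1 h3).1).ne')
        (fun q hq => ⟨(mem_sigma.1 (mem_filter.1 hq).1).1, (mem_filter.1 hq).2⟩) hfib).trans ?_
      exact mul_le_mul_of_nonneg_right
        (h.tau n (h4.le.trans (h.pA_le.trans (h.qpow (by norm_num))))) (by linarith)) (by
      rw [card_sigma, Nat.cast_sum]
      refine (sum_le_card_nsmul _ _ (Q ^ 48) fun s _ =>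
        le_trans (Nat.cast_le.2 (card_filter_le _ _)) cI).trans ?_
      rw [nsmul_eq_mul, show 150 = 102 + 48 from rfl, pow_add]
      exact mul_le_mul_of_nonneg_right (hc.trans (h.qpow (by norm_num))) (by positivity))
  have hL : ∀ φ : ι × ℕ × ℕ → ℝ, G2 (S ×ˢ (Icc 1 X ×ˢ Icc 1 X)) ((Icc 1 X ×ˢ Icc 1 X) ×ˢ Icc 1 X)
      (fun a b => if φ a < ((b.2 * b.1.1 : ℕ) : ℝ) then 1 else 0) (395 * Real.log Q) := by
    intro φ
    refine (hG2L _ _ _ _ φ fun b : (ℕ × ℕ) × ℕ => ((b.2 * b.1.1 : ℕ) : ℝ)).mono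
      ((h.log2 (k := 197) ?_).trans (by norm_num))
    rw [card_product, card_product (Icc 1 X ×ˢ Icc 1 X), Nat.cast_add, Nat.cast_mul, Nat.cast_mul]
    have a1 := mul_le_mul hc cII (Nat.cast_nonneg _) (by positivity)
    have a2 := mul_le_mul cII cI (Nat.cast_nonneg _) (by positivity)
    rw [← pow_add] at a1 a2
    have a3 := h.qpow (a := 96 + 48) (b := 100 + 96) (by norm_num)
    have a4 : Q ^ 197 = Q ^ (100 + 96) * Q := pow_succ Q 196
    nlinarith [h.q0, pow_pos q0 (100 + 96)]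
  have h2 := hCRS Q Y τ E w h hw ι (ℕ × ℕ) S (Icc 1 X ×ˢ Icc 1 X) r (fun b => b.1 * b.2) _ _ (τ * f)
    (by positivity) hf' (fun s hs => (hS s hs).1)
    (fun b hb => Nat.mul_pos (mem_Icc.1 (mem_product.1 hb).1).1 (mem_Icc.1 (mem_product.1 hb).2).1)
    (fun n => (hfib n).trans (le_mul_of_one_le_left (by linarith) t1)) (fun n hn => by
      rcases ((Icc 1 X ×ˢ Icc 1 X).filter
        fun b => b.1 * b.2 = n).eq_empty_or_nonempty with h1 | ⟨b, hb⟩
      · rw [h1, card_empty, Nat.cast_zero]; linarith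
      obtain ⟨h1, h2⟩ := mem_filter.1 hb
      refine le_trans (Nat.cast_le.2 (card_pairs_le (n := n) (h2 ▸ (Nat.mul_pos
        (mem_Icc.1 (mem_product.1 h1).1).1 (mem_Icc.1 (mem_product.1 h1).2).1).ne') _
        fun x hx => (mem_filter.1 hx).2)) ?_
      exact (h.tau n (hn.trans (h.qpow (by norm_num)))).trans
        (le_mul_of_one_le_right (by linarith) hf))
    (hc.trans (h.qpow (by norm_num))) (cII.trans (h.qpow (by norm_num)))
    ((G2.prod (fun a => α a.1) (fun b => rh z b.1.2) (fun a ha => (hS _ (mem_product.1 ha).1).2.2.2)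
      fun b _ => abs_rh_le _ _).mul ((hL fun a => ((lo a.1 / (a.2.1 * a.2.2) : ℕ) : ℝ)).mul
        ((hL fun a => ((hi a.1 / (a.2.1 * a.2.2) : ℕ) : ℝ)).compl.mono
          (B' := 396 * Real.log Q) (by linarith))))
  have key : ∀ s ∈ S, α s * ∑ v ∈ Ioc (lo s) (hi s), rh z v * G s v =
      ∑ e ∈ E0 z (pA Q Y) (r s) X, α s * mu e * ∑ v ∈ Ioc (lo s / e) (hi s / e), ∑ j ∈ Icc 1 X,
        rh z j * w (r s * e * v * j) -
      ∑ x ∈ E1 z (pA Q Y) (r s) X, ∑ b ∈ Icc 1 X ×ˢ Icc 1 X, ∑ e ∈ Icc 1 X,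
        α s * rh z b.2 * ((if ((lo s / (x.1 * x.2) : ℕ) : ℝ) < ((e * b.1 : ℕ) : ℝ) then 1 else 0) *
          (1 - if ((hi s / (x.1 * x.2) : ℕ) : ℝ) < ((e * b.1 : ℕ) : ℝ) then 1 else 0)) *
        ((if gp e < x.2 then mu x.1 * mu e else 0) * w (r s * x.1 * x.2 * (b.1 * b.2 * e))) := by
    intro s hs
    have a1 := hSPL z (pA Q Y) (r s) X (fun v => if v ∈ Ioc (lo s) (hi s) then G s v else 0)
      (hS s hs).1 (hS s hs).2.1 fun j hj => if_neg fun hj' => by
        have := hhi s hs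
        have := (mem_Ioc.1 hj').2
        omega
    have a2 := h2_ioc (lo := lo s) le_rfl (hhi s hs) fun v => rh z v * G s v
    simp only [one_mul, Nat.div_one] at a2
    simp only [mul_ite, mul_zero] at a1
    rw [← a2, a1, mul_sub, mul_sum, mul_sum]
    congr 1
    · refine sum_congr rfl fun e he => ?_
      rw [h2_ioc (mem_Icc.1 (mem_filter.1 he).1).1 (hhi s hs), mul_assoc]
      simp only [hG, mul_assoc]
    · refine sum_congr rfl fun x hx => ?_
      have a3 := mem_product.1 (mem_filter.1 hx).1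
      have a4 := Nat.mul_pos (mem_Icc.1 a3.1).1 (mem_Icc.1 a3.2).1
      rw [sum_comm (s := Icc 1 X ×ˢ Icc 1 X), mul_sum]
      refine sum_congr rfl fun e _ => ?_
      rw [sum_product, mul_sum]
      refine sum_congr rfl fun v _ => ?_
      simp only [Nat.cast_lt, Nat.div_lt_iff_lt_mul a4, mem_Ioc,
        show e * v * (x.1 * x.2) = x.1 * x.2 * e * v by ring]
      by_cases b1 : lo s < x.1 * x.2 * e * v
      · by_cases b2 : hi s < x.1 * x.2 * e * v
        · simp [b1, b2, not_le.2 b2]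
        · simp only [b1, b2, not_lt.1 b2, and_self, if_true, if_false, hG, mul_sum]
          refine sum_congr rfl fun j _ => ?_
          rw [show r s * (x.1 * x.2 * e * v) * j = r s * x.1 * x.2 * (v * j * e) by ring]
          ring
      · simp [b1]
  rw [sum_congr rfl key, sum_sub_distrib]
  rw [sum_sigma] at h1
  refine (abs_sub _ _).trans ((add_le_add h1 h2).trans ?_)
  have m1 := h.mix (C := 395 * 396 * 500) (a := 6) (b := 3) ((le_max_right _ _).trans hY)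
    (by norm_num) (by norm_num)
  have m2 := h.mix (C := 2) (a := 2) (b := 0) (by linarith [h.y0]) (by norm_num) (by norm_num)
  have m3 : τ ^ 2 + 1 ≤ Y := by nlinarith
  have p : 0 ≤ f ^ 2 * E := by positivity
  calc _ = f ^ 2 * E * (τ ^ 2 * Y + 395 * 396 * 500 * τ ^ 6 * Real.log Q ^ 3) := by ring
    _ ≤ f ^ 2 * E * (Y * Y) := mul_le_mul_of_nonneg_left (by nlinarith [h.ypos]) p
    _ = _ := by ring

end Pool.Agent.P.MP_8be758_nt.Sq
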