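import Pool.Agent.P.MP_8be758_nt.Sq.IfaceA

/-! Step PRa. -/

set_option autoImplicit false
set_option linter.unusedSectionVars false

namespace Pool.Agent.P.MP_8be758_nt.Sq

open Finset Real Filter Topology
open Pool.Agent.P.MP_e86632_nt (ee nn norm_ee ee_add ee_neg)
open Pool.Agent.P.MP_8be758_nt.Avg (gs gs_pos gs_anti gs_le_one gs_neg)

theorem p_PRa (hRT : S_RT) :
    S_PRa := by
  intro Z τ H1 Hs K ν ν' l hs hH hIn hν hK hKZ
  have t1 := hs.t1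
  have hpos : ∀ p ∈ GG K ν l, (0 : ℝ) ≤ H1 * p.1 * p.2 / ν + 1 := fun p _ => by positivity
  rcases (Hs.filter fun h : ℕ => (ν : ℤ) ∣ (ν' : ℤ) * (h : ℤ) ^ 2 - l).eq_empty_or_nonempty with
    he | ⟨h0, hh0⟩
  · rw [he, card_empty, Nat.cast_zero]
    exact mul_nonneg (by linarith) (sum_nonneg hpos)
  obtain ⟨g0, hg0⟩ : ∃ g0 : ℕ, g0 = Nat.gcd ν ν' := ⟨_, rfl⟩
  have g0p : 0 < g0 := by rw [hg0]; exact Nat.gcd_pos_of_pos_left _ hν
  have hco : Nat.Coprime (ν / g0) (ν' / g0) := by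
    rw [hg0]; exact Nat.coprime_div_gcd_div_gcd (by rw [← hg0]; exact g0p)
  obtain ⟨q, hq⟩ : g0 ∣ ν := by rw [hg0]; exact Nat.gcd_dvd_left _ _
  obtain ⟨u, hu⟩ : g0 ∣ ν' := by rw [hg0]; exact Nat.gcd_dvd_right _ _
  rw [hq, hu, Nat.mul_div_cancel_left _ g0p, Nat.mul_div_cancel_left _ g0p] at hco
  have qp : 0 < q := Nat.pos_of_ne_zero fun h => by rw [h, mul_zero] at hq; omega
  have hqz : (ν : ℤ) = g0 * q := by exact_mod_cast hq
  have huz : (ν' : ℤ) = g0 * u := by exact_mod_cast hu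
  obtain ⟨r, hr⟩ : (g0 : ℤ) ∣ l := by
    have h1 : (g0 : ℤ) ∣ (ν' : ℤ) * (h0 : ℤ) ^ 2 - l :=
      dvd_trans ⟨q, hqz⟩ (mem_filter.1 hh0).2
    have h2 : (g0 : ℤ) ∣ (ν' : ℤ) * (h0 : ℤ) ^ 2 :=
      Dvd.dvd.mul_right (show (g0 : ℤ) ∣ (ν' : ℤ) from ⟨u, huz⟩) _
    have h3 := dvd_sub h2 h1
    rwa [sub_sub_cancel] at h3
  have g0z : (g0 : ℤ) ≠ 0 := by exact_mod_cast g0p.ne'
  have hRT' := hRT q u r H1 H1
    ((Hs.filter fun h : ℕ => (ν : ℤ) ∣ (ν' : ℤ) * (h : ℤ) ^ 2 - l).image fun h : ℕ => (h : ℤ)) qp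
    (Nat.isCoprime_iff_coprime.2 hco.symm) hH (by
      intro t ht
      obtain ⟨h, hh, rfl⟩ := mem_image.1 ht
      obtain ⟨h1, h2⟩ := mem_filter.1 hh
      have h3 := hIn h h1
      refine ⟨by exact_mod_cast h3.1, by push_cast; linarith [h3.2], ?_⟩
      rw [hqz, huz, hr, mul_assoc, ← mul_sub] at h2
      exact (mul_dvd_mul_iff_left g0z).1 h2)
  rw [card_image_of_injective _ Nat.cast_injective] at hRT'
  have hqν : q ≤ ν := by rw [hq]; exact Nat.le_mul_of_pos_left _ g0p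
  have hgν : g0 ≤ ν := by rw [hq]; exact Nat.le_mul_of_pos_right _ qp
  have hdv : (q.divisors.card : ℝ) ≤ τ := by
    refine hs.dv q ?_
    have h1 : (q : ℝ) ≤ K := by exact_mod_cast hqν.trans hK
    have h2 := hs.pow (show 1 ≤ 5 by norm_num)
    rw [pow_one] at h2
    linarith
  have hsum : ∑ g ∈ (Icc 1 q).filter (fun g : ℕ => g ^ 2 ∣ q ∧ (g : ℤ) ^ 2 ∣ 4 * r),
      (H1 * g / q + 1) ≤ ∑ p ∈ GG K ν l, (H1 * p.1 * p.2 / ν + 1) := by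
    have e : ∑ g ∈ (Icc 1 q).filter (fun g : ℕ => g ^ 2 ∣ q ∧ (g : ℤ) ^ 2 ∣ 4 * r),
        (H1 * g / q + 1) = ∑ p ∈ ((Icc 1 q).filter
          (fun g : ℕ => g ^ 2 ∣ q ∧ (g : ℤ) ^ 2 ∣ 4 * r)).image (fun g : ℕ => (g0, g)),
          (H1 * (p.1 : ℝ) * p.2 / ν + 1) := by
      rw [sum_image fun a _ b _ hab => (Prod.ext_iff.1 hab).2]
      refine sum_congr rfl fun g _ => ?_
      have h1 : (g0 : ℝ) ≠ 0 := by exact_mod_cast g0p.ne'
      have h2 : (q : ℝ) ≠ 0 := by exact_mod_cast qp.ne'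
      rw [hq]; push_cast; field_simp
    rw [e]
    refine sum_le_sum_of_subset_of_nonneg ?_ fun p hp _ => hpos p hp
    intro p hp
    obtain ⟨g, hg, rfl⟩ := mem_image.1 hp
    obtain ⟨h1, h2, h3⟩ := mem_filter.1 hg
    have h4 := mem_Icc.1 h1
    refine mem_filter.2 ⟨mem_product.2 ⟨mem_Icc.2 ⟨g0p, hgν.trans hK⟩,
      mem_Icc.2 ⟨h4.1, h4.2.trans (hqν.trans hK)⟩⟩, ?_, ?_⟩
    · rw [hq]; exact Nat.mul_dvd_mul_left _ h2
    · have e2 : 4 * l = g0 * (4 * r) := by rw [hr]; ring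
      rw [e2]; push_cast
      exact mul_dvd_mul_left _ h3
  refine hRT'.trans (mul_le_mul hdv hsum (sum_nonneg fun _ _ => by positivity) (by linarith))

end Pool.Agent.P.MP_8be758_nt.Sq
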