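import Pool.Agent.P.MP_8be758_nt.Sq.IfaceA

/-! Step Q1a. -/

set_option autoImplicit false
set_option linter.unusedSectionVars false

namespace Pool.Agent.P.MP_8be758_nt.Sq

open Finset Real Filter Topology
open Pool.Agent.P.MP_e86632_nt (ee nn norm_ee ee_add ee_neg)
open Pool.Agent.P.MP_8be758_nt.Avg (gs gs_pos gs_anti gs_le_one gs_neg)

theorem q1a_num {Z c Δ T N H u v w t s : ℝ} (P : Pa Z c Δ T) (hN : 1 ≤ N) (hc : 4 * N ≤ c ^ 2)
    (hT : 4 * N * T ≤ c * Δ) (hu : 0 ≤ u) (hv : 0 ≤ v) (hw : 0 < w) (e : w ^ 2 = u ^ 2 + v ^ 2)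
    (w1 : 2 * N ≤ w ^ 2) (w2 : w ^ 2 ≤ 4 * N) (H0 : 0 ≤ H) (hH : 2 * H ≤ c)
    (ht : t = c * (u + v) / w ^ 2) (hs : s = Δ / w) :
    0 < s ∧ 3 * T * s ≤ t ∧ 1 ≤ t ∧ t ≤ Z ∧ (t / s) ^ 2 ≤ Z ∧ H * (u + v) * t ≤ Z ∧
      t ^ 2 ≤ c ^ 2 / N ∧ H * (u + v) ≤ 6 * H * N / c * t ∧ T ≤ t * s := by
  have hz := P.z
  have h1 := P.t
  have d3 : 3 ≤ Δ := by linarith [P.td]
  have c0 : 0 < c := by nlinarith [P.tc]
  have r1 : w ≤ u + v := abs_le_of_sq_le_sq' (by nlinarith [mul_nonneg hu hv]) (by linarith) |>.2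
  have r2 : (u + v) ^ 2 ≤ 2 * w ^ 2 := by nlinarith [sq_nonneg (u - v)]
  have wc : w ≤ c := abs_le_of_sq_le_sq' (by linarith) c0.le |>.2
  have t1 : c / w ≤ t := by
    rw [ht, div_le_div_iff₀ hw (by positivity)]
    nlinarith [mul_le_mul_of_nonneg_left r1 (mul_pos c0 hw).le]
  have t2 : 1 ≤ t := le_trans ((one_le_div hw).2 wc) t1
  have t3 : t ^ 2 ≤ c ^ 2 / N := by
    rw [ht, div_pow, div_le_div_iff₀ (by positivity) (by linarith)]
    have h2 : (u + v) ^ 2 * N ≤ w ^ 2 * w ^ 2 := by nlinarith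
    nlinarith [mul_le_mul_of_nonneg_left h2 (sq_nonneg c)]
  have t4 : c ^ 2 / N ≤ c ^ 2 := div_le_self (sq_nonneg c) hN
  refine ⟨by rw [hs]; positivity, le_trans ?_ t1, t2, by nlinarith [P.cz], ?_, ?_, t3, ?_, ?_⟩
  · rw [hs, ← mul_div_assoc]
    exact div_le_div_of_nonneg_right P.tc hw.le
  · have e2 : (t / s) ^ 2 = c ^ 2 * (u + v) ^ 2 / (w ^ 2 * Δ ^ 2) := by
      rw [ht, hs]; field_simp
    rw [e2]
    refine le_trans ?_ P.cz
    rw [div_le_iff₀ (by positivity)]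
    refine mul_le_mul_of_nonneg_left (r2.trans ?_) (sq_nonneg c)
    rw [mul_comm]
    exact mul_le_mul_of_nonneg_left (by nlinarith) (sq_nonneg w)
  · have e2 : H * (u + v) * t = H * c * (u + v) ^ 2 / w ^ 2 := by rw [ht]; field_simp
    rw [e2]
    refine le_trans ?_ P.cz
    rw [div_le_iff₀ (by positivity)]
    calc H * c * (u + v) ^ 2 ≤ H * c * (2 * w ^ 2) :=
          mul_le_mul_of_nonneg_left r2 (by positivity)
      _ = 2 * H * (c * w ^ 2) := by ring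
      _ ≤ c * (c * w ^ 2) := mul_le_mul_of_nonneg_right hH (by positivity)
      _ = _ := by ring
  · have e2 : 6 * H * N / c * t = H * (u + v) * (6 * N / w ^ 2) := by rw [ht]; field_simp
    rw [e2]
    refine le_mul_of_one_le_right (by positivity) ?_
    rw [one_le_div (by positivity)]; linarith
  · have e2 : c / w * s = c * Δ / w ^ 2 := by rw [hs]; field_simp
    refine le_trans ?_ (mul_le_mul_of_nonneg_right t1 (by rw [hs]; positivity))
    rw [e2, le_div_iff₀ (by positivity)]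
    nlinarith

theorem p_Q1a (hGP2 : S_GP2) :
    S_Q1a := by
  obtain ⟨C, hC, h⟩ := hGP2
  refine ⟨C, hC, fun Z c Δ T N θ H M R0 n1 n2 P hN hc hT a1 a2 b1 b2 hH hM hM2 hR hR2 hθ => ?_⟩
  have p1 : (0 : ℝ) ≤ n1 := Nat.cast_nonneg _
  have p2 : (0 : ℝ) ≤ n2 := Nat.cast_nonneg _
  have ew : √((n1 : ℝ) + n2) ^ 2 = n1 + n2 := Real.sq_sqrt (by positivity)
  obtain ⟨s0, k1, k2, k3, k4, k5, k6, k7, k8⟩ := q1a_num (H := H) (u := √(n1 : ℝ))
    (v := √(n2 : ℝ)) (w := √((n1 : ℝ) + n2)) (t := tw c n1 n2) (s := sw Δ n1 n2) P hN hc hT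
    (Real.sqrt_nonneg _) (Real.sqrt_nonneg _) (Real.sqrt_pos.2 (by linarith))
    (by rw [ew, Real.sq_sqrt p1, Real.sq_sqrt p2]) (by linarith) (by linarith)
    (Nat.cast_nonneg _) hH (by rw [ew]; rfl) rfl
  refine h Z T _ _ θ M _ P.z P.t s0 k1 k2 k3 k4
    ((mul_le_mul_of_nonneg_right hθ (by linarith)).trans k5) ?_ hM2 (fun p hp => ?_) fun p hp => ?_
  · rw [mul_div_assoc] at hM; linarith
  · refine le_trans ?_ hR2
    exact_mod_cast abs_le.2 (mem_Icc.1 hp)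
  · have h1 : (R0 : ℝ) + 1 ≤ |(p : ℝ)| := by
      have : (R0 : ℤ) + 1 ≤ |p| := by
        by_contra h2
        exact hp (mem_Icc.2 (abs_le.1 (by omega)))
      exact_mod_cast this
    generalize tw c n1 n2 = t at *
    have h2 : |θ| ≤ |(p : ℝ)| * t :=
      hθ.trans (k7.trans (mul_le_mul_of_nonneg_right (hR.trans h1) (by linarith)))
    have h3 : |(p : ℝ)| * t ≤ |θ - 2 * p * t| := by
      have h4 := abs_sub_abs_le_abs_sub (2 * p * t) θ
      rw [abs_sub_comm, abs_mul, abs_mul, abs_two, abs_of_pos (by linarith : 0 < t)] at h4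
      linarith
    refine ⟨h3, k8.trans (mul_le_mul_of_nonneg_right (le_trans ?_ h3) s0.le)⟩
    exact le_mul_of_one_le_left (by linarith) (by linarith [Nat.cast_nonneg (α := ℝ) R0])

end Pool.Agent.P.MP_8be758_nt.Sq
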