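import Pool.Agent.P.MP_8be758_nt.Sq.IfaceE

/-! Step SG0. -/

set_option autoImplicit false
set_option linter.unusedSectionVars false

namespace Pool.Agent.P.MP_8be758_nt.Sq

open Finset Real Filter Topology ArithmeticFunction
open Pool.Agent.P.MP_e86632_nt (ee nn)
open Pool.Agent.P.MP_8be758_nt.Avg (gs Rough)

theorem sg0_two {s : ℕ} (f : Finset (Fin s) → ℝ) :
    ∑ A ∈ powersetCard 2 univ, f A = ∑ i, ∑ j, if i < j then f {i, j} else 0 := by
  rw [← sum_product', ← sum_filter]
  symm
  refine sum_bij (fun p _ => {p.1, p.2}) (fun p hp => ?_) (fun p hp q hq h => ?_) (fun A hA => ?_)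
    fun _ _ => rfl
  · exact mem_powersetCard.2 ⟨subset_univ _, card_pair (mem_filter.1 hp).2.ne⟩
  · have h1 := (mem_filter.1 hp).2
    have h2 := (mem_filter.1 hq).2
    have a1 : p.1 ∈ ({q.1, q.2} : Finset (Fin s)) := h ▸ by simp
    have a2 : p.2 ∈ ({q.1, q.2} : Finset (Fin s)) := h ▸ by simp
    have a3 : q.1 ∈ ({p.1, p.2} : Finset (Fin s)) := h.symm ▸ by simp
    have a4 : q.2 ∈ ({p.1, p.2} : Finset (Fin s)) := h.symm ▸ by simp
    simp only [mem_insert, mem_singleton] at a1 a2 a3 a4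
    exact Prod.ext (by omega) (by omega)
  · obtain ⟨a, b, hab, rfl⟩ := card_eq_two.1 (mem_powersetCard.1 hA).2
    rcases lt_or_gt_of_ne hab with h | h
    · exact ⟨(a, b), by simpa using h, rfl⟩
    · exact ⟨(b, a), by simpa using h, pair_comm _ _⟩

theorem sg0_sum {s : ℕ} (f : Finset (Fin s) → ℝ) (h : ∀ A, 3 ≤ A.card → f A = 0) :
    ∑ A, f A = f ∅ + ∑ i, f {i} + ∑ i, ∑ j, if i < j then f {i, j} else 0 := by
  have e : ∀ n, ∑ A ∈ powersetCard n univ, f A = ∑ A, if A.card = n then f A else 0 := fun n => by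
    rw [← sum_filter, powersetCard_eq_filter, powerset_univ]
  have e0 := e 0
  have e1 := e 1
  rw [powersetCard_zero, sum_singleton] at e0
  rw [powersetCard_one, sum_map] at e1
  rw [← sg0_two, e 2, e0]
  erw [e1]
  rw [← sum_add_distrib, ← sum_add_distrib]
  refine sum_congr rfl fun A _ => ?_
  rcases le_or_gt 3 A.card with h3 | h3
  · simp [h A h3]
  · generalize A.card = n at h3
    interval_cases n <;> simp

theorem p_SG0 :
    S_SG0 := by
  intro s x y h
  have y0 := h.y0
  have y1 := h.y1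
  have hc : ∀ A : Finset (Fin s), 4 * (A.card : ℝ) ≤ ∑ i ∈ A, x i := fun A => by
    simpa [mul_comm] using card_nsmul_le_sum A x 4 fun i _ => h.lo i
  have h3 : ∀ A : Finset (Fin s), 3 ≤ A.card → ¬ ∑ i ∈ A, x i < 12 - y := fun A hA => by
    have : (3 : ℝ) ≤ A.card := by exact_mod_cast hA
    have := hc A
    linarith
  have key : ∀ ε : ℝ, ∑ A : Finset (Fin s), (if ∑ i ∈ A, x i < 12 - y then ε ^ A.card else 0) =
      1 + ε * Kc x y + ε ^ 2 * Jc x y := fun ε => by
    rw [sg0_sum _ fun A hA => if_neg (h3 A hA), if_pos (by simp; linarith), Kc, Jc, mul_sum, mul_sum]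
    congr 1
    · simp
    · refine sum_congr rfl fun i _ => ?_
      rw [mul_sum]
      refine sum_congr rfl fun j _ => ?_
      by_cases hij : i < j
      · simp [hij, sum_pair hij.ne, card_pair hij.ne]
      · simp [hij]
  have hM : M1t (chl y x) = 1 - Kc x y + Jc x y := by
    have := key (-1)
    rw [M1t, show 1 - Kc x y + Jc x y = 1 + -1 * Kc x y + (-1) ^ 2 * Jc x y by ring, ← this]
    refine sum_congr rfl fun A _ => if_congr ?_ rfl rfl
    have := h.gap A
    have e0 : chl y x A 0 = decide (∑ i ∈ A, x i < 12 + 100 * y) := rfl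
    rw [e0, decide_eq_true_eq]
    constructor <;> intro _ <;> rcases this with _ | _ <;> linarith
  have hT : TCt (chl y x) = 2 ^ s - 2 * (1 + Kc x y + Jc x y) := by
    have k1 := key 1
    simp only [one_pow, one_mul] at k1
    have k2 : ∑ A : Finset (Fin s), (if ∑ i ∈ Aᶜ, x i < 12 - y then (1 : ℝ) else 0) =
        1 + Kc x y + Jc x y := by
      rw [← k1]
      exact Fintype.sum_bijective compl compl_bijective _ _ fun _ => rfl
    have k3 : ∑ _A : Finset (Fin s), (1 : ℝ) = 2 ^ s := by simp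
    rw [two_mul, ← sub_sub, ← k3]
    nth_rewrite 2 [← k2]
    rw [← k1, ← sum_sub_distrib, ← sum_sub_distrib, TCt]
    refine sum_congr rfl fun A _ => ?_
    have g1 := h.gap A
    have g2 := h.gap Aᶜ
    have g3 := sum_add_sum_compl A x
    have g4 := h.tot1
    have g5 := h.tot2
    have e2 : chl y x A 2 = decide (∑ i ∈ A, x i < 14) := rfl
    have e3 : chl y x A 3 = decide (∑ i ∈ A, x i < 34) := rfl
    simp only [e2, e3, decide_eq_true_eq]
    rcases g1 with g1 | g1 <;> rcases g2 with g2 | g2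
    · linarith
    · rw [if_neg fun e => e.1 (by linarith), if_pos g1, if_neg (by linarith)]; ring
    · rw [if_neg fun e => by linarith [e.2], if_neg (by linarith), if_pos g2]; ring
    · rw [if_pos ⟨by linarith, by linarith⟩, if_neg (by linarith), if_neg (by linarith)]; ring
  have hZ : NZt (chl y x) = 0 := by
    refine sum_eq_zero fun A _ => if_neg fun ⟨h0, h1⟩ => ?_
    have : (1 : ℝ) ≤ A.card := by exact_mod_cast card_pos.2 (nonempty_iff_ne_empty.2 h0)
    have := hc A
    have e7 : chl y x A 7 = decide (∑ i ∈ A, x i < 4) := rfl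
    have e8 : chl y x A 8 = decide (∑ i ∈ A, x i < 12 - y) := rfl
    have e0 : chl y x A 0 = decide (∑ i ∈ A, x i < 12 + 100 * y) := rfl
    have e9 : chl y x A 9 = decide (∑ i ∈ A, x i < 16 - 100 * y) := rfl
    have e10 : chl y x A 10 = decide (∑ i ∈ A, x i < 16 + y) := rfl
    simp only [e7, e8, e0, e9, e10, decide_eq_true_eq, not_lt] at h1
    rcases h.gap A with g | g <;> rcases h1 with h1 | ⟨h1, h2⟩ | ⟨h1, h2⟩ <;> linarith
  refine ⟨by rw [Phi, hM, hT, hZ, F0]; ring, ?_, ?_, ?_⟩
  · exact sum_nonneg fun _ _ => sum_nonneg fun _ _ => by split_ifs <;> norm_num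
  · exact sum_nonneg fun _ _ => sum_nonneg fun _ _ => sum_nonneg fun _ _ => by
      split_ifs <;> norm_num
  · exact sum_nonneg fun _ _ => sum_nonneg fun _ _ => by split_ifs <;> norm_num

end Pool.Agent.P.MP_8be758_nt.Sq
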