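import Pool.Agent.P.MP_8be758_nt.Sq.IfaceA

/-! Step T2C. -/

set_option autoImplicit false
set_option linter.unusedSectionVars false

namespace Pool.Agent.P.MP_8be758_nt.Sq

open Finset Real Filter Topology
open Pool.Agent.P.MP_e86632_nt (ee nn norm_ee ee_add ee_neg)
open Pool.Agent.P.MP_8be758_nt.Avg (gs gs_pos gs_anti gs_le_one gs_neg)

theorem p_T2C (hPF : S_PF) (hT2B : S_T2B) :
    S_T2C := by
  obtain ⟨C1, hC1, hPF⟩ := hPF
  obtain ⟨C2, hC2, hT2B⟩ := hT2B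
  refine ⟨2 * C2 + C1, by positivity, ?_⟩
  intro Z τ c Δ T G R V H1 n1 S Hs a b α ch hP hS hR hV hRV hH1 hHc hG hTG hSin hVin hHs hα hch
    hn1 hn2
  have hZ : (10 : ℝ) ≤ Z := hP.z
  have hc1 : (1 : ℝ) ≤ c := by linarith [hP.c9]
  have hRVZ : 4 * (R * V) ≤ Z := hRV.trans hP.cz
  have hD : 1 ≤ R * V := one_le_mul_of_one_le_of_one_le hR hV
  set B : ℝ := √(c * H1) + R * H1 * √H1 / √c + √H1 * (R * V) / (c * √c) with hB
  have hB0 : 0 ≤ B := by positivity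
  have hτ : 1 ≤ τ := hS.t1
  have hτ2 : 1 ≤ τ ^ 2 := one_le_pow₀ hτ
  have hng : 0 < ngl Z T := ngl_pos (by linarith) T
  have hcard : (((S.sigma fun r => Ioc (a r) (b r)).card : ℕ) : ℝ) ≤ Z ^ 2 := by
    rw [card_sigma]
    push_cast
    have h1 : ∑ r ∈ S, ((Ioc (a r) (b r)).card : ℝ) ≤ ∑ _r ∈ S, 2 * V :=
      sum_le_sum fun r _ => (hVin r).card_le (by linarith) (by linarith)
    have h2 : (S.card : ℝ) ≤ 2 * R := hSin.card_le (by linarith) (by linarith)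
    rw [sum_const, nsmul_eq_mul] at h1
    have h3 : (S.card : ℝ) * (2 * V) ≤ 2 * R * (2 * V) :=
      mul_le_mul_of_nonneg_right h2 (by linarith)
    nlinarith
  have key := hPF Z c Δ T (R * V) H1 (C2 * τ ^ 2 * G * B) n1 ((_ : ℕ) × ℕ)
    (S.sigma fun r => Ioc (a r) (b r)) (fun x => x.1 * x.2) (fun x => α x.1) Hs ch hP hD hRV
    (by
      rintro ⟨r, v⟩ hx
      rw [mem_sigma] at hx
      obtain ⟨h1, h2⟩ := hSin r hx.1
      obtain ⟨h3, h4⟩ := hVin r v hx.2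
      refine ⟨?_, ?_, hα r⟩
      · push_cast
        exact mul_le_mul h1 h3 (by linarith) (by linarith)
      · push_cast
        have := mul_le_mul h2 h4 (by linarith) (by linarith : (0 : ℝ) ≤ 2 * R)
        linarith)
    hcard hH1 hHc hHs hch hn1 hn2
    (by
      intro x hx
      rw [sum_sigma]
      exact hT2B Z τ c G R V H1 (T / Δ) x S Hs a b α ch hS hc1 hP.cZ hR hV hH1 hHc hRVZ hx hP.xi
        hG hTG hSin hVin hHs hα hch)
  rw [sum_sigma] at key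
  have e : ∑ r ∈ S, α r * ∑ v ∈ Ioc (a r) (b r), ∑ j ∈ Icc 1 n1, BW c Δ Hs ch (r * v * j) =
      ∑ r ∈ S, ∑ v ∈ Ioc (a r) (b r), α r * ∑ j ∈ Icc 1 n1, BW c Δ Hs ch (r * v * j) :=
    sum_congr rfl fun r _ => mul_sum _ _ _
  rw [e]
  refine key.trans ?_
  have hGB : 0 ≤ τ ^ 2 * (G * B) := by positivity
  have h1 : C1 * ngl Z T ≤ C1 * (τ ^ 2 * ngl Z T) :=
    mul_le_mul_of_nonneg_left (le_mul_of_one_le_left hng.le hτ2) hC1.le
  have h2 : 0 ≤ C1 * (τ ^ 2 * (G * B)) := by positivity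
  have h3 : 0 ≤ C2 * (τ ^ 2 * ngl Z T) := by positivity
  nlinarith

end Pool.Agent.P.MP_8be758_nt.Sq
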