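import Pool.Agent.P.MP_8be758_nt.Sq.IfaceB

/-! Step TH1. -/

set_option autoImplicit false
set_option linter.unusedSectionVars false

namespace Pool.Agent.P.MP_8be758_nt.Sq

open Finset Real Filter Topology ArithmeticFunction
open Pool.Agent.P.MP_e86632_nt (ee nn)
open Pool.Agent.P.MP_8be758_nt.Avg (gs Rough)

theorem p_TH1 (hAV1 : S_AV1) :
    S_TH1 := by
  classical
  intro Q Y τ c l d R h w hd hR
  have d0 := w.dpos h
  have y0 := h.ypos
  have q0 := h.qpos
  have e0 : Y * (d / (4 * Y)) = d / 4 := by field_simp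
  have dp : 0 < d := by linarith [mul_pos y0 d0]
  have di := w.dinv h
  have d1 : d / (4 * Y) ≤ 1 := by linarith [w.dle h]
  set δ := d / (4 * Y)
  have hl : l + d / 4 ≤ l + 3 * d / 4 := by linarith
  have ci (y : ℝ) := ((hAV1 δ y d0).1).intervalIntegrable (μ := MeasureTheory.volume)
    (l + d / 4) (l + 3 * d / 4)
  have h1 : d / 2 * R ≤ ∑ p ∈ PX Q, bt Q Y c p *
      ∫ l' in (l + d / 4)..(l + 3 * d / 4), comb δ l' √(p : ℝ) := by
    simp only [← intervalIntegral.integral_const_mul]
    rw [← intervalIntegral.integral_finsetSum fun p _ => (ci _).const_mul _]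
    refine le_trans (le_of_eq ?_) (intervalIntegral.integral_mono_on hl
      (intervalIntegrable_const (c := R))
      ((continuous_finsetSum _ fun p _ => continuous_const.mul
        (hAV1 δ _ d0).1).intervalIntegrable _ _) fun x _ => hR x)
    rw [intervalIntegral.integral_const, smul_eq_mul]
    ring
  have h2 : ∀ p ∈ PX Q, bt Q Y c p * ∫ l' in (l + d / 4)..(l + 3 * d / 4), comb δ l' √(p : ℝ) ≤
      (if p ∈ TP Q l d then bt Q Y c p else 0) + 1 / Q ^ 148 := fun p hp => by
    have b0 := bt_nonneg Q Y c p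
    have e1 : 0 < 1 / Q ^ 148 := by positivity
    split_ifs with ht
    · linarith [mul_le_mul_of_nonneg_left ((hAV1 δ √(p : ℝ) d0).2 _ _ hl (by linarith)) b0]
    by_cases hw : InW Q p
    swap
    · rw [bt, if_neg hw]; linarith
    have h3 : ∀ x ∈ Set.Icc (l + d / 4) (l + 3 * d / 4), comb δ x √(p : ℝ) ≤ 1 / Q ^ 148 :=
      fun x hx => by
        refine (comb_far d0 d1 y0.le x _ (not_lt.1 fun hn => ht ?_)).trans ?_
        · rw [e0, nn, abs_lt] at hn
          rw [PX, mem_filter] at hp
          exact mem_filter.2 ⟨hp.1, hp.2, hw, round (√(p : ℝ) - x), by linarith [hx.1],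
            by linarith [hx.2]⟩
        · have h4 := h.qy (a := 12) (k := 3) (b := 1852) (by norm_num) (by norm_num)
          have h5 : 10 / δ ≤ Q ^ 1852 := by
            rw [div_eq_mul_one_div]
            nlinarith [h.y0, mul_pos (pow_pos q0 12) (pow_pos y0 2)]
          calc _ ≤ Q ^ 1852 * (1 / Q ^ 2000) :=
                mul_le_mul h5 (h.neg (by linarith)) (Avg.gs_pos _).le (by positivity)
            _ = _ := by field_simp
    have h6 := intervalIntegral.integral_mono_on hl (ci _) intervalIntegrable_const h3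
    rw [intervalIntegral.integral_const, smul_eq_mul] at h6
    have h7 : bt Q Y c p ≤ 1 := (h.bt_le c p).trans ((div_le_one (by positivity)).2 (by
      have := h.qpow (a := 1) (b := 24) (by norm_num)
      linarith [h.q0]))
    nlinarith [mul_le_mul_of_nonneg_left h6 b0, mul_le_mul_of_nonneg_right h7 e1.le,
      mul_nonneg b0 e1.le]
  refine h1.trans ((sum_le_sum h2).trans ?_)
  have h9 : TP Q l d ⊆ PX Q := fun p hp =>
    mem_filter.2 ⟨(mem_filter.1 hp).1, (mem_filter.1 hp).2.1⟩
  rw [sum_add_distrib, sum_ite_mem, inter_eq_right.2 h9, sum_const, nsmul_eq_mul]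
  have h8 : ((PX Q).card : ℝ) ≤ Q ^ 48 :=
    le_trans (by exact_mod_cast (card_filter_le _ _).trans (by simp)) h.XN_le
  calc _ ≤ ∑ p ∈ TP Q l d, bt Q Y c p + Q ^ 48 * (1 / Q ^ 148) := by gcongr
    _ = _ := by field_simp

end Pool.Agent.P.MP_8be758_nt.Sq
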